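import Pool.Agent.H94.PL.Syc

set_option autoImplicit false

/-!
# [H94 PL SYG] The system satisfies the conditions for the average

`BB_good`: nondegenerate: `BB x (ep i j) = x i - x j`, so `x` is constant, `m • x 0 = 0` and `m` is a unit modulo `ℓ`.
`syC_good`: `self` by symmetry; `ne`: `x = eps v`, `BB = 2 ≠ 0` (`ep i j` with `i < j`); `sep`: for each pair `i < j` there is `v`
with `pr A v = (i, j)` (the degree of `A i - A j` is positive), so all `x ∈ W₁` have `x i = x j`, or all `x ∈ W₂`.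
If `¬ (∀ x ∈ W₁, x i = x j)` for some `(i, j)` and `¬ (∀ x ∈ W₂, x k = x l)` for some `(k, l)`: the relations `x i = x j` for
all `x ∈ W` are equivalence relations; a complete graph is not the union of two proper equivalence relations: `i ~₂ j`
and `k ~₁ l`.  If `i ~₁ k` and `j ~₁ l` ... then `i ~₁ j`, contradiction, etc. (each of the four cross pairs is in `~₁` or `~₂`; at
least one of `i, j` is not `~₁ k` (else `i ~₁ j`), say `¬ i ~₁ k`, then also `¬ i ~₁ l` so `i ~₂ k`, `i ~₂ l`, so `k ~₂ l`,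
contradiction).  So `W₁` or `W₂` has all coordinates equal, so it is zero as `m x = 0`.
-/

namespace Pool.Agent.H94.PL

open Polynomial
open Pool.Agent.H94.PC (Mo Sq Pr pf om Mn mem_Mo mem_Sq mem_Pr mem_pf mem_pf')

section
variable {F : Type} [Field F] [Finite F] {ℓ m : ℕ} (χ : LChar F ℓ)

variable [hl : Fact ℓ.Prime]

theorem XX_eq_zero (hm : Nat.Coprime m ℓ) (x : XX m ℓ) (h : ∀ i j, x.1 i = x.1 j) : x = 0 := by
  apply Subtype.ext
  funext k
  have h1 : ∑ i, x.1 i = (m : ZMod ℓ) * x.1 k := by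
    rw [Finset.sum_congr rfl fun i _ => h i k]
    simp
  rw [XX_sum] at h1
  have h2 : (m : ZMod ℓ) ≠ 0 := by
    intro h0
    have h3 : ℓ ∣ m := (ZMod.natCast_eq_zero_iff m ℓ).1 h0
    have h4 : ℓ ∣ 1 := by
      rw [← hm]
      exact Nat.dvd_gcd h3 dvd_rfl
    exact hl.out.one_lt.ne' (Nat.dvd_one.1 h4)
  rcases mul_eq_zero.1 h1.symm with h3 | h3
  · exact absurd h3 h2
  · exact h3

theorem BB_good (hm : Nat.Coprime m ℓ) : BGood (BB m ℓ) := by
  refine ⟨BB_symm, fun x hx => XX_eq_zero hm x fun i j => ?_⟩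
  have h := hx (ep ℓ i j)
  rw [BB_ep] at h
  exact sub_eq_zero.1 h

/-- every pair is the pair of a prime -/
theorem exists_pr_eq {A : Fin m → F[X]} (hs : Squarefree (dl A))
    (ha : ∀ i k, i ≠ k → 1 ≤ (A i - A k).natDegree) {i k : Fin m} (hik : i < k) :
    ∃ v : pf (dl A), (pr A v).1 = i ∧ (pr A v).2 = k := by
  have hne : A i - A k ≠ 0 := ne_of_sqf hs hik.ne
  have hu : ¬ IsUnit (A i - A k) := by
    intro hu
    have := natDegree_eq_zero_of_isUnit hu
    have := ha i k hik.ne
    omega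
  obtain ⟨Q, hQm, hQi, hQd⟩ := exists_monic_irreducible_factor _ hu
  have hQ : Q ∈ pf (dl A) := (mem_pf (dl_ne_zero hs)).2 ⟨hQm, hQi, hQd.trans (dvd_dl hik.ne)⟩
  refine ⟨⟨Q, hQ⟩, ?_⟩
  rcases pr_unique hs ⟨Q, hQ⟩ hik.ne hQd with ⟨h1, h2⟩ | ⟨h1, h2⟩
  · exact ⟨h1.symm, h2.symm⟩
  · exfalso
    have := pr_lt A ⟨Q, hQ⟩
    rw [← h1, ← h2] at this
    exact lt_asymm hik this

theorem sep_aux {S T : Fin m → Fin m → Prop} (hS1 : ∀ i j, S i j → S j i)
    (hS2 : ∀ i j k, S i j → S j k → S i k) (hT1 : ∀ i j, T i j → T j i)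
    (hT2 : ∀ i j k, T i j → T j k → T i k) (h : ∀ i j, S i j ∨ T i j) :
    (∀ i j, S i j) ∨ (∀ i j, T i j) := by
  by_contra hc
  rw [not_or] at hc
  obtain ⟨h1, h2⟩ := hc
  push Not at h1 h2
  obtain ⟨i, j, hij⟩ := h1
  obtain ⟨k, l, hkl⟩ := h2
  have hSkl : S k l := (h k l).resolve_right hkl
  by_cases hik : S i k
  · have hjk : ¬ S j k := fun hjk => hij (hS2 _ _ _ hik (hS1 _ _ hjk))
    have hjl : ¬ S j l := fun hjl => hjk (hS2 _ _ _ hjl (hS1 _ _ hSkl))
    exact hkl (hT2 _ _ _ (hT1 _ _ ((h j k).resolve_left hjk)) ((h j l).resolve_left hjl))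
  · have hil : ¬ S i l := fun hil => hik (hS2 _ _ _ hil (hS1 _ _ hSkl))
    exact hkl (hT2 _ _ _ (hT1 _ _ ((h i k).resolve_left hik)) ((h i l).resolve_left hil))

theorem syC_good (h2 : ℓ ≠ 2) (hm : Nat.Coprime m ℓ) (c : F) {A : Fin m → F[X]}
    (hs : Squarefree (dl A)) (ha : ∀ i k, i ≠ k → 1 ≤ (A i - A k).natDegree) :
    (syC χ c A).Good (BB m ℓ) := by
  refine ⟨fun x y => ?_, fun v => ⟨(syC χ c A).eps v, ?_⟩, fun W₁ W₂ hW => ?_⟩
  · simp only [syC, LinearMap.sub_apply, LinearMap.smul_apply, LinearMap.sum_apply,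
      LinearMap.smulRight_apply, LinearMap.id_apply, map_sub, map_sum, map_smul, smul_eq_mul]
    congr 1
    refine Finset.sum_congr rfl fun p _ => ?_
    rw [BB_symm x (ep ℓ p.1 p.2)]
    ring
  · change BB m ℓ (ep ℓ (pr A v).1 (pr A v).2) (ep ℓ (pr A v).1 (pr A v).2) ≠ 0
    have h3 := (pr_lt A v).ne
    rw [BB_ep, ep_apply, ep_apply, if_pos rfl, if_neg h3, if_neg h3.symm, if_pos rfl]
    intro h0
    have h4 : ((2 : ℕ) : ZMod ℓ) = 0 := by
      push_cast
      linear_combination h0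
    have h5 := (ZMod.natCast_eq_zero_iff 2 ℓ).1 h4
    exact h2 ((Nat.prime_dvd_prime_iff_eq hl.out Nat.prime_two).1 h5)
  · have key : ∀ i j, (∀ x ∈ W₁, x.1 i = x.1 j) ∨ (∀ x ∈ W₂, x.1 i = x.1 j) := by
      intro i j
      rcases lt_trichotomy i j with hij | hij | hij
      · obtain ⟨v, h3, h4⟩ := exists_pr_eq hs ha hij
        rcases hW v with h | h
        · left
          intro x hx
          have := h x hx
          change BB m ℓ x (ep ℓ (pr A v).1 (pr A v).2) = 0 at this
          rw [h3, h4, BB_ep] at this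
          exact sub_eq_zero.1 this
        · right
          intro x hx
          have := h x hx
          change BB m ℓ x (ep ℓ (pr A v).1 (pr A v).2) = 0 at this
          rw [h3, h4, BB_ep] at this
          exact sub_eq_zero.1 this
      · left
        intro x _
        rw [hij]
      · obtain ⟨v, h3, h4⟩ := exists_pr_eq hs ha hij
        rcases hW v with h | h
        · left
          intro x hx
          have := h x hx
          change BB m ℓ x (ep ℓ (pr A v).1 (pr A v).2) = 0 at this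
          rw [h3, h4, BB_ep] at this
          exact (sub_eq_zero.1 this).symm
        · right
          intro x hx
          have := h x hx
          change BB m ℓ x (ep ℓ (pr A v).1 (pr A v).2) = 0 at this
          rw [h3, h4, BB_ep] at this
          exact (sub_eq_zero.1 this).symm
    rcases sep_aux (S := fun i j => ∀ x ∈ W₁, x.1 i = x.1 j)
      (T := fun i j => ∀ x ∈ W₂, x.1 i = x.1 j) (fun i j h x hx => (h x hx).symm)
      (fun i j k h h' x hx => (h x hx).trans (h' x hx)) (fun i j h x hx => (h x hx).symm)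
      (fun i j k h h' x hx => (h x hx).trans (h' x hx)) key with h | h
    · left
      rw [Submodule.eq_bot_iff]
      exact fun x hx => XX_eq_zero hm x fun i j => h i j x hx
    · right
      rw [Submodule.eq_bot_iff]
      exact fun x hx => XX_eq_zero hm x fun i j => h i j x hx

end

end Pool.Agent.H94.PL
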