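import Pool.Agent.H94.PL.Nf
import Pool.Agent.H94.LT.Fin
import Pool.Agent.H94.LT.Inf

set_option autoImplicit false

/-!
# [H94 PL TR] From the completions to exponents

`M` is the completion at `P`.
`tr_val`: `x = P^k a / (P^j b)` with `a, b` prime to `P`; `LT.val_A_eq_one_iff`, `LT.val_gen`: `w x = exp (j - k)`;
`Vd.val` gives `ℓ ∣ j - k`.
`exists_of_Cl_l` is `LT.exists_of_Cl` with `ℓ` instead of `2` (adapt its proof: density of `K` in the completion; then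
an element of the ring `F[X]`).
`tr_cl`: `ex ℓ P x = 0` by `tr_val` and `Cl.vd`.  `normal_form` with `T`: `x = g * y ^ ℓ`, `g = C c * ∏ Q ^ (ex Q x).val`,
not divisible by `P`; `Cl` of the image of `g` (`Cl.mul`, `Cl.self_pow`, `Cl.inv`).  So `P ∣ g u^ℓ - 1` for a polynomial `u`,
`lm χ (g u^ℓ) P = lm χ 1 P = 0` (`lm_congr`, `lm_one_left`), `lm χ g P = 0` (`lm_mul_left`, `lm_pow_left`; `u` is prime to
`P`), and `lm_mul_left`, `lm_C`, `lm_prod_left`, `lm_pow_left`.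
`tr_inf`: `normal_form`: `Vd` of the image of `g`, `w g = exp (deg g)` (`LT.val_inf_poly`), `Vd.val`, `natDegree_prod`.
-/

namespace Pool.Agent.H94.PL

open Polynomial WithZero IsDedekindDomain
open Pool.Agent.H94 (LT.place)

variable {F : Type} [Field F] {ℓ : ℕ} [hl : Fact ℓ.Prime]

/-- the map to the completion at `P` -/
noncomputable def toP (P : F[X]) (hP : Irreducible P) :
    RatFunc F →+* (LT.place P hP).adicCompletion (RatFunc F) :=
  algebraMap (RatFunc F) ((LT.place P hP).adicCompletion (RatFunc F))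

/-- the valuation of the completion at `P` -/
noncomputable def wP (P : F[X]) (hP : Irreducible P) :
    Valuation ((LT.place P hP).adicCompletion (RatFunc F)) ℤᵐ⁰ := Valued.v

theorem wP_self (P : F[X]) (hP : Irreducible P) :
    wP P hP (toP P hP (algebraMap F[X] (RatFunc F) P)) = exp (-1 : ℤ) :=
  LT.val_gen (K := RatFunc F) (LT.place P hP) P hP.ne_zero rfl

theorem wP_le_one (P : F[X]) (hP : Irreducible P) (a : F[X]) :
    wP P hP (toP P hP (algebraMap F[X] (RatFunc F) a)) ≤ 1 := by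
  have h := LT.val_A (K := RatFunc F) (LT.place P hP) a
  have h2 := (LT.place P hP).intValuation_le_one a
  rw [← h] at h2
  exact h2

theorem wP_eq_one {P : F[X]} (hP : Irreducible P) {a : F[X]} (h : ¬ P ∣ a) :
    wP P hP (toP P hP (algebraMap F[X] (RatFunc F) a)) = 1 := by
  refine (LT.val_A_eq_one_iff (K := RatFunc F) (LT.place P hP) a).2 ?_
  intro h2
  exact h (Ideal.mem_span_singleton.1 h2)

/-- simple zeros -/
theorem wP_simple {P : F[X]} (hP : Irreducible P) {a : F[X]} (h : P ∣ a) (hs : ¬ P ^ 2 ∣ a) :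
    wP P hP (toP P hP (algebraMap F[X] (RatFunc F) a)) = exp (-1 : ℤ) := by
  obtain ⟨b, rfl⟩ := h
  have hb : ¬ P ∣ b := by
    rintro ⟨c, rfl⟩
    exact hs ⟨c, by ring⟩
  rw [map_mul, map_mul, map_mul, wP_self, wP_eq_one hP hb, mul_one]

theorem tr_pow {P : F[X]} (hP : Irreducible P) {a : F[X]} (ha : a ≠ 0) :
    wP P hP (toP P hP (algebraMap F[X] (RatFunc F) a)) =
      exp (-((multiplicity P a : ℕ) : ℤ)) := by
  have hf : FiniteMultiplicity P a := FiniteMultiplicity.of_not_isUnit hP.not_isUnit ha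
  obtain ⟨c, hc, hcd⟩ := hf.exists_eq_pow_mul_and_not_dvd
  conv_lhs => rw [hc]
  rw [map_mul, map_mul, map_mul, map_pow, map_pow, map_pow, wP_self, wP_eq_one hP hcd, mul_one,
    ← exp_nsmul]
  congr 1
  simp

theorem tr_val {P : F[X]} (hP : Irreducible P) {x : RatFunc F}
    (h : Vd (wP P hP) ℓ (toP P hP x)) : ex ℓ P x = 0 := by
  have hx : x ≠ 0 := by
    intro h0
    apply h.ne_zero
    rw [h0, map_zero]
  have hn : x.num ≠ 0 := RatFunc.num_ne_zero hx
  have hd : x.denom ≠ 0 := RatFunc.denom_ne_zero x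
  have h1 : wP P hP (toP P hP x) =
      exp (-((multiplicity P x.num : ℕ) : ℤ) + ((multiplicity P x.denom : ℕ) : ℤ)) := by
    conv_lhs => rw [← RatFunc.num_div_denom x]
    rw [map_div₀, map_div₀, tr_pow hP hn, tr_pow hP hd, ← exp_sub]
    congr 1
    ring
  have h2 := h.val h1
  rw [ex, sub_eq_zero]
  have h3 : (((-((multiplicity P x.num : ℕ) : ℤ) + ((multiplicity P x.denom : ℕ) : ℤ) : ℤ)) :
      ZMod ℓ) = 0 := (ZMod.intCast_zmod_eq_zero_iff_dvd _ _).2 h2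
  push_cast at h3
  linear_combination -h3

theorem tr_pow_sub {M : Type*} [Field M] (v : Valuation M ℤᵐ⁰) {s y : M} (hs : v s ≤ 1)
    (hy : v y ≤ 1) (n : ℕ) : v (s ^ n - y ^ n) ≤ v (s - y) := by
  induction n with
  | zero => rw [pow_zero, pow_zero, sub_self, map_zero]; exact zero_le
  | succ n ih =>
    have h : s ^ (n + 1) - y ^ (n + 1) = s ^ n * (s - y) + (s ^ n - y ^ n) * y := by ring
    rw [h]
    refine (v.map_add _ _).trans (max_le ?_ ?_)
    · rw [map_mul, map_pow]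
      exact mul_le_of_le_one_left' (pow_le_one' hs n)
    · rw [map_mul]
      exact (mul_le_of_le_one_right' hy).trans ih

theorem exists_of_Cl_l {A K : Type*} [CommRing A] [IsDedekindDomain A] [Field K] [Algebra A K]
    [IsFractionRing A K] (v : HeightOneSpectrum A) (ϖ : A) (hϖ : ϖ ≠ 0)
    (hv : v.asIdeal = Ideal.span {ϖ}) (g : A) (hg : g ∉ v.asIdeal) (n : ℕ) (hn : n ≠ 0)
    (h : Cl (Valued.v : Valuation (v.adicCompletion K) ℤᵐ⁰) n
      (algebraMap K (v.adicCompletion K) (algebraMap A K g))) :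
    ∃ y : A, g * y ^ n - 1 ∈ v.asIdeal := by
  obtain ⟨s, hs, h1⟩ := h
  have hg1 := (LT.val_A_eq_one_iff (K := K) v g).2 hg
  have hs1 : (Valued.v s : ℤᵐ⁰) = 1 := by
    have h2 := val_eq_one_of_near h1
    rw [map_mul, hg1, one_mul, map_pow] at h2
    have hs0 : (Valued.v s : ℤᵐ⁰) ≠ 0 := (Valuation.ne_zero_iff _).2 hs
    rw [← exp_log hs0, ← exp_nsmul, ← exp_zero, exp_inj, nsmul_eq_mul] at h2
    rw [← exp_log hs0, ← exp_zero, exp_inj]
    rcases mul_eq_zero.1 h2 with h3 | h3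
    · exfalso
      exact hn (by exact_mod_cast h3)
    · exact h3
  obtain ⟨y, hy⟩ := TC.exists_approx (K := K) v ϖ hϖ hv 1 ⟨s, hs1.le⟩
  rw [TC.pow_dvd_iff (K := K) v ϖ hϖ hv] at hy
  have hy1 : (Valued.v (s - algebraMap K (v.adicCompletion K) (algebraMap A K y)) : ℤᵐ⁰) < 1 := by
    rw [LT.lt_one_iff_le]
    have h3 : (((⟨s, hs1.le⟩ : v.adicCompletionIntegers K) -
      algebraMap A (v.adicCompletionIntegers K) y : v.adicCompletionIntegers K) :
      v.adicCompletion K) = s - algebraMap K (v.adicCompletion K) (algebraMap A K y) := by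
      rw [HeightOneSpectrum.algebraMap_adicCompletion]
      push_cast
      rw [HeightOneSpectrum.algebraMap_adicCompletionIntegers_apply]
      rfl
    rw [h3] at hy
    exact_mod_cast hy
  refine ⟨y, ?_⟩
  rw [← LT.val_A_lt_one_iff (K := K)]
  set G := algebraMap K (v.adicCompletion K) (algebraMap A K g) with hG
  set Y := algebraMap K (v.adicCompletion K) (algebraMap A K y) with hY
  have h4 : algebraMap K (v.adicCompletion K) (algebraMap A K (g * y ^ n - 1)) = G * Y ^ n - 1 := by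
    simp only [map_sub, map_mul, map_pow, map_one, hG, hY]
  rw [h4]
  have hYle : (Valued.v Y : ℤᵐ⁰) ≤ 1 := by
    rw [hY, LT.val_A]; exact v.intValuation_le_one y
  have h5 : G * Y ^ n - 1 = (G * s ^ n - 1) - G * (s ^ n - Y ^ n) := by ring
  rw [h5]
  refine lt_of_le_of_lt (Valuation.map_sub _ _ _) (max_lt h1 ?_)
  rw [map_mul, hg1, one_mul]
  exact lt_of_le_of_lt (tr_pow_sub _ hs1.le hYle n) hy1

theorem tr_cl (χ : LChar F ℓ) {P : F[X]} (hm : P.Monic) (hP : Irreducible P) {x : RatFunc F}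
    (hx : x ≠ 0) (T : Finset F[X]) (hT : ∀ Q ∈ T, Q.Monic ∧ Irreducible Q) (hPT : P ∉ T)
    (h : ∀ Q : F[X], Q.Monic → Irreducible Q → Q ∉ T → Q ≠ P → ex ℓ Q x = 0)
    (hc : Cl (wP P hP) ℓ (toP P hP x)) :
    ex ℓ P x = 0 ∧
      (P.natDegree : ZMod ℓ) * kap χ x + ∑ Q ∈ T, ex ℓ Q x * lm χ Q P = 0 := by
  have hNZ : NeZero ℓ := ⟨hl.out.ne_zero⟩
  have h0 : ex ℓ P x = 0 := tr_val hP hc.vd
  refine ⟨h0, ?_⟩
  have h' : ∀ Q : F[X], Q.Monic → Irreducible Q → Q ∉ T → ex ℓ Q x = 0 := by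
    intro Q hQm hQ hQT
    by_cases hQP : Q = P
    · rw [hQP]; exact h0
    · exact h Q hQm hQ hQT hQP
  obtain ⟨c, hc0, y, hy0, hck, hxe⟩ := normal_form χ hx T hT h'
  obtain ⟨g, hg⟩ : ∃ g : F[X], g = C c * ∏ Q ∈ T, Q ^ (ex ℓ Q x).val := ⟨_, rfl⟩
  rw [← hg] at hxe
  have hCu : IsUnit (C c : F[X]) := isUnit_C.2 hc0.isUnit
  have hQP : ∀ Q ∈ T, ¬ P ∣ Q := by
    intro Q hQ hd
    have h1 : Associated P Q := hP.associated_of_dvd (hT Q hQ).2 hd
    have h2 : P = Q := eq_of_monic_of_associated hm (hT Q hQ).1 h1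
    exact hPT (h2 ▸ hQ)
  have hcopQ : ∀ Q ∈ T, IsCoprime Q P := fun Q hQ =>
    ((hP.coprime_iff_not_dvd).2 (hQP Q hQ)).symm
  have hgP : ¬ P ∣ g := by
    intro hd
    rw [hg] at hd
    rcases hP.prime.dvd_or_dvd hd with h1 | h1
    · exact hP.not_isUnit (isUnit_of_dvd_unit h1 hCu)
    · obtain ⟨Q, hQ, h2⟩ := (hP.prime.dvd_finsetProd_iff _).1 h1
      exact hQP Q hQ (hP.prime.dvd_of_dvd_pow h2)
  have hyM : toP P hP y ≠ 0 := by
    rw [Ne, map_eq_zero]
    exact hy0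
  have hclg : Cl (wP P hP) ℓ (toP P hP (algebraMap F[X] (RatFunc F) g)) := by
    rw [hxe, map_mul, map_pow, mul_comm] at hc
    exact hc.cancel (Cl.self_pow hyM)
  obtain ⟨u, hu⟩ := exists_of_Cl_l (K := RatFunc F) (LT.place P hP) P hP.ne_zero rfl g
    (fun h1 => hgP (Ideal.mem_span_singleton.1 h1)) ℓ hl.out.ne_zero hclg
  have hu' : P ∣ g * u ^ ℓ - 1 := Ideal.mem_span_singleton.1 hu
  have huP : ¬ P ∣ u := by
    intro hd
    have h1 : P ∣ g * u ^ ℓ := Dvd.dvd.mul_left (dvd_pow hd hl.out.ne_zero) g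
    have h2 : P ∣ 1 := by
      have h3 := dvd_sub h1 hu'
      rwa [sub_sub_cancel] at h3
    exact hP.not_isUnit (isUnit_of_dvd_one h2)
  have hcg : IsCoprime g P := ((hP.coprime_iff_not_dvd).2 hgP).symm
  have hcu : IsCoprime u P := ((hP.coprime_iff_not_dvd).2 huP).symm
  have h1 : lm χ (g * u ^ ℓ) P = 0 := by
    rw [lm_congr χ hm hu', lm_one_left χ hm]
  rw [lm_mul_left χ hm hcg hcu.pow_left, lm_pow_left χ hm hcu, ZMod.natCast_self, zero_mul,
    add_zero] at h1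
  have hcC : IsCoprime (C c : F[X]) P :=
    ⟨C c⁻¹, 0, by rw [zero_mul, add_zero, ← C_mul, inv_mul_cancel₀ hc0, C_1]⟩
  have hcp : ∀ Q ∈ T, IsCoprime (Q ^ (ex ℓ Q x).val) P := fun Q hQ => (hcopQ Q hQ).pow_left
  rw [hg, lm_mul_left χ hm hcC (IsCoprime.prod_left hcp), lm_C χ hm hc0,
    lm_prod_left χ T _ hm hcp, hck] at h1
  rw [← h1]
  congr 1
  refine Finset.sum_congr rfl fun Q hQ => ?_
  rw [lm_pow_left χ hm (hcopQ Q hQ), ZMod.natCast_zmod_val]

theorem tr_inf [DecidableEq (RatFunc F)] (χ : LChar F ℓ) {x : RatFunc F} (hx : x ≠ 0)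
    (T : Finset F[X]) (hT : ∀ Q ∈ T, Q.Monic ∧ Irreducible Q)
    (h : ∀ Q : F[X], Q.Monic → Irreducible Q → Q ∉ T → ex ℓ Q x = 0)
    (hc : Vd (Valued.v : Valuation (RatFunc.CompletionAtInfty F) ℤᵐ⁰) ℓ
      (algebraMap (RatFunc F) (RatFunc.CompletionAtInfty F) x)) :
    ∑ Q ∈ T, ex ℓ Q x * (Q.natDegree : ZMod ℓ) = 0 := by
  have hNZ : NeZero ℓ := ⟨hl.out.ne_zero⟩
  obtain ⟨c, hc0, y, hy0, hck, hxe⟩ := normal_form χ hx T hT h
  obtain ⟨g, hg⟩ : ∃ g : F[X], g = C c * ∏ Q ∈ T, Q ^ (ex ℓ Q x).val := ⟨_, rfl⟩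
  rw [← hg] at hxe
  have hmon : ∀ Q ∈ T, (Q ^ (ex ℓ Q x).val).Monic := fun Q hQ => (hT Q hQ).1.pow _
  have hg0 : g ≠ 0 := by
    rw [hg]
    exact mul_ne_zero (by rwa [Ne, C_eq_zero]) (monic_prod_of_monic _ _ hmon).ne_zero
  have hyM : algebraMap (RatFunc F) (RatFunc.CompletionAtInfty F) y ≠ 0 := by
    rw [Ne, map_eq_zero]
    exact hy0
  have hclg : Vd (Valued.v : Valuation (RatFunc.CompletionAtInfty F) ℤᵐ⁰) ℓ
      (algebraMap (RatFunc F) (RatFunc.CompletionAtInfty F)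
        (algebraMap F[X] (RatFunc F) g)) := by
    rw [hxe, map_mul, map_pow, mul_comm] at hc
    exact hc.cancel (Vd.self_pow hyM)
  have h2 := hclg.val (LT.val_inf_poly hg0)
  have h3 : ((g.natDegree : ℤ) : ZMod ℓ) = 0 := (ZMod.intCast_zmod_eq_zero_iff_dvd _ _).2 h2
  have h4 : g.natDegree = ∑ Q ∈ T, (ex ℓ Q x).val * Q.natDegree := by
    rw [hg, natDegree_C_mul hc0, natDegree_prod_of_monic _ _ hmon]
    exact Finset.sum_congr rfl fun Q _ => natDegree_pow _ _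
  rw [h4] at h3
  push_cast at h3
  rw [← h3]
  refine Finset.sum_congr rfl fun Q _ => ?_
  rw [ZMod.natCast_zmod_val]

end Pool.Agent.H94.PL
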