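import Pool.Agent.H94.PL.Syc
import Pool.Agent.H94.PL.Tr

set_option autoImplicit false

/-!
# [H94 PL SD] Selmer conditions: definitions
-/

namespace Pool.Agent.H94.PL

open Polynomial IsDedekindDomain
open Pool.Agent.H94.PC (Mo Sq Pr pf om Mn mem_Mo mem_Sq mem_Pr mem_pf mem_pf')

/-- values of the descent map of `D z ^ ℓ = ∏ (x - A_k)` up to `ℓ`-th powers -/
def IsVl {M : Type} [Field M] {m : ℕ} (ℓ α : ℕ) (D : M) (A δ : Fin m → M) : Prop :=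
  ∃ (r : ℕ) (P Q : Fin r → M[X]) (γ : Fin m → M),
    (∀ i, IsMum ℓ D A (P i) (Q i)) ∧ (∀ k, γ k ≠ 0) ∧
      ∀ k, δ k * γ k ^ ℓ = ∏ i, dv α D (P i) (A k)

section
variable {F : Type} [Field F] {m : ℕ}

/-- the twisting polynomial `c D` in `K` -/
noncomputable def DK (c : F) (D : F[X]) : RatFunc F := algebraMap F[X] (RatFunc F) (C c * D)

/-- the `A k` in `K` -/
noncomputable def AK (A : Fin m → F[X]) (k : Fin m) : RatFunc F := algebraMap F[X] (RatFunc F) (A k)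

/-- Selmer conditions over `K` -/
structure IsSl [DecidableEq (RatFunc F)] (ℓ α : ℕ) (c : F) (A : Fin m → F[X]) (D : F[X])
    (δ : Fin m → RatFunc F) : Prop where
  ne : ∀ k, δ k ≠ 0
  prod : ∃ y : RatFunc F, ∏ k, δ k = y ^ ℓ
  fin : ∀ v : HeightOneSpectrum F[X],
    IsVl ℓ α (algebraMap (RatFunc F) (v.adicCompletion (RatFunc F)) (DK c D))
      (fun k => algebraMap (RatFunc F) (v.adicCompletion (RatFunc F)) (AK A k))
      (fun k => algebraMap (RatFunc F) (v.adicCompletion (RatFunc F)) (δ k))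
  inf : IsVl ℓ α (algebraMap (RatFunc F) (RatFunc.CompletionAtInfty F) (DK c D))
      (fun k => algebraMap (RatFunc F) (RatFunc.CompletionAtInfty F) (AK A k))
      (fun k => algebraMap (RatFunc F) (RatFunc.CompletionAtInfty F) (δ k))

end

section
variable {F : Type} [Field F] [Finite F] {ℓ m : ℕ}

/-- the linear relation at `P` -/
def LQ (χ : LChar F ℓ) (A : Fin m → F[X]) (D P : F[X]) (x : RatFunc F) : Prop :=
  ex ℓ P x = 0 ∧ (P.natDegree : ZMod ℓ) * kap χ x + ∑ Q : pf D, ex ℓ Q.1 x * lm χ Q.1 P +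
    ∑ v : pf (dl A), ex ℓ v.1 x * lm χ v.1 P = 0

/-- the consequences of the local conditions -/
structure LocD (χ : LChar F ℓ) (c : F) (A : Fin m → F[X]) (D : F[X]) (δ : Fin m → RatFunc F) :
    Prop where
  ne : ∀ k, δ k ≠ 0
  prod : ∃ y : RatFunc F, ∏ k, δ k = y ^ ℓ
  good : ∀ Q : F[X], Q.Monic → Irreducible Q → ¬ Q ∣ D → ¬ Q ∣ dl A → ∀ k, ex ℓ Q (δ k) = 0
  atD : ∀ P : pf D, ∃ s : Fin m → ℤ, (ℓ : ℤ) ∣ ∑ k, s k ∧
    ∀ k, LQ χ A D P.1 (δ k / tv (DK c D) (AK A) s k)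
  atN : ∀ v : pf (dl A), ∃ s : ℤ, ex ℓ v.1 (δ (pr A v).1) = s ∧
    (∀ k, k ≠ (pr A v).1 → k ≠ (pr A v).2 → ex ℓ v.1 (δ k) = 0) ∧
    LQ χ A D v.1 (δ (pr A v).1 / δ (pr A v).2 *
      nv (DK c D) (AK A) (pr A v).1 (pr A v).2 ^ s)
  inf : ∀ k, ∑ Q : pf D, ex ℓ Q.1 (δ k) * (Q.1.natDegree : ZMod ℓ) +
    ∑ v : pf (dl A), ex ℓ v.1 (δ k) * (v.1.natDegree : ZMod ℓ) = 0

/-- a vector with sum zero -/
noncomputable def toX (f : Fin m → ZMod ℓ) : XX m ℓ := by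
  classical exact if h : ∑ k, f k = 0 then ⟨f, h⟩ else 0

theorem toX_apply {f : Fin m → ZMod ℓ} (h : ∑ k, f k = 0) (k : Fin m) : (toX f).1 k = f k := by
  rw [toX, dif_pos h]

/-- the solution of the linear system -/
noncomputable def zS (χ : LChar F ℓ) (A : Fin m → F[X]) (D : F[X]) (δ : Fin m → RatFunc F) :
    Uk ℓ (XX m ℓ) (dl A) D :=
  (toX fun k => kap χ (δ k), fun v => ex ℓ v.1 (δ (pr A v).1),
    fun P => toX fun k => ex ℓ P.1 (δ k))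

end

section
variable {F : Type} [Field F] [Finite F] {ℓ m : ℕ} [hl : Fact ℓ.Prime] (χ : LChar F ℓ)

theorem DK_ne {c : F} (hc : c ≠ 0) {D : F[X]} (hD : D ≠ 0) : DK c D ≠ 0 := by
  rw [DK, Ne, FaithfulSMul.algebraMap_eq_zero_iff]
  exact mul_ne_zero (C_ne_zero.2 hc) hD

theorem AK_sub_ne {A : Fin m → F[X]} (hs : Squarefree (dl A)) {i k : Fin m} (hik : i ≠ k) :
    AK A i - AK A k ≠ 0 := by
  rw [AK, AK, ← map_sub, Ne, FaithfulSMul.algebraMap_eq_zero_iff]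
  exact ne_of_sqf hs hik

theorem tv_ne {c : F} (hc : c ≠ 0) {D : F[X]} (hD : D ≠ 0) {A : Fin m → F[X]}
    (hs : Squarefree (dl A)) (s : Fin m → ℤ) (k : Fin m) : tv (DK c D) (AK A) s k ≠ 0 := by
  rw [tv]
  refine mul_ne_zero (zpow_ne_zero _ (DK_ne hc hD)) (Finset.prod_ne_zero_iff.2 ?_)
  intro i hi
  exact zpow_ne_zero _ (AK_sub_ne hs (Finset.ne_of_mem_erase hi).symm)

theorem nv_ne {c : F} (hc : c ≠ 0) {D : F[X]} (hD : D ≠ 0) {A : Fin m → F[X]}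
    (hs : Squarefree (dl A)) {i j : Fin m} (hij : i ≠ j) : nv (DK c D) (AK A) i j ≠ 0 := by
  rw [nv]
  refine div_ne_zero (DK_ne hc hD) (mul_ne_zero (pow_ne_zero _ (AK_sub_ne hs hij))
    (Finset.prod_ne_zero_iff.2 ?_))
  intro k hk
  exact AK_sub_ne hs (Finset.ne_of_mem_erase (Finset.mem_of_mem_erase hk)).symm

end

end Pool.Agent.H94.PL
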