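import Pool.Agent.H94.PL.LDt
import Pool.Agent.H94.PL.Sd

set_option autoImplicit false

/-!
# [H94 PL TV] Torsion classes are values of the descent map

Over any field `M`.  `isVl_mul`: concatenate the families (`Fin.append` or an equivalence `Fin (r + r') ≃ Fin r ⊕ Fin r'`).
`isVl_one`: `r = 0`.  `isVl_congr`: change `γ`.
`isVl_T`: for each `i` let `G = C D * (X - C (A i)) ^ (ℓ - 1) - ∏_{k ≠ i} (X - C (A k))`; its degree is `max (ℓ - 1) (m - 1)`
(`m ≠ ℓ` as `m` is prime to `ℓ`), leading coefficient `c' = D` (if `m < ℓ`) or `c' = -1` (if `ℓ < m`); `P = C c'⁻¹ * G` is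
monic, `P ∣ C D * (X - C (A i)) ^ ℓ - fA A` (the quotient is `C c' * (X - C (A i))`), `P(A_k) = D (A_k - A_i)^(ℓ-1) / c' ≠ 0` for
`k ≠ i`, `P(A_i) = -∏_{k ≠ i} (A_i - A_k) / c' ≠ 0`.  So `dv α D P (A k)` is, up to `ℓ`-th powers,
`D^(-α) (A_k - A_i)^(-1)` for `k ≠ i` and `D^(α (m - 1)) ∏_{k ≠ i} (A_i - A_k)` for `k = i` (`ℓ ∣ α m + 1`; `-1` is an `ℓ`-th power).
`isVl_tv`: let `n_k ≥ 0` with `n_k = -s_k` modulo `ℓ`, `N = ∑ n_k = 0` modulo `ℓ`; the product of the `n_i`-th powers of the values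
above is at `k`: `D^(-α N + α m n_k) ∏_{i ≠ k} (A_k - A_i)^(n_k - n_i)`, `= D^(s_k) ∏ (A_k - A_i)^(s_i - s_k)` up to `ℓ`-th powers.
`prod_of_isVl`: `norm_dv`.
-/

namespace Pool.Agent.H94.PL

open Polynomial

variable {M : Type} [Field M] {m ℓ α : ℕ}

theorem isVl_one (D : M) (A : Fin m → M) : IsVl ℓ α D A 1 := by
  refine ⟨0, Fin.elim0, Fin.elim0, fun _ => 1, fun i => i.elim0, fun _ => one_ne_zero, fun k => ?_⟩
  rw [Pi.one_apply, one_pow, one_mul, Finset.univ_eq_empty, Finset.prod_empty]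

theorem isVl_mul {D : M} {A δ δ' : Fin m → M} (h : IsVl ℓ α D A δ) (h' : IsVl ℓ α D A δ') :
    IsVl ℓ α D A (δ * δ') := by
  obtain ⟨r, P, Q, γ, h1, h2, h3⟩ := h
  obtain ⟨r', P', Q', γ', h1', h2', h3'⟩ := h'
  refine ⟨r + r', Fin.append P P', Fin.append Q Q', fun k => γ k * γ' k, ?_,
    fun k => mul_ne_zero (h2 k) (h2' k), ?_⟩
  · intro i
    refine Fin.addCases (fun j => ?_) (fun j => ?_) i
    · rw [Fin.append_left, Fin.append_left]
      exact h1 j
    · rw [Fin.append_right, Fin.append_right]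
      exact h1' j
  · intro k
    rw [Fin.prod_univ_add]
    have e1 : ∏ i : Fin r, dv α D (Fin.append P P' (Fin.castAdd r' i)) (A k) =
        ∏ i : Fin r, dv α D (P i) (A k) :=
      Finset.prod_congr rfl fun i _ => by rw [Fin.append_left]
    have e2 : ∏ i : Fin r', dv α D (Fin.append P P' (Fin.natAdd r i)) (A k) =
        ∏ i : Fin r', dv α D (P' i) (A k) :=
      Finset.prod_congr rfl fun i _ => by rw [Fin.append_right]
    rw [e1, e2, ← h3 k, ← h3' k, Pi.mul_apply]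
    ring

theorem isVl_congr {D : M} {A δ γ : Fin m → M} (h : IsVl ℓ α D A δ) (hγ : ∀ k, γ k ≠ 0) :
    IsVl ℓ α D A (fun k => δ k * γ k ^ ℓ) := by
  obtain ⟨r, P, Q, γ₀, h1, h2, h3⟩ := h
  refine ⟨r, P, Q, fun k => γ₀ k / γ k, h1, fun k => div_ne_zero (h2 k) (hγ k), fun k => ?_⟩
  rw [← h3 k, div_pow]
  have h4 : γ k ^ ℓ ≠ 0 := pow_ne_zero _ (hγ k)
  field_simp

theorem isVl_pow {D : M} {A δ : Fin m → M} (h : IsVl ℓ α D A δ) (n : ℕ) :
    IsVl ℓ α D A (fun k => δ k ^ n) := by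
  induction n with
  | zero =>
    have h1 := isVl_one (ℓ := ℓ) (α := α) D A
    have h2 : (fun k => δ k ^ 0) = (1 : Fin m → M) := by
      funext k
      rw [pow_zero, Pi.one_apply]
    rw [h2]
    exact h1
  | succ n ih =>
    have h1 := isVl_mul ih h
    have h2 : (fun k => δ k ^ (n + 1)) = (fun k => δ k ^ n) * δ := by
      funext k
      rw [Pi.mul_apply, pow_succ]
    rw [h2]
    exact h1

theorem isVl_prod {D : M} {A : Fin m → M} {ι : Type*} (t : Finset ι) (δ : ι → Fin m → M)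
    (h : ∀ i ∈ t, IsVl ℓ α D A (δ i)) : IsVl ℓ α D A (fun k => ∏ i ∈ t, δ i k) := by
  classical
  induction t using Finset.induction_on with
  | empty =>
    have h1 := isVl_one (ℓ := ℓ) (α := α) D A
    have h2 : (fun k => ∏ i ∈ (∅ : Finset ι), δ i k) = (1 : Fin m → M) := by
      funext k
      rw [Finset.prod_empty, Pi.one_apply]
    rw [h2]
    exact h1
  | insert a t ha ih =>
    have h1 := isVl_mul (h a (Finset.mem_insert_self a t))
      (ih fun i hi => h i (Finset.mem_insert_of_mem hi))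
    have h2 : (fun k => ∏ i ∈ insert a t, δ i k) = δ a * (fun k => ∏ i ∈ t, δ i k) := by
      funext k
      rw [Pi.mul_apply, Finset.prod_insert ha]
    rw [h2]
    exact h1

/-- the polynomial of the class `T_i` -/
theorem isVl_T_poly (hℓ : ℓ.Prime) (h2 : ℓ ≠ 2) (hm : Nat.Coprime m ℓ) {D : M}
    (hD : D ≠ 0) {A : Fin m → M} (hA : ∀ i k, i ≠ k → A i ≠ A k) (i : Fin m) :
    ∃ (P : M[X]) (c : M), IsMum ℓ D A P (X - C (A i)) ∧
      ((m < ℓ ∧ c = D ∧ P.natDegree = ℓ - 1) ∨ (ℓ < m ∧ c = -1 ∧ P.natDegree = m - 1)) ∧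
      (∀ k, k ≠ i → P.eval (A k) = c⁻¹ * (D * (A k - A i) ^ (ℓ - 1))) ∧
      P.eval (A i) = c⁻¹ * -∏ k' ∈ Finset.univ.erase i, (A i - A k') := by
  have hℓ1 : ℓ - 1 ≠ 0 := by
    have := hℓ.two_le
    omega
  have hm0 : 0 < m := i.pos
  obtain ⟨R, hR⟩ : ∃ R : M[X], R = ∏ k ∈ Finset.univ.erase i, (X - C (A k)) := ⟨_, rfl⟩
  have hRm : R.Monic := by
    rw [hR]
    exact monic_prod_of_monic _ _ fun k _ => monic_X_sub_C _
  have hRd : R.natDegree = m - 1 := by
    rw [hR, natDegree_prod_of_monic _ _ fun k _ => monic_X_sub_C _]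
    simp [Finset.card_erase_of_mem]
  have hRe : ∀ k, k ≠ i → R.eval (A k) = 0 := by
    intro k hk
    rw [hR, eval_prod]
    exact Finset.prod_eq_zero (Finset.mem_erase.2 ⟨hk, Finset.mem_univ _⟩) (by simp)
  have hRi : R.eval (A i) = ∏ k' ∈ Finset.univ.erase i, (A i - A k') := by
    rw [hR, eval_prod]
    refine Finset.prod_congr rfl fun k _ => by simp
  have hRi0 : ∏ k' ∈ Finset.univ.erase i, (A i - A k') ≠ 0 := by
    rw [Finset.prod_ne_zero_iff]
    intro k hk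
    exact sub_ne_zero.2 (hA i k (Finset.ne_of_mem_erase hk).symm)
  obtain ⟨S, hS⟩ : ∃ S : M[X], S = C D * (X - C (A i)) ^ (ℓ - 1) := ⟨_, rfl⟩
  have hSd : S.natDegree = ℓ - 1 := by
    rw [hS, natDegree_C_mul hD, natDegree_pow, natDegree_X_sub_C, mul_one]
  have hSl : S.leadingCoeff = D := by
    rw [hS, leadingCoeff_mul, leadingCoeff_C, leadingCoeff_pow, leadingCoeff_X_sub_C, one_pow,
      mul_one]
  have hS0 : S ≠ 0 := by
    intro h0
    rw [h0, leadingCoeff_zero] at hSl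
    exact hD hSl.symm
  have hSe : ∀ k, S.eval (A k) = D * (A k - A i) ^ (ℓ - 1) := by
    intro k
    rw [hS]
    simp
  obtain ⟨G, hG⟩ : ∃ G : M[X], G = S - R := ⟨_, rfl⟩
  have hGmul : (X - C (A i)) * G = C D * (X - C (A i)) ^ ℓ - fA A := by
    have h4 : fA A = (X - C (A i)) * R := by
      rw [fA, hR, Finset.mul_prod_erase Finset.univ (fun k => X - C (A k)) (Finset.mem_univ i)]
    have h5 : (X - C (A i)) ^ ℓ = (X - C (A i)) ^ (ℓ - 1) * (X - C (A i)) := by
      rw [← pow_succ]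
      congr 1
      omega
    rw [h4, h5, hG, hS]
    ring
  have hmℓ : m ≠ ℓ := by
    intro h0
    rw [h0, Nat.coprime_self] at hm
    exact hℓ.one_lt.ne' hm
  have hGk : ∀ k, k ≠ i → G.eval (A k) = D * (A k - A i) ^ (ℓ - 1) := by
    intro k hk
    rw [hG, eval_sub, hSe, hRe k hk, sub_zero]
  have hGi : G.eval (A i) = -∏ k' ∈ Finset.univ.erase i, (A i - A k') := by
    rw [hG, eval_sub, hSe, hRi, sub_self, zero_pow hℓ1, mul_zero, zero_sub]
  have hmain : ∀ c : M, c ≠ 0 → G.leadingCoeff = c →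
      ((m < ℓ ∧ c = D ∧ G.natDegree = ℓ - 1) ∨ (ℓ < m ∧ c = -1 ∧ G.natDegree = m - 1)) →
      ∃ (P : M[X]) (c : M), IsMum ℓ D A P (X - C (A i)) ∧
      ((m < ℓ ∧ c = D ∧ P.natDegree = ℓ - 1) ∨ (ℓ < m ∧ c = -1 ∧ P.natDegree = m - 1)) ∧
      (∀ k, k ≠ i → P.eval (A k) = c⁻¹ * (D * (A k - A i) ^ (ℓ - 1))) ∧
      P.eval (A i) = c⁻¹ * -∏ k' ∈ Finset.univ.erase i, (A i - A k') := by
    intro c hc hlc hcase
    have hc' : c⁻¹ ≠ 0 := inv_ne_zero hc
    refine ⟨C c⁻¹ * G, c, ⟨?_, ?_, ?_⟩, ?_, ?_, ?_⟩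
    · rw [Monic, leadingCoeff_mul, leadingCoeff_C, hlc, inv_mul_cancel₀ hc]
    · intro k
      rw [eval_mul, eval_C]
      refine mul_ne_zero hc' ?_
      by_cases hk : k = i
      · rw [hk, hGi]
        exact neg_ne_zero.2 hRi0
      · rw [hGk k hk]
        exact mul_ne_zero hD (pow_ne_zero _ (sub_ne_zero.2 (hA k i hk)))
    · rw [← hGmul]
      refine ⟨C c * (X - C (A i)), ?_⟩
      have h6 : (C c⁻¹ : M[X]) * C c = 1 := by
        rw [← C_mul, inv_mul_cancel₀ hc, C_1]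
      linear_combination (-(X - C (A i)) * G) * h6
    · rw [natDegree_C_mul hc']
      exact hcase
    · intro k hk
      rw [eval_mul, eval_C, hGk k hk]
    · rw [eval_mul, eval_C, hGi]
  rcases lt_or_gt_of_ne hmℓ with hlt | hlt
  · have hdeg : R.natDegree < S.natDegree := by
      rw [hRd, hSd]
      omega
    have hdeg' : R.degree < S.degree := degree_lt_degree hdeg
    refine hmain D hD ?_ (Or.inl ⟨hlt, rfl, ?_⟩)
    · rw [hG, leadingCoeff_sub_of_degree_lt hdeg', hSl]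
    · rw [hG, natDegree_sub_eq_left_of_natDegree_lt hdeg, hSd]
  · have hdeg : S.natDegree < R.natDegree := by
      rw [hRd, hSd]
      omega
    have hdeg' : S.degree < R.degree := degree_lt_degree hdeg
    refine hmain (-1) (neg_ne_zero.2 one_ne_zero) ?_ (Or.inr ⟨hlt, rfl, ?_⟩)
    · rw [hG, leadingCoeff_sub_of_degree_lt' hdeg', hRm.leadingCoeff]
    · rw [hG, natDegree_sub_eq_right_of_natDegree_lt hdeg, hRd]

theorem isVl_T (hℓ : ℓ.Prime) (h2 : ℓ ≠ 2) (hm : Nat.Coprime m ℓ) (hα : ℓ ∣ α * m + 1) {D : M}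
    (hD : D ≠ 0) {A : Fin m → M} (hA : ∀ i k, i ≠ k → A i ≠ A k) (i : Fin m) :
    IsVl ℓ α D A (fun k => if k = i then
      D ^ (α * (m - 1)) * ∏ k' ∈ Finset.univ.erase i, (A i - A k')
      else (D ^ α * (A k - A i))⁻¹) := by
  have hodd : Odd ℓ := hℓ.odd_of_ne_two h2
  obtain ⟨P, c, hP, hcase, hk, hi⟩ := isVl_T_poly hℓ h2 hm hD hA i
  obtain ⟨h, hh⟩ := hα
  have hm0 : 0 < m := i.pos
  have hℓ0 := hℓ.two_le
  have hdiff : ∀ k, k ≠ i → A k - A i ≠ 0 := fun k hki => sub_ne_zero.2 (hA k i hki)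
  rcases hcase with ⟨hlt, hc, hdeg⟩ | ⟨hlt, hc, hdeg⟩
  · -- `m < ℓ`
    refine ⟨1, fun _ => P, fun _ => X - C (A i),
      fun k => if k = i then -D ^ ((α : ℤ) - h) else D ^ α * (A k - A i), fun _ => hP, ?_, ?_⟩
    · intro k
      dsimp only
      by_cases hki : k = i
      · rw [if_pos hki]
        exact neg_ne_zero.2 (zpow_ne_zero _ hD)
      · rw [if_neg hki]
        exact mul_ne_zero (pow_ne_zero _ hD) (hdiff k hki)
    · intro k
      rw [Fin.prod_univ_one]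
      dsimp only
      by_cases hki : k = i
      · have e0 : (D ^ ((α : ℤ) - h)) ^ ℓ = D ^ (((α : ℤ) - h) * (ℓ : ℤ)) := by
          rw [← zpow_natCast, ← zpow_mul]
        rw [if_pos hki, if_pos hki, hki, dv, hi, hdeg, hc, hodd.neg_pow, e0]
        obtain ⟨Pi1, hPi1⟩ : ∃ Pi1 : M, Pi1 = ∏ k' ∈ Finset.univ.erase i, (A i - A k') := ⟨_, rfl⟩
        rw [← hPi1]
        have e1 : D ^ (α * (m - 1)) * D ^ (((α : ℤ) - h) * (ℓ : ℤ)) = (D ^ α) ^ (ℓ - 1) * D⁻¹ := by
          rw [← zpow_natCast D (α * (m - 1)), ← zpow_add₀ hD, ← pow_mul, ← zpow_natCast,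
            ← zpow_neg_one, ← zpow_add₀ hD]
          congr 1
          have e2 : ((m - 1 : ℕ) : ℤ) = m - 1 := by
            rw [Nat.cast_sub hm0]
            norm_num
          have e3 : ((ℓ - 1 : ℕ) : ℤ) = ℓ - 1 := by
            rw [Nat.cast_sub hℓ.one_lt.le]
            norm_num
          have e4 : (α : ℤ) * m + 1 = ℓ * h := by exact_mod_cast hh
          push_cast [e2, e3]
          linear_combination e4
        linear_combination (-Pi1) * e1
      · rw [if_neg hki, if_neg hki, dv, hk k hki, hdeg, hc]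
        have e1 : (D ^ α * (A k - A i)) ^ ℓ =
            (D ^ α * (A k - A i)) ^ (ℓ - 1) * (D ^ α * (A k - A i)) := by
          rw [← pow_succ]
          congr 1
          omega
        have e2 : D ^ α * (A k - A i) ≠ 0 := mul_ne_zero (pow_ne_zero _ hD) (hdiff k hki)
        rw [e1, mul_comm, mul_assoc, mul_inv_cancel₀ e2, mul_one, mul_pow]
        field_simp
  · -- `ℓ < m`
    refine ⟨1, fun _ => P, fun _ => X - C (A i),
      fun k => if k = i then 1 else -(D ^ h * (A k - A i)), fun _ => hP, ?_, ?_⟩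
    · intro k
      dsimp only
      by_cases hki : k = i
      · rw [if_pos hki]
        exact one_ne_zero
      · rw [if_neg hki]
        exact neg_ne_zero.2 (mul_ne_zero (pow_ne_zero _ hD) (hdiff k hki))
    · intro k
      rw [Fin.prod_univ_one]
      dsimp only
      by_cases hki : k = i
      · rw [if_pos hki, if_pos hki, hki, dv, hi, hdeg, hc, one_pow, ← pow_mul]
        have e1 : (-1 : M)⁻¹ = -1 := by norm_num
        rw [e1]
        ring
      · rw [if_neg hki, if_neg hki, dv, hk k hki, hdeg, hc, hodd.neg_pow]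
        have e0 : (-1 : M)⁻¹ = -1 := by norm_num
        have e1 : (A k - A i) ^ ℓ = (A k - A i) ^ (ℓ - 1) * (A k - A i) := by
          rw [← pow_succ]
          congr 1
          omega
        have e2 := hdiff k hki
        have e3 : D ^ α * ((D ^ α) ^ (m - 1) * D) = (D ^ h) ^ ℓ := by
          rw [← mul_assoc, ← pow_succ', ← pow_mul, ← pow_mul, ← pow_succ]
          congr 1
          have : m - 1 + 1 = m := by omega
          rw [this, hh]
          ring
        rw [e0, mul_pow, e1, ← e3]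
        field_simp

theorem isVl_tv (hℓ : ℓ.Prime) (h2 : ℓ ≠ 2) (hm : Nat.Coprime m ℓ) (hα : ℓ ∣ α * m + 1) {D : M}
    (hD : D ≠ 0) {A : Fin m → M} (hA : ∀ i k, i ≠ k → A i ≠ A k) (s : Fin m → ℤ)
    (hs : (ℓ : ℤ) ∣ ∑ k, s k) : IsVl ℓ α D A (tv D A s) := by
  classical
  obtain ⟨N', hN'⟩ := hs
  obtain ⟨h, hh⟩ := hα
  have hℓZ : (0 : ℤ) < ℓ := by exact_mod_cast hℓ.pos
  -- the exponents
  have hn : ∀ k, ∃ (n : ℕ) (t : ℤ), (n : ℤ) = -s k + ℓ * t := by
    intro k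
    refine ⟨((-s k) % ℓ).toNat, -((-s k) / ℓ), ?_⟩
    rw [Int.toNat_of_nonneg (Int.emod_nonneg _ hℓZ.ne')]
    have := Int.emod_add_mul_ediv (-s k) ℓ
    linear_combination this
  choose n t hnt using hn
  have hdiff : ∀ i k, i ≠ k → A i - A k ≠ 0 := fun i k hki => sub_ne_zero.2 (hA i k hki)
  have hV := isVl_prod (ℓ := ℓ) (α := α) (D := D) (A := A) Finset.univ
    (fun i k => (if k = i then
      D ^ (α * (m - 1)) * ∏ k' ∈ Finset.univ.erase i, (A i - A k')
      else (D ^ α * (A k - A i))⁻¹) ^ n i)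
    (fun i _ => isVl_pow (isVl_T hℓ h2 hm ⟨h, hh⟩ hD hA i) (n i))
  -- the value at `k`
  have hval : ∀ k, ∏ i, (if k = i then
      D ^ (α * (m - 1)) * ∏ k' ∈ Finset.univ.erase i, (A i - A k')
      else (D ^ α * (A k - A i))⁻¹) ^ n i =
      D ^ ((α : ℤ) * m * n k - α * ∑ i, (n i : ℤ)) *
        ∏ i ∈ Finset.univ.erase k, (A k - A i) ^ ((n k : ℤ) - n i) := by
    intro k
    have hm0 : 0 < m := k.pos
    rw [← Finset.mul_prod_erase Finset.univ _ (Finset.mem_univ k), if_pos rfl]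
    have e1 : ∏ i ∈ Finset.univ.erase k, (if k = i then
        D ^ (α * (m - 1)) * ∏ k' ∈ Finset.univ.erase i, (A i - A k')
        else (D ^ α * (A k - A i))⁻¹) ^ n i =
        D ^ (-((α : ℤ) * ∑ i ∈ Finset.univ.erase k, (n i : ℤ))) *
          ∏ i ∈ Finset.univ.erase k, (A k - A i) ^ (-(n i : ℤ)) := by
      have e2 : D ^ (-((α : ℤ) * ∑ i ∈ Finset.univ.erase k, (n i : ℤ))) =
          ∏ i ∈ Finset.univ.erase k, D ^ (-((α : ℤ) * n i)) := by
        rw [ldt_zprod hD, Finset.sum_neg_distrib, Finset.mul_sum]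
      rw [e2, ← Finset.prod_mul_distrib]
      refine Finset.prod_congr rfl fun i hi => ?_
      have hik : k ≠ i := (Finset.ne_of_mem_erase hi).symm
      rw [if_neg hik, ← zpow_natCast, inv_zpow, mul_zpow, mul_inv, ← zpow_natCast D α, ← zpow_mul,
        ← zpow_neg, ← zpow_neg]
    have e3 : ((m - 1 : ℕ) : ℤ) = m - 1 := by
      rw [Nat.cast_sub hm0]
      norm_num
    have e4 : ∑ i, (n i : ℤ) = n k + ∑ i ∈ Finset.univ.erase k, (n i : ℤ) :=
      (Finset.add_sum_erase Finset.univ (fun i => (n i : ℤ)) (Finset.mem_univ k)).symm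
    have e5 : D ^ ((α : ℤ) * m * n k - α * ∑ i, (n i : ℤ)) =
        (D ^ (α * (m - 1))) ^ n k * D ^ (-((α : ℤ) * ∑ i ∈ Finset.univ.erase k, (n i : ℤ))) := by
      rw [← pow_mul, ← zpow_natCast, ← zpow_add₀ hD, e4]
      congr 1
      push_cast [e3]
      ring
    have e6 : ∏ i ∈ Finset.univ.erase k, (A k - A i) ^ ((n k : ℤ) - n i) =
        (∏ i ∈ Finset.univ.erase k, (A k - A i)) ^ n k *
          ∏ i ∈ Finset.univ.erase k, (A k - A i) ^ (-(n i : ℤ)) := by
      rw [← Finset.prod_pow, ← Finset.prod_mul_distrib]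
      refine Finset.prod_congr rfl fun i hi => ?_
      have hik : k ≠ i := (Finset.ne_of_mem_erase hi).symm
      rw [sub_eq_add_neg (n k : ℤ), zpow_add₀ (hdiff k i hik), zpow_natCast]
    rw [e1, e5, e6, mul_pow]
    ring
  have hNsum : ∑ i, (n i : ℤ) = ℓ * (∑ i, t i - N') := by
    rw [Finset.sum_congr rfl fun i _ => hnt i, Finset.sum_add_distrib, Finset.sum_neg_distrib, hN',
      ← Finset.mul_sum]
    ring
  have hγ0 : ∀ k, D ^ (-((h : ℤ) * n k - t k - α * (∑ i, t i - N'))) *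
      ∏ i ∈ Finset.univ.erase k, (A k - A i) ^ (-(t k - t i)) ≠ 0 := by
    intro k
    refine mul_ne_zero (zpow_ne_zero _ hD) (Finset.prod_ne_zero_iff.2 fun i hi => ?_)
    exact zpow_ne_zero _ (hdiff k i (Finset.ne_of_mem_erase hi).symm)
  have hfin := isVl_congr hV hγ0
  have hfun : (fun k => (∏ i, (if k = i then
      D ^ (α * (m - 1)) * ∏ k' ∈ Finset.univ.erase i, (A i - A k')
      else (D ^ α * (A k - A i))⁻¹) ^ n i) *
      (D ^ (-((h : ℤ) * n k - t k - α * (∑ i, t i - N'))) *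
      ∏ i ∈ Finset.univ.erase k, (A k - A i) ^ (-(t k - t i))) ^ ℓ) = tv D A s := by
    funext k
    rw [hval k, tv, mul_pow, ← Finset.prod_pow]
    have e1 : D ^ ((α : ℤ) * m * n k - α * ∑ i, (n i : ℤ)) *
        (D ^ (-((h : ℤ) * n k - t k - α * (∑ i, t i - N')))) ^ ℓ = D ^ s k := by
      rw [← zpow_natCast, ← zpow_mul, ← zpow_add₀ hD]
      congr 1
      have e4 : (α : ℤ) * m + 1 = ℓ * h := by exact_mod_cast hh
      rw [hNsum]
      have e5 := hnt k
      linear_combination (n k : ℤ) * e4 - e5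
    have e2 : (∏ i ∈ Finset.univ.erase k, (A k - A i) ^ ((n k : ℤ) - n i)) *
        ∏ i ∈ Finset.univ.erase k, ((A k - A i) ^ (-(t k - t i))) ^ ℓ =
        ∏ i ∈ Finset.univ.erase k, (A k - A i) ^ (s i - s k) := by
      rw [← Finset.prod_mul_distrib]
      refine Finset.prod_congr rfl fun i hi => ?_
      have hik : k ≠ i := (Finset.ne_of_mem_erase hi).symm
      rw [← zpow_natCast, ← zpow_mul, ← zpow_add₀ (hdiff k i hik)]
      congr 1
      linear_combination hnt k - hnt i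
    rw [← e1, ← e2]
    ring
  rw [hfun] at hfin
  exact hfin

theorem prod_of_isVl (hℓ : ℓ.Prime) (h2 : ℓ ≠ 2) (hα : ℓ ∣ α * m + 1) {D : M}
    {A δ : Fin m → M} (h : IsVl ℓ α D A δ) : ∃ y : M, ∏ k, δ k = y ^ ℓ := by
  have hodd : Odd ℓ := hℓ.odd_of_ne_two h2
  obtain ⟨r, P, Q, γ, h1, hγ, h3⟩ := h
  have hy : ∀ i, ∃ y : M, ∏ k, dv α D (P i) (A k) = y ^ ℓ := fun i =>
    norm_dv hodd hα D A (h1 i).1 (h1 i).2.2
  choose y hy using hy
  refine ⟨(∏ i, y i) / ∏ k, γ k, ?_⟩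
  have h4 : (∏ k, δ k) * (∏ k, γ k) ^ ℓ = (∏ i, y i) ^ ℓ := by
    rw [← Finset.prod_pow, ← Finset.prod_mul_distrib, Finset.prod_congr rfl fun k _ => h3 k,
      Finset.prod_comm, ← Finset.prod_pow]
    exact Finset.prod_congr rfl fun i _ => hy i
  rw [div_pow, ← h4, mul_div_cancel_right₀]
  exact pow_ne_zero _ (Finset.prod_ne_zero_iff.2 fun k _ => hγ k)

end Pool.Agent.H94.PL
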