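import Pool.Agent.H94.PL.Defs

set_option autoImplicit false

/-!
# [H94 PL EC] Existence of the logarithm

`Fˣ` is cyclic of order `q - 1` (`IsCyclic`, instance for finite integral domains), `ℓ ∣ q - 1`: an isomorphism of
`Fˣ` with `Multiplicative (ZMod (q - 1))` (`zmodCyclicMulEquiv` or similar) and `ZMod.castHom`.
-/

namespace Pool.Agent.H94.PL

theorem exists_LChar (F : Type) [Field F] [Finite F] {ℓ : ℕ} (hℓ : ℓ.Prime)
    (h : ℓ ∣ Nat.card F - 1) : Nonempty (LChar F ℓ) := by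
  classical
  have _ := hℓ.pos
  have hn : Nat.card Fˣ = Nat.card F - 1 := Nat.card_units F
  have h' : ℓ ∣ Nat.card Fˣ := by rw [hn]; exact h
  have hne : Nat.card Fˣ ≠ 0 := Nat.card_pos.ne'
  have : NeZero (Nat.card Fˣ) := ⟨hne⟩
  have hcyc : IsCyclic Fˣ := inferInstance
  let e : Multiplicative (ZMod (Nat.card Fˣ)) ≃* Fˣ := zmodCyclicMulEquiv hcyc
  let c : ZMod (Nat.card Fˣ) →+* ZMod ℓ := ZMod.castHom h' (ZMod ℓ)
  let lg : F → ZMod ℓ := fun x =>
    if hx : x ≠ 0 then c (Multiplicative.toAdd (e.symm (Units.mk0 x hx))) else 0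
  have hlg : ∀ {x : F} (hx : x ≠ 0),
      lg x = c (Multiplicative.toAdd (e.symm (Units.mk0 x hx))) := fun hx => dif_pos hx
  refine ⟨⟨lg, ?_, ?_, ?_⟩⟩
  · intro x y hx hy
    rw [hlg hx, hlg hy, hlg (mul_ne_zero hx hy), ← map_add, ← toAdd_mul, ← map_mul]
    congr 3
    exact Units.ext rfl
  · refine ⟨(e (Multiplicative.ofAdd 1) : Fˣ), Units.ne_zero _, ?_⟩
    rw [hlg (Units.ne_zero _), Units.mk0_val, MulEquiv.symm_apply_apply, toAdd_ofAdd, map_one]
  · intro x hx h0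
    rw [hlg hx] at h0
    set a : ZMod (Nat.card Fˣ) := Multiplicative.toAdd (e.symm (Units.mk0 x hx)) with ha
    have h1 : ((a.val : ℕ) : ZMod ℓ) = 0 := by
      rw [← map_natCast c, ZMod.natCast_zmod_val]
      exact h0
    obtain ⟨b, hb⟩ := (ZMod.natCast_eq_zero_iff _ _).1 h1
    refine ⟨(e (Multiplicative.ofAdd ((b : ℕ) : ZMod (Nat.card Fˣ))) : Fˣ), Units.ne_zero _, ?_⟩
    have h2 : Units.mk0 x hx = e (Multiplicative.ofAdd ((b : ℕ) : ZMod (Nat.card Fˣ))) ^ ℓ := by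
      rw [← map_pow, ← ofAdd_nsmul, nsmul_eq_mul, ← Nat.cast_mul, ← hb, ZMod.natCast_zmod_val, ha,
        ofAdd_toAdd, MulEquiv.apply_symm_apply]
    have h3 := congrArg (fun z : Fˣ => (z : F)) h2
    simpa using h3

end Pool.Agent.H94.PL
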