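import Pool.Agent.H94.PL.NotPow
import Pool.Agent.H94.PC.Facs

set_option autoImplicit false

/-!
# [H94 PL CARD] A positive proportion of polynomials is squarefree and prime to `Δ`

`q = Nat.card F ≥ 4`, `d = deg Δ`.  Let `φ` be the number of `r ∈ Lt F d` prime to `Δ` (if `Δ` is not monic
divide by the leading coefficient); `φ ≥ 1` (`r = 1` if `d ≥ 1`; if `d = 0` then `Lt F 0 = {0}`, and `0` is
prime to the unit `Δ`).  For `n ≥ d` there are exactly `φ q ^ (n - d)` monic `A` of degree `n` prime to `Δ`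
(`PC.sum_Mo_mod` with the indicator function, `IsCoprime (Δ * h + r) Δ ↔ IsCoprime r Δ`, `card_Mo`).
If such an `A` is not squarefree then `A = P ^ 2 * A'` with `P` monic irreducible of degree `e`,
`1 ≤ e`, `2 e ≤ n`, `A'` monic of degree `n - 2 e` prime to `Δ`; the number of such `A` is at most
`∑ e, #(Pr e) * #{A'}`, and `#{A'} ≤ φ q ^ (n - 2 e - d)` if `n - 2 e ≥ d`, `≤ q ^ (n - 2 e)` in general,
`#(Pr e) ≤ q ^ e` (`PC.card_Pr_le`).  So it is at most
`φ q ^ (n - d) ∑ e ≥ 1, q ^ (-e) + ∑ (e > (n - d) / 2), q ^ (n - e) ≤ φ q ^ (n - d) / 3 + n q ^ ((n + d) / 2 + 1)`.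
Hence `#(Cls Δ n) ≥ (2/3) q ^ (n - d) - n q ^ ((n + d) / 2 + 1) ≥ q ^ n / (3 q ^ d)` for `n` large.
-/

namespace Pool.Agent.H94.PL

open Polynomial
open Pool.Agent.H94.PC (Mo Sq Pr pf om Mn mem_Mo mem_Sq mem_Pr mem_pf mem_pf' Lt mem_Lt card_Lt
  card_Mo card_Sq_le)

variable {F : Type} [Field F] [Finite F]

open Classical in
/-- the monic polynomials of degree `m` prime to `Δ` -/
noncomputable def cardl_R (Δ : F[X]) (m : ℕ) : Finset F[X] :=
  (Mo F m).filter fun D => IsCoprime D Δ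

open Classical in
theorem cardl_mem {Δ : F[X]} {m : ℕ} {D : F[X]} :
    D ∈ cardl_R Δ m ↔ (D.Monic ∧ D.natDegree = m) ∧ IsCoprime D Δ := by
  unfold cardl_R
  rw [Finset.mem_filter, mem_Mo]

open Classical in
theorem cardl_R_le (Δ : F[X]) (m : ℕ) : (cardl_R Δ m).card ≤ Nat.card F ^ m := by
  rw [← card_Mo (F := F) m]
  exact Finset.card_le_card (Finset.filter_subset _ _)

open Classical in
/-- the number of residues prime to `N` -/
noncomputable def cardl_phi (N : F[X]) : ℕ :=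
  ((Lt F N.natDegree).filter fun r => IsCoprime r N).card

open Classical in
theorem cardl_phi_pos {N : F[X]} (hN : N.Monic) : 1 ≤ cardl_phi N := by
  unfold cardl_phi
  rw [Nat.one_le_iff_ne_zero, Finset.card_ne_zero]
  by_cases hd : N.natDegree = 0
  · refine ⟨0, ?_⟩
    rw [Finset.mem_filter, mem_Lt]
    refine ⟨by rw [degree_zero]; exact WithBot.bot_lt_coe _, ?_⟩
    rw [hN.natDegree_eq_zero.1 hd]
    exact isCoprime_one_right
  · refine ⟨1, ?_⟩
    rw [Finset.mem_filter, mem_Lt]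
    refine ⟨?_, isCoprime_one_left⟩
    rw [degree_one]
    exact_mod_cast Nat.pos_of_ne_zero hd

theorem cardl_R_eq {N : F[X]} (hN : N.Monic) {m : ℕ} (hm : N.natDegree ≤ m) :
    (cardl_R N m).card = cardl_phi N * Nat.card F ^ (m - N.natDegree) := by
  classical
  have h1 := PC.sum_Mo_mod hN (m := m) hm (fun D => if IsCoprime D N then (1 : ℝ) else 0)
  have h2 : ∀ h : F[X], ∑ r ∈ Lt F N.natDegree,
      (if IsCoprime (N * h + r) N then (1 : ℝ) else 0) = (cardl_phi N : ℝ) := by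
    intro h
    have h3 : ∀ r ∈ Lt F N.natDegree, (if IsCoprime (N * h + r) N then (1 : ℝ) else 0) =
        if IsCoprime r N then (1 : ℝ) else 0 := by
      intro r _
      have h4 : IsCoprime (N * h + r) N ↔ IsCoprime r N := by
        rw [add_comm]
        exact IsCoprime.add_mul_left_left_iff
      simp only [h4]
    rw [Finset.sum_congr rfl h3, ← Finset.sum_filter, Finset.sum_const, nsmul_eq_mul, mul_one]
    unfold cardl_phi
    rfl
  rw [Finset.sum_congr rfl fun h _ => h2 h, ← Finset.sum_filter] at h1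
  rw [Finset.sum_const, Finset.sum_const, nsmul_eq_mul, nsmul_eq_mul, mul_one, card_Mo] at h1
  have h5 : (Mo F m).filter (fun D => IsCoprime D N) = cardl_R N m := by
    ext D
    rw [cardl_mem, Finset.mem_filter, mem_Mo]
  rw [h5] at h1
  have h6 : ((cardl_R N m).card : ℝ) =
      ((cardl_phi N * Nat.card F ^ (m - N.natDegree) : ℕ) : ℝ) := by
    rw [h1]
    push_cast
    ring
  exact_mod_cast h6

open Classical in
theorem cardl_bad (Δ : F[X]) (n : ℕ) :
    (cardl_R Δ n).filter (fun D => ¬ Squarefree D) ⊆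
      (Finset.Icc 1 (n / 2)).biUnion fun e => (Pr F e).biUnion fun P =>
        (cardl_R Δ (n - 2 * e)).image fun D => P ^ 2 * D := by
  intro D hD
  rw [Finset.mem_filter, cardl_mem] at hD
  obtain ⟨⟨⟨h1, h2⟩, h3⟩, h5⟩ := hD
  have h6 : ∃ Q : F[X], Irreducible Q ∧ Q * Q ∣ D := by
    by_contra hcon
    push Not at hcon
    exact h5 ((squarefree_iff_irreducible_sq_not_dvd_of_ne_zero h1.ne_zero).2 hcon)
  obtain ⟨Q, hQ, hQD⟩ := h6
  have hQ0 : Q ≠ 0 := hQ.ne_zero
  obtain ⟨P, hP⟩ : ∃ P : F[X], P = normalize Q := ⟨_, rfl⟩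
  have hPm : P.Monic := by
    rw [hP]
    exact monic_normalize hQ0
  have hass : Associated Q P := by
    rw [hP]
    exact (normalize_associated Q).symm
  have hPi : Irreducible P := hass.irreducible hQ
  have hPD : P ^ 2 ∣ D := by
    have h7 : P ^ 2 ∣ Q * Q := by
      rw [← sq]
      exact (hass.symm.pow_pow (n := 2)).dvd
    exact h7.trans hQD
  obtain ⟨E, hE⟩ := hPD
  have hP2 : (P ^ 2).Monic := hPm.pow 2
  have hEm : E.Monic := by
    rw [hE] at h1
    exact hP2.of_mul_monic_left h1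
  have hdeg : 2 * P.natDegree + E.natDegree = n := by
    rw [← h2, hE, hP2.natDegree_mul hEm, hPm.natDegree_pow]
  have hPd : 1 ≤ P.natDegree := hPi.natDegree_pos
  have hEc : IsCoprime E Δ := by
    rw [hE] at h3
    exact h3.of_mul_left_right
  rw [Finset.mem_biUnion]
  refine ⟨P.natDegree, ?_, ?_⟩
  · rw [Finset.mem_Icc]
    omega
  · rw [Finset.mem_biUnion]
    refine ⟨P, ?_, ?_⟩
    · rw [mem_Pr]
      exact ⟨hPm, rfl, hPi⟩
    · rw [Finset.mem_image]
      refine ⟨E, ?_, hE.symm⟩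
      rw [cardl_mem]
      exact ⟨⟨hEm, by omega⟩, hEc⟩

theorem cardl_geom (q : ℝ) (hq : 4 ≤ q) (M : ℕ) :
    ∑ e ∈ Finset.Icc 1 M, (1 / q) ^ e ≤ 1 / 3 := by
  have hq0 : 0 < q := by linarith
  have hq1 : 0 < q - 1 := by linarith
  have key : ∀ M : ℕ, ∑ e ∈ Finset.Icc 1 M, (1 / q) ^ e =
      1 / (q - 1) - (1 / q) ^ M / (q - 1) := by
    intro M
    induction M with
    | zero => simp
    | succ M ih =>
      rw [Finset.sum_Icc_succ_top (by omega), ih, pow_succ]
      field_simp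
      ring
  rw [key M]
  have h1 : 0 ≤ (1 / q) ^ M / (q - 1) := by positivity
  have h2 : 1 / (q - 1) ≤ 1 / 3 := one_div_le_one_div_of_le (by norm_num) (by linarith)
  linarith

theorem cardl_term {N : F[X]} (hN : N.Monic) (n e : ℕ) (hn : N.natDegree ≤ n)
    (he : e ∈ Finset.Icc 1 (n / 2)) :
    (∑ _P ∈ Pr F e, ((cardl_R N (n - 2 * e)).card : ℝ)) ≤
      (cardl_phi N : ℝ) * (Nat.card F : ℝ) ^ (n - N.natDegree) * (1 / (Nat.card F : ℝ)) ^ e +
        (Nat.card F : ℝ) ^ ((n + N.natDegree) / 2) := by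
  rw [Finset.mem_Icc] at he
  have hq1 : 1 < Nat.card F := Finite.one_lt_card
  set q := Nat.card F with hq
  have hqr : (1 : ℝ) < q := by exact_mod_cast hq1
  have hq0 : (0 : ℝ) < q := by linarith
  have h6 : ((Pr F e).card : ℝ) ≤ (q : ℝ) ^ e := by exact_mod_cast PC.card_Pr_le (F := F) e
  rw [Finset.sum_const, nsmul_eq_mul]
  by_cases hd : N.natDegree ≤ n - 2 * e
  · rw [cardl_R_eq hN hd]
    push_cast
    have h1 : (q : ℝ) ^ (n - N.natDegree) =
        (q : ℝ) ^ (n - 2 * e - N.natDegree) * ((q : ℝ) ^ e * (q : ℝ) ^ e) := by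
      rw [← pow_add, ← pow_add]
      congr 1
      omega
    have h2 : (cardl_phi N : ℝ) * (q : ℝ) ^ (n - N.natDegree) * (1 / (q : ℝ)) ^ e =
        (q : ℝ) ^ e * ((cardl_phi N : ℝ) * (q : ℝ) ^ (n - 2 * e - N.natDegree)) := by
      rw [h1, one_div, inv_pow]
      field_simp
    rw [h2]
    have h3 : ((Pr F e).card : ℝ) * ((cardl_phi N : ℝ) * (q : ℝ) ^ (n - 2 * e - N.natDegree)) ≤
        (q : ℝ) ^ e * ((cardl_phi N : ℝ) * (q : ℝ) ^ (n - 2 * e - N.natDegree)) :=
      mul_le_mul_of_nonneg_right h6 (by positivity)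
    have h4 : 0 ≤ (q : ℝ) ^ ((n + N.natDegree) / 2) := by positivity
    linarith
  · have h1 : ((cardl_R N (n - 2 * e)).card : ℝ) ≤ (q : ℝ) ^ (n - 2 * e) := by
      exact_mod_cast cardl_R_le N (n - 2 * e)
    have h2 : ((Pr F e).card : ℝ) * ((cardl_R N (n - 2 * e)).card : ℝ) ≤
        (q : ℝ) ^ e * (q : ℝ) ^ (n - 2 * e) :=
      mul_le_mul h6 h1 (Nat.cast_nonneg _) (by positivity)
    have h3 : (q : ℝ) ^ e * (q : ℝ) ^ (n - 2 * e) ≤ (q : ℝ) ^ ((n + N.natDegree) / 2) := by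
      rw [← pow_add]
      exact pow_le_pow_right₀ hqr.le (by omega)
    have h4 : 0 ≤ (cardl_phi N : ℝ) * (q : ℝ) ^ (n - N.natDegree) * (1 / (q : ℝ)) ^ e := by
      positivity
    linarith

theorem cardl_bad_card (hq : 4 ≤ Nat.card F) {N : F[X]} (hN : N.Monic) (n : ℕ)
    (hn : N.natDegree ≤ n) (S : Finset F[X])
    (hS : ∀ D ∈ S, D ∈ cardl_R N n ∧ ¬ Squarefree D) :
    (S.card : ℝ) ≤ (cardl_phi N : ℝ) * (Nat.card F : ℝ) ^ (n - N.natDegree) / 3 +
      (n : ℝ) * (Nat.card F : ℝ) ^ ((n + N.natDegree) / 2) := by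
  classical
  have hqr : (4 : ℝ) ≤ Nat.card F := by exact_mod_cast hq
  have hsub : S ⊆ (cardl_R N n).filter (fun D => ¬ Squarefree D) := by
    intro D hD
    rw [Finset.mem_filter]
    exact hS D hD
  have h1 := Finset.card_le_card (hsub.trans (cardl_bad N n))
  have h3 : (S.card : ℝ) ≤ ∑ e ∈ Finset.Icc 1 (n / 2), ∑ _P ∈ Pr F e,
      ((cardl_R N (n - 2 * e)).card : ℝ) := by
    have h4 : S.card ≤ ∑ e ∈ Finset.Icc 1 (n / 2), ∑ _P ∈ Pr F e,
        (cardl_R N (n - 2 * e)).card := by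
      refine h1.trans (Finset.card_biUnion_le.trans (Finset.sum_le_sum fun d _ => ?_))
      refine Finset.card_biUnion_le.trans (Finset.sum_le_sum fun P _ => ?_)
      exact Finset.card_image_le
    exact_mod_cast h4
  refine h3.trans ?_
  refine (Finset.sum_le_sum fun e he => cardl_term hN n e hn he).trans ?_
  rw [Finset.sum_add_distrib, ← Finset.mul_sum, Finset.sum_const, Nat.card_Icc, nsmul_eq_mul]
  have h5 := cardl_geom (Nat.card F) hqr (n / 2)
  have h6 : (cardl_phi N : ℝ) * (Nat.card F : ℝ) ^ (n - N.natDegree) *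
      ∑ e ∈ Finset.Icc 1 (n / 2), (1 / (Nat.card F : ℝ)) ^ e ≤
      (cardl_phi N : ℝ) * (Nat.card F : ℝ) ^ (n - N.natDegree) * (1 / 3) :=
    mul_le_mul_of_nonneg_left h5 (by positivity)
  have h7 : ((n / 2 + 1 - 1 : ℕ) : ℝ) ≤ n := by
    have : n / 2 + 1 - 1 ≤ n := by omega
    exact_mod_cast this
  have h8 : ((n / 2 + 1 - 1 : ℕ) : ℝ) * (Nat.card F : ℝ) ^ ((n + N.natDegree) / 2) ≤
      (n : ℝ) * (Nat.card F : ℝ) ^ ((n + N.natDegree) / 2) :=
    mul_le_mul_of_nonneg_right h7 (by positivity)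
  linarith

theorem cardl_large (q d n : ℕ) (hq : 4 ≤ q) (hn : 21 * d + 12 ≤ n) :
    3 * n * q ^ ((n + d) / 2) ≤ q ^ (n - d) := by
  obtain ⟨k, hk⟩ : ∃ k, n - d = (n + d) / 2 + k := ⟨n - d - (n + d) / 2, by omega⟩
  have hk1 : n ≤ 2 * k + 3 * d + 1 := by omega
  have hk2 : 9 * d + 5 ≤ k := by omega
  have h1 : 3 * n ≤ 4 ^ k := by
    have h2 : (k + 1) * (k + 1) ≤ 4 ^ k := by
      have h3 : k + 1 ≤ 2 ^ k := Nat.lt_two_pow_self
      have h4 : 4 ^ k = 2 ^ k * 2 ^ k := by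
        rw [← mul_pow, show 2 * 2 = 4 from rfl]
      rw [h4]
      exact Nat.mul_le_mul h3 h3
    refine le_trans ?_ h2
    have h5 : (9 * d + 5) * k ≤ k * k := Nat.mul_le_mul_right k hk2
    have h6 : 9 * d * 1 ≤ 9 * d * k := Nat.mul_le_mul_left (9 * d) (by omega)
    nlinarith
  rw [hk, pow_add, mul_comm (3 * n)]
  apply Nat.mul_le_mul_left
  exact h1.trans (Nat.pow_le_pow_left hq k)

theorem cardl_monic (hq : 4 ≤ Nat.card F) {N : F[X]} (hN : N.Monic) (n : ℕ)
    (hn : 21 * N.natDegree + 12 ≤ n) :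
    1 / (3 * (Nat.card F : ℝ) ^ N.natDegree) * (Nat.card F : ℝ) ^ n ≤ ((Cls N n).card : ℝ) := by
  classical
  have hqr : (4 : ℝ) ≤ Nat.card F := by exact_mod_cast hq
  have h3 : (cardl_R N n).filter (fun D => Squarefree D) ⊆ Cls N n := by
    intro D hD
    rw [Finset.mem_filter, cardl_mem] at hD
    rw [mem_Cls]
    exact ⟨hD.1.1.1, hD.1.1.2, hD.2, hD.1.2⟩
  have h4 := Finset.card_le_card h3
  have h5 := Finset.card_filter_add_card_filter_not (s := cardl_R N n)
    (fun D => Squarefree D)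
  have h6 := cardl_bad_card hq hN n (by omega)
    ((cardl_R N n).filter (fun D => ¬ Squarefree D)) (fun D hD => by
      rw [Finset.mem_filter] at hD
      exact hD)
  rw [cardl_R_eq hN (by omega)] at h5
  have h7 : (((cardl_R N n).filter (fun D => Squarefree D)).card : ℝ) +
      (((cardl_R N n).filter (fun D => ¬ Squarefree D)).card : ℝ) =
      (cardl_phi N : ℝ) * (Nat.card F : ℝ) ^ (n - N.natDegree) := by exact_mod_cast h5
  have h8 : (((cardl_R N n).filter (fun D => Squarefree D)).card : ℝ) ≤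
      ((Cls N n).card : ℝ) := by exact_mod_cast h4
  have h9 : 1 / (3 * (Nat.card F : ℝ) ^ N.natDegree) * (Nat.card F : ℝ) ^ n =
      (Nat.card F : ℝ) ^ (n - N.natDegree) / 3 := by
    have h10 : (Nat.card F : ℝ) ^ n =
        (Nat.card F : ℝ) ^ (n - N.natDegree) * (Nat.card F : ℝ) ^ N.natDegree := by
      rw [← pow_add]
      congr 1
      omega
    rw [h10]
    field_simp
  have h11 : 3 * (n : ℝ) * (Nat.card F : ℝ) ^ ((n + N.natDegree) / 2) ≤
      (Nat.card F : ℝ) ^ (n - N.natDegree) := by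
    exact_mod_cast cardl_large (Nat.card F) N.natDegree n hq hn
  have h12 : (1 : ℝ) ≤ cardl_phi N := by exact_mod_cast cardl_phi_pos hN
  have h13 : (Nat.card F : ℝ) ^ (n - N.natDegree) ≤
      (cardl_phi N : ℝ) * (Nat.card F : ℝ) ^ (n - N.natDegree) :=
    le_mul_of_one_le_left (by positivity) h12
  rw [h9]
  linarith

open Classical in
theorem cardl_Cls_normalize (Δ : F[X]) (n : ℕ) : Cls (normalize Δ) n = Cls Δ n := by
  ext D
  rw [mem_Cls, mem_Cls]
  have h : IsCoprime D (normalize Δ) ↔ IsCoprime D Δ := by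
    constructor
    · intro h
      exact h.of_isCoprime_of_dvd_right (normalize_associated Δ).symm.dvd
    · intro h
      exact h.of_isCoprime_of_dvd_right (normalize_associated Δ).dvd
  rw [h]

theorem card_Cls_ge (hq : 4 ≤ Nat.card F) (Δ : F[X]) (hΔ : Δ ≠ 0) :
    ∃ κ : ℝ, 0 < κ ∧ ∃ n₀ : ℕ, ∀ n : ℕ, n₀ ≤ n →
      κ * (Nat.card F : ℝ) ^ n ≤ ((Cls Δ n).card : ℝ) := by
  classical
  have hN : (normalize Δ).Monic := monic_normalize hΔ
  have hq0 : (0 : ℝ) < Nat.card F := by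
    have : 0 < Nat.card F := by omega
    exact_mod_cast this
  refine ⟨1 / (3 * (Nat.card F : ℝ) ^ (normalize Δ).natDegree), by positivity,
    21 * (normalize Δ).natDegree + 12, ?_⟩
  intro n hn
  rw [← cardl_Cls_normalize Δ n]
  exact cardl_monic hq hN n hn

end Pool.Agent.H94.PL
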