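import Pool.Agent.H94.PL.LVal

set_option autoImplicit false

/-!
# [H94 PL LG] Values at the places of good reduction

`mum_induct`: a property `C` of monic polynomials with `C 1`, `C P → C P' → C (P * P')`, and `C P` for `P`
monic irreducible with `P ∣ C D * Q ^ ℓ - fA A` (and `P (A k) ≠ 0`), holds for all Mumford pairs `(P, Q)`
(strong induction on the degree; `exists_monic_irreducible_factor`; a factor of `P` divides the same
polynomial, and its values at `A k` are nonzero).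

`lg_irr` (`P` irreducible).  Let `n = deg P`.
(i) `w (P.coeff 0) > 1`: by `tri_inf`, `P(A_k) = P(0) * (≡ 1)`, so `∏ dv = (D^α)^(n m) P(0)^m * (≡ 1)` is an
`ℓ`-th power (`norm_dv`), so `Vd (P(0)^m)`, as `Vd D`; so `Vd (P(0))` by `Vd.of_pow` (`m` prime to `ℓ`), so
`Vd (dv P (A k))` for all `k` (`Cl.of_near` ... `.vd`).
(ii) otherwise `P` is integral (`tri_int`).  If some `w (P(A_j)) < 1`: for `k ≠ j`
`w (P(A_k) - (A_k - A_j)^n) < 1` (`tri_red`) and `w (A_k - A_j) = 1`, so `w (P(A_k)) = 1` (`unit_of_close`),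
`Vd (dv (A k))` for `k ≠ j`; the product over all `k` is `Vd` (`norm_dv`, nonzero), so also the factor `j`
(`Finset.mul_prod_erase`, `Vd.cancel`).
(iii) if no `w (P(A_k)) < 1`, all are `= 1` (`eval_int`).
-/

namespace Pool.Agent.H94.PL

open Polynomial WithZero

section
variable {M : Type*} [Field M] {m : ℕ}

theorem mum_induct (ℓ : ℕ) (D : M) (A : Fin m → M) (Q : M[X]) (C' : M[X] → Prop) (h1 : C' 1)
    (hmul : ∀ P P' : M[X], P.Monic → P'.Monic → C' P → C' P' → C' (P * P'))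
    (hirr : ∀ P : M[X], P.Monic → Irreducible P → (∀ k, P.eval (A k) ≠ 0) →
      P ∣ C D * Q ^ ℓ - fA A → C' P) {P : M[X]} (h : IsMum ℓ D A P Q) : C' P := by
  obtain ⟨hP, hev, hd⟩ := h
  obtain ⟨n, hn⟩ : ∃ n, P.natDegree = n := ⟨_, rfl⟩
  induction n using Nat.strong_induction_on generalizing P with
  | _ n ih =>
    by_cases hP1 : P = 1
    · rw [hP1]
      exact h1
    · have hu : ¬ IsUnit P := fun hu => hP1 (hP.isUnit_iff.1 hu)
      obtain ⟨p, hp, hpi, g, hg⟩ := exists_monic_irreducible_factor P hu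
      have hgm : g.Monic := by
        refine hp.of_mul_monic_left ?_
        rw [← hg]
        exact hP
      have hdeg : P.natDegree = p.natDegree + g.natDegree := by
        rw [hg]
        exact hp.natDegree_mul hgm
      have hpd : 0 < p.natDegree := hpi.natDegree_pos
      have hevp : ∀ k, p.eval (A k) ≠ 0 := by
        intro k h0
        apply hev k
        rw [hg, eval_mul, h0, zero_mul]
      have hevg : ∀ k, g.eval (A k) ≠ 0 := by
        intro k h0
        apply hev k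
        rw [hg, eval_mul, h0, mul_zero]
      have hpP : p ∣ P := ⟨g, hg⟩
      have hgP : g ∣ P := ⟨p, by rw [hg, mul_comm]⟩
      have h2 := hirr p hp hpi hevp (hpP.trans hd)
      have h3 := ih g.natDegree (by omega) hgm hevg (hgP.trans hd) rfl
      have h4 := hmul p g hp hgm h2 h3
      rw [← hg] at h4
      exact h4

end

variable {M : Type*} [Field M] [hv : Valued M ℤᵐ⁰] [CompleteSpace M] {m : ℕ}


theorem lgood_irr {ϖ : M} (hϖ : (Valued.v : Valuation M ℤᵐ⁰) ϖ = exp (-1 : ℤ)) {ℓ α : ℕ} (hℓ : ℓ.Prime) (h2 : ℓ ≠ 2)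
    (hm : Nat.Coprime m ℓ) (hα : ℓ ∣ α * m + 1) {D : M} (hD : Vd (Valued.v : Valuation M ℤᵐ⁰) ℓ D) {A : Fin m → M}
    (hA : ∀ k, (Valued.v : Valuation M ℤᵐ⁰) (A k) ≤ 1) (hAA : ∀ i k, i ≠ k → (Valued.v : Valuation M ℤᵐ⁰) (A i - A k) = 1) {P Q : M[X]}
    (hP : P.Monic) (hirr : Irreducible P) (hev : ∀ k, P.eval (A k) ≠ 0)
    (hd : P ∣ C D * Q ^ ℓ - fA A) (k : Fin m) : Vd (Valued.v : Valuation M ℤᵐ⁰) ℓ (dv α D P (A k)) := by
  obtain ⟨y, hy⟩ := norm_dv (hℓ.odd_of_ne_two h2) hα D A hP hd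
  have hD0 : D ≠ 0 := hD.ne_zero
  have hdv0 : ∀ k, dv α D P (A k) ≠ 0 := fun k =>
    mul_ne_zero (pow_ne_zero _ (pow_ne_zero _ hD0)) (hev k)
  have hy0 : y ≠ 0 := by
    rintro rfl
    rw [zero_pow hℓ.ne_zero, Finset.prod_eq_zero_iff] at hy
    obtain ⟨k, -, hk⟩ := hy
    exact hdv0 k hk
  have hprod : Vd (Valued.v : Valuation M ℤᵐ⁰) ℓ (∏ k, dv α D P (A k)) := by
    rw [hy]
    exact Vd.self_pow hy0
  have hDD : Vd (Valued.v : Valuation M ℤᵐ⁰) ℓ ((D ^ α) ^ P.natDegree) := (hD.pow α).pow _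
  rcases lt_or_ge 1 ((Valued.v : Valuation M ℤᵐ⁰) (P.coeff 0)) with h0 | h0
  · have hc : P.coeff 0 ≠ 0 := by
      intro hc
      rw [hc, map_zero] at h0
      exact absurd h0 (by simp)
    have hnear : ∀ k, Vd (Valued.v : Valuation M ℤᵐ⁰) ℓ (P.eval (A k) / P.coeff 0) := fun k =>
      (Cl.of_near (tri_inf hϖ hP hirr h0 (hA k))).vd
    have hsplit : ∀ k, dv α D P (A k) =
        ((D ^ α) ^ P.natDegree * (P.eval (A k) / P.coeff 0)) * P.coeff 0 := by
      intro k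
      rw [dv, mul_assoc, div_mul_cancel₀ _ hc]
    have h1 : Vd (Valued.v : Valuation M ℤᵐ⁰) ℓ (P.coeff 0 ^ m) := by
      have h3 : ∏ k, dv α D P (A k) =
          (∏ k, ((D ^ α) ^ P.natDegree * (P.eval (A k) / P.coeff 0))) * P.coeff 0 ^ m := by
        rw [Finset.prod_congr rfl fun k _ => hsplit k, Finset.prod_mul_distrib,
          Finset.prod_const, Finset.card_univ, Fintype.card_fin]
      rw [h3] at hprod
      exact hprod.cancel (Vd.prod _ _ fun k _ => hDD.mul (hnear k))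
    rw [hsplit k]
    exact (hDD.mul (hnear k)).mul (Vd.of_pow hc hm h1)
  · have hint := tri_int hϖ hP hirr h0
    by_cases hj : ∃ j, (Valued.v : Valuation M ℤᵐ⁰) (P.eval (A j)) < 1
    · obtain ⟨j, hj⟩ := hj
      have hne : ∀ k, k ≠ j → Vd (Valued.v : Valuation M ℤᵐ⁰) ℓ (dv α D P (A k)) := by
        intro k hkj
        have h3 := tri_red hϖ hP hirr (hA j) hj (hA k)
        have h4 : (Valued.v : Valuation M ℤᵐ⁰) ((A k - A j) ^ P.natDegree) = 1 := by
          rw [map_pow, hAA k j hkj, one_pow]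
        exact hDD.mul (Vd.of_unit (unit_of_close h4 h3))
      by_cases hkj : k = j
      · subst hkj
        rw [← Finset.mul_prod_erase Finset.univ (fun k => dv α D P (A k)) (Finset.mem_univ k),
          mul_comm] at hprod
        exact hprod.cancel (Vd.prod _ _ fun i hi => hne i (Finset.ne_of_mem_erase hi))
      · exact hne k hkj
    · push Not at hj
      exact hDD.mul (Vd.of_unit (le_antisymm (eval_int hint (hA k)) (hj k)))

theorem loc_good {ϖ : M} (hϖ : (Valued.v : Valuation M ℤᵐ⁰) ϖ = exp (-1 : ℤ)) {ℓ α : ℕ} (hℓ : ℓ.Prime) (h2 : ℓ ≠ 2)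
    (hm : Nat.Coprime m ℓ) (hα : ℓ ∣ α * m + 1) {D : M} (hD : Vd (Valued.v : Valuation M ℤᵐ⁰) ℓ D) {A : Fin m → M}
    (hA : ∀ k, (Valued.v : Valuation M ℤᵐ⁰) (A k) ≤ 1) (hAA : ∀ i k, i ≠ k → (Valued.v : Valuation M ℤᵐ⁰) (A i - A k) = 1) {P Q : M[X]}
    (h : IsMum ℓ D A P Q) (k : Fin m) : Vd (Valued.v : Valuation M ℤᵐ⁰) ℓ (dv α D P (A k)) := by
  refine mum_induct ℓ D A Q (fun P => ∀ k, Vd (Valued.v : Valuation M ℤᵐ⁰) ℓ (dv α D P (A k))) ?_ ?_ ?_ h k
  · intro k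
    rw [dv_one]
    exact Vd.one
  · intro P P' hP hP' h1 h3 k
    rw [dv_mul α D hP hP']
    exact (h1 k).mul (h3 k)
  · intro P hP hirr hev hd k
    exact lgood_irr hϖ hℓ h2 hm hα hD hA hAA hP hirr hev hd k

end Pool.Agent.H94.PL
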