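import Mathlib

set_option autoImplicit false

/-!
# [H94 PL] `ℓ`-th powers up to units and up to units `≡ 1`
-/

namespace Pool.Agent.H94.PL

open WithZero

section
variable {M : Type*} [Field M] (v : Valuation M ℤᵐ⁰) (ℓ : ℕ)

/-- `x` is an `ℓ`-th power times an element `≡ 1` -/
def Cl (x : M) : Prop := ∃ s : M, s ≠ 0 ∧ v (x * s ^ ℓ - 1) < 1

/-- `x` is an `ℓ`-th power times a unit -/
def Vd (x : M) : Prop := ∃ s : M, s ≠ 0 ∧ v (x * s ^ ℓ) = 1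

variable {v ℓ}

theorem val_eq_one_of_near {x : M} (h : v (x - 1) < 1) : v x = 1 := by
  have h1 : x = 1 + (x - 1) := by ring
  rw [h1]
  exact v.map_one_add_of_lt h

theorem near_mul {x y : M} (hx : v (x - 1) < 1) (hy : v (y - 1) < 1) : v (x * y - 1) < 1 := by
  have h1 : x * y - 1 = (x - 1) * y + (y - 1) := by ring
  rw [h1]
  refine lt_of_le_of_lt (v.map_add _ _) (max_lt ?_ hy)
  rw [map_mul, val_eq_one_of_near hy, mul_one]
  exact hx

theorem near_inv {x : M} (hx : v (x - 1) < 1) : v (x⁻¹ - 1) < 1 := by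
  have h0 : x ≠ 0 := by
    rintro rfl
    rw [zero_sub, Valuation.map_neg, map_one] at hx
    exact lt_irrefl _ hx
  have h1 : x⁻¹ - 1 = -(x⁻¹ * (x - 1)) := by field_simp; ring
  rw [h1, Valuation.map_neg, map_mul, map_inv₀, val_eq_one_of_near hx, inv_one, one_mul]
  exact hx

theorem Cl.vd {x : M} (h : Cl v ℓ x) : Vd v ℓ x := by
  obtain ⟨s, hs, h⟩ := h
  exact ⟨s, hs, val_eq_one_of_near h⟩

theorem Vd.ne_zero {x : M} (h : Vd v ℓ x) : x ≠ 0 := by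
  obtain ⟨s, hs, h⟩ := h
  rintro rfl
  rw [zero_mul, map_zero] at h
  exact zero_ne_one h

theorem Cl.ne_zero {x : M} (h : Cl v ℓ x) : x ≠ 0 := h.vd.ne_zero

theorem Cl.of_near {x : M} (h : v (x - 1) < 1) : Cl v ℓ x :=
  ⟨1, one_ne_zero, by rw [one_pow, mul_one]; exact h⟩

theorem Vd.of_unit {x : M} (h : v x = 1) : Vd v ℓ x :=
  ⟨1, one_ne_zero, by rw [one_pow, mul_one]; exact h⟩

theorem Cl.one : Cl v ℓ (1 : M) := Cl.of_near (by rw [sub_self, map_zero]; exact zero_lt_one)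

theorem Vd.one : Vd v ℓ (1 : M) := Vd.of_unit (map_one _)

theorem Cl.mul {x y : M} (hx : Cl v ℓ x) (hy : Cl v ℓ y) : Cl v ℓ (x * y) := by
  obtain ⟨s, hs, hx⟩ := hx
  obtain ⟨t, ht, hy⟩ := hy
  refine ⟨s * t, mul_ne_zero hs ht, ?_⟩
  have h := near_mul hx hy
  rwa [show x * s ^ ℓ * (y * t ^ ℓ) = x * y * (s * t) ^ ℓ by rw [mul_pow]; ring] at h

theorem Vd.mul {x y : M} (hx : Vd v ℓ x) (hy : Vd v ℓ y) : Vd v ℓ (x * y) := by
  obtain ⟨s, hs, hx⟩ := hx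
  obtain ⟨t, ht, hy⟩ := hy
  refine ⟨s * t, mul_ne_zero hs ht, ?_⟩
  rw [show x * y * (s * t) ^ ℓ = x * s ^ ℓ * (y * t ^ ℓ) by rw [mul_pow]; ring, map_mul, hx, hy,
    mul_one]

theorem Cl.inv {x : M} (hx : Cl v ℓ x) : Cl v ℓ x⁻¹ := by
  obtain ⟨s, hs, hx⟩ := hx
  refine ⟨s⁻¹, inv_ne_zero hs, ?_⟩
  rw [inv_pow, ← mul_inv]
  exact near_inv hx

theorem Vd.inv {x : M} (hx : Vd v ℓ x) : Vd v ℓ x⁻¹ := by
  obtain ⟨s, hs, hx⟩ := hx
  refine ⟨s⁻¹, inv_ne_zero hs, ?_⟩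
  rw [inv_pow, ← mul_inv, map_inv₀, hx, inv_one]

theorem Cl.pow {x : M} (hx : Cl v ℓ x) (n : ℕ) : Cl v ℓ (x ^ n) := by
  induction n with
  | zero => rw [pow_zero]; exact Cl.one
  | succ n ih => rw [pow_succ]; exact ih.mul hx

theorem Vd.pow {x : M} (hx : Vd v ℓ x) (n : ℕ) : Vd v ℓ (x ^ n) := by
  induction n with
  | zero => rw [pow_zero]; exact Vd.one
  | succ n ih => rw [pow_succ]; exact ih.mul hx

theorem Cl.zpow {x : M} (hx : Cl v ℓ x) (n : ℤ) : Cl v ℓ (x ^ n) := by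
  cases n with
  | ofNat n => rw [Int.ofNat_eq_natCast, zpow_natCast]; exact hx.pow n
  | negSucc n => rw [zpow_negSucc]; exact (hx.pow _).inv

theorem Vd.zpow {x : M} (hx : Vd v ℓ x) (n : ℤ) : Vd v ℓ (x ^ n) := by
  cases n with
  | ofNat n => rw [Int.ofNat_eq_natCast, zpow_natCast]; exact hx.pow n
  | negSucc n => rw [zpow_negSucc]; exact (hx.pow _).inv

theorem Cl.self_pow {x : M} (hx : x ≠ 0) : Cl v ℓ (x ^ ℓ) :=
  ⟨x⁻¹, inv_ne_zero hx, by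
    rw [inv_pow, mul_inv_cancel₀ (pow_ne_zero _ hx), sub_self, map_zero]
    exact zero_lt_one⟩

theorem Vd.self_pow {x : M} (hx : x ≠ 0) : Vd v ℓ (x ^ ℓ) := (Cl.self_pow hx).vd

theorem Cl.div {x y : M} (hx : Cl v ℓ x) (hy : Cl v ℓ y) : Cl v ℓ (x / y) := by
  rw [div_eq_mul_inv]
  exact hx.mul hy.inv

theorem Vd.div {x y : M} (hx : Vd v ℓ x) (hy : Vd v ℓ y) : Vd v ℓ (x / y) := by
  rw [div_eq_mul_inv]
  exact hx.mul hy.inv

theorem Cl.prod {ι : Type*} (s : Finset ι) (f : ι → M) (h : ∀ i ∈ s, Cl v ℓ (f i)) :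
    Cl v ℓ (∏ i ∈ s, f i) := by
  classical
  induction s using Finset.induction_on with
  | empty => rw [Finset.prod_empty]; exact Cl.one
  | insert a s ha ih =>
    rw [Finset.prod_insert ha]
    exact (h a (Finset.mem_insert_self a s)).mul (ih fun i hi => h i (Finset.mem_insert_of_mem hi))

theorem Vd.prod {ι : Type*} (s : Finset ι) (f : ι → M) (h : ∀ i ∈ s, Vd v ℓ (f i)) :
    Vd v ℓ (∏ i ∈ s, f i) := by
  classical
  induction s using Finset.induction_on with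
  | empty => rw [Finset.prod_empty]; exact Vd.one
  | insert a s ha ih =>
    rw [Finset.prod_insert ha]
    exact (h a (Finset.mem_insert_self a s)).mul (ih fun i hi => h i (Finset.mem_insert_of_mem hi))

/-- `x ^ m` for `m` prime to `ℓ` -/
theorem Cl.of_pow {x : M} (hx : x ≠ 0) {m : ℕ} (hm : Nat.Coprime m ℓ) (h : Cl v ℓ (x ^ m)) :
    Cl v ℓ x := by
  have h1 : (1 : ℤ) = m * Nat.gcdA m ℓ + ℓ * Nat.gcdB m ℓ := by
    have := Nat.gcd_eq_gcd_ab m ℓ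
    rw [hm] at this
    exact_mod_cast this
  have h2 : x = (x ^ m) ^ (Nat.gcdA m ℓ) * (x ^ ℓ) ^ (Nat.gcdB m ℓ) := by
    rw [← zpow_natCast, ← zpow_natCast, ← zpow_mul, ← zpow_mul, ← zpow_add₀ hx, ← h1, zpow_one]
  rw [h2]
  exact (h.zpow _).mul ((Cl.self_pow hx).zpow _)

theorem Vd.of_pow {x : M} (hx : x ≠ 0) {m : ℕ} (hm : Nat.Coprime m ℓ) (h : Vd v ℓ (x ^ m)) :
    Vd v ℓ x := by
  have h1 : (1 : ℤ) = m * Nat.gcdA m ℓ + ℓ * Nat.gcdB m ℓ := by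
    have := Nat.gcd_eq_gcd_ab m ℓ
    rw [hm] at this
    exact_mod_cast this
  have h2 : x = (x ^ m) ^ (Nat.gcdA m ℓ) * (x ^ ℓ) ^ (Nat.gcdB m ℓ) := by
    rw [← zpow_natCast, ← zpow_natCast, ← zpow_mul, ← zpow_mul, ← zpow_add₀ hx, ← h1, zpow_one]
  rw [h2]
  exact (h.zpow _).mul ((Vd.self_pow hx).zpow _)

theorem Cl.neg_one (h2 : Odd ℓ) : Cl v ℓ (-1 : M) := by
  have h : (-1 : M) = (-1) ^ ℓ := h2.neg_one_pow.symm
  rw [h]
  exact Cl.self_pow (neg_ne_zero.2 one_ne_zero)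

theorem Cl.cancel {x y : M} (hxy : Cl v ℓ (x * y)) (hx : Cl v ℓ x) : Cl v ℓ y := by
  have := hxy.mul hx.inv
  rwa [mul_comm x y, mul_assoc, mul_inv_cancel₀ hx.ne_zero, mul_one] at this

theorem Vd.cancel {x y : M} (hxy : Vd v ℓ (x * y)) (hx : Vd v ℓ x) : Vd v ℓ y := by
  have := hxy.mul hx.inv
  rwa [mul_comm x y, mul_assoc, mul_inv_cancel₀ hx.ne_zero, mul_one] at this

/-- two elements which are close, one of them a unit -/
theorem Cl.of_close {x y : M} (hy : v y = 1) (h : v (x - y) < 1) : Cl v ℓ (x / y) := by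
  refine Cl.of_near ?_
  have hy0 : y ≠ 0 := by
    rintro rfl
    rw [map_zero] at hy
    exact zero_ne_one hy
  have h1 : x / y - 1 = (x - y) / y := by field_simp
  rw [h1, map_div₀, hy, div_one]
  exact h

theorem unit_of_close {x y : M} (hy : v y = 1) (h : v (x - y) < 1) : v x = 1 := by
  have h1 : x = y + (x - y) := by ring
  rw [h1, ← hy]
  refine Valuation.map_add_eq_of_lt_left v ?_
  rw [hy]
  exact h

/-- the valuations which are multiples of `ℓ` -/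
theorem Vd.val {x : M} (h : Vd v ℓ x) {n : ℤ} (hn : v x = exp n) : (ℓ : ℤ) ∣ n := by
  obtain ⟨s, hs, h⟩ := h
  obtain ⟨k, hk⟩ : ∃ k : ℤ, v s = exp k := by
    have h0 : v s ≠ 0 := (Valuation.ne_zero_iff v).2 hs
    exact ⟨log (v s), (exp_log h0).symm⟩
  rw [map_mul, map_pow, hn, hk, ← exp_nsmul, ← exp_add] at h
  have h1 : n + ℓ • k = 0 := by
    rw [← exp_zero] at h
    exact exp_injective h
  refine ⟨-k, ?_⟩
  rw [nsmul_eq_mul] at h1
  linear_combination h1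

theorem Vd.of_val {x ϖ : M} (hϖ : v ϖ = exp (-1 : ℤ)) {n : ℤ} (hn : v x = exp (ℓ * n)) :
    Vd v ℓ x := by
  have h0 : ϖ ≠ 0 := by
    rintro rfl
    rw [map_zero] at hϖ
    exact (exp_ne_zero hϖ.symm)
  refine ⟨ϖ ^ n, zpow_ne_zero _ h0, ?_⟩
  rw [map_mul, map_pow, map_zpow₀, hn, hϖ, ← exp_zsmul, ← exp_nsmul, ← exp_add, ← exp_zero]
  congr 1
  simp
end

end Pool.Agent.H94.PL
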