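import Pool.Agent.H94.PL.Irr
import Pool.Agent.H94.PL.Loc

set_option autoImplicit false

/-!
# [H94 PL] Values of irreducible polynomials at integral points

`P` monic irreducible of degree `n` over the complete field `M`:
* `v (P 0) > 1`: `P b / P 0 ≡ 1` for all integral `b`;
* `v (P 0) ≤ 1`: `P` is integral;
* `v (P a) < 1` for an integral `a`: `P b ≡ (b - a) ^ n` for all integral `b`.
-/

namespace Pool.Agent.H94.PL

open Polynomial WithZero

variable {M : Type*} [Field M] [hv : Valued M ℤᵐ⁰] [CompleteSpace M]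


theorem tri_int {ϖ : M} (hϖ : (Valued.v : Valuation M ℤᵐ⁰) ϖ = exp (-1 : ℤ)) {P : M[X]} (hP : P.Monic)
    (hirr : Irreducible P) (h0 : (Valued.v : Valuation M ℤᵐ⁰) (P.coeff 0) ≤ 1) (i : ℕ) : (Valued.v : Valuation M ℤᵐ⁰) (P.coeff i) ≤ 1 := by
  by_cases hi : i ≤ P.natDegree
  · have h := irr_coeff ϖ (by rw [hϖ]; exact exp_ne_zero) (by rw [hϖ]; decide) P hP hirr i hi
    have h1 : ((Valued.v : Valuation M ℤᵐ⁰) (P.coeff i)) ^ P.natDegree ≤ 1 := h.trans (pow_le_one' h0 _)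
    exact (pow_le_one_iff hirr.natDegree_pos.ne').1 h1
  · rw [coeff_eq_zero_of_natDegree_lt (not_le.1 hi), map_zero]
    exact zero_le_one

theorem tri_lt {ϖ : M} (hϖ : (Valued.v : Valuation M ℤᵐ⁰) ϖ = exp (-1 : ℤ)) {P : M[X]} (hP : P.Monic)
    (hirr : Irreducible P) (h0 : (Valued.v : Valuation M ℤᵐ⁰) (P.coeff 0) < 1) {i : ℕ} (hi : i < P.natDegree) :
    (Valued.v : Valuation M ℤᵐ⁰) (P.coeff i) < 1 := by
  have h := irr_coeff ϖ (by rw [hϖ]; exact exp_ne_zero) (by rw [hϖ]; decide) P hP hirr i hi.le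
  have h1 : ((Valued.v : Valuation M ℤᵐ⁰) (P.coeff i)) ^ P.natDegree < 1 :=
    lt_of_le_of_lt h (pow_lt_one₀ zero_le h0 (by omega))
  exact (pow_lt_one_iff hirr.natDegree_pos.ne').1 h1

theorem tri_inf {ϖ : M} (hϖ : (Valued.v : Valuation M ℤᵐ⁰) ϖ = exp (-1 : ℤ)) {P : M[X]} (hP : P.Monic)
    (hirr : Irreducible P) (h0 : 1 < (Valued.v : Valuation M ℤᵐ⁰) (P.coeff 0)) {b : M} (hb : (Valued.v : Valuation M ℤᵐ⁰) b ≤ 1) :
    (Valued.v : Valuation M ℤᵐ⁰) (P.eval b / P.coeff 0 - 1) < 1 := by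
  have hn : 0 < P.natDegree := hirr.natDegree_pos
  have hc0 : (Valued.v : Valuation M ℤᵐ⁰) (P.coeff 0) ≠ 0 := fun h => by rw [h] at h0; exact absurd h0 (by simp)
  have hc : P.coeff 0 ≠ 0 := fun h => hc0 (by rw [h, map_zero])
  have hlt : ∀ i, 1 ≤ i → (Valued.v : Valuation M ℤᵐ⁰) (P.coeff i) < (Valued.v : Valuation M ℤᵐ⁰) (P.coeff 0) := by
    intro i hi
    by_cases hin : i ≤ P.natDegree
    · have h := irr_coeff ϖ (by rw [hϖ]; exact exp_ne_zero) (by rw [hϖ]; decide) P hP hirr i hin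
      have h1 : ((Valued.v : Valuation M ℤᵐ⁰) (P.coeff i)) ^ P.natDegree < ((Valued.v : Valuation M ℤᵐ⁰) (P.coeff 0)) ^ P.natDegree :=
        lt_of_le_of_lt h (pow_lt_pow_right₀ h0 (by omega))
      exact lt_of_pow_lt_pow_left₀ _ zero_le h1
    · rw [coeff_eq_zero_of_natDegree_lt (not_le.1 hin), map_zero]
      exact zero_lt_iff.2 hc0
  have h1 : P.eval b - P.coeff 0 = ∑ i ∈ Finset.range P.natDegree, P.coeff (i + 1) * b ^ (i + 1) := by
    rw [eval_eq_sum_range, Finset.sum_range_succ']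
    ring
  have h2 : (Valued.v : Valuation M ℤᵐ⁰) (P.eval b - P.coeff 0) < (Valued.v : Valuation M ℤᵐ⁰) (P.coeff 0) := by
    rw [h1]
    refine Valuation.map_sum_lt _ hc0 fun i _ => ?_
    rw [map_mul, map_pow]
    exact lt_of_le_of_lt (mul_le_of_le_one_right' (pow_le_one' hb _)) (hlt (i + 1) (by omega))
  have h3 : P.eval b / P.coeff 0 - 1 = (P.eval b - P.coeff 0) / P.coeff 0 := by
    field_simp
  rw [h3, map_div₀]
  exact (div_lt_one₀ (zero_lt_iff.2 hc0)).2 h2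

theorem tri_red {ϖ : M} (hϖ : (Valued.v : Valuation M ℤᵐ⁰) ϖ = exp (-1 : ℤ)) {P : M[X]} (hP : P.Monic)
    (hirr : Irreducible P) {a : M} (ha : (Valued.v : Valuation M ℤᵐ⁰) a ≤ 1) (h0 : (Valued.v : Valuation M ℤᵐ⁰) (P.eval a) < 1) {b : M}
    (hb : (Valued.v : Valuation M ℤᵐ⁰) b ≤ 1) : (Valued.v : Valuation M ℤᵐ⁰) (P.eval b - (b - a) ^ P.natDegree) < 1 := by
  set R : M[X] := P.comp (X + C a) with hR
  have hRm : R.Monic := hP.comp_X_add_C a
  have hRd : R.natDegree = P.natDegree := by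
    rw [hR, natDegree_comp, natDegree_X_add_C, mul_one]
  have hRi : Irreducible R := by
    have h1 : Irreducible (algEquivAevalXAddC a P) :=
      (MulEquiv.irreducible_iff (algEquivAevalXAddC a)).2 hirr
    rwa [algEquivAevalXAddC_apply, ← comp_eq_aeval] at h1
  have hR0 : R.coeff 0 = P.eval a := by
    rw [coeff_zero_eq_eval_zero, hR, eval_comp, eval_add, eval_X, eval_C, zero_add]
  have hev : P.eval b = R.eval (b - a) := by
    rw [hR, eval_comp, eval_add, eval_X, eval_C, sub_add_cancel]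
  have hba : (Valued.v : Valuation M ℤᵐ⁰) (b - a) ≤ 1 := (Valuation.map_sub _ _ _).trans (max_le hb ha)
  have h1 : P.eval b - (b - a) ^ P.natDegree =
      ∑ i ∈ Finset.range R.natDegree, R.coeff i * (b - a) ^ i := by
    rw [hev, eval_eq_sum_range, Finset.sum_range_succ, hRm.coeff_natDegree, hRd]
    ring
  rw [h1]
  refine Valuation.map_sum_lt _ one_ne_zero fun i hi => ?_
  rw [map_mul, map_pow]
  refine lt_of_le_of_lt (mul_le_of_le_one_right' (pow_le_one' hba _)) ?_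
  exact tri_lt hϖ hRm hRi (by rw [hR0]; exact h0) (Finset.mem_range.1 hi)


omit [CompleteSpace M] in
theorem eval_int {P : M[X]} (h : ∀ i, (Valued.v : Valuation M ℤᵐ⁰) (P.coeff i) ≤ 1) {b : M} (hb : (Valued.v : Valuation M ℤᵐ⁰) b ≤ 1) :
    (Valued.v : Valuation M ℤᵐ⁰) (P.eval b) ≤ 1 := by
  rw [eval_eq_sum_range]
  refine Valuation.map_sum_le _ fun i _ => ?_
  rw [map_mul, map_pow]
  exact mul_le_one' (h i) (pow_le_one' hb _)

end Pool.Agent.H94.PL
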