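import Pool.Agent.H94.PL.Kp

set_option autoImplicit false

/-!
# [H94 PL KT] Torsion solutions give torsion classes

`zS χ A D δ = torL σ`: `kap δ_k = -(bet σ)_k`, `ex v δ_i = -BB (eps v) σ`, `ex P δ_k = σ_k` (`toX_apply` with `sum_kap`, `sum_ex`).
Let `s k = (σ_k).val`, so `(s k : ZMod ℓ) = σ_k`, `ℓ ∣ ∑ s` (`ZMod.intCast_zmod_eq_zero_iff_dvd`-like), `toX s = σ`.
`x_k = δ_k / tv s k`: `kap x_k = 0` (`kap_tv`), `ex Q x_k = 0` for all monic irreducible `Q` (`ex_tv_D`, `ex_tv_N` with `ex_eq`,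
`ex_tv_good` with `good`).  `pow_of_ex_kap`.
-/

namespace Pool.Agent.H94.PL

open Polynomial
open Pool.Agent.H94.PC (Mo Sq Pr pf om Mn mem_Mo mem_Sq mem_Pr mem_pf mem_pf')

variable {F : Type} [Field F] [Finite F] {ℓ m : ℕ} [hl : Fact ℓ.Prime] (χ : LChar F ℓ)

theorem tors_of_torL (h2 : ℓ ≠ 2) {c : F} (hc : c ≠ 0) {A : Fin m → F[X]}
    (hs : Squarefree (dl A)) {D : F[X]} (hD : D.Monic) (hDs : Squarefree D)
    (hDA : IsCoprime D (dl A)) {δ : Fin m → RatFunc F} (h : LocD χ c A D δ) {σ : XX m ℓ}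
    (hσ : zS χ A D δ = torL (BB m ℓ) (syC χ c A) D σ) :
    ∃ s : Fin m → ℤ, (ℓ : ℤ) ∣ ∑ k, s k ∧ ∀ k, ∃ y : RatFunc F, y ≠ 0 ∧
      δ k = tv (DK c D) (AK A) s k * y ^ ℓ := by
  have hN : NeZero ℓ := ⟨hl.out.ne_zero⟩
  rw [zS, torL, Prod.mk.injEq, Prod.mk.injEq] at hσ
  obtain ⟨h1, h3, h4⟩ := hσ
  set s : Fin m → ℤ := fun k => ((σ.1 k).val : ℤ) with hsdef
  have hsk : ∀ k, ((s k : ℤ) : ZMod ℓ) = σ.1 k := by
    intro k
    rw [hsdef]
    simp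
  have hsum : ∑ k, ((s k : ℤ) : ZMod ℓ) = 0 := by
    simp only [hsk]
    exact XX_sum σ
  have hℓs : (ℓ : ℤ) ∣ ∑ k, s k := by
    rw [← ZMod.intCast_zmod_eq_zero_iff_dvd, Int.cast_sum]
    exact hsum
  have htoX : (toX fun k => ((s k : ℤ) : ZMod ℓ)) = σ := by
    apply Subtype.ext
    funext k
    rw [toX_apply hsum, hsk]
  refine ⟨s, hℓs, fun k => ?_⟩
  have htv : tv (DK c D) (AK A) s k ≠ 0 := tv_ne hc hD.ne_zero hs s k
  have hx : δ k / tv (DK c D) (AK A) s k ≠ 0 := div_ne_zero (h.ne k) htv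
  obtain ⟨y, hy, hxy⟩ := pow_of_ex_kap χ hx (by
    intro Q hQm hQ
    rw [ex_div hQ (h.ne k) htv]
    by_cases hQD : Q ∣ D
    · set P : pf D := ⟨Q, (mem_pf hD.ne_zero).2 ⟨hQm, hQ, hQD⟩⟩ with hP
      have e1 : ex ℓ Q (δ k) = σ.1 k := by
        have e2 := congrFun h4 P
        have e3 : (toX fun k => ex ℓ P.1 (δ k)).1 k = σ.1 k := by rw [e2]
        rw [toX_apply (sum_ex χ h (mem_pf' P.2).2.1)] at e3
        exact e3
      have e2 := ex_tv_D (ℓ := ℓ) hc hs hD hDs hDA s k P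
      rw [e1]
      change σ.1 k - ex ℓ P.1 (tv (DK c D) (AK A) s k) = 0
      rw [e2, hsk, sub_self]
    · by_cases hQA : Q ∣ dl A
      · set v : pf (dl A) := ⟨Q, (mem_pf hs.ne_zero).2 ⟨hQm, hQ, hQA⟩⟩ with hv
        have e1 := ex_eq χ h v k
        have e2 := ex_tv_N hc hs hD hDA s hℓs k v
        have e3 : ex ℓ v.1 (δ (pr A v).1) = -BB m ℓ ((syC χ c A).eps v) σ := congrFun h3 v
        change ex ℓ v.1 (δ k) - ex ℓ v.1 (tv (DK c D) (AK A) s k) = 0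
        rw [e1, e2, e3, htoX]
        exact sub_self _
      · rw [h.good Q hQm hQ hQD hQA k, ex_tv_good hc hs hD hQ hQD hQA s k, sub_zero])
    (by
      rw [kap_div χ (h.ne k) htv, kap_tv χ h2 hc hs hD s hℓs k, htoX]
      have e1 : (toX fun k => kap χ (δ k)).1 k = (-(syC χ c A).bet σ).1 k := by rw [h1]
      rw [toX_apply (sum_kap χ h)] at e1
      rw [e1]
      change -((syC χ c A).bet σ).1 k - -((syC χ c A).bet σ).1 k = 0
      exact sub_self _)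
  refine ⟨y, hy, ?_⟩
  rw [← hxy]
  field_simp

end Pool.Agent.H94.PL
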