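import Pool.Agent.H94.PL.Tk

set_option autoImplicit false

/-!
# [H94 PL RD] The diagonal coefficients `ρ v v`
-/

namespace Pool.Agent.H94.PL

open Polynomial
open Pool.Agent.H94.PC (Mo Sq Pr pf om Mn mem_Mo mem_Sq mem_Pr mem_pf mem_pf')

variable {F : Type} [Field F] [Finite F] {ℓ m : ℕ} [hl : Fact ℓ.Prime]

/-- a prime of `dl A` does not divide `D` -/
private theorem rd_nd {A : Fin m → F[X]} {D : F[X]} (hDA : IsCoprime D (dl A)) (v : pf (dl A)) :
    ¬ v.1 ∣ D := by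
  intro h
  have hv := mem_pf' v.2
  exact hv.2.1.not_isUnit (hDA.isUnit_of_dvd' h hv.2.2)

private theorem rd_sum {A : Fin m → F[X]} (hs : Squarefree (dl A)) {a b : Fin m} (hab : a ≠ b)
    (v : pf (dl A)) (g : F[X] → ZMod ℓ) [DecidableEq (pf (dl A))] [DecidableEq F[X]] :
    ∑ v' ∈ Finset.univ.erase v, ex ℓ v'.1 (AK A a - AK A b) * g v'.1 =
      ∑ Q ∈ (pf (A a - A b)).erase v.1, g Q := by
  have hdec : ∀ v' : pf (dl A), Decidable (v'.1 ∣ A a - A b) := fun _ => Classical.propDecidable _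
  have hne : A a - A b ≠ 0 := ne_of_sqf hs hab
  have hd : A a - A b ∣ dl A := dvd_dl hab
  have hsq : Squarefree (A a - A b) := hs.squarefree_of_dvd hd
  have hE : ∀ v' : pf (dl A), ex ℓ v'.1 (AK A a - AK A b) * g v'.1 =
      if v'.1 ∣ A a - A b then g v'.1 else 0 := by
    intro v'
    have hv := mem_pf' v'.2
    have hA : AK A a - AK A b = algebraMap F[X] (RatFunc F) (A a - A b) := by
      rw [AK, AK, map_sub]
    rw [hA]
    split_ifs with h
    · rw [ex_of_dvd_sqf hv.2.1 h hsq, one_mul]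
    · rw [ex_of_not_dvd hv.2.1 h, zero_mul]
  rw [Finset.sum_congr rfl fun v' _ => hE v', ← Finset.sum_filter]
  refine Finset.sum_bij (fun v' _ => v'.1) ?_ ?_ ?_ ?_
  · intro v' hv'
    rw [Finset.mem_filter, Finset.mem_erase] at hv'
    have hv := mem_pf' v'.2
    rw [Finset.mem_erase]
    exact ⟨fun h => hv'.1.1 (Subtype.ext h), (mem_pf hne).2 ⟨hv.1, hv.2.1, hv'.2⟩⟩
  · intro x _ y _ h
    exact Subtype.ext h
  · intro Q hQ
    rw [Finset.mem_erase] at hQ
    have hQ2 := mem_pf' hQ.2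
    refine ⟨⟨Q, (mem_pf hs.ne_zero).2 ⟨hQ2.1, hQ2.2.1, hQ2.2.2.trans hd⟩⟩, ?_, rfl⟩
    rw [Finset.mem_filter, Finset.mem_erase]
    refine ⟨⟨fun h => hQ.1 (congrArg Subtype.val h), Finset.mem_univ _⟩, hQ2.2.2⟩
  · intro _ _
    rfl

private theorem rd_cof {A : Fin m → F[X]} (hs : Squarefree (dl A)) (v : pf (dl A))
    [DecidableEq F[X]] : pf (cof A v) = (pf (A (pr A v).1 - A (pr A v).2)).erase v.1 := by
  have hv := mem_pf' v.2
  have hij : (pr A v).1 ≠ (pr A v).2 := (pr_lt A v).ne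
  have hne := ne_of_sqf hs hij
  have hc := cof_spec A v
  have hcne : cof A v ≠ 0 := by
    intro h
    rw [h, mul_zero] at hc
    exact hne hc
  ext Q
  rw [Finset.mem_erase, mem_pf hne, mem_pf hcne]
  constructor
  · rintro ⟨h1, h2, h3⟩
    refine ⟨?_, h1, h2, ?_⟩
    · rintro rfl
      exact not_dvd_cof hs v h3
    · rw [hc]
      exact h3.mul_left _
  · rintro ⟨h0, h1, h2, h3⟩
    refine ⟨h1, h2, ?_⟩
    rw [hc] at h3
    rcases h2.prime.dvd_or_dvd h3 with h4 | h4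
    · exfalso
      apply h0
      exact eq_of_monic_of_associated h1 hv.1 ((h2.associated_of_dvd hv.2.1 h4))
    · exact h4

open Classical in
/-- at `v ∣ dl A` (with `(i, j)` the pair of some `v`) the sum over the other primes of `dl A` and the degree term
give the coefficient `ρ v v`: `deg v * kap nv + ∑_{v' ≠ v} ex v' nv * lm v' v = ρ v v`.  `lm_factor` for `cof A v`
(prime to `v`: `not_dvd_cof`; its leading coefficient is that of `A i - A j`; its primes are the `v' ≠ v` with pair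
`(i, j)`) and for `A i - A k`, `k ≠ i, j` (its primes are the `v'` with pair `{i, k}`). -/
theorem rho_diag (χ : LChar F ℓ) (h2 : ℓ ≠ 2) {c : F} (hc : c ≠ 0) {A : Fin m → F[X]}
    (hs : Squarefree (dl A)) {D : F[X]} (hD : D.Monic) (hDA : IsCoprime D (dl A))
    (v : pf (dl A)) : (v.1.natDegree : ZMod ℓ) *
        kap χ (nv (DK c D) (AK A) (pr A v).1 (pr A v).2) +
      ∑ v' ∈ Finset.univ.erase v,
        ex ℓ v'.1 (nv (DK c D) (AK A) (pr A v).1 (pr A v).2) * lm χ v'.1 v.1 =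
      (syC χ c A).rho v v := by
  have hv := mem_pf' v.2
  have hij : (pr A v).1 ≠ (pr A v).2 := (pr_lt A v).ne
  have hlm : ∀ a b : Fin m, a ≠ b → ∑ v' ∈ Finset.univ.erase v,
      ex ℓ v'.1 (AK A a - AK A b) * lm χ v'.1 v.1 =
        ∑ Q ∈ (pf (A a - A b)).erase v.1, lm χ Q v.1 := by
    intro a b hab
    exact rd_sum hs hab v fun Q => lm χ Q v.1
  have hex : ∀ v' : pf (dl A), ex ℓ v'.1 (nv (DK c D) (AK A) (pr A v).1 (pr A v).2) =
      -(2 * ex ℓ v'.1 (AK A (pr A v).1 - AK A (pr A v).2) +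
        ∑ k ∈ (Finset.univ.erase (pr A v).1).erase (pr A v).2,
          ex ℓ v'.1 (AK A (pr A v).1 - AK A k)) := by
    intro v'
    have hv' := mem_pf' v'.2
    have h1 := AK_sub_ne hs hij
    have h2' : ∀ k ∈ (Finset.univ.erase (pr A v).1).erase (pr A v).2,
        AK A (pr A v).1 - AK A k ≠ 0 := by
      intro k hk
      exact AK_sub_ne hs (Finset.ne_of_mem_erase (Finset.mem_of_mem_erase hk)).symm
    rw [nv, ex_div hv'.2.1 (DK_ne hc hD.ne_zero) (mul_ne_zero (pow_ne_zero _ h1)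
      (Finset.prod_ne_zero_iff.2 h2')), ex_DK_good hc hv'.2.1 (rd_nd hDA v'),
      ex_mul hv'.2.1 (pow_ne_zero _ h1) (Finset.prod_ne_zero_iff.2 h2'), ex_pow hv'.2.1 h1,
      ex_prod hv'.2.1 _ _ h2']
    push_cast
    ring
  have hS : ∑ v' ∈ Finset.univ.erase v,
        ex ℓ v'.1 (nv (DK c D) (AK A) (pr A v).1 (pr A v).2) * lm χ v'.1 v.1 =
      -(2 * ∑ Q ∈ (pf (A (pr A v).1 - A (pr A v).2)).erase v.1, lm χ Q v.1 +
        ∑ k ∈ (Finset.univ.erase (pr A v).1).erase (pr A v).2,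
          ∑ Q ∈ (pf (A (pr A v).1 - A k)).erase v.1, lm χ Q v.1) := by
    rw [← hlm _ _ hij, Finset.mul_sum]
    have h3 : ∑ k ∈ (Finset.univ.erase (pr A v).1).erase (pr A v).2,
          ∑ Q ∈ (pf (A (pr A v).1 - A k)).erase v.1, lm χ Q v.1 =
        ∑ k ∈ (Finset.univ.erase (pr A v).1).erase (pr A v).2, ∑ v' ∈ Finset.univ.erase v,
          ex ℓ v'.1 (AK A (pr A v).1 - AK A k) * lm χ v'.1 v.1 := by
      refine Finset.sum_congr rfl fun k hk => ?_
      rw [hlm _ _ (Finset.ne_of_mem_erase (Finset.mem_of_mem_erase hk)).symm]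
    rw [h3, Finset.sum_comm, ← Finset.sum_add_distrib, ← Finset.sum_neg_distrib]
    refine Finset.sum_congr rfl fun v' _ => ?_
    rw [hex, ← Finset.sum_mul]
    ring
  have hcof : lm χ (cof A v) v.1 = (v.1.natDegree : ZMod ℓ) *
      χ.lg (A (pr A v).1 - A (pr A v).2).leadingCoeff +
        ∑ Q ∈ (pf (A (pr A v).1 - A (pr A v).2)).erase v.1, lm χ Q v.1 := by
    have h4 : Squarefree (cof A v) := by
      refine hs.squarefree_of_dvd (Dvd.dvd.trans ?_ (dvd_dl hij))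
      rw [cof_spec A v]
      exact dvd_mul_left _ _
    have h5 : IsCoprime (cof A v) v.1 :=
      ((hv.2.1.coprime_iff_not_dvd).2 (not_dvd_cof hs v)).symm
    rw [lm_factor χ h4 hv.1 h5, rd_cof hs v, cof_spec A v, leadingCoeff_mul, hv.1.leadingCoeff,
      one_mul, ← cof_spec A v]
  have hk : ∀ k ∈ (Finset.univ.erase (pr A v).1).erase (pr A v).2,
      lm χ (A (pr A v).1 - A k) v.1 = (v.1.natDegree : ZMod ℓ) *
        χ.lg (A (pr A v).1 - A k).leadingCoeff +
          ∑ Q ∈ (pf (A (pr A v).1 - A k)).erase v.1, lm χ Q v.1 := by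
    intro k hk
    have hik : (pr A v).1 ≠ k := (Finset.ne_of_mem_erase (Finset.mem_of_mem_erase hk)).symm
    have hkj : k ≠ (pr A v).2 := Finset.ne_of_mem_erase hk
    have hnd : ¬ v.1 ∣ A (pr A v).1 - A k := by
      intro h
      rcases pr_unique hs v hik h with ⟨_, h6⟩ | ⟨h6, _⟩
      · exact hkj h6
      · exact hij h6
    have h4 : Squarefree (A (pr A v).1 - A k) := hs.squarefree_of_dvd (dvd_dl hik)
    have h5 : IsCoprime (A (pr A v).1 - A k) v.1 := ((hv.2.1.coprime_iff_not_dvd).2 hnd).symm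
    have h6 : v.1 ∉ pf (A (pr A v).1 - A k) := fun h => hnd (mem_pf' h).2.2
    rw [lm_factor χ h4 hv.1 h5, Finset.erase_eq_of_notMem h6]
  have hrho : (syC χ c A).rho v v = (v.1.natDegree : ZMod ℓ) * χ.lg c - 2 * lm χ (cof A v) v.1 -
      (∑ k ∈ (Finset.univ.erase (pr A v).1).erase (pr A v).2, lm χ (A (pr A v).1 - A k) v.1) := by
    simp only [syC, if_true]
  rw [hS, hrho, kap_nv χ hc hs hD hij, hcof, Finset.sum_congr rfl hk, Finset.sum_add_distrib,
    ← Finset.mul_sum]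
  ring

end Pool.Agent.H94.PL
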