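import Pool.Agent.H94.PL.Kp
import Pool.Agent.H94.PL.Rd

set_option autoImplicit false

/-!
# [H94 PL KV] The Selmer data solve the linear system: equations at `v ∣ dl A` and at infinity

`ev_zS`: `s` from `atN v`, `x = δ_i / δ_j * nv^s`: `kap x = kap δ_i - kap δ_j + s kap nv`; `ex P x = ex P δ_i - ex P δ_j + s` for
`P ∈ pf D` (`ex_nv_D`); `ex v' x = ex v' δ_i - ex v' δ_j + s ex v' nv`, `ex v' δ_i - ex v' δ_j = s_{v'} BB(eps v')(eps v)` (`ex_eq`,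
`BB_ep`); `ex v x = 0`.  So `LQ` gives
`deg v (κ_i - κ_j) + s deg v kap nv + ∑_P (x_P(i) - x_P(j) + s) lm P v + ∑_{v' ≠ v} (s_{v'} BB(..)(..) + s ex v' nv) lm v' v = 0`
and `rho_diag`; this is `EV` (`rho v v'` for `v' ≠ v` is `BB (eps v')(eps v) lm v' v`).
`ei_zS`: `inf` and `ex_eq`.
-/

namespace Pool.Agent.H94.PL

open Polynomial
open Pool.Agent.H94.PC (Mo Sq Pr pf om Mn mem_Mo mem_Sq mem_Pr mem_pf mem_pf')

variable {F : Type} [Field F] [Finite F] {ℓ m : ℕ} [hl : Fact ℓ.Prime] (χ : LChar F ℓ)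

omit [Finite F] in
theorem kv_nv (s : ℤ) {x y z : RatFunc F} (hx : x ≠ 0) (hy : y ≠ 0) (hz : z ≠ 0) :
    kap χ (x / y * z ^ s) = kap χ x - kap χ y + s * kap χ z := by
  rw [kap_mul χ (div_ne_zero hx hy) (zpow_ne_zero _ hz), kap_div χ hx hy, kap_zpow χ hz]

omit [Finite F] in
theorem kv_ex {P : F[X]} (hP : Irreducible P) (s : ℤ) {x y z : RatFunc F} (hx : x ≠ 0) (hy : y ≠ 0)
    (hz : z ≠ 0) : ex ℓ P (x / y * z ^ s) = ex ℓ P x - ex ℓ P y + s * ex ℓ P z := by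
  rw [ex_mul hP (div_ne_zero hx hy) (zpow_ne_zero _ hz), ex_div hP hx hy, ex_zpow hP hz]

theorem ev_zS (h2 : ℓ ≠ 2) {c : F} (hc : c ≠ 0) {A : Fin m → F[X]} (hs : Squarefree (dl A))
    {D : F[X]} (hD : D.Monic) (hDs : Squarefree D) (hDA : IsCoprime D (dl A))
    {δ : Fin m → RatFunc F} (h : LocD χ c A D δ) (v : pf (dl A)) :
    EV χ (BB m ℓ) (syC χ c A) D (zS χ A D δ) v = 0 := by
  classical
  obtain ⟨s, hsv, hoth, hLQ⟩ := h.atN v
  set i : Fin m := (pr A v).1 with hi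
  set j : Fin m := (pr A v).2 with hj
  have hij : i ≠ j := (pr_lt A v).ne
  have hnv : nv (DK c D) (AK A) i j ≠ 0 := nv_ne hc hD.ne_zero hs hij
  set N : RatFunc F := nv (DK c D) (AK A) i j with hN
  obtain ⟨h0, h1⟩ := hLQ
  have hrd := rho_diag χ h2 hc hs hD hDA v
  rw [← hi, ← hj, ← hN] at hrd
  have hirr : ∀ v' : pf (dl A), Irreducible v'.1 := fun v' => (mem_pf' v'.2).2.1
  have hirrD : ∀ P : pf D, Irreducible P.1 := fun P => (mem_pf' P.2).2.1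
  -- the values
  have e1 : BB m ℓ (zS χ A D δ).1 ((syC χ c A).eps v) = kap χ (δ i) - kap χ (δ j) := by
    change BB m ℓ (toX fun k => kap χ (δ k)) (ep ℓ (pr A v).1 (pr A v).2) = _
    rw [BB_ep, toX_apply (sum_kap χ h), toX_apply (sum_kap χ h)]
  have e2 : ∀ P : pf D, BB m ℓ ((zS χ A D δ).2.2 P) ((syC χ c A).eps v) =
      ex ℓ P.1 (δ i) - ex ℓ P.1 (δ j) := by
    intro P
    change BB m ℓ (toX fun k => ex ℓ P.1 (δ k)) (ep ℓ (pr A v).1 (pr A v).2) = _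
    rw [BB_ep, toX_apply (sum_ex χ h (hirrD P)), toX_apply (sum_ex χ h (hirrD P))]
  have e3 : ∀ v' : pf (dl A), (zS χ A D δ).2.1 v' = ex ℓ v'.1 (δ (pr A v').1) := fun _ => rfl
  have e4 : ∀ v' : pf (dl A), v' ≠ v → (syC χ c A).rho v v' * (zS χ A D δ).2.1 v' =
      (ex ℓ v'.1 (δ i) - ex ℓ v'.1 (δ j)) * lm χ v'.1 v.1 := by
    intro v' hv'
    have e5 : (syC χ c A).rho v v' = BB m ℓ (ep ℓ (pr A v').1 (pr A v').2)
        (ep ℓ (pr A v).1 (pr A v).2) * lm χ v'.1 v.1 := by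
      unfold syC
      exact if_neg hv'.symm
    rw [e5, e3, BB_ep, ex_eq χ h v' i, ex_eq χ h v' j]
    ring
  have e6 : ∑ v' : pf (dl A), (syC χ c A).rho v v' * (zS χ A D δ).2.1 v' =
      ((v.1.natDegree : ZMod ℓ) * kap χ N +
        ∑ v' ∈ Finset.univ.erase v, ex ℓ v'.1 N * lm χ v'.1 v.1) * s +
      ∑ v' ∈ Finset.univ.erase v, (ex ℓ v'.1 (δ i) - ex ℓ v'.1 (δ j)) * lm χ v'.1 v.1 := by
    rw [← Finset.add_sum_erase Finset.univ _ (Finset.mem_univ v), e3, ← hi, hsv]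
    congr 1
    · rw [← hrd]
    · exact Finset.sum_congr rfl fun v' hv' => e4 v' (Finset.ne_of_mem_erase hv')
  have e7 : ∑ v' : pf (dl A), ex ℓ v'.1 (δ i / δ j * N ^ s) * lm χ v'.1 v.1 =
      ∑ v' ∈ Finset.univ.erase v, (ex ℓ v'.1 (δ i) - ex ℓ v'.1 (δ j)) * lm χ v'.1 v.1 +
      s * ∑ v' ∈ Finset.univ.erase v, ex ℓ v'.1 N * lm χ v'.1 v.1 := by
    rw [← Finset.add_sum_erase Finset.univ _ (Finset.mem_univ v), h0, zero_mul, zero_add,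
      Finset.mul_sum, ← Finset.sum_add_distrib]
    refine Finset.sum_congr rfl fun v' _ => ?_
    rw [kv_ex (hirr v') s (h.ne i) (h.ne j) hnv]
    ring
  have e8 : ∑ Q : pf D, ex ℓ Q.1 (δ i / δ j * N ^ s) * lm χ Q.1 v.1 =
      ∑ Q : pf D, (ex ℓ Q.1 (δ i) - ex ℓ Q.1 (δ j)) * lm χ Q.1 v.1 +
      s * ∑ Q : pf D, lm χ Q.1 v.1 := by
    rw [Finset.mul_sum, ← Finset.sum_add_distrib]
    refine Finset.sum_congr rfl fun Q _ => ?_
    rw [kv_ex (hirrD Q) s (h.ne i) (h.ne j) hnv, ex_nv_D hc hs hD hDs hDA hij Q]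
    ring
  have e9 : ∑ P : pf D, BB m ℓ ((zS χ A D δ).2.2 P) ((syC χ c A).eps v) * lm χ P.1 v.1 =
      ∑ Q : pf D, (ex ℓ Q.1 (δ i) - ex ℓ Q.1 (δ j)) * lm χ Q.1 v.1 :=
    Finset.sum_congr rfl fun P _ => by rw [e2]
  rw [kv_nv χ s (h.ne i) (h.ne j) hnv, e7, e8] at h1
  rw [EV, e1, e9, e6, e3, ← hi, hsv]
  linear_combination h1

/-- the coordinate `k` -/
def crd (ℓ : ℕ) {m : ℕ} (k : Fin m) : XX m ℓ →ₗ[ZMod ℓ] ZMod ℓ :=
  (LinearMap.proj k).comp (XM m ℓ).subtype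

theorem crd_apply {ℓ m : ℕ} (k : Fin m) (x : XX m ℓ) : crd ℓ k x = x.1 k := rfl

theorem ei_zS {c : F} {A : Fin m → F[X]} (hs : Squarefree (dl A)) {D : F[X]} (hD : D.Monic)
    {δ : Fin m → RatFunc F} (h : LocD χ c A D δ) : EI (syC χ c A) D (zS χ A D δ) = 0 := by
  refine Subtype.ext (funext fun k => ?_)
  rw [← crd_apply, EI, map_add, map_sum, map_sum]
  have h1 := h.inf k
  have e1 : ∀ P : pf D, crd ℓ k ((P.1.natDegree : ZMod ℓ) • (zS χ A D δ).2.2 P) =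
      ex ℓ P.1 (δ k) * (P.1.natDegree : ZMod ℓ) := by
    intro P
    rw [map_smul, crd_apply, smul_eq_mul, mul_comm]
    change (toX fun k => ex ℓ P.1 (δ k)).1 k * _ = _
    rw [toX_apply (sum_ex χ h (mem_pf' P.2).2.1)]
  have e2 : ∀ v : pf (dl A), crd ℓ k (((v.1.natDegree : ZMod ℓ) * (zS χ A D δ).2.1 v) •
      (syC χ c A).eps v) = ex ℓ v.1 (δ k) * (v.1.natDegree : ZMod ℓ) := by
    intro v
    rw [map_smul, crd_apply, smul_eq_mul, ex_eq χ h v k]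
    change (v.1.natDegree : ZMod ℓ) * ex ℓ v.1 (δ (pr A v).1) *
      (ep ℓ (pr A v).1 (pr A v).2).1 k = _
    ring
  rw [Finset.sum_congr rfl fun P _ => e1 P, Finset.sum_congr rfl fun v _ => e2 v]
  exact h1

end Pool.Agent.H94.PL
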