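import Pool.Agent.H94.PL.Syc

set_option autoImplicit false

/-!
# [H94 PL R2] The relation at infinity

`∑_v deg v * B(eps v)σ • eps v = ∑_{p ∈ prs} (∑_{Q ∈ pf (A_a - A_b)} deg Q) B(ep p)σ • ep p` (`sum_pf_dl`), and
`∑ deg Q = deg (A_a - A_b) = a` (squarefree).  In coordinates: `a ∑_{i ≠ k} (σ_k - σ_i) = a m σ_k` (`∑ σ = 0`).
(Coordinates of `∑ p ∈ prs m, B(ep p)σ • ep p` at `k`: `∑ i ∈ univ.erase k, (σ k - σ i)`; same computation as `bet_apply`.)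
-/

namespace Pool.Agent.H94.PL

open Polynomial
open Pool.Agent.H94.PC (Mo Sq Pr pf om Mn mem_Mo mem_Sq mem_Pr mem_pf mem_pf')

variable {F : Type} [Field F] [Finite F] {ℓ m : ℕ} (χ : LChar F ℓ) [hl : Fact ℓ.Prime]

theorem rel2C (c : F) {A : Fin m → F[X]} (hs : Squarefree (dl A)) {a : ℕ}
    (ha : ∀ i k, i ≠ k → (A i - A k).natDegree = a) {n : ℕ}
    (hn : (n : ZMod ℓ) = (m : ZMod ℓ) * (a : ZMod ℓ)) : Rel2 (BB m ℓ) (syC χ c A) n := by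
  intro σ
  have e1 : ∑ v : pf (dl A), ((v.1.natDegree : ZMod ℓ) * BB m ℓ ((syC χ c A).eps v) σ) •
      (syC χ c A).eps v = ∑ p ∈ prs m, ∑ Q ∈ pf (A p.1 - A p.2),
        ((Q.natDegree : ZMod ℓ) * BB m ℓ (ep ℓ p.1 p.2) σ) • ep ℓ p.1 p.2 :=
    sum_pf_dl hs fun p Q => ((Q.natDegree : ZMod ℓ) * BB m ℓ (ep ℓ p.1 p.2) σ) • ep ℓ p.1 p.2
  have e2 : ∀ p ∈ prs m, ∑ Q ∈ pf (A p.1 - A p.2),
      ((Q.natDegree : ZMod ℓ) * BB m ℓ (ep ℓ p.1 p.2) σ) • ep ℓ p.1 p.2 =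
      ((a : ZMod ℓ) * BB m ℓ (ep ℓ p.1 p.2) σ) • ep ℓ p.1 p.2 := by
    intro p hp
    have hne : p.1 ≠ p.2 := (mem_prs.1 hp).ne
    have hsq : Squarefree (A p.1 - A p.2) := hs.squarefree_of_dvd (dvd_dl hne)
    have hd := natDegree_factor hsq
    rw [ha _ _ hne] at hd
    rw [← Finset.sum_smul, ← Finset.sum_mul, ← Nat.cast_sum, hd]
  rw [e1, Finset.sum_congr rfl e2]
  apply Subtype.ext
  funext k
  have e3 := sum_ep_apply (fun _ _ => (a : ZMod ℓ)) (fun _ _ => rfl) σ k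
  rw [e3]
  have e4 : ∑ i ∈ Finset.univ.erase k, (a : ZMod ℓ) * (σ.1 k - σ.1 i) =
      ∑ i, (a : ZMod ℓ) * (σ.1 k - σ.1 i) :=
    Finset.sum_erase _ (by rw [sub_self, mul_zero])
  rw [e4, ← Finset.mul_sum, Finset.sum_sub_distrib, XX_sum σ, Finset.sum_const, Finset.card_univ,
    Fintype.card_fin, sub_zero, nsmul_eq_mul]
  change (n : ZMod ℓ) * σ.1 k = _
  rw [hn]
  ring

end Pool.Agent.H94.PL
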