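import Pool.Agent.H94.PL.Syc

set_option autoImplicit false

/-!
# [H94 PL R1] The relation from reciprocity
-/

namespace Pool.Agent.H94.PL

open Polynomial
open Pool.Agent.H94.PC (Mo Sq Pr pf om Mn mem_Mo mem_Sq mem_Pr mem_pf mem_pf')

theorem sum_prs {m : ℕ} {Y : Type} [AddCommMonoid Y] (f : Fin m → Fin m → Y)
    (hf : ∀ a b, f a b = f b a) :
    ∑ p ∈ prs m, f p.1 p.2 + ∑ p ∈ prs m, f p.1 p.2 = ∑ a, ∑ b ∈ Finset.univ.erase a, f a b := by
  classical
  have h1 : ∀ a : Fin m, ∑ b ∈ Finset.univ.erase a, f a b =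
      ∑ b, ((if a < b then f a b else 0) + (if b < a then f a b else 0)) := by
    intro a
    have e : (Finset.univ : Finset (Fin m)).erase a = Finset.univ.filter fun b => a ≠ b := by
      ext b
      simp [eq_comm]
    rw [e, Finset.sum_filter]
    refine Finset.sum_congr rfl fun b _ => ?_
    rcases lt_trichotomy a b with h | h | h
    · rw [if_pos h.ne, if_pos h, if_neg h.not_gt, add_zero]
    · subst h
      simp
    · rw [if_pos h.ne', if_neg h.not_gt, if_pos h, zero_add]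
  have h2 : ∑ a : Fin m, ∑ b : Fin m, (if b < a then f a b else 0) =
      ∑ a : Fin m, ∑ b : Fin m, (if a < b then f a b else 0) := by
    rw [Finset.sum_comm]
    refine Finset.sum_congr rfl fun a _ => Finset.sum_congr rfl fun b _ => ?_
    rw [hf]
  have h3 : ∑ p ∈ prs m, f p.1 p.2 = ∑ a : Fin m, ∑ b : Fin m, (if a < b then f a b else 0) := by
    rw [prs, Finset.sum_filter, Fintype.sum_prod_type]
  rw [h3, Finset.sum_congr rfl fun a _ => h1 a]
  simp only [Finset.sum_add_distrib]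
  rw [h2]

variable {F : Type} [Field F] [Finite F] {ℓ m : ℕ} (χ : LChar F ℓ) [hl : Fact ℓ.Prime]

omit [Finite F] in
theorem lm_neg (h2 : ℓ ≠ 2) (A B : F[X]) : lm χ (-A) B = lm χ A B := by
  unfold lm
  rw [natDegree_neg, ← neg_one_mul A, show (-1 : F[X]) = C (-1) by rw [C_neg, C_1],
    resultant_C_mul_right]
  rcases neg_one_pow_eq_or F B.natDegree with h | h
  · rw [h, one_mul]
  · rw [h, neg_one_mul, lg_neg χ h2]

theorem two_ne {ℓ : ℕ} (h2 : ℓ ≠ 2) [hl : Fact ℓ.Prime] : (2 : ZMod ℓ) ≠ 0 := by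
  intro h
  have h3 : ((2 : ℕ) : ZMod ℓ) = 0 := by exact_mod_cast h
  rw [ZMod.natCast_eq_zero_iff] at h3
  exact h2 ((Nat.prime_dvd_prime_iff_eq hl.out Nat.prime_two).1 h3)

/-- evaluation of the double sum -/
theorem dsum {R : Type} [CommRing R] {m : ℕ} {i j : Fin m} (hij : i ≠ j) (s : Fin m → R)
    (L : Fin m → Fin m → R)
    (hL : ∀ a b, L a b = L b a) (hLk : ∀ k, k ≠ i → k ≠ j → L j k = L i k) :
    ∑ a, ∑ b ∈ Finset.univ.erase a,
      ((((if a = i then 1 else 0) - (if b = i then 1 else 0)) -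
        ((if a = j then 1 else 0) - (if b = j then 1 else 0))) * (s a - s b) *
        (if (a = i ∧ b = j) ∨ (a = j ∧ b = i) then 0 else L a b)) =
      2 * ((∑ k ∈ (Finset.univ.erase i).erase j, L i k) * (s i - s j)) := by
  classical
  set h : Fin m → Fin m → R := fun a b =>
    (s a - s b) * (if (a = i ∧ b = j) ∨ (a = j ∧ b = i) then 0 else L a b) with hh
  have hanti : ∀ a b, h a b = - h b a := by
    intro a b
    simp only [hh]
    have e : ((a = i ∧ b = j) ∨ (a = j ∧ b = i)) ↔ ((b = i ∧ a = j) ∨ (b = j ∧ a = i)) := by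
      tauto
    by_cases hc : (a = i ∧ b = j) ∨ (a = j ∧ b = i)
    · rw [if_pos hc, if_pos (e.1 hc)]; ring
    · rw [if_neg hc, if_neg (fun h => hc (e.2 h)), hL a b]; ring
  have h1 : ∀ a : Fin m, ∑ b ∈ Finset.univ.erase a,
      ((((if a = i then 1 else 0) - (if b = i then 1 else 0)) -
        ((if a = j then 1 else 0) - (if b = j then 1 else 0))) * (s a - s b) *
        (if (a = i ∧ b = j) ∨ (a = j ∧ b = i) then 0 else L a b)) =
      ∑ b, (((if a = i then h a b else 0) - (if b = i then h a b else 0)) -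
        ((if a = j then h a b else 0) - (if b = j then h a b else 0))) := by
    intro a
    rw [Finset.sum_erase]
    · refine Finset.sum_congr rfl fun b _ => ?_
      rw [mul_assoc]
      change _ * h a b = _
      split_ifs <;> ring
    · ring
  rw [Finset.sum_congr rfl fun a _ => h1 a]
  simp only [Finset.sum_sub_distrib]
  have e1 : ∑ a, ∑ b, (if a = i then h a b else 0) = ∑ b, h i b := by
    rw [Finset.sum_comm]
    simp
  have e2 : ∑ a, ∑ b, (if b = i then h a b else 0) = - ∑ b, h i b := by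
    simp only [Finset.sum_ite_eq', Finset.mem_univ, if_true]
    rw [← Finset.sum_neg_distrib]
    exact Finset.sum_congr rfl fun a _ => hanti a i
  have e3 : ∑ a, ∑ b, (if a = j then h a b else 0) = ∑ b, h j b := by
    rw [Finset.sum_comm]
    simp
  have e4 : ∑ a, ∑ b, (if b = j then h a b else 0) = - ∑ b, h j b := by
    simp only [Finset.sum_ite_eq', Finset.mem_univ, if_true]
    rw [← Finset.sum_neg_distrib]
    exact Finset.sum_congr rfl fun a _ => hanti a j
  rw [e1, e2, e3, e4]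
  have e5 : ∑ b, h i b - ∑ b, h j b = (∑ k ∈ (Finset.univ.erase i).erase j, L i k) * (s i - s j) := by
    rw [← Finset.sum_sub_distrib]
    have hi0 : h i i - h j i = 0 := by
      have : h j i = 0 := by
        simp only [hh]
        rw [if_pos (Or.inr ⟨trivial, trivial⟩), mul_zero]
      rw [this]
      simp only [hh]
      ring
    have hj0 : h i j - h j j = 0 := by
      have : h i j = 0 := by
        simp only [hh]
        rw [if_pos (Or.inl ⟨trivial, trivial⟩), mul_zero]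
      rw [this]
      simp only [hh]
      ring
    rw [← Finset.sum_erase Finset.univ (a := i) (f := fun b => h i b - h j b) hi0,
      ← Finset.sum_erase (Finset.univ.erase i) (a := j) (f := fun b => h i b - h j b) hj0,
      Finset.sum_mul]
    refine Finset.sum_congr rfl fun k hk => ?_
    rw [Finset.mem_erase, Finset.mem_erase] at hk
    obtain ⟨hkj, hki, -⟩ := hk
    simp only [hh]
    rw [if_neg (by rintro (⟨-, h⟩ | ⟨h, -⟩); exacts [hkj h, hij h]),
      if_neg (by rintro (⟨h, -⟩ | ⟨-, h⟩); exacts [hij h.symm, hki h]), hLk k hki hkj]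
    ring
  rw [← e5]
  ring

open Classical in
/-- the primes of a difference other than `v` -/
theorem key1 {A : Fin m → F[X]} (hs : Squarefree (dl A)) (v : pf (dl A)) {a b : Fin m}
    (hab : a ≠ b) (h : ¬ v.1 ∣ A a - A b) :
    (v.1.natDegree : ZMod ℓ) * χ.lg (A a - A b).leadingCoeff +
      ∑ Q ∈ pf (A a - A b), (if Q = v.1 then 0 else lm χ Q v.1) = lm χ (A a - A b) v.1 := by
  have hv := mem_pf' v.2
  have hsq : Squarefree (A a - A b) := hs.squarefree_of_dvd (dvd_dl hab)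
  have hco : IsCoprime (A a - A b) v.1 := ((hv.2.1.coprime_iff_not_dvd).2 h).symm
  rw [lm_factor χ hsq hv.1 hco]
  congr 1
  refine Finset.sum_congr rfl fun Q hQ => ?_
  rw [if_neg]
  rintro rfl
  exact h (mem_pf' hQ).2.2

open Classical in
/-- the primes of the difference divisible by `v` -/
theorem key2 {A : Fin m → F[X]} (hs : Squarefree (dl A)) (v : pf (dl A)) :
    (v.1.natDegree : ZMod ℓ) * χ.lg (A (pr A v).1 - A (pr A v).2).leadingCoeff +
      ∑ Q ∈ pf (A (pr A v).1 - A (pr A v).2), (if Q = v.1 then 0 else lm χ Q v.1) =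
      lm χ (cof A v) v.1 := by
  classical
  have hv := mem_pf' v.2
  have hne : (pr A v).1 ≠ (pr A v).2 := (pr_lt A v).ne
  have hsq : Squarefree (A (pr A v).1 - A (pr A v).2) := hs.squarefree_of_dvd (dvd_dl hne)
  have hG0 : A (pr A v).1 - A (pr A v).2 ≠ 0 := hsq.ne_zero
  have hspec := cof_spec A v
  have hc0 : cof A v ≠ 0 := by
    intro h
    rw [h, mul_zero] at hspec
    exact hG0 hspec
  have hcsq : Squarefree (cof A v) := hsq.squarefree_of_dvd ⟨v.1, by rw [hspec, mul_comm]⟩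
  have hnd := not_dvd_cof hs v
  have hco : IsCoprime (cof A v) v.1 := ((hv.2.1.coprime_iff_not_dvd).2 hnd).symm
  rw [lm_factor χ hcsq hv.1 hco]
  have hlc : (A (pr A v).1 - A (pr A v).2).leadingCoeff = (cof A v).leadingCoeff := by
    rw [hspec, leadingCoeff_mul, hv.1.leadingCoeff, one_mul]
  have hvn : v.1 ∉ pf (cof A v) := fun h => hnd (mem_pf' h).2.2
  have hpf : pf (A (pr A v).1 - A (pr A v).2) = insert v.1 (pf (cof A v)) := by
    ext Q
    rw [mem_pf hG0, Finset.mem_insert, mem_pf hc0]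
    constructor
    · rintro ⟨h1, h3, h4⟩
      rw [hspec] at h4
      rcases h3.prime.dvd_or_dvd h4 with h5 | h5
      · left
        exact eq_of_monic_of_associated h1 hv.1 (h3.associated_of_dvd hv.2.1 h5)
      · exact Or.inr ⟨h1, h3, h5⟩
    · rintro (rfl | ⟨h1, h3, h4⟩)
      · exact ⟨hv.1, hv.2.1, by rw [hspec]; exact dvd_mul_right _ _⟩
      · exact ⟨h1, h3, by rw [hspec]; exact dvd_mul_of_dvd_right h4 _⟩
  rw [hlc, hpf, Finset.sum_insert hvn, if_pos rfl, zero_add]
  congr 1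
  refine Finset.sum_congr rfl fun Q hQ => ?_
  rw [if_neg]
  rintro rfl
  exact hvn hQ

theorem rel1C (h2 : ℓ ≠ 2) (c : F) {A : Fin m → F[X]}
    (hs : Squarefree (dl A)) : Rel1 (BB m ℓ) (syC χ c A) := by
  classical
  intro v σ
  have hv := mem_pf' v.2
  obtain ⟨i, hi⟩ : ∃ i, i = (pr A v).1 := ⟨_, rfl⟩
  obtain ⟨j, hj⟩ : ∃ j, j = (pr A v).2 := ⟨_, rfl⟩
  have hij : i < j := by rw [hi, hj]; exact pr_lt A v
  set D : ZMod ℓ := (v.1.natDegree : ZMod ℓ) with hD
  set L : Fin m → Fin m → ZMod ℓ := fun a b => lm χ (A a - A b) v.1 with hLd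
  set R : ZMod ℓ := D * χ.lg c - 2 * lm χ (cof A v) v.1 -
        (∑ k ∈ (Finset.univ.erase i).erase j, L i k) with hR
  -- the sum over the primes
  have hrho : ∑ v' : pf (dl A), (syC χ c A).rho v v' * BB m ℓ ((syC χ c A).eps v') σ =
      R * (σ.1 i - σ.1 j) + ∑ p ∈ prs m, ∑ Q ∈ pf (A p.1 - A p.2),
        (if Q = v.1 then 0 else BB m ℓ (ep ℓ p.1 p.2) (ep ℓ i j) * lm χ Q v.1 *
          BB m ℓ (ep ℓ p.1 p.2) σ) := by
    rw [← sum_pf_dl hs (fun p Q => if Q = v.1 then 0 else BB m ℓ (ep ℓ p.1 p.2) (ep ℓ i j) *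
      lm χ Q v.1 * BB m ℓ (ep ℓ p.1 p.2) σ)]
    have e : ∀ v' : pf (dl A), (syC χ c A).rho v v' * BB m ℓ ((syC χ c A).eps v') σ =
        (if v' = v then R * (σ.1 i - σ.1 j) else 0) +
        (if v'.1 = v.1 then 0 else BB m ℓ (ep ℓ (pr A v').1 (pr A v').2) (ep ℓ i j) *
          lm χ v'.1 v.1 * BB m ℓ (ep ℓ (pr A v').1 (pr A v').2) σ) := by
      intro v'
      by_cases h : v = v'
      · subst h
        rw [if_pos rfl, if_pos rfl, add_zero]
        simp only [syC, if_true]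
        rw [ep_BB, ← hi, ← hj]
      · have h' : ¬ v' = v := fun h1 => h h1.symm
        have h'' : ¬ v'.1 = v.1 := fun h1 => h' (Subtype.ext h1)
        rw [if_neg h', if_neg h'', zero_add]
        simp only [syC, if_neg h]
        rw [← hi, ← hj]
    rw [Finset.sum_congr rfl fun v' _ => e v', Finset.sum_add_distrib, Finset.sum_ite_eq' Finset.univ v,
      if_pos (Finset.mem_univ v)]
  -- the map beta
  have hbet : BB m ℓ ((syC χ c A).bet σ) ((syC χ c A).eps v) =
      ∑ p ∈ prs m, χ.lg (A p.1 - A p.2).leadingCoeff * (BB m ℓ (ep ℓ p.1 p.2) σ *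
        BB m ℓ (ep ℓ p.1 p.2) (ep ℓ i j)) - χ.lg c * (σ.1 i - σ.1 j) := by
    have e1 : (syC χ c A).eps v = ep ℓ i j := by rw [hi, hj]; rfl
    have e2 : (syC χ c A).bet σ = ∑ p ∈ prs m, χ.lg (A p.1 - A p.2).leadingCoeff •
        (BB m ℓ (ep ℓ p.1 p.2) σ • ep ℓ p.1 p.2) - χ.lg c • σ := by
      simp only [syC, LinearMap.sub_apply, LinearMap.sum_apply, LinearMap.smul_apply,
        LinearMap.smulRight_apply, LinearMap.id_apply]
    rw [e1, e2, map_sub, map_sum, LinearMap.sub_apply, LinearMap.sum_apply, map_smul,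
      LinearMap.smul_apply, BB_ep σ]
    simp only [map_smul, LinearMap.smul_apply, smul_eq_mul]
  rw [hrho, hbet]
  -- combine
  have hcomb : D * (∑ p ∈ prs m, χ.lg (A p.1 - A p.2).leadingCoeff * (BB m ℓ (ep ℓ p.1 p.2) σ *
        BB m ℓ (ep ℓ p.1 p.2) (ep ℓ i j)) - χ.lg c * (σ.1 i - σ.1 j)) +
      (R * (σ.1 i - σ.1 j) + ∑ p ∈ prs m, ∑ Q ∈ pf (A p.1 - A p.2),
        (if Q = v.1 then 0 else BB m ℓ (ep ℓ p.1 p.2) (ep ℓ i j) * lm χ Q v.1 *
          BB m ℓ (ep ℓ p.1 p.2) σ)) =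
      (∑ p ∈ prs m, BB m ℓ (ep ℓ p.1 p.2) (ep ℓ i j) * BB m ℓ (ep ℓ p.1 p.2) σ *
        (D * χ.lg (A p.1 - A p.2).leadingCoeff +
          ∑ Q ∈ pf (A p.1 - A p.2), (if Q = v.1 then 0 else lm χ Q v.1))) +
      (R - D * χ.lg c) * (σ.1 i - σ.1 j) := by
    have e : ∀ p ∈ prs m, BB m ℓ (ep ℓ p.1 p.2) (ep ℓ i j) * BB m ℓ (ep ℓ p.1 p.2) σ *
        (D * χ.lg (A p.1 - A p.2).leadingCoeff +
          ∑ Q ∈ pf (A p.1 - A p.2), (if Q = v.1 then 0 else lm χ Q v.1)) =
        D * (χ.lg (A p.1 - A p.2).leadingCoeff * (BB m ℓ (ep ℓ p.1 p.2) σ *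
        BB m ℓ (ep ℓ p.1 p.2) (ep ℓ i j))) + ∑ Q ∈ pf (A p.1 - A p.2),
        (if Q = v.1 then 0 else BB m ℓ (ep ℓ p.1 p.2) (ep ℓ i j) * lm χ Q v.1 *
          BB m ℓ (ep ℓ p.1 p.2) σ) := by
      intro p _
      rw [mul_add, Finset.mul_sum]
      congr 1
      · ring
      · refine Finset.sum_congr rfl fun Q _ => ?_
        split_ifs
        · ring
        · ring
    rw [Finset.sum_congr rfl e, Finset.sum_add_distrib, ← Finset.mul_sum]
    ring
  rw [hcomb]
  -- evaluate the brackets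
  set f : Fin m → Fin m → ZMod ℓ := fun a b =>
    (((if a = i then 1 else 0) - (if b = i then 1 else 0)) -
        ((if a = j then 1 else 0) - (if b = j then 1 else 0))) * (σ.1 a - σ.1 b) *
        (if (a = i ∧ b = j) ∨ (a = j ∧ b = i) then 0 else L a b) with hf
  have hcc : ∀ a b : Fin m, BB m ℓ (ep ℓ a b) (ep ℓ i j) =
      (((if a = i then 1 else 0) - (if b = i then 1 else 0)) -
        ((if a = j then 1 else 0) - (if b = j then 1 else 0))) := by
    intro a b
    rw [BB_ep, ep_apply, ep_apply]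
    simp only [eq_comm]
  have hbr : ∀ p ∈ prs m, BB m ℓ (ep ℓ p.1 p.2) (ep ℓ i j) * BB m ℓ (ep ℓ p.1 p.2) σ *
        (D * χ.lg (A p.1 - A p.2).leadingCoeff +
          ∑ Q ∈ pf (A p.1 - A p.2), (if Q = v.1 then 0 else lm χ Q v.1)) =
      f p.1 p.2 + (if p = (i, j) then 2 * (σ.1 i - σ.1 j) * lm χ (cof A v) v.1 else 0) := by
    rintro ⟨a, b⟩ hp
    rw [mem_prs] at hp
    simp only at hp ⊢
    by_cases h : a = i ∧ b = j
    · obtain ⟨rfl, rfl⟩ := h
      have hk2 := key2 χ hs v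
      rw [← hi, ← hj] at hk2
      rw [hk2, if_pos rfl, hcc, ep_BB]
      simp only [hf]
      rw [if_pos (Or.inl ⟨trivial, trivial⟩), if_neg hij.ne', if_neg hij.ne]
      simp only [if_true]
      ring
    · have hnd : ¬ v.1 ∣ A a - A b := by
        intro hd
        rcases pr_unique hs v hp.ne hd with ⟨h1, h3⟩ | ⟨h1, h3⟩
        · exact h ⟨h1.trans hi.symm, h3.trans hj.symm⟩
        · rw [h1, h3, ← hi, ← hj] at hp
          exact absurd hp hij.not_gt
      have hk1 := key1 χ hs v hp.ne hnd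
      have hne : ¬ ((a = i ∧ b = j) ∨ (a = j ∧ b = i)) := by
        rintro (h1 | ⟨h1, h3⟩)
        · exact h h1
        · rw [h1, h3] at hp
          exact absurd hp hij.not_gt
      rw [hk1, if_neg (fun h1 => h (by rw [Prod.mk.injEq] at h1; exact h1)), hcc, ep_BB]
      simp only [hf]
      rw [if_neg hne, add_zero]
  rw [Finset.sum_congr rfl hbr, Finset.sum_add_distrib]
  have hone : ∑ p ∈ prs m, (if p = (i, j) then 2 * (σ.1 i - σ.1 j) * lm χ (cof A v) v.1 else 0) =
      2 * (σ.1 i - σ.1 j) * lm χ (cof A v) v.1 := by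
    rw [Finset.sum_ite_eq' (prs m) (i, j), if_pos (mem_prs.2 hij)]
  rw [hone]
  -- the double sum
  have hLs : ∀ a b, L a b = L b a := by
    intro a b
    simp only [hLd]
    rw [← lm_neg χ h2, neg_sub]
  have hLk : ∀ k, k ≠ i → k ≠ j → L j k = L i k := by
    intro k _ _
    simp only [hLd]
    refine lm_congr χ hv.1 ?_
    have := pr_dvd A v
    rw [← hi, ← hj] at this
    have e : A j - A k - (A i - A k) = -(A i - A j) := by ring
    rw [e, dvd_neg]
    exact this
  have hfs : ∀ a b, f a b = f b a := by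
    intro a b
    simp only [hf]
    have e : ((a = i ∧ b = j) ∨ (a = j ∧ b = i)) ↔ ((b = i ∧ a = j) ∨ (b = j ∧ a = i)) := by
      tauto
    by_cases hc : (a = i ∧ b = j) ∨ (a = j ∧ b = i)
    · rw [if_pos hc, if_pos (e.1 hc)]; ring
    · rw [if_neg hc, if_neg (fun h => hc (e.2 h)), hLs a b]; ring
  have hds := dsum hij.ne (fun a => σ.1 a) L hLs hLk
  have hdd := sum_prs f hfs
  have hds' : ∑ a, ∑ b ∈ Finset.univ.erase a, f a b =
      2 * ((∑ k ∈ (Finset.univ.erase i).erase j, L i k) * (σ.1 i - σ.1 j)) := hds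
  rw [hds', ← two_mul] at hdd
  have hfin := mul_left_cancel₀ (two_ne h2) hdd
  rw [hfin, hR]
  ring

end Pool.Agent.H94.PL
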