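import Pool.Agent.H94.PL.LGood

set_option autoImplicit false

/-!
# [H94 PL LI] Values at infinity

`w (A i - A k) = exp a` for `i ≠ k`, `w D = exp n`, `n = m a` modulo `ℓ`.  If `m = 0` nothing to prove (`k : Fin m`).
Let `λ` with `w λ = exp a` (`λ = ϖ ^ (-a)`), `A₀ = A k₀` for some fixed `k₀`, `A'_k = (A_k - A₀) / λ` (integral, differences
units), `D' = D / λ^m` (`Vd`: `w D' = exp (n - m a)`), `P'(Y) = λ^(-deg P) P(A₀ + λ Y)` (monic of the same degree),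
`Q'(Y) = Q(A₀ + λ Y)`: `D Q(A₀ + λ Y)^ℓ - ∏ (A₀ + λ Y - A_k) = λ^m (D' Q'^ℓ - ∏ (Y - A'_k))`, so `(P', Q')` is a Mumford pair
for `D', A'` and `loc_good` applies.  `P(A_k) = λ^(deg P) P'(A'_k)`, `D^α = D'^α λ^(m α)`, so
`dv α D P (A k) = dv α D' P' (A' k) * λ^(deg P (α m + 1))`, and `ℓ ∣ α m + 1`.
-/

namespace Pool.Agent.H94.PL

open Polynomial WithZero

variable {M : Type*} [Field M] [hv : Valued M ℤᵐ⁰] [CompleteSpace M] {m : ℕ}


theorem loc_inf {ϖ : M} (hϖ : (Valued.v : Valuation M ℤᵐ⁰) ϖ = exp (-1 : ℤ)) {ℓ α : ℕ} (hℓ : ℓ.Prime) (h2 : ℓ ≠ 2)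
    (hm : Nat.Coprime m ℓ) (hα : ℓ ∣ α * m + 1) {D : M} {n a : ℤ} (hD : (Valued.v : Valuation M ℤᵐ⁰) D = exp n)
    (hn : (ℓ : ℤ) ∣ n - m * a) {A : Fin m → M} (hAA : ∀ i k, i ≠ k → (Valued.v : Valuation M ℤᵐ⁰) (A i - A k) = exp a)
    {P Q : M[X]} (h : IsMum ℓ D A P Q) (k : Fin m) : Vd (Valued.v : Valuation M ℤᵐ⁰) ℓ (dv α D P (A k)) := by
  have hϖ0 : ϖ ≠ 0 := by
    rintro rfl
    rw [map_zero] at hϖ
    exact exp_ne_zero hϖ.symm
  have hwz : ∀ c : ℤ, (Valued.v : Valuation M ℤᵐ⁰) (ϖ ^ c) = exp (-c) := by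
    intro c
    rw [map_zpow₀, hϖ, ← exp_zsmul]
    congr 1
    simp
  obtain ⟨c, hc⟩ : ∃ c : M, c = ϖ ^ (-a) := ⟨_, rfl⟩
  have hc0 : c ≠ 0 := by
    rw [hc]
    exact zpow_ne_zero _ hϖ0
  have hwc : (Valued.v : Valuation M ℤᵐ⁰) c = exp a := by
    rw [hc, hwz, neg_neg]
  obtain ⟨A', hA'⟩ : ∃ A' : Fin m → M, ∀ i, A' i = (A i - A k) / c := ⟨fun i => (A i - A k) / c,
    fun _ => rfl⟩
  have hAi : ∀ i, A k + c * A' i = A i := by
    intro i
    rw [hA', mul_div_cancel₀ _ hc0]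
    ring
  have hdiff : ∀ i j, i ≠ j → (Valued.v : Valuation M ℤᵐ⁰) (A' i - A' j) = 1 := by
    intro i j hij
    have h1 : A' i - A' j = (A i - A j) / c := by
      rw [hA', hA']
      ring
    rw [h1, map_div₀, hAA i j hij, hwc, div_self exp_ne_zero]
  have hA'k : A' k = 0 := by
    rw [hA', sub_self, zero_div]
  have hA'1 : ∀ i, (Valued.v : Valuation M ℤᵐ⁰) (A' i) ≤ 1 := by
    intro i
    by_cases hik : i = k
    · rw [hik, hA'k, map_zero]
      exact zero_le_one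
    · have h1 := hdiff i k hik
      rw [hA'k, sub_zero] at h1
      exact h1.le
  obtain ⟨D', hD'⟩ : ∃ D' : M, D' = D / c ^ m := ⟨_, rfl⟩
  have hDD : D = D' * c ^ m := by
    rw [hD', div_mul_cancel₀ _ (pow_ne_zero _ hc0)]
  have hVD : Vd (Valued.v : Valuation M ℤᵐ⁰) ℓ D' := by
    obtain ⟨e, he⟩ := hn
    refine ⟨ϖ ^ e, zpow_ne_zero _ hϖ0, ?_⟩
    rw [hD', map_mul, map_div₀, map_pow, map_pow, hwz, hwc, hD, ← exp_nsmul, ← exp_nsmul,
      ← exp_sub, ← exp_add, ← exp_zero]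
    congr 1
    rw [nsmul_eq_mul, nsmul_eq_mul]
    rw [show n - ((m : ℕ) : ℤ) * a = (ℓ : ℤ) * e from he]
    ring
  obtain ⟨L, hL⟩ : ∃ L : M[X], L = C (A k) + C c * X := ⟨_, rfl⟩
  have hLdeg : L.natDegree = 1 := by
    rw [hL, add_comm]
    exact natDegree_linear hc0
  have hLlead : L.leadingCoeff = c := by
    rw [hL, add_comm]
    exact leadingCoeff_linear hc0
  obtain ⟨hP1, hP2, hP3⟩ := h
  obtain ⟨P', hP'⟩ : ∃ P' : M[X], P' = C ((c ^ P.natDegree)⁻¹) * P.comp L := ⟨_, rfl⟩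
  have hcd : c ^ P.natDegree ≠ 0 := pow_ne_zero _ hc0
  have hmon : P'.Monic := by
    rw [Monic, hP', leadingCoeff_mul, leadingCoeff_C, leadingCoeff_comp (by rw [hLdeg]; norm_num),
      hP1.leadingCoeff, hLlead, one_mul, inv_mul_cancel₀ hcd]
  have hdeg : P'.natDegree = P.natDegree := by
    rw [hP', natDegree_C_mul (inv_ne_zero hcd), natDegree_comp, hLdeg, mul_one]
  have hev : ∀ i, P'.eval (A' i) = (c ^ P.natDegree)⁻¹ * P.eval (A i) := by
    intro i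
    rw [hP', eval_mul, eval_C, eval_comp, hL, eval_add, eval_mul, eval_C, eval_C, eval_X, hAi i]
  have hfA : (fA A).comp L = C (c ^ m) * fA A' := by
    have h1 : ∀ i, (X - C (A i)).comp L = C c * (X - C (A' i)) := by
      intro i
      rw [sub_comp, X_comp, C_comp, hL, ← hAi i, C_add, C_mul]
      ring
    rw [fA, fA, prod_comp, Finset.prod_congr rfl (fun i _ => h1 i), Finset.prod_mul_distrib,
      Finset.prod_const, Finset.card_univ, Fintype.card_fin, C_pow]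
  have hdvd : P' ∣ C D' * (Q.comp L) ^ ℓ - fA A' := by
    obtain ⟨W, hW⟩ := hP3
    have h1 : (C D * Q ^ ℓ - fA A).comp L = P.comp L * W.comp L := by
      rw [hW, mul_comp]
    have h2 : (C D * Q ^ ℓ - fA A).comp L = C (c ^ m) * (C D' * (Q.comp L) ^ ℓ - fA A') := by
      rw [sub_comp, mul_comp, C_comp, pow_comp, hfA]
      conv_lhs => rw [hDD]
      rw [C_mul]
      ring
    rw [h2] at h1
    have h3 : (C ((c ^ m)⁻¹) : M[X]) * C (c ^ m) = 1 := by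
      rw [← C_mul, inv_mul_cancel₀ (pow_ne_zero _ hc0), C_1]
    have h4 : (C (c ^ P.natDegree) : M[X]) * C ((c ^ P.natDegree)⁻¹) = 1 := by
      rw [← C_mul, mul_inv_cancel₀ hcd, C_1]
    refine ⟨C (c ^ P.natDegree) * (C ((c ^ m)⁻¹) * W.comp L), ?_⟩
    calc C D' * (Q.comp L) ^ ℓ - fA A' =
        (C ((c ^ m)⁻¹) * C (c ^ m)) * (C D' * (Q.comp L) ^ ℓ - fA A') := by rw [h3, one_mul]
      _ = C ((c ^ m)⁻¹) * (C (c ^ m) * (C D' * (Q.comp L) ^ ℓ - fA A')) := by ring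
      _ = C ((c ^ m)⁻¹) * (P.comp L * W.comp L) := by rw [h1]
      _ = (C (c ^ P.natDegree) * C ((c ^ P.natDegree)⁻¹)) *
          (C ((c ^ m)⁻¹) * (P.comp L * W.comp L)) := by rw [h4, one_mul]
      _ = P' * (C (c ^ P.natDegree) * (C ((c ^ m)⁻¹) * W.comp L)) := by
          rw [hP']
          ring
  have hmum : IsMum ℓ D' A' P' (Q.comp L) := by
    refine ⟨hmon, fun i => ?_, hdvd⟩
    rw [hev i]
    exact mul_ne_zero (inv_ne_zero hcd) (hP2 i)
  have hg := loc_good hϖ hℓ h2 hm hα hVD hA'1 hdiff hmum k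
  obtain ⟨e, he⟩ := hα
  have hfin : dv α D P (A k) = dv α D' P' (A' k) * (c ^ (P.natDegree * e)) ^ ℓ := by
    have h5 : P.eval (A k) = c ^ P.natDegree * P'.eval (A' k) := by
      rw [hev k, mul_inv_cancel_left₀ hcd]
    rw [dv, dv, hdeg, h5]
    conv_lhs => rw [hDD]
    have h6 : (c ^ (P.natDegree * e)) ^ ℓ = c ^ (P.natDegree * (α * m + 1)) := by
      rw [← pow_mul, he]
      congr 1
      ring
    rw [h6, mul_pow, mul_pow, ← pow_mul, ← pow_mul, mul_add, mul_one, pow_add]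
    have h7 : (c ^ m) ^ (α * P.natDegree) = c ^ (P.natDegree * (α * m)) := by
      rw [← pow_mul]
      congr 1
      ring
    rw [h7]
    ring
  rw [hfin]
  exact hg.mul (Vd.self_pow (pow_ne_zero _ hc0))

end Pool.Agent.H94.PL
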