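import Pool.Agent.H94.PL.LGood

set_option autoImplicit false

/-!
# [H94 PL LN] Values at a node

`w (A i - A j) = exp (-1)`, all other differences are units, `Vd D`.  Put `π = A i - A j`, `δ_k = dv α D P (A k)`.
Claim: there is `s : ℤ` with `Vd (δ_i / π ^ s)`, `Vd δ_k` for `k ≠ i, j`, and
`Cl (δ_i / δ_j * (nv D A i j) ^ s)`, `nv = D / (π ^ 2 * ∏_{k ≠ i, j} (A i - A k))`.  Closed under products (`dv_mul`,
`zpow_add₀`), so `P` irreducible of degree `n` (`mum_induct`).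
(i) `w (P.coeff 0) > 1`: `s = 0`: `P(A_i)/P(0)`, `P(A_j)/P(0) ≡ 1` (`tri_inf`) so `Cl (δ_i / δ_j)`; and `Vd` of all `δ_k` as in
`loc_good` (i).
From now on `P` is integral (`tri_int`).
(ii) some `k₀ ≠ i, j` with `w (P(A_{k₀})) < 1`: for `k ≠ k₀`, `w (P(A_k) - (A_k - A_{k₀})^n) < 1` and `A_k - A_{k₀}` is a
unit, so `w (P(A_k)) = 1`; `Vd δ_{k₀}` by `norm_dv`; `s = 0`; `P(A_i) / P(A_j) ≡ ((A_i - A_{k₀})/(A_j - A_{k₀}))^n ≡ 1`,
as `w (A_i - A_j) < 1`.
(iii) all `w (P(A_k)) = 1`: `s = 0` and `w (P(A_i) - P(A_j)) < 1` (`A i - A j ∣ P(A i) - P(A j)` in the ring of integers: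
`sub_dvd_eval_sub`; or both cases `P` irreducible: direct), so `Cl (δ_i / δ_j)`.
(iv) `w (P(A_k)) = 1` for `k ≠ i, j` and `w (P(A_i)) < 1` or `w (P(A_j)) < 1`; then both (`w (P(A_i) - P(A_j)) < 1`).
By `tri_red` at `a = A_j`: `P(A_k) ≡ (A_k - A_j)^n ≡ (A_k - A_i)^n` for `k ≠ i, j`.
Chart: `P₁(Y) = π^(-n) P(A_j + π Y)`, monic irreducible of degree `n` (`C (π^n)⁻¹ * P.comp (C π * X + C (A j))`; composition
with an affine automorphism; `Polynomial.scaleRoots` may be useful), `P₁(0) = π^(-n) P(A_j)`, `P₁(1) = π^(-n) P(A_i)`.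
(iv.1) `w (P₁(0)) > 1`: `P₁(1) / P₁(0) ≡ 1` (`tri_inf`), so `Cl (δ_i / δ_j)`; `norm_dv`: `∏ δ_k` is `Cl`; `Vd δ_k` for `k ≠ i, j`,
so `Vd (δ_i δ_j)`, so `Vd (δ_i ^ 2)`, `Vd δ_i` (`Vd.of_pow`, `2` prime to `ℓ`); `s = 0`.
Otherwise `P₁` is integral.
(iv.2) `w (P₁(1)) < 1`: `P₁(0) ≡ (0 - 1)^n` (`tri_red` at `1`), so `P(A_j) ≡ (A_j - A_i)^n` (quotient `≡ 1`),
`δ_j ≡ D^(α n) (A_j - A_i)^n`, `δ_k ≡ D^(α n) (A_i - A_k)^n (-1)^n` for `k ≠ i, j` (mod `Cl`); `∏ δ_k` is `Cl`, so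
`δ_i ≡ D^(-α n (m-1)) (A_i - A_j)^(-n) ∏ (A_i - A_k)^(-n)`, and `s = -n`:
`δ_i / δ_j ≡ D^(-α n m) π^(-2n) ∏ (A_i - A_k)^(-n) ≡ D^n π^(-2n) ∏^(-n) = nv^n` (`α m + 1 ≡ 0`, signs are `Cl`), so
`Cl (δ_i / δ_j * nv^(-n))`; `Vd (δ_i / π^(-n))` from the formula for `δ_i`.
(iv.3) `w (P₁(0)) < 1`: `P₁(1) ≡ 1` (`tri_red` at `0`), `P(A_i) ≡ π^n`, symmetric: `δ_i ≡ D^(α n) π^n`, `s = n`,
`δ_j ≡ D^(-α n (m-1)) π^(-n) ∏ (A_i - A_k)^(-n)`, `δ_i/δ_j ≡ D^(α n m) π^(2n) ∏^n ≡ D^(-n) π^(2n) ∏^n = nv^(-n)`, `Cl (.. * nv^n)`.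
(iv.4) `w (P₁(0)) = w (P₁(1)) = 1`: `t2_int` for `P₁`, `D₁ = D / π^2` (`¬ Vd D₁`: `Vd D` and `ℓ` odd, `w (π^2) = exp (-2)`) and
`f₁(Y) = Y (Y - 1) ∏_{k ≠ i, j} (A_j - A_k + π Y)` (substituting `x = A_j + π Y` in `D Q^ℓ - ∏ (x - A_k)` gives
`π^2 (D₁ Q₁^ℓ - f₁)`).  `f₁` is a unit modulo `P₁`: `Y` and `Y - 1` as in `LDt` (iii); for `u + π Y`, `u` a unit:
`π^n P₁(Y) = R(π Y)`, `R(Z) = ∑ a_i π^(n-i) Z^i` integral, `R(-u) ≡ (-u)^n` is a unit and `Z + u ∣ R(Z) - R(-u)`.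
So `ℓ ∣ n`, `P₁(0), P₁(1)` are `ℓ`-th powers times `≡ 1`, `P(A_i) = π^n P₁(1)`: `Cl δ_i`, `Cl δ_j`; `s = 0`.
-/

namespace Pool.Agent.H94.PL

open Polynomial WithZero

section coprime
variable {O : Type*} [CommRing O]

theorem ln_cop_sub {P : O[X]} {a : O} (h : IsUnit (P.eval a)) : IsCoprime (X - C a) P := by
  obtain ⟨u, hu⟩ := h
  obtain ⟨R, hR⟩ : X - C a ∣ P - C (P.eval a) := X_sub_C_dvd_sub_C_eval
  refine ⟨-(C ((u⁻¹ : Oˣ) : O) * R), C ((u⁻¹ : Oˣ) : O), ?_⟩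
  have h2 : C ((u⁻¹ : Oˣ) : O) * C (P.eval a) = 1 := by
    rw [← C_mul, ← hu, Units.inv_mul, C_1]
  linear_combination (C ((u⁻¹ : Oˣ) : O)) * hR + h2

theorem ln_cop_lin {P : O[X]} (ϖ u : O) (h : IsUnit ((scaleRoots P ϖ).eval (-u))) :
    IsCoprime (C ϖ * X + C u) P := by
  obtain ⟨e, he⟩ := h
  have h1 : (scaleRoots P ϖ).eval₂ C (C ϖ * X) = C ϖ ^ P.natDegree * P := by
    rw [scaleRoots_eval₂_mul, eval₂_C_X]
  have h2 : C ϖ * X - C (-u) ∣ ((scaleRoots P ϖ).map C).eval (C ϖ * X) -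
      ((scaleRoots P ϖ).map C).eval (C (-u)) := sub_dvd_eval_sub _ _ _
  rw [eval_map, eval_map, h1, eval₂_at_apply] at h2
  obtain ⟨S, hS⟩ := h2
  refine ⟨-(C ((e⁻¹ : Oˣ) : O) * S), C ((e⁻¹ : Oˣ) : O) * C ϖ ^ P.natDegree, ?_⟩
  have h3 : C ((e⁻¹ : Oˣ) : O) * C ((scaleRoots P ϖ).eval (-u)) = 1 := by
    rw [← C_mul, ← he, Units.inv_mul, C_1]
  have h4 : (C (-u) : O[X]) = -C u := by rw [map_neg]
  rw [h4] at hS
  linear_combination (C ((e⁻¹ : Oˣ) : O)) * hS + h3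

theorem ln_scale {P : O[X]} (hP : P.Monic) (ϖ a : O) :
    ϖ ∣ (scaleRoots P ϖ).eval a - a ^ P.natDegree := by
  have h1 : (scaleRoots P ϖ).eval a - a ^ P.natDegree =
      ∑ i ∈ Finset.range P.natDegree, P.coeff i * ϖ ^ (P.natDegree - i) * a ^ i := by
    rw [eval_eq_sum_range, natDegree_scaleRoots, Finset.sum_range_succ, coeff_scaleRoots,
      hP.coeff_natDegree, Nat.sub_self, pow_zero, mul_one, one_mul, add_sub_cancel_right]
    exact Finset.sum_congr rfl fun i _ => by rw [coeff_scaleRoots]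
  rw [h1]
  refine Finset.dvd_sum fun i hi => ?_
  have h2 : P.natDegree - i = (P.natDegree - i - 1) + 1 := by
    have := Finset.mem_range.1 hi
    omega
  rw [h2, pow_succ]
  exact ⟨P.coeff i * ϖ ^ (P.natDegree - i - 1) * a ^ i, by ring⟩

end coprime

section chart
variable {M : Type*} [Field M]

/-- the polynomial in the chart -/
noncomputable def lnP (π a : M) (P : M[X]) : M[X] :=
  C (π ^ P.natDegree)⁻¹ * P.comp (C π * X + C a)

theorem ln_lin {π : M} (hπ : π ≠ 0) (a : M) : (C π * X + C a : M[X]).natDegree = 1 := by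
  rw [natDegree_add_C, natDegree_C_mul_X π hπ]

theorem lnP_comp {π : M} (hπ : π ≠ 0) (a : M) (P : M[X]) :
    P.comp (C π * X + C a) = C (π ^ P.natDegree) * lnP π a P := by
  rw [lnP, ← mul_assoc, ← C_mul, mul_inv_cancel₀ (pow_ne_zero _ hπ), C_1, one_mul]

theorem lnP_eval {π : M} (hπ : π ≠ 0) (a : M) (P : M[X]) (y : M) :
    P.eval (π * y + a) = π ^ P.natDegree * (lnP π a P).eval y := by
  have h := congrArg (Polynomial.eval y) (lnP_comp hπ a P)
  rw [eval_comp, eval_mul, eval_C] at h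
  simpa using h

theorem lnP_natDegree {π : M} (hπ : π ≠ 0) (a : M) (P : M[X]) :
    (lnP π a P).natDegree = P.natDegree := by
  rw [lnP, natDegree_C_mul (inv_ne_zero (pow_ne_zero _ hπ)), natDegree_comp, ln_lin hπ, mul_one]

theorem lnP_monic {π : M} (hπ : π ≠ 0) (a : M) {P : M[X]} (hP : P.Monic) :
    (lnP π a P).Monic := by
  have h1 : (C π * X + C a : M[X]).leadingCoeff = π := by
    rw [leadingCoeff, ln_lin hπ, coeff_add, coeff_C_mul, coeff_X_one, mul_one, coeff_C_succ,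
      add_zero]
  rw [Monic, lnP, leadingCoeff_mul, leadingCoeff_C,
    leadingCoeff_comp (by rw [ln_lin hπ]; exact one_ne_zero), hP.leadingCoeff, h1, one_mul,
    inv_mul_cancel₀ (pow_ne_zero _ hπ)]

theorem lnP_irr {π : M} (hπ : π ≠ 0) (a : M) {P : M[X]} (hirr : Irreducible P) :
    Irreducible (lnP π a P) := by
  let _ : Invertible π := invertibleOfNonzero hπ
  have h1 : Irreducible (algEquivCMulXAddC π a P) :=
    (MulEquiv.irreducible_iff (algEquivCMulXAddC π a)).2 hirr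
  have h2 : algEquivCMulXAddC π a P = P.comp (C π * X + C a) := by
    rw [comp_eq_aeval]
    rfl
  rw [h2] at h1
  have h3 : IsUnit (C (π ^ P.natDegree)⁻¹ : M[X]) :=
    isUnit_C.2 (inv_ne_zero (pow_ne_zero _ hπ)).isUnit
  exact (irreducible_isUnit_mul h3).2 h1

theorem ln_fA {m : ℕ} (A : Fin m → M) {i j : Fin m} (hij : i ≠ j) :
    (fA A).comp (C (A i - A j) * X + C (A j)) = C ((A i - A j) ^ 2) *
      (X * (X - C 1) * ∏ k ∈ (Finset.univ.erase i).erase j,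
        (C (A i - A j) * X + C (A j - A k))) := by
  have h1 : (fA A).comp (C (A i - A j) * X + C (A j)) =
      ∏ k, (C (A i - A j) * X + C (A j - A k)) := by
    rw [fA, prod_comp]
    refine Finset.prod_congr rfl fun k _ => ?_
    have e : (C (A j - A k) : M[X]) = C (A j) - C (A k) := map_sub _ _ _
    rw [sub_comp, X_comp, C_comp, e]
    ring
  rw [h1, ← Finset.mul_prod_erase Finset.univ _ (Finset.mem_univ i),
    ← Finset.mul_prod_erase (Finset.univ.erase i) _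
      (Finset.mem_erase.2 ⟨hij.symm, Finset.mem_univ j⟩), sub_self, map_zero, add_zero]
  have h2 : (C (A j - A i) : M[X]) = -C (A i - A j) := by
    rw [← map_neg, neg_sub]
  rw [h2, C_1, map_pow]
  ring

/-- the relation in the chart -/
theorem ln_rel {m : ℕ} (A : Fin m → M) {i j : Fin m} (hij : i ≠ j) (hπ : A i - A j ≠ 0) {ℓ : ℕ}
    {D : M} {P Q : M[X]} (h : P ∣ C D * Q ^ ℓ - fA A) :
    lnP (A i - A j) (A j) P ∣ C (D / (A i - A j) ^ 2) *
      (Q.comp (C (A i - A j) * X + C (A j))) ^ ℓ -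
      X * (X - C 1) * ∏ k ∈ (Finset.univ.erase i).erase j,
        (C (A i - A j) * X + C (A j - A k)) := by
  obtain ⟨R, hR⟩ := h
  have h1 := congrArg (fun p => p.comp (C (A i - A j) * X + C (A j))) hR
  simp only [sub_comp, mul_comp, pow_comp, C_comp] at h1
  rw [ln_fA A hij, lnP_comp hπ (A j) P] at h1
  have hu : IsUnit (C ((A i - A j) ^ 2) : M[X]) := isUnit_C.2 (pow_ne_zero _ hπ).isUnit
  rw [← hu.dvd_mul_left]
  refine ⟨C ((A i - A j) ^ P.natDegree) * R.comp (C (A i - A j) * X + C (A j)), ?_⟩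
  have h2 : (C D : M[X]) = C ((A i - A j) ^ 2) * C (D / (A i - A j) ^ 2) := by
    rw [← C_mul, mul_div_cancel₀ _ (pow_ne_zero _ hπ)]
  rw [h2] at h1
  linear_combination h1

end chart

variable {M : Type*} [Field M] [hv : Valued M ℤᵐ⁰] [CompleteSpace M] {m : ℕ}

/-- the last case: `t2_int` in the chart -/
theorem ln_t2 {π : M} (hπ : (Valued.v : Valuation M ℤᵐ⁰) π = exp (-1 : ℤ)) {ℓ : ℕ} (hℓ : ℓ.Prime) (h2 : ℓ ≠ 2) {D : M}
    (hD : Vd (Valued.v : Valuation M ℤᵐ⁰) ℓ D) {P₁ Q₁ : M[X]} (hm : P₁.Monic) (hirr : Irreducible P₁)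
    (hint : ∀ i, (Valued.v : Valuation M ℤᵐ⁰) (P₁.coeff i) ≤ 1) (h0 : (Valued.v : Valuation M ℤᵐ⁰) (P₁.eval 0) = 1) (h1 : (Valued.v : Valuation M ℤᵐ⁰) (P₁.eval 1) = 1)
    (S : Finset (Fin m)) (c : Fin m → M) (hc : ∀ k ∈ S, (Valued.v : Valuation M ℤᵐ⁰) (c k) = 1)
    (hdiv : P₁ ∣ C (D / π ^ 2) * Q₁ ^ ℓ - X * (X - C 1) * ∏ k ∈ S, (C π * X + C (c k))) :
    ℓ ∣ P₁.natDegree ∧ Cl (Valued.v : Valuation M ℤᵐ⁰) ℓ (P₁.eval 0) ∧ Cl (Valued.v : Valuation M ℤᵐ⁰) ℓ (P₁.eval 1) := by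
  have hπ0 : π ≠ 0 := fun h => by
    rw [h, map_zero] at hπ
    exact exp_ne_zero hπ.symm
  obtain ⟨ϖ₀, hI, hϖ₀⟩ := isInt_OO hπ
  obtain ⟨P₀, hP₀m, hP₀⟩ := hI.lift_monic hm hint
  have hu : ∀ k, ∃ u : OO M, k ∈ S → algebraMap (OO M) M u = c k := by
    intro k
    by_cases hk : k ∈ S
    · obtain ⟨u, hu⟩ := (hI.mem (c k)).1 (hc k hk).le
      exact ⟨u, fun _ => hu⟩
    · exact ⟨0, fun h => absurd h hk⟩
  choose u hu using hu
  have hdeg : P₀.natDegree = P₁.natDegree := by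
    rw [← hP₀]
    exact (hP₀m.natDegree_map _).symm
  have hev : ∀ b : OO M, algebraMap (OO M) M (P₀.eval b) = P₁.eval (algebraMap (OO M) M b) := by
    intro b
    rw [← hP₀, eval_map, eval₂_at_apply]
  have hcop : IsCoprime (X * (X - C 1) * ∏ k ∈ S, (C ϖ₀ * X + C (u k))) P₀ := by
    refine IsCoprime.mul_left (IsCoprime.mul_left ?_ ?_) (IsCoprime.prod_left fun k hk => ?_)
    · have h3 : (X : (OO M)[X]) = X - C 0 := by rw [C_0, sub_zero]
      rw [h3]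
      refine ln_cop_sub (hI.isUnit ?_)
      rw [hev, map_zero]
      exact h0
    · refine ln_cop_sub (hI.isUnit ?_)
      rw [hev, map_one]
      exact h1
    · refine ln_cop_lin ϖ₀ (u k) (hI.isUnit ?_)
      have h3 := hI.dvd.2 (ln_scale hP₀m ϖ₀ (-(u k)))
      rw [map_sub] at h3
      refine unit_of_close ?_ h3
      rw [map_pow, map_pow, map_neg, Valuation.map_neg, hu k hk, hc k hk, one_pow]
  have hD1 : ¬ Vd (Valued.v : Valuation M ℤᵐ⁰) ℓ (D / π ^ 2) := by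
    intro h3
    have h4 := hD.div h3
    rw [div_div_cancel₀ hD.ne_zero] at h4
    have h5 : (Valued.v : Valuation M ℤᵐ⁰) (π ^ 2) = exp (-2 : ℤ) := by
      rw [map_pow, hπ, ← exp_nsmul]
      rfl
    have h6 := h4.val h5
    have h7 : (ℓ : ℤ) ∣ 2 := by
      have := (Int.dvd_neg).2 h6
      simpa using this
    have h8 : ℓ ∣ 2 := by exact_mod_cast h7
    exact h2 ((Nat.prime_dvd_prime_iff_eq hℓ Nat.prime_two).1 h8)
  have hirr' : Irreducible (P₀.map (algebraMap (OO M) M)) := by rwa [hP₀]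
  obtain ⟨hdvd, hpow⟩ := t2_int hI hℓ hP₀m hirr'
    (div_ne_zero hD.ne_zero (pow_ne_zero 2 hπ0)) hD1
    (X * (X - C 1) * ∏ k ∈ S, (C ϖ₀ * X + C (u k))) hcop Q₁ (by
      rw [hP₀, Polynomial.map_mul, Polynomial.map_mul, Polynomial.map_sub, map_X, map_C, map_one,
        Polynomial.map_prod]
      have h3 : ∏ k ∈ S, (C ϖ₀ * X + C (u k)).map (algebraMap (OO M) M) =
          ∏ k ∈ S, (C π * X + C (c k)) := by
        refine Finset.prod_congr rfl fun k hk => ?_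
        rw [Polynomial.map_add, Polynomial.map_mul, map_C, map_C, map_X, hϖ₀, hu k hk]
      rw [h3]
      exact hdiv)
  have hCl : ∀ b : OO M, (Valued.v : Valuation M ℤᵐ⁰) (P₁.eval (algebraMap (OO M) M b)) = 1 →
      Cl (Valued.v : Valuation M ℤᵐ⁰) ℓ (P₁.eval (algebraMap (OO M) M b)) := by
    intro b hb
    obtain ⟨y, hy⟩ := hpow b
    have h3 := hI.dvd.2 hy
    rw [map_sub, hev, map_pow] at h3
    have h4 : (Valued.v : Valuation M ℤᵐ⁰) (algebraMap (OO M) M y ^ ℓ) = 1 := by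
      have h5 : (Valued.v : Valuation M ℤᵐ⁰) (algebraMap (OO M) M y ^ ℓ - P₁.eval (algebraMap (OO M) M b)) < 1 := by
        rw [Valuation.map_sub_swap]
        exact h3
      exact unit_of_close hb h5
    have hy0 : algebraMap (OO M) M y ≠ 0 := by
      intro h0
      rw [h0, zero_pow hℓ.ne_zero, map_zero] at h4
      exact zero_ne_one h4
    have h5 : Cl (Valued.v : Valuation M ℤᵐ⁰) ℓ (P₁.eval (algebraMap (OO M) M b) / algebraMap (OO M) M y ^ ℓ *
        algebraMap (OO M) M y ^ ℓ) := (Cl.of_close h4 h3).mul (Cl.self_pow hy0)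
    rwa [div_mul_cancel₀ _ (pow_ne_zero _ hy0)] at h5
  refine ⟨by rw [← hdeg]; exact hdvd, ?_, ?_⟩
  · have h3 := hCl 0
    rw [map_zero] at h3
    exact h3 h0
  · have h3 := hCl 1
    rw [map_one] at h3
    exact h3 h1

omit [CompleteSpace M] in
/-- integral polynomials are congruence preserving -/
theorem ln_close {π : M} (hπ : (Valued.v : Valuation M ℤᵐ⁰) π = exp (-1 : ℤ)) {P : M[X]} (hint : ∀ i, (Valued.v : Valuation M ℤᵐ⁰) (P.coeff i) ≤ 1)
    {a b : M} (ha : (Valued.v : Valuation M ℤᵐ⁰) a ≤ 1) (hb : (Valued.v : Valuation M ℤᵐ⁰) b ≤ 1) (hab : (Valued.v : Valuation M ℤᵐ⁰) (a - b) < 1) :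
    (Valued.v : Valuation M ℤᵐ⁰) (P.eval a - P.eval b) < 1 := by
  obtain ⟨ϖ₀, hI, hϖ₀⟩ := isInt_OO hπ
  obtain ⟨P₀, hP₀⟩ := hI.lift hint
  obtain ⟨a₀, rfl⟩ := (hI.mem a).1 ha
  obtain ⟨b₀, rfl⟩ := (hI.mem b).1 hb
  rw [← hP₀, eval_map, eval_map, eval₂_at_apply, eval₂_at_apply, ← map_sub]
  rw [← map_sub, hI.dvd] at hab
  rw [hI.dvd]
  exact hab.trans (sub_dvd_eval_sub _ _ _)

omit [CompleteSpace M] in
/-- the conclusion with `s = 0` -/
theorem ln_zero {ℓ α : ℕ} {D : M} (hD : Vd (Valued.v : Valuation M ℤᵐ⁰) ℓ D) {A : Fin m → M} {i j : Fin m} {P : M[X]}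
    (hV : ∀ k, Vd (Valued.v : Valuation M ℤᵐ⁰) ℓ (P.eval (A k))) (hC : Cl (Valued.v : Valuation M ℤᵐ⁰) ℓ (P.eval (A i) / P.eval (A j))) :
    ∃ s : ℤ, Vd (Valued.v : Valuation M ℤᵐ⁰) ℓ (dv α D P (A i) / (A i - A j) ^ s) ∧
      (∀ k, k ≠ i → k ≠ j → Vd (Valued.v : Valuation M ℤᵐ⁰) ℓ (dv α D P (A k))) ∧
      Cl (Valued.v : Valuation M ℤᵐ⁰) ℓ (dv α D P (A i) / dv α D P (A j) * (nv D A i j) ^ s) := by
  have hE : Vd (Valued.v : Valuation M ℤᵐ⁰) ℓ ((D ^ α) ^ P.natDegree) := (hD.pow _).pow _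
  refine ⟨0, ?_, fun k _ _ => ?_, ?_⟩
  · rw [zpow_zero, div_one, dv]
    exact hE.mul (hV i)
  · rw [dv]
    exact hE.mul (hV k)
  · rw [zpow_zero, mul_one, dv, dv, mul_div_mul_left _ _ hE.ne_zero]
    exact hC

omit [CompleteSpace M] in
theorem ln_Eprod {ℓ α : ℕ} (hα : ℓ ∣ α * m + 1) {D : M} (hD : D ≠ 0) (n : ℕ) :
    Cl (Valued.v : Valuation M ℤᵐ⁰) ℓ (((D ^ α) ^ n) ^ m * D ^ n) := by
  obtain ⟨h, hh⟩ := hα
  have h1 : ((D ^ α) ^ n) ^ m * D ^ n = ((D ^ n) ^ h) ^ ℓ := by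
    rw [← pow_mul, ← pow_mul, ← pow_add, ← pow_mul, ← pow_mul]
    congr 1
    linear_combination n * hh
  rw [h1]
  exact Cl.self_pow (pow_ne_zero _ (pow_ne_zero _ hD))

omit hv [CompleteSpace M] in
theorem ln_T (α : ℕ) (D : M) (A : Fin m → M) {i j : Fin m} (hij : i ≠ j) (P : M[X]) :
    ∏ k, dv α D P (A k) = ((D ^ α) ^ P.natDegree) ^ m * (P.eval (A i) * P.eval (A j) *
      ∏ k ∈ (Finset.univ.erase i).erase j, P.eval (A k)) := by
  unfold dv
  rw [Finset.prod_mul_distrib, Finset.prod_const, Finset.card_univ, Fintype.card_fin,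
    ← Finset.mul_prod_erase Finset.univ _ (Finset.mem_univ i),
    ← Finset.mul_prod_erase (Finset.univ.erase i) _
      (Finset.mem_erase.2 ⟨hij.symm, Finset.mem_univ j⟩), mul_assoc (P.eval (A i))]

/-- the case of an irreducible polynomial -/
theorem ln_irr {ℓ α : ℕ} (hℓ : ℓ.Prime) (h2 : ℓ ≠ 2)
    (hm : Nat.Coprime m ℓ) (hα : ℓ ∣ α * m + 1) {D : M} (hD : Vd (Valued.v : Valuation M ℤᵐ⁰) ℓ D) {A : Fin m → M}
    (hA : ∀ k, (Valued.v : Valuation M ℤᵐ⁰) (A k) ≤ 1) {i j : Fin m} (hij : i ≠ j) (hπ : (Valued.v : Valuation M ℤᵐ⁰) (A i - A j) = exp (-1 : ℤ))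
    (hAA : ∀ k l, k ≠ l → ¬ (k = i ∧ l = j) → ¬ (k = j ∧ l = i) → (Valued.v : Valuation M ℤᵐ⁰) (A k - A l) = 1)
    {P Q : M[X]} (hP : P.Monic) (hirr : Irreducible P) (hne : ∀ k, P.eval (A k) ≠ 0)
    (hdiv : P ∣ C D * Q ^ ℓ - fA A) :
    ∃ s : ℤ, Vd (Valued.v : Valuation M ℤᵐ⁰) ℓ (dv α D P (A i) / (A i - A j) ^ s) ∧
      (∀ k, k ≠ i → k ≠ j → Vd (Valued.v : Valuation M ℤᵐ⁰) ℓ (dv α D P (A k))) ∧
      Cl (Valued.v : Valuation M ℤᵐ⁰) ℓ (dv α D P (A i) / dv α D P (A j) * (nv D A i j) ^ s) := by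
  have hodd : Odd ℓ := hℓ.odd_of_ne_two h2
  set π : M := A i - A j with hπdef
  set n : ℕ := P.natDegree with hn
  have hπ0 : π ≠ 0 := fun h => by
    rw [h, map_zero] at hπ
    exact exp_ne_zero hπ.symm
  have hπlt : (Valued.v : Valuation M ℤᵐ⁰) π < 1 := by rw [hπ]; decide
  have hD0 : D ≠ 0 := hD.ne_zero
  have hE : Vd (Valued.v : Valuation M ℤᵐ⁰) ℓ ((D ^ α) ^ n) := (hD.pow _).pow _
  have hT : Cl (Valued.v : Valuation M ℤᵐ⁰) ℓ (∏ k, dv α D P (A k)) := by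
    obtain ⟨y, hy⟩ := norm_dv hodd hα D A hP hdiv
    have hne' : ∏ k, dv α D P (A k) ≠ 0 := by
      refine Finset.prod_ne_zero_iff.2 fun k _ => ?_
      exact mul_ne_zero hE.ne_zero (hne k)
    have hy0 : y ≠ 0 := by
      rintro rfl
      rw [hy, zero_pow hℓ.ne_zero] at hne'
      exact hne' rfl
    rw [hy]
    exact Cl.self_pow hy0
  rcases lt_or_ge 1 ((Valued.v : Valuation M ℤᵐ⁰) (P.coeff 0)) with hinf | h0
  · -- (i)
    have hc : P.coeff 0 ≠ 0 := by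
      intro h
      rw [h, map_zero] at hinf
      exact absurd hinf (by simp)
    have h3 : ∀ k, Cl (Valued.v : Valuation M ℤᵐ⁰) ℓ (P.eval (A k) / P.coeff 0) := fun k =>
      Cl.of_near (tri_inf hπ hP hirr hinf (hA k))
    have h4 : ∏ k, dv α D P (A k) = ((D ^ α) ^ n * P.coeff 0) ^ m *
        ∏ k, P.eval (A k) / P.coeff 0 := by
      have h5 : ((D ^ α) ^ n * P.coeff 0) ^ m = ∏ _k : Fin m, ((D ^ α) ^ n * P.coeff 0) := by
        rw [Finset.prod_const, Finset.card_univ, Fintype.card_fin]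
      rw [h5, ← Finset.prod_mul_distrib]
      refine Finset.prod_congr rfl fun k _ => ?_
      rw [dv, mul_assoc, mul_div_cancel₀ _ hc]
    rw [h4, mul_comm] at hT
    have h5 : Cl (Valued.v : Valuation M ℤᵐ⁰) ℓ (((D ^ α) ^ n * P.coeff 0) ^ m) :=
      hT.cancel (Cl.prod _ _ fun k _ => h3 k)
    have h6 : Vd (Valued.v : Valuation M ℤᵐ⁰) ℓ ((D ^ α) ^ n * P.coeff 0) :=
      Vd.of_pow (mul_ne_zero hE.ne_zero hc) hm h5.vd
    have h7 : Vd (Valued.v : Valuation M ℤᵐ⁰) ℓ (P.coeff 0) := h6.cancel hE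
    refine ln_zero hD (fun k => ?_) ?_
    · have h8 := h7.mul (h3 k).vd
      rwa [mul_div_cancel₀ _ hc] at h8
    · have h8 := (h3 i).div (h3 j)
      rwa [div_div_div_cancel_right₀ hc] at h8
  have hint : ∀ l, (Valued.v : Valuation M ℤᵐ⁰) (P.coeff l) ≤ 1 := tri_int hπ hP hirr h0
  have hle : ∀ k, (Valued.v : Valuation M ℤᵐ⁰) (P.eval (A k)) ≤ 1 := fun k => eval_int hint (hA k)
  have hclose : (Valued.v : Valuation M ℤᵐ⁰) (P.eval (A i) - P.eval (A j)) < 1 := ln_close hπ hint (hA i) (hA j) hπlt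
  rcases eq_or_ne ((Valued.v : Valuation M ℤᵐ⁰) (P.eval (A j))) 1 with hj1 | hj1
  · -- (A)
    have hi1 : (Valued.v : Valuation M ℤᵐ⁰) (P.eval (A i)) = 1 := unit_of_close hj1 hclose
    refine ln_zero hD ?_ (Cl.of_close hj1 hclose)
    by_cases hall : ∀ k, (Valued.v : Valuation M ℤᵐ⁰) (P.eval (A k)) = 1
    · exact fun k => Vd.of_unit (hall k)
    · push Not at hall
      obtain ⟨k₀, hk₀⟩ := hall
      have hk₀lt : (Valued.v : Valuation M ℤᵐ⁰) (P.eval (A k₀)) < 1 := lt_of_le_of_ne (hle k₀) hk₀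
      have hk₀i : k₀ ≠ i := fun h => hk₀ (by rw [h]; exact hi1)
      have hk₀j : k₀ ≠ j := fun h => hk₀ (by rw [h]; exact hj1)
      have h3 : ∀ k, k ≠ k₀ → (Valued.v : Valuation M ℤᵐ⁰) (P.eval (A k)) = 1 := by
        intro k hk
        have h4 := tri_red hπ hP hirr (hA k₀) hk₀lt (hA k)
        refine unit_of_close ?_ h4
        rw [map_pow, hAA k k₀ hk (fun h => hk₀j h.2) (fun h => hk₀i h.2), one_pow]
      intro k
      rcases eq_or_ne k k₀ with rfl | hk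
      · have h4 := hT.vd
        rw [← Finset.mul_prod_erase Finset.univ _ (Finset.mem_univ k), mul_comm] at h4
        have h5 : Vd (Valued.v : Valuation M ℤᵐ⁰) ℓ (dv α D P (A k)) := by
          refine h4.cancel (Vd.prod _ _ fun l hl => ?_)
          exact hE.mul (Vd.of_unit (h3 l (Finset.ne_of_mem_erase hl)))
        rw [dv] at h5
        exact h5.cancel hE
      · exact Vd.of_unit (h3 k hk)
  · -- (B)
    have hjlt : (Valued.v : Valuation M ℤᵐ⁰) (P.eval (A j)) < 1 := lt_of_le_of_ne (hle j) hj1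
    set S : Finset (Fin m) := (Finset.univ.erase i).erase j with hS
    have hSm : ∀ k ∈ S, k ≠ i ∧ k ≠ j := by
      intro k hk
      rw [hS, Finset.mem_erase, Finset.mem_erase] at hk
      exact ⟨hk.2.1, hk.1⟩
    have hu : ∀ k, k ≠ i → k ≠ j → (Valued.v : Valuation M ℤᵐ⁰) (A k - A j) = 1 := fun k hki hkj =>
      hAA k j hkj (fun h => hki h.1) (fun h => hkj h.1)
    have hu' : ∀ k, k ≠ i → k ≠ j → (Valued.v : Valuation M ℤᵐ⁰) (A i - A k) = 1 := fun k hki hkj =>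
      hAA i k hki.symm (fun h => hkj h.2) (fun h => hij h.1)
    have hPu : ∀ k, k ≠ i → k ≠ j → (Valued.v : Valuation M ℤᵐ⁰) (P.eval (A k)) = 1 := by
      intro k hki hkj
      refine unit_of_close ?_ (tri_red hπ hP hirr (hA j) hjlt (hA k))
      rw [map_pow, hu k hki hkj, one_pow]
    have hPc : ∀ k, k ≠ i → k ≠ j → Cl (Valued.v : Valuation M ℤᵐ⁰) ℓ (P.eval (A k) / (A i - A k) ^ n) := by
      intro k hki hkj
      have h3 : Cl (Valued.v : Valuation M ℤᵐ⁰) ℓ (P.eval (A k) / (A k - A j) ^ n) := by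
        refine Cl.of_close ?_ (tri_red hπ hP hirr (hA j) hjlt (hA k))
        rw [map_pow, hu k hki hkj, one_pow]
      have h4 : Cl (Valued.v : Valuation M ℤᵐ⁰) ℓ ((A k - A j) / (-(A i - A k))) := by
        refine Cl.of_close ?_ ?_
        · rw [Valuation.map_neg, hu' k hki hkj]
        · have h5 : A k - A j - -(A i - A k) = π := by rw [hπdef]; ring
          rw [h5]
          exact hπlt
      have h5 : Cl (Valued.v : Valuation M ℤᵐ⁰) ℓ ((A k - A j) / (A i - A k)) := by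
        have h6 := h4.mul (Cl.neg_one hodd)
        rwa [div_neg, neg_mul_neg, mul_one] at h6
      have h6 := h3.mul (h5.pow n)
      have h7 : (A k - A j) ^ n ≠ 0 := by
        refine pow_ne_zero _ fun h => ?_
        have := hu k hki hkj
        rw [h, map_zero] at this
        exact zero_ne_one this
      rwa [div_pow, div_mul_div_cancel₀ h7] at h6
    set R : M := ∏ k ∈ S, P.eval (A k) with hR
    set G : M := ∏ k ∈ S, (A i - A k) with hG
    have hRG : Cl (Valued.v : Valuation M ℤᵐ⁰) ℓ (R / G ^ n) := by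
      rw [hR, hG, ← Finset.prod_pow, ← Finset.prod_div_distrib]
      exact Cl.prod _ _ fun k hk => hPc k (hSm k hk).1 (hSm k hk).2
    have hRV : Vd (Valued.v : Valuation M ℤᵐ⁰) ℓ R := Vd.prod _ _ fun k hk =>
      Vd.of_unit (hPu k (hSm k hk).1 (hSm k hk).2)
    have hGV : Vd (Valued.v : Valuation M ℤᵐ⁰) ℓ G := Vd.prod _ _ fun k hk =>
      Vd.of_unit (hu' k (hSm k hk).1 (hSm k hk).2)
    rw [ln_T α D A hij P] at hT
    have hE0 : (D ^ α) ^ n ≠ 0 := hE.ne_zero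
    have hnv : nv D A i j = D / (π ^ 2 * G) := rfl
    set P₁ : M[X] := lnP π (A j) P with hP₁
    have hm1 : P₁.Monic := lnP_monic hπ0 _ hP
    have hi1 : Irreducible P₁ := lnP_irr hπ0 _ hirr
    have hn1 : P₁.natDegree = n := lnP_natDegree hπ0 _ _
    have hp0 : P.eval (A j) = π ^ n * P₁.eval 0 := by
      have := lnP_eval hπ0 (A j) P 0
      rwa [mul_zero, zero_add] at this
    have hp1 : P.eval (A i) = π ^ n * P₁.eval 1 := by
      have := lnP_eval hπ0 (A j) P 1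
      rwa [mul_one, hπdef, sub_add_cancel] at this
    have hp00 : P₁.eval 0 ≠ 0 := fun h => hne j (by rw [hp0, h, mul_zero])
    have hp10 : P₁.eval 1 ≠ 0 := fun h => hne i (by rw [hp1, h, mul_zero])
    set p0 : M := P₁.eval 0 with hp0d
    set p1 : M := P₁.eval 1 with hp1d
    have hc0 : P₁.coeff 0 = p0 := coeff_zero_eq_eval_zero _
    have hπn : π ^ n ≠ 0 := pow_ne_zero _ hπ0
    have hVk : ∀ k, k ≠ i → k ≠ j → Vd (Valued.v : Valuation M ℤᵐ⁰) ℓ (P.eval (A k)) := fun k hki hkj =>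
      Vd.of_unit (hPu k hki hkj)
    -- the conclusion when `P(A_i) / P(A_j)` is fine
    have hfin : Vd (Valued.v : Valuation M ℤᵐ⁰) ℓ (P.eval (A i)) → Cl (Valued.v : Valuation M ℤᵐ⁰) ℓ (P.eval (A i) / P.eval (A j)) →
        ∀ k, Vd (Valued.v : Valuation M ℤᵐ⁰) ℓ (P.eval (A k)) := by
      intro hV hC k
      rcases eq_or_ne k i with rfl | hki
      · exact hV
      rcases eq_or_ne k j with rfl | hkj
      · have h3 := hV.div hC.vd
        rwa [div_div_cancel₀ (hne i)] at h3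
      · exact hVk k hki hkj
    rcases lt_or_ge 1 ((Valued.v : Valuation M ℤᵐ⁰) (P₁.coeff 0)) with hinf1 | h01
    · -- (iv.1)
      have h3 : Cl (Valued.v : Valuation M ℤᵐ⁰) ℓ (p1 / p0) := by
        have := tri_inf hπ hm1 hi1 hinf1 (b := 1) (by rw [map_one])
        rw [hc0] at this
        exact Cl.of_near this
      have h4 : Cl (Valued.v : Valuation M ℤᵐ⁰) ℓ (P.eval (A i) / P.eval (A j)) := by
        rw [hp0, hp1, mul_div_mul_left _ _ hπn]
        exact h3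
      have h5 : Vd (Valued.v : Valuation M ℤᵐ⁰) ℓ (P.eval (A i) * P.eval (A j)) := by
        have h6 := hT.vd.cancel (hE.pow m)
        rw [mul_comm] at h6
        exact h6.cancel hRV
      have h6 : Vd (Valued.v : Valuation M ℤᵐ⁰) ℓ (P.eval (A i) ^ 2) := by
        have h7 := h5.mul h4.vd
        have h8 : P.eval (A i) * P.eval (A j) * (P.eval (A i) / P.eval (A j)) =
            P.eval (A i) ^ 2 := by
          have := hne j
          field_simp
        rwa [h8] at h7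
      have h7 : Vd (Valued.v : Valuation M ℤᵐ⁰) ℓ (P.eval (A i)) :=
        Vd.of_pow (hne i) ((Nat.coprime_primes Nat.prime_two hℓ).2 (Ne.symm h2)) h6
      exact ln_zero hD (hfin h7 h4) h4
    have hint1 : ∀ l, (Valued.v : Valuation M ℤᵐ⁰) (P₁.coeff l) ≤ 1 := tri_int hπ hm1 hi1 h01
    have h0le : (Valued.v : Valuation M ℤᵐ⁰) p0 ≤ 1 := eval_int hint1 (by rw [map_zero]; exact zero_le_one)
    have h1le : (Valued.v : Valuation M ℤᵐ⁰) p1 ≤ 1 := eval_int hint1 (by rw [map_one])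
    have hED := ln_Eprod hα hD0 n
    rcases eq_or_ne ((Valued.v : Valuation M ℤᵐ⁰) p1) 1 with hp11 | hp11
    · rcases eq_or_ne ((Valued.v : Valuation M ℤᵐ⁰) p0) 1 with hp01 | hp01
      · -- (iv.4)
        obtain ⟨h3, h4, h5⟩ := ln_t2 hπ hℓ h2 hD hm1 hi1 hint1 hp01 hp11 S
          (fun k => A j - A k) (fun k hk => by
            rw [Valuation.map_sub_swap]
            exact hu k (hSm k hk).1 (hSm k hk).2)
          (ln_rel A hij hπ0 hdiv)
        rw [hn1] at h3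
        obtain ⟨c, hc⟩ := h3
        have h6 : Cl (Valued.v : Valuation M ℤᵐ⁰) ℓ (π ^ n) := by
          rw [hc, mul_comm, pow_mul]
          exact Cl.self_pow (pow_ne_zero _ hπ0)
        have h7 : Cl (Valued.v : Valuation M ℤᵐ⁰) ℓ (P.eval (A i)) := by
          rw [hp1]
          exact h6.mul h5
        have h8 : Cl (Valued.v : Valuation M ℤᵐ⁰) ℓ (P.eval (A j)) := by
          rw [hp0]
          exact h6.mul h4
        exact ln_zero hD (hfin h7.vd (h7.div h8)) (h7.div h8)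
      · -- (iv.3)
        have hp0lt : (Valued.v : Valuation M ℤᵐ⁰) p0 < 1 := lt_of_le_of_ne h0le hp01
        have h3 := tri_red hπ hm1 hi1 (a := 0) (by rw [map_zero]; exact zero_le_one)
          (by rw [← hp0d]; exact hp0lt) (b := 1) (by rw [map_one])
        rw [sub_zero, one_pow, ← hp1d] at h3
        have h4 : Cl (Valued.v : Valuation M ℤᵐ⁰) ℓ p1 := Cl.of_near h3
        refine ⟨(n : ℤ), ?_, fun k hki hkj => hE.mul (hVk k hki hkj), ?_⟩
        · rw [zpow_natCast, dv, hp1, mul_left_comm, mul_div_cancel_left₀ _ hπn]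
          exact hE.mul h4.vd
        · rw [zpow_natCast, hnv, dv, dv, mul_div_mul_left _ _ hE0, hp0, hp1,
            mul_div_mul_left _ _ hπn]
          rw [hp0, hp1] at hT
          have h5 := (((h4.pow 2).mul hED).mul hRG).div hT
          have h6 : p1 ^ 2 * (((D ^ α) ^ n) ^ m * D ^ n) * (R / G ^ n) /
              (((D ^ α) ^ P.natDegree) ^ m * (π ^ n * p1 * (π ^ n * p0) *
                ∏ k ∈ (Finset.univ.erase i).erase j, P.eval (A k))) =
              p1 / p0 * (D / (π ^ 2 * G)) ^ n := by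
            rw [← hn, ← hS, ← hR, div_pow, mul_pow]
            have e1 := hRV.ne_zero
            have e2 := hGV.ne_zero
            have e3 : ((D ^ α) ^ n) ^ m ≠ 0 := pow_ne_zero _ hE0
            field_simp
            ring_nf
          rwa [h6] at h5
    · -- (iv.2)
      have hp1lt : (Valued.v : Valuation M ℤᵐ⁰) p1 < 1 := lt_of_le_of_ne h1le hp11
      have h3 := tri_red hπ hm1 hi1 (a := 1) (by rw [map_one])
        (by rw [← hp1d]; exact hp1lt) (b := 0) (by rw [map_zero]; exact zero_le_one)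
      rw [zero_sub, ← hp0d] at h3
      have h4 : Cl (Valued.v : Valuation M ℤᵐ⁰) ℓ p0 := by
        have h5 : (Valued.v : Valuation M ℤᵐ⁰) ((-1 : M) ^ P₁.natDegree) = 1 := by
          rw [map_pow, Valuation.map_neg, map_one, one_pow]
        have h6 := (Cl.of_close h5 h3).mul ((Cl.neg_one hodd).pow P₁.natDegree)
        rwa [div_mul_cancel₀ _ (pow_ne_zero _ (neg_ne_zero.2 one_ne_zero))] at h6
      refine ⟨-(n : ℤ), ?_, fun k hki hkj => hE.mul (hVk k hki hkj), ?_⟩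
      · rw [zpow_neg, zpow_natCast, div_inv_eq_mul, dv, hp1]
        rw [hp0, hp1] at hT
        have h5 : Vd (Valued.v : Valuation M ℤᵐ⁰) ℓ (((D ^ α) ^ n) ^ m * p0 * R) := ((hE.pow m).mul h4.vd).mul hRV
        have h6 := hT.vd.mul hE
        have h7 : ((D ^ α) ^ P.natDegree) ^ m * (π ^ n * p1 * (π ^ n * p0) *
                ∏ k ∈ (Finset.univ.erase i).erase j, P.eval (A k)) * (D ^ α) ^ n =
            ((D ^ α) ^ n) ^ m * p0 * R * ((D ^ α) ^ n * (π ^ n * p1) * π ^ n) := by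
          rw [← hn, ← hS, ← hR]
          ring
        rw [h7] at h6
        exact h6.cancel h5
      · rw [zpow_neg, zpow_natCast, hnv, dv, dv, mul_div_mul_left _ _ hE0, hp0, hp1,
          mul_div_mul_left _ _ hπn]
        rw [hp0, hp1] at hT
        have h5 := ((hT.div (h4.pow 2)).div hRG).div hED
        have h6 : (((D ^ α) ^ P.natDegree) ^ m * (π ^ n * p1 * (π ^ n * p0) *
                ∏ k ∈ (Finset.univ.erase i).erase j, P.eval (A k))) / p0 ^ 2 /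
              (R / G ^ n) / (((D ^ α) ^ n) ^ m * D ^ n) =
              p1 / p0 * ((D / (π ^ 2 * G)) ^ n)⁻¹ := by
          rw [← hn, ← hS, ← hR, div_pow, mul_pow]
          have e1 := hRV.ne_zero
          have e2 := hGV.ne_zero
          have e3 : ((D ^ α) ^ n) ^ m ≠ 0 := pow_ne_zero _ hE0
          field_simp
          ring_nf
        rwa [h6] at h5

theorem loc_N {ℓ α : ℕ} (hℓ : ℓ.Prime) (h2 : ℓ ≠ 2)
    (hm : Nat.Coprime m ℓ) (hα : ℓ ∣ α * m + 1) {D : M} (hD : Vd (Valued.v : Valuation M ℤᵐ⁰) ℓ D) {A : Fin m → M}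
    (hA : ∀ k, (Valued.v : Valuation M ℤᵐ⁰) (A k) ≤ 1) {i j : Fin m} (hij : i ≠ j) (hπ : (Valued.v : Valuation M ℤᵐ⁰) (A i - A j) = exp (-1 : ℤ))
    (hAA : ∀ k l, k ≠ l → ¬ (k = i ∧ l = j) → ¬ (k = j ∧ l = i) → (Valued.v : Valuation M ℤᵐ⁰) (A k - A l) = 1)
    {P Q : M[X]} (h : IsMum ℓ D A P Q) :
    ∃ s : ℤ, Vd (Valued.v : Valuation M ℤᵐ⁰) ℓ (dv α D P (A i) / (A i - A j) ^ s) ∧
      (∀ k, k ≠ i → k ≠ j → Vd (Valued.v : Valuation M ℤᵐ⁰) ℓ (dv α D P (A k))) ∧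
      Cl (Valued.v : Valuation M ℤᵐ⁰) ℓ (dv α D P (A i) / dv α D P (A j) * (nv D A i j) ^ s) := by
  have hπ0 : A i - A j ≠ 0 := fun h => by
    rw [h, map_zero] at hπ
    exact exp_ne_zero hπ.symm
  have hnv0 : nv D A i j ≠ 0 := by
    refine div_ne_zero hD.ne_zero (mul_ne_zero (pow_ne_zero _ hπ0)
      (Finset.prod_ne_zero_iff.2 fun k hk => ?_))
    rw [Finset.mem_erase, Finset.mem_erase] at hk
    intro h0
    have := hAA i k hk.2.1.symm (fun h => hk.1 h.2) (fun h => hij h.1)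
    rw [h0, map_zero] at this
    exact zero_ne_one this
  refine mum_induct ℓ D A Q (fun P => ∃ s : ℤ, Vd (Valued.v : Valuation M ℤᵐ⁰) ℓ (dv α D P (A i) / (A i - A j) ^ s) ∧
      (∀ k, k ≠ i → k ≠ j → Vd (Valued.v : Valuation M ℤᵐ⁰) ℓ (dv α D P (A k))) ∧
      Cl (Valued.v : Valuation M ℤᵐ⁰) ℓ (dv α D P (A i) / dv α D P (A j) * (nv D A i j) ^ s)) ?_ ?_ ?_ h
  · refine ⟨0, ?_, fun k _ _ => ?_, ?_⟩
    · rw [dv_one, zpow_zero, div_one]
      exact Vd.one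
    · rw [dv_one]
      exact Vd.one
    · rw [dv_one, dv_one, zpow_zero, div_one, mul_one]
      exact Cl.one
  · rintro P P' hP hP' ⟨s, a1, a2, a3⟩ ⟨t, b1, b2, b3⟩
    refine ⟨s + t, ?_, fun k hki hkj => ?_, ?_⟩
    · rw [dv_mul α D hP hP', zpow_add₀ hπ0, mul_div_mul_comm]
      exact a1.mul b1
    · rw [dv_mul α D hP hP']
      exact (a2 k hki hkj).mul (b2 k hki hkj)
    · rw [dv_mul α D hP hP', dv_mul α D hP hP', zpow_add₀ hnv0, mul_div_mul_comm,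
        mul_mul_mul_comm]
      exact a3.mul b3
  · intro P hP hirr hne hdiv
    exact ln_irr hℓ h2 hm hα hD hA hij hπ hAA hP hirr hne hdiv

end Pool.Agent.H94.PL
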