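import Pool.Agent.H94.PL.Sdg
import Pool.Agent.H94.PL.LNode

set_option autoImplicit false

/-!
# [H94 PL SDN] Selmer conditions at the primes dividing `dl A`

`v ∈ pf (dl A)` with pair `(i, j)`, completion at `v`: `hsel.fin (LT.place v.1 hv)`: Mumford pairs `(P_r, Q_r)`, `r < R`, and `γ`.
`wP (toP (A i - A j)) = exp (-1)` (`wP_simple`, squarefree), the other differences are units (`wP_eq_one`, `pr_unique`),
`DK` is a unit.  `loc_N` for each pair: `s_r`; `s = ∑ s_r` (`Finset.induction`, `zpow_add₀`).  `Vd (δ_i γ_i^ℓ / (A_i - A_j)^s)`, so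
`ex v (δ_i / (A_i - A_j)^s) = 0` (`tr_val`), so `ex v δ_i = s` (`ex_sub_N`, `ex_div`, `ex_zpow`); `Vd δ_k`: `tr_val`; and
`Cl (δ_i / δ_j * nv^s)`: `lq_of_cl` (exponents at the good primes: `sd_good`, `ex_nv_good`).
`toP (nv (DK c D) (AK A) i j) = nv (toP (DK c D)) (toP ∘ AK A) i j` (`map_div₀`, `map_prod` ...).
-/

namespace Pool.Agent.H94.PL

open Polynomial
open Pool.Agent.H94.PC (Mo Sq Pr pf om Mn mem_Mo mem_Sq mem_Pr mem_pf mem_pf')

variable {F : Type} [Field F] [Finite F] {ℓ m : ℕ} [hl : Fact ℓ.Prime]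

theorem sdn_zpow_sum {M : Type*} [Field M] {x : M} (hx : x ≠ 0) {ι : Type*} (T : Finset ι)
    (s : ι → ℤ) : x ^ (∑ r ∈ T, s r) = ∏ r ∈ T, x ^ s r := by
  classical
  induction T using Finset.induction_on with
  | empty => rw [Finset.sum_empty, Finset.prod_empty, zpow_zero]
  | insert a T ha ih => rw [Finset.sum_insert ha, Finset.prod_insert ha, zpow_add₀ hx, ih]

section
open WithZero
variable {M : Type} [Field M] [hv : Valued M ℤᵐ⁰] [CompleteSpace M] {m : ℕ}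

/-- the conclusion of `loc_N` for values of the descent map up to powers -/
theorem sdn_loc {ℓ α : ℕ} (hℓ : ℓ.Prime) (h2 : ℓ ≠ 2)
    (hm : Nat.Coprime m ℓ) (hα : ℓ ∣ α * m + 1) {D : M}
    (hD : Vd (Valued.v : Valuation M ℤᵐ⁰) ℓ D) {A : Fin m → M}
    (hA : ∀ k, (Valued.v : Valuation M ℤᵐ⁰) (A k) ≤ 1) {i j : Fin m} (hij : i ≠ j)
    (hπ : (Valued.v : Valuation M ℤᵐ⁰) (A i - A j) = exp (-1 : ℤ))
    (hAA : ∀ k l, k ≠ l → ¬ (k = i ∧ l = j) → ¬ (k = j ∧ l = i) →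
      (Valued.v : Valuation M ℤᵐ⁰) (A k - A l) = 1)
    (hnv : nv D A i j ≠ 0) {δ : Fin m → M} (h : IsVl ℓ α D A δ) :
    ∃ s : ℤ, Vd (Valued.v : Valuation M ℤᵐ⁰) ℓ (δ i / (A i - A j) ^ s) ∧
      (∀ k, k ≠ i → k ≠ j → Vd (Valued.v : Valuation M ℤᵐ⁰) ℓ (δ k)) ∧
      Cl (Valued.v : Valuation M ℤᵐ⁰) ℓ (δ i / δ j * (nv D A i j) ^ s) := by
  have hπ0 : A i - A j ≠ 0 := fun h => by
    rw [h, map_zero] at hπ
    exact exp_ne_zero hπ.symm
  obtain ⟨r, P, Q, γ, hmum, hγ, hδ⟩ := h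
  have h1 := fun a => loc_N hℓ h2 hm hα hD hA hij hπ hAA (hmum a)
  choose s hs1 hs2 hs3 using h1
  refine ⟨∑ a, s a, ?_, fun k hki hkj => ?_, ?_⟩
  · have h3 : Vd (Valued.v : Valuation M ℤᵐ⁰) ℓ (γ i ^ ℓ * (δ i / (A i - A j) ^ (∑ a, s a))) := by
      have e : γ i ^ ℓ * (δ i / (A i - A j) ^ (∑ a, s a)) =
          ∏ a, dv α D (P a) (A i) / (A i - A j) ^ s a := by
        rw [Finset.prod_div_distrib, ← sdn_zpow_sum hπ0, ← hδ i]
        ring
      rw [e]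
      exact Vd.prod _ _ fun a _ => hs1 a
    exact h3.cancel (Vd.self_pow (hγ i))
  · have h3 : Vd (Valued.v : Valuation M ℤᵐ⁰) ℓ (γ k ^ ℓ * δ k) := by
      rw [mul_comm, hδ k]
      exact Vd.prod _ _ fun a _ => hs2 a k hki hkj
    exact h3.cancel (Vd.self_pow (hγ k))
  · have h3 : Cl (Valued.v : Valuation M ℤᵐ⁰) ℓ ((γ i / γ j) ^ ℓ *
        (δ i / δ j * (nv D A i j) ^ (∑ a, s a))) := by
      have e : (γ i / γ j) ^ ℓ * (δ i / δ j * (nv D A i j) ^ (∑ a, s a)) =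
          ∏ a, dv α D (P a) (A i) / dv α D (P a) (A j) * (nv D A i j) ^ s a := by
        rw [Finset.prod_mul_distrib, Finset.prod_div_distrib, ← sdn_zpow_sum hnv, ← hδ i, ← hδ j,
          div_pow, mul_div_mul_comm]
        ring
      rw [e]
      exact Cl.prod _ _ fun a _ => hs3 a
    exact h3.cancel (Cl.self_pow (div_ne_zero (hγ i) (hγ j)))

end

theorem map_nv {K M : Type*} [Field K] [Field M] (f : K →+* M) {m : ℕ} (D : K) (A : Fin m → K)
    (i j : Fin m) : f (nv D A i j) = nv (f D) (fun k => f (A k)) i j := by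
  simp only [nv, map_div₀, map_mul, map_pow, map_sub, map_prod]

theorem sd_N [DecidableEq (RatFunc F)] (χ : LChar F ℓ) (h2 : ℓ ≠ 2) (hm : Nat.Coprime m ℓ)
    {α : ℕ} (hα : ℓ ∣ α * m + 1) {c : F} (hc : c ≠ 0) {A : Fin m → F[X]}
    (hs : Squarefree (dl A)) {D : F[X]} (hD : D.Monic) (hDs : Squarefree D)
    (hDA : IsCoprime D (dl A)) {δ : Fin m → RatFunc F} (hsel : IsSl ℓ α c A D δ)
    (v : pf (dl A)) :
    ∃ s : ℤ, ex ℓ v.1 (δ (pr A v).1) = s ∧
      (∀ k, k ≠ (pr A v).1 → k ≠ (pr A v).2 → ex ℓ v.1 (δ k) = 0) ∧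
      LQ χ A D v.1 (δ (pr A v).1 / δ (pr A v).2 *
        nv (DK c D) (AK A) (pr A v).1 (pr A v).2 ^ s) := by
  obtain ⟨hvm, hv, hvd⟩ := mem_pf' v.2
  have hij : (pr A v).1 ≠ (pr A v).2 := (pr_lt A v).ne
  have hD0 : D ≠ 0 := hD.ne_zero
  have hnD : ¬ v.1 ∣ D := fun h => hv.not_isUnit (hDA.isUnit_of_dvd' h hvd)
  have hnv := nv_ne hc hD0 hs hij
  have hnv' : nv (toP v.1 hv (DK c D)) (fun k => toP v.1 hv (AK A k)) (pr A v).1 (pr A v).2 ≠ 0 := by
    rw [← map_nv]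
    exact (_root_.map_ne_zero _).2 hnv
  have hsub : ∀ a b, AK A a - AK A b = algebraMap F[X] (RatFunc F) (A a - A b) := by
    intro a b
    rw [AK, AK, ← map_sub]
  have hDv : Vd (wP v.1 hv) ℓ (toP v.1 hv (DK c D)) := by
    refine Vd.of_unit (wP_eq_one hv ?_)
    intro h
    rcases hv.prime.dvd_or_dvd h with h | h
    · exact hv.not_isUnit (isUnit_of_dvd_unit h (isUnit_C.2 hc.isUnit))
    · exact hnD h
  obtain ⟨s, h1, h3, h4⟩ := sdn_loc (M := (LT.place v.1 hv).adicCompletion (RatFunc F)) hl.out h2 hm hα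
    (D := toP v.1 hv (DK c D)) hDv (A := fun k => toP v.1 hv (AK A k))
    (fun k => wP_le_one v.1 hv (A k)) hij (by
      show wP v.1 hv (toP v.1 hv (AK A (pr A v).1) - toP v.1 hv (AK A (pr A v).2)) = _
      rw [← map_sub, hsub]
      refine wP_simple hv (pr_dvd A v) ?_
      intro h
      have h5 := (h.trans (dvd_dl hij))
      rw [pow_two] at h5
      exact hv.not_isUnit (hs _ h5)) (by
      intro k l hkl h5 h6
      show wP v.1 hv (toP v.1 hv (AK A k) - toP v.1 hv (AK A l)) = _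
      rw [← map_sub, hsub]
      refine wP_eq_one hv fun h7 => ?_
      rcases pr_unique hs v hkl h7 with h8 | h8
      · exact h5 h8
      · exact h6 h8) hnv' (hsel.fin (LT.place v.1 hv))
  refine ⟨s, ?_, fun k hki hkj => tr_val hv (h3 k hki hkj), ?_⟩
  · have h5 : ex ℓ v.1 (δ (pr A v).1 / (AK A (pr A v).1 - AK A (pr A v).2) ^ s) = 0 := by
      refine tr_val hv ?_
      rw [map_div₀, map_zpow₀, map_sub]
      exact h1
    rw [ex_div hv (hsel.ne _) (zpow_ne_zero _ (AK_sub_ne hs hij)), ex_zpow hv (AK_sub_ne hs hij),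
      ex_sub_N hs v hij, if_pos (Or.inl ⟨rfl, rfl⟩), mul_one] at h5
    exact sub_eq_zero.1 h5
  · have hx : δ (pr A v).1 / δ (pr A v).2 *
        nv (DK c D) (AK A) (pr A v).1 (pr A v).2 ^ s ≠ 0 :=
      mul_ne_zero (div_ne_zero (hsel.ne _) (hsel.ne _)) (zpow_ne_zero _ hnv)
    refine lq_of_cl χ hs hD hDA hvm hv (Or.inr hvd) hx ?_ ?_
    · intro Q hQm hQ h5 h6
      rw [ex_mul hQ (div_ne_zero (hsel.ne _) (hsel.ne _)) (zpow_ne_zero _ hnv),
        ex_div hQ (hsel.ne _) (hsel.ne _), ex_zpow hQ hnv,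
        sd_good h2 hm hα hc hs hD hsel hQm hQ h5 h6, sd_good h2 hm hα hc hs hD hsel hQm hQ h5 h6,
        ex_nv_good hc hs hD hQ h5 h6 hij, sub_zero, mul_zero, add_zero]
    · rw [map_mul, map_div₀, map_zpow₀, map_nv]
      exact h4

end Pool.Agent.H94.PL
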