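import Pool.Agent.H94.PL.Sdd
import Pool.Agent.H94.PL.Sdn
import Pool.Agent.H94.PL.LInf

set_option autoImplicit false

/-!
# [H94 PL SDI] Selmer conditions at infinity, and the summary

Completion at infinity, `hsel.inf`; `w = exp (natDegree)` on polynomials (`LT.val_inf_poly`): `w (A i - A k) = exp a`,
`w (c D) = exp n`, `ϖ` = the image of `1 / X`.  `loc_inf` for each Mumford pair; `Vd (δ_k γ_k^ℓ)`, `Vd δ_k`;
`tr_inf` with `T = pf D ∪ pf (dl A)` (disjoint), exponents at the other primes by `sd_good`.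
`locD_of`: put together `sd_good`, `sd_D`, `sd_N`, `sd_inf`.
-/

namespace Pool.Agent.H94.PL

open Polynomial WithZero
open Pool.Agent.H94.PC (Mo Sq Pr pf om Mn mem_Mo mem_Sq mem_Pr mem_pf mem_pf')

variable {F : Type} [Field F] [Finite F] {ℓ m : ℕ} [hl : Fact ℓ.Prime]

open RatFunc.CompletionAtInfty in
theorem complete_inf (F : Type) [Field F] [DecidableEq (RatFunc F)] :
    CompleteSpace (RatFunc.CompletionAtInfty F) := by
  letI := RatFunc.inftyValued F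
  exact (inferInstance : CompleteSpace (UniformSpace.Completion (RatFunc F)))

theorem sd_inf [DecidableEq (RatFunc F)] (χ : LChar F ℓ) (h2 : ℓ ≠ 2) (hm : Nat.Coprime m ℓ)
    {α : ℕ} (hα : ℓ ∣ α * m + 1) {c : F} (hc : c ≠ 0) {A : Fin m → F[X]}
    (hs : Squarefree (dl A)) {a : ℕ} (ha : ∀ i k, i ≠ k → (A i - A k).natDegree = a)
    {D : F[X]} (hD : D.Monic) (hDA : IsCoprime D (dl A)) {n : ℕ} (hDn : D.natDegree = n)
    (hn : (n : ZMod ℓ) = (m : ZMod ℓ) * (a : ZMod ℓ))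
    {δ : Fin m → RatFunc F} (hsel : IsSl ℓ α c A D δ) (k : Fin m) :
    ∑ Q : pf D, ex ℓ Q.1 (δ k) * (Q.1.natDegree : ZMod ℓ) +
      ∑ v : pf (dl A), ex ℓ v.1 (δ k) * (v.1.natDegree : ZMod ℓ) = 0 := by
  classical
  haveI := complete_inf F
  have hD0 : D ≠ 0 := hD.ne_zero
  have hdl0 : dl A ≠ 0 := dl_ne_zero hs
  have hDK : (Valued.v (algebraMap (RatFunc F) (RatFunc.CompletionAtInfty F) (DK c D)) : ℤᵐ⁰) =
      WithZero.exp ((n : ℕ) : ℤ) := by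
    rw [DK, LT.val_inf_poly (mul_ne_zero (C_ne_zero.2 hc) hD0), natDegree_C_mul hc, hDn]
  have hAA : ∀ i j : Fin m, i ≠ j →
      (Valued.v (algebraMap (RatFunc F) (RatFunc.CompletionAtInfty F) (AK A i) -
        algebraMap (RatFunc F) (RatFunc.CompletionAtInfty F) (AK A j)) : ℤᵐ⁰) =
      WithZero.exp ((a : ℕ) : ℤ) := by
    intro i j hij
    rw [← map_sub, AK, AK, ← map_sub, LT.val_inf_poly (ne_of_sqf hs hij), ha i j hij]
  have hϖ : (Valued.v ((algebraMap (RatFunc F) (RatFunc.CompletionAtInfty F)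
      (algebraMap F[X] (RatFunc F) X))⁻¹) : ℤᵐ⁰) = WithZero.exp (-1 : ℤ) := by
    rw [map_inv₀, LT.val_inf_poly X_ne_zero, natDegree_X, WithZero.exp_neg]
    norm_num
  have hdvd : (ℓ : ℤ) ∣ ((n : ℕ) : ℤ) - m * ((a : ℕ) : ℤ) := by
    rw [← ZMod.intCast_zmod_eq_zero_iff_dvd]
    push_cast
    rw [hn, sub_self]
  obtain ⟨r, P, Q, γ, h1, h3, h4⟩ := hsel.inf
  have hVd : Vd (Valued.v : Valuation (RatFunc.CompletionAtInfty F) ℤᵐ⁰) ℓ
      (algebraMap (RatFunc F) (RatFunc.CompletionAtInfty F) (δ k)) := by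
    have h5 : Vd (Valued.v : Valuation (RatFunc.CompletionAtInfty F) ℤᵐ⁰) ℓ
        (∏ i, dv α (algebraMap (RatFunc F) (RatFunc.CompletionAtInfty F) (DK c D)) (P i)
          (algebraMap (RatFunc F) (RatFunc.CompletionAtInfty F) (AK A k))) :=
      Vd.prod _ _ (fun i _ => loc_inf hϖ hl.out h2 hm hα hDK hdvd hAA (h1 i) k)
    rw [← h4 k, mul_comm] at h5
    exact h5.cancel (Vd.self_pow (h3 k))
  have hT : ∀ Q ∈ pf D ∪ pf (dl A), Q.Monic ∧ Irreducible Q := by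
    intro Q hQ
    rcases Finset.mem_union.1 hQ with h | h
    · exact ⟨(mem_pf' h).1, (mem_pf' h).2.1⟩
    · exact ⟨(mem_pf' h).1, (mem_pf' h).2.1⟩
  have hgood : ∀ Q : F[X], Q.Monic → Irreducible Q → Q ∉ pf D ∪ pf (dl A) → ex ℓ Q (δ k) = 0 := by
    intro Q hQm hQi hQ
    rw [Finset.mem_union, not_or] at hQ
    refine sd_good h2 hm hα hc hs hD hsel hQm hQi ?_ ?_ k
    · intro hd
      exact hQ.1 ((mem_pf hD0).2 ⟨hQm, hQi, hd⟩)
    · intro hd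
      exact hQ.2 ((mem_pf hdl0).2 ⟨hQm, hQi, hd⟩)
  have hdisj : Disjoint (pf D) (pf (dl A)) := by
    rw [Finset.disjoint_left]
    intro Q hQ1 hQ2
    have hu := hDA.isUnit_of_dvd' (mem_pf' hQ1).2.2 (mem_pf' hQ2).2.2
    exact (mem_pf' hQ1).2.1.not_isUnit hu
  have h6 := tr_inf χ (hsel.ne k) (pf D ∪ pf (dl A)) hT hgood hVd
  rw [Finset.sum_union hdisj] at h6
  rw [← Finset.sum_coe_sort (pf D) (fun Q => ex ℓ Q (δ k) * (Q.natDegree : ZMod ℓ)),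
    ← Finset.sum_coe_sort (pf (dl A)) (fun Q => ex ℓ Q (δ k) * (Q.natDegree : ZMod ℓ))] at h6
  exact h6

theorem locD_of [DecidableEq (RatFunc F)] (χ : LChar F ℓ) (h2 : ℓ ≠ 2) (hm : Nat.Coprime m ℓ)
    {α : ℕ} (hα : ℓ ∣ α * m + 1) {c : F} (hc : c ≠ 0) {A : Fin m → F[X]}
    (hs : Squarefree (dl A)) {a : ℕ} (ha : ∀ i k, i ≠ k → (A i - A k).natDegree = a)
    {n : ℕ} (hn : (n : ZMod ℓ) = (m : ZMod ℓ) * (a : ZMod ℓ)) {D : F[X]} (hD : D ∈ Cls (dl A) n)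
    {δ : Fin m → RatFunc F} (hsel : IsSl ℓ α c A D δ) : LocD χ c A D δ := by
  obtain ⟨h1, h3, h4, h5⟩ := mem_Cls.1 hD
  exact ⟨hsel.ne, hsel.prod,
    fun Q hQm hQ h6 h7 k => sd_good h2 hm hα hc hs h1 hsel hQm hQ h6 h7 k,
    fun P => sd_D χ h2 hm hα hc hs h1 h4 h5 hsel P,
    fun v => sd_N χ h2 hm hα hc hs h1 h4 h5 hsel v,
    fun k => sd_inf χ h2 hm hα hc hs ha h1 h5 h3 hn hsel k⟩

end Pool.Agent.H94.PL
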