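import Pool.Agent.H94.PL.Prop
import Pool.Agent.H94.PL.Ech
import Pool.Agent.H94.PL.Syg
import Pool.Agent.H94.PL.Ra
import Pool.Agent.H94.PL.R2
import Pool.Agent.H94.PL.Sdi
import Pool.Agent.H94.PL.Kv
import Pool.Agent.H94.PL.Kt
import Pool.Agent.H94.PL.Tvs

set_option autoImplicit false

/-!
# [H94 PL] Assembly
-/

namespace Pool.Agent.H94.PL

open Polynomial IsDedekindDomain
open Pool.Agent.H94.PC (Mo Sq Pr pf om Mn mem_Mo mem_Sq mem_Pr mem_pf mem_pf')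

variable {F : Type} [Field F] {ℓ m : ℕ}

/-- the torsion classes -/
def IsTc (ℓ : ℕ) (c : F) (A : Fin m → F[X]) (D : F[X]) (δ : Fin m → RatFunc F) : Prop :=
  ∃ s : Fin m → ℤ, (ℓ : ℤ) ∣ ∑ k, s k ∧ ∀ k, ∃ y : RatFunc F, y ≠ 0 ∧
    δ k = tv (DK c D) (AK A) s k * y ^ ℓ

theorem map_tv {M : Type} [Field M] (φ : RatFunc F →+* M) (D : RatFunc F)
    (A : Fin m → RatFunc F) (s : Fin m → ℤ) (k : Fin m) :
    φ (tv D A s k) = tv (φ D) (fun i => φ (A i)) s k := by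
  simp only [tv, map_mul, map_zpow₀, map_prod, map_sub]

theorem isVl_of_tc {M : Type} [Field M] (φ : RatFunc F →+* M) {α : ℕ} (hℓ : ℓ.Prime) (h2 : ℓ ≠ 2)
    (hm : Nat.Coprime m ℓ) (hα : ℓ ∣ α * m + 1) {c : F} (hc : c ≠ 0) {A : Fin m → F[X]}
    [Finite F] (hs : Squarefree (dl A)) {D : F[X]} (hD : D ≠ 0) {δ : Fin m → RatFunc F}
    (h : IsTc ℓ c A D δ) :
    IsVl ℓ α (φ (DK c D)) (fun k => φ (AK A k)) (fun k => φ (δ k)) := by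
  obtain ⟨s, h1, h3⟩ := h
  choose y hy hδ using h3
  have hne : ∀ i k : Fin m, i ≠ k → φ (AK A i) ≠ φ (AK A k) := by
    intro i k hik he
    have := AK_sub_ne hs hik
    exact this (sub_eq_zero.2 (φ.injective he))
  have h4 := isVl_congr (isVl_tv (α := α) hℓ h2 hm hα
    ((map_ne_zero φ).2 (DK_ne hc hD)) hne s h1)
    (γ := fun k => φ (y k)) fun k => (map_ne_zero φ).2 (hy k)
  convert h4 using 2 with k
  rw [hδ k, map_mul, map_pow, map_tv]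

theorem isSl_of_tc [Finite F] [DecidableEq (RatFunc F)] {α : ℕ} (hℓ : ℓ.Prime) (h2 : ℓ ≠ 2)
    (hm : Nat.Coprime m ℓ) (hα : ℓ ∣ α * m + 1) {c : F} (hc : c ≠ 0) {A : Fin m → F[X]}
    (hs : Squarefree (dl A)) {D : F[X]} (hD : D ≠ 0) {δ : Fin m → RatFunc F}
    (h : IsTc ℓ c A D δ) : IsSl ℓ α c A D δ where
  ne := by
    obtain ⟨s, h1, h3⟩ := h
    intro k
    obtain ⟨y, hy, hδ⟩ := h3 k
    rw [hδ]
    exact mul_ne_zero (tv_ne hc hD hs s k) (pow_ne_zero _ hy)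
  prod := by
    have h5 := isVl_of_tc (RingHom.id (RatFunc F)) (α := α) hℓ h2 hm hα hc hs hD h
    exact prod_of_isVl hℓ h2 hα h5
  fin v := isVl_of_tc _ hℓ h2 hm hα hc hs hD h
  inf := isVl_of_tc _ hℓ h2 hm hα hc hs hD h

theorem tc_of_isSl [Finite F] [hl : Fact ℓ.Prime] [DecidableEq (RatFunc F)] (χ : LChar F ℓ)
    (h2 : ℓ ≠ 2) (hm : Nat.Coprime m ℓ)
    {α : ℕ} (hα : ℓ ∣ α * m + 1) {c : F} (hc : c ≠ 0) {A : Fin m → F[X]}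
    (hs : Squarefree (dl A)) {a : ℕ} (ha : ∀ i k, i ≠ k → (A i - A k).natDegree = a)
    {n : ℕ} (hn : (n : ZMod ℓ) = (m : ZMod ℓ) * (a : ZMod ℓ)) {D : F[X]} (hD : D ∈ Cls (dl A) n)
    (hK : ∀ z ∈ KerL χ (BB m ℓ) (syC χ c A) D, ∃ σ, z = torL (BB m ℓ) (syC χ c A) D σ)
    {δ : Fin m → RatFunc F} (hsel : IsSl ℓ α c A D δ) : IsTc ℓ c A D δ := by
  have h := locD_of χ h2 hm hα hc hs ha hn hD hsel
  obtain ⟨hDm, hDn, hDs, hDA⟩ := mem_Cls.1 hD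
  obtain ⟨σ, hσ⟩ := hK (zS χ A D δ) ⟨fun P => ep_zS χ h2 hc hs hDm hDs hDA h P,
    fun v => ev_zS χ h2 hc hs hDm hDs hDA h v, ei_zS χ hs hDm h⟩
  exact tors_of_torL χ h2 hc hs hDm hDs hDA h hσ

open Classical in
theorem mainL [Finite F] [DecidableEq (RatFunc F)] (hℓ : ℓ.Prime) (h2 : ℓ ≠ 2)
    (hq : ℓ ∣ Nat.card F - 1) (hm : Nat.Coprime m ℓ) {α : ℕ} (hα : ℓ ∣ α * m + 1) {c : F}
    (hc : c ≠ 0) {A : Fin m → F[X]} (hs : Squarefree (dl A)) {a : ℕ} (ha1 : 1 ≤ a)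
    (ha : ∀ i k, i ≠ k → (A i - A k).natDegree = a) (ε : ℝ) (hε : 0 < ε) :
    ∃ κ : ℝ, 0 < κ ∧ ∃ n₀ : ℕ, ∀ n : ℕ, n₀ ≤ n → n ≡ m * a [MOD ℓ] →
      κ * (Nat.card F : ℝ) ^ n ≤ ((Cls (dl A) n).card : ℝ) ∧
      (1 - 1 / ((ℓ : ℝ) - 1) - ε) * ((Cls (dl A) n).card : ℝ) ≤
        (((Cls (dl A) n).filter fun D => ∀ δ, IsSl ℓ α c A D δ ↔ IsTc ℓ c A D δ).card : ℝ) := by
  haveI : Fact ℓ.Prime := ⟨hℓ⟩
  obtain ⟨χ⟩ := exists_LChar F hℓ hq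
  haveI : Fintype (XX m ℓ) := Fintype.ofFinite _
  have hq4 : 4 ≤ Nat.card F := by
    have h1 : 1 < Nat.card F := Finite.one_lt_card
    have h3 : 2 ≤ ℓ := hℓ.two_le
    have h5 : ℓ ≤ Nat.card F - 1 := Nat.le_of_dvd (by omega) hq
    omega
  obtain ⟨κ, hκ, n₀, hn₀⟩ := propL (BB m ℓ) χ h2 hq4 (BB_good hm) (syC χ c A)
    (syC_good χ h2 hm c hs fun i k hik => by rw [ha i k hik]; exact ha1) hs.ne_zero
    (rel1C χ h2 c hs) ε hε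
  refine ⟨κ, hκ, n₀, fun n hn hmod => ?_⟩
  have hn' : (n : ZMod ℓ) = (m : ZMod ℓ) * (a : ZMod ℓ) := by
    have := (ZMod.natCast_eq_natCast_iff n (m * a) ℓ).2 hmod
    rw [this]
    push_cast
    ring
  obtain ⟨h1, h3⟩ := hn₀ n hn (rel2C χ c hs ha hn')
  refine ⟨h1, h3.trans ?_⟩
  have h4 : ((Cls (dl A) n).filter fun D => ∀ z ∈ KerL χ (BB m ℓ) (syC χ c A) D,
      ∃ σ, z = torL (BB m ℓ) (syC χ c A) D σ).card ≤
      ((Cls (dl A) n).filter fun D => ∀ δ, IsSl ℓ α c A D δ ↔ IsTc ℓ c A D δ).card := by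
    refine Finset.card_le_card fun D hD => ?_
    rw [Finset.mem_filter] at hD ⊢
    refine ⟨hD.1, fun δ => ⟨fun h => ?_, fun h => ?_⟩⟩
    · exact tc_of_isSl χ h2 hm hα hc hs ha hn' hD.1 hD.2 h
    · exact isSl_of_tc hℓ h2 hm hα hc hs (mem_Cls.1 hD.1).1.ne_zero h
  exact_mod_cast h4

end Pool.Agent.H94.PL
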