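import Pool.Agent.H94.PL.Tk
import Pool.Agent.H94.PL.LGood

set_option autoImplicit false

/-!
# [H94 PL SDG] Selmer conditions at the good primes

The completion at `Q` (`toP Q hQ`, `wP Q hQ`): `hsel.fin (LT.place Q hQ)` gives Mumford pairs `(P_r, Q_r)` and `γ`.
`loc_good` with `D := toP (DK c D)` (a unit by `wP_eq_one`, `Vd.of_unit`), `A := toP (AK A k)` (integral by
`wP_le_one`, differences units by `wP_eq_one`, `¬ Q ∣ A i - A k` as `A i - A k ∣ dl A`), `ϖ = toP Q` (`wP_self`).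
So `Vd (∏ dv) = Vd (δ_k γ_k^ℓ)`, so `Vd δ_k` (`Vd.self_pow`, `Vd.cancel`), and `tr_val`.
-/

namespace Pool.Agent.H94.PL

open Polynomial
open Pool.Agent.H94.PC (Mo Sq Pr pf om Mn mem_Mo mem_Sq mem_Pr mem_pf mem_pf')

variable {F : Type} [Field F] [Finite F] {ℓ m : ℕ} [hl : Fact ℓ.Prime]

omit hl in
theorem sd_diff {A : Fin m → F[X]} {Q : F[X]} (hQ : Irreducible Q) (h3 : ¬ Q ∣ dl A)
    {i k : Fin m} (hik : i ≠ k) :
    wP Q hQ (toP Q hQ (AK A i) - toP Q hQ (AK A k)) = 1 := by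
  rw [← map_sub, AK, AK, ← map_sub]
  exact wP_eq_one hQ (fun h => h3 (h.trans (dvd_dl hik)))

theorem sd_good [DecidableEq (RatFunc F)] (h2 : ℓ ≠ 2) (hm : Nat.Coprime m ℓ) {α : ℕ}
    (hα : ℓ ∣ α * m + 1) {c : F} (hc : c ≠ 0) {A : Fin m → F[X]} (hs : Squarefree (dl A))
    {D : F[X]} (hD : D.Monic) {δ : Fin m → RatFunc F} (hsel : IsSl ℓ α c A D δ) {Q : F[X]}
    (hQm : Q.Monic) (hQ : Irreducible Q) (h1 : ¬ Q ∣ D) (h3 : ¬ Q ∣ dl A) (k : Fin m) :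
    ex ℓ Q (δ k) = 0 := by
  obtain ⟨r, P, R, γ, hmum, hγ, hprod⟩ := hsel.fin (LT.place Q hQ)
  have hD' : Vd (wP Q hQ) ℓ (toP Q hQ (DK c D)) := by
    refine Vd.of_unit (wP_eq_one hQ ?_)
    intro h
    exact h1 ((hQ.prime.dvd_or_dvd h).resolve_left fun h => hQ.not_isUnit
      (isUnit_of_dvd_unit h (isUnit_C.2 (isUnit_iff_ne_zero.2 hc))))
  have h4 : ∀ i, Vd (wP Q hQ) ℓ (dv α (toP Q hQ (DK c D)) (P i) (toP Q hQ (AK A k))) := fun i =>
    loc_good (A := fun k => toP Q hQ (AK A k)) (wP_self Q hQ) hl.out h2 hm hα hD'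
      (fun k => wP_le_one Q hQ (A k)) (fun i k hik => sd_diff hQ h3 hik) (hmum i) k
  have h5 : Vd (wP Q hQ) ℓ (toP Q hQ (δ k) * γ k ^ ℓ) := by
    have h6 := Vd.prod Finset.univ _ (fun i _ => h4 i)
    have h7 : toP Q hQ (δ k) * γ k ^ ℓ =
      ∏ i, dv α (toP Q hQ (DK c D)) (P i) (toP Q hQ (AK A k)) := hprod k
    rw [h7]
    exact h6
  have h6 : Vd (wP Q hQ) ℓ (toP Q hQ (δ k)) := by
    rw [mul_comm] at h5
    exact h5.cancel (Vd.self_pow (hγ k))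
  exact tr_val hQ h6

/-- from `Cl` to the linear relation: `tr_cl` with `T = (pf D ∪ pf (dl A)).erase P` (a disjoint union, `D` prime to
`dl A`); the term at `P` is zero as `ex ℓ P x = 0` -/
theorem lq_of_cl (χ : LChar F ℓ) {A : Fin m → F[X]} (hs : Squarefree (dl A)) {D : F[X]}
    (hD : D.Monic) (hDA : IsCoprime D (dl A)) {P : F[X]} (hPm : P.Monic) (hP : Irreducible P)
    (hPD : P ∣ D ∨ P ∣ dl A) {x : RatFunc F} (hx : x ≠ 0)
    (h : ∀ Q : F[X], Q.Monic → Irreducible Q → ¬ Q ∣ D → ¬ Q ∣ dl A → ex ℓ Q x = 0)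
    (hc : Cl (wP P hP) ℓ (toP P hP x)) : LQ χ A D P x := by
  classical
  have hdis : Disjoint (pf D) (pf (dl A)) := by
    rw [Finset.disjoint_left]
    intro Q hQ hQ'
    exact (mem_pf' hQ).2.1.not_isUnit (hDA.isUnit_of_dvd' (mem_pf' hQ).2.2 (mem_pf' hQ').2.2)
  obtain ⟨h1, h2⟩ := tr_cl χ hPm hP hx ((pf D ∪ pf (dl A)).erase P) (by
      intro Q hQ
      rcases Finset.mem_union.1 (Finset.mem_of_mem_erase hQ) with h | h
      · exact ⟨(mem_pf' h).1, (mem_pf' h).2.1⟩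
      · exact ⟨(mem_pf' h).1, (mem_pf' h).2.1⟩)
    (Finset.notMem_erase _ _) (by
      intro Q hQm hQ hQT hQP
      have h3 : Q ∉ pf D ∪ pf (dl A) := fun h => hQT (Finset.mem_erase.2 ⟨hQP, h⟩)
      rw [Finset.mem_union, not_or] at h3
      refine h Q hQm hQ (fun h4 => h3.1 ((mem_pf hD.ne_zero).2 ⟨hQm, hQ, h4⟩))
        (fun h4 => h3.2 ((mem_pf hs.ne_zero).2 ⟨hQm, hQ, h4⟩))) hc
  refine ⟨h1, ?_⟩
  rw [Finset.sum_erase _ (by rw [h1, zero_mul]), Finset.sum_union hdis,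
    ← Finset.sum_coe_sort (pf D), ← Finset.sum_coe_sort (pf (dl A)), ← add_assoc] at h2
  exact h2

end Pool.Agent.H94.PL
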