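import Pool.Agent.H94.PL.Ana

set_option autoImplicit false

/-!
# [H94 PL ANL] The main estimate

Choose `z = ⌈n ^ η⌉₊`, `η = 1 / (4 N (|V| + 2))`, in `ana_bound`: `n ^ η ≤ z ≤ 2 n ^ η` (`n ≥ 1`), so
`z ^ (|V|+1) n ^ (-1/(2N)) ≤ 2 ^ (|V|+1) n ^ (-1/(4N)) → 0`, `z ^ |V| n ^ (-1/N) → 0`,
`(n + 1) ^ (|V|+1) q ^ (-z/4) ≤ (n + 1) ^ (|V|+1) q ^ (- n ^ η / 4) → 0` (`q ≥ 2`), and
`2 (|V| + 1) z ≤ n` for `n` large.  The error terms do not depend on `b`, `g`.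
(First prove a purely real lemma: for all constants `a, c, k, N ≥ 1, q ≥ 2`, `ε > 0` there is `n₀` such that for
`n ≥ n₀` there is a natural `z ≥ 1` with `2 (k + 1) z ≤ n` and
`a z ^ (k+1) n ^ (-1/(2N)) + c n ^ (-1/N) z ^ k + (n + 1) ^ (k+1) q ^ (-z/4) ≤ ε`.)
-/

namespace Pool.Agent.H94.PL

open Polynomial
open Pool.Agent.H94.PC (Mo Sq Pr pf om Mn mem_Mo mem_Sq mem_Pr mem_pf mem_pf')

private lemma anl_eta (k N : ℕ) (hN : 1 ≤ N) : 0 < (1 / (4 * N * (k + 2)) : ℝ) ∧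
    (1 / (4 * N * (k + 2)) : ℝ) ≤ 1 / 8 ∧
    (k + 1) * (1 / (4 * N * (k + 2)) : ℝ) ≤ 1 / (4 * N) := by
  have hN' : (1 : ℝ) ≤ N := by exact_mod_cast hN
  have hk : (0 : ℝ) ≤ k := Nat.cast_nonneg k
  refine ⟨by positivity, ?_, ?_⟩
  · apply one_div_le_one_div_of_le (by norm_num)
    nlinarith
  · rw [mul_one_div, div_le_div_iff₀ (by positivity) (by positivity)]
    nlinarith

private lemma anl_first (A : ℝ) (k N : ℕ) (hN : 1 ≤ N) : ∀ e : ℝ, 0 < e →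
    ∀ᶠ n : ℕ in Filter.atTop, A * (2 ^ (k + 1) * (n : ℝ) ^ (-(1 / (4 * N)) : ℝ)) ≤ e := by
  intro e he
  have hN' : (1 : ℝ) ≤ N := by exact_mod_cast hN
  have h1 : Filter.Tendsto (fun x : ℝ => A * (2 ^ (k + 1) * x ^ (-(1 / (4 * N)) : ℝ))) Filter.atTop
      (nhds (A * (2 ^ (k + 1) * 0))) :=
    ((tendsto_rpow_neg_atTop (show (0 : ℝ) < 1 / (4 * N) by positivity)).const_mul _).const_mul _
  rw [mul_zero, mul_zero] at h1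
  have h2 := h1.comp (tendsto_natCast_atTop_atTop (R := ℝ))
  filter_upwards [h2.eventually (gt_mem_nhds he)] with n hn
  exact (show A * (2 ^ (k + 1) * (n : ℝ) ^ (-(1 / (4 * N)) : ℝ)) < e from hn).le

private lemma anl_second (Q : ℝ) (hQ : 2 ≤ Q) (k : ℕ) (η : ℝ) (hη : 0 < η) : ∀ e : ℝ, 0 < e →
    ∀ᶠ n : ℕ in Filter.atTop,
    ((n : ℝ) + 1) ^ (k + 1) * Q ^ (-((⌊(n : ℝ) ^ η⌋₊ + 1 : ℕ) : ℝ) / 4) ≤ e := by
  intro e he
  have hl : 0 < Real.log 2 / 4 := by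
    have := Real.log_pos (show (1 : ℝ) < 2 by norm_num)
    positivity
  have h1 : Filter.Tendsto (fun x : ℝ => 2 ^ (k + 1) *
      (x ^ ((k + 1 : ℝ) / η) * Real.exp (-(Real.log 2 / 4) * x))) Filter.atTop
      (nhds (2 ^ (k + 1) * 0)) :=
    (tendsto_rpow_mul_exp_neg_mul_atTop_nhds_zero _ _ hl).const_mul _
  rw [mul_zero] at h1
  have h3 : Filter.Tendsto (fun n : ℕ => (n : ℝ) ^ η) Filter.atTop Filter.atTop :=
    (tendsto_rpow_atTop hη).comp (tendsto_natCast_atTop_atTop (R := ℝ))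
  have h2 := h1.comp h3
  filter_upwards [h2.eventually (gt_mem_nhds he), Filter.eventually_ge_atTop 1] with n hn hn1
  have hn1' : (1 : ℝ) ≤ n := by exact_mod_cast hn1
  have hn0 : (0 : ℝ) < n := by linarith
  set y := (n : ℝ) ^ η with hy
  have hy0 : 0 < y := by positivity
  have hzy : y ≤ ((⌊y⌋₊ + 1 : ℕ) : ℝ) := by
    push_cast
    exact (Nat.lt_floor_add_one y).le
  have hny : y ^ ((k + 1 : ℝ) / η) = (n : ℝ) ^ (k + 1) := by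
    rw [hy, ← Real.rpow_mul hn0.le, mul_div_cancel₀ _ hη.ne',
      show (k + 1 : ℝ) = ((k + 1 : ℕ) : ℝ) by push_cast; ring, Real.rpow_natCast]
  have hn' : 2 ^ (k + 1) * (y ^ ((k + 1 : ℝ) / η) * Real.exp (-(Real.log 2 / 4) * y)) < e := hn
  have hq : Q ^ (-((⌊y⌋₊ + 1 : ℕ) : ℝ) / 4) ≤ Real.exp (-(Real.log 2 / 4) * y) := by
    calc Q ^ (-((⌊y⌋₊ + 1 : ℕ) : ℝ) / 4) ≤ (2 : ℝ) ^ (-((⌊y⌋₊ + 1 : ℕ) : ℝ) / 4) := by
          apply Real.rpow_le_rpow_of_nonpos (by norm_num) hQ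
          have : (0 : ℝ) ≤ ((⌊y⌋₊ + 1 : ℕ) : ℝ) := Nat.cast_nonneg _
          linarith
      _ ≤ (2 : ℝ) ^ (-y / 4) := by
          apply Real.rpow_le_rpow_of_exponent_le (by norm_num)
          linarith
      _ = Real.exp (-(Real.log 2 / 4) * y) := by
          rw [Real.rpow_def_of_pos (by norm_num)]
          congr 1
          ring
  have hp : ((n : ℝ) + 1) ^ (k + 1) ≤ 2 ^ (k + 1) * (n : ℝ) ^ (k + 1) := by
    rw [← mul_pow]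
    exact pow_le_pow_left₀ (by linarith) (by linarith) (k + 1)
  calc ((n : ℝ) + 1) ^ (k + 1) * Q ^ (-((⌊y⌋₊ + 1 : ℕ) : ℝ) / 4)
      ≤ (2 ^ (k + 1) * (n : ℝ) ^ (k + 1)) * Real.exp (-(Real.log 2 / 4) * y) :=
        mul_le_mul hp hq (Real.rpow_nonneg (by linarith) _) (by positivity)
    _ = 2 ^ (k + 1) * (y ^ ((k + 1 : ℝ) / η) * Real.exp (-(Real.log 2 / 4) * y)) := by
        rw [hny]
        ring
    _ ≤ e := hn'.le

private lemma anl_third (k : ℕ) (η : ℝ) (hη : 0 < η) (hη' : η ≤ 1 / 8) :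
    ∀ᶠ n : ℕ in Filter.atTop, 2 * (k + 1) * (⌊(n : ℝ) ^ η⌋₊ + 1) ≤ n := by
  have h3 : Filter.Tendsto (fun n : ℕ => (n : ℝ) ^ (1 - η)) Filter.atTop Filter.atTop :=
    (tendsto_rpow_atTop (show (0 : ℝ) < 1 - η by linarith)).comp
      (tendsto_natCast_atTop_atTop (R := ℝ))
  filter_upwards [h3.eventually (Filter.eventually_ge_atTop (4 * (k + 1) : ℝ)),
    Filter.eventually_ge_atTop 1] with n hn hn1
  have hn1' : (1 : ℝ) ≤ n := by exact_mod_cast hn1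
  have hn0 : (0 : ℝ) < n := by linarith
  have hy1 : 1 ≤ (n : ℝ) ^ η := Real.one_le_rpow hn1' hη.le
  have hf := Nat.floor_le (show 0 ≤ (n : ℝ) ^ η by positivity)
  have h : (n : ℝ) ^ η * (n : ℝ) ^ (1 - η) = n := by
    rw [← Real.rpow_add hn0, add_sub_cancel, Real.rpow_one]
  have h5 : (n : ℝ) ^ η * (4 * (k + 1)) ≤ (n : ℝ) ^ η * (n : ℝ) ^ (1 - η) :=
    mul_le_mul_of_nonneg_left hn (by positivity)
  have hk : (0 : ℝ) ≤ k := Nat.cast_nonneg k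
  have h4 : (2 * (k + 1) * ((⌊(n : ℝ) ^ η⌋₊ : ℝ) + 1)) ≤ (n : ℝ) := by
    rw [h] at h5
    refine le_trans ?_ h5
    have h6 : (⌊(n : ℝ) ^ η⌋₊ : ℝ) + 1 ≤ 2 * (n : ℝ) ^ η := by linarith
    calc 2 * ((k : ℝ) + 1) * ((⌊(n : ℝ) ^ η⌋₊ : ℝ) + 1) ≤ 2 * ((k : ℝ) + 1) * (2 * (n : ℝ) ^ η) :=
          mul_le_mul_of_nonneg_left h6 (by positivity)
      _ = (n : ℝ) ^ η * (4 * (k + 1)) := by ring
  exact_mod_cast h4

theorem anl_real (a c : ℝ) (ha : 0 ≤ a) (hc : 0 ≤ c) (k N : ℕ) (hN : 1 ≤ N) (q : ℝ) (hq : 2 ≤ q)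
    (ε : ℝ) (hε : 0 < ε) : ∃ n₀ : ℕ, ∀ n : ℕ, n₀ ≤ n → ∃ z : ℕ, 1 ≤ z ∧ 2 * (k + 1) * z ≤ n ∧
      a * (z : ℝ) ^ (k + 1) * (n : ℝ) ^ (-(1 / (2 * N)) : ℝ) +
        c * ((n : ℝ) ^ (-(1 / N) : ℝ) * (z : ℝ) ^ k) +
        ((n : ℝ) + 1) ^ (k + 1) * q ^ (-(z : ℝ) / 4) ≤ ε := by
  have hN' : (1 : ℝ) ≤ N := by exact_mod_cast hN
  obtain ⟨hη, hη8, hηk⟩ := anl_eta k N hN
  set η : ℝ := 1 / (4 * N * (k + 2)) with hηd
  obtain ⟨n₀, h⟩ := Filter.eventually_atTop.1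
    ((anl_first (a + c) k N hN (ε / 2) (by linarith)).and
      ((anl_second q hq k η hη (ε / 2) (by linarith)).and (anl_third k η hη hη8)))
  refine ⟨max n₀ 1, fun n hn => ?_⟩
  obtain ⟨h1, h2, h3⟩ := h n ((le_max_left _ _).trans hn)
  have hn1 : (1 : ℝ) ≤ n := by exact_mod_cast (le_max_right n₀ 1).trans hn
  have hn0 : (0 : ℝ) < n := by linarith
  refine ⟨⌊(n : ℝ) ^ η⌋₊ + 1, by omega, h3, ?_⟩
  have hy1 : 1 ≤ (n : ℝ) ^ η := Real.one_le_rpow hn1 hη.le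
  have hz : ((⌊(n : ℝ) ^ η⌋₊ + 1 : ℕ) : ℝ) ≤ 2 * (n : ℝ) ^ η := by
    push_cast
    have := Nat.floor_le (show 0 ≤ (n : ℝ) ^ η by positivity)
    linarith
  have hz1 : (1 : ℝ) ≤ ((⌊(n : ℝ) ^ η⌋₊ + 1 : ℕ) : ℝ) := by
    push_cast
    have : (0 : ℝ) ≤ ⌊(n : ℝ) ^ η⌋₊ := Nat.cast_nonneg _
    linarith
  set z : ℝ := ((⌊(n : ℝ) ^ η⌋₊ + 1 : ℕ) : ℝ) with hzd
  have hz0 : 0 < z := by linarith
  have e1 : z ^ (k + 1) * (n : ℝ) ^ (-(1 / (2 * N)) : ℝ) ≤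
      2 ^ (k + 1) * (n : ℝ) ^ (-(1 / (4 * N)) : ℝ) := by
    have h4 : z ^ (k + 1) ≤ 2 ^ (k + 1) * (n : ℝ) ^ (1 / (4 * N) : ℝ) := by
      calc z ^ (k + 1) ≤ (2 * (n : ℝ) ^ η) ^ (k + 1) := pow_le_pow_left₀ hz0.le hz _
        _ = 2 ^ (k + 1) * (n : ℝ) ^ ((k + 1) * η) := by
          rw [mul_pow, ← Real.rpow_natCast ((n : ℝ) ^ η) (k + 1), ← Real.rpow_mul hn0.le]
          congr 2
          push_cast
          ring
        _ ≤ 2 ^ (k + 1) * (n : ℝ) ^ (1 / (4 * N) : ℝ) := by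
          apply mul_le_mul_of_nonneg_left _ (by positivity)
          exact Real.rpow_le_rpow_of_exponent_le hn1 hηk
    calc z ^ (k + 1) * (n : ℝ) ^ (-(1 / (2 * N)) : ℝ)
        ≤ (2 ^ (k + 1) * (n : ℝ) ^ (1 / (4 * N) : ℝ)) * (n : ℝ) ^ (-(1 / (2 * N)) : ℝ) :=
          mul_le_mul_of_nonneg_right h4 (by positivity)
      _ = 2 ^ (k + 1) * (n : ℝ) ^ (-(1 / (4 * N)) : ℝ) := by
          rw [mul_assoc, ← Real.rpow_add hn0]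
          congr 2
          field_simp
          ring
  have e2 : (n : ℝ) ^ (-(1 / N) : ℝ) * z ^ k ≤ z ^ (k + 1) * (n : ℝ) ^ (-(1 / (2 * N)) : ℝ) := by
    have h5 : (n : ℝ) ^ (-(1 / N) : ℝ) ≤ (n : ℝ) ^ (-(1 / (2 * N)) : ℝ) := by
      apply Real.rpow_le_rpow_of_exponent_le hn1
      apply neg_le_neg
      apply one_div_le_one_div_of_le (by linarith)
      linarith
    have h6 : z ^ k ≤ z ^ (k + 1) := pow_le_pow_right₀ hz1 (by omega)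
    calc (n : ℝ) ^ (-(1 / N) : ℝ) * z ^ k ≤ (n : ℝ) ^ (-(1 / (2 * N)) : ℝ) * z ^ (k + 1) :=
          mul_le_mul h5 h6 (by positivity) (by positivity)
      _ = _ := by ring
  have e3 : a * z ^ (k + 1) * (n : ℝ) ^ (-(1 / (2 * N)) : ℝ) +
      c * ((n : ℝ) ^ (-(1 / N) : ℝ) * z ^ k) ≤
      (a + c) * (2 ^ (k + 1) * (n : ℝ) ^ (-(1 / (4 * N)) : ℝ)) := by
    have e4 := mul_le_mul_of_nonneg_left e1 ha
    have e5 := mul_le_mul_of_nonneg_left (e2.trans e1) hc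
    nlinarith [e4, e5]
  have h2' : ((n : ℝ) + 1) ^ (k + 1) * q ^ (-z / 4) ≤ ε / 2 := h2
  linarith [e3, h1, h2']

variable {F : Type} [Field F] [Finite F] {ℓ : ℕ} [hl : Fact ℓ.Prime]
  {V : Type} [Fintype V] [DecidableEq V]

theorem ana (χ : LChar F ℓ) (h2 : ℓ ≠ 2) (C : CD V ℓ) (hC : C.Good) (Δ : F[X])
    (hΔ : Δ ≠ 0) (ε : ℝ) (hε : 0 < ε) : ∃ n₀ : ℕ, ∀ n : ℕ, n₀ ≤ n →
      ∀ (b : V → ZMod ℓ) (g : V → pf Δ → ZMod ℓ),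
      ‖∑ x : V → Mn F n, WL χ C Δ b g n x‖ ≤
        ((MaxC C b g).card : ℝ) * ((Cls Δ n).card : ℝ) + ε * (Nat.card F : ℝ) ^ n := by
  have hℓ := hl.out
  have hC0 : 0 ≤ Cb ℓ V Δ := by
    have := one_le_Kc (ℓ := ℓ)
    rw [Cb]
    positivity
  have hq : (2 : ℝ) ≤ (Nat.card F : ℝ) := by
    exact_mod_cast (Finite.one_lt_card (α := F))
  have hqn : ∀ n : ℕ, (0 : ℝ) < (Nat.card F : ℝ) ^ n := fun n => by positivity
  obtain ⟨n₀, h⟩ := anl_real (2 ^ Fintype.card V * Cb ℓ V Δ)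
    ((2 ^ Fintype.card V + 1) * (2 ^ Fintype.card V * 6)) (by positivity) (by positivity)
    (Fintype.card V) C.N hC.pos (Nat.card F : ℝ) hq ε hε
  refine ⟨n₀, fun n hn b g => ?_⟩
  obtain ⟨z, hz, hzn, hb⟩ := h n hn
  refine (ana_bound χ h2 C hC Δ hΔ b g n z hz hzn).trans ?_
  have h1 := mul_le_mul_of_nonneg_right hb (hqn n).le
  have h3 : ((MaxC C b g).card : ℝ) * ((Cls Δ n).card : ℝ) +
        2 ^ Fintype.card V * (Cb ℓ V Δ * (z : ℝ) ^ (Fintype.card V + 1) * (Nat.card F : ℝ) ^ n *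
          (n : ℝ) ^ (-(1 / (2 * C.N)) : ℝ)) +
        (2 ^ Fintype.card V + 1) * (2 ^ Fintype.card V * (6 * (Nat.card F : ℝ) ^ n *
          (n : ℝ) ^ (-(1 / C.N) : ℝ) * (z : ℝ) ^ Fintype.card V)) +
        ((n : ℝ) + 1) ^ (Fintype.card V + 1) * (Nat.card F : ℝ) ^ n *
          (Nat.card F : ℝ) ^ (-(z : ℝ) / 4) =
      ((MaxC C b g).card : ℝ) * ((Cls Δ n).card : ℝ) +
      (2 ^ Fintype.card V * Cb ℓ V Δ * (z : ℝ) ^ (Fintype.card V + 1) *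
          (n : ℝ) ^ (-(1 / (2 * C.N)) : ℝ) +
        (2 ^ Fintype.card V + 1) * (2 ^ Fintype.card V * 6) *
          ((n : ℝ) ^ (-(1 / C.N) : ℝ) * (z : ℝ) ^ Fintype.card V) +
        ((n : ℝ) + 1) ^ (Fintype.card V + 1) * (Nat.card F : ℝ) ^ (-(z : ℝ) / 4)) *
        (Nat.card F : ℝ) ^ n := by ring
  rw [h3]
  linarith [h1]

end Pool.Agent.H94.PL
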