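import Pool.Agent.H94.PL.KDefs

set_option autoImplicit false

/-!
# [H94 PL LA] Unlinked sets in `X × X`

`Q u = B u.2 u.1` and `C.lk u w = B u.2 (w.1 - u.1) + B w.2 (u.1 - w.1) = - Q (u - w)`.
Polar form `b u w = B u.2 w.1 + B w.2 u.1`, `Q (u + w) = Q u + Q w + b u w`, `2 Q u = b u u`.

`la_span`: `U` unlinked, `u₀ ∈ U`, `W = span (u - u₀ : u ∈ U)`.  For `u, w ∈ U`:
`Q (u - u₀) = 0`, `Q (u - w) = 0`, so `b (u - u₀) (w - u₀) = 0`; by bilinearity `b = 0` on `W`
(`Submodule.span_induction` twice), so `Q = 0` on `W` as `2 ≠ 0`.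
`la_card`: a submodule `W` of `X × X` with `b = 0` on `W` has `card W ≤ card X`:
`b` is nondegenerate on `X × X` (from `hB`), so `finrank W + finrank W^⊥ = 2 finrank X`
(`LinearMap.BilinForm.finrank_orthogonal` or the map `W → Dual (V / W)` is injective) and
`W ≤ W^⊥`.  Direct counting proof: the map `V → (W →ₗ ZMod ℓ)`, `v ↦ b v ·`, is surjective (a nondegenerate
form on `V` restricted to a subspace: `LinearMap.BilinForm.toDual` and `Subspace.dualRestrict_surjective`)
with kernel `W^⊥ ≥ W`, so `card V ≥ card W * card W`, `card V = (card X)^2`.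
`la_perp`: if moreover `card W = card X` then `b v w = 0` for all `w ∈ W` implies `v ∈ W`
(`span (W, v)` is again isotropic for `b`... `b v v` may be nonzero; use the dimension:
`card W^⊥ = card V / card W = card W`).
`cdx_good`: from these: `card_le`: `U ⊆ u₀ + W`.  `nonconst`: if `card U = card X` then `U = u₀ + W` (as sets),
`card W = card X`; for `w ∉ U`, `u = u₀ + h`: `lk (u₀ + h) w = - Q (u₀ - w) - b (u₀ - w) h` (`Q h = 0`);
if this is constant in `h ∈ W` then `b (u₀ - w) h = 0` for all `h ∈ W`, so `u₀ - w ∈ W`, `w ∈ U`.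
`la_str` records the structure of the maximal unlinked sets.
-/

set_option linter.unusedSectionVars false

namespace Pool.Agent.H94.PL

variable {ℓ : ℕ} [hl : Fact ℓ.Prime] {X : Type} [AddCommGroup X] [Module (ZMod ℓ) X] [Fintype X]
  (B : X →ₗ[ZMod ℓ] X →ₗ[ZMod ℓ] ZMod ℓ)

theorem lk_eq (u w : X × X) : (CDX B).lk u w = -(B (u.2 - w.2) (u.1 - w.1)) := by
  rw [CD.lk]
  show B u.2 (w.1 - u.1) + B w.2 (u.1 - w.1) = _
  simp only [map_sub, LinearMap.sub_apply]
  ring

/-- the polar form -/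
noncomputable def laB : (X × X) →ₗ[ZMod ℓ] (X × X) →ₗ[ZMod ℓ] ZMod ℓ :=
  LinearMap.mk₂ (ZMod ℓ) (fun u w => B u.2 w.1 + B w.2 u.1)
    (fun u u' w => by
      simp only [Prod.snd_add, Prod.fst_add, map_add, LinearMap.add_apply]
      ring)
    (fun c u w => by
      simp only [Prod.smul_snd, Prod.smul_fst, map_smul, LinearMap.smul_apply, smul_eq_mul]
      ring)
    (fun u w w' => by
      simp only [Prod.snd_add, Prod.fst_add, map_add, LinearMap.add_apply]
      ring)
    (fun c u w => by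
      simp only [Prod.smul_snd, Prod.smul_fst, map_smul, LinearMap.smul_apply, smul_eq_mul]
      ring)

theorem laB_apply (u w : X × X) : laB B u w = B u.2 w.1 + B w.2 u.1 := rfl

theorem laB_symm (u w : X × X) : laB B u w = laB B w u := by
  rw [laB_apply, laB_apply, add_comm]

theorem laB_sub (u w : X × X) : B (u - w).2 (u - w).1 = B u.2 u.1 + B w.2 w.1 - laB B u w := by
  rw [laB_apply]
  simp only [Prod.snd_sub, Prod.fst_sub, map_sub, LinearMap.sub_apply]
  ring

theorem laB_add (u w : X × X) : B (u + w).2 (u + w).1 = B u.2 u.1 + B w.2 w.1 + laB B u w := by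
  rw [laB_apply]
  simp only [Prod.snd_add, Prod.fst_add, map_add, LinearMap.add_apply]
  ring

theorem laB_ker (hB : BGood B) : LinearMap.ker (laB B) = ⊥ := by
  rw [LinearMap.ker_eq_bot']
  intro u hu
  have h1 : u.2 = 0 := by
    refine hB.nondeg _ fun y => ?_
    have := LinearMap.congr_fun hu (y, 0)
    simpa [laB_apply] using this
  have h2 : u.1 = 0 := by
    refine hB.nondeg _ fun y => ?_
    have := LinearMap.congr_fun hu (0, y)
    rw [hB.symm]
    simpa [laB_apply] using this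
  exact Prod.ext h2 h1

theorem la_card_pow : Fintype.card X = ℓ ^ Module.finrank (ZMod ℓ) X := by
  rw [← Nat.card_eq_fintype_card, Module.natCard_eq_pow_finrank (K := ZMod ℓ), Nat.card_zmod]

theorem la_card_sub (W : Submodule (ZMod ℓ) (X × X)) :
    Nat.card W = ℓ ^ Module.finrank (ZMod ℓ) W := by
  rw [Module.natCard_eq_pow_finrank (K := ZMod ℓ), Nat.card_zmod]

theorem la_fin_perp (hB : BGood B) (W : Submodule (ZMod ℓ) (X × X)) :
    Module.finrank (ZMod ℓ) W + Module.finrank (ZMod ℓ) (LinearMap.BilinForm.orthogonal (laB B) W) =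
      2 * Module.finrank (ZMod ℓ) X := by
  have h := LinearMap.BilinForm.finrank_add_finrank_orthogonal' (B := laB B) W
  have h2 : W ⊓ LinearMap.ker (laB B) = ⊥ := by rw [laB_ker B hB, inf_bot_eq]
  rw [h2, finrank_bot, add_zero, Module.finrank_prod] at h
  rw [h]
  ring

theorem la_iso_le (W : Submodule (ZMod ℓ) (X × X)) (hW : ∀ x ∈ W, ∀ y ∈ W, laB B x y = 0) :
    W ≤ LinearMap.BilinForm.orthogonal (laB B) W := by
  intro x hx
  rw [LinearMap.BilinForm.mem_orthogonal_iff]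
  intro y hy
  exact hW y hy x hx

theorem la_card (hB : BGood B) (W : Submodule (ZMod ℓ) (X × X))
    (hW : ∀ x ∈ W, ∀ y ∈ W, laB B x y = 0) : Nat.card W ≤ Fintype.card X := by
  rw [la_card_sub, la_card_pow (ℓ := ℓ)]
  refine Nat.pow_le_pow_right hl.out.pos ?_
  have h1 := la_fin_perp B hB W
  have h2 := Submodule.finrank_mono (la_iso_le B W hW)
  omega

theorem la_perp (hB : BGood B) (W : Submodule (ZMod ℓ) (X × X))
    (hW : ∀ x ∈ W, ∀ y ∈ W, laB B x y = 0) (hc : Nat.card W = Fintype.card X) (v : X × X)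
    (hv : ∀ w ∈ W, laB B v w = 0) : v ∈ W := by
  rw [la_card_sub, la_card_pow (ℓ := ℓ)] at hc
  have h0 : Module.finrank (ZMod ℓ) W = Module.finrank (ZMod ℓ) X :=
    Nat.pow_right_injective hl.out.two_le hc
  have h1 := la_fin_perp B hB W
  have h3 : W = LinearMap.BilinForm.orthogonal (laB B) W :=
    Submodule.eq_of_le_of_finrank_eq (la_iso_le B W hW) (by omega)
  rw [h3, LinearMap.BilinForm.mem_orthogonal_iff]
  intro w hw
  rw [laB_symm]
  exact hv w hw

theorem la_span (h2 : ℓ ≠ 2) (U : Finset (X × X)) (hU : (CDX B).Unl U) (u₀ : X × X)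
    (hu₀ : u₀ ∈ U) : ∃ W : Submodule (ZMod ℓ) (X × X), (∀ u ∈ U, u - u₀ ∈ W) ∧
      (∀ x ∈ W, ∀ y ∈ W, laB B x y = 0) ∧ ∀ w ∈ W, B w.2 w.1 = 0 := by
  have hQ : ∀ u ∈ U, ∀ w ∈ U, B (u - w).2 (u - w).1 = 0 := by
    intro u hu w hw
    have h := hU u hu w hw
    rw [lk_eq, neg_eq_zero] at h
    exact h
  have hgen : ∀ u ∈ U, ∀ w ∈ U, laB B (u - u₀) (w - u₀) = 0 := by
    intro u hu w hw
    have h := laB_sub B (u - u₀) (w - u₀)
    rw [sub_sub_sub_cancel_right, hQ u hu w hw, hQ u hu u₀ hu₀, hQ w hw u₀ hu₀, add_zero,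
      zero_sub] at h
    exact neg_eq_zero.1 h.symm
  let G : Set (X × X) := {x | ∃ u ∈ U, x = u - u₀}
  have h1 : ∀ y ∈ G, ∀ x ∈ Submodule.span (ZMod ℓ) G, laB B x y = 0 := by
    rintro _ ⟨w, hw, rfl⟩ x hx
    induction hx using Submodule.span_induction with
    | mem x hx =>
      obtain ⟨u, hu, rfl⟩ := hx
      exact hgen u hu w hw
    | zero => simp
    | add x y _ _ hx hy => rw [map_add, LinearMap.add_apply, hx, hy, add_zero]
    | smul c x _ hx => rw [map_smul, LinearMap.smul_apply, hx, smul_zero]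
  have h3 : ∀ x ∈ Submodule.span (ZMod ℓ) G, ∀ y ∈ Submodule.span (ZMod ℓ) G, laB B x y = 0 := by
    intro x hx y hy
    induction hy using Submodule.span_induction with
    | mem y hy => exact h1 y hy x hx
    | zero => simp
    | add y z _ _ hy hz => rw [map_add, hy, hz, add_zero]
    | smul c y _ hy => rw [map_smul, hy, smul_zero]
  refine ⟨Submodule.span (ZMod ℓ) G, fun u hu => Submodule.subset_span ⟨u, hu, rfl⟩, h3, ?_⟩
  intro w hw
  have h4 := h3 w hw w hw
  rw [laB_apply, ← two_mul] at h4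
  have h5 : (2 : ZMod ℓ) ≠ 0 := by
    intro h
    have h6 : ((2 : ℕ) : ZMod ℓ) = 0 := by exact_mod_cast h
    rw [ZMod.natCast_eq_zero_iff] at h6
    exact h2 ((Nat.prime_dvd_prime_iff_eq hl.out Nat.prime_two).1 h6)
  exact (mul_eq_zero.1 h4).resolve_left h5

theorem la_all (h2 : ℓ ≠ 2) (hB : BGood B) (U : Finset (X × X)) (hU : (CDX B).Unl U)
    (u₀ : X × X) (hu₀ : u₀ ∈ U) : ∃ W : Submodule (ZMod ℓ) (X × X), (∀ u ∈ U, u - u₀ ∈ W) ∧
      (∀ x ∈ W, ∀ y ∈ W, laB B x y = 0) ∧ (∀ w ∈ W, B w.2 w.1 = 0) ∧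
      U.card ≤ Nat.card W ∧ Nat.card W ≤ Fintype.card X ∧
      (U.card = Fintype.card X → Nat.card W = Fintype.card X ∧ ∀ u, u ∈ U ↔ u - u₀ ∈ W) := by
  classical
  obtain ⟨W, hW1, hW2, hW3⟩ := la_span B h2 U hU u₀ hu₀
  have hfin : Finite W := inferInstance
  have hinj : Function.Injective (fun u : U => (⟨u.1 - u₀, hW1 u.1 u.2⟩ : W)) := by
    intro u u' h
    have h3 : u.1 - u₀ = u'.1 - u₀ := congrArg Subtype.val h
    exact Subtype.ext (sub_left_injective h3)
  have hle : U.card ≤ Nat.card W := by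
    have h3 := Nat.card_le_card_of_injective _ hinj
    rwa [Nat.card_eq_fintype_card, Fintype.card_coe] at h3
  have hle2 := la_card B hB W hW2
  refine ⟨W, hW1, hW2, hW3, hle, hle2, fun hc => ?_⟩
  have hWc : Nat.card W = Fintype.card X := le_antisymm hle2 (hc ▸ hle)
  refine ⟨hWc, fun u => ⟨hW1 u, fun hu => ?_⟩⟩
  have hsurj : Function.Surjective (fun u : U => (⟨u.1 - u₀, hW1 u.1 u.2⟩ : W)) := by
    have : Fintype W := Fintype.ofFinite W
    refine ((Fintype.bijective_iff_injective_and_card _).2 ⟨hinj, ?_⟩).2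
    rw [Fintype.card_coe, hc, ← hWc, Nat.card_eq_fintype_card]
  obtain ⟨u', hu'⟩ := hsurj ⟨u - u₀, hu⟩
  have h3 : u'.1 - u₀ = u - u₀ := congrArg Subtype.val hu'
  rw [← sub_left_injective h3]
  exact u'.2

/-- the structure of the maximal unlinked sets: cosets of Lagrangian subspaces -/
theorem la_str (h2 : ℓ ≠ 2) (hB : BGood B) (U : Finset (X × X)) (hU : (CDX B).Unl U)
    (hcard : U.card = Fintype.card X) :
    ∃ (u₀ : X × X) (W : Submodule (ZMod ℓ) (X × X)), (∀ u, u ∈ U ↔ u - u₀ ∈ W) ∧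
      (∀ w ∈ W, B w.2 w.1 = 0) ∧ Nat.card W = Fintype.card X := by
  have hpos : 0 < U.card := by
    rw [hcard]
    exact Fintype.card_pos_iff.2 ⟨0⟩
  obtain ⟨u₀, hu₀⟩ := Finset.card_pos.1 hpos
  obtain ⟨W, -, -, hW3, -, -, hW6⟩ := la_all B h2 hB U hU u₀ hu₀
  obtain ⟨h3, h4⟩ := hW6 hcard
  exact ⟨u₀, W, h4, hW3, h3⟩

theorem cdx_good (h2 : ℓ ≠ 2) (hB : BGood B) : (CDX B).Good where
  pos := Fintype.card_pos_iff.2 ⟨0⟩
  self u := by
    show B u.2 (u.1 - u.1) = 0
    rw [sub_self, map_zero]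
  card_le U hU := by
    rcases U.eq_empty_or_nonempty with rfl | ⟨u₀, hu₀⟩
    · rw [Finset.card_empty]
      exact Nat.zero_le _
    · obtain ⟨W, -, -, -, h4, h5, -⟩ := la_all B h2 hB U hU u₀ hu₀
      exact h4.trans h5
  nonconst U hU hc w hw := by
    by_contra hcon
    push Not at hcon
    have hpos : 0 < U.card := by
      rw [hc]
      exact Fintype.card_pos_iff.2 ⟨0⟩
    obtain ⟨u₀, hu₀⟩ := Finset.card_pos.1 hpos
    obtain ⟨W, -, hW2, hW3, -, -, hW6⟩ := la_all B h2 hB U hU u₀ hu₀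
    obtain ⟨h3, h4⟩ := hW6 hc
    apply hw
    rw [h4]
    have h5 : u₀ - w ∈ W := by
      refine la_perp B hB W hW2 h3 _ fun h hh => ?_
      have h6 : u₀ + h ∈ U := by
        rw [h4, add_sub_cancel_left]
        exact hh
      have h7 := hcon u₀ hu₀ (u₀ + h) h6
      rw [lk_eq, lk_eq, neg_inj] at h7
      have h8 := laB_add B (u₀ - w) h
      have h9 : u₀ - w + h = u₀ + h - w := by abel
      rw [h9, hW3 h hh, add_zero] at h8
      have h10 : B (u₀ - w).2 (u₀ - w).1 = B (u₀ + h - w).2 (u₀ + h - w).1 := h7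
      rw [h8] at h10
      exact (left_eq_add.1 h10)
    have h6 := W.neg_mem h5
    rwa [neg_sub] at h6

end Pool.Agent.H94.PL
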