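import Pool.Agent.H94.PL.CM
import Pool.Agent.H94.PC.Tup
import Pool.Agent.H94.PC.SumMult

set_option autoImplicit false

/-!
# [H94 PL SM] Sums over factorizations of squarefree polynomials (complex values)

`tupc`: apply `PC.tup` to the real and the imaginary part (`Complex.ext`, `Complex.re_sum`,
`apply_ite`), or copy its proof.
`sum_multc`: adapt the proof of `PC.sum_mult` (`PC/SumMult.lean`) to complex values, with `CMc`
instead of `CM`; `c` is a complex constant.
-/

namespace Pool.Agent.H94.PL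

open Polynomial
open Pool.Agent.H94.PC (Mo Sq Pr pf om Mn mem_Mo mem_Sq mem_Pr mem_pf mem_pf' part)

variable {F : Type} [Field F] [Finite F] {κ : Type} [Fintype κ] [DecidableEq κ]

open Classical in
theorem tupc (n : ℕ) (S : Finset F[X])
    (hS : ∀ D ∈ S, D.Monic ∧ Squarefree D ∧ D.natDegree ≤ n) (G : F[X] → (κ → F[X]) → ℂ) :
    ∑ D ∈ S, ∑ v : pf D → κ, G D (part D v) =
      ∑ x : κ → Mn F n, if (∏ i, (x i).1) ∈ S then G (∏ i, (x i).1) (fun i => (x i).1) else 0 := by
  apply Complex.ext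
  · rw [Complex.re_sum, Complex.re_sum]
    have h := PC.tup n S hS (fun D x => (G D x).re)
    refine Eq.trans (Finset.sum_congr rfl fun D _ => ?_) (h.trans (Finset.sum_congr rfl
      fun x _ => ?_))
    · rw [Complex.re_sum]
    · split_ifs
      · rfl
      · exact Complex.zero_re.symm
  · rw [Complex.im_sum, Complex.im_sum]
    have h := PC.tup n S hS (fun D x => (G D x).im)
    refine Eq.trans (Finset.sum_congr rfl fun D _ => ?_) (h.trans (Finset.sum_congr rfl
      fun x _ => ?_))
    · rw [Complex.im_sum]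
    · split_ifs
      · rfl
      · exact Complex.zero_im.symm

omit [Finite F] in
theorem sm_prod {θ : F[X] → ℂ} (hθ : CMc θ) {ι : Type*} (s : Finset ι) (f : ι → F[X])
    (hf : ∀ i ∈ s, (f i).Monic) : θ (∏ i ∈ s, f i) = ∏ i ∈ s, θ (f i) := by
  classical
  induction s using Finset.induction_on with
  | empty => simpa using hθ.one
  | insert a s ha ih =>
    rw [Finset.prod_insert ha, Finset.prod_insert ha,
      hθ.mul _ _ (hf a (Finset.mem_insert_self _ _))
        (monic_prod_of_monic _ _ fun i hi => hf i (Finset.mem_insert_of_mem hi)),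
      ih fun i hi => hf i (Finset.mem_insert_of_mem hi)]

omit [Fintype κ] in
theorem sm_part {θ : F[X] → ℂ} (hθ : CMc θ) (D : F[X]) (v : pf D → κ) (i : κ) :
    θ (part D v i) = ∏ P : pf D, if v P = i then θ P.1 else 1 := by
  unfold PC.part
  rw [sm_prod hθ]
  · apply Finset.prod_congr rfl
    intro P _
    split_ifs
    · rfl
    · exact hθ.one
  · intro P _
    split_ifs
    · exact (mem_pf' P.2).1
    · exact monic_one

open Classical in
theorem sm_D (D : F[X]) (ε : κ → F[X] → ℂ) (hε : ∀ i, CMc (ε i)) (c : ℂ) :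
    ∑ v : pf D → κ, c ^ om D * ∏ i, ε i (part D v i) = ∏ P ∈ pf D, (c * ∑ i, ε i P) := by
  have h1 : ∀ v : pf D → κ, ∏ i, ε i (part D v i) = ∏ P : pf D, ε (v P) P.1 := by
    intro v
    rw [Finset.prod_congr rfl (fun i _ => sm_part (hε i) D v i), Finset.prod_comm]
    apply Finset.prod_congr rfl
    intro P _
    rw [Finset.prod_ite_eq, if_pos (Finset.mem_univ _)]
  rw [Finset.sum_congr rfl (fun v _ => by rw [h1 v]), ← Finset.mul_sum]
  have h2 : ∑ v : pf D → κ, ∏ P : pf D, ε (v P) P.1 = ∏ P : pf D, ∑ i, ε i P.1 := by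
    rw [Finset.prod_univ_sum, Fintype.piFinset_univ]
  rw [h2, Finset.prod_coe_sort (pf D) (fun P => ∑ i, ε i P), Finset.prod_mul_distrib,
    Finset.prod_const]
  rfl

open Classical in
theorem sum_multc (n : ℕ) (S : Finset F[X])
    (hS : ∀ D ∈ S, D.Monic ∧ Squarefree D ∧ D.natDegree ≤ n) (η : κ → F[X] → ℂ)
    (hη : ∀ i, CMc (η i)) (c : ℂ) :
    ∑ x : κ → Mn F n, (if (∏ i, (x i).1) ∈ S then
      c ^ om (∏ i, (x i).1) * ∏ i, η i (x i).1 else 0) =
      ∑ D ∈ S, ∏ P ∈ pf D, (c * ∑ i, η i P) := by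
  have h := tupc n S hS (fun D x => c ^ om D * ∏ i, η i (x i))
  refine Eq.trans h.symm ?_
  apply Finset.sum_congr rfl
  intro D _
  exact sm_D D η hη c

end Pool.Agent.H94.PL
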