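import Pool.Agent.H94.PL.Fou
import Pool.Agent.H94.PL.Sm
import Pool.Agent.H94.PL.La

set_option autoImplicit false

/-!
# [H94 PL TOT] The total number of solutions as a sum over configurations

`tot_term`: for `D ∈ Cls Δ n` and `z : pf D → X × X` with parts `D_u = part D z u` (`PC.part`), the exponent in `fou` is
`θ₀(π) + ∑ P, (b_π(z_P) deg P + ∑ v, g_π(z_P)(v) lm v P) + ∑ P, ∑ Q, lm Q P * B (z P).2 ((z Q).1 - (z P).1)`
with `θ₀` = `th0` (expand `EI`, `EV`, `EP`; `map_add`, `map_sum`, `map_smul`; `lm P v = lm v P` (`lm_recip`); the terms with `lm v P`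
are `(B c (eps v) + d v) * (B x (eps v) + s v)`: uses `hB.symm`).
Group the primes by `u = z P`: `∑ P, b(z_P) deg P = ∑ u, b u * deg (D_u)`,
`∑ P, g(z_P)(v) lm v P = ∑ u, g u v * lm v (D_u)` (`lm_prod_right`, all coprime: `v ∣ Δ`, `D` prime to `Δ`), and
`∑ P Q, lm Q P * Phi (z P) (z Q) = ∑ u w, Phi u w * lm (D_w) (D_u)` (for `u ≠ w` by `lm_prod_left`,
`lm_prod_right`; for `u = w` both sides are `0`: `Phi u u = B c (x - x) = 0`).
So the summand is `ps (th0) * termL χ (CDX B) Δ (bp B sy π) (gp B sy π) (part D z)` (`om (∏ part) = om D`, `PC.part_prod`).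
`total`: sum over `D ∈ Cls Δ n` and use `tupc` with `S = Cls Δ n`.
-/

namespace Pool.Agent.H94.PL

open Polynomial
open Pool.Agent.H94.PC (Mo Sq Pr pf om Mn mem_Mo mem_Sq mem_Pr mem_pf mem_pf' part)

variable {ℓ : ℕ} [hl : Fact ℓ.Prime] {X : Type} [AddCommGroup X] [Module (ZMod ℓ) X] [Fintype X]
  [DecidableEq X] (B : X →ₗ[ZMod ℓ] X →ₗ[ZMod ℓ] ZMod ℓ)
  {F : Type} [Field F] [Finite F] (χ : LChar F ℓ) {Δ : F[X]}

/-- the constant part of the exponent -/
noncomputable def th0 (sy : Sys ℓ X (pf Δ)) (π : Pm ℓ X (pf Δ)) : ZMod ℓ :=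
  ∑ v : pf Δ, π.2.2.2 v * ((v.1.natDegree : ZMod ℓ) * B π.1 (sy.eps v) +
    ∑ v' : pf Δ, sy.rho v v' * π.2.2.1 v') +
    B π.2.1 (∑ v : pf Δ, ((v.1.natDegree : ZMod ℓ) * π.2.2.1 v) • sy.eps v)

theorem tot_deg {κ : Type} [DecidableEq κ] (D : F[X]) (z : pf D → κ) (u : κ) :
    ((part D z u).natDegree : ZMod ℓ)
      = ∑ P : pf D, if z P = u then (P.1.natDegree : ZMod ℓ) else 0 := by
  unfold part
  rw [natDegree_prod_of_monic]
  · rw [Nat.cast_sum]
    refine Finset.sum_congr rfl fun P _ => ?_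
    split_ifs
    · rfl
    · rw [natDegree_one, Nat.cast_zero]
  · intro P _
    split_ifs
    · exact (mem_pf' P.2).1
    · exact monic_one

theorem tot_lmr {κ : Type} [DecidableEq κ] (D : F[X]) (z : pf D → κ) (u : κ) (A : F[X])
    (hA : ∀ P : pf D, z P = u → IsCoprime A P.1) :
    lm χ A (part D z u) = ∑ P : pf D, if z P = u then lm χ A P.1 else 0 := by
  unfold part
  rw [lm_prod_right]
  · refine Finset.sum_congr rfl fun P _ => ?_
    split_ifs
    · rfl
    · rw [lm_one_right]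
  · intro P _
    split_ifs
    · exact (mem_pf' P.2).1
    · exact monic_one
  · intro P _
    split_ifs with h
    · exact hA P h
    · exact isCoprime_one_right

theorem tot_lml {κ : Type} [DecidableEq κ] (D : F[X]) (z : pf D → κ) (u : κ) {A : F[X]}
    (hA1 : A.Monic) (hA : ∀ P : pf D, z P = u → IsCoprime P.1 A) :
    lm χ (part D z u) A = ∑ P : pf D, if z P = u then lm χ P.1 A else 0 := by
  unfold part
  rw [lm_prod_left χ _ _ hA1]
  · refine Finset.sum_congr rfl fun P _ => ?_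
    split_ifs
    · rfl
    · rw [lm_one_left χ hA1]
  · intro P _
    split_ifs with h
    · exact hA P h
    · exact isCoprime_one_left

theorem tot_cop {D : F[X]} (P Q : pf D) (h : P ≠ Q) : IsCoprime P.1 Q.1 := by
  obtain ⟨h1, h2, _⟩ := mem_pf' P.2
  obtain ⟨h3, h4, _⟩ := mem_pf' Q.2
  by_cases h5 : P.1 ∣ Q.1
  swap
  · exact h2.coprime_iff_not_dvd.2 h5
  · exfalso
    have h6 : Associated P.1 Q.1 := h2.associated_of_dvd h4 h5
    exact h (Subtype.ext (eq_of_monic_of_associated h1 h3 h6))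

theorem tot_pair {κ : Type} [DecidableEq κ] (D : F[X]) (z : pf D → κ) (u w : κ) (h : u ≠ w) :
    lm χ (part D z w) (part D z u) =
      ∑ P : pf D, ∑ Q : pf D, if z P = u then (if z Q = w then lm χ Q.1 P.1 else 0) else 0 := by
  have h1 : ∀ P : pf D, z P = u → ∀ Q : pf D, z Q = w → IsCoprime Q.1 P.1 := by
    intro P hP Q hQ
    apply tot_cop
    rintro rfl
    exact h (hP.symm.trans hQ)
  rw [tot_lmr χ D z u]
  · refine Finset.sum_congr rfl fun P _ => ?_
    by_cases hP : z P = u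
    · rw [if_pos hP, tot_lml χ D z w (mem_pf' P.2).1 (fun Q hQ => h1 P hP Q hQ)]
      refine Finset.sum_congr rfl fun Q _ => ?_
      rw [if_pos hP]
    · rw [if_neg hP]
      exact (Finset.sum_eq_zero fun Q _ => if_neg hP).symm
  · intro P hP
    unfold part
    apply IsCoprime.prod_left
    intro Q _
    split_ifs with hQ
    · exact h1 P hP Q hQ
    · exact isCoprime_one_left

/-- regrouping of a sum over the primes by colours -/
theorem tot_grp {ι κ : Type} [Fintype ι] [Fintype κ] [DecidableEq κ] (z : ι → κ)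
    (f : κ → ι → ZMod ℓ) :
    ∑ u, ∑ P : ι, (if z P = u then f u P else 0) = ∑ P : ι, f (z P) P := by
  rw [Finset.sum_comm]
  refine Finset.sum_congr rfl fun P _ => ?_
  rw [Finset.sum_ite_eq]
  simp

theorem tot_grp2 {ι κ : Type} [Fintype ι] [Fintype κ] [DecidableEq κ] (z : ι → κ)
    (f : κ → κ → ι → ι → ZMod ℓ) :
    ∑ u, ∑ w, ∑ P : ι, ∑ Q : ι, (if z P = u then (if z Q = w then f u w P Q else 0) else 0)
      = ∑ P : ι, ∑ Q : ι, f (z P) (z Q) P Q := by
  have h1 : ∀ u, ∑ w, ∑ P : ι, ∑ Q : ι, (if z P = u then (if z Q = w then f u w P Q else 0) else 0)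
      = ∑ P : ι, if z P = u then ∑ Q : ι, f u (z Q) P Q else 0 := by
    intro u
    rw [Finset.sum_comm]
    refine Finset.sum_congr rfl fun P _ => ?_
    by_cases h : z P = u
    · simp only [if_pos h]
      exact tot_grp z (fun w Q => f u w P Q)
    · simp only [if_neg h]
      simp
  rw [Finset.sum_congr rfl fun u _ => h1 u]
  exact tot_grp z (fun u P => ∑ Q : ι, f u (z Q) P Q)

/-- the exponent of a configuration -/
theorem tot_termL (C : CD (X × X) ℓ) (hself : ∀ u, C.Phi u u = 0) (b : X × X → ZMod ℓ)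
    (g : X × X → pf Δ → ZMod ℓ) {n : ℕ} {D : F[X]} (hD : D ∈ Cls Δ n) (z : pf D → X × X) :
    termL χ C Δ b g (part D z) = (1 / (C.N : ℂ)) ^ om D *
      ps (∑ P : pf D, (b (z P) * (P.1.natDegree : ZMod ℓ) +
        ∑ v : pf Δ, g (z P) v * lm χ v.1 P.1) +
        ∑ P : pf D, ∑ Q : pf D, C.Phi (z P) (z Q) * lm χ Q.1 P.1) := by
  obtain ⟨hD1, hD2, hD3, hD4⟩ := mem_Cls.1 hD
  have hcop : ∀ (P : pf D) (v : pf Δ), IsCoprime v.1 P.1 := by
    intro P v
    have h1 : IsCoprime D v.1 := hD4.of_isCoprime_of_dvd_right (mem_pf' v.2).2.2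
    exact (h1.of_isCoprime_of_dvd_left (mem_pf' P.2).2.2).symm
  unfold termL
  rw [PC.part_prod hD1 hD3 z, mul_assoc]
  congr 1
  rw [ps_add]
  congr 1
  · have h1 : ∀ u, et χ Δ b g u (part D z u) = ps (∑ P : pf D, if z P = u then
        (b u * (P.1.natDegree : ZMod ℓ) + ∑ v : pf Δ, g u v * lm χ v.1 P.1) else 0) := by
      intro u
      unfold et
      rw [← ps_sum, ← ps_add]
      congr 1
      rw [tot_deg, Finset.mul_sum]
      have h2 : ∀ v : pf Δ, g u v * lm χ v.1 (part D z u)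
          = ∑ P : pf D, if z P = u then g u v * lm χ v.1 P.1 else 0 := by
        intro v
        rw [tot_lmr χ D z u v.1 (fun P _ => hcop P v), Finset.mul_sum]
        refine Finset.sum_congr rfl fun P _ => ?_
        rw [mul_ite, mul_zero]
      rw [Finset.sum_congr rfl fun v _ => h2 v, Finset.sum_comm, ← Finset.sum_add_distrib]
      refine Finset.sum_congr rfl fun P _ => ?_
      by_cases h : z P = u
      · simp only [if_pos h]
      · simp only [if_neg h]
        simp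
    rw [Finset.prod_congr rfl fun u _ => h1 u, ← ps_sum]
    congr 1
    exact tot_grp z (fun u P => b u * (P.1.natDegree : ZMod ℓ) + ∑ v : pf Δ, g u v * lm χ v.1 P.1)
  · rw [Finset.prod_congr rfl fun u _ => (ps_sum Finset.univ fun w =>
      C.Phi u w * lm χ (part D z w) (part D z u)).symm, ← ps_sum]
    congr 1
    have h1 : ∀ u w, C.Phi u w * lm χ (part D z w) (part D z u)
        = ∑ P : pf D, ∑ Q : pf D,
          (if z P = u then (if z Q = w then C.Phi u w * lm χ Q.1 P.1 else 0) else 0) := by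
      intro u w
      by_cases h : u = w
      · subst h
        rw [hself, zero_mul]
        refine (Finset.sum_eq_zero fun P _ => Finset.sum_eq_zero fun Q _ => ?_).symm
        rw [zero_mul]
        split_ifs <;> rfl
      · rw [tot_pair χ D z u w h, Finset.mul_sum]
        refine Finset.sum_congr rfl fun P _ => ?_
        rw [Finset.mul_sum]
        refine Finset.sum_congr rfl fun Q _ => ?_
        split_ifs <;> simp
    rw [Finset.sum_congr rfl fun u _ => Finset.sum_congr rfl fun w _ => h1 u w]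
    exact tot_grp2 z (fun u w P Q => C.Phi u w * lm χ Q.1 P.1)

open Classical in
theorem tot_term (h2 : ℓ ≠ 2) (hB : BGood B) (sy : Sys ℓ X (pf Δ)) {n : ℕ} {D : F[X]}
    (hD : D ∈ Cls Δ n) (π : Pm ℓ X (pf Δ)) (z : pf D → X × X) :
    (1 / (Fintype.card X : ℂ)) ^ om D *
          ps (B π.2.1 (EI sy D (π.1, π.2.2.1, fun P => (z P).1)) +
            ∑ v, π.2.2.2 v * EV χ B sy D (π.1, π.2.2.1, fun P => (z P).1) v +
            ∑ P, B (z P).2 (EP χ B sy D (π.1, π.2.2.1, fun P => (z P).1) P)) =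
      ps (th0 B sy π) * termL χ (CDX B) Δ (bp B sy π) (gp B sy π) (part D z) := by
  rw [tot_termL χ (CDX B) (fun u => by
    show B u.2 (u.1 - u.1) = 0
    rw [sub_self, map_zero]) (bp B sy π) (gp B sy π) hD z]
  have hN : ((CDX B).N : ℂ) = (Fintype.card X : ℂ) := rfl
  rw [hN, mul_left_comm (ps (th0 B sy π)), ← ps_add]
  congr 2
  have e1 : B π.2.1 (EI sy D (π.1, π.2.2.1, fun P => (z P).1)) =
      ∑ P : pf D, (P.1.natDegree : ZMod ℓ) * B π.2.1 (z P).1 +
      B π.2.1 (∑ v : pf Δ, ((v.1.natDegree : ZMod ℓ) * π.2.2.1 v) • sy.eps v) := by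
    unfold EI
    rw [map_add, map_sum]
    congr 1
    refine Finset.sum_congr rfl fun P _ => ?_
    rw [map_smul, smul_eq_mul]
  have e2 : ∀ v : pf Δ, π.2.2.2 v * EV χ B sy D (π.1, π.2.2.1, fun P => (z P).1) v =
      π.2.2.2 v * ((v.1.natDegree : ZMod ℓ) * B π.1 (sy.eps v) +
        ∑ v' : pf Δ, sy.rho v v' * π.2.2.1 v') +
      ∑ P : pf D, π.2.2.2 v * (B (z P).1 (sy.eps v) + π.2.2.1 v) * lm χ v.1 P.1 := by
    intro v
    unfold EV
    have e3 : ∑ P : pf D, π.2.2.2 v * (B (z P).1 (sy.eps v) + π.2.2.1 v) * lm χ v.1 P.1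
        = π.2.2.2 v * (∑ P : pf D, B (z P).1 (sy.eps v) * lm χ P.1 v.1 +
          π.2.2.1 v * ∑ P : pf D, lm χ P.1 v.1) := by
      rw [Finset.mul_sum, ← Finset.sum_add_distrib, Finset.mul_sum]
      refine Finset.sum_congr rfl fun P _ => ?_
      rw [lm_recip χ h2 v.1 P.1]
      ring
    rw [e3]
    ring
  have e4 : ∀ P : pf D, B (z P).2 (EP χ B sy D (π.1, π.2.2.1, fun P => (z P).1) P) =
      ∑ Q : pf D, (CDX B).Phi (z P) (z Q) * lm χ Q.1 P.1 +
      (P.1.natDegree : ZMod ℓ) * (B (z P).2 π.1 + B (z P).2 (sy.bet (z P).1)) +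
      ∑ v : pf Δ, (B (z P).1 (sy.eps v) + π.2.2.1 v) * B (z P).2 (sy.eps v) * lm χ v.1 P.1 := by
    intro P
    unfold EP
    rw [map_add, map_add, map_sum, map_sum, map_smul, smul_eq_mul, map_add]
    congr 1
    · congr 1
      refine Finset.sum_congr rfl fun Q _ => ?_
      rw [map_smul, smul_eq_mul, mul_comm]
      rfl
    · refine Finset.sum_congr rfl fun v _ => ?_
      rw [map_smul, smul_eq_mul, hB.symm (sy.eps v)]
      ring
  rw [e1, Finset.sum_congr rfl fun v _ => e2 v, Finset.sum_congr rfl fun P _ => e4 P]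
  unfold th0 bp gp
  have e5 : ∑ v : pf Δ, ∑ P : pf D, π.2.2.2 v * (B (z P).1 (sy.eps v) + π.2.2.1 v) * lm χ v.1 P.1
      = ∑ P : pf D, ∑ v : pf Δ, π.2.2.2 v * (B (z P).1 (sy.eps v) + π.2.2.1 v) * lm χ v.1 P.1 :=
    Finset.sum_comm
  simp only [Finset.sum_add_distrib]
  rw [e5]
  have e6 : ∑ P : pf D, ∑ v : pf Δ, (B (z P).2 (sy.eps v) + π.2.2.2 v) *
      (B (z P).1 (sy.eps v) + π.2.2.1 v) * lm χ v.1 P.1 =
      ∑ P : pf D, ∑ v : pf Δ, π.2.2.2 v * (B (z P).1 (sy.eps v) + π.2.2.1 v) * lm χ v.1 P.1 +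
      ∑ P : pf D, ∑ v : pf Δ,
        (B (z P).1 (sy.eps v) + π.2.2.1 v) * B (z P).2 (sy.eps v) * lm χ v.1 P.1 := by
    rw [← Finset.sum_add_distrib]
    refine Finset.sum_congr rfl fun P _ => ?_
    rw [← Finset.sum_add_distrib]
    refine Finset.sum_congr rfl fun v _ => ?_
    ring
  have e7 : ∑ P : pf D, (B (z P).2 π.1 + B (z P).2 (sy.bet (z P).1) + B π.2.1 (z P).1) *
      (P.1.natDegree : ZMod ℓ) =
      ∑ P : pf D, (P.1.natDegree : ZMod ℓ) * B π.2.1 (z P).1 +
      ∑ P : pf D, (P.1.natDegree : ZMod ℓ) * (B (z P).2 π.1 + B (z P).2 (sy.bet (z P).1)) := by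
    rw [← Finset.sum_add_distrib]
    refine Finset.sum_congr rfl fun P _ => ?_
    ring
  rw [e6, e7]
  ring

open Classical in
theorem total (h2 : ℓ ≠ 2) (hB : BGood B) (sy : Sys ℓ X (pf Δ)) (n : ℕ) :
    (Fintype.card X : ℂ) * (ℓ : ℂ) ^ (pf Δ).card *
        ∑ D ∈ Cls Δ n, (Nat.card (KerL χ B sy D) : ℂ) =
      ∑ π : Pm ℓ X (pf Δ), ps (th0 B sy π) *
        ∑ x : X × X → Mn F n, WL χ (CDX B) Δ (bp B sy π) (gp B sy π) n x := by
  have h1 : (Fintype.card X : ℂ) * (ℓ : ℂ) ^ (pf Δ).card *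
      ∑ D ∈ Cls Δ n, (Nat.card (KerL χ B sy D) : ℂ) =
      ∑ D ∈ Cls Δ n, ∑ π : Pm ℓ X (pf Δ), ps (th0 B sy π) * ∑ z : pf D → X × X,
        termL χ (CDX B) Δ (bp B sy π) (gp B sy π) (part D z) := by
    rw [Finset.mul_sum]
    refine Finset.sum_congr rfl fun D hD => ?_
    rw [fou B χ hB sy D]
    refine Finset.sum_congr rfl fun π _ => ?_
    rw [Finset.mul_sum]
    refine Finset.sum_congr rfl fun z _ => ?_
    exact tot_term B χ h2 hB sy hD π z
  rw [h1, Finset.sum_comm]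
  refine Finset.sum_congr rfl fun π _ => ?_
  rw [← Finset.mul_sum]
  congr 1
  have h3 := tupc (κ := X × X) n (Cls Δ n) (fun D hD => by
    obtain ⟨h4, h5, h6, _⟩ := mem_Cls.1 hD
    exact ⟨h4, h6, h5.le⟩)
    (fun _ x => termL χ (CDX B) Δ (bp B sy π) (gp B sy π) x)
  refine Eq.trans ?_ (h3.trans ?_)
  · rfl
  · refine Finset.sum_congr rfl fun x _ => ?_
    unfold WL
    rfl

end Pool.Agent.H94.PL
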