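import Pool.Agent.H94.PL.Lkc

set_option autoImplicit false

/-!
# [H94 PL LKS] The contribution of the linked configurations

`R : (V → ℕ) → Prop` is a condition on the degrees which implies that there are linked `i, j` with
`z ≤ d i`, `z ≤ d j`.  Split the sum according to the degree vector
`d ∈ Fintype.piFinset fun _ => Finset.range (n + 1)` (all degrees are `≤ n`), `(n + 1) ^ |V|` vectors
(`Finset.sum_fiberwise_of_maps_to`); for each `d` with `R d` use `lk_deg`, the others contribute `0`.
-/

namespace Pool.Agent.H94.PL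

open Polynomial
open Pool.Agent.H94.PC (Mo Sq Pr pf om Mn mem_Mo mem_Sq mem_Pr mem_pf mem_pf')

variable {F : Type} [Field F] [Finite F] {ℓ : ℕ} [hl : Fact ℓ.Prime]
  {V : Type} [Fintype V] [DecidableEq V]

open Classical in
theorem lk_sum (χ : LChar F ℓ) (h2 : ℓ ≠ 2) (C : CD V ℓ) (hC : C.Good) (Δ : F[X])
    (b : V → ZMod ℓ) (g : V → pf Δ → ZMod ℓ) (n z : ℕ) (R : (V → ℕ) → Prop)
    (hR : ∀ d, R d → ∃ i j, C.lk i j ≠ 0 ∧ z ≤ d i ∧ z ≤ d j) :
    ‖∑ x : V → Mn F n, (if R fun u => (x u).1.natDegree then WL χ C Δ b g n x else 0)‖ ≤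
      ((n : ℝ) + 1) ^ (Fintype.card V + 1) * (Nat.card F : ℝ) ^ n *
        (Nat.card F : ℝ) ^ (-(z : ℝ) / 4) := by
  obtain ⟨G, hG⟩ : ∃ G : (V → Mn F n) → ℂ, G = fun x =>
      (if R fun u => (x u).1.natDegree then WL χ C Δ b g n x else 0) := ⟨_, rfl⟩
  obtain ⟨T, hT⟩ : ∃ T : Finset (V → ℕ), T = Fintype.piFinset
      (fun _ : V => Finset.range (n + 1)) := ⟨_, rfl⟩
  obtain ⟨Bd, hBd⟩ : ∃ Bd : ℝ, Bd = (n + 1) * (Nat.card F : ℝ) ^ n *
      (Nat.card F : ℝ) ^ (-(z : ℝ) / 4) := ⟨_, rfl⟩
  have hBd0 : 0 ≤ Bd := by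
    rw [hBd]
    positivity
  have hcls : ∀ x : V → Mn F n, (fun u => (x u).1.natDegree) ∈ T := by
    intro x
    rw [hT, Fintype.mem_piFinset]
    intro u
    rw [Finset.mem_range]
    have := (x u).2.2.2
    omega
  have hsplit : ∑ x : V → Mn F n, G x =
      ∑ d ∈ T, ∑ x : V → Mn F n, (if ∀ u, (x u).1.natDegree = d u then G x else 0) := by
    rw [Finset.sum_comm]
    refine Finset.sum_congr rfl fun x _ => ?_
    rw [Finset.sum_eq_single (fun u => (x u).1.natDegree)]
    · rw [if_pos (fun u => rfl)]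
    · intro d _ hd
      rw [if_neg]
      intro h
      apply hd
      funext u
      exact (h u).symm
    · intro h
      exact absurd (hcls x) h
  have hone : ∀ d ∈ T, ‖∑ x : V → Mn F n,
      (if ∀ u, (x u).1.natDegree = d u then G x else 0)‖ ≤ Bd := by
    intro d _
    by_cases hQ : R d
    · obtain ⟨i, j, hij, hi, hj⟩ := hR d hQ
      have e : ∑ x : V → Mn F n, (if ∀ u, (x u).1.natDegree = d u then G x else 0) =
          ∑ x : V → Mn F n,
          (if ∀ u, (x u).1.natDegree = d u then WL χ C Δ b g n x else 0) := by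
        refine Finset.sum_congr rfl fun x _ => ?_
        by_cases hx : ∀ u, (x u).1.natDegree = d u
        · rw [if_pos hx, if_pos hx, hG]
          have hx' : (fun u => (x u).1.natDegree) = d := funext hx
          show (if _ then _ else _) = _
          rw [if_pos]
          rw [hx']
          exact hQ
        · rw [if_neg hx, if_neg hx]
      rw [e, hBd]
      exact lk_deg χ h2 C hC Δ b g n z d i j hij hi hj
    · have e : ∑ x : V → Mn F n, (if ∀ u, (x u).1.natDegree = d u then G x else 0) = 0 := by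
        refine Finset.sum_eq_zero fun x _ => ?_
        by_cases hx : ∀ u, (x u).1.natDegree = d u
        · rw [if_pos hx, hG]
          have hx' : (fun u => (x u).1.natDegree) = d := funext hx
          show (if _ then _ else _) = _
          rw [if_neg]
          rw [hx']
          exact hQ
        · rw [if_neg hx]
      rw [e, norm_zero]
      exact hBd0
  have hcard : (T.card : ℝ) = ((n : ℝ) + 1) ^ Fintype.card V := by
    have h : T.card = (n + 1) ^ Fintype.card V := by
      rw [hT, Fintype.card_piFinset, Finset.prod_const, Finset.card_range]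
      rfl
    rw [h]
    push_cast
    ring
  calc ‖∑ x : V → Mn F n, (if R fun u => (x u).1.natDegree then WL χ C Δ b g n x else 0)‖ =
        ‖∑ x : V → Mn F n, G x‖ := by rw [hG]
    _ ≤ ∑ d ∈ T, ‖∑ x : V → Mn F n, (if ∀ u, (x u).1.natDegree = d u then G x else 0)‖ := by
        rw [hsplit]
        exact norm_sum_le _ _
    _ ≤ ∑ d ∈ T, Bd := Finset.sum_le_sum hone
    _ = (T.card : ℝ) * Bd := by rw [Finset.sum_const, nsmul_eq_mul]
    _ = _ := by
        rw [hcard, hBd]
        ring

end Pool.Agent.H94.PL
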