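import Pool.Agent.H94.PL.Tu
import Pool.Agent.H94.PL.Lks

set_option autoImplicit false

/-!
# [H94 PL ANA] The main estimate with explicit error terms

For `x : V → Mn F n` let `J = {u : z ≤ deg x_u}`.  Exactly one of:
(a) `#J < N`; (b) `#J ≥ N` and `J` contains a linked pair; (c) `J` is unlinked and `#J = N`
(`hC.card_le`).  So `∑ WL = ∑_(a) + ∑_(b) + ∑ U, ∑_{J = U} WL`, `U` unlinked of cardinality `N`.
(a): `‖WL‖ ≤ (1/N)^om` (`norm_WL_le`: all factors of `termL` have norm one) and `few`.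
(b): `lk_sum` with `R d = (N ≤ #{u : z ≤ d u} ∧ ∃ linked pair in this set)`.
(c): for fixed `U`: `[J = U] = [∀ w ∉ U, deg x_w < z] - [∀ w ∉ U, deg x_w < z, J ≠ U]`, and in the
last case `J ⊂ U`, `#J < N`: `few` again.  The first one is `tu_cst` for `U ∈ MaxC C b g` and
`tu_non` for the others.  There are at most `2 ^ |V|` sets `U`.
-/

namespace Pool.Agent.H94.PL

open Polynomial
open Pool.Agent.H94.PC (Mo Sq Pr pf om Mn mem_Mo mem_Sq mem_Pr mem_pf mem_pf')

variable {F : Type} [Field F] [Finite F] {ℓ : ℕ} [hl : Fact ℓ.Prime]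
  {V : Type} [Fintype V] [DecidableEq V]

omit hl [Fintype V] [DecidableEq V] in
private theorem ana_norm_et [NeZero ℓ] (χ : LChar F ℓ) (Δ : F[X]) (b : V → ZMod ℓ)
    (g : V → pf Δ → ZMod ℓ) (u : V) (A : F[X]) : ‖et χ Δ b g u A‖ = 1 := by
  unfold et
  rw [norm_mul, norm_prod, norm_ps, one_mul]
  exact Finset.prod_eq_one fun v _ => norm_ps _

omit [DecidableEq V] in
private theorem ana_norm_termL (χ : LChar F ℓ) (C : CD V ℓ) (Δ : F[X]) (b : V → ZMod ℓ)
    (g : V → pf Δ → ZMod ℓ) (x : V → F[X]) :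
    ‖termL χ C Δ b g x‖ = (1 / (C.N : ℝ)) ^ om (∏ u, x u) := by
  have h1 : ‖∏ u, et χ Δ b g u (x u)‖ = 1 := by
    rw [norm_prod]
    exact Finset.prod_eq_one fun u _ => ana_norm_et χ Δ b g u (x u)
  have h2 : ‖∏ u, ∏ w, ps (C.Phi u w * lm χ (x w) (x u))‖ = 1 := by
    rw [norm_prod]
    refine Finset.prod_eq_one fun u _ => ?_
    rw [norm_prod]
    exact Finset.prod_eq_one fun w _ => norm_ps _
  unfold termL
  rw [norm_mul, norm_mul, h1, h2, mul_one, mul_one, norm_pow, norm_div, norm_one,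
    Complex.norm_natCast]

open Classical in
theorem norm_WL_le (χ : LChar F ℓ) (C : CD V ℓ) (Δ : F[X]) (b : V → ZMod ℓ)
    (g : V → pf Δ → ZMod ℓ) (n : ℕ) (x : V → Mn F n) :
    ‖WL χ C Δ b g n x‖ ≤ if (∏ u, (x u).1) ∈ Cls Δ n then
      (1 / (C.N : ℝ)) ^ om (∏ u, (x u).1) else 0 := by
  unfold WL
  by_cases hc : (∏ u, (x u).1) ∈ Cls Δ n
  · rw [if_pos hc, if_pos hc]
    exact (ana_norm_termL χ C Δ b g _).le
  · rw [if_neg hc, if_neg hc, norm_zero]

open Classical in
private theorem ana_few (χ : LChar F ℓ) (C : CD V ℓ) (hC : C.Good) (Δ : F[X])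
    (b : V → ZMod ℓ) (g : V → pf Δ → ZMod ℓ) (n z : ℕ) (hz : 1 ≤ z)
    (hn : 2 * (Fintype.card V + 1) * z ≤ n) (R : (V → Mn F n) → Prop)
    [DecidablePred R]
    (hR : ∀ x, R x → (Finset.univ.filter fun u => z ≤ (x u).1.natDegree).card < C.N) :
    ‖∑ x : V → Mn F n, (if R x then WL χ C Δ b g n x else 0)‖ ≤
      2 ^ Fintype.card V * (6 * (Nat.card F : ℝ) ^ n * (n : ℝ) ^ (-(1 / C.N) : ℝ) *
        (z : ℝ) ^ Fintype.card V) := by
  refine (norm_sum_le _ _).trans (le_trans (Finset.sum_le_sum fun x _ => ?_)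
    (few hC.pos n z hz hn Δ))
  by_cases h1 : R x
  · rw [if_pos h1]
    refine (norm_WL_le χ C Δ b g n x).trans ?_
    by_cases h2 : (∏ u, (x u).1) ∈ Cls Δ n
    · rw [if_pos h2, if_pos ⟨h2, hR x h1⟩]
    · rw [if_neg h2, if_neg (fun h => h2 h.1)]
  · rw [if_neg h1, norm_zero]
    split_ifs
    · positivity
    · exact le_rfl

theorem ana_bound (χ : LChar F ℓ) (h2 : ℓ ≠ 2) (C : CD V ℓ) (hC : C.Good) (Δ : F[X])
    (hΔ : Δ ≠ 0) (b : V → ZMod ℓ) (g : V → pf Δ → ZMod ℓ) (n z : ℕ) (hz : 1 ≤ z)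
    (hn : 2 * (Fintype.card V + 1) * z ≤ n) :
    ‖∑ x : V → Mn F n, WL χ C Δ b g n x‖ ≤
      ((MaxC C b g).card : ℝ) * ((Cls Δ n).card : ℝ) +
        2 ^ Fintype.card V * (Cb ℓ V Δ * (z : ℝ) ^ (Fintype.card V + 1) * (Nat.card F : ℝ) ^ n *
          (n : ℝ) ^ (-(1 / (2 * C.N)) : ℝ)) +
        (2 ^ Fintype.card V + 1) * (2 ^ Fintype.card V * (6 * (Nat.card F : ℝ) ^ n *
          (n : ℝ) ^ (-(1 / C.N) : ℝ) * (z : ℝ) ^ Fintype.card V)) +
        ((n : ℝ) + 1) ^ (Fintype.card V + 1) * (Nat.card F : ℝ) ^ n *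
          (Nat.card F : ℝ) ^ (-(z : ℝ) / 4) := by
  classical
  obtain ⟨FE, hFE⟩ : ∃ FE : ℝ, FE = 2 ^ Fintype.card V * (6 * (Nat.card F : ℝ) ^ n *
      (n : ℝ) ^ (-(1 / C.N) : ℝ) * (z : ℝ) ^ Fintype.card V) := ⟨_, rfl⟩
  obtain ⟨TE, hTE⟩ : ∃ TE : ℝ, TE = Cb ℓ V Δ * (z : ℝ) ^ (Fintype.card V + 1) *
      (Nat.card F : ℝ) ^ n * (n : ℝ) ^ (-(1 / (2 * C.N)) : ℝ) := ⟨_, rfl⟩
  have hFE0 : 0 ≤ FE := by
    rw [hFE]
    positivity
  have hTE0 : 0 ≤ TE := by
    have h1 : 0 ≤ Cb ℓ V Δ := by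
      unfold Cb Kc
      positivity
    rw [hTE]
    positivity
  rw [← hFE, ← hTE]
  obtain ⟨J, hJ⟩ : ∃ J : (V → Mn F n) → Finset V,
      J = fun x => Finset.univ.filter fun u => z ≤ (x u).1.natDegree := ⟨_, rfl⟩
  have hJm : ∀ x u, u ∈ J x ↔ z ≤ (x u).1.natDegree := by
    intro x u
    rw [hJ]
    simp
  have hJc : ∀ x, (Finset.univ.filter fun u => z ≤ (x u).1.natDegree) = J x := by
    intro x
    rw [hJ]
  obtain ⟨LU, hLU⟩ : ∃ LU : Finset (Finset V),
      LU = (Finset.univ : Finset (Finset V)).filter fun U => C.Unl U ∧ U.card = C.N := ⟨_, rfl⟩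
  have hLUm : ∀ U, U ∈ LU ↔ C.Unl U ∧ U.card = C.N := by
    intro U
    rw [hLU]
    simp
  obtain ⟨Lp, hLp⟩ : ∃ Lp : (V → ℕ) → Prop, Lp = fun d =>
      (C.N ≤ (Finset.univ.filter fun u => z ≤ d u).card) ∧
        ∃ i j, C.lk i j ≠ 0 ∧ z ≤ d i ∧ z ≤ d j := ⟨_, rfl⟩
  -- the decomposition
  have hdec : ∀ x : V → Mn F n, WL χ C Δ b g n x =
      (if (J x).card < C.N then WL χ C Δ b g n x else 0) +
      (if Lp (fun u => (x u).1.natDegree) then WL χ C Δ b g n x else 0) +
      ∑ U ∈ LU, (if J x = U then WL χ C Δ b g n x else 0) := by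
    intro x
    by_cases h1 : (J x).card < C.N
    · have h3 : ¬ Lp (fun u => (x u).1.natDegree) := by
        rw [hLp]
        intro h
        have h4 := h.1
        rw [hJc x] at h4
        omega
      have h5 : ∑ U ∈ LU, (if J x = U then WL χ C Δ b g n x else 0) = 0 := by
        refine Finset.sum_eq_zero fun U hU => ?_
        rw [if_neg]
        rintro rfl
        have := ((hLUm _).1 hU).2
        omega
      rw [if_pos h1, if_neg h3, h5, add_zero, add_zero]
    · by_cases h3 : Lp (fun u => (x u).1.natDegree)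
      · have h5 : ∑ U ∈ LU, (if J x = U then WL χ C Δ b g n x else 0) = 0 := by
          refine Finset.sum_eq_zero fun U hU => ?_
          rw [if_neg]
          rintro rfl
          have h6 := ((hLUm _).1 hU).1
          rw [hLp] at h3
          obtain ⟨_, i, j, hij, hi, hj⟩ := h3
          exact hij (h6 i ((hJm x i).2 hi) j ((hJm x j).2 hj))
        rw [if_neg h1, if_pos h3, h5, zero_add, add_zero]
      · have h6 : C.Unl (J x) := by
          intro i hi j hj
          by_contra hcon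
          apply h3
          rw [hLp]
          refine ⟨?_, i, j, hcon, (hJm x i).1 hi, (hJm x j).1 hj⟩
          rw [hJc x]
          omega
        have h7 : (J x).card = C.N := by
          have := hC.card_le (J x) h6
          omega
        rw [if_neg h1, if_neg h3, zero_add, zero_add]
        rw [Finset.sum_eq_single (J x)]
        · rw [if_pos rfl]
        · intro U _ hU
          rw [if_neg (Ne.symm hU)]
        · intro h
          exact absurd ((hLUm _).2 ⟨h6, h7⟩) h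
  have e1 : ∑ x : V → Mn F n, WL χ C Δ b g n x =
      ∑ x : V → Mn F n, (if (J x).card < C.N then WL χ C Δ b g n x else 0) +
      ∑ x : V → Mn F n, (if Lp (fun u => (x u).1.natDegree) then WL χ C Δ b g n x else 0) +
      ∑ U ∈ LU, ∑ x : V → Mn F n, (if J x = U then WL χ C Δ b g n x else 0) := by
    rw [Finset.sum_comm, ← Finset.sum_add_distrib, ← Finset.sum_add_distrib]
    exact Finset.sum_congr rfl fun x _ => hdec x
  have b1 : ‖∑ x : V → Mn F n, (if (J x).card < C.N then WL χ C Δ b g n x else 0)‖ ≤ FE := by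
    rw [hFE]
    refine ana_few χ C hC Δ b g n z hz hn (fun x => (J x).card < C.N) fun x hx => ?_
    rw [hJc x]
    exact hx
  have b2 : ‖∑ x : V → Mn F n,
      (if Lp (fun u => (x u).1.natDegree) then WL χ C Δ b g n x else 0)‖ ≤
      ((n : ℝ) + 1) ^ (Fintype.card V + 1) * (Nat.card F : ℝ) ^ n *
        (Nat.card F : ℝ) ^ (-(z : ℝ) / 4) := by
    refine le_trans (le_of_eq ?_) (lk_sum χ h2 C hC Δ b g n z Lp fun d hd => ?_)
    · congr 1
    · rw [hLp] at hd
      exact hd.2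
  have b3 : ∀ U ∈ LU, ‖∑ x : V → Mn F n, (if J x = U then WL χ C Δ b g n x else 0)‖ ≤
      (if Cst b g U then ((Cls Δ n).card : ℝ) else 0) + TE + FE := by
    intro U hU
    obtain ⟨hU1, hU2⟩ := (hLUm U).1 hU
    have hsub : ∀ x : V → Mn F n, (∀ w, w ∉ U → (x w).1.natDegree < z) → J x ⊆ U := by
      intro x hx u hu
      by_contra hcon
      have h3 := hx u hcon
      have h4 := (hJm x u).1 hu
      omega
    have h3 : ∀ x : V → Mn F n, (if J x = U then WL χ C Δ b g n x else 0) =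
        (if ∀ w, w ∉ U → (x w).1.natDegree < z then WL χ C Δ b g n x else 0) -
        (if (∀ w, w ∉ U → (x w).1.natDegree < z) ∧ J x ≠ U then WL χ C Δ b g n x else 0) := by
      intro x
      by_cases h4 : J x = U
      · have h5 : ∀ w, w ∉ U → (x w).1.natDegree < z := by
          intro w hw
          rw [← h4, hJm x w] at hw
          omega
        rw [if_pos h4, if_pos h5, if_neg (fun h => h.2 h4), sub_zero]
      · by_cases h5 : ∀ w, w ∉ U → (x w).1.natDegree < z
        · rw [if_neg h4, if_pos h5, if_pos ⟨h5, h4⟩, sub_self]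
        · rw [if_neg h4, if_neg h5, if_neg (fun h => h5 h.1), sub_zero]
    rw [Finset.sum_congr rfl fun x _ => h3 x, Finset.sum_sub_distrib]
    refine (norm_sub_le _ _).trans (add_le_add ?_ ?_)
    · by_cases h4 : Cst b g U
      · rw [if_pos h4, hTE]
        exact tu_cst χ h2 C hC Δ hΔ b g U hU1 hU2 n z hz hn
      · rw [if_neg h4, hTE, zero_add]
        exact tu_non χ h2 C hC Δ hΔ b g U hU1 hU2 h4 n z hz hn
    · rw [hFE]
      refine ana_few χ C hC Δ b g n z hz hn
        (fun x => (∀ w, w ∉ U → (x w).1.natDegree < z) ∧ J x ≠ U) fun x hx => ?_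
      rw [hJc x, ← hU2]
      exact Finset.card_lt_card (lt_of_le_of_ne (hsub x hx.1) hx.2)
  have b4 : ‖∑ U ∈ LU, ∑ x : V → Mn F n, (if J x = U then WL χ C Δ b g n x else 0)‖ ≤
      ((MaxC C b g).card : ℝ) * ((Cls Δ n).card : ℝ) + 2 ^ Fintype.card V * (TE + FE) := by
    refine (norm_sum_le _ _).trans ((Finset.sum_le_sum b3).trans ?_)
    rw [Finset.sum_congr rfl (fun U _ => add_assoc _ TE FE), Finset.sum_add_distrib,
      Finset.sum_const, nsmul_eq_mul]
    refine add_le_add (le_of_eq ?_) (mul_le_mul_of_nonneg_right ?_ (add_nonneg hTE0 hFE0))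
    · rw [← Finset.sum_filter, Finset.sum_const, nsmul_eq_mul]
      congr 3
      rw [hLU, MaxC, Finset.filter_filter]
      refine Finset.filter_congr fun U _ => ?_
      rw [and_assoc]
    · have h5 : LU.card ≤ 2 ^ Fintype.card V := by
        rw [← Fintype.card_finset, ← Finset.card_univ]
        exact Finset.card_le_card (Finset.subset_univ _)
      exact_mod_cast h5
  rw [e1]
  have b5 := norm_add_le (∑ x : V → Mn F n, (if (J x).card < C.N then WL χ C Δ b g n x else 0) +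
      ∑ x : V → Mn F n, (if Lp (fun u => (x u).1.natDegree) then WL χ C Δ b g n x else 0))
      (∑ U ∈ LU, ∑ x : V → Mn F n, (if J x = U then WL χ C Δ b g n x else 0))
  have b6 := norm_add_le (∑ x : V → Mn F n, (if (J x).card < C.N then WL χ C Δ b g n x else 0))
      (∑ x : V → Mn F n, (if Lp (fun u => (x u).1.natDegree) then WL χ C Δ b g n x else 0))
  nlinarith [b1, b2, b4, b5, b6]

end Pool.Agent.H94.PL
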