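import Pool.Agent.H94.PL.La

set_option autoImplicit false

/-!
# [H94 PL LC] The number of pairs (parameters, maximal set with constant data)

Let `U ∈ MaxC (CDX B) (bp B sy π) (gp B sy π)`, `U = u₀ + W` by `la_str`.
(1) `lc_prod`: for `v : S` and `W` a subspace: if `h ↦ (α + L h) * (β + M h)` is constant on `W`
(`L, M` linear functions on `W`) then `L = 0` or `M = 0` on `W`.  If both are nonzero: if the constant is `≠ 0`,
`L` is surjective onto `ZMod ℓ` so some factor `α + L h` is `0`, contradiction; if it is `0` then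
every `h ∈ W` satisfies `α + L h = 0` or `β + M h = 0`; take `h₁` with `L h₁ ≠ 0` and `h₂` with `M h₂ ≠ 0`; (a vector
space over a field with `≥ 3` elements is not the union of two proper affine subspaces): there is `h` with
`L h ≠ 0` and `M h ≠ 0` (one of `h₁`, `h₂`, `h₁ + h₂`); on the line `t ↦ t h` the product
`(α + t L h) * (β + t M h)` is a polynomial of degree 2 in `t` with `ℓ ≥ 3` zeros, contradiction.
(2) With `L w = B w.2 (eps v)`, `M w = B w.1 (eps v)` on `W` and `W₁ = W.map fst`, `W₂ = W.map snd`: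
`hs.sep` gives `W₁ = ⊥` or `W₂ = ⊥`, so `W ≤ {x = 0}` or `W ≤ {c = 0}`, and by cardinality
(`Nat.card W = card X`) equality.  So `U = {u | u.1 = x₀}` or `U = {u | u.2 = c₀}`.
(3) `U = {u | u.1 = x₀}`: constancy of `gp` in `c`: `(B c (eps v) + d v) * (B x₀ (eps v) + s v)` constant and
`c ↦ B c (eps v)` not constant (`hs.ne`), so `s v = - B x₀ (eps v)`; constancy of `bp`: `B c κ + B c (β x₀)` constant in
`c`, so `κ = - β x₀` (`hB`).  So `(π, U)` is the image of `(x₀, ξ, d)` under
`(x₀, ξ, d) ↦ ((-β x₀, ξ, -B x₀ (eps ·), d), {u | u.1 = x₀})`: at most `N * N * ℓ ^ |S|` pairs.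
(4) `U = {u | u.2 = c₀}`: `d v = - B c₀ (eps v)`, and `B c₀ (β x) + B ξ x` constant in `x`, so
`ξ = - β c₀` (`hs.self`, `hB`): again at most `N * N * ℓ ^ |S|` pairs.
-/

namespace Pool.Agent.H94.PL

variable {ℓ : ℕ} [hl : Fact ℓ.Prime] {X : Type} [AddCommGroup X] [Module (ZMod ℓ) X] [Fintype X]
  [DecidableEq X] (B : X →ₗ[ZMod ℓ] X →ₗ[ZMod ℓ] ZMod ℓ) {S : Type} [Fintype S] [DecidableEq S]

theorem lc_prod (h2 : ℓ ≠ 2) {Y : Type} [AddCommGroup Y] [Module (ZMod ℓ) Y]
    (L M : Y →ₗ[ZMod ℓ] ZMod ℓ) (α β k : ZMod ℓ) (h : ∀ y, (α + L y) * (β + M y) = k) :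
    L = 0 ∨ M = 0 := by
  by_contra hne
  rw [not_or] at hne
  obtain ⟨hL, hM⟩ := hne
  obtain ⟨h₁, e1⟩ : ∃ y, L y ≠ 0 := by
    by_contra hc
    push Not at hc
    exact hL (LinearMap.ext hc)
  obtain ⟨h₂, e2⟩ : ∃ y, M y ≠ 0 := by
    by_contra hc
    push Not at hc
    exact hM (LinearMap.ext hc)
  obtain ⟨y, ya, yb⟩ : ∃ y, L y ≠ 0 ∧ M y ≠ 0 := by
    by_cases c1 : M h₁ = 0
    · by_cases c2 : L h₂ = 0
      · refine ⟨h₁ + h₂, ?_, ?_⟩
        · rw [map_add, c2, add_zero]
          exact e1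
        · rw [map_add, c1, zero_add]
          exact e2
      · exact ⟨h₂, c2, e2⟩
    · exact ⟨h₁, e1, c1⟩
  have k0 := h 0
  have k1 := h y
  have k2 := h (-y)
  rw [map_zero, map_zero, add_zero, add_zero] at k0
  rw [map_neg, map_neg] at k2
  have two : (2 : ZMod ℓ) ≠ 0 := by
    intro h0
    have h3 : ((2 : ℕ) : ZMod ℓ) = 0 := by exact_mod_cast h0
    rw [ZMod.natCast_eq_zero_iff] at h3
    exact h2 ((Nat.prime_dvd_prime_iff_eq hl.out Nat.prime_two).1 h3)
  have k3 : (2 : ZMod ℓ) * (L y * M y) = 0 := by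
    linear_combination k1 + k2 - 2 * k0
  rcases mul_eq_zero.1 k3 with h4 | h4
  · exact two h4
  · rcases mul_eq_zero.1 h4 with h5 | h5
    · exact ya h5
    · exact yb h5

omit [DecidableEq X] in
theorem lc_fst (W : Submodule (ZMod ℓ) (X × X)) (hW : Nat.card W = Fintype.card X)
    (h : ∀ w ∈ W, w.1 = 0) (w : X × X) (hw : w.1 = 0) : w ∈ W := by
  classical
  have inj : Function.Injective (fun w : W => w.1.2) := by
    intro a b hab
    refine Subtype.ext (Prod.ext ?_ hab)
    rw [h _ a.2, h _ b.2]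
  have : Finite W := Finite.of_injective _ inj
  have : Fintype W := Fintype.ofFinite W
  have hc : Fintype.card W = Fintype.card X := by rw [← hW, Nat.card_eq_fintype_card]
  have bij := (Fintype.bijective_iff_injective_and_card _).2 ⟨inj, hc⟩
  obtain ⟨a, ha⟩ := bij.2 w.2
  have : a.1 = w := Prod.ext (by rw [h _ a.2, hw]) ha
  rw [← this]
  exact a.2

omit [DecidableEq X] in
theorem lc_snd (W : Submodule (ZMod ℓ) (X × X)) (hW : Nat.card W = Fintype.card X)
    (h : ∀ w ∈ W, w.2 = 0) (w : X × X) (hw : w.2 = 0) : w ∈ W := by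
  classical
  have inj : Function.Injective (fun w : W => w.1.1) := by
    intro a b hab
    refine Subtype.ext (Prod.ext hab ?_)
    rw [h _ a.2, h _ b.2]
  have : Finite W := Finite.of_injective _ inj
  have : Fintype W := Fintype.ofFinite W
  have hc : Fintype.card W = Fintype.card X := by rw [← hW, Nat.card_eq_fintype_card]
  have bij := (Fintype.bijective_iff_injective_and_card _).2 ⟨inj, hc⟩
  obtain ⟨a, ha⟩ := bij.2 w.1
  have : a.1 = w := Prod.ext ha (by rw [h _ a.2, hw])
  rw [← this]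
  exact a.2

theorem lc_types (h2 : ℓ ≠ 2) (hB : BGood B) (sy : Sys ℓ X S) (hs : sy.Good B)
    (π : Pm ℓ X S) (U : Finset (X × X)) (hU : U ∈ MaxC (CDX B) (bp B sy π) (gp B sy π)) :
    (∃ x₀ : X, (∀ u, u ∈ U ↔ u.1 = x₀) ∧ π.1 = -sy.bet x₀ ∧
        ∀ v, π.2.2.1 v = -B x₀ (sy.eps v)) ∨
      (∃ c₀ : X, (∀ u, u ∈ U ↔ u.2 = c₀) ∧ π.2.1 = -sy.bet c₀ ∧
        ∀ v, π.2.2.2 v = -B c₀ (sy.eps v)) := by
  classical
  simp only [MaxC, Finset.mem_filter] at hU
  obtain ⟨-, hunl, hcard, hcst⟩ := hU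
  obtain ⟨u₀, W, hUW, -, hW⟩ := la_str B h2 hB U hunl hcard
  have hu₀ : u₀ ∈ U := by
    rw [hUW, sub_self]
    exact W.zero_mem
  have hin : ∀ w ∈ W, u₀ + w ∈ U := by
    intro w hw
    rw [hUW, add_sub_cancel_left]
    exact hw
  have hb : ∀ u ∈ U, ∀ u' ∈ U, bp B sy π u = bp B sy π u' := fun u hu u' hu' =>
    (hcst u hu u' hu').1
  have hg : ∀ v, ∀ u ∈ U, ∀ u' ∈ U, gp B sy π u v = gp B sy π u' v := fun v u hu u' hu' =>
    congrFun (hcst u hu u' hu').2 v
  have key := hs.sep (W.map (LinearMap.fst (ZMod ℓ) X X)) (W.map (LinearMap.snd (ZMod ℓ) X X))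
    (by
      intro v
      have h := lc_prod (ℓ := ℓ) h2 (Y := W)
        (((B.flip (sy.eps v)).comp (LinearMap.snd (ZMod ℓ) X X)).comp W.subtype)
        (((B.flip (sy.eps v)).comp (LinearMap.fst (ZMod ℓ) X X)).comp W.subtype)
        (B u₀.2 (sy.eps v) + π.2.2.2 v) (B u₀.1 (sy.eps v) + π.2.2.1 v) (gp B sy π u₀ v)
        (by
          intro w
          rw [hg v u₀ hu₀ (u₀ + w.1) (hin _ w.2), gp]
          simp only [LinearMap.coe_comp, Function.comp_apply, Submodule.coe_subtype,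
            LinearMap.flip_apply, LinearMap.snd_apply, LinearMap.fst_apply, Prod.snd_add,
            Prod.fst_add, map_add, LinearMap.add_apply]
          ring)
      rcases h with h | h
      · right
        intro x hx
        obtain ⟨w, hw, rfl⟩ := hx
        exact LinearMap.congr_fun h ⟨w, hw⟩
      · left
        intro x hx
        obtain ⟨w, hw, rfl⟩ := hx
        exact LinearMap.congr_fun h ⟨w, hw⟩)
  rcases key with hk | hk
  · left
    have h0 : ∀ w ∈ W, w.1 = 0 := by
      intro w hw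
      have : (LinearMap.fst (ZMod ℓ) X X) w ∈ W.map (LinearMap.fst (ZMod ℓ) X X) :=
        Submodule.mem_map_of_mem hw
      rw [hk, Submodule.mem_bot] at this
      exact this
    have h1 := lc_fst W hW h0
    have hmem : ∀ u, u ∈ U ↔ u.1 = u₀.1 := by
      intro u
      rw [hUW]
      constructor
      · intro h
        exact sub_eq_zero.1 (h0 _ h)
      · intro h
        refine h1 _ ?_
        rw [Prod.fst_sub, h, sub_self]
    have hc : ∀ c : X, (u₀.1, c) ∈ U := fun c => (hmem _).2 rfl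
    refine ⟨u₀.1, hmem, ?_, ?_⟩
    · rw [eq_neg_iff_add_eq_zero]
      refine hB.nondeg _ fun c => ?_
      rw [hB.symm]
      have h3 := hb (u₀.1, c) (hc c) (u₀.1, 0) (hc 0)
      simp only [bp, map_zero, LinearMap.zero_apply, zero_add] at h3
      rw [map_add]
      linear_combination h3
    · intro v
      obtain ⟨c, hne⟩ := hs.ne v
      have h3 := hg v (u₀.1, c) (hc c) (u₀.1, 0) (hc 0)
      simp only [gp, map_zero, LinearMap.zero_apply, zero_add] at h3
      have h4 : B c (sy.eps v) * (B u₀.1 (sy.eps v) + π.2.2.1 v) = 0 := by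
        linear_combination h3
      have h5 := (mul_eq_zero.1 h4).resolve_left hne
      linear_combination h5
  · right
    have h0 : ∀ w ∈ W, w.2 = 0 := by
      intro w hw
      have : (LinearMap.snd (ZMod ℓ) X X) w ∈ W.map (LinearMap.snd (ZMod ℓ) X X) :=
        Submodule.mem_map_of_mem hw
      rw [hk, Submodule.mem_bot] at this
      exact this
    have h1 := lc_snd W hW h0
    have hmem : ∀ u, u ∈ U ↔ u.2 = u₀.2 := by
      intro u
      rw [hUW]
      constructor
      · intro h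
        exact sub_eq_zero.1 (h0 _ h)
      · intro h
        refine h1 _ ?_
        rw [Prod.snd_sub, h, sub_self]
    have hc : ∀ c : X, (c, u₀.2) ∈ U := fun c => (hmem _).2 rfl
    refine ⟨u₀.2, hmem, ?_, ?_⟩
    · rw [eq_neg_iff_add_eq_zero]
      refine hB.nondeg _ fun x => ?_
      have h3 := hb (x, u₀.2) (hc x) (0, u₀.2) (hc 0)
      simp only [bp, map_zero, add_zero] at h3
      rw [map_add, LinearMap.add_apply, hs.self]
      linear_combination h3
    · intro v
      obtain ⟨x, hne⟩ := hs.ne v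
      have h3 := hg v (x, u₀.2) (hc x) (0, u₀.2) (hc 0)
      simp only [gp, map_zero, LinearMap.zero_apply, zero_add] at h3
      have h4 : B x (sy.eps v) * (B u₀.2 (sy.eps v) + π.2.2.2 v) = 0 := by
        linear_combination h3
      have h5 := (mul_eq_zero.1 h4).resolve_left hne
      linear_combination h5

theorem lc_count (h2 : ℓ ≠ 2) (hB : BGood B) (sy : Sys ℓ X S) (hs : sy.Good B) :
    ∑ π : Pm ℓ X S, (MaxC (CDX B) (bp B sy π) (gp B sy π)).card ≤
      2 * Fintype.card X ^ 2 * ℓ ^ Fintype.card S := by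
  classical
  let f1 : X × X × (S → ZMod ℓ) → (_ : Pm ℓ X S) × Finset (X × X) := fun z =>
    ⟨(-sy.bet z.1, z.2.1, (fun v => -B z.1 (sy.eps v)), z.2.2),
      Finset.univ.filter fun u : X × X => u.1 = z.1⟩
  let f2 : X × X × (S → ZMod ℓ) → (_ : Pm ℓ X S) × Finset (X × X) := fun z =>
    ⟨(z.2.1, -sy.bet z.1, z.2.2, (fun v => -B z.1 (sy.eps v))),
      Finset.univ.filter fun u : X × X => u.2 = z.1⟩
  rw [← Finset.card_sigma]
  have hsub : (Finset.univ.sigma fun π : Pm ℓ X S => MaxC (CDX B) (bp B sy π) (gp B sy π)) ⊆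
      Finset.univ.image f1 ∪ Finset.univ.image f2 := by
    rintro ⟨π, U⟩ hz
    rw [Finset.mem_sigma] at hz
    rw [Finset.mem_union]
    rcases lc_types B h2 hB sy hs π U hz.2 with ⟨x₀, hx, h3, h4⟩ | ⟨c₀, hx, h3, h4⟩
    · left
      rw [Finset.mem_image]
      refine ⟨(x₀, π.2.1, π.2.2.2), Finset.mem_univ _, ?_⟩
      have e1 : (fun v => -B x₀ (sy.eps v)) = π.2.2.1 := funext fun v => (h4 v).symm
      have e2 : (Finset.univ.filter fun u : X × X => u.1 = x₀) = U := by
        ext u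
        rw [Finset.mem_filter, hx]
        exact ⟨fun h => h.2, fun h => ⟨Finset.mem_univ _, h⟩⟩
      show (⟨(-sy.bet x₀, π.2.1, (fun v => -B x₀ (sy.eps v)), π.2.2.2),
        Finset.univ.filter fun u : X × X => u.1 = x₀⟩ : (_ : Pm ℓ X S) × Finset (X × X)) = _
      rw [e1, e2, ← h3]
    · right
      rw [Finset.mem_image]
      refine ⟨(c₀, π.1, π.2.2.1), Finset.mem_univ _, ?_⟩
      have e1 : (fun v => -B c₀ (sy.eps v)) = π.2.2.2 := funext fun v => (h4 v).symm
      have e2 : (Finset.univ.filter fun u : X × X => u.2 = c₀) = U := by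
        ext u
        rw [Finset.mem_filter, hx]
        exact ⟨fun h => h.2, fun h => ⟨Finset.mem_univ _, h⟩⟩
      show (⟨(π.1, -sy.bet c₀, π.2.2.1, (fun v => -B c₀ (sy.eps v))),
        Finset.univ.filter fun u : X × X => u.2 = c₀⟩ : (_ : Pm ℓ X S) × Finset (X × X)) = _
      rw [e1, e2, ← h3]
  have hcard : (Finset.univ : Finset (X × X × (S → ZMod ℓ))).card =
      Fintype.card X ^ 2 * ℓ ^ Fintype.card S := by
    rw [Finset.card_univ, Fintype.card_prod, Fintype.card_prod, Fintype.card_fun, ZMod.card]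
    ring
  calc _ ≤ (Finset.univ.image f1 ∪ Finset.univ.image f2).card := Finset.card_le_card hsub
    _ ≤ (Finset.univ.image f1).card + (Finset.univ.image f2).card := Finset.card_union_le _ _
    _ ≤ (Finset.univ : Finset (X × X × (S → ZMod ℓ))).card +
        (Finset.univ : Finset (X × X × (S → ZMod ℓ))).card :=
        add_le_add Finset.card_image_le Finset.card_image_le
    _ = _ := by
        rw [hcard]
        ring

end Pool.Agent.H94.PL
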