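import Pool.Agent.H94.PL.Tot
import Pool.Agent.H94.PL.Lc
import Pool.Agent.H94.PL.AnaLim

set_option autoImplicit false

/-!
# [H94 PL AVG] The average number of solutions

`N = card X`, `s = #(pf Δ)`; there are `N ^ 2 ℓ ^ (2 s)` parameters `π`.  By `total`, `norm_ps` and `ana`
(with `cdx_good` and `ε' = ε / (N ℓ ^ s)`), for `n` large
`N ℓ ^ s ∑ card Ker ≤ ∑ π, (#MaxC · #Cls + ε' q ^ n) ≤ 2 N ^ 2 ℓ ^ s #Cls + N ^ 2 ℓ ^ (2 s) ε' q ^ n` (`lc_count`);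
divide by `N ℓ ^ s`: `∑ card Ker ≤ 2 N #Cls + N ℓ ^ s ε' q ^ n`.
-/

namespace Pool.Agent.H94.PL

open Polynomial
open Pool.Agent.H94.PC (Mo Sq Pr pf om Mn mem_Mo mem_Sq mem_Pr mem_pf mem_pf')

variable {ℓ : ℕ} [hl : Fact ℓ.Prime] {X : Type} [AddCommGroup X] [Module (ZMod ℓ) X] [Fintype X]
  (B : X →ₗ[ZMod ℓ] X →ₗ[ZMod ℓ] ZMod ℓ)
  {F : Type} [Field F] [Finite F] (χ : LChar F ℓ) {Δ : F[X]}

theorem avgL (h2 : ℓ ≠ 2) (hB : BGood B) (sy : Sys ℓ X (pf Δ)) (hs : sy.Good B) (hΔ : Δ ≠ 0)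
    (ε : ℝ) (hε : 0 < ε) : ∃ n₀ : ℕ, ∀ n : ℕ, n₀ ≤ n →
      ∑ D ∈ Cls Δ n, (Nat.card (KerL χ B sy D) : ℝ) ≤
        2 * (Fintype.card X : ℝ) * ((Cls Δ n).card : ℝ) + ε * (Nat.card F : ℝ) ^ n := by
  classical
  have hℓ := hl.out
  have hN : (0 : ℝ) < (Fintype.card X : ℝ) := by exact_mod_cast Fintype.card_pos
  have hL : (0 : ℝ) < (ℓ : ℝ) ^ (pf Δ).card := by
    have : (0 : ℝ) < (ℓ : ℝ) := by exact_mod_cast hℓ.pos
    positivity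
  obtain ⟨n₀, h⟩ := ana χ h2 (CDX B) (cdx_good B h2 hB) Δ hΔ
    (ε / ((Fintype.card X : ℝ) * (ℓ : ℝ) ^ (pf Δ).card)) (by positivity)
  refine ⟨n₀, fun n hn => ?_⟩
  have ht := total B χ h2 hB sy n
  have h1 : ‖(Fintype.card X : ℂ) * (ℓ : ℂ) ^ (pf Δ).card *
      ∑ D ∈ Cls Δ n, (Nat.card (KerL χ B sy D) : ℂ)‖ =
      (Fintype.card X : ℝ) * (ℓ : ℝ) ^ (pf Δ).card *
      ∑ D ∈ Cls Δ n, (Nat.card (KerL χ B sy D) : ℝ) := by
    have e : (Fintype.card X : ℂ) * (ℓ : ℂ) ^ (pf Δ).card *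
      ∑ D ∈ Cls Δ n, (Nat.card (KerL χ B sy D) : ℂ) =
      (((Fintype.card X : ℝ) * (ℓ : ℝ) ^ (pf Δ).card *
      ∑ D ∈ Cls Δ n, (Nat.card (KerL χ B sy D) : ℝ) : ℝ) : ℂ) := by
      push_cast
      rfl
    rw [e, Complex.norm_real, Real.norm_eq_abs, abs_of_nonneg]
    exact mul_nonneg (mul_nonneg hN.le hL.le) (Finset.sum_nonneg fun _ _ => Nat.cast_nonneg _)
  have hcnt : (∑ π : Pm ℓ X (pf Δ), ((MaxC (CDX B) (bp B sy π) (gp B sy π)).card : ℝ)) ≤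
      2 * (Fintype.card X : ℝ) ^ 2 * (ℓ : ℝ) ^ (pf Δ).card := by
    have := lc_count B h2 hB sy hs
    rw [Fintype.card_coe] at this
    exact_mod_cast this
  have hcard : (Fintype.card (Pm ℓ X (pf Δ)) : ℝ) =
      (Fintype.card X : ℝ) ^ 2 * ((ℓ : ℝ) ^ (pf Δ).card) ^ 2 := by
    rw [Fintype.card_prod, Fintype.card_prod, Fintype.card_prod, Fintype.card_fun,
      Fintype.card_coe, ZMod.card]
    push_cast
    ring
  have h3 : (Fintype.card X : ℝ) * (ℓ : ℝ) ^ (pf Δ).card *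
      ∑ D ∈ Cls Δ n, (Nat.card (KerL χ B sy D) : ℝ) ≤
      (2 * (Fintype.card X : ℝ) ^ 2 * (ℓ : ℝ) ^ (pf Δ).card) * ((Cls Δ n).card : ℝ) +
      (Fintype.card X : ℝ) ^ 2 * ((ℓ : ℝ) ^ (pf Δ).card) ^ 2 *
        (ε / ((Fintype.card X : ℝ) * (ℓ : ℝ) ^ (pf Δ).card) * (Nat.card F : ℝ) ^ n) := by
    rw [← h1, ht]
    calc ‖∑ π : Pm ℓ X (pf Δ), ps (th0 B sy π) *
          ∑ x : X × X → Mn F n, WL χ (CDX B) Δ (bp B sy π) (gp B sy π) n x‖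
        ≤ ∑ π : Pm ℓ X (pf Δ), ‖ps (th0 B sy π) *
          ∑ x : X × X → Mn F n, WL χ (CDX B) Δ (bp B sy π) (gp B sy π) n x‖ := norm_sum_le _ _
      _ ≤ ∑ π : Pm ℓ X (pf Δ), (((MaxC (CDX B) (bp B sy π) (gp B sy π)).card : ℝ) *
            ((Cls Δ n).card : ℝ) +
          ε / ((Fintype.card X : ℝ) * (ℓ : ℝ) ^ (pf Δ).card) * (Nat.card F : ℝ) ^ n) := by
          refine Finset.sum_le_sum fun π _ => ?_
          rw [norm_mul, norm_ps, one_mul]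
          exact h n hn _ _
      _ = (∑ π : Pm ℓ X (pf Δ), ((MaxC (CDX B) (bp B sy π) (gp B sy π)).card : ℝ)) *
            ((Cls Δ n).card : ℝ) + (Fintype.card (Pm ℓ X (pf Δ)) : ℝ) *
            (ε / ((Fintype.card X : ℝ) * (ℓ : ℝ) ^ (pf Δ).card) * (Nat.card F : ℝ) ^ n) := by
          rw [Finset.sum_add_distrib, Finset.sum_mul, Finset.sum_const, Finset.card_univ,
            nsmul_eq_mul]
      _ ≤ _ := by
          rw [hcard]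
          gcongr
  have h4 : (Fintype.card X : ℝ) * (ℓ : ℝ) ^ (pf Δ).card *
      ∑ D ∈ Cls Δ n, (Nat.card (KerL χ B sy D) : ℝ) ≤
      (Fintype.card X : ℝ) * (ℓ : ℝ) ^ (pf Δ).card *
      (2 * (Fintype.card X : ℝ) * ((Cls Δ n).card : ℝ) + ε * (Nat.card F : ℝ) ^ n) := by
    refine h3.trans (le_of_eq ?_)
    field_simp
  exact le_of_mul_le_mul_left h4 (mul_pos hN hL)

end Pool.Agent.H94.PL
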