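import Pool.Agent.H94.PL.NotPow
import Pool.Agent.H94.PC.Energy

set_option autoImplicit false

/-!
# [H94 PL BIL] The bilinear estimate for `ℓ`-th power residue symbols
-/

namespace Pool.Agent.H94.PL

open Polynomial
open Pool.Agent.H94.PC (Mo Sq Pr pf om Mn mem_Mo mem_Sq mem_Pr mem_pf mem_pf' Lt mem_Lt card_Lt
  card_Mo card_Sq_le)

variable {F : Type} [Field F] [Finite F] {ℓ : ℕ} [hl : Fact ℓ.Prime] (χ : LChar F ℓ)

/-- complete sums of a nontrivial character modulo `E` -/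
theorem sum_char_zero {E : F[X]} (hE : E.Monic) (φ : F[X] → ℂ)
    (hp : ∀ A B : F[X], E ∣ A - B → φ A = φ B) (hm : ∀ A B : F[X], φ (A * B) = φ A * φ B)
    {M : F[X]} (hM : IsCoprime M E) (hM1 : φ M ≠ 1) {m : ℕ} (hn : E.natDegree ≤ m) :
    ∑ A ∈ Mo F m, φ A = 0 := by
  have h1 := sum_Lt_mul' hE hM φ hp
  have h3 : ∑ r ∈ Lt F E.natDegree, φ (M * r) = φ M * ∑ r ∈ Lt F E.natDegree, φ r := by
    rw [Finset.mul_sum]
    exact Finset.sum_congr rfl fun r _ => hm M r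
  rw [h3] at h1
  have h5 : (φ M - 1) * ∑ r ∈ Lt F E.natDegree, φ r = 0 := by
    rw [sub_mul, h1, one_mul, sub_self]
  have h6 : ∑ r ∈ Lt F E.natDegree, φ r = 0 := by
    rcases mul_eq_zero.1 h5 with h6 | h6
    · exact absurd (sub_eq_zero.1 h6) hM1
    · exact h6
  rw [sum_Mo_mod' hE hn φ]
  refine Finset.sum_eq_zero fun h _ => ?_
  rw [← h6]
  refine Finset.sum_congr rfl fun r _ => ?_
  refine hp _ _ ⟨h, ?_⟩
  ring

theorem conj_cs {B : F[X]} (hB : B.Monic) (N : F[X]) :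
    (starRingEnd ℂ) (cs χ N B) = cs χ N (B ^ (ℓ - 1)) := by
  rw [cs_pow_right χ N hB]
  by_cases hc : IsCoprime N B
  · rw [cs_of_coprime χ hB hc, ← ps_neg, ← ps_natCast_mul]
    congr 1
    rw [Nat.cast_sub hl.out.one_lt.le, ZMod.natCast_self, Nat.cast_one, zero_sub, neg_one_mul]
  · rw [cs_eq_zero χ hB hc, map_zero, zero_pow]
    have := hl.out.one_lt
    omega

theorem not_pow_mul {B B' : F[X]} (hB : B.Monic) (hB' : B'.Monic) (hs : Squarefree B)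
    (hs' : Squarefree B') (hdeg : B.natDegree = B'.natDegree) (hne : B ≠ B') :
    ¬ ∃ R : F[X], B * B' ^ (ℓ - 1) = R ^ ℓ := by
  rintro ⟨R, hR⟩
  have hl2 : 2 ≤ ℓ := hl.out.two_le
  have h1 : B ∣ R := by
    have h : B ∣ R ^ ℓ := ⟨B' ^ (ℓ - 1), hR.symm⟩
    exact (hs.dvd_pow_iff_dvd (by omega)).1 h
  have h3 : B ∣ B' := by
    obtain ⟨D, rfl⟩ := h1
    have h2 : B' ^ (ℓ - 1) = B ^ (ℓ - 1) * D ^ ℓ := by
      refine mul_left_cancel₀ hB.ne_zero ?_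
      rw [hR, mul_pow]
      have : B ^ ℓ = B * B ^ (ℓ - 1) := by
        rw [← pow_succ']
        congr 1
        omega
      rw [this]
      ring
    have h4 : B ∣ B' ^ (ℓ - 1) := by
      rw [h2]
      exact (dvd_pow_self B (by omega)).mul_right _
    exact (hs.dvd_pow_iff_dvd (by omega)).1 h4
  exact hne (eq_of_monic_of_dvd_of_natDegree_le hB hB' h3 hdeg.ge).symm

theorem exists_gamma (z : ℂ) : ∃ γ : ℂ, ‖γ‖ ≤ 1 ∧ γ * z = (‖z‖ : ℂ) := by
  by_cases h : z = 0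
  · exact ⟨0, by simp, by simp [h]⟩
  · refine ⟨(starRingEnd ℂ) z / (‖z‖ : ℂ), ?_, ?_⟩
    · rw [norm_div, Complex.norm_conj, Complex.norm_real, norm_norm]
      exact div_self_le_one _
    · have h0 : (‖z‖ : ℂ) ≠ 0 := by
        rw [Ne, Complex.ofReal_eq_zero, norm_eq_zero]
        exact h
      rw [div_mul_eq_mul_div, Complex.conj_mul', div_eq_iff h0]
      ring

section aux
variable {m l : ℕ}

/-- `T(N)` -/
private noncomputable def bT (γ : F[X] → ℂ) (l : ℕ) (N : F[X]) : ℂ :=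
  ∑ B ∈ Sq F l, γ B * cs χ N B

private theorem bilin_T (hml : l ≤ m) (γ : F[X] → ℂ) (hγ : ∀ B, ‖γ B‖ ≤ 1) :
    ∑ N ∈ Mo F (2 * m), ‖bT χ γ l N‖ ^ 2 ≤ (Nat.card F : ℝ) ^ l * (Nat.card F : ℝ) ^ (2 * m) := by
  classical
  have hcard : ((Mo F (2 * m)).card : ℝ) = (Nat.card F : ℝ) ^ (2 * m) := by
    rw [card_Mo]
    push_cast
    ring
  have e1 : ((∑ N ∈ Mo F (2 * m), ‖bT χ γ l N‖ ^ 2 : ℝ) : ℂ) =
      ∑ B ∈ Sq F l, ∑ B' ∈ Sq F l, (γ B * (starRingEnd ℂ) (γ B')) *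
        ∑ N ∈ Mo F (2 * m), cs χ N B * (starRingEnd ℂ) (cs χ N B') := by
    push_cast
    have e2 : ∀ N ∈ Mo F (2 * m), (‖bT χ γ l N‖ : ℂ) ^ 2 =
        ∑ B ∈ Sq F l, ∑ B' ∈ Sq F l, (γ B * (starRingEnd ℂ) (γ B')) *
          (cs χ N B * (starRingEnd ℂ) (cs χ N B')) := by
      intro N _
      rw [← Complex.mul_conj', bT, map_sum, Finset.sum_mul_sum]
      refine Finset.sum_congr rfl fun B hB => Finset.sum_congr rfl fun B' hB' => ?_
      rw [map_mul]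
      ring
    rw [Finset.sum_congr rfl e2, Finset.sum_comm]
    refine Finset.sum_congr rfl fun B _ => ?_
    rw [Finset.sum_comm]
    refine Finset.sum_congr rfl fun B' _ => ?_
    rw [Finset.mul_sum]
  have e3 : ∀ B ∈ Sq F l, ∀ B' ∈ Sq F l, B' ≠ B →
      ∑ N ∈ Mo F (2 * m), cs χ N B * (starRingEnd ℂ) (cs χ N B') = 0 := by
    intro B hB B' hB' hne
    obtain ⟨g1, g2, g3⟩ := mem_Sq.1 hB
    obtain ⟨g4, g5, g6⟩ := mem_Sq.1 hB'
    have hmon : (B * B' ^ (ℓ - 1)).Monic := g1.mul (g4.pow _)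
    have hcong : ∀ N, cs χ N B * (starRingEnd ℂ) (cs χ N B') = cs χ N (B * B' ^ (ℓ - 1)) := by
      intro N
      rw [conj_cs χ g4, cs_mul_right χ N g1 (g4.pow _)]
    obtain ⟨M, hM0, hM1⟩ := exists_cs_ne χ hmon
      (not_pow_mul g1 g4 g3 g6 (g2.trans g5.symm) hne.symm)
    refine sum_char_zero (E := B * B') (g1.mul g4) _ ?_ ?_ (M := M) ?_ ?_ ?_
    · intro A A' h
      rw [cs_congr χ g1 ((dvd_mul_right B B').trans h),
        cs_congr χ g4 ((dvd_mul_left B' B).trans h)]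
    · intro A A'
      rw [hcong, hcong, hcong, cs_mul_left χ hmon]
    · have hc : IsCoprime M (B * B' ^ (ℓ - 1)) := by
        by_contra h
        exact hM0 (cs_eq_zero χ hmon h)
      have hl2 : 2 ≤ ℓ := hl.out.two_le
      refine IsCoprime.mul_right hc.of_mul_right_left ?_
      have h2 := hc.of_mul_right_right
      exact (IsCoprime.pow_right_iff (by omega)).1 h2
    · rw [hcong]
      exact hM1
    · rw [g1.natDegree_mul g4, g2, g5]
      omega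
  have e4 : ((∑ N ∈ Mo F (2 * m), ‖bT χ γ l N‖ ^ 2 : ℝ) : ℂ) =
      ∑ B ∈ Sq F l, (γ B * (starRingEnd ℂ) (γ B)) *
        ∑ N ∈ Mo F (2 * m), cs χ N B * (starRingEnd ℂ) (cs χ N B) := by
    rw [e1]
    refine Finset.sum_congr rfl fun B hB => ?_
    rw [Finset.sum_eq_single_of_mem B hB]
    intro B' hB' hne
    rw [e3 B hB B' hB' hne, mul_zero]
  have e5 : ‖((∑ N ∈ Mo F (2 * m), ‖bT χ γ l N‖ ^ 2 : ℝ) : ℂ)‖ ≤
      (Nat.card F : ℝ) ^ l * (Nat.card F : ℝ) ^ (2 * m) := by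
    rw [e4]
    refine (norm_sum_le _ _).trans ?_
    have h3 : ∀ B ∈ Sq F l, ‖(γ B * (starRingEnd ℂ) (γ B)) *
        ∑ N ∈ Mo F (2 * m), cs χ N B * (starRingEnd ℂ) (cs χ N B)‖ ≤
        (Nat.card F : ℝ) ^ (2 * m) := by
      intro B _
      rw [norm_mul, norm_mul, Complex.norm_conj]
      have h4 : ‖∑ N ∈ Mo F (2 * m), cs χ N B * (starRingEnd ℂ) (cs χ N B)‖ ≤
          (Nat.card F : ℝ) ^ (2 * m) := by
        refine (norm_sum_le _ _).trans ((Finset.sum_le_card_nsmul _ _ (1 : ℝ) fun N _ => ?_).trans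
          ?_)
        · rw [norm_mul, Complex.norm_conj]
          exact mul_le_one₀ (norm_cs_le χ _ _) (norm_nonneg _) (norm_cs_le χ _ _)
        · rw [nsmul_eq_mul, mul_one, hcard]
      calc _ ≤ 1 * (Nat.card F : ℝ) ^ (2 * m) :=
            mul_le_mul (mul_le_one₀ (hγ _) (norm_nonneg _) (hγ _)) h4 (norm_nonneg _) zero_le_one
        _ = _ := one_mul _
    refine (Finset.sum_le_card_nsmul _ _ _ h3).trans ?_
    rw [nsmul_eq_mul]
    refine mul_le_mul_of_nonneg_right ?_ (by positivity)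
    have := card_Sq_le (F := F) l
    exact_mod_cast this
  rw [Complex.norm_real] at e5
  exact (le_abs_self _).trans e5

private theorem bilin_fib [DecidableEq F[X]] (m : ℕ) :
    ∑ N ∈ Mo F (2 * m), ((((Mo F m ×ˢ Mo F m).filter
      (fun p : F[X] × F[X] => p.1 * p.2 = N)).card : ℝ)) ^ 2 ≤
      (m + 1) * (Nat.card F : ℝ) ^ (2 * m) := by
  set P := Mo F m ×ˢ Mo F m with hP
  set S : Finset (F[X] × F[X] × F[X] × F[X]) :=
    (Mo F m ×ˢ Mo F m ×ˢ Mo F m ×ˢ Mo F m).filter (fun z => z.1 * z.2.1 = z.2.2.1 * z.2.2.2)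
    with hS
  have h1 := PC.energy m S (by
    intro z hz
    rw [hS, Finset.mem_filter] at hz
    simp only [Finset.mem_product] at hz
    exact ⟨hz.1.1, hz.1.2.1, hz.1.2.2.1, hz.1.2.2.2, hz.2⟩)
  have h2 : ∑ N ∈ Mo F (2 * m), ((P.filter (fun p : F[X] × F[X] => p.1 * p.2 = N)).card) ^ 2 ≤
      S.card := by
    have h3 : ∀ z ∈ S, z.1 * z.2.1 ∈ Mo F (2 * m) := by
      intro z hz
      rw [hS, Finset.mem_filter] at hz
      simp only [Finset.mem_product] at hz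
      have g1 := mem_Mo.1 hz.1.1
      have g2 := mem_Mo.1 hz.1.2.1
      refine mem_Mo.2 ⟨g1.1.mul g2.1, ?_⟩
      rw [g1.1.natDegree_mul g2.1, g1.2, g2.2]
      ring
    rw [Finset.card_eq_sum_card_fiberwise h3]
    refine Finset.sum_le_sum fun N _ => ?_
    rw [sq, ← Finset.card_product]
    refine Finset.card_le_card_of_injOn
      (fun w : (F[X] × F[X]) × (F[X] × F[X]) => (w.1.1, w.1.2, w.2.1, w.2.2)) ?_ ?_
    · intro w hw
      rw [Finset.mem_coe] at hw ⊢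
      simp only [Finset.mem_product, Finset.mem_filter, hP, hS] at hw ⊢
      exact ⟨⟨⟨hw.1.1.1, hw.1.1.2, hw.2.1.1, hw.2.1.2⟩, by rw [hw.1.2, hw.2.2]⟩, hw.1.2⟩
    · intro w _ w' _ h
      simp only [Prod.mk.injEq] at h
      exact Prod.ext (Prod.ext h.1 h.2.1) (Prod.ext h.2.2.1 h.2.2.2)
  have h4 : (∑ N ∈ Mo F (2 * m), ((P.filter (fun p : F[X] × F[X] => p.1 * p.2 = N)).card) ^ 2 : ℕ)
      ≤ (m + 1) * Nat.card F ^ (2 * m) := h2.trans h1
  exact_mod_cast h4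

private theorem bilin_U (hml : l ≤ m) (α : F[X] → ℂ) (hα : ∀ A, ‖α A‖ ≤ 1) :
    (∑ B ∈ Sq F l, ‖∑ A ∈ Mo F m, α A * cs χ A B‖ ^ 2) ^ 2 ≤
      ((m + 1) * (Nat.card F : ℝ) ^ (2 * m)) *
        ((Nat.card F : ℝ) ^ l * (Nat.card F : ℝ) ^ (2 * m)) := by
  classical
  set Y : F[X] → ℂ := fun B => ∑ A ∈ Mo F m, α A * cs χ A B with hY
  choose γ hγ1 hγ2 using fun B => exists_gamma (Y B ^ 2)
  set P := Mo F m ×ˢ Mo F m with hP
  have e1 : ((∑ B ∈ Sq F l, ‖Y B‖ ^ 2 : ℝ) : ℂ) =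
      ∑ p ∈ P, (α p.1 * α p.2) * bT χ γ l (p.1 * p.2) := by
    push_cast
    have e2 : ∀ B ∈ Sq F l, ((‖Y B‖ : ℂ)) ^ 2 =
        ∑ p ∈ P, (α p.1 * α p.2) * (γ B * cs χ (p.1 * p.2) B) := by
      intro B hB
      have h3 : ((‖Y B‖ : ℂ)) ^ 2 = γ B * Y B ^ 2 := by
        rw [hγ2, norm_pow]
        push_cast
        ring
      rw [h3, hY]
      dsimp only
      rw [sq, Finset.sum_mul_sum, Finset.mul_sum, hP, Finset.sum_product]
      refine Finset.sum_congr rfl fun A _ => ?_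
      rw [Finset.mul_sum]
      refine Finset.sum_congr rfl fun A' _ => ?_
      rw [cs_mul_left χ (mem_Sq.1 hB).1]
      ring
    rw [Finset.sum_congr rfl e2, Finset.sum_comm]
    refine Finset.sum_congr rfl fun p _ => ?_
    rw [bT, Finset.mul_sum]
  have hmaps : ∀ p ∈ P, p.1 * p.2 ∈ Mo F (2 * m) := by
    intro p hp
    rw [hP, Finset.mem_product] at hp
    have g1 := mem_Mo.1 hp.1
    have g2 := mem_Mo.1 hp.2
    refine mem_Mo.2 ⟨g1.1.mul g2.1, ?_⟩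
    rw [g1.1.natDegree_mul g2.1, g1.2, g2.2]
    ring
  have e3 : ∑ p ∈ P, (α p.1 * α p.2) * bT χ γ l (p.1 * p.2) =
      ∑ N ∈ Mo F (2 * m), (∑ p ∈ P.filter (fun p : F[X] × F[X] => p.1 * p.2 = N),
        α p.1 * α p.2) * bT χ γ l N := by
    rw [← Finset.sum_fiberwise_of_maps_to hmaps]
    refine Finset.sum_congr rfl fun N _ => ?_
    rw [Finset.sum_mul]
    refine Finset.sum_congr rfl fun p hp => ?_
    rw [(Finset.mem_filter.1 hp).2]
  have hW0 : 0 ≤ ∑ B ∈ Sq F l, ‖Y B‖ ^ 2 := Finset.sum_nonneg fun _ _ => sq_nonneg _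
  have e4 : ∑ B ∈ Sq F l, ‖Y B‖ ^ 2 ≤ ∑ N ∈ Mo F (2 * m),
      ‖∑ p ∈ P.filter (fun p : F[X] × F[X] => p.1 * p.2 = N), α p.1 * α p.2‖ *
        ‖bT χ γ l N‖ := by
    have h4 : ‖((∑ B ∈ Sq F l, ‖Y B‖ ^ 2 : ℝ) : ℂ)‖ = ∑ B ∈ Sq F l, ‖Y B‖ ^ 2 := by
      rw [Complex.norm_real, Real.norm_of_nonneg hW0]
    rw [← h4, e1, e3]
    refine (norm_sum_le _ _).trans (le_of_eq ?_)
    exact Finset.sum_congr rfl fun N _ => norm_mul _ _
  refine (pow_le_pow_left₀ hW0 e4 2).trans ?_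
  refine (Finset.sum_mul_sq_le_sq_mul_sq _ _ _).trans ?_
  refine mul_le_mul ?_ (bilin_T χ hml γ hγ1) (Finset.sum_nonneg fun _ _ => sq_nonneg _)
    (by positivity)
  refine (Finset.sum_le_sum fun N _ => ?_).trans (bilin_fib m)
  refine pow_le_pow_left₀ (norm_nonneg _) ?_ 2
  refine (norm_sum_le _ _).trans
    ((Finset.sum_le_card_nsmul _ _ (1 : ℝ) fun p _ => ?_).trans ?_)
  · rw [norm_mul]
    exact mul_le_one₀ (hα _) (norm_nonneg _) (hα _)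
  · rw [nsmul_eq_mul, mul_one]

end aux

theorem bilin {m l : ℕ} (hml : l ≤ m) (α β : F[X] → ℂ)
    (hα : ∀ A, ‖α A‖ ≤ 1) (hβ : ∀ B, ‖β B‖ ≤ 1) :
    ‖∑ A ∈ Mo F m, ∑ B ∈ Sq F l, α A * β B * cs χ A B‖ ^ 4 ≤
      (m + 1) * (Nat.card F : ℝ) ^ (4 * m + 3 * l) := by
  set q : ℝ := (Nat.card F : ℝ) with hq
  have hq0 : 0 ≤ q := Nat.cast_nonneg _
  have e1 : ∑ A ∈ Mo F m, ∑ B ∈ Sq F l, α A * β B * cs χ A B =
      ∑ B ∈ Sq F l, β B * ∑ A ∈ Mo F m, α A * cs χ A B := by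
    rw [Finset.sum_comm]
    refine Finset.sum_congr rfl fun B _ => ?_
    rw [Finset.mul_sum]
    refine Finset.sum_congr rfl fun A _ => ?_
    ring
  have h1 : ‖∑ A ∈ Mo F m, ∑ B ∈ Sq F l, α A * β B * cs χ A B‖ ^ 2 ≤
      q ^ l * ∑ B ∈ Sq F l, ‖∑ A ∈ Mo F m, α A * cs χ A B‖ ^ 2 := by
    rw [e1]
    have h2 : ‖∑ B ∈ Sq F l, β B * ∑ A ∈ Mo F m, α A * cs χ A B‖ ≤
        ∑ B ∈ Sq F l, ‖β B‖ * ‖∑ A ∈ Mo F m, α A * cs χ A B‖ := by
      refine (norm_sum_le _ _).trans (le_of_eq ?_)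
      exact Finset.sum_congr rfl fun B _ => norm_mul _ _
    refine (pow_le_pow_left₀ (norm_nonneg _) h2 2).trans ?_
    refine (Finset.sum_mul_sq_le_sq_mul_sq _ _ _).trans ?_
    refine mul_le_mul_of_nonneg_right ?_ (Finset.sum_nonneg fun _ _ => sq_nonneg _)
    refine (Finset.sum_le_card_nsmul _ _ (1 : ℝ) fun B _ => ?_).trans ?_
    · exact pow_le_one₀ (norm_nonneg _) (hβ B)
    · rw [nsmul_eq_mul, mul_one]
      have h5 : ((Sq F l).card : ℝ) ≤ ((Nat.card F ^ l : ℕ) : ℝ) :=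
        Nat.cast_le.2 (card_Sq_le (F := F) l)
      rwa [Nat.cast_pow] at h5
  have h3 := bilin_U χ hml α hα
  set X := ∑ B ∈ Sq F l, ‖∑ A ∈ Mo F m, α A * cs χ A B‖ ^ 2 with hX
  calc ‖∑ A ∈ Mo F m, ∑ B ∈ Sq F l, α A * β B * cs χ A B‖ ^ 4
      = (‖∑ A ∈ Mo F m, ∑ B ∈ Sq F l, α A * β B * cs χ A B‖ ^ 2) ^ 2 := by ring
    _ ≤ (q ^ l * X) ^ 2 := pow_le_pow_left₀ (sq_nonneg _) h1 2
    _ = q ^ (2 * l) * X ^ 2 := by ring
    _ ≤ q ^ (2 * l) * (((m + 1) * q ^ (2 * m)) * (q ^ l * q ^ (2 * m))) :=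
        mul_le_mul_of_nonneg_left h3 (by positivity)
    _ = (m + 1) * q ^ (4 * m + 3 * l) := by ring

private theorem bsym_aux {m l : ℕ} (hml : l ≤ m) (α β : F[X] → ℂ)
    (hα : ∀ A, ‖α A‖ ≤ 1) (hβ : ∀ B, ‖β B‖ ≤ 1) :
    ‖∑ A ∈ Sq F m, ∑ B ∈ Sq F l, α A * β B * cs χ A B‖ ^ 4 ≤
      (m + 1) * (Nat.card F : ℝ) ^ (4 * m + 3 * l) := by
  classical
  have h1 := bilin χ hml (fun A => if Squarefree A then α A else 0) β
    (fun A => by
      by_cases h : Squarefree A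
      · simp only [if_pos h]
        exact hα A
      · simp only [if_neg h, norm_zero]
        exact zero_le_one) hβ
  have e1 : ∑ A ∈ Sq F m, ∑ B ∈ Sq F l, α A * β B * cs χ A B =
      ∑ A ∈ Mo F m, ∑ B ∈ Sq F l, (if Squarefree A then α A else 0) * β B * cs χ A B := by
    have hsub : Sq F m ⊆ Mo F m := by
      intro A hA
      rw [mem_Sq] at hA
      exact mem_Mo.2 ⟨hA.1, hA.2.1⟩
    rw [← Finset.sum_subset hsub]
    · refine Finset.sum_congr rfl fun A hA => ?_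
      rw [if_pos (mem_Sq.1 hA).2.2]
    · intro A hA hA2
      have h : ¬ Squarefree A := fun h => hA2 (mem_Sq.2 ⟨(mem_Mo.1 hA).1, (mem_Mo.1 hA).2, h⟩)
      refine Finset.sum_eq_zero fun B _ => ?_
      rw [if_neg h]
      ring
  rw [e1]
  exact h1

/-- the bilinear estimate, symmetric form -/
theorem bilin_sym (h2 : ℓ ≠ 2) (m l : ℕ) (α β : F[X] → ℂ)
    (hα : ∀ A, ‖α A‖ ≤ 1) (hβ : ∀ B, ‖β B‖ ≤ 1) :
    ‖∑ A ∈ Sq F m, ∑ B ∈ Sq F l, α A * β B * cs χ A B‖ ^ 4 * (Nat.card F : ℝ) ^ (min m l) ≤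
      (m + l + 1) * (Nat.card F : ℝ) ^ (4 * (m + l)) := by
  set q : ℝ := (Nat.card F : ℝ) with hq
  have hq0 : 0 ≤ q := Nat.cast_nonneg _
  rcases le_total l m with h | h
  · rw [min_eq_right h]
    calc _ ≤ ((m + 1) * q ^ (4 * m + 3 * l)) * q ^ l :=
          mul_le_mul_of_nonneg_right (bsym_aux χ h α β hα hβ) (by positivity)
      _ = (m + 1) * q ^ (4 * (m + l)) := by ring
      _ ≤ (m + l + 1) * q ^ (4 * (m + l)) := by
          refine mul_le_mul_of_nonneg_right ?_ (by positivity)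
          have : (0 : ℝ) ≤ l := Nat.cast_nonneg l
          linarith
  · rw [min_eq_left h]
    have e1 : ∑ A ∈ Sq F m, ∑ B ∈ Sq F l, α A * β B * cs χ A B =
        ∑ B ∈ Sq F l, ∑ A ∈ Sq F m, β B * α A * cs χ B A := by
      rw [Finset.sum_comm]
      refine Finset.sum_congr rfl fun B hB => ?_
      refine Finset.sum_congr rfl fun A hA => ?_
      rw [cs_recip χ h2 A B]
      ring
    have h1 := bsym_aux χ h β α hβ hα
    rw [e1]
    calc _ ≤ ((l + 1) * q ^ (4 * l + 3 * m)) * q ^ m :=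
          mul_le_mul_of_nonneg_right h1 (by positivity)
      _ = (l + 1) * q ^ (4 * (m + l)) := by ring
      _ ≤ (m + l + 1) * q ^ (4 * (m + l)) := by
          refine mul_le_mul_of_nonneg_right ?_ (by positivity)
          have : (0 : ℝ) ≤ m := Nat.cast_nonneg m
          linarith

end Pool.Agent.H94.PL
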