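import Pool.Agent.H94.PL.Cs
import Pool.Agent.H94.PC.SSRec
import Pool.Agent.H94.PC.MoMod

set_option autoImplicit false

/-!
# [H94 PL CM] Completely multiplicative complex functions: definitions
-/

namespace Pool.Agent.H94.PL

open Polynomial
open Pool.Agent.H94.PC (Mo Sq Pr pf om Mn mem_Mo mem_Sq mem_Pr mem_pf mem_pf' SS PS)

variable {F : Type} [Field F] [Finite F]

/-- completely multiplicative on monic polynomials, bounded by `1` -/
structure CMc (θ : F[X] → ℂ) : Prop where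
  one : θ 1 = 1
  mul : ∀ A B : F[X], A.Monic → B.Monic → θ (A * B) = θ A * θ B
  le : ∀ A : F[X], A.Monic → ‖θ A‖ ≤ 1

/-- sums over the monic polynomials of degree `j` -/
noncomputable def Bs (θ : F[X] → ℂ) (j : ℕ) : ℂ := ∑ A ∈ Mo F j, θ A

/-- the von Mangoldt coefficients -/
noncomputable def Ls (θ : F[X] → ℂ) (i : ℕ) : ℂ :=
  ∑ d ∈ i.divisors, ∑ P ∈ Pr F d, (d : ℂ) * θ P ^ (i / d)

theorem CMc.pow {θ : F[X] → ℂ} (h : CMc θ) {A : F[X]} (hA : A.Monic) (k : ℕ) :
    θ (A ^ k) = θ A ^ k := by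
  induction k with
  | zero => rw [pow_zero, pow_zero, h.one]
  | succ k ih => rw [pow_succ, pow_succ, h.mul _ _ (hA.pow k) hA, ih]

theorem CMc.const : CMc (fun _ : F[X] => (1 : ℂ)) :=
  ⟨rfl, fun _ _ _ _ => (mul_one 1).symm, fun _ _ => by rw [norm_one]⟩

theorem CMc.conj {θ : F[X] → ℂ} (h : CMc θ) : CMc (fun A => (starRingEnd ℂ) (θ A)) :=
  ⟨by rw [h.one, map_one], fun A B hA hB => by rw [h.mul A B hA hB, map_mul],
    fun A hA => by rw [Complex.norm_conj]; exact h.le A hA⟩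

end Pool.Agent.H94.PL
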