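import Pool.Agent.H94.PL.CM

set_option autoImplicit false

/-!
# [H94 PL SSR] Recursion for sums over squarefree polynomials, with the primes

The same as `PC/SSRec.lean` (adapt its proof: `ssr_split`, `SS_rec`), but keep `f P` instead of
the bound `f P ≤ M`, and keep the sum over `Pr F d` instead of `card_Pr_mul_le`.
-/

namespace Pool.Agent.H94.PL

open Polynomial
open Pool.Agent.H94.PC (Mo Sq Pr pf om Mn mem_Mo mem_Sq mem_Pr mem_pf mem_pf' SS PS)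

variable {F : Type} [Field F] [Finite F]

theorem ssr_SS_nonneg (f : F[X] → ℝ) (hf : ∀ P, 0 ≤ f P) (m : ℕ) : 0 ≤ SS f m :=
  Finset.sum_nonneg fun _ _ => Finset.prod_nonneg fun P _ => hf P

private theorem ssr_split' (f : F[X] → ℝ)
    {m : ℕ} {D P : F[X]} (hD : D ∈ Sq F m) (hP : P ∈ pf D) :
    D = P * (D /ₘ P) ∧ P.natDegree ∈ Finset.Icc 1 m ∧ P ∈ Pr F P.natDegree ∧
      (D /ₘ P) ∈ Sq F (m - P.natDegree) ∧
      ∏ Q ∈ pf D, f Q = f P * ∏ Q ∈ pf (D /ₘ P), f Q := by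
  obtain ⟨hDm, hDd, hDs⟩ := mem_Sq.1 hD
  obtain ⟨hPm, hPi, hPd⟩ := mem_pf' hP
  have h1 : D = P * (D /ₘ P) := by
    have h2 := modByMonic_add_div D P
    rw [(modByMonic_eq_zero_iff_dvd hPm).2 hPd, zero_add] at h2
    exact h2.symm
  generalize D /ₘ P = E at h1
  subst h1
  have hEm : E.Monic := hPm.of_mul_monic_left hDm
  obtain ⟨hrel, -, hEs⟩ := squarefree_mul_iff.1 hDs
  have hco : IsCoprime P E := hrel.isCoprime
  have hdeg : P.natDegree + E.natDegree = m := by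
    rw [← hDd, hPm.natDegree_mul hEm]
  have hP1 : 1 ≤ P.natDegree := hPi.natDegree_pos
  refine ⟨rfl, Finset.mem_Icc.2 ⟨hP1, by omega⟩, mem_Pr.2 ⟨hPm, rfl, hPi⟩,
    mem_Sq.2 ⟨hEm, by omega, hEs⟩, ?_⟩
  rw [PC.prod_pf_mul hPm hEm hco, PC.pf_irr hPm hPi, Finset.prod_singleton]

theorem ss_rec (f : F[X] → ℝ) (hf : ∀ P, 0 ≤ f P) (m : ℕ) :
    (m : ℝ) * SS f m ≤
      ∑ d ∈ Finset.Icc 1 m, (∑ P ∈ Pr F d, (d : ℝ) * f P) * SS f (m - d) := by
  classical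
  have h1 : (m : ℝ) * SS f m =
      ∑ D ∈ Sq F m, ∑ P ∈ pf D, (P.natDegree : ℝ) * ∏ Q ∈ pf D, f Q := by
    rw [SS, Finset.mul_sum]
    refine Finset.sum_congr rfl fun D hD => ?_
    obtain ⟨hDm, hDd, hDs⟩ := mem_Sq.1 hD
    rw [← Finset.sum_mul, ← Nat.cast_sum, PC.natDegree_prod_pf hDm hDs, hDd]
  set S : Finset (Σ _ : F[X], F[X]) := (Sq F m).sigma fun D => pf D with hS
  set T : Finset (Σ _ : ℕ, F[X] × F[X]) :=
    (Finset.Icc 1 m).sigma fun d => Pr F d ×ˢ Sq F (m - d) with hT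
  set e : (Σ _ : F[X], F[X]) → (Σ _ : ℕ, F[X] × F[X]) :=
    fun x => ⟨x.2.natDegree, (x.2, x.1 /ₘ x.2)⟩ with he
  set g : (Σ _ : ℕ, F[X] × F[X]) → ℝ :=
    fun y => (y.1 : ℝ) * (f y.2.1 * ∏ Q ∈ pf y.2.2, f Q) with hg
  have hg0 : ∀ y, 0 ≤ g y := fun y =>
    mul_nonneg (Nat.cast_nonneg _) (mul_nonneg (hf _) (Finset.prod_nonneg fun Q _ => hf Q))
  have h2 : ∑ D ∈ Sq F m, ∑ P ∈ pf D, (P.natDegree : ℝ) * ∏ Q ∈ pf D, f Q ≤
      ∑ x ∈ S, g (e x) := by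
    rw [hS, Finset.sum_sigma]
    refine Finset.sum_le_sum fun D hD => Finset.sum_le_sum fun P hP => ?_
    exact mul_le_mul_of_nonneg_left (ssr_split' f hD hP).2.2.2.2.le (Nat.cast_nonneg _)
  have hinj : Set.InjOn e (S : Set (Σ _ : F[X], F[X])) := by
    rintro ⟨D, P⟩ hx ⟨D', P'⟩ hx' hxx
    have hx1 := Finset.mem_sigma.1 (Finset.mem_coe.1 hx)
    have hx1' := Finset.mem_sigma.1 (Finset.mem_coe.1 hx')
    have h3 := (ssr_split' f hx1.1 hx1.2).1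
    have h4 := (ssr_split' f hx1'.1 hx1'.2).1
    simp only [he, Sigma.mk.injEq, heq_eq_eq, Prod.mk.injEq] at hxx
    obtain ⟨-, h5, h6⟩ := hxx
    simp only at h3 h4
    subst h5
    have h7 : D = D' := by
      rw [h3, h4, h6]
    rw [h7]
  have hmaps : S.image e ⊆ T := by
    intro y hy
    obtain ⟨⟨D, P⟩, hx, rfl⟩ := Finset.mem_image.1 hy
    have hx1 := Finset.mem_sigma.1 hx
    obtain ⟨-, h3, h4, h5, -⟩ := ssr_split' f hx1.1 hx1.2
    exact Finset.mem_sigma.2 ⟨h3, Finset.mem_product.2 ⟨h4, h5⟩⟩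
  have h3 : ∑ x ∈ S, g (e x) ≤ ∑ y ∈ T, g y := by
    rw [← Finset.sum_image hinj]
    exact Finset.sum_le_sum_of_subset_of_nonneg hmaps fun y _ _ => hg0 y
  have h4 : ∑ y ∈ T, g y =
      ∑ d ∈ Finset.Icc 1 m, (∑ P ∈ Pr F d, (d : ℝ) * f P) * SS f (m - d) := by
    rw [hT, Finset.sum_sigma]
    refine Finset.sum_congr rfl fun d _ => ?_
    rw [Finset.sum_product, Finset.sum_mul]
    refine Finset.sum_congr rfl fun P _ => ?_
    simp only [hg]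
    rw [SS, Finset.mul_sum]
    refine Finset.sum_congr rfl fun D _ => ?_
    ring
  rw [h1]
  exact h2.trans (h3.trans h4.le)

end Pool.Agent.H94.PL
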