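import Pool.Agent.H94.PL.VM
import Pool.Agent.H94.PL.SSR

set_option autoImplicit false

/-!
# [H94 PL CMP] `∑ D ∈ Sq j, ∏ P ∣ D, (2 + 2 Re θ(P)) ≤ (j + 1) K ^ 2 q ^ j`

Let `a j = Bs 1 j = q ^ j` (`card_Mo`), `b j = Bs θ j`, `c j = Bs (conj θ) j = conj (b j)`.  Work in `PowerSeries ℂ`:
`Z = mk a`, `L = mk b`, `M = mk c`, `R = Z * Z * L * M`, `r j = coeff j R`.
1. `vm_rec` says `X * d⁄dX Z = mk (Ls 1) * Z` (coefficients; `Ls θ 0 = 0` as `0.divisors = ∅`), similarly for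
   `L` and `M`.  By the Leibniz rule `X * d⁄dX R = Λ * R`, `Λ = 2 mk (Ls 1) + mk (Ls θ) + mk (Ls (conj θ))`, that is
   `j r_j = ∑ i ∈ Icc 1 j, Λ_i r_{j-i}`, and
   `Λ_i = ∑ d ∣ i, ∑ P ∈ Pr d, d (2 + 2 Re θ(P) ^ (i/d))` is real, all terms are `≥ 0`
   (`‖θ P‖ ≤ 1`), and the term `d = i` is `∑ P ∈ Pr i, i (2 + 2 Re θ P)`.
   (The derivation can be avoided: if `j a_j = ∑ α_i a_{j-i}` and `j b_j = ∑ β_i b_{j-i}` then
   `j (a * b)_j = ∑ (α_i + β_i) (a * b)_{j-i}` for the convolution, by splitting `j = i + (j - i)`.)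
2. `r_0 = 1`; by strong induction `r_j` is (the cast of) a real number `≥ 0` with
   `SS (2 + 2 Re θ) j ≤ r_j`: for `j ≥ 1`, `j SS j ≤ ∑ d, (∑ P ∈ Pr d, d (2 + 2 Re θ P)) SS (j-d)
   ≤ ∑ d, Λ_d r_{j-d} = j r_j` (`ss_rec`; to apply it, which asks `0 ≤ f P` for all `P`,
   replace the function by `0` at polynomials which are not monic, as in `PC/SSTheta.lean`).
3. `coeff j (Z * L) = ∑ i ∈ range (j+1), b_i q ^ (j-i)`, of norm `≤ q ^ j * K` by `hK`; the same for
   `Z * M`; so `‖r_j‖ ≤ ∑ i ∈ range (j+1), K q ^ i K q ^ (j-i) = (j + 1) K ^ 2 q ^ j`.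
-/

namespace Pool.Agent.H94.PL

open Polynomial
open Pool.Agent.H94.PC (Mo Sq Pr pf om Mn mem_Mo mem_Sq mem_Pr mem_pf mem_pf' SS PS)

variable {F : Type} [Field F] [Finite F]

/-- the Euler derivation -/
private noncomputable def eu (f : PowerSeries ℂ) : PowerSeries ℂ :=
  PowerSeries.X * PowerSeries.derivative ℂ f

private theorem eu_mul (f g : PowerSeries ℂ) : eu (f * g) = eu f * g + f * eu g := by
  unfold eu
  rw [Derivation.leibniz, smul_eq_mul, smul_eq_mul]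
  ring

private theorem coeff_eu (f : PowerSeries ℂ) (j : ℕ) :
    PowerSeries.coeff j (eu f) = (j : ℂ) * PowerSeries.coeff j f := by
  unfold eu
  cases j with
  | zero => simp
  | succ n =>
    rw [PowerSeries.coeff_succ_X_mul, PowerSeries.coeff_derivative]
    push_cast
    ring

/-- generating function of the sums -/
private noncomputable def gB (θ : F[X] → ℂ) : PowerSeries ℂ := PowerSeries.mk fun j => Bs θ j

private noncomputable def gL (θ : F[X] → ℂ) : PowerSeries ℂ := PowerSeries.mk fun j => Ls θ j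

private theorem Ls_zero (θ : F[X] → ℂ) : Ls θ 0 = 0 := by
  unfold Ls
  rw [Nat.divisors_zero, Finset.sum_empty]

private theorem coeff_mul_Icc (f g : PowerSeries ℂ) (hf : PowerSeries.coeff 0 f = 0) (j : ℕ) :
    PowerSeries.coeff j (f * g) =
      ∑ i ∈ Finset.Icc 1 j, PowerSeries.coeff i f * PowerSeries.coeff (j - i) g := by
  rw [PowerSeries.coeff_mul, Finset.Nat.sum_antidiagonal_eq_sum_range_succ
    (fun a b => PowerSeries.coeff a f * PowerSeries.coeff b g), Finset.range_eq_Ico,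
    Finset.sum_eq_sum_Ico_succ_bot (Nat.succ_pos j), hf, zero_mul, zero_add]
  rfl

private theorem eu_gB {θ : F[X] → ℂ} (h : CMc θ) : eu (gB θ) = gL θ * gB θ := by
  ext j
  rw [coeff_eu, coeff_mul_Icc _ _ (by rw [gL, PowerSeries.coeff_mk, Ls_zero])]
  unfold gL gB
  rw [PowerSeries.coeff_mk, vm_rec h]
  refine Finset.sum_congr rfl fun i _ => ?_
  rw [PowerSeries.coeff_mk, PowerSeries.coeff_mk]

private theorem Mo_zero : Mo F 0 = {1} := by
  ext f
  rw [mem_Mo, Finset.mem_singleton]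
  constructor
  · rintro ⟨h1, h2⟩
    exact h1.natDegree_eq_zero.1 h2
  · rintro rfl
    exact ⟨monic_one, natDegree_one⟩

private theorem SS_zero (f : F[X] → ℝ) : SS f 0 = 1 := by
  have h1 : Sq F 0 = {1} := by
    ext f
    rw [mem_Sq, Finset.mem_singleton]
    constructor
    · rintro ⟨h1, h2, _⟩
      exact h1.natDegree_eq_zero.1 h2
    · rintro rfl
      exact ⟨monic_one, natDegree_one, squarefree_one⟩
  have h2 : pf (1 : F[X]) = ∅ := by
    rw [Finset.eq_empty_iff_forall_notMem]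
    intro P hP
    obtain ⟨_, h3, h4⟩ := mem_pf' hP
    exact h3.not_isUnit (isUnit_of_dvd_one h4)
  unfold SS
  rw [h1, Finset.sum_singleton, h2, Finset.prod_empty]

private theorem Bs_zero {θ : F[X] → ℂ} (h : CMc θ) : Bs θ 0 = 1 := by
  unfold Bs
  rw [Mo_zero, Finset.sum_singleton, h.one]

/-- the four factors -/
private noncomputable def RR (θ : F[X] → ℂ) : PowerSeries ℂ :=
  (gB (fun _ : F[X] => (1 : ℂ)) * gB θ) *
    (gB (fun _ : F[X] => (1 : ℂ)) * gB (fun A => (starRingEnd ℂ) (θ A)))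

private noncomputable def LL (θ : F[X] → ℂ) : PowerSeries ℂ :=
  (gL (fun _ : F[X] => (1 : ℂ)) + gL θ) +
    (gL (fun _ : F[X] => (1 : ℂ)) + gL (fun A => (starRingEnd ℂ) (θ A)))

private theorem eu_RR {θ : F[X] → ℂ} (h : CMc θ) : eu (RR θ) = LL θ * RR θ := by
  unfold RR LL
  rw [eu_mul, eu_mul, eu_mul, eu_gB h, eu_gB h.conj, eu_gB CMc.const]
  ring

/-- the real von Mangoldt coefficients -/
private noncomputable def la (θ : F[X] → ℂ) (i : ℕ) : ℝ :=
  ∑ d ∈ i.divisors, ∑ P ∈ Pr F d, (d : ℝ) * (2 + 2 * (θ P ^ (i / d)).re)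

private theorem coeff_LL (θ : F[X] → ℂ) (i : ℕ) :
    PowerSeries.coeff i (LL θ) = ((la θ i : ℝ) : ℂ) := by
  unfold LL gL la Ls
  simp only [map_add, PowerSeries.coeff_mk]
  rw [← Finset.sum_add_distrib, ← Finset.sum_add_distrib, ← Finset.sum_add_distrib]
  push_cast
  refine Finset.sum_congr rfl fun d _ => ?_
  rw [← Finset.sum_add_distrib, ← Finset.sum_add_distrib, ← Finset.sum_add_distrib]
  refine Finset.sum_congr rfl fun P _ => ?_
  have h1 : (((θ P ^ (i / d)).re : ℝ) : ℂ) =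
      (θ P ^ (i / d) + (starRingEnd ℂ) (θ P) ^ (i / d)) / 2 := by
    rw [Complex.re_eq_add_conj, map_pow]
  rw [h1, one_pow]
  ring

private theorem re_ge {θ : F[X] → ℂ} (h : CMc θ) {P : F[X]} (hP : P.Monic) (k : ℕ) :
    0 ≤ 2 + 2 * (θ P ^ k).re := by
  have h1 : |(θ P ^ k).re| ≤ ‖θ P ^ k‖ := Complex.abs_re_le_norm _
  have h2 : ‖θ P ^ k‖ ≤ 1 := by
    rw [norm_pow]
    exact pow_le_one₀ (norm_nonneg _) (h.le P hP)
  have h3 := (abs_le.1 (h1.trans h2)).1
  linarith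

private theorem la_nonneg {θ : F[X] → ℂ} (h : CMc θ) (i : ℕ) : 0 ≤ la θ i :=
  Finset.sum_nonneg fun d _ => Finset.sum_nonneg fun P hP =>
    mul_nonneg (Nat.cast_nonneg _) (re_ge h (mem_Pr.1 hP).1 _)

private theorem le_la {θ : F[X] → ℂ} (h : CMc θ) {i : ℕ} (hi : 1 ≤ i) :
    ∑ P ∈ Pr F i, (i : ℝ) * (2 + 2 * (θ P).re) ≤ la θ i := by
  unfold la
  have h1 : ∑ P ∈ Pr F i, (i : ℝ) * (2 + 2 * (θ P).re) =
      ∑ P ∈ Pr F i, (i : ℝ) * (2 + 2 * (θ P ^ (i / i)).re) := by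
    rw [Nat.div_self hi]
    simp only [pow_one]
  rw [h1]
  refine Finset.single_le_sum (f := fun d => ∑ P ∈ Pr F d, (d : ℝ) * (2 + 2 * (θ P ^ (i / d)).re))
    (fun d _ => Finset.sum_nonneg fun P hP =>
      mul_nonneg (Nat.cast_nonneg _) (re_ge h (mem_Pr.1 hP).1 _)) ?_
  exact Nat.mem_divisors_self i (by omega)

private theorem RR_real {θ : F[X] → ℂ} (h : CMc θ) (f : F[X] → ℝ) (hf : ∀ P, 0 ≤ f P)
    (hfm : ∀ P, P.Monic → f P = 2 + 2 * (θ P).re) (j : ℕ) :
    ∃ r : ℝ, PowerSeries.coeff j (RR θ) = (r : ℂ) ∧ SS f j ≤ r := by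
  induction j using Nat.strong_induction_on with
  | _ j ih =>
    rcases Nat.eq_zero_or_pos j with hj | hj
    · subst hj
      refine ⟨1, ?_, (SS_zero f).le⟩
      unfold RR gB
      rw [PowerSeries.coeff_zero_eq_constantCoeff_apply, map_mul, map_mul, map_mul,
        ← PowerSeries.coeff_zero_eq_constantCoeff_apply,
        ← PowerSeries.coeff_zero_eq_constantCoeff_apply,
        ← PowerSeries.coeff_zero_eq_constantCoeff_apply, PowerSeries.coeff_mk,
        PowerSeries.coeff_mk, PowerSeries.coeff_mk, Bs_zero h, Bs_zero h.conj, Bs_zero CMc.const]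
      norm_num
    · choose! r hr1 hr2 using ih
      have h0 : PowerSeries.coeff 0 (LL θ) = 0 := by
        rw [coeff_LL]
        unfold la
        rw [Nat.divisors_zero, Finset.sum_empty]
        simp
      have h1 : (j : ℂ) * PowerSeries.coeff j (RR θ) =
          ((∑ i ∈ Finset.Icc 1 j, la θ i * r (j - i) : ℝ) : ℂ) := by
        rw [← coeff_eu, eu_RR h, coeff_mul_Icc _ _ h0]
        push_cast
        refine Finset.sum_congr rfl fun i hi => ?_
        rw [Finset.mem_Icc] at hi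
        rw [coeff_LL, hr1 (j - i) (by omega)]
      have hj0 : (j : ℝ) ≠ 0 := by exact_mod_cast hj.ne'
      have hjc : (j : ℂ) ≠ 0 := by exact_mod_cast hj.ne'
      refine ⟨(∑ i ∈ Finset.Icc 1 j, la θ i * r (j - i)) / j, ?_, ?_⟩
      · push_cast
        rw [eq_div_iff hjc, mul_comm, h1]
        push_cast
        rfl
      · rw [le_div_iff₀ (by exact_mod_cast hj), mul_comm]
        refine (ss_rec f hf j).trans ?_
        refine Finset.sum_le_sum fun i hi => ?_
        rw [Finset.mem_Icc] at hi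
        have h2 : ∑ P ∈ Pr F i, (i : ℝ) * f P = ∑ P ∈ Pr F i, (i : ℝ) * (2 + 2 * (θ P).re) :=
          Finset.sum_congr rfl fun P hP => by rw [hfm P (mem_Pr.1 hP).1]
        rw [h2]
        exact mul_le_mul (le_la h hi.1) (hr2 (j - i) (by omega)) (ssr_SS_nonneg f hf _)
          (la_nonneg h i)

private theorem norm_ZL {θ : F[X] → ℂ} (K : ℝ)
    (hK : ∀ j : ℕ, ‖∑ i ∈ Finset.range (j + 1), Bs θ i / (Nat.card F : ℂ) ^ i‖ ≤ K) (j : ℕ) :
    ‖PowerSeries.coeff j (gB (fun _ : F[X] => (1 : ℂ)) * gB θ)‖ ≤ (Nat.card F : ℝ) ^ j * K := by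
  have hq : (Nat.card F : ℂ) ≠ 0 := by exact_mod_cast Nat.card_pos.ne'
  have h1 : PowerSeries.coeff j (gB (fun _ : F[X] => (1 : ℂ)) * gB θ) =
      (Nat.card F : ℂ) ^ j * ∑ i ∈ Finset.range (j + 1), Bs θ i / (Nat.card F : ℂ) ^ i := by
    rw [mul_comm (gB _), PowerSeries.coeff_mul, Finset.Nat.sum_antidiagonal_eq_sum_range_succ
      (fun a b => PowerSeries.coeff a (gB θ) *
        PowerSeries.coeff b (gB (fun _ : F[X] => (1 : ℂ)))), Finset.mul_sum]
    refine Finset.sum_congr rfl fun i hi => ?_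
    rw [Finset.mem_range] at hi
    unfold gB
    rw [PowerSeries.coeff_mk, PowerSeries.coeff_mk]
    have h2 : Bs (fun _ : F[X] => (1 : ℂ)) (j - i) = (Nat.card F : ℂ) ^ (j - i) := by
      unfold Bs
      rw [Finset.sum_const, PC.card_Mo, nsmul_eq_mul, mul_one]
      push_cast
      rfl
    rw [h2, pow_sub₀ _ hq (by omega)]
    ring
  rw [h1, norm_mul, norm_pow, Complex.norm_natCast]
  exact mul_le_mul_of_nonneg_left (hK j) (by positivity)

theorem cmp {θ : F[X] → ℂ} (h : CMc θ) (K : ℝ)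
    (hK : ∀ j : ℕ, ‖∑ i ∈ Finset.range (j + 1), Bs θ i / (Nat.card F : ℂ) ^ i‖ ≤ K) (j : ℕ) :
    SS (fun P => 2 + 2 * (θ P).re) j ≤ (j + 1) * K ^ 2 * (Nat.card F : ℝ) ^ j := by
  classical
  set f : F[X] → ℝ := fun P => if P.Monic then 2 + 2 * (θ P).re else 0 with hf
  have hfm : ∀ P : F[X], P.Monic → f P = 2 + 2 * (θ P).re := by
    intro P hP
    simp only [hf]
    rw [if_pos hP]
  have hf0 : ∀ P, 0 ≤ f P := by
    intro P
    simp only [hf]
    split_ifs with h1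
    · have := re_ge h h1 1
      rwa [pow_one] at this
    · exact le_rfl
  have hSS : SS (fun P => 2 + 2 * (θ P).re) j = SS f j := by
    unfold SS
    refine Finset.sum_congr rfl fun D _ => ?_
    refine Finset.prod_congr rfl fun P hP => ?_
    rw [hfm P (mem_pf' hP).1]
  obtain ⟨r, hr1, hr2⟩ := RR_real h f hf0 hfm j
  have hK' : ∀ j : ℕ, ‖∑ i ∈ Finset.range (j + 1),
      Bs (fun A => (starRingEnd ℂ) (θ A)) i / (Nat.card F : ℂ) ^ i‖ ≤ K := by
    intro j
    have h1 : ∑ i ∈ Finset.range (j + 1),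
        Bs (fun A => (starRingEnd ℂ) (θ A)) i / (Nat.card F : ℂ) ^ i =
        (starRingEnd ℂ) (∑ i ∈ Finset.range (j + 1), Bs θ i / (Nat.card F : ℂ) ^ i) := by
      rw [map_sum]
      refine Finset.sum_congr rfl fun i _ => ?_
      rw [map_div₀, map_pow, map_natCast]
      unfold Bs
      rw [map_sum]
    rw [h1, Complex.norm_conj]
    exact hK j
  have hK0 : 0 ≤ K := (norm_nonneg _).trans (hK 0)
  have h2 : ‖PowerSeries.coeff j (RR θ)‖ ≤ (j + 1) * K ^ 2 * (Nat.card F : ℝ) ^ j := by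
    unfold RR
    rw [PowerSeries.coeff_mul]
    refine (norm_sum_le _ _).trans ?_
    have h3 : ∀ x ∈ Finset.HasAntidiagonal.antidiagonal j,
        ‖PowerSeries.coeff x.1 (gB (fun _ : F[X] => (1 : ℂ)) * gB θ) *
          PowerSeries.coeff x.2 (gB (fun _ : F[X] => (1 : ℂ)) *
            gB (fun A => (starRingEnd ℂ) (θ A)))‖ ≤ K ^ 2 * (Nat.card F : ℝ) ^ j := by
      intro x hx
      rw [norm_mul]
      refine (mul_le_mul (norm_ZL K hK x.1) (norm_ZL K hK' x.2) (norm_nonneg _)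
        (by positivity)).trans (le_of_eq ?_)
      rw [← Finset.HasAntidiagonal.mem_antidiagonal.1 hx, pow_add]
      ring
    refine (Finset.sum_le_sum h3).trans (le_of_eq ?_)
    rw [Finset.sum_const, Finset.Nat.card_antidiagonal, nsmul_eq_mul]
    push_cast
    ring
  rw [hSS]
  refine hr2.trans ?_
  rw [hr1, Complex.norm_real] at h2
  exact (le_abs_self r).trans h2

end Pool.Agent.H94.PL
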