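import Pool.Agent.H94.PL.Defs
import Pool.Agent.H94.PC.JsN

set_option autoImplicit false

/-!
# [H94 PL CS] The `ℓ`-th power residue symbol for polynomials
-/

namespace Pool.Agent.H94.PL

open Polynomial
open Pool.Agent.H94.PC (Mo Sq Pr pf om Mn mem_Mo mem_Sq mem_Pr mem_pf mem_pf' res_deg)

section lg
variable {F : Type} [Field F] {ℓ : ℕ} (χ : LChar F ℓ)

theorem lg_one : χ.lg 1 = 0 := by
  have h := χ.mul (one_ne_zero (α := F)) one_ne_zero
  rw [mul_one] at h
  exact left_eq_add.1 h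

theorem lg_pow {x : F} (hx : x ≠ 0) (n : ℕ) : χ.lg (x ^ n) = n * χ.lg x := by
  induction n with
  | zero => rw [pow_zero, lg_one, Nat.cast_zero, zero_mul]
  | succ n ih => rw [pow_succ, χ.mul (pow_ne_zero n hx) hx, ih]; push_cast; ring

theorem lg_inv {x : F} (hx : x ≠ 0) : χ.lg x⁻¹ = -χ.lg x := by
  have h := χ.mul hx (inv_ne_zero hx)
  rw [mul_inv_cancel₀ hx, lg_one] at h
  exact (neg_eq_of_add_eq_zero_right h.symm).symm

theorem lg_zpow {x : F} (hx : x ≠ 0) (n : ℤ) : χ.lg (x ^ n) = n * χ.lg x := by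
  cases n with
  | ofNat n => rw [Int.ofNat_eq_natCast, zpow_natCast, lg_pow χ hx]; push_cast; ring
  | negSucc n =>
    rw [zpow_negSucc, lg_inv χ (pow_ne_zero _ hx), lg_pow χ hx, Int.cast_negSucc]; ring

theorem lg_prod {ι : Type*} (s : Finset ι) (f : ι → F) (hf : ∀ i ∈ s, f i ≠ 0) :
    χ.lg (∏ i ∈ s, f i) = ∑ i ∈ s, χ.lg (f i) := by
  classical
  induction s using Finset.induction_on with
  | empty => rw [Finset.prod_empty, Finset.sum_empty, lg_one]
  | insert a s ha ih =>
    rw [Finset.prod_insert ha, Finset.sum_insert ha, χ.mul (hf a (Finset.mem_insert_self a s))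
      (Finset.prod_ne_zero_iff.2 fun i hi => hf i (Finset.mem_insert_of_mem hi)),
      ih fun i hi => hf i (Finset.mem_insert_of_mem hi)]

theorem lg_neg_one [Fact ℓ.Prime] (hl : ℓ ≠ 2) : χ.lg (-1) = 0 := by
  have h := χ.mul (neg_ne_zero.2 (one_ne_zero (α := F))) (neg_ne_zero.2 one_ne_zero)
  rw [neg_one_mul, neg_neg, lg_one] at h
  have h2 : (2 : ZMod ℓ) * χ.lg (-1) = 0 := by rw [two_mul]; exact h.symm
  rcases mul_eq_zero.1 h2 with h3 | h3
  · exfalso
    have h4 : ((2 : ℕ) : ZMod ℓ) = 0 := by exact_mod_cast h3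
    rw [ZMod.natCast_eq_zero_iff] at h4
    exact hl ((Nat.prime_dvd_prime_iff_eq Fact.out Nat.prime_two).1 h4)
  · exact h3

theorem lg_neg [Fact ℓ.Prime] (hl : ℓ ≠ 2) (x : F) : χ.lg (-x) = χ.lg x := by
  by_cases hx : x = 0
  · rw [hx, neg_zero]
  · rw [← neg_one_mul, χ.mul (neg_ne_zero.2 one_ne_zero) hx, lg_neg_one χ hl, zero_add]

theorem lg_pow_l {x : F} (hx : x ≠ 0) : χ.lg (x ^ ℓ) = 0 := by
  rw [lg_pow χ hx, ZMod.natCast_self, zero_mul]

theorem exists_lg (e : ZMod ℓ) [NeZero ℓ] : ∃ x : F, x ≠ 0 ∧ χ.lg x = e := by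
  obtain ⟨x, hx, h⟩ := χ.surj
  refine ⟨x ^ e.val, pow_ne_zero _ hx, ?_⟩
  rw [lg_pow χ hx, h, mul_one, ZMod.natCast_zmod_val]

end lg

section chc
variable {F : Type} [Field F] {ℓ : ℕ} [NeZero ℓ] (χ : LChar F ℓ)

theorem chc_zero : chc χ (0 : F) = 0 := by rw [chc, if_pos rfl]

theorem chc_ne {c : F} (hc : c ≠ 0) : chc χ c = ps (χ.lg c) := by rw [chc, if_neg hc]

theorem chc_one : chc χ (1 : F) = 1 := by rw [chc_ne χ one_ne_zero, lg_one, ps_zero]

theorem chc_mul (a b : F) : chc χ (a * b) = chc χ a * chc χ b := by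
  by_cases ha : a = 0
  · rw [ha, zero_mul, chc_zero, zero_mul]
  by_cases hb : b = 0
  · rw [hb, mul_zero, chc_zero, mul_zero]
  rw [chc_ne χ ha, chc_ne χ hb, chc_ne χ (mul_ne_zero ha hb), χ.mul ha hb, ps_add]

theorem chc_pow (a : F) (n : ℕ) : chc χ (a ^ n) = chc χ a ^ n := by
  induction n with
  | zero => rw [pow_zero, pow_zero, chc_one]
  | succ n ih => rw [pow_succ, pow_succ, chc_mul, ih]

theorem chc_eq_zero {a : F} : chc χ a = 0 ↔ a = 0 := by
  constructor
  · intro h
    by_contra h0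
    rw [chc_ne χ h0] at h
    exact ps_ne_zero _ h
  · rintro rfl
    exact chc_zero χ

theorem norm_chc {a : F} (ha : a ≠ 0) : ‖chc χ a‖ = 1 := by rw [chc_ne χ ha, norm_ps]

theorem norm_chc_le (a : F) : ‖chc χ a‖ ≤ 1 := by
  by_cases ha : a = 0
  · rw [ha, chc_zero, norm_zero]
    exact zero_le_one
  · rw [norm_chc χ ha]

end chc

section lm
variable {F : Type} [Field F] {ℓ : ℕ} (χ : LChar F ℓ)

theorem lm_def_deg {B : F[X]} (hB : B.Monic) {A : F[X]} {n : ℕ} (hn : A.natDegree ≤ n) :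
    χ.lg (resultant B A B.natDegree n) = lm χ A B := by
  obtain ⟨k, rfl⟩ := Nat.exists_eq_add_of_le hn
  rw [resultant_add_right_deg _ _ _ _ _ le_rfl, hB.coeff_natDegree, one_pow, one_mul]
  rfl

theorem res_ne_zero {A B : F[X]} (hB : B.Monic) (h : IsCoprime A B) : resultant B A ≠ 0 := by
  rw [← isUnit_iff_ne_zero, isUnit_resultant_iff_isCoprime hB, isCoprime_comm]
  exact h

theorem res_eq_zero {A B : F[X]} (hB : B.Monic) (h : ¬ IsCoprime A B) : resultant B A = 0 := by
  by_contra h0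
  rw [← Ne, ← isUnit_iff_ne_zero, isUnit_resultant_iff_isCoprime hB, isCoprime_comm] at h0
  exact h h0

theorem res_mul_left {B : F[X]} (hB : B.Monic) (A A' : F[X]) :
    resultant B (A * A') = resultant B A * resultant B A' := by
  have h : resultant B (A * A') B.natDegree (A.natDegree + A'.natDegree) =
      resultant B (A * A') := by
    obtain ⟨k, hk⟩ := Nat.exists_eq_add_of_le (natDegree_mul_le (p := A) (q := A'))
    rw [hk, resultant_add_right_deg _ _ _ _ _ le_rfl, hB.coeff_natDegree, one_pow, one_mul]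
  rw [← h, resultant_mul_right _ _ _ _ le_rfl]

theorem res_mul_right (A : F[X]) {B B' : F[X]} (hB : B.Monic) (hB' : B'.Monic) :
    resultant (B * B') A = resultant B A * resultant B' A := by
  rw [hB.natDegree_mul hB', resultant_mul_left _ _ _ _ le_rfl]

theorem res_congr {A A' B : F[X]} (hB : B.Monic) (h : B ∣ A - A') :
    resultant B A = resultant B A' := by
  obtain ⟨p, hp⟩ := h
  have hA : A = A' + B * p := by rw [← hp]; ring
  have h1 : A.natDegree ≤ max (max A.natDegree A'.natDegree) (p.natDegree + B.natDegree) :=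
    le_trans (le_max_left _ _) (le_max_left _ _)
  have h2 : A'.natDegree ≤ max (max A.natDegree A'.natDegree) (p.natDegree + B.natDegree) :=
    le_trans (le_max_right _ _) (le_max_left _ _)
  have hd : ∀ {E : F[X]} {n : ℕ}, E.natDegree ≤ n →
      resultant B E B.natDegree n = resultant B E := by
    intro E n hn
    obtain ⟨k, rfl⟩ := Nat.exists_eq_add_of_le hn
    rw [resultant_add_right_deg _ _ _ _ _ le_rfl, hB.coeff_natDegree, one_pow, one_mul]
  rw [← hd h1, ← hd h2]
  have h3 := resultant_add_mul_right B A' p B.natDegree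
    (max (max A.natDegree A'.natDegree) (p.natDegree + B.natDegree)) (le_max_right _ _) le_rfl
  rw [← hA] at h3
  exact h3

theorem lm_mul_left {A A' B : F[X]} (hB : B.Monic) (h : IsCoprime A B) (h' : IsCoprime A' B) :
    lm χ (A * A') B = lm χ A B + lm χ A' B := by
  rw [lm, res_mul_left hB, χ.mul (res_ne_zero hB h) (res_ne_zero hB h')]
  rfl

theorem lm_mul_right {A B B' : F[X]} (hB : B.Monic) (hB' : B'.Monic) (h : IsCoprime A B)
    (h' : IsCoprime A B') : lm χ A (B * B') = lm χ A B + lm χ A B' := by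
  rw [lm, res_mul_right A hB hB', χ.mul (res_ne_zero hB h) (res_ne_zero hB' h')]
  rfl

theorem lm_one_left {B : F[X]} (_hB : B.Monic) : lm χ 1 B = 0 := by
  rw [lm, resultant_one_right, natDegree_one, pow_zero, lg_one]

theorem lm_one_right (A : F[X]) : lm χ A 1 = 0 := by
  rw [lm, resultant_one_left, natDegree_one, zero_mul, pow_zero, pow_zero, one_mul, lg_one]

theorem lm_congr {A A' B : F[X]} (hB : B.Monic) (h : B ∣ A - A') : lm χ A B = lm χ A' B := by
  rw [lm, lm, res_congr hB h]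

theorem lm_pow_left {A B : F[X]} (hB : B.Monic) (h : IsCoprime A B) (n : ℕ) :
    lm χ (A ^ n) B = n * lm χ A B := by
  induction n with
  | zero => rw [pow_zero, lm_one_left χ hB, Nat.cast_zero, zero_mul]
  | succ n ih => rw [pow_succ, lm_mul_left χ hB h.pow_left h, ih]; push_cast; ring

theorem lm_prod_left {ι : Type*} (s : Finset ι) (g : ι → F[X]) {B : F[X]} (hB : B.Monic)
    (h : ∀ i ∈ s, IsCoprime (g i) B) : lm χ (∏ i ∈ s, g i) B = ∑ i ∈ s, lm χ (g i) B := by
  classical
  induction s using Finset.induction_on with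
  | empty => rw [Finset.prod_empty, Finset.sum_empty, lm_one_left χ hB]
  | insert a s ha ih =>
    rw [Finset.prod_insert ha, Finset.sum_insert ha, lm_mul_left χ hB
      (h a (Finset.mem_insert_self a s))
      (IsCoprime.prod_left fun i hi => h i (Finset.mem_insert_of_mem hi)),
      ih fun i hi => h i (Finset.mem_insert_of_mem hi)]

theorem lm_prod_right {ι : Type*} (s : Finset ι) (A : F[X]) (g : ι → F[X])
    (hg : ∀ i ∈ s, (g i).Monic) (h : ∀ i ∈ s, IsCoprime A (g i)) :
    lm χ A (∏ i ∈ s, g i) = ∑ i ∈ s, lm χ A (g i) := by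
  classical
  induction s using Finset.induction_on with
  | empty => rw [Finset.prod_empty, Finset.sum_empty, lm_one_right]
  | insert a s ha ih =>
    rw [Finset.prod_insert ha, Finset.sum_insert ha, lm_mul_right χ
      (hg a (Finset.mem_insert_self a s))
      (monic_prod_of_monic _ _ fun i hi => hg i (Finset.mem_insert_of_mem hi))
      (h a (Finset.mem_insert_self a s))
      (IsCoprime.prod_right fun i hi => h i (Finset.mem_insert_of_mem hi)),
      ih (fun i hi => hg i (Finset.mem_insert_of_mem hi))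
        fun i hi => h i (Finset.mem_insert_of_mem hi)]

theorem lm_C {B : F[X]} (hB : B.Monic) {c : F} (hc : c ≠ 0) :
    lm χ (C c) B = (B.natDegree : ZMod ℓ) * χ.lg c := by
  rw [lm, resultant_C_right, natDegree_C, pow_zero, one_mul, lg_pow χ hc]

theorem lm_recip [Fact ℓ.Prime] (hl : ℓ ≠ 2) (A B : F[X]) : lm χ A B = lm χ B A := by
  rw [lm, lm, resultant_comm]
  rcases Nat.even_or_odd (B.natDegree * A.natDegree) with h | h
  · rw [h.neg_one_pow, one_mul]
  · rw [h.neg_one_pow, neg_one_mul, lg_neg χ hl]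

end lm

section cs
variable {F : Type} [Field F] {ℓ : ℕ} [NeZero ℓ] (χ : LChar F ℓ)

theorem cs_mul_left {B : F[X]} (hB : B.Monic) (A A' : F[X]) :
    cs χ (A * A') B = cs χ A B * cs χ A' B := by
  rw [cs, res_mul_left hB, chc_mul]
  rfl

theorem cs_mul_right (A : F[X]) {B B' : F[X]} (hB : B.Monic) (hB' : B'.Monic) :
    cs χ A (B * B') = cs χ A B * cs χ A B' := by
  rw [cs, res_mul_right A hB hB', chc_mul]
  rfl

theorem cs_one_left {B : F[X]} (_hB : B.Monic) : cs χ 1 B = 1 := by
  rw [cs, resultant_one_right, natDegree_one, pow_zero, chc_one]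

theorem cs_one_right (A : F[X]) : cs χ A 1 = 1 := by
  rw [cs, resultant_one_left, natDegree_one, zero_mul, pow_zero, pow_zero, one_mul, chc_one]

theorem norm_cs_le (A B : F[X]) : ‖cs χ A B‖ ≤ 1 := norm_chc_le χ _

theorem cs_eq_zero {A B : F[X]} (hB : B.Monic) (h : ¬ IsCoprime A B) : cs χ A B = 0 := by
  rw [cs, res_eq_zero hB h, chc_zero]

theorem cs_of_coprime {A B : F[X]} (hB : B.Monic) (h : IsCoprime A B) :
    cs χ A B = ps (lm χ A B) := by
  rw [cs, chc_ne χ (res_ne_zero hB h)]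
  rfl

theorem norm_cs {A B : F[X]} (hB : B.Monic) (h : IsCoprime A B) : ‖cs χ A B‖ = 1 := by
  rw [cs_of_coprime χ hB h, norm_ps]

theorem cs_congr {A A' B : F[X]} (hB : B.Monic) (h : B ∣ A - A') : cs χ A B = cs χ A' B := by
  rw [cs, cs, res_congr hB h]

theorem cs_pow_left {B : F[X]} (hB : B.Monic) (A : F[X]) (n : ℕ) :
    cs χ (A ^ n) B = cs χ A B ^ n := by
  induction n with
  | zero => rw [pow_zero, pow_zero, cs_one_left χ hB]
  | succ n ih => rw [pow_succ, pow_succ, cs_mul_left χ hB, ih]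

theorem cs_pow_right (A : F[X]) {P : F[X]} (hP : P.Monic) (n : ℕ) :
    cs χ A (P ^ n) = cs χ A P ^ n := by
  induction n with
  | zero => rw [pow_zero, pow_zero, cs_one_right]
  | succ n ih => rw [pow_succ, pow_succ, cs_mul_right χ A (hP.pow n) hP, ih]

theorem cs_prod_left {ι : Type*} (s : Finset ι) (f : ι → F[X]) {B : F[X]} (hB : B.Monic) :
    cs χ (∏ i ∈ s, f i) B = ∏ i ∈ s, cs χ (f i) B := by
  classical
  induction s using Finset.induction_on with
  | empty => rw [Finset.prod_empty, Finset.prod_empty, cs_one_left χ hB]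
  | insert a s ha ih => rw [Finset.prod_insert ha, Finset.prod_insert ha, cs_mul_left χ hB, ih]

theorem cs_C {B : F[X]} (_hB : B.Monic) (c : F) : cs χ (C c) B = chc χ c ^ B.natDegree := by
  rw [cs, resultant_C_right, natDegree_C, pow_zero, one_mul, chc_pow]

theorem cs_recip [Fact ℓ.Prime] (hl : ℓ ≠ 2) (A B : F[X]) : cs χ A B = cs χ B A := by
  have hn : ∀ x : F, chc χ (-x) = chc χ x := by
    intro x
    by_cases hx : x = 0
    · rw [hx, neg_zero]
    · rw [chc_ne χ hx, chc_ne χ (neg_ne_zero.2 hx), lg_neg χ hl]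
  rw [cs, cs, resultant_comm]
  rcases Nat.even_or_odd (B.natDegree * A.natDegree) with h | h
  · rw [h.neg_one_pow, one_mul]
  · rw [h.neg_one_pow, neg_one_mul, hn]

end cs

end Pool.Agent.H94.PL
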