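import Pool.Agent.H94.PC.Defs

set_option autoImplicit false

/-!
# [H94 PL] Selmer groups of `ℓ`-twists on average: definitions

`F` is a finite field with `q` elements, `ℓ` an odd prime dividing `q - 1`.
The polynomial sets `Mo`, `Sq`, `Pr`, `pf`, `om`, `Mn` are those of `H94.PC`.
-/

namespace Pool.Agent.H94.PL

open Polynomial
open Pool.Agent.H94.PC (Mo Sq Pr pf om Mn mem_Mo mem_Sq mem_Pr mem_pf mem_pf')

/-- a surjective logarithm `F^* → ZMod ℓ` with kernel the `ℓ`-th powers -/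
structure LChar (F : Type) [Field F] (ℓ : ℕ) where
  /-- the logarithm (any value at `0`) -/
  lg : F → ZMod ℓ
  mul : ∀ {x y : F}, x ≠ 0 → y ≠ 0 → lg (x * y) = lg x + lg y
  surj : ∃ x : F, x ≠ 0 ∧ lg x = 1
  ker : ∀ {x : F}, x ≠ 0 → lg x = 0 → ∃ y : F, y ≠ 0 ∧ x = y ^ ℓ

/-- the additive character `exp (2 π i a / ℓ)` -/
noncomputable def ps {ℓ : ℕ} [NeZero ℓ] (a : ZMod ℓ) : ℂ := ZMod.stdAddChar a

section
variable {ℓ : ℕ} [NeZero ℓ]

theorem ps_zero : ps (0 : ZMod ℓ) = 1 := AddChar.map_zero_eq_one _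

theorem ps_add (a b : ZMod ℓ) : ps (a + b) = ps a * ps b := AddChar.map_add_eq_mul _ a b

theorem norm_ps (a : ZMod ℓ) : ‖ps a‖ = 1 := by
  rw [ps, AddChar.norm_apply]

theorem ps_ne_zero (a : ZMod ℓ) : ps a ≠ 0 := by
  intro h
  have := norm_ps a
  rw [h, norm_zero] at this
  exact zero_ne_one this

theorem ps_sum {ι : Type*} (s : Finset ι) (f : ι → ZMod ℓ) :
    ps (∑ i ∈ s, f i) = ∏ i ∈ s, ps (f i) := by
  classical
  induction s using Finset.induction_on with
  | empty => rw [Finset.sum_empty, Finset.prod_empty, ps_zero]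
  | insert a s ha ih => rw [Finset.sum_insert ha, Finset.prod_insert ha, ps_add, ih]

theorem ps_natCast_mul (n : ℕ) (a : ZMod ℓ) : ps ((n : ZMod ℓ) * a) = ps a ^ n := by
  rw [ps, ps, ← nsmul_eq_mul, AddChar.map_nsmul_eq_pow]

theorem ps_mul_val (e a : ZMod ℓ) : ps (e * a) = ps a ^ e.val := by
  rw [← ps_natCast_mul, ZMod.natCast_zmod_val]

theorem ps_inj {a b : ZMod ℓ} (h : ps a = ps b) : a = b := ZMod.injective_stdAddChar h

theorem ps_eq_one_iff {a : ZMod ℓ} : ps a = 1 ↔ a = 0 := by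
  constructor
  · intro h
    exact ps_inj (h.trans ps_zero.symm)
  · rintro rfl
    exact ps_zero

theorem ps_neg (a : ZMod ℓ) : ps (-a) = (starRingEnd ℂ) (ps a) := by
  have h : ps (-a) * ps a = 1 := by rw [← ps_add, neg_add_cancel, ps_zero]
  have h2 : (starRingEnd ℂ) (ps a) * ps a = 1 := by
    rw [Complex.conj_mul', norm_ps]
    norm_num
  exact mul_right_cancel₀ (ps_ne_zero a) (h.trans h2.symm)

/-- orthogonality -/
theorem sum_ps_mul (a : ZMod ℓ) : ∑ e : ZMod ℓ, ps (e * a) = if a = 0 then (ℓ : ℂ) else 0 := by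
  classical
  have h := AddChar.sum_mulShift (R := ZMod ℓ) (R' := ℂ) (ψ := ZMod.stdAddChar) a
    (ZMod.isPrimitive_stdAddChar ℓ)
  rw [ZMod.card] at h
  exact_mod_cast h

end

section
variable {F : Type} [Field F] {ℓ : ℕ}

/-- the exponent of the symbol `(A / B)` for monic `B` -/
noncomputable def lm (χ : LChar F ℓ) (A B : F[X]) : ZMod ℓ := χ.lg (resultant B A)

/-- the character of `F^*`, extended by `0` -/
noncomputable def chc [NeZero ℓ] (χ : LChar F ℓ) (c : F) : ℂ := by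
  classical exact if c = 0 then 0 else ps (χ.lg c)

/-- the symbol `(A / B)` for monic `B`, `0` if `A`, `B` are not coprime -/
noncomputable def cs [NeZero ℓ] (χ : LChar F ℓ) (A B : F[X]) : ℂ := chc χ (resultant B A)

end

/-! ## Configurations -/

/-- exponents of the symbols -/
structure CD (V : Type) (ℓ : ℕ) where
  /-- the number `N` -/
  N : ℕ
  /-- exponent of `(D_w / D_u)` -/
  Phi : V → V → ZMod ℓ

namespace CD
variable {V : Type} {ℓ : ℕ} (C : CD V ℓ)

/-- linking numbers -/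
def lk (u w : V) : ZMod ℓ := C.Phi u w + C.Phi w u

theorem lk_comm (u w : V) : C.lk u w = C.lk w u := add_comm _ _

/-- unlinked sets -/
def Unl (U : Finset V) : Prop := ∀ u ∈ U, ∀ w ∈ U, C.lk u w = 0

/-- `N` is the maximal cardinality of an unlinked set, and maximal sets have the
nonconstancy property -/
structure Good : Prop where
  pos : 1 ≤ C.N
  self : ∀ u, C.Phi u u = 0
  card_le : ∀ U : Finset V, C.Unl U → U.card ≤ C.N
  nonconst : ∀ U : Finset V, C.Unl U → U.card = C.N → ∀ w, w ∉ U →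
    ∃ u ∈ U, ∃ u' ∈ U, C.lk u w ≠ C.lk u' w

end CD

section
variable {F : Type} [Field F] [Finite F]

theorem finite_Cl (Δ : F[X]) (n : ℕ) :
    {D : F[X] | D.Monic ∧ D.natDegree = n ∧ Squarefree D ∧ IsCoprime D Δ}.Finite :=
  (PC.finite_natDegree_le F n).subset fun _ h => h.2.1.le

/-- the monic squarefree polynomials of degree `n` prime to `Δ` -/
noncomputable def Cls (Δ : F[X]) (n : ℕ) : Finset F[X] := (finite_Cl Δ n).toFinset

theorem mem_Cls {Δ : F[X]} {n : ℕ} {D : F[X]} :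
    D ∈ Cls Δ n ↔ D.Monic ∧ D.natDegree = n ∧ Squarefree D ∧ IsCoprime D Δ := by
  rw [Cls, Set.Finite.mem_toFinset]; rfl

variable {ℓ : ℕ} [NeZero ℓ] {V : Type} [Fintype V]

/-- the unimodular factor of a configuration which involves one variable -/
noncomputable def et (χ : LChar F ℓ) (Δ : F[X]) (b : V → ZMod ℓ) (g : V → pf Δ → ZMod ℓ) (u : V)
    (A : F[X]) : ℂ :=
  ps (b u * (A.natDegree : ZMod ℓ)) * ∏ v : pf Δ, ps (g u v * lm χ v.1 A)

/-- the weight of a configuration -/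
noncomputable def termL (χ : LChar F ℓ) (C : CD V ℓ) (Δ : F[X]) (b : V → ZMod ℓ)
    (g : V → pf Δ → ZMod ℓ) (x : V → F[X]) : ℂ :=
  (1 / (C.N : ℂ)) ^ om (∏ u, x u) * (∏ u, et χ Δ b g u (x u)) *
    ∏ u, ∏ w, ps (C.Phi u w * lm χ (x w) (x u))

/-- the weight, restricted to configurations with product in the class -/
noncomputable def WL (χ : LChar F ℓ) (C : CD V ℓ) (Δ : F[X]) (b : V → ZMod ℓ)
    (g : V → pf Δ → ZMod ℓ) (n : ℕ) (x : V → Mn F n) : ℂ := by
  classical exact if (∏ u, (x u).1) ∈ Cls Δ n then termL χ C Δ b g fun u => (x u).1 else 0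

end

/-- `(b, g)` is constant on `U` -/
def Cst {V S : Type} {ℓ : ℕ} (b : V → ZMod ℓ) (g : V → S → ZMod ℓ) (U : Finset V) : Prop :=
  ∀ u ∈ U, ∀ u' ∈ U, b u = b u' ∧ g u = g u'

open Classical in
/-- the maximal unlinked sets on which `(b, g)` is constant -/
noncomputable def MaxC {V S : Type} [Fintype V] {ℓ : ℕ} (C : CD V ℓ) (b : V → ZMod ℓ)
    (g : V → S → ZMod ℓ) : Finset (Finset V) :=
  (Finset.univ : Finset (Finset V)).filter fun U => C.Unl U ∧ U.card = C.N ∧ Cst b g U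

end Pool.Agent.H94.PL
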