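import Pool.Agent.H94.PL.PSR

set_option autoImplicit false

/-!
# [H94 PL MV] Mean values

`mv_const`: `SS_le` (with `M = 1`) and `PS_const`: `SS κ m ≤ q ^ m / m * exp (κ (1 + log m))
≤ 3 q ^ m m ^ (κ - 1)` (`exp κ ≤ exp 1 < 3`).

`mv_re`: `0 ≤ f P ≤ 1 - 1 / (2 N) + Re θ(P) / (2 N)` for monic irreducible `P`, `N ≥ 1`.  Adapt
`PC/SSTheta.lean`: replace `f` by `0` at the polynomials which are not monic irreducible (`SS`
and `PS` do not change: `mem_pf'`, `mem_Pr`); then `f ≤ 1` everywhere (`Re θ P ≤ ‖θ P‖ ≤ 1`).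
`1 - 1 / (2 N) + Re θ / (2 N) = (1 - 1 / N) + (1 + Re θ) / (2 N)`, so
`PS f m ≤ (1 - 1 / N) (1 + log m) + (log m + log K + 8) / (2 N)
≤ (1 - 1 / (2 N)) log m + (1 / (2 N)) log K + 4` (as `1 - 1/N + 4/N = 1 + 3/N ≤ 4`)
(`PS_const` with `κ = 1 - 1 / N`, `ps_re`), and by `SS_le`
`SS f m ≤ q ^ m / m * exp (PS f m) ≤ exp 4 * q ^ m * m ^ (-1 / (2 N)) * K ^ (1 / (2 N))`, `exp 4 ≤ 60`.
-/

namespace Pool.Agent.H94.PL

open Polynomial
open Pool.Agent.H94.PC (Mo Sq Pr pf om Mn mem_Mo mem_Sq mem_Pr mem_pf mem_pf' SS PS SS_le PS_const)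

variable {F : Type} [Field F] [Finite F]

theorem mv_exp_one : Real.exp 1 ≤ 3 := by
  have := Real.exp_one_lt_d9
  linarith

theorem mv_exp_four : Real.exp 4 ≤ 60 := by
  have h2 : Real.exp 1 < 2.7182818286 := Real.exp_one_lt_d9
  have h3 : Real.exp 4 = Real.exp 1 ^ 4 := by
    rw [← Real.exp_nat_mul]
    norm_num
  have h4 : Real.exp 1 ^ 4 ≤ 2.7182818286 ^ 4 := pow_le_pow_left₀ (Real.exp_pos 1).le h2.le 4
  rw [h3]
  refine h4.trans ?_
  norm_num

theorem mv_const (κ : ℝ) (h0 : 0 ≤ κ) (h1 : κ ≤ 1) (m : ℕ) (hm : 1 ≤ m) :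
    SS (fun _ : F[X] => κ) m ≤ 3 * (Nat.card F : ℝ) ^ m * (m : ℝ) ^ (κ - 1) := by
  have hm0 : (0 : ℝ) < m := by exact_mod_cast hm
  have hq : (0 : ℝ) < (Nat.card F : ℝ) := by exact_mod_cast Nat.card_pos
  have h2 := SS_le (fun _ : F[X] => κ) (fun _ => h0) 1 (fun _ => h1) m hm
  have h3 := PS_const (F := F) κ h0 m hm
  have h5 : Real.exp (PS (fun _ : F[X] => κ) m) ≤ 3 * (m : ℝ) ^ κ := by
    refine (Real.exp_le_exp.2 h3).trans ?_
    rw [mul_add, mul_one, Real.exp_add]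
    have e1 : Real.exp (κ * Real.log m) = (m : ℝ) ^ κ := by
      rw [Real.rpow_def_of_pos hm0, mul_comm]
    rw [e1]
    refine mul_le_mul_of_nonneg_right ?_ (Real.rpow_nonneg hm0.le _)
    exact (Real.exp_le_exp.2 h1).trans mv_exp_one
  calc SS (fun _ : F[X] => κ) m ≤
        1 / m * (Nat.card F : ℝ) ^ m * Real.exp (PS (fun _ : F[X] => κ) m) := h2
    _ ≤ 1 / m * (Nat.card F : ℝ) ^ m * (3 * (m : ℝ) ^ κ) :=
        mul_le_mul_of_nonneg_left h5 (by positivity)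
    _ = 3 * (Nat.card F : ℝ) ^ m * (m : ℝ) ^ (κ - 1) := by
        rw [Real.rpow_sub_one hm0.ne']
        ring

theorem mv_re {θ : F[X] → ℂ} (h : CMc θ) (K : ℝ) (hK1 : 1 ≤ K)
    (hK : ∀ j : ℕ, ‖∑ i ∈ Finset.range (j + 1), Bs θ i / (Nat.card F : ℂ) ^ i‖ ≤ K)
    (N : ℝ) (hN : 1 ≤ N) (f : F[X] → ℝ)
    (hf0 : ∀ P : F[X], P.Monic → Irreducible P → 0 ≤ f P)
    (hf : ∀ P : F[X], P.Monic → Irreducible P →
      f P ≤ 1 - 1 / (2 * N) + (θ P).re / (2 * N)) (m : ℕ) (hm : 1 ≤ m) :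
    SS f m ≤ 60 * (Nat.card F : ℝ) ^ m * (m : ℝ) ^ (-(1 / (2 * N)) : ℝ) *
      K ^ (1 / (2 * N) : ℝ) := by
  classical
  have hm0 : (0 : ℝ) < m := by exact_mod_cast hm
  have hK0 : (0 : ℝ) < K := by linarith
  have hq : (0 : ℝ) < (Nat.card F : ℝ) := by exact_mod_cast Nat.card_pos
  have hN0 : (0 : ℝ) < N := by linarith
  obtain ⟨a, ha⟩ : ∃ a : ℝ, a = 1 / (2 * N) := ⟨_, rfl⟩
  have ha0 : 0 < a := by rw [ha]; positivity
  have ha1 : a ≤ 1 / 2 := by
    rw [ha, div_le_div_iff₀ (by positivity) (by norm_num)]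
    linarith
  have hre : ∀ P : F[X], P.Monic → |(θ P).re| ≤ 1 := fun P hP =>
    (Complex.abs_re_le_norm _).trans (h.le P hP)
  have hdiv : ∀ t : ℝ, t / (2 * N) = a * t := fun t => by
    rw [ha]
    ring
  set f' : F[X] → ℝ := fun P => if P.Monic ∧ Irreducible P then f P else 0 with hf'
  have hf'0 : ∀ P, 0 ≤ f' P := by
    intro P
    show 0 ≤ (if P.Monic ∧ Irreducible P then f P else 0)
    split_ifs with h1
    · exact hf0 P h1.1 h1.2
    · exact le_rfl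
  have hf'1 : ∀ P, f' P ≤ 1 := by
    intro P
    show (if P.Monic ∧ Irreducible P then f P else 0) ≤ 1
    split_ifs with h1
    · have h2 := hf P h1.1 h1.2
      have h3 := (abs_le.1 (hre P h1.1)).2
      rw [← ha, hdiv] at h2
      nlinarith
    · norm_num
  have hSS : SS f m = SS f' m := by
    unfold SS
    refine Finset.sum_congr rfl fun D _ => ?_
    refine Finset.prod_congr rfl fun P hP => ?_
    show f P = (if P.Monic ∧ Irreducible P then f P else 0)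
    have h1 := mem_pf' hP
    rw [if_pos ⟨h1.1, h1.2.1⟩]
  have hPS : PS f' m ≤ PS (fun _ : F[X] => (1 - 2 * a : ℝ)) m +
      a * PS (fun P => 1 + (θ P).re) m := by
    unfold PS
    rw [Finset.mul_sum, ← Finset.sum_add_distrib]
    refine Finset.sum_le_sum fun d _ => ?_
    rw [Finset.mul_sum, ← Finset.sum_add_distrib]
    refine Finset.sum_le_sum fun P hP => ?_
    show (if P.Monic ∧ Irreducible P then f P else 0) / (Nat.card F : ℝ) ^ d ≤ _
    have h1 := mem_Pr.1 hP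
    rw [if_pos ⟨h1.1, h1.2.2⟩]
    have h2 := hf P h1.1 h1.2.2
    rw [← ha, hdiv] at h2
    have h3 : (1 - 2 * a) / (Nat.card F : ℝ) ^ d + a * ((1 + (θ P).re) / (Nat.card F : ℝ) ^ d) =
        (1 - a + a * (θ P).re) / (Nat.card F : ℝ) ^ d := by ring
    rw [h3]
    exact div_le_div_of_nonneg_right h2 (by positivity)
  have h1 := SS_le f' hf'0 1 hf'1 m hm
  have h2 := PS_const (F := F) (1 - 2 * a) (by linarith) m hm
  have h3 := ps_re h K hK1 hK m hm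
  have hlm : 0 ≤ Real.log m := Real.log_nonneg (by exact_mod_cast hm)
  have hlK : 0 ≤ Real.log K := Real.log_nonneg hK1
  have h4 : PS f' m ≤ 4 + ((1 - a) * Real.log m + a * Real.log K) := by
    have h5 : a * PS (fun P => 1 + (θ P).re) m ≤ a * (Real.log m + Real.log K + 8) :=
      mul_le_mul_of_nonneg_left h3 ha0.le
    nlinarith
  have h5 : Real.exp (PS f' m) ≤ 60 * ((m : ℝ) ^ (1 - a) * K ^ a) := by
    refine (Real.exp_le_exp.2 h4).trans ?_
    rw [Real.exp_add, Real.exp_add]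
    have e1 : Real.exp ((1 - a) * Real.log m) = (m : ℝ) ^ (1 - a) := by
      rw [Real.rpow_def_of_pos hm0, mul_comm]
    have e2 : Real.exp (a * Real.log K) = K ^ a := by
      rw [Real.rpow_def_of_pos hK0, mul_comm]
    rw [e1, e2]
    exact mul_le_mul_of_nonneg_right mv_exp_four (mul_nonneg (Real.rpow_nonneg hm0.le _)
      (Real.rpow_nonneg hK0.le _))
  rw [hSS, ← ha]
  have h6 : (m : ℝ) ^ (-a) = (m : ℝ) ^ (1 - a) / m := by
    rw [← Real.rpow_sub_one hm0.ne']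
    congr 1
    ring
  calc SS f' m ≤ 1 / m * (Nat.card F : ℝ) ^ m * Real.exp (PS f' m) := h1
    _ ≤ 1 / m * (Nat.card F : ℝ) ^ m * (60 * ((m : ℝ) ^ (1 - a) * K ^ a)) :=
        mul_le_mul_of_nonneg_left h5 (by positivity)
    _ = 60 * (Nat.card F : ℝ) ^ m * (m : ℝ) ^ (-a) * K ^ a := by
        rw [h6]
        ring

end Pool.Agent.H94.PL
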