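import Pool.Agent.H94.PL.Spl
import Pool.Agent.H94.PL.Sm
import Pool.Agent.H94.PL.MV
import Pool.Agent.H94.PC.Facs

set_option autoImplicit false

/-!
# [H94 PL FEW] Few large variables

`q = Nat.card F`, `N ≥ 1` a natural number, `V` a finite type, `x : V → Mn F n` with
`∏ x_u ∈ Cls Δ n` and fewer than `N` indices `u` with `deg x_u ≥ z`.

`wl N A = (1/N)^(om A) / q^(deg A)`; `∑ A : Mn F n, deg A < z, wl N A ≤ z` because for each
`j < z` the sum over `A` of degree `j` is at most `#(Sq j) / q ^ j ≤ 1` (`card_Sq_le`).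
`sum_prod_wl`: `Fintype.prod_sum`-type exchange (`Finset.prod_univ_sum`/`Fintype.piFinset`).

`few_J`: for fixed `J : Finset V` with `J.card < N`: split `x = mgU J x' y` (`sum_mgU`, `prod_mgU`),
`∏ x = (∏ x') * (∏ y)`, coprime (squarefree product), `om` is additive (`om_mul`, `om_prod`), and
`∏ x' ∈ Sq (n - deg ∏ y)`.  So the sum is at most
`∑ y small, (1/N)^(om ∏ y) * ∑ x', if ∏ x' ∈ Sq (n - e) then (1/N)^om else 0`, `e = deg ∏ y ≤ |V| z ≤ n / 2`,
and the inner sum is `∑ D ∈ Sq (n - e), ∏ P ∈ pf D, (J.card / N)` (`sum_multc` with `η = 1`, or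
`count`-type argument with `PC.tup`) `≤ SS (fun _ => 1 - 1/N) (n - e) ≤ 3 q^(n-e) (n-e)^(-1/N)
≤ 6 q^(n-e) n^(-1/N)` (`mv_const` with `κ = 1 - 1/N`; `n - e ≥ n / 2 ≥ 1`, `2 ^ (1/N) ≤ 2`).
Then `∑ y small, (1/N)^(∑ om y_w) q^(-∑ deg y_w) = ∑ y small, ∏ wl (y_w) ≤ z ^ |Jᶜ| ≤ z ^ |V|`.

`few`: the set of `x` is covered by the `2 ^ |V|` sets `J = {u : z ≤ deg x_u}`.
-/

namespace Pool.Agent.H94.PL

open Polynomial
open Pool.Agent.H94.PC (Mo Sq Pr pf om Mn mem_Mo mem_Sq mem_Pr mem_pf mem_pf')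

variable {F : Type} [Field F] [Finite F] {V : Type} [Fintype V] [DecidableEq V]

/-- the weight `(1/N)^(om A) / q^(deg A)` -/
noncomputable def wl (N : ℕ) (A : F[X]) : ℝ :=
  (1 / (N : ℝ)) ^ om A / (Nat.card F : ℝ) ^ A.natDegree

theorem wl_nonneg (N : ℕ) (A : F[X]) : 0 ≤ wl N A := by
  unfold wl
  positivity

theorem wl_le (N : ℕ) (hN : 1 ≤ N) (A : F[X]) :
    wl N A ≤ 1 / (Nat.card F : ℝ) ^ A.natDegree := by
  unfold wl
  have hq : (0 : ℝ) < (Nat.card F : ℝ) := by exact_mod_cast Nat.card_pos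
  have hN1 : (1 : ℝ) ≤ N := by exact_mod_cast hN
  apply div_le_div_of_nonneg_right _ (pow_pos hq _).le
  apply pow_le_one₀ (by positivity)
  rw [div_le_one (by linarith)]
  exact hN1

open Classical in
theorem sum_wl {N : ℕ} (hN : 1 ≤ N) (n z : ℕ) :
    ∑ A : Mn F n, (if A.1.natDegree < z then wl N A.1 else 0) ≤ (z : ℝ) := by
  have hq : (0 : ℝ) < (Nat.card F : ℝ) := by exact_mod_cast Nat.card_pos
  have h1 : ∀ A : Mn F n, (if A.1.natDegree < z then wl N A.1 else 0) ≤
      ∑ j ∈ Finset.range z, (if A.1.natDegree = j then 1 / (Nat.card F : ℝ) ^ j else 0) := by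
    intro A
    by_cases h : A.1.natDegree < z
    · rw [if_pos h, Finset.sum_ite_eq, if_pos (Finset.mem_range.2 h)]
      exact wl_le N hN A.1
    · rw [if_neg h]
      apply Finset.sum_nonneg
      intro j _
      split_ifs
      · positivity
      · exact le_rfl
  refine (Finset.sum_le_sum fun A _ => h1 A).trans ?_
  rw [Finset.sum_comm]
  have h2 : ∀ j ∈ Finset.range z,
      ∑ A : Mn F n, (if A.1.natDegree = j then 1 / (Nat.card F : ℝ) ^ j else 0) ≤ 1 := by
    intro j _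
    rw [← Finset.sum_filter, Finset.sum_const, nsmul_eq_mul, mul_one_div,
      div_le_one (pow_pos hq j)]
    have h3 : (Finset.univ.filter fun A : Mn F n => A.1.natDegree = j).card ≤ (Sq F j).card := by
      apply Finset.card_le_card_of_injOn (fun A => A.1)
      · intro A hA
        have hA' := (Finset.mem_filter.1 (Finset.mem_coe.1 hA)).2
        exact Finset.mem_coe.2 (mem_Sq.2 ⟨A.2.1, hA', A.2.2.1⟩)
      · intro A _ B _ hAB
        exact Subtype.ext hAB
    have h4 := h3.trans (PC.card_Sq_le (F := F) j)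
    exact_mod_cast h4
  refine (Finset.sum_le_sum h2).trans ?_
  rw [Finset.sum_const, Finset.card_range, nsmul_eq_mul, mul_one]

open Classical in
theorem sum_prod_wl {κ : Type} [Fintype κ] {N : ℕ} (hN : 1 ≤ N) (n z : ℕ) :
    ∑ y : κ → Mn F n, (if ∀ i, (y i).1.natDegree < z then ∏ i, wl N (y i).1 else 0) ≤
      (z : ℝ) ^ Fintype.card κ := by
  have h1 := Finset.prod_univ_sum (fun _ : κ => (Finset.univ : Finset (Mn F n)))
    (fun _ A => if A.1.natDegree < z then wl N A.1 else 0)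
  rw [Fintype.piFinset_univ] at h1
  have h2 : ∀ y : κ → Mn F n,
      (if ∀ i, (y i).1.natDegree < z then ∏ i, wl N (y i).1 else 0) =
        ∏ i, (if (y i).1.natDegree < z then wl N (y i).1 else 0) := by
    intro y
    by_cases h : ∀ i, (y i).1.natDegree < z
    · rw [if_pos h]
      exact Finset.prod_congr rfl fun i _ => (if_pos (h i)).symm
    · rw [if_neg h]
      push Not at h
      obtain ⟨i, hi⟩ := h
      exact (Finset.prod_eq_zero (Finset.mem_univ i) (if_neg (by omega))).symm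
  rw [Finset.sum_congr rfl fun y _ => h2 y, ← h1]
  have h3 : (z : ℝ) ^ Fintype.card κ = ∏ _i : κ, (z : ℝ) := by
    rw [Finset.prod_const, Finset.card_univ]
  rw [h3]
  apply Finset.prod_le_prod
  · intro i _
    apply Finset.sum_nonneg
    intro A _
    split_ifs
    · exact wl_nonneg _ _
    · exact le_rfl
  · intro i _
    exact sum_wl hN n z

open Classical in
/-- the sum over the variables in `J` -/
theorem few_inner {κ : Type} [Fintype κ] [DecidableEq κ] {N : ℕ} (hN : 1 ≤ N)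
    (hκ : Fintype.card κ < N) (n m : ℕ) (hmn : m ≤ n) (hm : n ≤ 2 * m) (hn : 1 ≤ n) :
    ∑ x : κ → Mn F n, (if (∏ i, (x i).1) ∈ Sq F m then (1 / (N : ℝ)) ^ om (∏ i, (x i).1) else 0) ≤
      6 * (Nat.card F : ℝ) ^ m * (n : ℝ) ^ (-(1 / N) : ℝ) := by
  have hq : (0 : ℝ) < (Nat.card F : ℝ) := by exact_mod_cast Nat.card_pos
  have hN1 : (1 : ℝ) ≤ N := by exact_mod_cast hN
  have hN0 : (0 : ℝ) < N := by linarith
  have hn1 : (1 : ℝ) ≤ n := by exact_mod_cast hn
  have hn0 : (0 : ℝ) < n := by linarith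
  have hm1 : 1 ≤ m := by omega
  have hcm : ∀ _i : κ, PC.CM (fun _ : F[X] => (1 : ℝ)) := fun _ =>
    ⟨rfl, fun _ _ _ _ => (mul_one 1).symm, fun _ _ => Or.inr (Or.inl rfl)⟩
  have h := PC.sum_mult n (Sq F m) (fun D hD => by
    obtain ⟨h1, h2, h3⟩ := mem_Sq.1 hD
    exact ⟨h1, h3, by omega⟩) (fun _ _ => (1 : ℝ)) hcm (1 / (N : ℝ))
  have h0 : ∑ x : κ → Mn F n,
      (if (∏ i, (x i).1) ∈ Sq F m then (1 / (N : ℝ)) ^ om (∏ i, (x i).1) else 0) =
      ∑ D ∈ Sq F m, ∏ P ∈ pf D, ((1 / (N : ℝ)) * ∑ _i : κ, (1 : ℝ)) := by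
    rw [← h]
    apply Finset.sum_congr rfl
    intro x _
    simp only [Finset.prod_const_one, mul_one]
  rw [h0]
  have h1 : ∑ D ∈ Sq F m, ∏ P ∈ pf D, ((1 / (N : ℝ)) * ∑ _i : κ, (1 : ℝ)) ≤
      PC.SS (fun _ : F[X] => 1 - 1 / (N : ℝ)) m := by
    unfold PC.SS
    apply Finset.sum_le_sum
    intro D _
    apply Finset.prod_le_prod
    · intro P _
      positivity
    · intro P _
      rw [Finset.sum_const, Finset.card_univ, nsmul_eq_mul, mul_one, one_div_mul_eq_div,
        div_le_iff₀ hN0, sub_mul, one_mul, div_mul_cancel₀ _ hN0.ne']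
      have h2 : ((Fintype.card κ : ℕ) : ℝ) + 1 ≤ N := by exact_mod_cast hκ
      linarith
  refine h1.trans ((mv_const (1 - 1 / (N : ℝ)) ?_ ?_ m hm1).trans ?_)
  · rw [sub_nonneg, div_le_one hN0]
    exact hN1
  · rw [sub_le_self_iff]
    positivity
  · have h2 : (1 - 1 / (N : ℝ)) - 1 = -(1 / N) := by ring
    rw [h2]
    have h3 : (m : ℝ) ^ (-(1 / N) : ℝ) ≤ 2 * (n : ℝ) ^ (-(1 / N) : ℝ) := by
      have h4 : (n : ℝ) / 2 ≤ m := by
        have : (n : ℝ) ≤ 2 * m := by exact_mod_cast hm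
        linarith
      have hneg : (-(1 / N) : ℝ) ≤ 0 := by
        rw [neg_nonpos]
        positivity
      have h5 : (m : ℝ) ^ (-(1 / N) : ℝ) ≤ ((n : ℝ) / 2) ^ (-(1 / N) : ℝ) :=
        Real.rpow_le_rpow_of_nonpos (by positivity) h4 hneg
      refine h5.trans ?_
      rw [Real.div_rpow hn0.le (by norm_num), Real.rpow_neg (by norm_num : (0 : ℝ) ≤ 2),
        div_inv_eq_mul, mul_comm]
      apply mul_le_mul_of_nonneg_right _ (Real.rpow_nonneg hn0.le _)
      have h6 : (2 : ℝ) ^ (1 / N : ℝ) ≤ (2 : ℝ) ^ (1 : ℝ) := by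
        apply Real.rpow_le_rpow_of_exponent_le (by norm_num)
        rw [div_le_one hN0]
        exact hN1
      rw [Real.rpow_one] at h6
      exact h6
    have h7 : 0 ≤ 3 * (Nat.card F : ℝ) ^ m := by positivity
    have h8 := mul_le_mul_of_nonneg_left h3 h7
    linarith

open Classical in
theorem few_J {N : ℕ} (hN : 1 ≤ N) (n z : ℕ) (hz : 1 ≤ z)
    (hn : 2 * (Fintype.card V + 1) * z ≤ n) (Δ : F[X]) (J : Finset V) (hJ : J.card < N) :
    ∑ x : V → Mn F n, (if (∏ u, (x u).1) ∈ Cls Δ n ∧ ∀ u, u ∉ J → (x u).1.natDegree < z then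
      (1 / (N : ℝ)) ^ om (∏ u, (x u).1) else 0) ≤
      6 * (Nat.card F : ℝ) ^ n * (n : ℝ) ^ (-(1 / N) : ℝ) * (z : ℝ) ^ Fintype.card V := by
  have hq : (0 : ℝ) < (Nat.card F : ℝ) := by exact_mod_cast Nat.card_pos
  have hN1 : (1 : ℝ) ≤ N := by exact_mod_cast hN
  have hN0 : (0 : ℝ) < N := by linarith
  have hz1 : (1 : ℝ) ≤ z := by exact_mod_cast hz
  have hcard : Fintype.card V * z + z ≤ n := by nlinarith
  have hn1 : 1 ≤ n := by nlinarith
  have hnp : 0 ≤ (n : ℝ) ^ (-(1 / N) : ℝ) := Real.rpow_nonneg (by positivity) _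
  rw [sum_mgU J]
  have hJc : Fintype.card {u // u ∈ J} < N := by
    rw [Fintype.card_coe]
    exact hJ
  have hcc : Fintype.card {u // u ∉ J} ≤ Fintype.card V := Fintype.card_subtype_le _
  have key : ∀ y : {u // u ∉ J} → Mn F n,
      ∑ x : {u // u ∈ J} → Mn F n, (if (∏ u, (mgU J x y u).1) ∈ Cls Δ n ∧
        ∀ u, u ∉ J → (mgU J x y u).1.natDegree < z then
          (1 / (N : ℝ)) ^ om (∏ u, (mgU J x y u).1) else 0) ≤
      6 * (Nat.card F : ℝ) ^ n * (n : ℝ) ^ (-(1 / N) : ℝ) *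
        (if ∀ w, (y w).1.natDegree < z then ∏ w, wl N (y w).1 else 0) := by
    intro y
    by_cases hy : ∀ w, (y w).1.natDegree < z
    · rw [if_pos hy]
      set e : ℕ := ∑ w, (y w).1.natDegree with he
      have hez : e ≤ Fintype.card V * z := by
        have h1 : e ≤ ∑ _w : {u // u ∉ J}, z := Finset.sum_le_sum fun w _ => (hy w).le
        rw [Finset.sum_const, Finset.card_univ, smul_eq_mul] at h1
        exact h1.trans (Nat.mul_le_mul_right _ hcc)
      have hen : 2 * e ≤ n := by nlinarith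
      have hen' : e ≤ n := by omega
      have hpr : ∀ x : {u // u ∈ J} → Mn F n,
          ∏ u, (mgU J x y u).1 = (∏ i, (x i).1) * ∏ w, (y w).1 := by
        intro x
        rw [prod_mgU J]
        congr 1
        · exact Finset.prod_congr rfl fun u _ => by rw [mgU_in]
        · exact Finset.prod_congr rfl fun w _ => by rw [mgU_out]
      have hym : (∏ w, (y w).1).Monic := monic_prod_of_monic _ _ fun w _ => (y w).2.1
      have hyd : (∏ w, (y w).1).natDegree = e := natDegree_prod_of_monic _ _ fun w _ => (y w).2.1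
      have h1 : ∀ x : {u // u ∈ J} → Mn F n, (if (∏ u, (mgU J x y u).1) ∈ Cls Δ n ∧
          ∀ u, u ∉ J → (mgU J x y u).1.natDegree < z then
            (1 / (N : ℝ)) ^ om (∏ u, (mgU J x y u).1) else 0) ≤
          (∏ w, (1 / (N : ℝ)) ^ om (y w).1) * (if (∏ i, (x i).1) ∈ Sq F (n - e) then
            (1 / (N : ℝ)) ^ om (∏ i, (x i).1) else 0) := by
        intro x
        have hxm : (∏ i, (x i).1).Monic := monic_prod_of_monic _ _ fun i _ => (x i).2.1
        have hnn : 0 ≤ (∏ w, (1 / (N : ℝ)) ^ om (y w).1) := Finset.prod_nonneg fun w _ => by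
          positivity
        by_cases hc : (∏ u, (mgU J x y u).1) ∈ Cls Δ n ∧
          ∀ u, u ∉ J → (mgU J x y u).1.natDegree < z
        · rw [if_pos hc]
          have hc1 := hc.1
          rw [hpr] at hc1
          obtain ⟨-, h3, h4, -⟩ := mem_Cls.1 hc1
          rw [hxm.natDegree_mul hym, hyd] at h3
          rw [squarefree_mul_iff] at h4
          rw [if_pos (mem_Sq.2 ⟨hxm, by omega, h4.2.1⟩), hpr,
            PC.om_mul hxm hym h4.1.isCoprime, pow_add, Finset.prod_pow_eq_pow_sum,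
            PC.om_prod (fun w => (y w).1) (fun w => (y w).2.1) h4.2.2, mul_comm]
        · rw [if_neg hc]
          apply mul_nonneg hnn
          split_ifs
          · positivity
          · exact le_rfl
      refine (Finset.sum_le_sum fun x _ => h1 x).trans ?_
      rw [← Finset.mul_sum]
      have h2 := few_inner (F := F) (κ := {u // u ∈ J}) hN hJc n (n - e) (by omega) (by omega) hn1
      have hnn : 0 ≤ (∏ w, (1 / (N : ℝ)) ^ om (y w).1) := Finset.prod_nonneg fun w _ => by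
        positivity
      refine (mul_le_mul_of_nonneg_left h2 hnn).trans (le_of_eq ?_)
      have h3 : ∏ w, wl N (y w).1 = (∏ w, (1 / (N : ℝ)) ^ om (y w).1) / (Nat.card F : ℝ) ^ e := by
        unfold wl
        have h6 : ∏ w, (Nat.card F : ℝ) ^ (y w).1.natDegree = (Nat.card F : ℝ) ^ e := by
          rw [Finset.prod_pow_eq_pow_sum]
        rw [Finset.prod_div_distrib, h6]
      have h4 : (Nat.card F : ℝ) ^ n = (Nat.card F : ℝ) ^ (n - e) * (Nat.card F : ℝ) ^ e := by
        rw [← pow_add]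
        congr 1
        omega
      rw [h3, h4]
      have h5 : (Nat.card F : ℝ) ^ e ≠ 0 := (pow_pos hq e).ne'
      field_simp
    · rw [if_neg hy, mul_zero]
      apply le_of_eq
      apply Finset.sum_eq_zero
      intro x _
      rw [if_neg]
      rintro ⟨-, h2⟩
      apply hy
      intro w
      have h3 := h2 w.1 w.2
      rw [mgU_out] at h3
      exact h3
  refine (Finset.sum_le_sum fun y _ => key y).trans ?_
  rw [← Finset.mul_sum]
  apply mul_le_mul_of_nonneg_left _ (by positivity)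
  have h9 := sum_prod_wl (F := F) (κ := {u // u ∉ J}) hN n z
  refine le_trans (le_of_eq ?_) (h9.trans (pow_le_pow_right₀ hz1 hcc))
  refine Finset.sum_congr (Finset.ext fun _ => by simp only [Finset.mem_univ]) fun y _ => ?_
  by_cases h : ∀ w, (y w).1.natDegree < z
  · simp only [if_pos h]
  · simp only [if_neg h]

open Classical in
theorem few {N : ℕ} (hN : 1 ≤ N) (n z : ℕ) (hz : 1 ≤ z)
    (hn : 2 * (Fintype.card V + 1) * z ≤ n) (Δ : F[X]) :
    ∑ x : V → Mn F n, (if (∏ u, (x u).1) ∈ Cls Δ n ∧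
        (Finset.univ.filter fun u => z ≤ (x u).1.natDegree).card < N then
      (1 / (N : ℝ)) ^ om (∏ u, (x u).1) else 0) ≤
      2 ^ Fintype.card V * (6 * (Nat.card F : ℝ) ^ n * (n : ℝ) ^ (-(1 / N) : ℝ) *
        (z : ℝ) ^ Fintype.card V) := by
  have hnn : 0 ≤ 6 * (Nat.card F : ℝ) ^ n * (n : ℝ) ^ (-(1 / N) : ℝ) *
        (z : ℝ) ^ Fintype.card V := by
    have : 0 ≤ (n : ℝ) ^ (-(1 / N) : ℝ) := Real.rpow_nonneg (by positivity) _
    positivity
  have h1 : ∀ x : V → Mn F n, (if (∏ u, (x u).1) ∈ Cls Δ n ∧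
        (Finset.univ.filter fun u => z ≤ (x u).1.natDegree).card < N then
      (1 / (N : ℝ)) ^ om (∏ u, (x u).1) else 0) ≤
      ∑ J : Finset V, (if J.card < N then (if (∏ u, (x u).1) ∈ Cls Δ n ∧
        ∀ u, u ∉ J → (x u).1.natDegree < z then
        (1 / (N : ℝ)) ^ om (∏ u, (x u).1) else 0) else 0) := by
    intro x
    have hterm : ∀ J ∈ (Finset.univ : Finset (Finset V)), (0 : ℝ) ≤
        (if J.card < N then (if (∏ u, (x u).1) ∈ Cls Δ n ∧
        ∀ u, u ∉ J → (x u).1.natDegree < z then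
        (1 / (N : ℝ)) ^ om (∏ u, (x u).1) else 0) else 0) := by
      intro J _
      split_ifs
      · positivity
      · exact le_rfl
      · exact le_rfl
    by_cases hc : (∏ u, (x u).1) ∈ Cls Δ n ∧
        (Finset.univ.filter fun u => z ≤ (x u).1.natDegree).card < N
    · rw [if_pos hc]
      refine le_trans (le_of_eq ?_) (Finset.single_le_sum hterm
        (Finset.mem_univ (Finset.univ.filter fun u => z ≤ (x u).1.natDegree)))
      rw [if_pos hc.2, if_pos]
      refine ⟨hc.1, ?_⟩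
      intro u hu
      by_contra h
      push Not at h
      exact hu (Finset.mem_filter.2 ⟨Finset.mem_univ _, h⟩)
    · rw [if_neg hc]
      exact Finset.sum_nonneg hterm
  refine (Finset.sum_le_sum fun x _ => h1 x).trans ?_
  rw [Finset.sum_comm]
  have h2 : ∀ J ∈ (Finset.univ : Finset (Finset V)),
      ∑ x : V → Mn F n, (if J.card < N then (if (∏ u, (x u).1) ∈ Cls Δ n ∧
        ∀ u, u ∉ J → (x u).1.natDegree < z then
        (1 / (N : ℝ)) ^ om (∏ u, (x u).1) else 0) else 0) ≤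
      6 * (Nat.card F : ℝ) ^ n * (n : ℝ) ^ (-(1 / N) : ℝ) * (z : ℝ) ^ Fintype.card V := by
    intro J _
    by_cases hJ : J.card < N
    · simp only [if_pos hJ]
      exact few_J hN n z hz hn Δ J hJ
    · simp only [if_neg hJ, Finset.sum_const_zero]
      exact hnn
  refine (Finset.sum_le_sum h2).trans (le_of_eq ?_)
  rw [Finset.sum_const, Finset.card_univ, Fintype.card_finset, nsmul_eq_mul]
  push_cast
  rfl

end Pool.Agent.H94.PL
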