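import Pool.Agent.H94.PL.KDefs

set_option autoImplicit false

/-!
# [H94 PL FOU] Fourier expansion of the number of solutions

`ort_X`: `∑ ξ : X, ps (B ξ e) = N` if `e = 0`, else `0` (`N = card X`): for `e ≠ 0` there is `ξ₀`
with `B ξ₀ e ≠ 0` (`hB`), shift by `ξ₀`: the sum is multiplied by `ps (B ξ₀ e) ≠ 1` (`ps_eq_one_iff`).
`fou`: the number of solutions is the sum over all `z = (κ, s, x)` of the product of the indicators of the
equations; `[EI = 0] = (1/N) ∑ ξ, ps (B ξ EI)`, `[∀ v, EV v = 0] = ∏ v, (1/ℓ) ∑ e, ps (e * EV v)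
= ℓ^(-|S|) ∑ d : S → ZMod ℓ, ps (∑ v, d v * EV v)` (`sum_ps_mul`, `Finset.prod_univ_sum`),
`[∀ P, EP P = 0] = N^(-om D) ∑ c : pf D → X, ps (∑ P, B (c P) (EP P))`.
-/

namespace Pool.Agent.H94.PL

open Polynomial
open Pool.Agent.H94.PC (Mo Sq Pr pf om Mn mem_Mo mem_Sq mem_Pr mem_pf mem_pf')

variable {ℓ : ℕ} [hl : Fact ℓ.Prime] {X : Type} [AddCommGroup X] [Module (ZMod ℓ) X] [Fintype X]
  [DecidableEq X] (B : X →ₗ[ZMod ℓ] X →ₗ[ZMod ℓ] ZMod ℓ)

theorem ort_X (hB : BGood B) (e : X) :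
    ∑ ξ : X, ps (B ξ e) = if e = 0 then (Fintype.card X : ℂ) else 0 := by
  by_cases he : e = 0
  · rw [if_pos he, he]
    simp only [map_zero, ps_zero, Finset.sum_const, Finset.card_univ, nsmul_eq_mul, mul_one]
  · rw [if_neg he]
    obtain ⟨y, hy⟩ : ∃ y, B e y ≠ 0 := by
      by_contra h
      push Not at h
      exact he (hB.nondeg e h)
    have hy' : B y e ≠ 0 := by rw [hB.symm]; exact hy
    have h1 : ∑ ξ : X, ps (B (y + ξ) e) = ∑ ξ : X, ps (B ξ e) :=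
      Equiv.sum_comp (Equiv.addLeft y) (fun ξ => ps (B ξ e))
    have h2 : ∑ ξ : X, ps (B (y + ξ) e) = ps (B y e) * ∑ ξ : X, ps (B ξ e) := by
      rw [Finset.mul_sum]
      refine Finset.sum_congr rfl fun ξ _ => ?_
      rw [map_add, LinearMap.add_apply, ps_add]
    have h3 : (1 - ps (B y e)) * ∑ ξ : X, ps (B ξ e) = 0 := by
      rw [sub_mul, one_mul, ← h2, h1, sub_self]
    rcases mul_eq_zero.1 h3 with h4 | h4
    · exact absurd (ps_eq_one_iff.1 (sub_eq_zero.1 h4).symm) hy'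
    · exact h4

theorem fou_prod {ι A : Type} [Fintype ι] [DecidableEq ι] [Fintype A] (g : ι → A → ℂ)
    (b : ι → Prop) (m : ℂ) (h : ∀ i, b i → ∑ a, g i a = m) (h' : ∀ i, ¬ b i → ∑ a, g i a = 0) :
    ((∀ i, b i) → ∑ c : ι → A, ∏ i, g i (c i) = m ^ Fintype.card ι) ∧
      ((¬ ∀ i, b i) → ∑ c : ι → A, ∏ i, g i (c i) = 0) := by
  have h1 : ∏ i, ∑ a, g i a = ∑ c : ι → A, ∏ i, g i (c i) := by
    rw [Finset.prod_univ_sum, Fintype.piFinset_univ]
  rw [← h1]
  constructor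
  · intro hb
    rw [Finset.prod_congr rfl (fun i _ => h i (hb i)), Finset.prod_const, Finset.card_univ]
  · intro hb
    push Not at hb
    obtain ⟨i, hi⟩ := hb
    exact Finset.prod_eq_zero (Finset.mem_univ i) (h' i hi)

theorem fou_sum3 {A₁ A₂ A₃ : Type} [Fintype A₁] [Fintype A₂] [Fintype A₃] (K : ℂ) (a : A₁ → ℂ)
    (b : A₂ → ℂ) (c : A₃ → ℂ) :
    ∑ x, ∑ y, ∑ z, K * (a x * b y * c z) = K * ((∑ x, a x) * (∑ y, b y) * ∑ z, c z) := by
  have h1 : ∀ x y, ∑ z, K * (a x * b y * c z) = K * (a x * b y) * ∑ z, c z := by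
    intro x y
    rw [Finset.mul_sum]
    exact Finset.sum_congr rfl fun z _ => by ring
  have h2 : ∀ x, ∑ y, K * (a x * b y) * ∑ z, c z = K * a x * (∑ z, c z) * ∑ y, b y := by
    intro x
    rw [Finset.mul_sum]
    exact Finset.sum_congr rfl fun z _ => by ring
  simp only [h1, h2]
  rw [← Finset.sum_mul, ← Finset.sum_mul, ← Finset.mul_sum]
  ring

variable {F : Type} [Field F] [Finite F] (χ : LChar F ℓ) {Δ : F[X]}

open Classical in
theorem fou (hB : BGood B) (sy : Sys ℓ X (pf Δ)) (D : F[X]) :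
    (Fintype.card X : ℂ) * (ℓ : ℂ) ^ (pf Δ).card * (Nat.card (KerL χ B sy D) : ℂ) =
      ∑ π : Pm ℓ X (pf Δ), ∑ z : pf D → X × X,
        (1 / (Fintype.card X : ℂ)) ^ om D *
          ps (B π.2.1 (EI sy D (π.1, π.2.2.1, fun P => (z P).1)) +
            ∑ v, π.2.2.2 v * EV χ B sy D (π.1, π.2.2.1, fun P => (z P).1) v +
            ∑ P, B (z P).2 (EP χ B sy D (π.1, π.2.2.1, fun P => (z P).1) P)) := by
  have hN : (Fintype.card X : ℂ) ≠ 0 := by
    have : Fintype.card X ≠ 0 := Fintype.card_ne_zero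
    exact_mod_cast this
  have h1 : (Nat.card (KerL χ B sy D) : ℂ) =
      ∑ w : Uk ℓ X Δ D, if w ∈ KerL χ B sy D then (1 : ℂ) else 0 := by
    rw [Finset.sum_boole]
    congr 1
    rw [Nat.card_eq_fintype_card]
    exact Fintype.card_subtype _
  have key : ∀ w : Uk ℓ X Δ D,
      (Fintype.card X : ℂ) * (ℓ : ℂ) ^ (pf Δ).card *
          (if w ∈ KerL χ B sy D then (1 : ℂ) else 0) =
        ∑ ξ : X, ∑ d : pf Δ → ZMod ℓ, ∑ c : pf D → X, (1 / (Fintype.card X : ℂ)) ^ om D *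
          ps (B ξ (EI sy D w) + ∑ v, d v * EV χ B sy D w v +
            ∑ P, B (c P) (EP χ B sy D w P)) := by
    intro w
    simp only [ps_add, ps_sum]
    rw [fou_sum3 ((1 / (Fintype.card X : ℂ)) ^ om D) (fun ξ => ps (B ξ (EI sy D w)))
      (fun d : pf Δ → ZMod ℓ => ∏ v, ps (d v * EV χ B sy D w v))
      (fun c : pf D → X => ∏ P, ps (B (c P) (EP χ B sy D w P)))]
    obtain ⟨e1, e1'⟩ := fou_prod (ι := pf Δ) (A := ZMod ℓ)
      (fun v e => ps (e * EV χ B sy D w v)) (fun v => EV χ B sy D w v = 0) (ℓ : ℂ)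
      (fun v hv => by rw [sum_ps_mul, if_pos hv]) (fun v hv => by rw [sum_ps_mul, if_neg hv])
    obtain ⟨e2, e2'⟩ := fou_prod (ι := pf D) (A := X)
      (fun P e => ps (B e (EP χ B sy D w P))) (fun P => EP χ B sy D w P = 0)
      (Fintype.card X : ℂ) (fun P hP => by rw [ort_X B hB, if_pos hP])
      (fun P hP => by rw [ort_X B hB, if_neg hP])
    have e3 := ort_X B hB (EI sy D w)
    rw [e3]
    by_cases ha : EI sy D w = 0
    · by_cases hb : ∀ v, EV χ B sy D w v = 0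
      · by_cases hc : ∀ P, EP χ B sy D w P = 0
        · rw [if_pos ((mem_KerL χ B sy D).2 ⟨hc, hb, ha⟩), if_pos ha, e1 hb, e2 hc,
            Fintype.card_coe, Fintype.card_coe, om, mul_one]
          have h5 : (1 / (Fintype.card X : ℂ)) ^ (pf D).card * (Fintype.card X : ℂ) ^ (pf D).card
              = 1 := by
            rw [← mul_pow, one_div, inv_mul_cancel₀ hN, one_pow]
          calc (Fintype.card X : ℂ) * (ℓ : ℂ) ^ (pf Δ).card
              = ((1 / (Fintype.card X : ℂ)) ^ (pf D).card * (Fintype.card X : ℂ) ^ (pf D).card) *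
                ((Fintype.card X : ℂ) * (ℓ : ℂ) ^ (pf Δ).card) := by rw [h5, one_mul]
            _ = _ := by ring
        · rw [if_neg (fun h => hc ((mem_KerL χ B sy D).1 h).1), e2' hc, mul_zero, mul_zero,
            mul_zero]
      · rw [if_neg (fun h => hb ((mem_KerL χ B sy D).1 h).2.1), e1' hb, mul_zero, mul_zero,
          zero_mul, mul_zero]
    · rw [if_neg (fun h => ha ((mem_KerL χ B sy D).1 h).2.2), if_neg ha, mul_zero, zero_mul,
        zero_mul, mul_zero]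
  let E : (Uk ℓ X Δ D) × (X × (pf Δ → ZMod ℓ) × (pf D → X)) ≃
      Pm ℓ X (pf Δ) × (pf D → X × X) :=
    { toFun := fun a => ((a.1.1, a.2.1, a.1.2.1, a.2.2.1), fun P => (a.1.2.2 P, a.2.2.2 P))
      invFun := fun b => ((b.1.1, b.1.2.2.1, fun P => (b.2 P).1),
        (b.1.2.1, b.1.2.2.2, fun P => (b.2 P).2))
      left_inv := fun a => rfl
      right_inv := fun b => rfl }
  let f : (Uk ℓ X Δ D) × (X × (pf Δ → ZMod ℓ) × (pf D → X)) → ℂ := fun a =>
    (1 / (Fintype.card X : ℂ)) ^ om D *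
          ps (B a.2.1 (EI sy D a.1) + ∑ v, a.2.2.1 v * EV χ B sy D a.1 v +
            ∑ P, B (a.2.2.2 P) (EP χ B sy D a.1 P))
  let g : Pm ℓ X (pf Δ) × (pf D → X × X) → ℂ := fun b =>
    (1 / (Fintype.card X : ℂ)) ^ om D *
          ps (B b.1.2.1 (EI sy D (b.1.1, b.1.2.2.1, fun P => (b.2 P).1)) +
            ∑ v, b.1.2.2.2 v * EV χ B sy D (b.1.1, b.1.2.2.1, fun P => (b.2 P).1) v +
            ∑ P, B (b.2 P).2 (EP χ B sy D (b.1.1, b.1.2.2.1, fun P => (b.2 P).1) P))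
  have h0 : ∀ a, f a = g (E a) := fun a => rfl
  have h2 : ∑ w : Uk ℓ X Δ D, ∑ ξ : X, ∑ d : pf Δ → ZMod ℓ, ∑ c : pf D → X,
      (1 / (Fintype.card X : ℂ)) ^ om D *
          ps (B ξ (EI sy D w) + ∑ v, d v * EV χ B sy D w v +
            ∑ P, B (c P) (EP χ B sy D w P)) = ∑ a, f a := by
    rw [Fintype.sum_prod_type f]
    refine Finset.sum_congr rfl fun w _ => ?_
    rw [Fintype.sum_prod_type (fun y => f (w, y))]
    refine Finset.sum_congr rfl fun ξ _ => ?_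
    rw [Fintype.sum_prod_type (fun y => f (w, (ξ, y)))]
  have h3 : ∑ b, g b = ∑ π : Pm ℓ X (pf Δ), ∑ z : pf D → X × X, g (π, z) :=
    Fintype.sum_prod_type g
  rw [h1, Finset.mul_sum, Finset.sum_congr rfl (fun w _ => key w), h2,
    Fintype.sum_equiv E f g h0, h3]

end Pool.Agent.H94.PL
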