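import Mathlib

set_option autoImplicit false

/-!
# [H94 PL UL] Averages of complex numbers of absolute value one

`ul_two`: `‖1 + θ‖ ≤ (3 + Re θ) / 2` for `‖θ‖ = 1`: the square of the left side is `2 + 2 Re θ`,
and `((3 + t) / 2) ^ 2 - (2 + 2 t) = (1 - t) ^ 2 / 4 ≥ 0` (`Complex.sq_norm`, `normSq_apply`).
`ul`: `‖∑ η u‖ ≤ (N - 2) + ‖η u₀ + η u₁‖` and
`‖η u₀ + η u₁‖ = ‖η u₁‖ * ‖1 + η u₀ * conj (η u₁)‖` (as `η u₁ * conj (η u₁) = 1`), so the average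
is at most `(N - 2 + (3 + Re θ) / 2) / N = 1 - 1 / (2 N) + Re θ / (2 N)`, `θ = η u₀ * conj (η u₁)`.
-/

namespace Pool.Agent.H94.PL

theorem ul_two {θ : ℂ} (h : ‖θ‖ = 1) : ‖1 + θ‖ ≤ (3 + θ.re) / 2 := by
  have h1 : θ.re * θ.re + θ.im * θ.im = 1 := by
    rw [← Complex.normSq_apply, Complex.normSq_eq_norm_sq, h, one_pow]
  have h2 : ‖1 + θ‖ ^ 2 = 2 + 2 * θ.re := by
    rw [← Complex.normSq_eq_norm_sq, Complex.normSq_apply, Complex.add_re, Complex.add_im,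
      Complex.one_re, Complex.one_im]
    linear_combination h1
  have h3 : -1 ≤ θ.re := by nlinarith [mul_self_nonneg θ.im]
  have h4 : ‖1 + θ‖ ^ 2 ≤ ((3 + θ.re) / 2) ^ 2 := by
    rw [h2]
    nlinarith [sq_nonneg (1 - θ.re)]
  exact le_of_sq_le_sq h4 (by linarith)

theorem ul {κ : Type} [Fintype κ] (η : κ → ℂ) (h : ∀ u, ‖η u‖ = 1) (u₀ u₁ : κ) (hne : u₀ ≠ u₁) :
    ‖(1 / (Fintype.card κ : ℂ)) * ∑ u, η u‖ ≤
      1 - 1 / (2 * (Fintype.card κ : ℝ)) +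
        (η u₀ * (starRingEnd ℂ) (η u₁)).re / (2 * (Fintype.card κ : ℝ)) := by
  classical
  obtain ⟨θ, hθ⟩ : ∃ θ : ℂ, θ = η u₀ * (starRingEnd ℂ) (η u₁) := ⟨_, rfl⟩
  rw [← hθ]
  have hN : 0 < Fintype.card κ := Fintype.card_pos_iff.2 ⟨u₀⟩
  have hNR : (0 : ℝ) < Fintype.card κ := by exact_mod_cast hN
  have hθ1 : ‖θ‖ = 1 := by
    rw [hθ, norm_mul, RCLike.norm_conj, h, h, one_mul]
  have hc : η u₁ * (starRingEnd ℂ) (η u₁) = 1 := by
    rw [Complex.mul_conj, Complex.normSq_eq_norm_sq, h, one_pow, Complex.ofReal_one]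
  have h1 : ‖η u₀ + η u₁‖ ≤ (3 + θ.re) / 2 := by
    have h2 : η u₀ + η u₁ = η u₁ * (1 + θ) := by
      rw [hθ]
      linear_combination (-(η u₀)) * hc
    rw [h2, norm_mul, h, one_mul]
    exact ul_two hθ1
  have h3 : ∑ u, η u = (η u₀ + η u₁) + ∑ u ∈ (Finset.univ.erase u₀).erase u₁, η u := by
    rw [add_assoc, Finset.add_sum_erase _ _ (Finset.mem_erase.2 ⟨hne.symm, Finset.mem_univ _⟩),
      Finset.add_sum_erase _ _ (Finset.mem_univ _)]
  have h4 : ‖∑ u ∈ (Finset.univ.erase u₀).erase u₁, η u‖ ≤ (Fintype.card κ : ℝ) - 2 := by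
    refine (norm_sum_le _ _).trans ?_
    simp only [h, Finset.sum_const, nsmul_eq_mul, mul_one]
    have h5 : ((Finset.univ.erase u₀).erase u₁).card = Fintype.card κ - 2 := by
      rw [Finset.card_erase_of_mem (Finset.mem_erase.2 ⟨hne.symm, Finset.mem_univ _⟩),
        Finset.card_erase_of_mem (Finset.mem_univ _), Finset.card_univ]
      omega
    have h6 : 2 ≤ Fintype.card κ := by
      have h7 := Finset.card_le_univ ({u₀, u₁} : Finset κ)
      rw [Finset.card_pair hne] at h7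
      exact h7
    rw [h5, Nat.cast_sub h6]
    norm_num
  have h5 : ‖∑ u, η u‖ ≤ (3 + θ.re) / 2 + ((Fintype.card κ : ℝ) - 2) := by
    rw [h3]
    exact (norm_add_le _ _).trans (add_le_add h1 h4)
  rw [norm_mul, norm_div, norm_one, Complex.norm_natCast, one_div, inv_mul_le_iff₀ hNR]
  refine h5.trans (le_of_eq ?_)
  field_simp
  ring

end Pool.Agent.H94.PL
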