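import Pool.Agent.H94.PL.Thc
import Pool.Agent.H94.PL.Sm
import Pool.Agent.H94.PL.MV
import Pool.Agent.H94.PL.UL

set_option autoImplicit false

/-!
# [H94 PL INN] The inner sums

`κ` finite with `N` elements, `G i` (`i : ι`) monic squarefree pairwise coprime,
`η u = thc χ (b u) G (e u)` (`u : κ`).  By `sum_multc` (`c = 1 / N`) the sum over the `x : κ → Mn F n`
with `∏ x ∈ S` is `∑ D ∈ S, ∏ P ∈ pf D, ((1/N) * ∑ u, η u P)`.

* `inn_one`: each factor has norm `≤ 1` (`thc_CMc.le`), so the sum is at most `S.card`.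
* `inn_two`: `S ⊆ Sq F m`, and two indices `u₀, u₁` with `b u₀ ≠ b u₁` or `e u₀ j ≠ e u₁ j` for some
  `j` with `G j ≠ 1`.  The norm is at most `SS f m` with `f P = ‖(1/N) ∑ u, η u P‖`.
  For `P` monic irreducible: if `P` is not coprime to some `G j` then all `η u P = 0` (`thc_zero`),
  `f P = 0`; otherwise `‖η u P‖ = 1` (`thc_val`, `norm_ps`) and `ul` gives
  `f P ≤ 1 - 1/(2N) + Re (η u₀ P * conj (η u₁ P)) / (2N)`, and (`ps_neg`)
  `η u₀ P * conj (η u₁ P) = ps ((b u₀ - b u₁) deg P + ∑ j, (e u₀ j - e u₁ j) * lm (G j) P)`.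
  First case, some `j` with `e u₀ j ≠ e u₁ j`, `G j ≠ 1`: this is `θ P` with
  `θ = thc χ (b u₀ - b u₁) G (e u₀ - e u₁)` (`θ P = 0` in the non-coprime case);
  `mv_re` with `K = 2 ℓ ∑ deg (G j) + Kc ℓ` (`thc_partial`).
  Second case, `e u₀ j = e u₁ j` whenever `G j ≠ 1`, and `b u₀ ≠ b u₁`: the sum over `j` is `0`
  (`lm_one_left`), so it is `θ P` with `θ = thd (b u₀ - b u₁)`, of absolute value `1`
  (in the non-coprime case `f P = 0 ≤ 1 - 1/(2N) - 1/(2N)`, `N ≥ 1`); `mv_re` with the same `K`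
  (`thd_partial`).
-/

namespace Pool.Agent.H94.PL

open Polynomial
open Pool.Agent.H94.PC (Mo Sq Pr pf om Mn mem_Mo mem_Sq mem_Pr mem_pf mem_pf')

variable {F : Type} [Field F] [Finite F] {ℓ : ℕ} [hl : Fact ℓ.Prime]
  {κ ι : Type} [Fintype κ] [DecidableEq κ] [Fintype ι]

/-- the average of numbers of absolute value at most one -/
private theorem inn_avg (η : κ → ℂ) (h : ∀ u, ‖η u‖ ≤ 1) :
    ‖(1 / (Fintype.card κ : ℂ)) * ∑ u, η u‖ ≤ 1 := by
  rw [norm_mul, norm_div, norm_one, Complex.norm_natCast]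
  have h1 : ‖∑ u, η u‖ ≤ (Fintype.card κ : ℝ) := by
    refine (norm_sum_le _ _).trans ?_
    calc ∑ u, ‖η u‖ ≤ ∑ _u : κ, (1 : ℝ) := Finset.sum_le_sum fun u _ => h u
      _ = (Fintype.card κ : ℝ) := by simp
  calc 1 / (Fintype.card κ : ℝ) * ‖∑ u, η u‖
      ≤ 1 / (Fintype.card κ : ℝ) * (Fintype.card κ : ℝ) :=
        mul_le_mul_of_nonneg_left h1 (by positivity)
    _ = (Fintype.card κ : ℝ) / (Fintype.card κ : ℝ) := by ring
    _ ≤ 1 := div_self_le_one _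

open Classical in
theorem inn_one (χ : LChar F ℓ) (n : ℕ) (S : Finset F[X])
    (hS : ∀ D ∈ S, D.Monic ∧ Squarefree D ∧ D.natDegree ≤ n) (b : κ → ZMod ℓ) (G : ι → F[X])
    (e : κ → ι → ZMod ℓ) :
    ‖∑ x : κ → Mn F n, (if (∏ i, (x i).1) ∈ S then
      (1 / (Fintype.card κ : ℂ)) ^ om (∏ i, (x i).1) * ∏ u, thc χ (b u) G (e u) (x u).1
      else 0)‖ ≤ S.card := by
  have hη : ∀ u, CMc (thc χ (b u) G (e u)) := fun u => thc_CMc χ (b u) G (e u)
  have h0 := sum_multc n S hS (fun u => thc χ (b u) G (e u)) hη (1 / (Fintype.card κ : ℂ))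
  rw [h0]
  refine (norm_sum_le _ _).trans ?_
  calc ∑ D ∈ S, ‖∏ P ∈ pf D, (1 / (Fintype.card κ : ℂ) * ∑ u, thc χ (b u) G (e u) P)‖
      ≤ ∑ _D ∈ S, (1 : ℝ) := by
        refine Finset.sum_le_sum fun D _ => ?_
        rw [norm_prod]
        refine Finset.prod_le_one (fun P _ => norm_nonneg _) fun P hP => ?_
        exact inn_avg _ fun u => (hη u).le P (mem_pf' hP).1
    _ = (S.card : ℝ) := by simp

/-- the quotient of two characters at a prime -/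
private theorem inn_quot (χ : LChar F ℓ) (b₀ b₁ : ZMod ℓ) (G : ι → F[X]) (e₀ e₁ : ι → ZMod ℓ)
    {P : F[X]} (hP : P.Monic) (h : ∀ i, IsCoprime (G i) P) :
    thc χ b₀ G e₀ P * (starRingEnd ℂ) (thc χ b₁ G e₁ P) =
      ps ((b₀ - b₁) * (P.natDegree : ZMod ℓ) + ∑ i, (e₀ i - e₁ i) * lm χ (G i) P) := by
  rw [thc_val χ b₀ G e₀ hP h, thc_val χ b₁ G e₁ hP h, ← ps_neg, ← ps_add]
  congr 1
  simp only [sub_mul, Finset.sum_sub_distrib]
  ring

open Classical in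
private theorem inn_main (χ : LChar F ℓ) (n m : ℕ) (hmn : m ≤ n) (hm : 1 ≤ m)
    (S : Finset F[X]) (hS : ∀ D ∈ S, D ∈ Sq F m) (b : κ → ZMod ℓ) (G : ι → F[X])
    (e : κ → ι → ZMod ℓ) (u₀ u₁ : κ) (hne : u₀ ≠ u₁) (θ : F[X] → ℂ) (hθ : CMc θ)
    (K : ℝ) (hK1 : 1 ≤ K)
    (hK : ∀ j : ℕ, ‖∑ i ∈ Finset.range (j + 1), Bs θ i / (Nat.card F : ℂ) ^ i‖ ≤ K)
    (hθv : ∀ P : F[X], P.Monic → (∀ i, IsCoprime (G i) P) →
      ps ((b u₀ - b u₁) * (P.natDegree : ZMod ℓ) + ∑ i, (e u₀ i - e u₁ i) * lm χ (G i) P) =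
        θ P) :
    ‖∑ x : κ → Mn F n, (if (∏ i, (x i).1) ∈ S then
      (1 / (Fintype.card κ : ℂ)) ^ om (∏ i, (x i).1) * ∏ u, thc χ (b u) G (e u) (x u).1
      else 0)‖ ≤
      60 * (Nat.card F : ℝ) ^ m * (m : ℝ) ^ (-(1 / (2 * Fintype.card κ)) : ℝ) *
        K ^ (1 / (2 * Fintype.card κ) : ℝ) := by
  have hη : ∀ u, CMc (thc χ (b u) G (e u)) := fun u => thc_CMc χ (b u) G (e u)
  have hS' : ∀ D ∈ S, D.Monic ∧ Squarefree D ∧ D.natDegree ≤ n := by
    intro D hD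
    have h1 := mem_Sq.1 (hS D hD)
    exact ⟨h1.1, h1.2.2, h1.2.1.le.trans hmn⟩
  have h0 := sum_multc n S hS' (fun u => thc χ (b u) G (e u)) hη (1 / (Fintype.card κ : ℂ))
  rw [h0]
  have hN : (1 : ℝ) ≤ (Fintype.card κ : ℝ) := by
    have : 0 < Fintype.card κ := Fintype.card_pos_iff.2 ⟨u₀⟩
    exact_mod_cast this
  refine le_trans ?_ (mv_re hθ K hK1 hK (Fintype.card κ : ℝ) hN
    (fun P => ‖(1 / (Fintype.card κ : ℂ)) * ∑ u, thc χ (b u) G (e u) P‖)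
    (fun P _ _ => norm_nonneg _) ?_ m hm)
  · refine (norm_sum_le _ _).trans ?_
    unfold PC.SS
    calc ∑ D ∈ S, ‖∏ P ∈ pf D, (1 / (Fintype.card κ : ℂ) * ∑ u, thc χ (b u) G (e u) P)‖
        = ∑ D ∈ S, ∏ P ∈ pf D, ‖(1 / (Fintype.card κ : ℂ)) * ∑ u, thc χ (b u) G (e u) P‖ :=
          Finset.sum_congr rfl fun D _ => norm_prod _ _
      _ ≤ _ := Finset.sum_le_sum_of_subset_of_nonneg hS fun D _ _ =>
          Finset.prod_nonneg fun P _ => norm_nonneg _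
  · intro P hPm hPi
    have hθn : -1 ≤ (θ P).re := by
      have h1 := Complex.abs_re_le_norm (θ P)
      have h2 := hθ.le P hPm
      have h3 := neg_abs_le (θ P).re
      linarith
    by_cases hc : ∀ i, IsCoprime (G i) P
    · have h1 : ∀ u, ‖thc χ (b u) G (e u) P‖ = 1 := fun u => by
        rw [thc_val χ (b u) G (e u) hPm hc, norm_ps]
      have h2 := ul (fun u => thc χ (b u) G (e u) P) h1 u₀ u₁ hne
      rw [inn_quot χ (b u₀) (b u₁) G (e u₀) (e u₁) hPm hc, hθv P hPm hc] at h2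
      exact h2
    · push Not at hc
      obtain ⟨i, hi⟩ := hc
      have h1 : ∀ u, thc χ (b u) G (e u) P = 0 := fun u => thc_zero χ (b u) G (e u) hPm i hi
      have h2 : ‖(1 / (Fintype.card κ : ℂ)) * ∑ u, thc χ (b u) G (e u) P‖ = 0 := by
        rw [Finset.sum_eq_zero fun u _ => h1 u, mul_zero, norm_zero]
      have h3 : 1 / (2 * (Fintype.card κ : ℝ)) ≤ 1 / 2 := by
        apply one_div_le_one_div_of_le (by norm_num)
        linarith
      have h4 : -(1 / (2 * (Fintype.card κ : ℝ))) ≤ (θ P).re / (2 * (Fintype.card κ : ℝ)) := by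
        rw [neg_div']
        exact div_le_div_of_nonneg_right hθn (by linarith)
      rw [h2]
      linarith

open Classical in
theorem inn_two (χ : LChar F ℓ) (h2 : ℓ ≠ 2) (n m : ℕ) (hmn : m ≤ n) (hm : 1 ≤ m)
    (S : Finset F[X]) (hS : ∀ D ∈ S, D ∈ Sq F m) (b : κ → ZMod ℓ) (G : ι → F[X])
    (e : κ → ι → ZMod ℓ) (hG : ∀ i, (G i).Monic ∧ Squarefree (G i))
    (hc : ∀ i j, i ≠ j → IsCoprime (G i) (G j)) (u₀ u₁ : κ)
    (hu : b u₀ ≠ b u₁ ∨ ∃ j, e u₀ j ≠ e u₁ j ∧ G j ≠ 1) :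
    ‖∑ x : κ → Mn F n, (if (∏ i, (x i).1) ∈ S then
      (1 / (Fintype.card κ : ℂ)) ^ om (∏ i, (x i).1) * ∏ u, thc χ (b u) G (e u) (x u).1
      else 0)‖ ≤
      60 * (Nat.card F : ℝ) ^ m * (m : ℝ) ^ (-(1 / (2 * Fintype.card κ)) : ℝ) *
        (2 * ℓ * ∑ i, ((G i).natDegree : ℝ) + Kc ℓ) ^ (1 / (2 * Fintype.card κ) : ℝ) := by
  have hne : u₀ ≠ u₁ := by
    rintro rfl
    rcases hu with h | ⟨j, h, _⟩
    · exact h rfl
    · exact h rfl
  have hKc : 1 ≤ Kc ℓ := one_le_Kc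
  have hdeg : (0 : ℝ) ≤ 2 * ℓ * ∑ i, ((G i).natDegree : ℝ) := by positivity
  by_cases hj : ∃ j, e u₀ j ≠ e u₁ j ∧ G j ≠ 1
  · obtain ⟨j, hj1, hj2⟩ := hj
    refine inn_main χ n m hmn hm S hS b G e u₀ u₁ hne
      (thc χ (b u₀ - b u₁) G (fun i => e u₀ i - e u₁ i)) (thc_CMc χ _ _ _) _ (by linarith)
      (fun i => ?_) (fun P hP hcop => ?_)
    · have h1 := thc_partial χ h2 (b u₀ - b u₁) G (fun i => e u₀ i - e u₁ i) hG hc j
        (sub_ne_zero.2 hj1) hj2 i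
      linarith
    · exact (thc_val χ (b u₀ - b u₁) G (fun i => e u₀ i - e u₁ i) hP hcop).symm
  · have hb : b u₀ ≠ b u₁ := by
      rcases hu with h | h
      · exact h
      · exact absurd h hj
    push Not at hj
    refine inn_main χ n m hmn hm S hS b G e u₀ u₁ hne (thd (b u₀ - b u₁)) (thd_CMc _) _
      (by linarith) (fun i => ?_) (fun P hP hcop => ?_)
    · have h1 := thd_partial (F := F) (sub_ne_zero.2 hb) i
      linarith
    · have h1 : ∑ i, (e u₀ i - e u₁ i) * lm χ (G i) P = 0 := by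
        refine Finset.sum_eq_zero fun i _ => ?_
        by_cases he : e u₀ i = e u₁ i
        · rw [he, sub_self, zero_mul]
        · rw [hj i he, lm_one_left χ hP, mul_zero]
      rw [h1, add_zero]
      rfl

end Pool.Agent.H94.PL
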