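import Mathlib

set_option autoImplicit false

/-!
# Irreducible polynomials over complete fields: the Newton polygon is a segment

For `P` monic irreducible of degree `n` over a complete field with values in `ℤᵐ⁰`:
`v (a_i) ^ n ≤ v (a_0) ^ (n - i)` (spectral norm of a root).
-/

namespace Pool.Agent.H94.PL

open Polynomial WithZero

section norm

variable {K : Type*} [NontriviallyNormedField K] [CompleteSpace K] [IsUltrametricDist K]

theorem irr_coeff_norm (P : K[X]) (hP : P.Monic) (hirr : Irreducible P) {i : ℕ}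
    (hi : i < P.natDegree) :
    ‖P.coeff i‖ ^ P.natDegree ≤ ‖P.coeff 0‖ ^ (P.natDegree - i) := by
  have := Fact.mk hirr
  have hfin : Module.Finite K (AdjoinRoot P) := hP.finite_adjoinRoot
  have hmin : minpoly K (AdjoinRoot.root P) = P := by
    rw [AdjoinRoot.minpoly_root hirr.ne_zero, hP.leadingCoeff, inv_one, C_1, mul_one]
  have h1 := spectralNorm.spectralNorm_eq_norm_coeff_zero_rpow K (AdjoinRoot P) (AdjoinRoot.root P)
  rw [spectralNorm, hmin] at h1
  have h2 : spectralValueTerms P i ≤ spectralValue P := le_ciSup (spectralValueTerms_bddAbove P) i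
  rw [h1, spectralValueTerms_of_lt_natDegree P hi] at h2
  have hn0 : (0 : ℝ) < P.natDegree := by
    exact_mod_cast (lt_of_le_of_lt (Nat.zero_le i) hi)
  have hni : (0 : ℝ) < ((P.natDegree : ℝ) - i) := by
    have : (i : ℝ) < P.natDegree := by exact_mod_cast hi
    linarith
  have h3 := Real.rpow_le_rpow (by positivity) h2
    (mul_nonneg hn0.le hni.le)
  rw [← Real.rpow_mul (norm_nonneg _), ← Real.rpow_mul (norm_nonneg _)] at h3
  have e1 : 1 / ((P.natDegree : ℝ) - i) * ((P.natDegree : ℝ) * ((P.natDegree : ℝ) - i)) =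
      P.natDegree := by
    field_simp
  have e2 : 1 / (P.natDegree : ℝ) * ((P.natDegree : ℝ) * ((P.natDegree : ℝ) - i)) =
      ((P.natDegree - i : ℕ) : ℝ) := by
    rw [Nat.cast_sub hi.le]
    field_simp
  rw [e1, e2, Real.rpow_natCast, Real.rpow_natCast] at h3
  exact h3

end norm

section valued

variable {M : Type*} [Field M] [hv : Valued M ℤᵐ⁰] [CompleteSpace M]

/-- `v (a_i) ^ n ≤ v (a_0) ^ (n - i)` for an irreducible monic polynomial of degree `n`. -/
theorem irr_coeff (ϖ : M) (h0 : (Valued.v ϖ : ℤᵐ⁰) ≠ 0) (h1 : (Valued.v ϖ : ℤᵐ⁰) ≠ 1)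
    (P : M[X]) (hP : P.Monic) (hirr : Irreducible P) (i : ℕ) (hi : i ≤ P.natDegree) :
    (Valued.v (P.coeff i) : ℤᵐ⁰) ^ P.natDegree ≤
      (Valued.v (P.coeff 0) : ℤᵐ⁰) ^ (P.natDegree - i) := by
  rcases hi.eq_or_lt with rfl | hi
  · rw [hP.coeff_natDegree, map_one, one_pow, Nat.sub_self, pow_zero]
  have hnt : (Valued.v : Valuation M ℤᵐ⁰).IsNontrivial := ⟨⟨ϖ, h0, h1⟩⟩
  obtain ⟨hr⟩ := (Valuation.nonempty_rankOne_iff_mulArchimedean (v := (Valued.v :
    Valuation M ℤᵐ⁰))).2 inferInstance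
  letI := Valued.toNontriviallyNormedField (L := M) (Γ₀ := ℤᵐ⁰)
  have h := irr_coeff_norm P hP hirr hi
  rw [← norm_pow, ← norm_pow, Valued.toNormedField.norm_le_iff, map_pow, map_pow] at h
  exact h

end valued

end Pool.Agent.H94.PL
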