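import Pool.Agent.H94.PL.Cs

set_option autoImplicit false

/-!
# [H94 PL] The system of equations

`X` is a finite `ZMod ℓ`-module with a symmetric nondegenerate form `B`, `S = pf Δ`.
-/

namespace Pool.Agent.H94.PL

open Polynomial
open Pool.Agent.H94.PC (Mo Sq Pr pf om Mn mem_Mo mem_Sq mem_Pr mem_pf mem_pf')

section
variable {ℓ : ℕ} {X : Type} [AddCommGroup X] [Module (ZMod ℓ) X]

/-- symmetric and nondegenerate -/
structure BGood (B : X →ₗ[ZMod ℓ] X →ₗ[ZMod ℓ] ZMod ℓ) : Prop where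
  symm : ∀ x y, B x y = B y x
  nondeg : ∀ x, (∀ y, B x y = 0) → x = 0

/-- the exponents on `V = X × X`, `u = (x, c)` -/
def CDX [Fintype X] (B : X →ₗ[ZMod ℓ] X →ₗ[ZMod ℓ] ZMod ℓ) : CD (X × X) ℓ where
  N := Fintype.card X
  Phi u w := B u.2 (w.1 - u.1)

/-- the coefficients of the system -/
structure Sys (ℓ : ℕ) (X S : Type) [AddCommGroup X] [Module (ZMod ℓ) X] where
  /-- the vectors `ε_v` -/
  eps : S → X
  /-- the map `β` -/
  bet : X →ₗ[ZMod ℓ] X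
  /-- the coefficients `ρ` -/
  rho : S → S → ZMod ℓ

/-- the conditions used for the average -/
structure Sys.Good {S : Type} (B : X →ₗ[ZMod ℓ] X →ₗ[ZMod ℓ] ZMod ℓ) (sy : Sys ℓ X S) :
    Prop where
  self : ∀ x y, B (sy.bet x) y = B x (sy.bet y)
  ne : ∀ v, ∃ x, B x (sy.eps v) ≠ 0
  sep : ∀ W₁ W₂ : Submodule (ZMod ℓ) X,
    (∀ v, (∀ x ∈ W₁, B x (sy.eps v) = 0) ∨ (∀ x ∈ W₂, B x (sy.eps v) = 0)) → W₁ = ⊥ ∨ W₂ = ⊥

/-- the parameters `(κ, ξ, s, d)` -/
abbrev Pm (ℓ : ℕ) (X S : Type) : Type := X × X × (S → ZMod ℓ) × (S → ZMod ℓ)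

/-- the coefficient of the degree -/
def bp {S : Type} (B : X →ₗ[ZMod ℓ] X →ₗ[ZMod ℓ] ZMod ℓ) (sy : Sys ℓ X S) (π : Pm ℓ X S)
    (u : X × X) : ZMod ℓ :=
  B u.2 π.1 + B u.2 (sy.bet u.1) + B π.2.1 u.1

/-- the coefficients of the symbols at the bad primes -/
def gp {S : Type} (B : X →ₗ[ZMod ℓ] X →ₗ[ZMod ℓ] ZMod ℓ) (sy : Sys ℓ X S) (π : Pm ℓ X S)
    (u : X × X) (v : S) : ZMod ℓ :=
  (B u.2 (sy.eps v) + π.2.2.2 v) * (B u.1 (sy.eps v) + π.2.2.1 v)

end

section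
variable {F : Type} [Field F] [Finite F] {ℓ : ℕ} {X : Type} [AddCommGroup X]
  [Module (ZMod ℓ) X] (χ : LChar F ℓ) (B : X →ₗ[ZMod ℓ] X →ₗ[ZMod ℓ] ZMod ℓ) {Δ : F[X]}
  (sy : Sys ℓ X (pf Δ)) (D : F[X])

/-- unknowns `(κ, s, x)` -/
abbrev Uk (ℓ : ℕ) (X : Type) {F : Type} [Field F] [Finite F] (Δ D : F[X]) : Type :=
  X × (pf Δ → ZMod ℓ) × (pf D → X)

/-- the equation at `P` -/
noncomputable def EP (z : Uk ℓ X Δ D) (P : pf D) : X :=
  ∑ Q : pf D, lm χ Q.1 P.1 • (z.2.2 Q - z.2.2 P) +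
    (P.1.natDegree : ZMod ℓ) • (z.1 + sy.bet (z.2.2 P)) +
    ∑ v : pf Δ, (lm χ v.1 P.1 * (z.2.1 v + B (sy.eps v) (z.2.2 P))) • sy.eps v

/-- the equation at `v` -/
noncomputable def EV (z : Uk ℓ X Δ D) (v : pf Δ) : ZMod ℓ :=
  (v.1.natDegree : ZMod ℓ) * B z.1 (sy.eps v) + ∑ P : pf D, B (z.2.2 P) (sy.eps v) * lm χ P.1 v.1 +
    ∑ v' : pf Δ, sy.rho v v' * z.2.1 v' + z.2.1 v * ∑ P : pf D, lm χ P.1 v.1

/-- the equation at infinity -/
noncomputable def EI (z : Uk ℓ X Δ D) : X :=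
  ∑ P : pf D, (P.1.natDegree : ZMod ℓ) • z.2.2 P +
    ∑ v : pf Δ, ((v.1.natDegree : ZMod ℓ) * z.2.1 v) • sy.eps v

/-- the solutions -/
def KerL : AddSubgroup (Uk ℓ X Δ D) where
  carrier := {z | (∀ P, EP χ B sy D z P = 0) ∧ (∀ v, EV χ B sy D z v = 0) ∧ EI sy D z = 0}
  zero_mem' := by
    refine ⟨fun P => ?_, fun v => ?_, ?_⟩
    · simp [EP]
    · simp [EV]
    · simp [EI]
  add_mem' := by
    rintro z w ⟨h1, h2, h3⟩ ⟨h1', h2', h3'⟩
    refine ⟨fun P => ?_, fun v => ?_, ?_⟩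
    · have e : EP χ B sy D (z + w) P = EP χ B sy D z P + EP χ B sy D w P := by
        simp only [EP, Prod.fst_add, Prod.snd_add, Pi.add_apply, map_add, smul_add, add_sub_add_comm,
          mul_add, add_smul, Finset.sum_add_distrib]
        abel
      rw [e, h1, h1', add_zero]
    · have e : EV χ B sy D (z + w) v = EV χ B sy D z v + EV χ B sy D w v := by
        simp only [EV, Prod.fst_add, Prod.snd_add, Pi.add_apply, map_add, LinearMap.add_apply,
          mul_add, add_mul, Finset.sum_add_distrib]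
        ring
      rw [e, h2, h2', add_zero]
    · have e : EI sy D (z + w) = EI sy D z + EI sy D w := by
        simp only [EI, Prod.snd_add, Prod.fst_add, Pi.add_apply, smul_add, mul_add, add_smul,
          Finset.sum_add_distrib]
        abel
      rw [e, h3, h3', add_zero]
  neg_mem' := by
    rintro z ⟨h1, h2, h3⟩
    refine ⟨fun P => ?_, fun v => ?_, ?_⟩
    · have e : EP χ B sy D (-z) P = -EP χ B sy D z P := by
        simp only [EP, Prod.fst_neg, Prod.snd_neg, Pi.neg_apply, map_neg]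
        simp only [← neg_add, ← neg_sub', smul_neg, mul_neg, neg_smul, Finset.sum_neg_distrib]
      rw [e, h1, neg_zero]
    · have e : EV χ B sy D (-z) v = -EV χ B sy D z v := by
        simp only [EV, Prod.fst_neg, Prod.snd_neg, Pi.neg_apply, map_neg, LinearMap.neg_apply,
          mul_neg, neg_mul, Finset.sum_neg_distrib]
        ring
      rw [e, h2, neg_zero]
    · have e : EI sy D (-z) = -EI sy D z := by
        simp only [EI, Prod.snd_neg, Prod.fst_neg, Pi.neg_apply, smul_neg, mul_neg, neg_smul,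
          Finset.sum_neg_distrib]
        abel
      rw [e, h3, neg_zero]

theorem mem_KerL {z : Uk ℓ X Δ D} : z ∈ KerL χ B sy D ↔
    (∀ P, EP χ B sy D z P = 0) ∧ (∀ v, EV χ B sy D z v = 0) ∧ EI sy D z = 0 := Iff.rfl

/-- the torsion solutions -/
def torL (σ : X) : Uk ℓ X Δ D := (-sy.bet σ, fun v => -B (sy.eps v) σ, fun _ => σ)

/-- the relation from reciprocity: the torsion solutions satisfy the equations at the `v` -/
def Rel1 : Prop := ∀ (v : pf Δ) (σ : X),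
  (v.1.natDegree : ZMod ℓ) * B (sy.bet σ) (sy.eps v) + ∑ v' : pf Δ, sy.rho v v' * B (sy.eps v') σ = 0

/-- the relation at infinity, for degree `n` -/
def Rel2 (n : ℕ) : Prop := ∀ σ : X,
  (n : ZMod ℓ) • σ = ∑ v : pf Δ, ((v.1.natDegree : ZMod ℓ) * B (sy.eps v) σ) • sy.eps v

end

end Pool.Agent.H94.PL
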