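import Pool.Agent.H94.PL.Tk

set_option autoImplicit false

/-!
# [H94 PL KP] The Selmer data solve the linear system: equations at `P ∣ D`

Sums: `∑_k kap δ_k = kap (∏ δ_k) = 0` (`kap_prod`, `kap_pow_l`), same for `ex ℓ P`.
`ex_pr2`: `ex v δ_i + ex v δ_j = 0`, the others are zero (`atN`), the sum over `k` is zero.
`ep_zS`: let `x_k = δ_k / tv s k`, `s` from `atD P`.  `ex P x_k = 0` and `ex_tv_D` give `ex P δ_k = s k`, so `toX (ex P δ) = toX s`.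
`kap x_k = kap δ_k + bet(toX s)_k` (`kap_tv`), `ex Q x_k = ex Q δ_k - s k` for `Q ∈ pf D` (`ex_tv_D`),
`ex v x_k = ex v δ_k + BB (ep i j)(toX s) * (ep i j)_k` (`ex_tv_N`), and `ex v δ_k = (ex v δ_i) * (ep i j)_k` (`ex_eq`).
`LQ` is then the `k`-th coordinate of `EP` (`Subtype.ext`, `funext`; coordinates of sums in `XX`: the map
`x ↦ x.1 k` is linear; `Submodule.coe_sum`, `Finset.sum_apply`).
-/

namespace Pool.Agent.H94.PL

open Polynomial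
open Pool.Agent.H94.PC (Mo Sq Pr pf om Mn mem_Mo mem_Sq mem_Pr mem_pf mem_pf')

variable {F : Type} [Field F] [Finite F] {ℓ m : ℕ} [hl : Fact ℓ.Prime] (χ : LChar F ℓ)

section
variable {c : F} {A : Fin m → F[X]} {D : F[X]} {δ : Fin m → RatFunc F}

theorem Kp_root (h : LocD χ c A D δ) : ∃ y : RatFunc F, y ≠ 0 ∧ ∏ k, δ k = y ^ ℓ := by
  obtain ⟨y, hy⟩ := h.prod
  refine ⟨y, ?_, hy⟩
  rintro rfl
  rw [zero_pow hl.out.ne_zero] at hy
  exact Finset.prod_ne_zero_iff.2 (fun k _ => h.ne k) hy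

theorem sum_kap (h : LocD χ c A D δ) : ∑ k, kap χ (δ k) = 0 := by
  obtain ⟨y, hy0, hy⟩ := Kp_root χ h
  rw [← kap_prod χ _ _ (fun k _ => h.ne k), hy, kap_pow_l χ hy0]

theorem sum_ex (h : LocD χ c A D δ) {P : F[X]} (hP : Irreducible P) :
    ∑ k, ex ℓ P (δ k) = 0 := by
  obtain ⟨y, hy0, hy⟩ := Kp_root χ h
  rw [← ex_prod hP _ _ (fun k _ => h.ne k), hy, ex_pow_l hP hy0]

theorem ex_eq (h : LocD χ c A D δ) (v : pf (dl A)) (k : Fin m) :
    ex ℓ v.1 (δ k) = ex ℓ v.1 (δ (pr A v).1) * (ep ℓ (pr A v).1 (pr A v).2).1 k := by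
  obtain ⟨s, -, h0, -⟩ := h.atN v
  have hij : (pr A v).1 ≠ (pr A v).2 := (pr_lt A v).ne
  have hsum := sum_ex χ h (mem_pf' v.2).2.1
  rw [← Finset.add_sum_erase _ _ (Finset.mem_univ (pr A v).1),
    ← Finset.add_sum_erase _ _ (Finset.mem_erase.2 ⟨hij.symm, Finset.mem_univ (pr A v).2⟩),
    Finset.sum_eq_zero, add_zero] at hsum
  · rw [ep_apply]
    by_cases h1 : k = (pr A v).1
    · rw [if_pos h1, if_neg (by rw [h1]; exact hij), sub_zero, mul_one, h1]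
    · by_cases h2 : k = (pr A v).2
      · rw [if_neg h1, if_pos h2, zero_sub, mul_neg, mul_one, h2]
        exact (neg_eq_of_add_eq_zero_right hsum).symm
      · rw [if_neg h1, if_neg h2, sub_zero, mul_zero]
        exact h0 k h1 h2
  · intro k hk
    rw [Finset.mem_erase, Finset.mem_erase] at hk
    exact h0 k hk.2.1 hk.1

end

theorem ep_zS (h2 : ℓ ≠ 2) {c : F} (hc : c ≠ 0) {A : Fin m → F[X]} (hs : Squarefree (dl A))
    {D : F[X]} (hD : D.Monic) (hDs : Squarefree D) (hDA : IsCoprime D (dl A))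
    {δ : Fin m → RatFunc F} (h : LocD χ c A D δ) (P : pf D) :
    EP χ (BB m ℓ) (syC χ c A) D (zS χ A D δ) P = 0 := by
  obtain ⟨s, hℓs, hLQ⟩ := h.atD P
  have htv : ∀ k, tv (DK c D) (AK A) s k ≠ 0 := fun k => tv_ne hc hD.ne_zero hs s k
  have h1 : ∀ k, ex ℓ P.1 (δ k) = (s k : ZMod ℓ) := by
    intro k
    have := (hLQ k).1
    rw [ex_div (mem_pf' P.2).2.1 (h.ne k) (htv k), ex_tv_D hc hs hD hDs hDA s k P] at this
    exact sub_eq_zero.1 this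
  have h3 : (toX fun k => ex ℓ P.1 (δ k)) = toX fun k => (s k : ZMod ℓ) := by
    congr 1
    funext k
    exact h1 k
  have hsumP : ∑ k, ex ℓ P.1 (δ k) = 0 := sum_ex χ h (mem_pf' P.2).2.1
  apply Subtype.ext
  funext k
  have h4 := (hLQ k).2
  rw [kap_div χ (h.ne k) (htv k), kap_tv χ h2 hc hs hD s hℓs k] at h4
  have h5 : ∀ Q : pf D, ex ℓ Q.1 (δ k / tv (DK c D) (AK A) s k) =
      ex ℓ Q.1 (δ k) - ex ℓ P.1 (δ k) := by
    intro Q
    rw [ex_div (mem_pf' Q.2).2.1 (h.ne k) (htv k), ex_tv_D hc hs hD hDs hDA s k Q, h1 k]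
  have h6 : ∀ v : pf (dl A), ex ℓ v.1 (δ k / tv (DK c D) (AK A) s k) =
      (ex ℓ v.1 (δ (pr A v).1) + BB m ℓ (ep ℓ (pr A v).1 (pr A v).2) (toX fun i => (s i : ZMod ℓ))) *
        (ep ℓ (pr A v).1 (pr A v).2).1 k := by
    intro v
    rw [ex_div (mem_pf' v.2).2.1 (h.ne k) (htv k), ex_tv_N hc hs hD hDA s hℓs k v,
      ex_eq χ h v k]
    ring
  simp only [h5, h6] at h4
  have h7 : (EP χ (BB m ℓ) (syC χ c A) D (zS χ A D δ) P).1 k =
      ∑ Q : pf D, lm χ Q.1 P.1 * (ex ℓ Q.1 (δ k) - ex ℓ P.1 (δ k)) +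
      (P.1.natDegree : ZMod ℓ) * (kap χ (δ k) +
        ((syC χ c A).bet (toX fun i => (s i : ZMod ℓ))).1 k) +
      ∑ v : pf (dl A), (lm χ v.1 P.1 * (ex ℓ v.1 (δ (pr A v).1) +
        BB m ℓ (ep ℓ (pr A v).1 (pr A v).2) (toX fun i => (s i : ZMod ℓ)))) *
          (ep ℓ (pr A v).1 (pr A v).2).1 k := by
    have hQ : ∀ Q : pf D, (toX fun k => ex ℓ Q.1 (δ k)).1 k = ex ℓ Q.1 (δ k) := fun Q =>
      toX_apply (sum_ex χ h (mem_pf' Q.2).2.1) k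
    have hκ : (toX fun k => kap χ (δ k)).1 k = kap χ (δ k) := toX_apply (sum_kap χ h) k
    simp only [EP, zS, Submodule.coe_add, Submodule.coe_sum, Submodule.coe_smul, Pi.add_apply,
      Finset.sum_apply, Pi.smul_apply, smul_eq_mul, Submodule.coe_sub, Pi.sub_apply, h3.symm]
    simp only [hQ, hκ]
    rfl
  rw [h7]
  change _ = (0 : ZMod ℓ)
  rw [← h4]
  simp only [mul_add, mul_sub, sub_neg_eq_add]
  simp only [sub_mul, add_mul, Finset.sum_add_distrib, Finset.sum_sub_distrib]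
  have a1 : ∑ Q : pf D, ex ℓ Q.1 (δ k) * lm χ Q.1 P.1 = ∑ Q : pf D, lm χ Q.1 P.1 * ex ℓ Q.1 (δ k) :=
    Finset.sum_congr rfl fun Q _ => mul_comm _ _
  have a2 : ∑ Q : pf D, ex ℓ P.1 (δ k) * lm χ Q.1 P.1 = ∑ Q : pf D, lm χ Q.1 P.1 * ex ℓ P.1 (δ k) :=
    Finset.sum_congr rfl fun Q _ => mul_comm _ _
  have a3 : ∑ v : pf (dl A), ex ℓ v.1 (δ (pr A v).1) * (ep ℓ (pr A v).1 (pr A v).2).1 k * lm χ v.1 P.1 =
      ∑ v : pf (dl A), lm χ v.1 P.1 * ex ℓ v.1 (δ (pr A v).1) * (ep ℓ (pr A v).1 (pr A v).2).1 k :=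
    Finset.sum_congr rfl fun v _ => by ring
  have a4 : ∑ v : pf (dl A), BB m ℓ (ep ℓ (pr A v).1 (pr A v).2) (toX fun i => (s i : ZMod ℓ)) *
      (ep ℓ (pr A v).1 (pr A v).2).1 k * lm χ v.1 P.1 =
      ∑ v : pf (dl A), lm χ v.1 P.1 * BB m ℓ (ep ℓ (pr A v).1 (pr A v).2)
        (toX fun i => (s i : ZMod ℓ)) * (ep ℓ (pr A v).1 (pr A v).2).1 k :=
    Finset.sum_congr rfl fun v _ => by ring
  rw [a1, a2, a3, a4]
  ring

end Pool.Agent.H94.PL
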