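import Pool.Agent.H94.TC.NormRes
import Pool.Agent.H94.PL.Cs

set_option autoImplicit false

/-!
# [H94 PL] The product of the values of a Mumford pair is an `ℓ`-th power
-/

namespace Pool.Agent.H94.PL

open Polynomial

variable {M : Type*} [Field M] {m : ℕ}

/-- the value of the descent map -/
noncomputable def dv (α : ℕ) (D : M) (P : M[X]) (a : M) : M := (D ^ α) ^ P.natDegree * P.eval a

theorem dv_one (α : ℕ) (D a : M) : dv α D 1 a = 1 := by
  rw [dv, natDegree_one, pow_zero, eval_one, one_mul]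

theorem dv_mul (α : ℕ) (D : M) {P P' : M[X]} (hP : P.Monic) (hP' : P'.Monic) (a : M) :
    dv α D (P * P') a = dv α D P a * dv α D P' a := by
  rw [dv, dv, dv, hP.natDegree_mul hP', pow_add, eval_mul]
  ring

/-- the polynomial `∏ (x - A_k)` -/
noncomputable def fA (A : Fin m → M) : M[X] := ∏ k, (X - C (A k))

theorem res_mul_left' {B : M[X]} (hB : B.Monic) (A A' : M[X]) :
    resultant B (A * A') = resultant B A * resultant B A' := by
  have h : resultant B (A * A') B.natDegree (A.natDegree + A'.natDegree) =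
      resultant B (A * A') := by
    obtain ⟨k, hk⟩ := Nat.exists_eq_add_of_le (natDegree_mul_le (p := A) (q := A'))
    rw [hk, resultant_add_right_deg _ _ _ _ _ le_rfl, hB.coeff_natDegree, one_pow, one_mul]
  rw [← h, resultant_mul_right _ _ _ _ le_rfl]

theorem res_prod (P : M[X]) (hP : P.Monic) (A : Fin m → M) :
    resultant P (fA A) = (-1) ^ (P.natDegree * m) * ∏ k, P.eval (A k) := by
  have h1 : ∀ s : Finset (Fin m), resultant P (∏ k ∈ s, (X - C (A k))) =
      (-1) ^ (P.natDegree * s.card) * ∏ k ∈ s, P.eval (A k) := by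
    intro s
    induction s using Finset.induction_on with
    | empty =>
      rw [Finset.prod_empty, Finset.prod_empty, Finset.card_empty, mul_zero, pow_zero, mul_one,
        resultant_one_right, natDegree_one, pow_zero]
    | insert a s ha ih =>
      have h2 : resultant P (X - C (A a)) = (-1) ^ P.natDegree * P.eval (A a) := by
        rw [natDegree_X_sub_C]
        exact resultant_X_sub_C_right P P.natDegree (A a) le_rfl
      rw [Finset.prod_insert ha, Finset.prod_insert ha, res_mul_left' hP, h2, ih,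
        Finset.card_insert_of_notMem ha, mul_add, pow_add, mul_one]
      ring
  have h3 := h1 Finset.univ
  rw [Finset.card_univ, Fintype.card_fin] at h3
  exact h3

theorem norm_dv {ℓ α : ℕ} (hodd : Odd ℓ) (hα : ℓ ∣ α * m + 1) (D : M) (A : Fin m → M) {P : M[X]}
    (hP : P.Monic) {Q : M[X]} (hPQ : P ∣ C D * Q ^ ℓ - fA A) :
    ∃ y : M, ∏ k, dv α D P (A k) = y ^ ℓ := by
  have hfreeP : Module.Free M (AdjoinRoot P) := hP.free_adjoinRoot
  have hfinP : Module.Finite M (AdjoinRoot P) := hP.finite_adjoinRoot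
  have hrankP : Module.finrank M (AdjoinRoot P) = P.natDegree :=
    finrank_quotient_span_eq_natDegree' hP
  obtain ⟨h, hh⟩ := hα
  have h1 : AdjoinRoot.mk P (fA A) = algebraMap M (AdjoinRoot P) D * (AdjoinRoot.mk P Q) ^ ℓ := by
    have h0 : algebraMap M (AdjoinRoot P) D = AdjoinRoot.mk P (C D) := rfl
    rw [h0, ← map_pow, ← map_mul, eq_comm, AdjoinRoot.mk_eq_mk]
    exact hPQ
  have h2 := H94.TC.norm_eq_resultant P hP (fA A)
  rw [h1, map_mul, Algebra.norm_algebraMap, hrankP, map_pow] at h2
  have h3 := res_prod P hP A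
  have h4 : D ^ P.natDegree * Algebra.norm M (AdjoinRoot.mk P Q) ^ ℓ =
      (-1) ^ (P.natDegree * m) * ∏ k, P.eval (A k) := h2.trans h3
  refine ⟨(-1) ^ (P.natDegree * m) * (D ^ (P.natDegree * h)) *
    Algebra.norm M (AdjoinRoot.mk P Q), ?_⟩
  have h5 : ((-1 : M) ^ (P.natDegree * m)) ^ ℓ = (-1) ^ (P.natDegree * m) := by
    rw [← pow_mul, mul_comm _ ℓ, pow_mul, hodd.neg_one_pow]
  have h6 : ∏ k, dv α D P (A k) = D ^ (α * P.natDegree * m) * ∏ k, P.eval (A k) := by
    have h9 : ((D ^ α) ^ P.natDegree) ^ m = D ^ (α * P.natDegree * m) := by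
      rw [← pow_mul, ← pow_mul]
      congr 1
      ring
    unfold dv
    rw [Finset.prod_mul_distrib, Finset.prod_const, Finset.card_univ, Fintype.card_fin, h9]
  have h7 : (-1 : M) ^ (P.natDegree * m) * (-1) ^ (P.natDegree * m) = 1 := by
    rw [← mul_pow]; simp
  rw [h6, mul_pow, mul_pow, h5, ← pow_mul]
  have h8 : D ^ (P.natDegree * h * ℓ) = D ^ (α * P.natDegree * m) * D ^ P.natDegree := by
    rw [← pow_add]
    congr 1
    calc P.natDegree * h * ℓ = P.natDegree * (ℓ * h) := by ring
      _ = P.natDegree * (α * m + 1) := by rw [hh]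
      _ = _ := by ring
  rw [h8]
  linear_combination (-(D ^ (α * P.natDegree * m) * ∏ k, P.eval (A k))) * h7 -
    (D ^ (α * P.natDegree * m) * (-1) ^ (P.natDegree * m)) * h4

end Pool.Agent.H94.PL
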