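import Pool.Agent.H94.PL.T2
import Pool.Agent.H94.PL.Nrm

set_option autoImplicit false

/-!
# [H94 PL] Local values: definitions
-/

namespace Pool.Agent.H94.PL

open Polynomial WithZero

section
variable {M : Type*} [Field M] {m : ℕ}

/-- Mumford pairs of `D z ^ ℓ = ∏ (x - A_k)` -/
def IsMum (ℓ : ℕ) (D : M) (A : Fin m → M) (P Q : M[X]) : Prop :=
  P.Monic ∧ (∀ k, P.eval (A k) ≠ 0) ∧ P ∣ C D * Q ^ ℓ - fA A

/-- the component `k` of the torsion class with exponents `s` -/
noncomputable def tv (D : M) (A : Fin m → M) (s : Fin m → ℤ) (k : Fin m) : M :=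
  D ^ s k * ∏ i ∈ Finset.univ.erase k, (A k - A i) ^ (s i - s k)

/-- the quantity at a node -/
noncomputable def nv (D : M) (A : Fin m → M) (i j : Fin m) : M :=
  D / ((A i - A j) ^ 2 * ∏ k ∈ (Finset.univ.erase i).erase j, (A i - A k))

end

end Pool.Agent.H94.PL
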