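import Pool.Agent.H94.PL.Cs
import Pool.Agent.H94.PL.LVal

set_option autoImplicit false

/-!
# [H94 PL KX] Exponents of rational functions modulo `ℓ`

`ex ℓ P x = v_P(x)` modulo `ℓ`, `kap χ x` is the logarithm of the leading coefficient.
For `x = a / b` (`a, b ≠ 0` polynomials) `x.num * b = a * x.denom` (`RatFunc.num_denom_...`,
`RatFunc.num_div_denom`), `multiplicity_mul` (`Irreducible.prime`,
`FiniteMultiplicity.of_not_isUnit` or `finiteMultiplicity_of_degree_pos_of_monic`-like lemmas), `RatFunc.monic_denom`,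
`leadingCoeff_mul`.
-/

namespace Pool.Agent.H94.PL

open Polynomial

variable {F : Type} [Field F] {ℓ : ℕ}

/-- `v_P(x)` modulo `ℓ` -/
noncomputable def ex (ℓ : ℕ) (P : F[X]) (x : RatFunc F) : ZMod ℓ :=
  ((multiplicity P x.num : ℕ) : ZMod ℓ) - ((multiplicity P x.denom : ℕ) : ZMod ℓ)

/-- the logarithm of the leading coefficient -/
noncomputable def kap (χ : LChar F ℓ) (x : RatFunc F) : ZMod ℓ := χ.lg x.num.leadingCoeff

section
variable {P : F[X]} (hP : Irreducible P)
include hP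

private theorem kx_mm {a b : F[X]} (ha : a ≠ 0) (hb : b ≠ 0) :
    multiplicity P (a * b) = multiplicity P a + multiplicity P b :=
  multiplicity_mul hP.prime (FiniteMultiplicity.of_not_isUnit hP.not_isUnit (mul_ne_zero ha hb))

theorem ex_div_poly {a b : F[X]} (ha : a ≠ 0) (hb : b ≠ 0) :
    ex ℓ P (algebraMap F[X] (RatFunc F) a / algebraMap F[X] (RatFunc F) b) =
      ((multiplicity P a : ℕ) : ZMod ℓ) - ((multiplicity P b : ℕ) : ZMod ℓ) := by
  set x : RatFunc F := algebraMap F[X] (RatFunc F) a / algebraMap F[X] (RatFunc F) b with hx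
  have ha' : algebraMap F[X] (RatFunc F) a ≠ 0 := RatFunc.algebraMap_ne_zero ha
  have hb' : algebraMap F[X] (RatFunc F) b ≠ 0 := RatFunc.algebraMap_ne_zero hb
  have hx0 : x ≠ 0 := div_ne_zero ha' hb'
  have hn : x.num ≠ 0 := RatFunc.num_ne_zero hx0
  have hd : x.denom ≠ 0 := RatFunc.denom_ne_zero x
  have hd' : algebraMap F[X] (RatFunc F) x.denom ≠ 0 := RatFunc.algebraMap_ne_zero hd
  have h1 : x.num * b = a * x.denom := by
    have h2 : algebraMap F[X] (RatFunc F) x.num / algebraMap F[X] (RatFunc F) x.denom =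
      algebraMap F[X] (RatFunc F) a / algebraMap F[X] (RatFunc F) b := by
      rw [RatFunc.num_div_denom]
    rw [div_eq_div_iff hd' hb', ← map_mul, ← map_mul] at h2
    exact RatFunc.algebraMap_injective F h2
  have h3 := congrArg (multiplicity P) h1
  rw [kx_mm hP hn hb, kx_mm hP ha hd] at h3
  have h4 := congrArg (fun n : ℕ => (n : ZMod ℓ)) h3
  simp only [Nat.cast_add] at h4
  unfold ex
  rw [sub_eq_sub_iff_add_eq_add]
  exact h4

theorem ex_poly {a : F[X]} (ha : a ≠ 0) :
    ex ℓ P (algebraMap F[X] (RatFunc F) a) = ((multiplicity P a : ℕ) : ZMod ℓ) := by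
  have h := ex_div_poly (ℓ := ℓ) hP ha (one_ne_zero (α := F[X]))
  rw [map_one, div_one, multiplicity_of_one_right hP.not_isUnit, Nat.cast_zero, sub_zero] at h
  exact h

theorem ex_one : ex ℓ P (1 : RatFunc F) = 0 := by
  have h := ex_poly (ℓ := ℓ) hP (one_ne_zero (α := F[X]))
  rw [map_one, multiplicity_of_one_right hP.not_isUnit, Nat.cast_zero] at h
  exact h

theorem ex_mul {x y : RatFunc F} (hx : x ≠ 0) (hy : y ≠ 0) :
    ex ℓ P (x * y) = ex ℓ P x + ex ℓ P y := by
  have h1 : x * y = algebraMap F[X] (RatFunc F) (x.num * y.num) /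
      algebraMap F[X] (RatFunc F) (x.denom * y.denom) := by
    rw [map_mul, map_mul, mul_div_mul_comm, RatFunc.num_div_denom, RatFunc.num_div_denom]
  have hxn := RatFunc.num_ne_zero hx
  have hyn := RatFunc.num_ne_zero hy
  have hxd := RatFunc.denom_ne_zero x
  have hyd := RatFunc.denom_ne_zero y
  rw [h1, ex_div_poly hP (mul_ne_zero hxn hyn) (mul_ne_zero hxd hyd), kx_mm hP hxn hyn,
    kx_mm hP hxd hyd]
  unfold ex
  push_cast
  ring

theorem ex_inv {x : RatFunc F} (hx : x ≠ 0) : ex ℓ P x⁻¹ = -ex ℓ P x := by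
  have h := ex_mul (ℓ := ℓ) hP hx (inv_ne_zero hx)
  rw [mul_inv_cancel₀ hx, ex_one hP] at h
  exact (neg_eq_of_add_eq_zero_right h.symm).symm

theorem ex_div {x y : RatFunc F} (hx : x ≠ 0) (hy : y ≠ 0) :
    ex ℓ P (x / y) = ex ℓ P x - ex ℓ P y := by
  rw [div_eq_mul_inv, ex_mul hP hx (inv_ne_zero hy), ex_inv hP hy, sub_eq_add_neg]

theorem ex_pow {x : RatFunc F} (hx : x ≠ 0) (n : ℕ) : ex ℓ P (x ^ n) = n * ex ℓ P x := by
  induction n with
  | zero => rw [pow_zero, ex_one hP, Nat.cast_zero, zero_mul]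
  | succ n ih => rw [pow_succ, ex_mul hP (pow_ne_zero n hx) hx, ih]; push_cast; ring

theorem ex_zpow {x : RatFunc F} (hx : x ≠ 0) (n : ℤ) : ex ℓ P (x ^ n) = n * ex ℓ P x := by
  cases n with
  | ofNat n => rw [Int.ofNat_eq_natCast, zpow_natCast, ex_pow hP hx]; push_cast; ring
  | negSucc n =>
    rw [zpow_negSucc, ex_inv hP (pow_ne_zero _ hx), ex_pow hP hx, Int.cast_negSucc]; ring

theorem ex_pow_l {x : RatFunc F} (hx : x ≠ 0) : ex ℓ P (x ^ ℓ) = 0 := by
  rw [ex_pow hP hx, ZMod.natCast_self, zero_mul]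

theorem ex_prod {ι : Type*} (s : Finset ι) (f : ι → RatFunc F) (hf : ∀ i ∈ s, f i ≠ 0) :
    ex ℓ P (∏ i ∈ s, f i) = ∑ i ∈ s, ex ℓ P (f i) := by
  classical
  induction s using Finset.induction_on with
  | empty => rw [Finset.prod_empty, Finset.sum_empty, ex_one hP]
  | insert a s ha ih =>
    rw [Finset.prod_insert ha, Finset.sum_insert ha, ex_mul hP (hf a (Finset.mem_insert_self a s))
      (Finset.prod_ne_zero_iff.2 fun i hi => hf i (Finset.mem_insert_of_mem hi)),
      ih fun i hi => hf i (Finset.mem_insert_of_mem hi)]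

theorem ex_of_not_dvd {a : F[X]} (h : ¬ P ∣ a) : ex ℓ P (algebraMap F[X] (RatFunc F) a) = 0 := by
  have ha : a ≠ 0 := by
    rintro rfl
    exact h (dvd_zero P)
  rw [ex_poly hP ha, multiplicity_eq_zero.2 h, Nat.cast_zero]

theorem ex_of_dvd_sqf {a : F[X]} (h : P ∣ a) (hs : Squarefree a) :
    ex ℓ P (algebraMap F[X] (RatFunc F) a) = 1 := by
  have h1 : multiplicity P a = 1 := by
    apply multiplicity_eq_of_dvd_of_not_dvd
    · rw [pow_one]
      exact h
    · intro h2
      rw [pow_succ, pow_one] at h2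
      exact hP.not_isUnit (hs P h2)
  rw [ex_poly hP hs.ne_zero, h1, Nat.cast_one]

end

section
variable (χ : LChar F ℓ)

theorem kap_div_poly {a b : F[X]} (ha : a ≠ 0) (hb : b ≠ 0) :
    kap χ (algebraMap F[X] (RatFunc F) a / algebraMap F[X] (RatFunc F) b) =
      χ.lg a.leadingCoeff - χ.lg b.leadingCoeff := by
  set x : RatFunc F := algebraMap F[X] (RatFunc F) a / algebraMap F[X] (RatFunc F) b with hx
  have ha' : algebraMap F[X] (RatFunc F) a ≠ 0 := RatFunc.algebraMap_ne_zero ha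
  have hb' : algebraMap F[X] (RatFunc F) b ≠ 0 := RatFunc.algebraMap_ne_zero hb
  have hx0 : x ≠ 0 := div_ne_zero ha' hb'
  have hn : x.num ≠ 0 := RatFunc.num_ne_zero hx0
  have hd : x.denom ≠ 0 := RatFunc.denom_ne_zero x
  have hd' : algebraMap F[X] (RatFunc F) x.denom ≠ 0 := RatFunc.algebraMap_ne_zero hd
  have h1 : x.num * b = a * x.denom := by
    have h2 : algebraMap F[X] (RatFunc F) x.num / algebraMap F[X] (RatFunc F) x.denom =
      algebraMap F[X] (RatFunc F) a / algebraMap F[X] (RatFunc F) b := by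
      rw [RatFunc.num_div_denom]
    rw [div_eq_div_iff hd' hb', ← map_mul, ← map_mul] at h2
    exact RatFunc.algebraMap_injective F h2
  have h3 := congrArg Polynomial.leadingCoeff h1
  rw [leadingCoeff_mul, leadingCoeff_mul, (RatFunc.monic_denom x).leadingCoeff, mul_one] at h3
  have h4 := χ.mul (leadingCoeff_ne_zero.2 hn) (leadingCoeff_ne_zero.2 hb)
  rw [h3] at h4
  unfold kap
  rw [h4, add_sub_cancel_right]

theorem kap_poly {a : F[X]} (ha : a ≠ 0) :
    kap χ (algebraMap F[X] (RatFunc F) a) = χ.lg a.leadingCoeff := by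
  have h := kap_div_poly χ ha (one_ne_zero (α := F[X]))
  rw [map_one, div_one, leadingCoeff_one, lg_one, sub_zero] at h
  exact h

theorem kap_one : kap χ (1 : RatFunc F) = 0 := by
  have h := kap_poly χ (one_ne_zero (α := F[X]))
  rw [map_one, leadingCoeff_one, lg_one] at h
  exact h

theorem kap_mul {x y : RatFunc F} (hx : x ≠ 0) (hy : y ≠ 0) :
    kap χ (x * y) = kap χ x + kap χ y := by
  have h1 : x * y = algebraMap F[X] (RatFunc F) (x.num * y.num) /
      algebraMap F[X] (RatFunc F) (x.denom * y.denom) := by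
    rw [map_mul, map_mul, mul_div_mul_comm, RatFunc.num_div_denom, RatFunc.num_div_denom]
  have hxn := RatFunc.num_ne_zero hx
  have hyn := RatFunc.num_ne_zero hy
  have hxd := RatFunc.denom_ne_zero x
  have hyd := RatFunc.denom_ne_zero y
  rw [h1, kap_div_poly χ (mul_ne_zero hxn hyn) (mul_ne_zero hxd hyd), leadingCoeff_mul,
    leadingCoeff_mul, (RatFunc.monic_denom x).leadingCoeff, (RatFunc.monic_denom y).leadingCoeff,
    mul_one, lg_one, sub_zero, χ.mul (leadingCoeff_ne_zero.2 hxn) (leadingCoeff_ne_zero.2 hyn)]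
  rfl

theorem kap_inv {x : RatFunc F} (hx : x ≠ 0) : kap χ x⁻¹ = -kap χ x := by
  have h := kap_mul χ hx (inv_ne_zero hx)
  rw [mul_inv_cancel₀ hx, kap_one χ] at h
  exact (neg_eq_of_add_eq_zero_right h.symm).symm

theorem kap_div {x y : RatFunc F} (hx : x ≠ 0) (hy : y ≠ 0) :
    kap χ (x / y) = kap χ x - kap χ y := by
  rw [div_eq_mul_inv, kap_mul χ hx (inv_ne_zero hy), kap_inv χ hy, sub_eq_add_neg]

theorem kap_pow {x : RatFunc F} (hx : x ≠ 0) (n : ℕ) : kap χ (x ^ n) = n * kap χ x := by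
  induction n with
  | zero => rw [pow_zero, kap_one χ, Nat.cast_zero, zero_mul]
  | succ n ih => rw [pow_succ, kap_mul χ (pow_ne_zero n hx) hx, ih]; push_cast; ring

theorem kap_zpow {x : RatFunc F} (hx : x ≠ 0) (n : ℤ) : kap χ (x ^ n) = n * kap χ x := by
  cases n with
  | ofNat n => rw [Int.ofNat_eq_natCast, zpow_natCast, kap_pow χ hx]; push_cast; ring
  | negSucc n =>
    rw [zpow_negSucc, kap_inv χ (pow_ne_zero _ hx), kap_pow χ hx, Int.cast_negSucc]; ring

theorem kap_pow_l {x : RatFunc F} (hx : x ≠ 0) : kap χ (x ^ ℓ) = 0 := by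
  rw [kap_pow χ hx, ZMod.natCast_self, zero_mul]

theorem kap_prod {ι : Type*} (s : Finset ι) (f : ι → RatFunc F) (hf : ∀ i ∈ s, f i ≠ 0) :
    kap χ (∏ i ∈ s, f i) = ∑ i ∈ s, kap χ (f i) := by
  classical
  induction s using Finset.induction_on with
  | empty => rw [Finset.prod_empty, Finset.sum_empty, kap_one χ]
  | insert a s ha ih =>
    rw [Finset.prod_insert ha, Finset.sum_insert ha, kap_mul χ (hf a (Finset.mem_insert_self a s))
      (Finset.prod_ne_zero_iff.2 fun i hi => hf i (Finset.mem_insert_of_mem hi)),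
      ih fun i hi => hf i (Finset.mem_insert_of_mem hi)]

end

end Pool.Agent.H94.PL
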