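import Pool.Agent.H94.PL.LGood

set_option autoImplicit false

/-!
# [H94 PL LD] Values at the places dividing `D`

`tv_mul`: `tv D A (s + s') k = tv D A s k * tv D A s' k` (`zpow_add₀`; `A k ≠ A i`).
`tv_prod`: if `ℓ ∣ ∑ s` then `∏ k, tv D A s k` is `Cl` (an `ℓ`-th power): `∏ k, D ^ s k = D ^ (∑ s)`, and in the double
product the factors `(i, k)` and `(k, i)` give `(A k - A i)^(s i - s k) * (A i - A k)^(s k - s i) = (-1)^(s i - s k)`,
`-1 = (-1) ^ ℓ`.  (One way: show `(∏ k, ∏ i ≠ k, (A k - A i)^(s i - s k))^2` ... is a power of `-1`, so it is `Cl`,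
and use `Cl.of_pow` with `2` prime to `ℓ`: the square of the double product is
`∏_{(i,k)} (A k - A i)^(s i - s k) * (A i - A k)^(s k - s i)`.)

`ld_irr` (`P` irreducible of degree `n`), `D ≠ 0`, `¬ Vd D`.
(i) `w (P.coeff 0) > 1`: `s = 0`.  `P(A_k) / P(0) ≡ 1`; `norm_dv`: `Cl (D^(α n m) P(0)^m)`;
raise to the power `α`: with `α m = ℓ h - 1`: `(D^(α n))^(α m) (P 0)^(α m) = (D^(α n))^(-1) (P 0)^(-1) * (ℓ-th power)`,
so `Cl (D^(α n) * P 0)`, so `Cl (dv P (A k))`.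
(ii) `P` integral and `w (P(A_j)) < 1`: `s i = n * α + (if i = j then n else 0)` (as integers), so
`∑ s = n (α m + 1)` is divisible by `ℓ`.  For `k ≠ j`: `tv k = D^(n α) (A k - A j)^n` (only `i = j` has
`s i ≠ s k`), `dv (A k) = D^(α n) P(A_k)` and `w (P(A_k) - (A k - A j)^n) < 1` (`tri_red`), so
`Cl (dv / tv)` (`Cl.of_close`).  For `k = j`: the product over all `k` of `dv / tv` is `Cl` (`norm_dv`, `tv_prod`).
(iii) `P` integral, all `w (P(A_k)) = 1`: `s = 0`, `tv = 1`.  Lift to `O = OO M` (`isInt_OO`, `IsInt.lift_monic`): `P₀`, and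
`A k = φ a_k`, `f = ∏ (X - C a_k)`, which is a unit modulo `P₀`: each `X - C a_k` is, because
`P₀ = P₀(a_k) + (X - C a_k) * R` (`X - C a ∣ P₀ - C (P₀.eval a)`) and `P₀(a_k)` is a unit (`IsInt.isUnit`); units modulo
`P₀` multiply.  `t2_int`: `ℓ ∣ n`, and `P₀(a_k) = y^ℓ + ϖ *`, so `Cl (P(A_k))` (`Cl.of_close` with `y ^ ℓ`, `w y = 1`), and
`(D^α)^n` is an `ℓ`-th power.
`loc_D`: `mum_induct` with the property `∃ s, ℓ ∣ ∑ s ∧ ∀ k, Cl (dv P (A k) / tv D A s k)` (`dv_mul`, `tv_mul`).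
-/

namespace Pool.Agent.H94.PL

open Polynomial WithZero

section
variable {M : Type*} [Field M] {m : ℕ}

theorem tv_add {D : M} (hD : D ≠ 0) {A : Fin m → M} (hA : ∀ i k, i ≠ k → A i ≠ A k)
    (s s' : Fin m → ℤ) (k : Fin m) : tv D A (s + s') k = tv D A s k * tv D A s' k := by
  have h1 : ∏ i ∈ Finset.univ.erase k, (A k - A i) ^ ((s + s') i - (s + s') k) =
      (∏ i ∈ Finset.univ.erase k, (A k - A i) ^ (s i - s k)) *
        ∏ i ∈ Finset.univ.erase k, (A k - A i) ^ (s' i - s' k) := by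
    rw [← Finset.prod_mul_distrib]
    refine Finset.prod_congr rfl fun i hi => ?_
    have h2 : A k - A i ≠ 0 := sub_ne_zero.2 (hA k i (Finset.ne_of_mem_erase hi).symm)
    rw [← zpow_add₀ h2, Pi.add_apply, Pi.add_apply]
    congr 1
    ring
  unfold tv
  rw [h1, Pi.add_apply, zpow_add₀ hD]
  ring

theorem tv_zero (D : M) (A : Fin m → M) (k : Fin m) : tv D A 0 k = 1 := by
  simp [tv]

theorem ldt_zprod {D : M} (hD : D ≠ 0) (s : Fin m → ℤ) (t : Finset (Fin m)) :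
    ∏ k ∈ t, D ^ s k = D ^ (∑ k ∈ t, s k) := by
  induction t using Finset.induction_on with
  | empty => rw [Finset.prod_empty, Finset.sum_empty, zpow_zero]
  | insert a t ha ih => rw [Finset.prod_insert ha, Finset.sum_insert ha, zpow_add₀ hD, ih]

theorem tv_prod (v : Valuation M ℤᵐ⁰) {ℓ : ℕ} (hℓ : ℓ.Prime) (h2 : ℓ ≠ 2) {D : M} (hD : D ≠ 0)
    {A : Fin m → M} (hA : ∀ i k, i ≠ k → A i ≠ A k) (s : Fin m → ℤ) (hs : (ℓ : ℤ) ∣ ∑ k, s k) :
    Cl v ℓ (∏ k, tv D A s k) := by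
  have hodd : Odd ℓ := hℓ.odd_of_ne_two h2
  obtain ⟨t, ht⟩ := hs
  have hprod : ∏ k, tv D A s k =
      (D ^ t) ^ ℓ * ∏ k, ∏ i ∈ Finset.univ.erase k, (A k - A i) ^ (s i - s k) := by
    unfold tv
    rw [Finset.prod_mul_distrib, ldt_zprod hD, ht, mul_comm (ℓ : ℤ) t, zpow_mul, zpow_natCast]
  obtain ⟨G, hG⟩ : ∃ G : Fin m → Fin m → M,
      G = fun k i => if i ≠ k then (A k - A i) ^ (s i - s k) else 1 := ⟨_, rfl⟩
  have hW : ∏ k, ∏ i ∈ Finset.univ.erase k, (A k - A i) ^ (s i - s k) = ∏ k, ∏ i, G k i := by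
    refine Finset.prod_congr rfl fun k _ => ?_
    rw [← Finset.filter_ne', Finset.prod_filter, hG]
  have hWW : Cl v ℓ ((∏ k, ∏ i, G k i) ^ 2) := by
    have h3 : (∏ k, ∏ i, G k i) ^ 2 = ∏ k, ∏ i, (G k i * G i k) := by
      have h4 : ∏ k, ∏ i, (G k i * G i k) = (∏ k, ∏ i, G k i) * ∏ k, ∏ i, G i k := by
        rw [← Finset.prod_mul_distrib]
        exact Finset.prod_congr rfl fun k _ => Finset.prod_mul_distrib
      rw [h4, sq]
      congr 1
      exact Finset.prod_comm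
    rw [h3]
    refine Cl.prod _ _ fun k _ => Cl.prod _ _ fun i _ => ?_
    by_cases hik : i = k
    · subst hik
      have h4 : G i i = 1 := by
        rw [hG]
        exact if_neg (fun h => h rfl)
      rw [h4, one_mul]
      exact Cl.one
    · have h4 : G k i = (A k - A i) ^ (s i - s k) := by
        rw [hG]
        exact if_pos hik
      have h5 : G i k = (A i - A k) ^ (s k - s i) := by
        rw [hG]
        exact if_pos (fun h => hik h.symm)
      have h6 : A k - A i ≠ 0 := sub_ne_zero.2 (hA k i (fun h => hik h.symm))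
      have h7 : G k i * G i k = (-1) ^ (s i - s k) := by
        have h8 : A i - A k = -1 * (A k - A i) := by ring
        have h9 : s k - s i = -(s i - s k) := by ring
        rw [h4, h5, h8, h9, mul_zpow, zpow_neg (A k - A i), mul_comm ((-1 : M) ^ _),
          ← mul_assoc, mul_inv_cancel₀ (zpow_ne_zero _ h6), one_mul, zpow_neg, ← inv_zpow]
        congr 1
        norm_num
      rw [h7]
      exact (Cl.neg_one hodd).zpow _
  rw [hprod, hW]
  have hW0 : ∏ k, ∏ i, G k i ≠ 0 := fun h0 => hWW.ne_zero (by rw [h0]; simp)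
  refine (Cl.self_pow (zpow_ne_zero _ hD)).mul (Cl.of_pow hW0 ?_ hWW)
  exact (Nat.coprime_primes Nat.prime_two hℓ).2 h2.symm

end

variable {M : Type*} [Field M] [hv : Valued M ℤᵐ⁰] [CompleteSpace M] {m : ℕ}


theorem ldt_near {ϖ : M} (hϖ : (Valued.v : Valuation M ℤᵐ⁰) ϖ = exp (-1 : ℤ)) {ℓ α : ℕ}
    (hm : Nat.Coprime m ℓ) {D : M} (hD0 : D ≠ 0)
    {A : Fin m → M} (hA : ∀ k, (Valued.v : Valuation M ℤᵐ⁰) (A k) ≤ 1) {P : M[X]}
    (hP : P.Monic) (hirr : Irreducible P)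
    (hprod : Cl (Valued.v : Valuation M ℤᵐ⁰) ℓ (∏ k, dv α D P (A k))) (h0 : 1 < (Valued.v : Valuation M ℤᵐ⁰) (P.coeff 0)) (k : Fin m) :
    Cl (Valued.v : Valuation M ℤᵐ⁰) ℓ (dv α D P (A k)) := by
  have hc : P.coeff 0 ≠ 0 := by
    intro hc
    rw [hc, map_zero] at h0
    exact absurd h0 (by simp)
  have hnear : ∀ k, Cl (Valued.v : Valuation M ℤᵐ⁰) ℓ (P.eval (A k) / P.coeff 0) := fun k =>
    Cl.of_near (tri_inf hϖ hP hirr h0 (hA k))
  have hsplit : ∀ k, dv α D P (A k) =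
      (P.eval (A k) / P.coeff 0) * ((D ^ α) ^ P.natDegree * P.coeff 0) := by
    intro k
    rw [dv]
    field_simp
  have h1 : Cl (Valued.v : Valuation M ℤᵐ⁰) ℓ (((D ^ α) ^ P.natDegree * P.coeff 0) ^ m) := by
    have h3 : ∏ k, dv α D P (A k) =
        (∏ k, (P.eval (A k) / P.coeff 0)) * ((D ^ α) ^ P.natDegree * P.coeff 0) ^ m := by
      rw [Finset.prod_congr rfl fun k _ => hsplit k, Finset.prod_mul_distrib,
        Finset.prod_const, Finset.card_univ, Fintype.card_fin]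
    rw [h3] at hprod
    exact hprod.cancel (Cl.prod _ _ fun k _ => hnear k)
  rw [hsplit k]
  exact (hnear k).mul (Cl.of_pow (mul_ne_zero (pow_ne_zero _ (pow_ne_zero _ hD0)) hc) hm h1)

omit [CompleteSpace M] in
theorem ldt_coprime {ϖ₀ : OO M} (hO : IsInt (OO M) M ϖ₀) (P₀ : (OO M)[X]) (a : Fin m → OO M)
    (h : ∀ k, (Valued.v : Valuation M ℤᵐ⁰) (algebraMap (OO M) M (P₀.eval (a k))) = 1) :
    IsCoprime (∏ k, (X - C (a k))) P₀ := by
  refine IsCoprime.prod_left fun k _ => ?_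
  obtain ⟨u, hu⟩ := hO.isUnit (h k)
  obtain ⟨R, hR⟩ := X_sub_C_dvd_sub_C_eval (a := a k) (p := P₀)
  refine ⟨-(C ((u⁻¹ : (OO M)ˣ) : OO M) * R), C ((u⁻¹ : (OO M)ˣ) : OO M), ?_⟩
  have h1 : (C ((u⁻¹ : (OO M)ˣ) : OO M) : (OO M)[X]) * C (P₀.eval (a k)) = 1 := by
    rw [← C_mul, ← hu, Units.inv_mul, C_1]
  linear_combination (C ((u⁻¹ : (OO M)ˣ) : OO M)) * hR + h1

theorem ldt_unit {ϖ : M} (hϖ : (Valued.v : Valuation M ℤᵐ⁰) ϖ = exp (-1 : ℤ)) {ℓ α : ℕ} (hℓ : ℓ.Prime)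
    {D : M} (hD0 : D ≠ 0) (hD : ¬ Vd (Valued.v : Valuation M ℤᵐ⁰) ℓ D)
    {A : Fin m → M} (hA : ∀ k, (Valued.v : Valuation M ℤᵐ⁰) (A k) ≤ 1) {P Q : M[X]}
    (hP : P.Monic) (hirr : Irreducible P) (hd : P ∣ C D * Q ^ ℓ - fA A)
    (hint : ∀ i, (Valued.v : Valuation M ℤᵐ⁰) (P.coeff i) ≤ 1) (h1 : ∀ k, (Valued.v : Valuation M ℤᵐ⁰) (P.eval (A k)) = 1) (k : Fin m) :
    Cl (Valued.v : Valuation M ℤᵐ⁰) ℓ (dv α D P (A k)) := by
  obtain ⟨ϖ₀, hO, -⟩ := isInt_OO hϖ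
  obtain ⟨P₀, hP₀m, hP₀⟩ := hO.lift_monic hP hint
  choose a ha using fun k => (hO.mem (A k)).1 (hA k)
  have hev : ∀ k, algebraMap (OO M) M (P₀.eval (a k)) = P.eval (A k) := by
    intro k
    rw [← hP₀, eval_map, ← ha k, eval₂_at_apply]
  have hf : (∏ k, (X - C (a k)) : (OO M)[X]).map (algebraMap (OO M) M) = fA A := by
    unfold fA
    rw [Polynomial.map_prod]
    refine Finset.prod_congr rfl fun k _ => ?_
    rw [Polynomial.map_sub, map_X, map_C, ha k]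
  have hcop : IsCoprime (∏ k, (X - C (a k)) : (OO M)[X]) P₀ :=
    ldt_coprime hO P₀ a fun k => by rw [hev k]; exact h1 k
  have hirr₀ : Irreducible (P₀.map (algebraMap (OO M) M)) := by
    rw [hP₀]
    exact hirr
  obtain ⟨h3, h4⟩ := t2_int hO hℓ hP₀m hirr₀ hD0 hD (∏ k, (X - C (a k))) hcop Q (by
    rw [hP₀, hf]
    exact hd)
  have hdeg : P₀.natDegree = P.natDegree := by
    rw [← hP₀, hP₀m.natDegree_map]
  obtain ⟨y, hy⟩ := h4 (a k)
  have h5 : (Valued.v : Valuation M ℤᵐ⁰) (P.eval (A k) - (algebraMap (OO M) M y) ^ ℓ) < 1 := by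
    have h6 := hO.dvd.2 hy
    rwa [map_sub, map_pow, hev k] at h6
  have h6 : (Valued.v : Valuation M ℤᵐ⁰) ((algebraMap (OO M) M y) ^ ℓ) = 1 := by
    refine unit_of_close (h1 k) ?_
    rw [Valuation.map_sub_swap]
    exact h5
  have hy0 : algebraMap (OO M) M y ≠ 0 := by
    intro h0
    rw [h0, zero_pow hℓ.ne_zero, map_zero] at h6
    exact zero_ne_one h6
  have h7 : Cl (Valued.v : Valuation M ℤᵐ⁰) ℓ (P.eval (A k)) := by
    have h8 := (Cl.of_close (ℓ := ℓ) h6 h5).mul (Cl.self_pow hy0)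
    rwa [div_mul_cancel₀ _ (pow_ne_zero _ hy0)] at h8
  rw [dv]
  refine Cl.mul ?_ h7
  obtain ⟨n', hn'⟩ := h3
  rw [← hdeg, hn', mul_comm ℓ n', pow_mul]
  exact Cl.self_pow (pow_ne_zero _ (pow_ne_zero _ hD0))

theorem ldt_irr {ϖ : M} (hϖ : (Valued.v : Valuation M ℤᵐ⁰) ϖ = exp (-1 : ℤ)) {ℓ α : ℕ} (hℓ : ℓ.Prime) (h2 : ℓ ≠ 2)
    (hm : Nat.Coprime m ℓ) (hα : ℓ ∣ α * m + 1) {D : M} (hD0 : D ≠ 0) (hD : ¬ Vd (Valued.v : Valuation M ℤᵐ⁰) ℓ D)
    {A : Fin m → M} (hA : ∀ k, (Valued.v : Valuation M ℤᵐ⁰) (A k) ≤ 1) (hAA : ∀ i k, i ≠ k → (Valued.v : Valuation M ℤᵐ⁰) (A i - A k) = 1)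
    {P Q : M[X]} (hP : P.Monic) (hirr : Irreducible P) (hev : ∀ k, P.eval (A k) ≠ 0)
    (hd : P ∣ C D * Q ^ ℓ - fA A) :
    ∃ s : Fin m → ℤ, (ℓ : ℤ) ∣ ∑ k, s k ∧ ∀ k, Cl (Valued.v : Valuation M ℤᵐ⁰) ℓ (dv α D P (A k) / tv D A s k) := by
  obtain ⟨y, hy⟩ := norm_dv (hℓ.odd_of_ne_two h2) hα D A hP hd
  have hdv0 : ∀ k, dv α D P (A k) ≠ 0 := fun k =>
    mul_ne_zero (pow_ne_zero _ (pow_ne_zero _ hD0)) (hev k)
  have hy0 : y ≠ 0 := by
    rintro rfl
    rw [zero_pow hℓ.ne_zero, Finset.prod_eq_zero_iff] at hy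
    obtain ⟨k, -, hk⟩ := hy
    exact hdv0 k hk
  have hprod : Cl (Valued.v : Valuation M ℤᵐ⁰) ℓ (∏ k, dv α D P (A k)) := by
    rw [hy]
    exact Cl.self_pow hy0
  have hA' : ∀ i k, i ≠ k → A i ≠ A k := by
    intro i k hik h0
    have h1 := hAA i k hik
    rw [h0, sub_self, map_zero] at h1
    exact zero_ne_one h1
  rcases lt_or_ge 1 ((Valued.v : Valuation M ℤᵐ⁰) (P.coeff 0)) with h0 | h0
  · refine ⟨0, by simp, fun k => ?_⟩
    rw [tv_zero, div_one]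
    exact ldt_near hϖ hm hD0 hA hP hirr hprod h0 k
  · have hint := tri_int hϖ hP hirr h0
    by_cases hj : ∃ j, (Valued.v : Valuation M ℤᵐ⁰) (P.eval (A j)) < 1
    · obtain ⟨j, hj⟩ := hj
      obtain ⟨n, hn⟩ : ∃ n, P.natDegree = n := ⟨_, rfl⟩
      obtain ⟨s, hs⟩ : ∃ s : Fin m → ℤ,
          s = fun i => ((n * α : ℕ) : ℤ) + (if i = j then (n : ℤ) else 0) := ⟨_, rfl⟩
      have hsum : (ℓ : ℤ) ∣ ∑ k, s k := by
        have h3 : ∑ k, s k = ((n * (α * m + 1) : ℕ) : ℤ) := by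
          rw [hs, Finset.sum_add_distrib, Finset.sum_const, Finset.card_univ, Fintype.card_fin,
            Finset.sum_ite_eq', if_pos (Finset.mem_univ _)]
          push_cast
          rw [nsmul_eq_mul]
          ring
        rw [h3]
        exact_mod_cast hα.mul_left n
      have hne : ∀ k, k ≠ j → Cl (Valued.v : Valuation M ℤᵐ⁰) ℓ (dv α D P (A k) / tv D A s k) := by
        intro k hkj
        have h3 := tri_red hϖ hP hirr (hA j) hj (hA k)
        have h4 : (Valued.v : Valuation M ℤᵐ⁰) ((A k - A j) ^ P.natDegree) = 1 := by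
          rw [map_pow, hAA k j hkj, one_pow]
        have h5 : tv D A s k = (D ^ α) ^ P.natDegree * (A k - A j) ^ P.natDegree := by
          have hsk : s k = ((n * α : ℕ) : ℤ) := by
            rw [hs]
            show ((n * α : ℕ) : ℤ) + (if k = j then (n : ℤ) else 0) = _
            rw [if_neg hkj, add_zero]
          have h6 : ∏ i ∈ Finset.univ.erase k, (A k - A i) ^ (s i - s k) =
              (A k - A j) ^ P.natDegree := by
            rw [Finset.prod_eq_single j]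
            · have h7 : s j - s k = (n : ℤ) := by
                rw [hsk, hs]
                show ((n * α : ℕ) : ℤ) + (if j = j then (n : ℤ) else 0) - _ = _
                rw [if_pos rfl]
                ring
              rw [h7, zpow_natCast, hn]
            · intro i _ hij
              have h7 : s i - s k = 0 := by
                rw [hsk, hs]
                show ((n * α : ℕ) : ℤ) + (if i = j then (n : ℤ) else 0) - _ = _
                rw [if_neg hij]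
                ring
              rw [h7, zpow_zero]
            · intro h7
              exact absurd (Finset.mem_erase.2 ⟨fun h => hkj h.symm, Finset.mem_univ _⟩) h7
          unfold tv
          rw [h6, hsk, zpow_natCast, hn, ← pow_mul, mul_comm n α]
        rw [dv, h5, mul_div_mul_left _ _ (pow_ne_zero _ (pow_ne_zero _ hD0))]
        exact Cl.of_close h4 h3
      refine ⟨s, hsum, fun k => ?_⟩
      by_cases hkj : k = j
      · subst hkj
        have h3 : Cl (Valued.v : Valuation M ℤᵐ⁰) ℓ (∏ k, (dv α D P (A k) / tv D A s k)) := by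
          rw [Finset.prod_div_distrib]
          exact hprod.div (tv_prod (Valued.v : Valuation M ℤᵐ⁰) hℓ h2 hD0 hA' s hsum)
        rw [← Finset.mul_prod_erase Finset.univ (fun k => dv α D P (A k) / tv D A s k)
          (Finset.mem_univ k), mul_comm] at h3
        exact h3.cancel (Cl.prod _ _ fun i hi => hne i (Finset.ne_of_mem_erase hi))
      · exact hne k hkj
    · push Not at hj
      refine ⟨0, by simp, fun k => ?_⟩
      rw [tv_zero, div_one]
      exact ldt_unit hϖ hℓ hD0 hD hA hP hirr hd hint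
        (fun k => le_antisymm (eval_int hint (hA k)) (hj k)) k

theorem loc_D {ϖ : M} (hϖ : (Valued.v : Valuation M ℤᵐ⁰) ϖ = exp (-1 : ℤ)) {ℓ α : ℕ} (hℓ : ℓ.Prime) (h2 : ℓ ≠ 2)
    (hm : Nat.Coprime m ℓ) (hα : ℓ ∣ α * m + 1) {D : M} (hD0 : D ≠ 0) (hD : ¬ Vd (Valued.v : Valuation M ℤᵐ⁰) ℓ D)
    {A : Fin m → M} (hA : ∀ k, (Valued.v : Valuation M ℤᵐ⁰) (A k) ≤ 1) (hAA : ∀ i k, i ≠ k → (Valued.v : Valuation M ℤᵐ⁰) (A i - A k) = 1)
    {P Q : M[X]} (h : IsMum ℓ D A P Q) :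
    ∃ s : Fin m → ℤ, (ℓ : ℤ) ∣ ∑ k, s k ∧ ∀ k, Cl (Valued.v : Valuation M ℤᵐ⁰) ℓ (dv α D P (A k) / tv D A s k) := by
  have hA' : ∀ i k, i ≠ k → A i ≠ A k := by
    intro i k hik h0
    have h1 := hAA i k hik
    rw [h0, sub_self, map_zero] at h1
    exact zero_ne_one h1
  refine mum_induct ℓ D A Q (fun P => ∃ s : Fin m → ℤ, (ℓ : ℤ) ∣ ∑ k, s k ∧
    ∀ k, Cl (Valued.v : Valuation M ℤᵐ⁰) ℓ (dv α D P (A k) / tv D A s k)) ?_ ?_ ?_ h
  · refine ⟨0, by simp, fun k => ?_⟩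
    rw [tv_zero, div_one, dv_one]
    exact Cl.one
  · rintro P P' hP hP' ⟨s, hs, h1⟩ ⟨s', hs', h3⟩
    refine ⟨s + s', ?_, fun k => ?_⟩
    · simp only [Pi.add_apply]
      rw [Finset.sum_add_distrib]
      exact dvd_add hs hs'
    · rw [dv_mul α D hP hP', tv_add hD0 hA', mul_div_mul_comm]
      exact (h1 k).mul (h3 k)
  · intro P hP hirr hev hd
    exact ldt_irr hϖ hℓ h2 hm hα hD0 hD hA hAA hP hirr hev hd

end Pool.Agent.H94.PL
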