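import Pool.Agent.H94.PL.Bil
import Pool.Agent.H94.PC.LkClass

/-!
# [H94 PL LKC] Configurations with given degrees and two large linked variables

Adapt `PC/LkClass.lean` (there the symbols are real and there are types; here everything is
simpler: only degrees).

Scaled characters: for `e : ZMod ℓ`, `e ≠ 0`, `LChar.smul χ e he` is the character `e * lg`
(`surj`: take `x` with `lg x = e⁻¹`, `exists_lg`; `ker`: `e * lg x = 0 → lg x = 0`), and
`lm (χ.smul e) A B = e * lm χ A B` by definition.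

`lk_deg`: `d : V → ℕ`, `i ≠ j` with `C.lk i j ≠ 0` (`i ≠ j` follows from `C.Phi u u = 0`), `z ≤ d i`, `z ≤ d j`.
The sum over all `x : V → Mn F n` with `deg x_u = d u` of `WL` has norm at most
`(n + 1) q ^ n q ^ (-z/4)`.  If `∑ d ≠ n` the sum is `0`.  Otherwise for such `x` the weight `WL` is
`∏ u, H_u (x_u) * ∏ u, ∏ w ≠ u, G_{uw} (x_u, x_w)` with
`H_u a = if deg a = d u ∧ IsCoprime a Δ then (1/N)^om a * et u a else 0`,
`G_{uw} a b = if IsCoprime a b then ps (Phi u w * lm b a) else 0`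
(`∏ x ∈ Cls Δ n` iff the `x_u` are pairwise coprime and prime to `Δ` and `∑ deg = n`; compare
`lkc_formula`).  Fix all `x_u`, `u ≠ i, j`: the remaining double sum is
`∑ a, ∑ b, α a * β b * (H_i a * H_j b * (G_{ij} a b * G_{ji} b a))` with `‖α‖, ‖β‖ ≤ 1`, and
`G_{ij} a b * G_{ji} b a = if coprime then ps (Phi i j * lm b a + Phi j i * lm a b) = ps (lk i j * lm b a)`
(`lm_recip`) `= cs (χ.smul (lk i j)) b a` (also when not coprime, both are `0`), so `bilin_sym`
applies (`lkc_sum`-type reindexing from `Mn F n` to `Sq F m`), and `PC.lkc_root`, `PC.lkc_final`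
(generalize `Ix` to `V`) give the estimate; the sum over the other variables is
`∏ ∑ a, ‖H_u a‖ ≤ ∏ q ^ d u`.  (The general frame of `lkc_norm` uses a lemma of
`H94` or a direct computation; look at `PC/LkClass.lean`, `lkc_norm`.)
-/

set_option autoImplicit false

namespace Pool.Agent.H94.PL

open Polynomial
open Pool.Agent.H94.PC (Mo Sq Pr pf om Mn mem_Mo mem_Sq mem_Pr mem_pf mem_pf')

section lkcP

variable {ι M : Type} [Fintype ι] [DecidableEq ι] [Fintype M] [DecidableEq M]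

theorem lkcP_split (i j : ι) (hij : i ≠ j) (f : ι → ℂ) :
    ∏ u, f u = f i * (f j * ∏ u ∈ (Finset.univ.erase i).erase j, f u) := by
  rw [Finset.mul_prod_erase (Finset.univ.erase i) f
    (Finset.mem_erase.2 ⟨hij.symm, Finset.mem_univ _⟩), Finset.mul_prod_erase _ f
    (Finset.mem_univ _)]

theorem lkcP_prod_le {κ : Type} (s : Finset κ) (f : κ → ℂ) (hf : ∀ u ∈ s, ‖f u‖ ≤ 1) :
    ‖∏ u ∈ s, f u‖ ≤ 1 := by
  rw [norm_prod]
  exact Finset.prod_le_one (fun _ _ => norm_nonneg _) hf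

/-- the configuration with two values replaced -/
def lkcP_up (i j : ι) (y : ι → M) (a b : M) : ι → M :=
  Function.update (Function.update y i a) j b

omit [Fintype ι] [Fintype M] [DecidableEq M] in
theorem lkcP_up_i (i j : ι) (hij : i ≠ j) (y : ι → M) (a b : M) :
    lkcP_up i j y a b i = a := by
  unfold lkcP_up
  rw [Function.update_of_ne hij, Function.update_self]

omit [Fintype ι] [Fintype M] [DecidableEq M] in
theorem lkcP_up_j (i j : ι) (y : ι → M) (a b : M) : lkcP_up i j y a b j = b := by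
  unfold lkcP_up
  rw [Function.update_self]

omit [Fintype ι] [Fintype M] [DecidableEq M] in
theorem lkcP_up_u (i j : ι) (y : ι → M) (a b : M) (u : ι) (hi : u ≠ i) (hj : u ≠ j) :
    lkcP_up i j y a b u = y u := by
  unfold lkcP_up
  rw [Function.update_of_ne hj, Function.update_of_ne hi]

theorem lkcP_mem (i j u : ι) : u ∈ (Finset.univ.erase i).erase j ↔ u ≠ i ∧ u ≠ j := by
  rw [Finset.mem_erase, Finset.mem_erase]
  constructor
  · rintro ⟨h1, h2, -⟩
    exact ⟨h2, h1⟩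
  · rintro ⟨h1, h2⟩
    exact ⟨h2, h1, Finset.mem_univ _⟩

theorem lkcP_inner (i j : ι) (hij : i ≠ j) (h : ι → M → ℂ) (g : ι → ι → M → M → ℂ)
    (y : ι → M) (a b : M) :
    (∏ u, h u (lkcP_up i j y a b u)) *
      ∏ u, ∏ w, (if u = w then 1 else g u w (lkcP_up i j y a b u) (lkcP_up i j y a b w)) =
    ((∏ u ∈ (Finset.univ.erase i).erase j, h u (y u)) *
      ∏ u ∈ (Finset.univ.erase i).erase j, ∏ w ∈ (Finset.univ.erase i).erase j,
        (if u = w then 1 else g u w (y u) (y w))) *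
    (((∏ w ∈ (Finset.univ.erase i).erase j, g i w a (y w)) *
        ∏ u ∈ (Finset.univ.erase i).erase j, g u i (y u) a) *
      ((∏ w ∈ (Finset.univ.erase i).erase j, g j w b (y w)) *
        ∏ u ∈ (Finset.univ.erase i).erase j, g u j (y u) b) *
      (h i a * h j b * (g i j a b * g j i b a))) := by
  obtain ⟨E, hE⟩ : ∃ E : Finset ι, E = (Finset.univ.erase i).erase j := ⟨_, rfl⟩
  have hsp := lkcP_split i j hij
  simp only [← hE] at hsp ⊢
  have hEm : ∀ u ∈ E, u ≠ i ∧ u ≠ j := by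
    intro u hu
    rw [hE] at hu
    exact (lkcP_mem i j u).1 hu
  have h1 : ∏ u ∈ E, h u (lkcP_up i j y a b u) = ∏ u ∈ E, h u (y u) :=
    Finset.prod_congr rfl fun u hu => by
      rw [lkcP_up_u i j y a b u (hEm u hu).1 (hEm u hu).2]
  have h2 : ∏ w ∈ E, (if i = w then 1 else g i w a (lkcP_up i j y a b w)) =
      ∏ w ∈ E, g i w a (y w) :=
    Finset.prod_congr rfl fun u hu => by
      rw [lkcP_up_u i j y a b u (hEm u hu).1 (hEm u hu).2, if_neg (hEm u hu).1.symm]
  have h3 : ∏ w ∈ E, (if j = w then 1 else g j w b (lkcP_up i j y a b w)) =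
      ∏ w ∈ E, g j w b (y w) :=
    Finset.prod_congr rfl fun u hu => by
      rw [lkcP_up_u i j y a b u (hEm u hu).1 (hEm u hu).2, if_neg (hEm u hu).2.symm]
  have h4 : ∏ u ∈ E, ∏ w, (if u = w then 1 else
      g u w (lkcP_up i j y a b u) (lkcP_up i j y a b w)) =
      (∏ u ∈ E, g u i (y u) a) * ((∏ u ∈ E, g u j (y u) b) *
        ∏ u ∈ E, ∏ w ∈ E, (if u = w then 1 else g u w (y u) (y w))) := by
    rw [← Finset.prod_mul_distrib, ← Finset.prod_mul_distrib]
    apply Finset.prod_congr rfl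
    intro u hu
    rw [hsp, lkcP_up_i i j hij, lkcP_up_j, if_neg (hEm u hu).1, if_neg (hEm u hu).2,
      lkcP_up_u i j y a b u (hEm u hu).1 (hEm u hu).2]
    congr 2
    apply Finset.prod_congr rfl
    intro w hw
    rw [lkcP_up_u i j y a b w (hEm w hw).1 (hEm w hw).2]
  rw [hsp, hsp (fun u => ∏ w, (if u = w then 1 else
      g u w (lkcP_up i j y a b u) (lkcP_up i j y a b w))), h4, hsp, hsp,
    lkcP_up_i i j hij, lkcP_up_j, if_pos rfl, if_pos rfl, if_neg hij, if_neg hij.symm,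
    h1, h2, h3]
  ring

end lkcP

theorem lkcP_main {ι M : Type} [Fintype ι] [DecidableEq ι] [Fintype M] [DecidableEq M]
    (i j : ι) (hij : i ≠ j) (h : ι → M → ℂ) (g : ι → ι → M → M → ℂ)
    (_hh : ∀ u a, ‖h u a‖ ≤ 1) (hg : ∀ u w a b, ‖g u w a b‖ ≤ 1) (B : ℝ) (hB0 : 0 ≤ B)
    (hB : ∀ α β : M → ℂ, (∀ a, ‖α a‖ ≤ 1) → (∀ b, ‖β b‖ ≤ 1) →
      ‖∑ a, ∑ b, α a * β b * (h i a * h j b * (g i j a b * g j i b a))‖ ≤ B) :
    ‖∑ x : ι → M, (∏ u, h u (x u)) *
        ∏ u, ∏ w, (if u = w then 1 else g u w (x u) (x w))‖ ≤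
      (∏ u ∈ (Finset.univ.erase i).erase j, ∑ a, ‖h u a‖) * B := by
  rcases isEmpty_or_nonempty M with hM | ⟨⟨m0⟩⟩
  · have : IsEmpty (ι → M) := ⟨fun x => hM.false (x i)⟩
    rw [Finset.univ_eq_empty, Finset.sum_empty, norm_zero]
    exact mul_nonneg (Finset.prod_nonneg fun _ _ => Finset.sum_nonneg fun _ _ => norm_nonneg _) hB0
  obtain ⟨E, hE⟩ : ∃ E : Finset ι, E = (Finset.univ.erase i).erase j := ⟨_, rfl⟩
  have hEm : ∀ u, u ∈ E ↔ u ≠ i ∧ u ≠ j := by
    intro u
    rw [hE]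
    exact lkcP_mem i j u
  let T : ι → Finset M := fun u => if u ∈ E then Finset.univ else {m0}
  let t : Finset (ι → M) := Fintype.piFinset T
  have ht : ∀ y, y ∈ t ↔ ∀ u, u ∉ E → y u = m0 := by
    intro y
    show y ∈ Fintype.piFinset T ↔ _
    rw [Fintype.mem_piFinset]
    constructor
    · intro hy u hu
      have := hy u
      simp only [T, if_neg hu, Finset.mem_singleton] at this
      exact this
    · intro hy u
      by_cases hu : u ∈ E
      · simp only [T, if_pos hu, Finset.mem_univ]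
      · simp only [T, if_neg hu, Finset.mem_singleton]
        exact hy u hu
  have hiE : i ∉ E := fun h => ((hEm i).1 h).1 rfl
  have hjE : j ∉ E := fun h => ((hEm j).1 h).2 rfl
  have key : ∀ f : (ι → M) → ℂ, ∑ x, f x = ∑ y ∈ t, ∑ a, ∑ b, f (lkcP_up i j y a b) := by
    intro f
    have e1 : ∑ y ∈ t, ∑ a, ∑ b, f (lkcP_up i j y a b) =
        ∑ z ∈ t ×ˢ (Finset.univ ×ˢ Finset.univ : Finset (M × M)),
          f (lkcP_up i j z.1 z.2.1 z.2.2) := by
      rw [Finset.sum_product]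
      apply Finset.sum_congr rfl
      intro y _
      rw [Finset.sum_product]
    rw [e1]
    refine Finset.sum_nbij' (fun x => (lkcP_up i j x m0 m0, (x i, x j)))
      (fun z => lkcP_up i j z.1 z.2.1 z.2.2) ?_ ?_ ?_ ?_ ?_
    · intro x _
      rw [Finset.mem_product, Finset.mem_product]
      refine ⟨?_, Finset.mem_univ _, Finset.mem_univ _⟩
      rw [ht]
      intro u hu
      rw [hEm] at hu
      by_cases h1 : u = i
      · rw [h1]
        exact lkcP_up_i i j hij _ _ _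
      · have h2 : u = j := by
          by_contra h2
          exact hu ⟨h1, h2⟩
        rw [h2]
        exact lkcP_up_j i j _ _ _
    · intro z _
      exact Finset.mem_univ _
    · intro x _
      funext u
      show lkcP_up i j (lkcP_up i j x m0 m0) (x i) (x j) u = x u
      by_cases h1 : u = i
      · rw [h1]
        exact lkcP_up_i i j hij _ _ _
      · by_cases h2 : u = j
        · rw [h2]
          exact lkcP_up_j i j _ _ _
        · rw [lkcP_up_u _ _ _ _ _ u h1 h2, lkcP_up_u _ _ _ _ _ u h1 h2]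
    · rintro ⟨y, a, b⟩ hz
      rw [Finset.mem_product, ht] at hz
      have hy := hz.1
      simp only at hy ⊢
      rw [lkcP_up_i i j hij, lkcP_up_j]
      congr 1
      funext u
      by_cases h1 : u = i
      · rw [h1, lkcP_up_i i j hij]
        exact (hy i hiE).symm
      · by_cases h2 : u = j
        · rw [h2, lkcP_up_j]
          exact (hy j hjE).symm
        · rw [lkcP_up_u _ _ _ _ _ u h1 h2, lkcP_up_u _ _ _ _ _ u h1 h2]
    · intro x _
      show f x = f (lkcP_up i j (lkcP_up i j x m0 m0) (x i) (x j))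
      congr 1
      funext u
      by_cases h1 : u = i
      · rw [h1]
        exact (lkcP_up_i i j hij _ _ _).symm
      · by_cases h2 : u = j
        · rw [h2]
          exact (lkcP_up_j i j _ _ _).symm
        · rw [lkcP_up_u _ _ _ _ _ u h1 h2, lkcP_up_u _ _ _ _ _ u h1 h2]
  rw [key]
  refine (norm_sum_le _ _).trans ?_
  have hfin : (∏ u ∈ (Finset.univ.erase i).erase j, ∑ a, ‖h u a‖) =
      ∑ y ∈ t, ∏ u ∈ E, ‖h u (y u)‖ := by
    have e1 := Finset.prod_univ_sum T (fun u a => if u ∈ E then ‖h u a‖ else 1)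
    have e2 : ∀ y : ι → M, ∏ u, (if u ∈ E then ‖h u (y u)‖ else 1) = ∏ u ∈ E, ‖h u (y u)‖ := by
      intro y
      rw [Finset.prod_ite_mem, Finset.univ_inter]
    have e3 : ∏ u, ∑ a ∈ T u, (if u ∈ E then ‖h u a‖ else 1) = ∏ u ∈ E, ∑ a, ‖h u a‖ := by
      have e4 : ∀ u, ∑ a ∈ T u, (if u ∈ E then ‖h u a‖ else 1) =
          if u ∈ E then ∑ a, ‖h u a‖ else 1 := by
        intro u
        by_cases hu : u ∈ E
        · simp only [T, if_pos hu]
        · simp only [T, if_neg hu, Finset.sum_singleton]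
      rw [Finset.prod_congr rfl fun u _ => e4 u, Finset.prod_ite_mem, Finset.univ_inter]
    rw [← hE, ← e3, e1]
    exact Finset.sum_congr rfl fun y _ => e2 y
  rw [hfin, Finset.sum_mul]
  apply Finset.sum_le_sum
  intro y _
  have e1 : ∑ a, ∑ b, ((∏ u, h u (lkcP_up i j y a b u)) *
      ∏ u, ∏ w, (if u = w then 1 else
        g u w (lkcP_up i j y a b u) (lkcP_up i j y a b w))) =
      ((∏ u ∈ E, h u (y u)) * ∏ u ∈ E, ∏ w ∈ E, (if u = w then 1 else g u w (y u) (y w))) *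
      ∑ a, ∑ b, ((∏ w ∈ E, g i w a (y w)) * ∏ u ∈ E, g u i (y u) a) *
        ((∏ w ∈ E, g j w b (y w)) * ∏ u ∈ E, g u j (y u) b) *
        (h i a * h j b * (g i j a b * g j i b a)) := by
    rw [Finset.mul_sum]
    apply Finset.sum_congr rfl
    intro a _
    rw [Finset.mul_sum]
    apply Finset.sum_congr rfl
    intro b _
    rw [lkcP_inner i j hij h g y a b, hE]
  rw [e1, norm_mul]
  apply mul_le_mul
  · rw [norm_mul]
    have e2 : ‖∏ u ∈ E, ∏ w ∈ E, (if u = w then (1 : ℂ) else g u w (y u) (y w))‖ ≤ 1 := by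
      apply lkcP_prod_le
      intro u _
      apply lkcP_prod_le
      intro w _
      split_ifs
      · rw [norm_one]
      · exact hg _ _ _ _
    rw [← norm_prod]
    exact mul_le_of_le_one_right (norm_nonneg _) e2
  · apply hB (fun a => (∏ w ∈ E, g i w a (y w)) * ∏ u ∈ E, g u i (y u) a)
      (fun b => (∏ w ∈ E, g j w b (y w)) * ∏ u ∈ E, g u j (y u) b)
    · intro a
      rw [norm_mul]
      exact mul_le_one₀ (lkcP_prod_le _ _ fun u _ => hg _ _ _ _) (norm_nonneg _)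
        (lkcP_prod_le _ _ fun u _ => hg _ _ _ _)
    · intro b
      rw [norm_mul]
      exact mul_le_one₀ (lkcP_prod_le _ _ fun u _ => hg _ _ _ _) (norm_nonneg _)
        (lkcP_prod_le _ _ fun u _ => hg _ _ _ _)
  · exact norm_nonneg _
  · exact Finset.prod_nonneg fun _ _ => norm_nonneg _

variable {F : Type} [Field F] [Finite F] {ℓ : ℕ} [hl : Fact ℓ.Prime]

/-- the scaled character -/
noncomputable def LChar.smul (χ : LChar F ℓ) (e : ZMod ℓ) (he : e ≠ 0) : LChar F ℓ where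
  lg x := e * χ.lg x
  mul hx hy := by rw [χ.mul hx hy, mul_add]
  surj := by
    obtain ⟨x, hx, h⟩ := exists_lg χ e⁻¹
    exact ⟨x, hx, by rw [h, mul_inv_cancel₀ he]⟩
  ker hx h := χ.ker hx ((mul_eq_zero.1 h).resolve_left he)

theorem lm_smul (χ : LChar F ℓ) (e : ZMod ℓ) (he : e ≠ 0) (A B : F[X]) :
    lm (χ.smul e he) A B = e * lm χ A B := rfl

open Classical in
/-- extension by zero -/
noncomputable def lkcE {n : ℕ} (φ : Mn F n → ℂ) (A : F[X]) : ℂ :=
  if h : A.Monic ∧ Squarefree A ∧ A.natDegree ≤ n then φ ⟨A, h⟩ else 0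

omit [Finite F] in
theorem lkcE_val {n : ℕ} (φ : Mn F n → ℂ) (a : Mn F n) : lkcE φ a.1 = φ a := dif_pos a.2

omit [Finite F] in
theorem lkcE_le {n : ℕ} {φ : Mn F n → ℂ} (h : ∀ a, ‖φ a‖ ≤ 1) (A : F[X]) : ‖lkcE φ A‖ ≤ 1 := by
  unfold lkcE
  split_ifs with h1
  · exact h _
  · rw [norm_zero]
    exact zero_le_one

theorem lkc_sum {n m : ℕ} (φ : Mn F n → ℂ) (hφ : ∀ a, a.1.natDegree ≠ m → φ a = 0)
    (ψ : F[X] → ℂ) : ∑ a, φ a * ψ a.1 = ∑ A ∈ Sq F m, lkcE φ A * ψ A := by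
  classical
  have h0 : ∑ A ∈ (Finset.univ : Finset (Mn F n)).image (fun a => a.1), lkcE φ A * ψ A =
      ∑ a : Mn F n, lkcE φ a.1 * ψ a.1 :=
    Finset.sum_image (fun a _ b _ hab => Subtype.ext hab)
  have h1 : ∑ a, φ a * ψ a.1 =
      ∑ A ∈ (Finset.univ : Finset (Mn F n)).image (fun a => a.1), lkcE φ A * ψ A := by
    rw [h0]
    refine Finset.sum_congr rfl fun a _ => ?_
    rw [lkcE_val]
  rw [h1]
  refine Finset.sum_congr_of_eq_on_inter ?_ ?_ fun _ _ _ => rfl
  · intro A hA hA'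
    obtain ⟨a, -, rfl⟩ := Finset.mem_image.1 hA
    rw [lkcE_val, hφ a, zero_mul]
    intro h2
    exact hA' (mem_Sq.2 ⟨a.2.1, h2, a.2.2.1⟩)
  · intro A hA hA'
    have h2 : ¬ (A.Monic ∧ Squarefree A ∧ A.natDegree ≤ n) := fun h3 =>
      hA' (Finset.mem_image.2 ⟨⟨A, h3⟩, Finset.mem_univ _, rfl⟩)
    unfold lkcE
    rw [dif_neg h2, zero_mul]

variable {V : Type} [Fintype V] [DecidableEq V]

open Classical in
/-- the weight of one variable -/
noncomputable def lkcH (χ : LChar F ℓ) (C : CD V ℓ) (Δ : F[X]) (b : V → ZMod ℓ)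
    (g : V → pf Δ → ZMod ℓ) (n : ℕ) (d : V → ℕ) (u : V) (a : Mn F n) : ℂ :=
  if a.1.natDegree = d u ∧ IsCoprime a.1 Δ then (1 / (C.N : ℂ)) ^ om a.1 * et χ Δ b g u a.1 else 0

open Classical in
/-- the weight of two variables -/
noncomputable def lkcG (χ : LChar F ℓ) (C : CD V ℓ) (n : ℕ) (u w : V) (a b : Mn F n) : ℂ :=
  if IsCoprime a.1 b.1 then ps (C.Phi u w * lm χ b.1 a.1) else 0

omit [DecidableEq V] in
theorem lkc_norm_et (χ : LChar F ℓ) (Δ : F[X]) (b : V → ZMod ℓ)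
    (g : V → pf Δ → ZMod ℓ) (u : V) (A : F[X]) : ‖et χ Δ b g u A‖ = 1 := by
  unfold et
  rw [norm_mul, norm_ps, norm_prod, one_mul]
  refine Finset.prod_eq_one fun v _ => ?_
  rw [norm_ps]

omit [DecidableEq V] in
theorem lkcH_le (χ : LChar F ℓ) (C : CD V ℓ) (hC : C.Good) (Δ : F[X]) (b : V → ZMod ℓ)
    (g : V → pf Δ → ZMod ℓ) (n : ℕ) (d : V → ℕ) (u : V) (a : Mn F n) :
    ‖lkcH χ C Δ b g n d u a‖ ≤ 1 := by
  unfold lkcH
  split_ifs
  · rw [norm_mul, lkc_norm_et, mul_one, norm_pow, norm_div, norm_one, Complex.norm_natCast]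
    have h1 : (1 : ℝ) ≤ C.N := by exact_mod_cast hC.pos
    refine pow_le_one₀ (by positivity) ?_
    rw [div_le_one (by linarith)]
    exact h1
  · rw [norm_zero]
    exact zero_le_one

omit [Finite F] [Fintype V] [DecidableEq V] in
theorem lkcG_le (χ : LChar F ℓ) (C : CD V ℓ) (n : ℕ) (u w : V) (a b : Mn F n) :
    ‖lkcG χ C n u w a b‖ ≤ 1 := by
  unfold lkcG
  split_ifs
  · rw [norm_ps]
  · rw [norm_zero]
    exact zero_le_one

omit [DecidableEq V] in
theorem lkcH_deg {χ : LChar F ℓ} {C : CD V ℓ} {Δ : F[X]} {b : V → ZMod ℓ}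
    {g : V → pf Δ → ZMod ℓ} {n : ℕ} {d : V → ℕ} {u : V} {a : Mn F n}
    (h : a.1.natDegree ≠ d u) : lkcH χ C Δ b g n d u a = 0 := by
  unfold lkcH
  rw [if_neg]
  rintro ⟨h1, -⟩
  exact h h1

omit [DecidableEq V] in
theorem lkcH_sum (χ : LChar F ℓ) (C : CD V ℓ) (hC : C.Good) (Δ : F[X]) (b : V → ZMod ℓ)
    (g : V → pf Δ → ZMod ℓ) (n : ℕ) (d : V → ℕ) (u : V) :
    ∑ a : Mn F n, ‖lkcH χ C Δ b g n d u a‖ ≤ (Nat.card F : ℝ) ^ d u := by
  have h1 := PC.lkc_sum (n := n) (m := d u) (fun a : Mn F n => ‖lkcH χ C Δ b g n d u a‖)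
    (fun a ha => by rw [lkcH_deg ha, norm_zero]) (fun _ => (1 : ℝ))
  simp only [mul_one] at h1
  rw [h1]
  have h2 : ∑ A ∈ Sq F (d u), PC.lkcE (fun a : Mn F n => ‖lkcH χ C Δ b g n d u a‖) A ≤
      ∑ A ∈ Sq F (d u), (1 : ℝ) := by
    refine Finset.sum_le_sum fun A _ => ?_
    refine (le_abs_self _).trans (PC.lkcE_le (fun a => ?_) A)
    rw [abs_norm]
    exact lkcH_le χ C hC Δ b g n d u a
  refine h2.trans ?_
  rw [Finset.sum_const, nsmul_eq_mul, mul_one]
  exact_mod_cast PC.card_Sq_le (d u)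

theorem lkc_formula (χ : LChar F ℓ) (C : CD V ℓ) (hC : C.Good) (Δ : F[X]) (b : V → ZMod ℓ)
    (g : V → pf Δ → ZMod ℓ) (n : ℕ) (d : V → ℕ) (hd : ∑ u, d u = n) (x : V → Mn F n)
    [Decidable (∀ u, (x u).1.natDegree = d u)] :
    (if ∀ u, (x u).1.natDegree = d u then WL χ C Δ b g n x else 0) =
      (∏ u, lkcH χ C Δ b g n d u (x u)) *
        ∏ u, ∏ w, (if u = w then 1 else lkcG χ C n u w (x u) (x w)) := by
  classical
  by_cases hP : ∀ u, (x u).1.natDegree = d u
  · rw [if_pos hP]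
    have hmon : (∏ u, (x u).1).Monic := monic_prod_of_monic _ _ fun u _ => (x u).2.1
    have hdeg : (∏ u, (x u).1).natDegree = n := by
      rw [natDegree_prod_of_monic _ _ fun u _ => (x u).2.1]
      exact (Finset.sum_congr rfl fun u _ => hP u).trans hd
    by_cases hI : (∏ u, (x u).1) ∈ Cls Δ n
    · obtain ⟨-, -, hsq, hcop⟩ := mem_Cls.1 hI
      have hco : ∀ u, IsCoprime (x u).1 Δ := fun u =>
        IsCoprime.prod_left_iff.1 hcop u (Finset.mem_univ u)
      have hH : ∏ u, lkcH χ C Δ b g n d u (x u) =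
          (1 / (C.N : ℂ)) ^ om (∏ u, (x u).1) * ∏ u, et χ Δ b g u (x u).1 := by
        rw [PC.om_prod _ (fun u => (x u).2.1) hsq, ← Finset.prod_pow_eq_pow_sum,
          ← Finset.prod_mul_distrib]
        refine Finset.prod_congr rfl fun u _ => ?_
        unfold lkcH
        rw [if_pos ⟨hP u, hco u⟩]
      have hG : ∏ u, ∏ w, (if u = w then 1 else lkcG χ C n u w (x u) (x w)) =
          ∏ u, ∏ w, ps (C.Phi u w * lm χ (x w).1 (x u).1) := by
        refine Finset.prod_congr rfl fun u _ => Finset.prod_congr rfl fun w _ => ?_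
        by_cases huw : u = w
        · rw [if_pos huw, huw, hC.self, zero_mul, ps_zero]
        · rw [if_neg huw]
          unfold lkcG
          rw [if_pos (PC.lkc_coprime _ hsq huw)]
      rw [hH, hG]
      unfold WL
      rw [if_pos hI]
      rfl
    · have hW : WL χ C Δ b g n x = 0 := by
        unfold WL
        rw [if_neg hI]
      rw [hW]
      by_contra hcon
      have hcon' : (∏ u, lkcH χ C Δ b g n d u (x u)) *
        ∏ u, ∏ w, (if u = w then 1 else lkcG χ C n u w (x u) (x w)) ≠ 0 := Ne.symm hcon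
      have h2 := left_ne_zero_of_mul hcon'
      have h3 := right_ne_zero_of_mul hcon'
      rw [Finset.prod_ne_zero_iff] at h2 h3
      apply hI
      have hco : ∀ u, IsCoprime (x u).1 Δ := by
        intro u
        by_contra h5
        apply h2 u (Finset.mem_univ u)
        unfold lkcH
        rw [if_neg fun h6 => h5 h6.2]
      refine mem_Cls.2 ⟨hmon, hdeg, ?_, IsCoprime.prod_left fun u _ => hco u⟩
      refine Finset.squarefree_prod_of_pairwise_isCoprime ?_ fun u _ => (x u).2.2.1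
      intro u _ w _ huw
      by_contra h5
      have h6 := (Finset.prod_ne_zero_iff.1 (h3 u (Finset.mem_univ u))) w (Finset.mem_univ w)
      rw [if_neg huw] at h6
      apply h6
      unfold lkcG
      exact if_neg fun hc : IsCoprime (x u).1 (x w).1 => h5 hc.isRelPrime
  · rw [if_neg hP]
    push Not at hP
    obtain ⟨u, hu⟩ := hP
    have h1 : ∏ u, lkcH χ C Δ b g n d u (x u) = 0 :=
      Finset.prod_eq_zero (Finset.mem_univ u) (lkcH_deg hu)
    rw [h1, zero_mul]

theorem lkc_zero (χ : LChar F ℓ) (C : CD V ℓ) (Δ : F[X]) (b : V → ZMod ℓ)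
    (g : V → pf Δ → ZMod ℓ) (n : ℕ) (d : V → ℕ) (hd : ∑ u, d u ≠ n) (x : V → Mn F n)
    [Decidable (∀ u, (x u).1.natDegree = d u)] :
    (if ∀ u, (x u).1.natDegree = d u then WL χ C Δ b g n x else 0) = 0 := by
  classical
  by_cases hP : ∀ u, (x u).1.natDegree = d u
  · rw [if_pos hP]
    unfold WL
    rw [if_neg]
    intro hI
    apply hd
    have h := (mem_Cls.1 hI).2.1
    rw [natDegree_prod_of_monic _ _ fun u _ => (x u).2.1] at h
    exact (Finset.sum_congr rfl fun u _ => (hP u).symm).trans h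
  · rw [if_neg hP]

/-- the bilinear bound for the two linked variables -/
theorem lkc_bil (χ : LChar F ℓ) (h2 : ℓ ≠ 2) (C : CD V ℓ) (hC : C.Good) (Δ : F[X])
    (b : V → ZMod ℓ) (g : V → pf Δ → ZMod ℓ) (n : ℕ) (d : V → ℕ) (i j : V)
    (hij : C.lk i j ≠ 0) (α β : Mn F n → ℂ) (hα : ∀ a, ‖α a‖ ≤ 1) (hβ : ∀ b, ‖β b‖ ≤ 1) :
    ‖∑ a, ∑ c, α a * β c * (lkcH χ C Δ b g n d i a * lkcH χ C Δ b g n d j c *
      (lkcG χ C n i j a c * lkcG χ C n j i c a))‖ ^ 4 * (Nat.card F : ℝ) ^ (min (d i) (d j)) ≤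
      (d i + d j + 1) * (Nat.card F : ℝ) ^ (4 * (d i + d j)) := by
  classical
  have hα' : ∀ a, ‖α a * lkcH χ C Δ b g n d i a‖ ≤ 1 := fun a => by
    rw [norm_mul]
    exact mul_le_one₀ (hα a) (norm_nonneg _) (lkcH_le χ C hC Δ b g n d i a)
  have hβ' : ∀ c, ‖β c * lkcH χ C Δ b g n d j c‖ ≤ 1 := fun c => by
    rw [norm_mul]
    exact mul_le_one₀ (hβ c) (norm_nonneg _) (lkcH_le χ C hC Δ b g n d j c)
  have hJ : ∀ a c : Mn F n, lkcG χ C n i j a c * lkcG χ C n j i c a =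
      cs (χ.smul (C.lk i j) hij) a.1 c.1 := by
    intro a c
    unfold lkcG
    by_cases hc : IsCoprime a.1 c.1
    · rw [if_pos hc, if_pos hc.symm, cs_of_coprime _ c.2.1 hc, lm_smul, ← ps_add,
        lm_recip χ h2 c.1 a.1]
      congr 1
      unfold CD.lk
      ring
    · rw [if_neg hc, zero_mul, cs_eq_zero _ c.2.1 hc]
  have key : ∑ a, ∑ c, α a * β c * (lkcH χ C Δ b g n d i a * lkcH χ C Δ b g n d j c *
      (lkcG χ C n i j a c * lkcG χ C n j i c a)) =
      ∑ A ∈ Sq F (d i), ∑ B ∈ Sq F (d j),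
        lkcE (fun a : Mn F n => α a * lkcH χ C Δ b g n d i a) A *
          lkcE (fun c : Mn F n => β c * lkcH χ C Δ b g n d j c) B *
            cs (χ.smul (C.lk i j) hij) A B := by
    have e1 : ∀ a : Mn F n, ∑ c, α a * β c * (lkcH χ C Δ b g n d i a *
        lkcH χ C Δ b g n d j c * (lkcG χ C n i j a c * lkcG χ C n j i c a)) =
        (α a * lkcH χ C Δ b g n d i a) *
        (fun A => ∑ B ∈ Sq F (d j), lkcE (fun c : Mn F n => β c * lkcH χ C Δ b g n d j c) B *
          cs (χ.smul (C.lk i j) hij) A B) a.1 := by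
      intro a
      have e2 := lkc_sum (m := d j) (fun c : Mn F n => β c * lkcH χ C Δ b g n d j c)
        (fun c hc => by rw [lkcH_deg hc, mul_zero])
        (fun B => cs (χ.smul (C.lk i j) hij) a.1 B)
      simp only at e2 ⊢
      rw [← e2, Finset.mul_sum]
      refine Finset.sum_congr rfl fun c _ => ?_
      rw [hJ]
      ring
    refine (Finset.sum_congr rfl fun a _ => e1 a).trans ?_
    refine (lkc_sum (m := d i) (fun a : Mn F n => α a * lkcH χ C Δ b g n d i a)
        (fun a ha => by rw [lkcH_deg ha, mul_zero])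
        (fun A => ∑ B ∈ Sq F (d j),
          lkcE (fun c : Mn F n => β c * lkcH χ C Δ b g n d j c) B *
            cs (χ.smul (C.lk i j) hij) A B)).trans ?_
    refine Finset.sum_congr rfl fun A _ => ?_
    rw [Finset.mul_sum]
    refine Finset.sum_congr rfl fun B _ => ?_
    ring
  rw [key]
  exact bilin_sym (χ.smul (C.lk i j) hij) h2 (d i) (d j) _ _ (lkcE_le hα') (lkcE_le hβ')

theorem lkc_final {q : ℝ} (hq : 1 ≤ q) {n z : ℕ} (d : V → ℕ) (hd : ∑ u, d u = n) {i j : V}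
    (hne : i ≠ j) :
    (∏ u ∈ (Finset.univ.erase i).erase j, q ^ d u) *
      (((d i : ℝ) + d j + 1) * q ^ (d i + d j) * q ^ (-(z : ℝ) / 4)) ≤
      (n + 1) * q ^ n * q ^ (-(z : ℝ) / 4) := by
  have hq0 : 0 < q := lt_of_lt_of_le one_pos hq
  have hs : ∑ u ∈ (Finset.univ.erase i).erase j, d u + (d i + d j) = ∑ u, d u := by
    have e1 := Finset.add_sum_erase (Finset.univ : Finset V) d (Finset.mem_univ i)
    have e2 := Finset.add_sum_erase (Finset.univ.erase i) d
      (Finset.mem_erase.2 ⟨hne.symm, Finset.mem_univ j⟩)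
    omega
  rw [hd] at hs
  have h6 : (∏ u ∈ (Finset.univ.erase i).erase j, q ^ d u) * q ^ (d i + d j) = q ^ n := by
    rw [Finset.prod_pow_eq_pow_sum, ← pow_add, hs]
  have h7 : ((d i : ℝ) + d j + 1) ≤ n + 1 := by
    have e1 : d i + d j ≤ n := by omega
    have e2 : (d i : ℝ) + (d j : ℝ) ≤ n := by exact_mod_cast e1
    linarith
  calc (∏ u ∈ (Finset.univ.erase i).erase j, q ^ d u) *
      (((d i : ℝ) + d j + 1) * q ^ (d i + d j) * q ^ (-(z : ℝ) / 4)) =
      ((d i : ℝ) + d j + 1) * ((∏ u ∈ (Finset.univ.erase i).erase j,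
        q ^ d u) * q ^ (d i + d j)) * q ^ (-(z : ℝ) / 4) := by
        ring
    _ = ((d i : ℝ) + d j + 1) * q ^ n * q ^ (-(z : ℝ) / 4) := by rw [h6]
    _ ≤ (n + 1) * q ^ n * q ^ (-(z : ℝ) / 4) := by
        refine mul_le_mul_of_nonneg_right ?_ (by positivity)
        exact mul_le_mul_of_nonneg_right h7 (by positivity)

open Classical in
theorem lk_deg (χ : LChar F ℓ) (h2 : ℓ ≠ 2) (C : CD V ℓ) (hC : C.Good) (Δ : F[X])
    (b : V → ZMod ℓ) (g : V → pf Δ → ZMod ℓ) (n z : ℕ) (d : V → ℕ) (i j : V)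
    (hij : C.lk i j ≠ 0) (hi : z ≤ d i) (hj : z ≤ d j) :
    ‖∑ x : V → Mn F n, (if ∀ u, (x u).1.natDegree = d u then WL χ C Δ b g n x else 0)‖ ≤
      (n + 1) * (Nat.card F : ℝ) ^ n * (Nat.card F : ℝ) ^ (-(z : ℝ) / 4) := by
  have hq : (1 : ℝ) ≤ (Nat.card F : ℝ) := PC.lkc_one_le_q
  by_cases hd : ∑ u, d u = n
  · have hne : i ≠ j := by
      rintro rfl
      apply hij
      unfold CD.lk
      rw [hC.self, add_zero]
    obtain ⟨B, hB⟩ : ∃ B : ℝ, B = ((d i : ℝ) + d j + 1) *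
      (Nat.card F : ℝ) ^ (d i + d j) * (Nat.card F : ℝ) ^ (-(z : ℝ) / 4) := ⟨_, rfl⟩
    have hB0 : 0 ≤ B := by
      rw [hB, ← Nat.cast_add]
      exact PC.lkc_nonneg hq _ _ _
    have hbil : ∀ α β : Mn F n → ℂ, (∀ a, ‖α a‖ ≤ 1) → (∀ c, ‖β c‖ ≤ 1) →
        ‖∑ a, ∑ c, α a * β c * (lkcH χ C Δ b g n d i a * lkcH χ C Δ b g n d j c *
          (lkcG χ C n i j a c * lkcG χ C n j i c a))‖ ≤ B := by
      intro α β hα hβ
      rw [hB]
      have h3 := PC.lkc_root hq hi hj (lkc_bil χ h2 C hC Δ b g n d i j hij α β hα hβ)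
      rwa [abs_norm] at h3
    rw [Finset.sum_congr rfl fun x _ => lkc_formula χ C hC Δ b g n d hd x]
    refine (lkcP_main i j hne (lkcH χ C Δ b g n d) (lkcG χ C n) (lkcH_le χ C hC Δ b g n d)
      (fun u w a b => lkcG_le χ C n u w a b) B hB0 hbil).trans ?_
    have h5 : ∏ u ∈ (Finset.univ.erase i).erase j, ∑ a : Mn F n, ‖lkcH χ C Δ b g n d u a‖ ≤
        ∏ u ∈ (Finset.univ.erase i).erase j, (Nat.card F : ℝ) ^ d u :=
      Finset.prod_le_prod (fun u _ => Finset.sum_nonneg fun a _ => norm_nonneg _)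
        fun u _ => lkcH_sum χ C hC Δ b g n d u
    refine (mul_le_mul_of_nonneg_right h5 hB0).trans ?_
    rw [hB]
    exact lkc_final hq d hd hne
  · rw [Finset.sum_congr rfl fun x _ => lkc_zero χ C Δ b g n d hd x, Finset.sum_const_zero,
      norm_zero]
    exact PC.lkc_nonneg hq _ _ _

end Pool.Agent.H94.PL
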