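import Pool.Agent.H94.PL.Kx

set_option autoImplicit false

/-!
# [H94 PL NF] Normal form of a rational function modulo `ℓ`-th powers

`pow_of_ex`: write `x = a / b = (a b^(ℓ-1)) / b^ℓ`; `g = a b^(ℓ-1)` is a nonzero polynomial all of whose multiplicities
at monic irreducibles are divisible by `ℓ`.  Then `g = C c * h ^ ℓ` (strong induction on the degree: if `g` is not
constant take a monic irreducible factor `P` (`exists_monic_irreducible_factor`), `ℓ ∣ multiplicity P g ≠ 0`, so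
`g = P ^ ℓ * g'`, and `multiplicity Q g' = multiplicity Q g - ℓ * (1 or 0)`).
`normal_form`: apply it to `x / ∏_{Q ∈ T} Q ^ (ex ℓ Q x).val` (`ex_of_not_dvd`, `ex ℓ Q Q = 1`).
-/

namespace Pool.Agent.H94.PL

open Polynomial

variable {F : Type} [Field F] {ℓ : ℕ} [hl : Fact ℓ.Prime] (χ : LChar F ℓ)

omit hl in
private theorem nf_fin {P g : F[X]} (hP : Irreducible P) (hg : g ≠ 0) : FiniteMultiplicity P g :=
  FiniteMultiplicity.of_not_isUnit hP.not_isUnit hg

private theorem nf_poly (n : ℕ) : ∀ g : F[X], g ≠ 0 → g.natDegree ≤ n →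
    (∀ Q : F[X], Q.Monic → Irreducible Q → ℓ ∣ multiplicity Q g) →
    ∃ c : F, c ≠ 0 ∧ ∃ h : F[X], h ≠ 0 ∧ g = C c * h ^ ℓ := by
  induction n with
  | zero =>
    intro g hg hn _
    have h1 : g.natDegree = 0 := by omega
    obtain ⟨c, hc⟩ := Polynomial.natDegree_eq_zero.1 h1
    refine ⟨c, ?_, 1, one_ne_zero, ?_⟩
    · rintro rfl
      apply hg
      rw [← hc, C_0]
    · rw [one_pow, mul_one, hc]
  | succ n ih =>
    intro g hg hn hm
    by_cases hu : IsUnit g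
    · obtain ⟨c, hc⟩ := Polynomial.isUnit_iff.1 hu
      refine ⟨c, hc.1.ne_zero, 1, one_ne_zero, ?_⟩
      rw [one_pow, mul_one, hc.2]
    · obtain ⟨P, hPm, hPi, hPg⟩ := Polynomial.exists_monic_irreducible_factor g hu
      have h1 : multiplicity P g ≠ 0 := by
        rw [Ne, multiplicity_eq_zero, not_not]
        exact hPg
      have h2 : ℓ ≤ multiplicity P g := Nat.le_of_dvd (Nat.pos_of_ne_zero h1) (hm P hPm hPi)
      obtain ⟨g', hg'⟩ : P ^ ℓ ∣ g := pow_dvd_of_le_multiplicity h2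
      have hg'0 : g' ≠ 0 := by
        rintro rfl
        apply hg
        rw [hg', mul_zero]
      have hP0 : P ^ ℓ ≠ 0 := pow_ne_zero _ hPi.ne_zero
      have hdeg : g.natDegree = ℓ * P.natDegree + g'.natDegree := by
        rw [hg', natDegree_mul hP0 hg'0, natDegree_pow]
      have hPd : 0 < P.natDegree := hPi.natDegree_pos
      have hl1 : 0 < ℓ := hl.out.pos
      have h3 : 0 < ℓ * P.natDegree := Nat.mul_pos hl1 hPd
      obtain ⟨c, hc, h, hh, he⟩ := ih g' hg'0 (by omega) (by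
        intro Q hQm hQi
        have h4 : multiplicity Q g = ℓ * multiplicity Q P + multiplicity Q g' := by
          have h5 := multiplicity_mul (a := P ^ ℓ) (b := g') hQi.prime (by
            rw [← hg']
            exact nf_fin hQi hg)
          rw [← hg'] at h5
          rw [h5, FiniteMultiplicity.multiplicity_pow hQi.prime (nf_fin hQi hPi.ne_zero)]
        have h6 := hm Q hQm hQi
        rw [h4] at h6
        exact (Nat.dvd_add_right (Dvd.intro _ rfl)).1 h6)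
      refine ⟨c, hc, P * h, mul_ne_zero hPi.ne_zero hh, ?_⟩
      rw [hg', he]
      ring

theorem pow_of_ex {x : RatFunc F} (hx : x ≠ 0)
    (h : ∀ Q : F[X], Q.Monic → Irreducible Q → ex ℓ Q x = 0) :
    ∃ c : F, c ≠ 0 ∧ ∃ y : RatFunc F, y ≠ 0 ∧ χ.lg c = kap χ x ∧
      x = algebraMap F[X] (RatFunc F) (C c) * y ^ ℓ := by
  have ha : x.num ≠ 0 := RatFunc.num_ne_zero hx
  have hb : x.denom ≠ 0 := x.denom_ne_zero
  have hl1 : 0 < ℓ := hl.out.pos
  have hg : x.num * x.denom ^ (ℓ - 1) ≠ 0 := mul_ne_zero ha (pow_ne_zero _ hb)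
  obtain ⟨c, hc, f, hf, he⟩ := nf_poly (F := F) (ℓ := ℓ) _ _ hg le_rfl (by
    intro Q hQm hQi
    have h1 := h Q hQm hQi
    rw [← ZMod.natCast_eq_zero_iff, multiplicity_mul hQi.prime (nf_fin hQi hg),
      FiniteMultiplicity.multiplicity_pow hQi.prime (nf_fin hQi hb)]
    unfold ex at h1
    push_cast [Nat.cast_sub hl1.nat_succ_le]
    rw [ZMod.natCast_self]
    linear_combination h1)
  have hbR : algebraMap F[X] (RatFunc F) x.denom ≠ 0 := RatFunc.algebraMap_ne_zero hb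
  have hy : algebraMap F[X] (RatFunc F) f / algebraMap F[X] (RatFunc F) x.denom ≠ 0 :=
    div_ne_zero (RatFunc.algebraMap_ne_zero hf) hbR
  have hcR : algebraMap F[X] (RatFunc F) (C c) ≠ 0 := RatFunc.algebraMap_ne_zero (C_ne_zero.2 hc)
  have hxe : x = algebraMap F[X] (RatFunc F) (C c) *
      (algebraMap F[X] (RatFunc F) f / algebraMap F[X] (RatFunc F) x.denom) ^ ℓ := by
    have h2 : algebraMap F[X] (RatFunc F) x.num * algebraMap F[X] (RatFunc F) x.denom ^ (ℓ - 1) =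
        algebraMap F[X] (RatFunc F) (C c) * algebraMap F[X] (RatFunc F) f ^ ℓ := by
      rw [← map_pow, ← map_pow, ← map_mul, ← map_mul, he]
    have h3 : x * algebraMap F[X] (RatFunc F) x.denom = algebraMap F[X] (RatFunc F) x.num := by
      have h4 := RatFunc.num_div_denom x
      rw [div_eq_iff hbR] at h4
      exact h4.symm
    rw [div_pow, ← mul_div_assoc, eq_div_iff (pow_ne_zero _ hbR), ← h2, ← h3, mul_assoc]
    congr 1
    rw [← pow_succ']
    congr 1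
    omega
  refine ⟨c, hc, _, hy, ?_, hxe⟩
  conv_rhs => rw [hxe]
  rw [kap_mul χ hcR (pow_ne_zero _ hy), kap_pow_l χ hy, add_zero, kap_poly χ (C_ne_zero.2 hc),
    leadingCoeff_C]

theorem pow_of_ex_kap {x : RatFunc F} (hx : x ≠ 0)
    (h : ∀ Q : F[X], Q.Monic → Irreducible Q → ex ℓ Q x = 0) (hk : kap χ x = 0) :
    ∃ y : RatFunc F, y ≠ 0 ∧ x = y ^ ℓ := by
  obtain ⟨c, hc, y, hy, h1, h2⟩ := pow_of_ex χ hx h
  rw [hk] at h1
  obtain ⟨d, hd, rfl⟩ := χ.ker hc h1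
  refine ⟨algebraMap F[X] (RatFunc F) (C d) * y,
    mul_ne_zero (RatFunc.algebraMap_ne_zero (C_ne_zero.2 hd)) hy, ?_⟩
  rw [h2, C_pow, map_pow, mul_pow]

private theorem nf_ex_self {Q : F[X]} (hQ : Irreducible Q) (n : ℕ) :
    ex ℓ Q (algebraMap F[X] (RatFunc F) (Q ^ n)) = n := by
  rw [map_pow, ex_pow hQ (RatFunc.algebraMap_ne_zero hQ.ne_zero),
    ex_of_dvd_sqf hQ dvd_rfl hQ.squarefree, mul_one]

private theorem nf_ex_ne {P Q : F[X]} (hP : P.Monic) (hPi : Irreducible P) (hQ : Q.Monic)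
    (hQi : Irreducible Q) (hne : P ≠ Q) (n : ℕ) :
    ex ℓ P (algebraMap F[X] (RatFunc F) (Q ^ n)) = 0 := by
  rw [map_pow, ex_pow hPi (RatFunc.algebraMap_ne_zero hQi.ne_zero), ex_of_not_dvd hPi, mul_zero]
  intro hd
  exact hne (eq_of_monic_of_associated hP hQ (hPi.associated_of_dvd hQi hd))

theorem normal_form {x : RatFunc F} (hx : x ≠ 0) (T : Finset F[X])
    (hT : ∀ Q ∈ T, Q.Monic ∧ Irreducible Q)
    (h : ∀ Q : F[X], Q.Monic → Irreducible Q → Q ∉ T → ex ℓ Q x = 0) :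
    ∃ c : F, c ≠ 0 ∧ ∃ y : RatFunc F, y ≠ 0 ∧ χ.lg c = kap χ x ∧
      x = algebraMap F[X] (RatFunc F) (C c * ∏ Q ∈ T, Q ^ (ex ℓ Q x).val) * y ^ ℓ := by
  classical
  have hm : (∏ Q ∈ T, Q ^ (ex ℓ Q x).val).Monic :=
    monic_prod_of_monic _ _ (fun Q hQ => (hT Q hQ).1.pow _)
  have hw : algebraMap F[X] (RatFunc F) (∏ Q ∈ T, Q ^ (ex ℓ Q x).val) ≠ 0 :=
    RatFunc.algebraMap_ne_zero hm.ne_zero
  have hne : ∀ Q ∈ T, algebraMap F[X] (RatFunc F) (Q ^ (ex ℓ Q x).val) ≠ 0 := fun Q hQ =>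
    RatFunc.algebraMap_ne_zero (pow_ne_zero _ (hT Q hQ).2.ne_zero)
  have hex : ∀ P : F[X], P.Monic → Irreducible P →
      ex ℓ P (x / algebraMap F[X] (RatFunc F) (∏ Q ∈ T, Q ^ (ex ℓ Q x).val)) = 0 := by
    intro P hPm hPi
    rw [ex_div hPi hx hw, map_prod, ex_prod hPi _ _ hne]
    by_cases hPT : P ∈ T
    · rw [Finset.sum_eq_single_of_mem P hPT, nf_ex_self hPi, ZMod.natCast_zmod_val, sub_self]
      intro Q hQ hQP
      exact nf_ex_ne hPm hPi (hT Q hQ).1 (hT Q hQ).2 hQP.symm _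
    · rw [h P hPm hPi hPT, zero_sub, neg_eq_zero]
      apply Finset.sum_eq_zero
      intro Q hQ
      apply nf_ex_ne hPm hPi (hT Q hQ).1 (hT Q hQ).2
      rintro rfl
      exact hPT hQ
  obtain ⟨c, hc, y, hy, h1, h2⟩ := pow_of_ex χ (div_ne_zero hx hw) hex
  refine ⟨c, hc, y, hy, ?_, ?_⟩
  · rw [h1, kap_div χ hx hw, kap_poly χ hm.ne_zero, hm.leadingCoeff]
    have h3 := kap_one χ
    have h4 := kap_poly χ (one_ne_zero (α := F[X]))
    rw [map_one, leadingCoeff_one, h3] at h4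
    rw [← h4, sub_zero]
  · rw [map_mul, mul_right_comm, ← h2, div_mul_cancel₀ _ hw]

end Pool.Agent.H94.PL
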