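import Pool.Agent.H94.PL.Cs
import Pool.Agent.H94.PC.MoMod

set_option autoImplicit false

/-!
# [H94 PL NP] The symbol is nontrivial; complete sums
-/

namespace Pool.Agent.H94.PL

open Polynomial
open Pool.Agent.H94.PC (Mo Sq Pr pf om Mn mem_Mo mem_Sq mem_Pr mem_pf mem_pf' Lt mem_Lt card_Lt)

variable {F : Type} [Field F] [Finite F] {ℓ : ℕ} [hl : Fact ℓ.Prime] (χ : LChar F ℓ)

theorem exists_cs_prime {P : F[X]} (hm : P.Monic) (hP : Irreducible P) :
    ∃ A : F[X], cs χ A P = ps (1 : ZMod ℓ) := by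
  obtain ⟨c, hc, hc1⟩ := χ.surj
  have : Fact (Irreducible P) := ⟨hP⟩
  have : FiniteDimensional F (AdjoinRoot P) := (AdjoinRoot.powerBasis hm.ne_zero).finite
  have : Finite (AdjoinRoot P) := Module.finite_of_finite F
  obtain ⟨x, hx⟩ := FiniteField.norm_surjective F (AdjoinRoot P) c
  obtain ⟨A, rfl⟩ := AdjoinRoot.mk_surjective x
  refine ⟨A, ?_⟩
  rw [cs, ← PC.jsN_norm_mk hm A, hx, chc_ne χ hc, hc1]

theorem exists_cs_ne {N : F[X]} (hN : N.Monic) (hs : ¬ ∃ R : F[X], N = R ^ ℓ) :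
    ∃ A : F[X], cs χ A N ≠ 0 ∧ cs χ A N ≠ 1 := by
  obtain ⟨n, hn⟩ : ∃ n, N.natDegree ≤ n := ⟨_, le_rfl⟩
  induction n generalizing N with
  | zero =>
    exfalso
    apply hs
    rw [hN.natDegree_eq_zero.1 (Nat.le_zero.1 hn)]
    exact ⟨1, (one_pow _).symm⟩
  | succ n ih =>
    have hN1 : N ≠ 1 := by
      rintro rfl
      exact hs ⟨1, (one_pow _).symm⟩
    have hu : ¬ IsUnit N := fun h => hN1 (hN.eq_one_of_isUnit h)
    obtain ⟨P, hPm, hPi, hPN⟩ := exists_monic_irreducible_factor N hu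
    have hPp : Prime P := hPi.prime
    have hfm : FiniteMultiplicity P N := FiniteMultiplicity.of_prime_left hPp hN.ne_zero
    obtain ⟨N', h1, h3⟩ := hfm.exists_eq_pow_mul_and_not_dvd
    generalize he : multiplicity P N = e at h1
    have he1 : e ≠ 0 := by
      rintro rfl
      rw [pow_zero, one_mul] at h1
      rw [h1] at hPN
      exact h3 hPN
    have hN'm : N'.Monic := by
      have := hN
      rw [h1] at this
      exact (hPm.pow e).of_mul_monic_left this
    have hPe : 0 < P.natDegree := hPi.natDegree_pos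
    have hdeg : N.natDegree = e * P.natDegree + N'.natDegree := by
      conv_lhs => rw [h1]
      rw [(hPm.pow e).natDegree_mul hN'm, hPm.natDegree_pow]
    have hcop : IsCoprime P N' := (hPi.coprime_iff_not_dvd).2 h3
    obtain ⟨u, v, huv⟩ := hcop
    have key : ∀ ω ω' : F[X], cs χ (ω * (v * N') + ω' * (u * P)) N =
        cs χ ω P ^ e * cs χ ω' N' := by
      intro ω ω'
      conv_lhs => rw [h1]
      rw [cs_mul_right χ _ (hPm.pow e) hN'm, cs_pow_right χ _ hPm]
      congr 1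
      · congr 1
        apply cs_congr χ hPm
        refine ⟨(ω' - ω) * u, ?_⟩
        have : v * N' = 1 - u * P := by rw [← huv]; ring
        rw [this]; ring
      · apply cs_congr χ hN'm
        refine ⟨(ω - ω') * v, ?_⟩
        have : u * P = 1 - v * N' := by rw [← huv]; ring
        rw [this]; ring
    by_cases hle : ℓ ∣ e
    · obtain ⟨k, hk⟩ := hle
      have hs' : ¬ ∃ R : F[X], N' = R ^ ℓ := by
        rintro ⟨r, hr⟩
        apply hs
        refine ⟨P ^ k * r, ?_⟩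
        rw [h1, hr, hk, mul_pow, ← pow_mul, mul_comm k ℓ]
      have hlt : N'.natDegree ≤ n := by
        have h4 : 1 * 1 ≤ e * P.natDegree := Nat.mul_le_mul (Nat.one_le_iff_ne_zero.2 he1) hPe
        omega
      obtain ⟨A', hA0, hA'⟩ := ih hN'm hs' hlt
      refine ⟨1 * (v * N') + A' * (u * P), ?_, ?_⟩
      · rw [key 1 A', cs_one_left χ hPm, one_pow, one_mul]
        exact hA0
      · rw [key 1 A', cs_one_left χ hPm, one_pow, one_mul]
        exact hA'
    · obtain ⟨ω, hω⟩ := exists_cs_prime χ hPm hPi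
      have h5 : cs χ (ω * (v * N') + 1 * (u * P)) N = ps ((e : ℕ) : ZMod ℓ) := by
        rw [key ω 1, cs_one_left χ hN'm, mul_one, hω, ← ps_natCast_mul, mul_one]
      refine ⟨ω * (v * N') + 1 * (u * P), ?_, ?_⟩
      · rw [h5]
        exact ps_ne_zero _
      · rw [h5, Ne, ps_eq_one_iff, ZMod.natCast_eq_zero_iff]
        exact hle

/-- complex version of `sum_Mo_mod` -/
theorem sum_Mo_mod' {N : F[X]} (hN : N.Monic) {m : ℕ} (hm : N.natDegree ≤ m) (φ : F[X] → ℂ) :
    ∑ A ∈ Mo F m, φ A =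
      ∑ h ∈ Mo F (m - N.natDegree), ∑ r ∈ Lt F N.natDegree, φ (N * h + r) := by
  apply Complex.ext
  · rw [Complex.re_sum, PC.sum_Mo_mod hN hm fun A => (φ A).re, Complex.re_sum]
    refine Finset.sum_congr rfl fun h _ => ?_
    rw [Complex.re_sum]
  · rw [Complex.im_sum, PC.sum_Mo_mod hN hm fun A => (φ A).im, Complex.im_sum]
    refine Finset.sum_congr rfl fun h _ => ?_
    rw [Complex.im_sum]

theorem sum_Lt_mul' {N M : F[X]} (hN : N.Monic) (hM : IsCoprime M N) (φ : F[X] → ℂ)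
    (hφ : ∀ A B : F[X], N ∣ A - B → φ A = φ B) :
    ∑ r ∈ Lt F N.natDegree, φ (M * r) = ∑ r ∈ Lt F N.natDegree, φ r := by
  apply Complex.ext
  · rw [Complex.re_sum, Complex.re_sum]
    exact PC.sum_Lt_mul hN hM (fun A => (φ A).re) fun A B h => by rw [hφ A B h]
  · rw [Complex.im_sum, Complex.im_sum]
    exact PC.sum_Lt_mul hN hM (fun A => (φ A).im) fun A B h => by rw [hφ A B h]

theorem sum_cs_Lt {N : F[X]} (hN : N.Monic) (hs : ¬ ∃ R : F[X], N = R ^ ℓ) :
    ∑ r ∈ Lt F N.natDegree, cs χ r N = 0 := by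
  obtain ⟨M, hM0, hM⟩ := exists_cs_ne χ hN hs
  have hc : IsCoprime M N := by
    by_contra h
    exact hM0 (cs_eq_zero χ hN h)
  have h1 := sum_Lt_mul' hN hc (fun A => cs χ A N) (fun A B h => cs_congr χ hN h)
  have h3 : ∑ r ∈ Lt F N.natDegree, cs χ (M * r) N =
      cs χ M N * ∑ r ∈ Lt F N.natDegree, cs χ r N := by
    rw [Finset.mul_sum]
    exact Finset.sum_congr rfl fun r _ => cs_mul_left χ hN M r
  have h4 : ∑ r ∈ Lt F N.natDegree, cs χ (M * r) N = ∑ r ∈ Lt F N.natDegree, cs χ r N := h1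
  rw [h3] at h4
  have h5 : (cs χ M N - 1) * ∑ r ∈ Lt F N.natDegree, cs χ r N = 0 := by
    rw [sub_mul, h4, one_mul, sub_self]
  rcases mul_eq_zero.1 h5 with h6 | h6
  · exact absurd (sub_eq_zero.1 h6) hM
  · exact h6

/-- complete sums vanish -/
theorem sum_cs_right {N : F[X]} (hN : N.Monic) (hs : ¬ ∃ R : F[X], N = R ^ ℓ) {m : ℕ}
    (hm : N.natDegree ≤ m) : ∑ A ∈ Mo F m, cs χ A N = 0 := by
  rw [sum_Mo_mod' hN hm (fun A => cs χ A N)]
  refine Finset.sum_eq_zero fun h _ => ?_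
  rw [← sum_cs_Lt χ hN hs]
  refine Finset.sum_congr rfl fun r _ => ?_
  refine cs_congr χ hN ⟨h, ?_⟩
  ring

theorem sum_cs_left (h2 : ℓ ≠ 2) {N : F[X]} (hN : N.Monic) (hs : ¬ ∃ R : F[X], N = R ^ ℓ)
    {m : ℕ} (hm : N.natDegree ≤ m) : ∑ A ∈ Mo F m, cs χ N A = 0 := by
  rw [← sum_cs_right χ hN hs hm]
  exact Finset.sum_congr rfl fun A _ => cs_recip χ h2 N A

end Pool.Agent.H94.PL
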