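import Pool.Agent.H94.PL.Cmp
import Pool.Agent.H94.PC.PSTheta

set_option autoImplicit false

/-!
# [H94 PL PSR] `∑ (1 + Re θ(P)) / |P|` over the primes of degree at most `m`

Adapt `PC/PSTheta.lean` (`prod_T_le`, `PS_theta`).  `q = Nat.card F ≥ 2`, `m ≥ 1`, `r = m / (m + 1)`,
`x = r / q`, `g P = 2 + 2 Re θ P ∈ [0, 4]` for monic `P`, `u(P) = g P * x ^ deg P`,
`T = ⋃ (d ∈ Icc 1 m), Pr d`.
1. `∏ P ∈ T, (1 + u P) ≤ ∑ j ∈ range (J + 1), SS g j * x ^ j ≤ K ^ 2 ∑ j, (j + 1) r ^ j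
   ≤ K ^ 2 / (1 - r) ^ 2 = K ^ 2 (m + 1) ^ 2` (`cmp`).
2. `∑ P ∈ T, (u P - u P ^ 2 / 2) ≤ 2 log K + 2 log (m + 1)`, and
   `∑ P ∈ T, u P ^ 2 / 2 ≤ ∑ d, q ^ d * 8 / q ^ (2 d) ≤ 8`.
3. `∑ P ∈ T, g P / |P| - ∑ P ∈ T, u P ≤ ∑ d, #(Pr d) * 4 / q ^ d * (1 - r ^ d) ≤ 4`.
4. so `2 PS (1 + Re θ) m = PS g m ≤ 2 log K + 2 log (m + 1) + 12`, and
   `log (m + 1) ≤ log m + 1`: `PS (1 + Re θ) m ≤ log m + log K + 7`.
(there is room in the constant 8.)
-/

namespace Pool.Agent.H94.PL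

open Polynomial
open Pool.Agent.H94.PC (Mo Sq Pr pf om Mn mem_Mo mem_Sq mem_Pr mem_pf mem_pf' SS PS
  pf_prod_irr monic_prod_irr squarefree_prod_irr natDegree_prod_pf log_one_add_ge card_Pr_le
  card_Pr_le_div one_sub_pow_le)

variable {F : Type} [Field F] [Finite F]

theorem psr_geom (r : ℝ) (hr0 : 0 ≤ r) (hr1 : r ≤ 1) (n : ℕ) :
    (∑ j ∈ Finset.range n, ((j : ℝ) + 1) * r ^ j) * (1 - r) ^ 2 ≤ 1 := by
  have h : (∑ j ∈ Finset.range n, ((j : ℝ) + 1) * r ^ j) * (1 - r) ^ 2 =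
      1 - ((n : ℝ) + 1) * r ^ n + n * r ^ (n + 1) := by
    induction n with
    | zero => simp
    | succ n ih =>
      rw [Finset.sum_range_succ, add_mul, ih, Nat.cast_succ]
      ring
  rw [h]
  have h1 : r ^ (n + 1) ≤ r ^ n := by
    rw [pow_succ]
    exact mul_le_of_le_one_right (pow_nonneg hr0 n) hr1
  have h2 : (n : ℝ) * r ^ (n + 1) ≤ n * r ^ n := mul_le_mul_of_nonneg_left h1 (Nat.cast_nonneg n)
  have h3 : 0 ≤ r ^ n := pow_nonneg hr0 n
  linarith

/-- the product over the primes is at most the sum over the squarefree polynomials -/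
theorem psr_prod {g : F[X] → ℝ} (hg0 : ∀ P : F[X], P.Monic → 0 ≤ g P) (K : ℝ)
    (hS : ∀ j : ℕ, SS g j ≤ (j + 1) * K ^ 2 * (Nat.card F : ℝ) ^ j)
    (T : Finset F[X]) (hT : ∀ P ∈ T, P.Monic ∧ Irreducible P) (r : ℝ) (hr0 : 0 ≤ r)
    (hr1 : r < 1) :
    ∏ P ∈ T, (1 + g P * (r / (Nat.card F : ℝ)) ^ P.natDegree) ≤ K ^ 2 / (1 - r) ^ 2 := by
  classical
  have hq : (0 : ℝ) < (Nat.card F : ℝ) := by
    have : 0 < Nat.card F := Nat.card_pos
    exact_mod_cast this
  set q : ℝ := (Nat.card F : ℝ) with hqd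
  set x : ℝ := r / q with hx
  have hx0 : 0 ≤ x := by positivity
  set u : F[X] → ℝ := fun P => g P * x ^ P.natDegree with hu
  set G : F[X] → ℝ := fun D => ∏ P ∈ pf D, u P with hG
  have hu0 : ∀ P : F[X], P.Monic → 0 ≤ u P := fun P hP =>
    mul_nonneg (hg0 P hP) (pow_nonneg hx0 _)
  have hG0 : ∀ D, 0 ≤ G D := fun D =>
    Finset.prod_nonneg fun P hP => hu0 P (mem_pf' hP).1
  set J : ℕ := ∑ P ∈ T, P.natDegree with hJ
  set U : Finset F[X] := (Finset.range (J + 1)).biUnion fun j => Sq F j with hU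
  have hsub : ∀ s ∈ T.powerset, ∀ P ∈ s, P.Monic ∧ Irreducible P := fun s hs P hP =>
    hT P (Finset.mem_powerset.1 hs hP)
  have e1 : ∏ P ∈ T, (1 + u P) = ∑ s ∈ T.powerset, G (∏ P ∈ s, P) := by
    rw [Finset.prod_one_add]
    refine Finset.sum_congr rfl fun s hs => ?_
    show ∏ P ∈ s, u P = ∏ P ∈ pf (∏ P ∈ s, P), u P
    rw [pf_prod_irr s (hsub s hs)]
  have e2 : ∑ s ∈ T.powerset, G (∏ P ∈ s, P) =
      ∑ D ∈ T.powerset.image (fun s => ∏ P ∈ s, P), G D := by
    rw [Finset.sum_image]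
    intro s hs t ht hst
    have h1 := pf_prod_irr s (hsub s hs)
    have h2 := pf_prod_irr t (hsub t ht)
    have hst' : ∏ P ∈ s, P = ∏ P ∈ t, P := hst
    rw [← h1, ← h2, hst']
  have e3 : T.powerset.image (fun s => ∏ P ∈ s, P) ⊆ U := by
    intro D hD
    obtain ⟨s, hs, rfl⟩ := Finset.mem_image.1 hD
    have hm := monic_prod_irr s (hsub s hs)
    have hsq := squarefree_prod_irr s (hsub s hs)
    have hpf := pf_prod_irr s (hsub s hs)
    have hdeg := natDegree_prod_pf hm hsq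
    rw [hpf] at hdeg
    rw [hU, Finset.mem_biUnion]
    refine ⟨(∏ P ∈ s, P).natDegree, ?_, mem_Sq.2 ⟨hm, rfl, hsq⟩⟩
    rw [Finset.mem_range, ← hdeg]
    have : ∑ P ∈ s, P.natDegree ≤ J :=
      Finset.sum_le_sum_of_subset (Finset.mem_powerset.1 hs)
    omega
  have e4 : ∑ D ∈ U, G D = ∑ j ∈ Finset.range (J + 1), ∑ D ∈ Sq F j, G D := by
    rw [hU, Finset.sum_biUnion]
    intro i _ j _ hij
    rw [Function.onFun, Finset.disjoint_left]
    intro D hD hD'
    exact hij ((mem_Sq.1 hD).2.1.symm.trans (mem_Sq.1 hD').2.1)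
  have e5 : ∀ j, ∑ D ∈ Sq F j, G D = SS g j * x ^ j := by
    intro j
    rw [SS, Finset.sum_mul]
    refine Finset.sum_congr rfl fun D hD => ?_
    obtain ⟨h1, h2, h3⟩ := mem_Sq.1 hD
    show ∏ P ∈ pf D, (g P * x ^ P.natDegree) = _
    rw [Finset.prod_mul_distrib, Finset.prod_pow_eq_pow_sum, natDegree_prod_pf h1 h3, h2]
  have e6 : ∀ j : ℕ, SS g j * x ^ j ≤ K ^ 2 * (((j : ℝ) + 1) * r ^ j) := by
    intro j
    have h := hS j
    calc SS g j * x ^ j ≤ ((j + 1) * K ^ 2 * q ^ j) * x ^ j :=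
          mul_le_mul_of_nonneg_right h (pow_nonneg hx0 _)
      _ = K ^ 2 * (((j : ℝ) + 1) * (q * x) ^ j) := by rw [mul_pow]; ring
      _ = K ^ 2 * (((j : ℝ) + 1) * r ^ j) := by
          congr 3
          rw [hx]
          field_simp
  have e7 : ∑ j ∈ Finset.range (J + 1), K ^ 2 * (((j : ℝ) + 1) * r ^ j) ≤ K ^ 2 / (1 - r) ^ 2 := by
    have h1 : 0 < (1 - r) ^ 2 := by
      have : 0 < 1 - r := by linarith
      positivity
    rw [← Finset.mul_sum, le_div_iff₀ h1, mul_assoc]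
    have h := psr_geom r hr0 hr1.le (J + 1)
    have h2 : 0 ≤ K ^ 2 := sq_nonneg K
    calc K ^ 2 * ((∑ j ∈ Finset.range (J + 1), ((j : ℝ) + 1) * r ^ j) * (1 - r) ^ 2) ≤ K ^ 2 * 1 :=
          mul_le_mul_of_nonneg_left h h2
      _ = K ^ 2 := mul_one _
  calc ∏ P ∈ T, (1 + u P) = ∑ D ∈ T.powerset.image (fun s => ∏ P ∈ s, P), G D := by
        rw [e1, e2]
    _ ≤ ∑ D ∈ U, G D := Finset.sum_le_sum_of_subset_of_nonneg e3 fun D _ _ => hG0 D
    _ = ∑ j ∈ Finset.range (J + 1), SS g j * x ^ j := by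
        rw [e4]
        exact Finset.sum_congr rfl fun j _ => e5 j
    _ ≤ ∑ j ∈ Finset.range (J + 1), K ^ 2 * (((j : ℝ) + 1) * r ^ j) :=
        Finset.sum_le_sum fun j _ => e6 j
    _ ≤ K ^ 2 / (1 - r) ^ 2 := e7

theorem psr_main {g : F[X] → ℝ} (hg0 : ∀ P : F[X], P.Monic → 0 ≤ g P)
    (hg4 : ∀ P : F[X], P.Monic → g P ≤ 4) (K : ℝ) (hK1 : 1 ≤ K)
    (hS : ∀ j : ℕ, SS g j ≤ (j + 1) * K ^ 2 * (Nat.card F : ℝ) ^ j)
    (m : ℕ) (hm : 1 ≤ m) :
    PS g m ≤ 2 * (Real.log m + Real.log K + 1) + 12 := by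
  classical
  have hq2 : (2 : ℝ) ≤ (Nat.card F : ℝ) := by
    have : 2 ≤ Nat.card F := Finite.one_lt_card
    exact_mod_cast this
  have hm0 : (1 : ℝ) ≤ m := by exact_mod_cast hm
  set T : Finset F[X] := (Finset.Icc 1 m).biUnion fun d => Pr F d with hT
  have hTir : ∀ P ∈ T, P.Monic ∧ Irreducible P := by
    intro P hP
    rw [hT, Finset.mem_biUnion] at hP
    obtain ⟨d, _, h⟩ := hP
    have h' := mem_Pr.1 h
    exact ⟨h'.1, h'.2.2⟩
  have hTsum : ∀ f : F[X] → ℝ, ∑ P ∈ T, f P =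
      ∑ d ∈ Finset.Icc 1 m, ∑ P ∈ Pr F d, f P := by
    intro f
    rw [hT, Finset.sum_biUnion]
    intro i _ j _ hij
    rw [Function.onFun, Finset.disjoint_left]
    intro D hD hD'
    exact hij ((mem_Pr.1 hD).2.1.symm.trans (mem_Pr.1 hD').2.1)
  set r : ℝ := (m : ℝ) / (m + 1) with hr
  have hr0 : 0 ≤ r := by positivity
  have hr1' : 1 - r = 1 / ((m : ℝ) + 1) := by
    rw [hr]
    field_simp
    ring
  have hr1 : r < 1 := by
    have : 0 < 1 - r := by
      rw [hr1']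
      positivity
    linarith
  have hprod := psr_prod hg0 K hS T hTir r hr0 hr1
  set q : ℝ := (Nat.card F : ℝ) with hqd
  have hq0 : 0 < q := by linarith
  have hq1 : q⁻¹ ≤ 1 / 2 := by
    rw [inv_le_comm₀ hq0 (by norm_num)]
    linarith
  set u : F[X] → ℝ := fun P => g P * (r / q) ^ P.natDegree with hu
  have hu0 : ∀ P : F[X], P.Monic → 0 ≤ u P := fun P hP =>
    mul_nonneg (hg0 P hP) (by positivity)
  have hK2 : K ^ 2 / (1 - r) ^ 2 = (K * (m + 1)) ^ 2 := by
    rw [hr1']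
    field_simp
  -- step 2
  have s1 : ∑ P ∈ T, (u P - u P ^ 2 / 2) ≤ 2 * Real.log (K * (m + 1)) := by
    calc ∑ P ∈ T, (u P - u P ^ 2 / 2) ≤ ∑ P ∈ T, Real.log (1 + u P) :=
          Finset.sum_le_sum fun P hP => log_one_add_ge (hu0 P (hTir P hP).1)
      _ = Real.log (∏ P ∈ T, (1 + u P)) := by
          rw [Real.log_prod]
          intro P hP
          have := hu0 P (hTir P hP).1
          positivity
      _ ≤ Real.log ((K * (m + 1)) ^ 2) := by
          apply Real.log_le_log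
          · apply Finset.prod_pos
            intro P hP
            have := hu0 P (hTir P hP).1
            positivity
          · rw [← hK2]
            exact hprod
      _ = 2 * Real.log (K * (m + 1)) := by
          rw [Real.log_pow]
          norm_num
  have hgeo : ∑ d ∈ Finset.Icc 1 m, (q⁻¹) ^ d ≤ 1 := by
    have a1 : ∑ d ∈ Finset.Icc 1 m, (q⁻¹) ^ d ≤ ∑ d ∈ Finset.Icc 1 m, (1 / 2 : ℝ) ^ d :=
      Finset.sum_le_sum fun d _ => pow_le_pow_left₀ (by positivity) hq1 d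
    have a2 : ∑ d ∈ Finset.Icc 1 m, (1 / 2 : ℝ) ^ d = 1 - (1 / 2) ^ m := by
      clear_value T r q u
      clear a1 s1 hprod hK2 hTsum hTir hT hr hr0 hr1 hr1' hm0 hm
      induction m with
      | zero => simp
      | succ n ih =>
        rw [Finset.sum_Icc_succ_top (by omega), ih, pow_succ]
        ring
    have a3 : (0 : ℝ) ≤ (1 / 2) ^ m := by positivity
    linarith
  have s2 : ∑ P ∈ T, u P ^ 2 / 2 ≤ 8 := by
    rw [hTsum]
    calc ∑ d ∈ Finset.Icc 1 m, ∑ P ∈ Pr F d, u P ^ 2 / 2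
        ≤ ∑ d ∈ Finset.Icc 1 m, 8 * (q⁻¹) ^ d := by
          refine Finset.sum_le_sum fun d _ => ?_
          have b1 : ∀ P ∈ Pr F d, u P ^ 2 / 2 ≤ 8 * ((q⁻¹) ^ d * (q⁻¹) ^ d) := by
            intro P hP
            obtain ⟨p1, p2, p3⟩ := mem_Pr.1 hP
            have c1 : u P ≤ 4 * (q⁻¹) ^ d := by
              show g P * (r / q) ^ P.natDegree ≤ _
              rw [p2]
              apply mul_le_mul (hg4 P p1) _ (by positivity) (by norm_num)
              apply pow_le_pow_left₀ (by positivity)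
              rw [div_eq_mul_inv]
              have : 0 ≤ q⁻¹ := by positivity
              nlinarith
            have c2 := hu0 P p1
            nlinarith
          calc ∑ P ∈ Pr F d, u P ^ 2 / 2 ≤ ∑ P ∈ Pr F d, 8 * ((q⁻¹) ^ d * (q⁻¹) ^ d) :=
                Finset.sum_le_sum b1
            _ = ((Pr F d).card : ℝ) * (8 * ((q⁻¹) ^ d * (q⁻¹) ^ d)) := by
                rw [Finset.sum_const, nsmul_eq_mul]
            _ ≤ q ^ d * (8 * ((q⁻¹) ^ d * (q⁻¹) ^ d)) := by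
                apply mul_le_mul_of_nonneg_right _ (by positivity)
                have := card_Pr_le (F := F) d
                rw [hqd]
                exact_mod_cast this
            _ = 8 * (q⁻¹) ^ d * (q * q⁻¹) ^ d := by
                rw [mul_pow]
                ring
            _ = 8 * (q⁻¹) ^ d := by
                rw [mul_inv_cancel₀ hq0.ne', one_pow, mul_one]
      _ = 8 * ∑ d ∈ Finset.Icc 1 m, (q⁻¹) ^ d := by rw [Finset.mul_sum]
      _ ≤ 8 := by linarith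
  have s3 : ∑ P ∈ T, u P ≤ 2 * Real.log (K * (m + 1)) + 8 := by
    rw [Finset.sum_sub_distrib] at s1
    linarith
  -- step 3
  have s4 : PS g m - ∑ P ∈ T, u P ≤ 4 := by
    rw [hTsum, PS, ← Finset.sum_sub_distrib]
    calc ∑ d ∈ Finset.Icc 1 m, (∑ P ∈ Pr F d, g P / (Nat.card F : ℝ) ^ d -
          ∑ P ∈ Pr F d, u P)
        ≤ ∑ d ∈ Finset.Icc 1 m, 4 * (1 / ((m : ℝ) + 1)) := by
          refine Finset.sum_le_sum fun d hd => ?_
          obtain ⟨d1, d2⟩ := Finset.mem_Icc.1 hd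
          have hd0 : (0 : ℝ) < d := by exact_mod_cast d1
          rw [← Finset.sum_sub_distrib]
          have b1 : ∀ P ∈ Pr F d, g P / (Nat.card F : ℝ) ^ d - u P ≤
              4 * ((q⁻¹) ^ d * (d * (1 / ((m : ℝ) + 1)))) := by
            intro P hP
            obtain ⟨p1, p2, p3⟩ := mem_Pr.1 hP
            have c1 : g P / (Nat.card F : ℝ) ^ d - u P =
                g P * ((q⁻¹) ^ d * (1 - r ^ d)) := by
              show g P / q ^ d - g P * (r / q) ^ P.natDegree = _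
              rw [p2, div_pow, inv_pow]
              ring
            rw [c1]
            have c2 : r ^ d ≤ 1 := pow_le_one₀ hr0 hr1.le
            have c3 := one_sub_pow_le hr0 d
            rw [hr1'] at c3
            apply mul_le_mul (hg4 P p1) _ _ (by norm_num)
            · exact mul_le_mul_of_nonneg_left c3 (by positivity)
            · exact mul_nonneg (by positivity) (by linarith)
          calc _ ≤ ∑ P ∈ Pr F d, 4 * ((q⁻¹) ^ d * (d * (1 / ((m : ℝ) + 1)))) :=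
                Finset.sum_le_sum b1
            _ = ((Pr F d).card : ℝ) * (4 * ((q⁻¹) ^ d * (d * (1 / ((m : ℝ) + 1))))) := by
                rw [Finset.sum_const, nsmul_eq_mul]
            _ ≤ (q ^ d / d) * (4 * ((q⁻¹) ^ d * (d * (1 / ((m : ℝ) + 1))))) :=
                mul_le_mul_of_nonneg_right (card_Pr_le_div d d1) (by positivity)
            _ = (q * q⁻¹) ^ d * (d / d) * (4 * (1 / ((m : ℝ) + 1))) := by
                rw [mul_pow]
                ring
            _ = 4 * (1 / ((m : ℝ) + 1)) := by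
                rw [mul_inv_cancel₀ hq0.ne', one_pow, div_self hd0.ne']
                ring
      _ = m * (4 * (1 / ((m : ℝ) + 1))) := by
          rw [Finset.sum_const, nsmul_eq_mul, Nat.card_Icc]
          simp
      _ ≤ 4 := by
          rw [show (m : ℝ) * (4 * (1 / ((m : ℝ) + 1))) = 4 * m / (m + 1) by ring,
            div_le_iff₀ (by positivity)]
          linarith
  -- step 4
  have s5 : Real.log (K * (m + 1)) ≤ Real.log K + Real.log m + 1 := by
    rw [Real.log_mul (by linarith) (by positivity)]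
    have t1 : Real.log ((m : ℝ) + 1) ≤ Real.log (2 * m) :=
      Real.log_le_log (by positivity) (by linarith)
    rw [Real.log_mul (by norm_num) (by positivity)] at t1
    have t2 := Real.log_two_lt_d9
    linarith
  linarith

theorem ps_re {θ : F[X] → ℂ} (h : CMc θ) (K : ℝ) (hK1 : 1 ≤ K)
    (hK : ∀ j : ℕ, ‖∑ i ∈ Finset.range (j + 1), Bs θ i / (Nat.card F : ℂ) ^ i‖ ≤ K)
    (m : ℕ) (hm : 1 ≤ m) :
    PS (fun P => 1 + (θ P).re) m ≤ Real.log m + Real.log K + 8 := by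
  have hre : ∀ P : F[X], P.Monic → |(θ P).re| ≤ 1 := fun P hP =>
    (Complex.abs_re_le_norm _).trans (h.le P hP)
  have h1 := psr_main (g := fun P => 2 + 2 * (θ P).re)
    (fun P hP => by have := (abs_le.1 (hre P hP)).1; linarith)
    (fun P hP => by have := (abs_le.1 (hre P hP)).2; linarith) K hK1
    (fun j => cmp h K hK j) m hm
  have h2 : PS (fun P => 2 + 2 * (θ P).re) m = 2 * PS (fun P => 1 + (θ P).re) m := by
    unfold PS
    rw [Finset.mul_sum]
    refine Finset.sum_congr rfl fun d _ => ?_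
    rw [Finset.mul_sum]
    refine Finset.sum_congr rfl fun P _ => ?_
    ring
  rw [h2] at h1
  linarith

end Pool.Agent.H94.PL
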