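import Pool.Agent.H94.PL.KDefs
import Pool.Agent.H94.PC.Facs

set_option autoImplicit false

/-!
# [H94 PL TOR] The torsion solutions and the dichotomy

`tor_mem`: `z = torL σ = (-β σ, -B (eps ·) σ, const σ)`.  `EP`: `x Q - x P = 0`, `κ + β (x P) = 0`,
`s v + B (eps v) (x P) = 0`.  `EV`: the two sums over `P` cancel (`hB.symm`), and the rest is
`- (Rel1 v σ) = 0`.  `EI`: `∑ P, deg P • σ = n • σ` (`PC.natDegree_prod_pf`), minus the sum in `Rel2 n σ`.
`dich`: `σ ↦ torL σ` is an additive homomorphism, injective as `pf D` is nonempty (`1 ≤ n`, `D ≠ 1`,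
`PC.exists_mem_pf`), so its range `T` is a subgroup of `KerL` with `card X` elements.  If `T ≠ KerL` then
the index is `≥ ℓ`: the quotient `KerL / T` is a nontrivial group killed by `ℓ` (all groups here are
`ZMod ℓ`-modules: `ℓ • z = 0`), so it has an element of order `ℓ`, `card ≥ ℓ` (`addOrderOf_le_card`,
`AddSubgroup.card_eq_card_quotient_mul_card_addSubgroup`).  All types are finite.
-/

namespace Pool.Agent.H94.PL

open Polynomial
open Pool.Agent.H94.PC (Mo Sq Pr pf om Mn mem_Mo mem_Sq mem_Pr mem_pf mem_pf')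

variable {ℓ : ℕ} [hl : Fact ℓ.Prime] {X : Type} [AddCommGroup X] [Module (ZMod ℓ) X] [Fintype X]
  (B : X →ₗ[ZMod ℓ] X →ₗ[ZMod ℓ] ZMod ℓ)
  {F : Type} [Field F] [Finite F] (χ : LChar F ℓ) {Δ : F[X]}

theorem tor_mem (hB : BGood B) (sy : Sys ℓ X (pf Δ)) (h1 : Rel1 B sy) {n : ℕ}
    (h3 : Rel2 B sy n) {D : F[X]} (hD : D ∈ Cls Δ n) (σ : X) : torL B sy D σ ∈ KerL χ B sy D := by
  obtain ⟨hm, hn, hsq, -⟩ := mem_Cls.1 hD
  rw [mem_KerL]
  refine ⟨fun P => ?_, fun v => ?_, ?_⟩
  · simp only [EP, torL, sub_self, smul_zero, Finset.sum_const_zero, neg_add_cancel, mul_zero,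
      zero_smul, add_zero]
  · have e1 : ∑ P : pf D, B σ (sy.eps v) * lm χ P.1 v.1 =
        B (sy.eps v) σ * ∑ P : pf D, lm χ P.1 v.1 := by
      rw [Finset.mul_sum, hB.symm σ (sy.eps v)]
    have e2 : ∑ v' : pf Δ, sy.rho v v' * -B (sy.eps v') σ =
        -∑ v' : pf Δ, sy.rho v v' * B (sy.eps v') σ := by
      rw [← Finset.sum_neg_distrib]
      exact Finset.sum_congr rfl fun v' _ => mul_neg _ _
    have e3 := h1 v σ
    unfold EV torL
    simp only [map_neg, LinearMap.neg_apply]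
    rw [e1, e2]
    linear_combination -e3
  · have e1 : ∑ P : pf D, (P.1.natDegree : ZMod ℓ) • σ = (n : ZMod ℓ) • σ := by
      rw [← Finset.sum_smul, Finset.sum_coe_sort (pf D) (fun P => (P.natDegree : ZMod ℓ)),
        ← Nat.cast_sum, PC.natDegree_prod_pf hm hsq, hn]
    have e2 : ∑ v : pf Δ, ((v.1.natDegree : ZMod ℓ) * -B (sy.eps v) σ) • sy.eps v =
        -∑ v : pf Δ, ((v.1.natDegree : ZMod ℓ) * B (sy.eps v) σ) • sy.eps v := by
      rw [← Finset.sum_neg_distrib]
      exact Finset.sum_congr rfl fun v' _ => by rw [mul_neg, neg_smul]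
    unfold EI torL
    simp only
    rw [e1, e2, h3 σ, add_neg_cancel]

theorem tors_torL_add (sy : Sys ℓ X (pf Δ)) (D : F[X]) (σ τ : X) :
    torL B sy D (σ + τ) = torL B sy D σ + torL B sy D τ := by
  unfold torL
  refine Prod.ext ?_ (Prod.ext ?_ ?_)
  · simp only [map_add, neg_add, Prod.fst_add]
  · funext v
    simp only [map_add, neg_add, Prod.snd_add, Prod.fst_add, Pi.add_apply]
  · funext P
    simp only [Prod.snd_add, Pi.add_apply]

theorem dichL (hB : BGood B) (sy : Sys ℓ X (pf Δ)) (h1 : Rel1 B sy) {n : ℕ} (hn : 1 ≤ n)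
    (h3 : Rel2 B sy n) {D : F[X]} (hD : D ∈ Cls Δ n) :
    Fintype.card X ≤ Nat.card (KerL χ B sy D) ∧
      ((∀ z ∈ KerL χ B sy D, ∃ σ, z = torL B sy D σ) ∨
        ℓ * Fintype.card X ≤ Nat.card (KerL χ B sy D)) := by
  obtain ⟨hm, hdeg, hsq, -⟩ := mem_Cls.1 hD
  have hD1 : D ≠ 1 := by
    rintro rfl
    rw [natDegree_one] at hdeg
    omega
  obtain ⟨P0, hP0⟩ := PC.exists_mem_pf hm hD1
  have : NeZero ℓ := ⟨hl.out.ne_zero⟩
  have hfin : Finite (Uk ℓ X Δ D) := inferInstance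
  let f : X →+ KerL χ B sy D := AddMonoidHom.mk' (fun σ => ⟨torL B sy D σ, tor_mem B χ hB sy h1 h3 hD σ⟩)
    fun σ τ => Subtype.ext (tors_torL_add B sy D σ τ)
  have hf : Function.Injective f := by
    intro σ τ h
    have h2 : torL B sy D σ = torL B sy D τ := congrArg Subtype.val h
    have h4 := congrFun (congrArg (fun z : Uk ℓ X Δ D => z.2.2) h2) ⟨P0, hP0⟩
    exact h4
  have hT : Nat.card f.range = Fintype.card X := by
    rw [← Nat.card_eq_fintype_card]
    exact (Nat.card_congr (AddMonoidHom.ofInjective hf).toEquiv).symm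
  have hcard := AddSubgroup.card_eq_card_quotient_mul_card_addSubgroup f.range
  rw [hT] at hcard
  have hfq : Finite (KerL χ B sy D ⧸ f.range) := inferInstance
  have hpos : 0 < Nat.card (KerL χ B sy D ⧸ f.range) := Nat.card_pos
  refine ⟨?_, ?_⟩
  · rw [hcard]
    exact Nat.le_mul_of_pos_left _ hpos
  · by_cases hz : ∀ z ∈ KerL χ B sy D, ∃ σ, z = torL B sy D σ
    · exact Or.inl hz
    · right
      push Not at hz
      obtain ⟨z, hz1, hz2⟩ := hz
      have hne : ((⟨z, hz1⟩ : KerL χ B sy D) : KerL χ B sy D ⧸ f.range) ≠ 0 := by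
        intro h
        rw [QuotientAddGroup.eq_zero_iff] at h
        obtain ⟨σ, hσ⟩ := h
        exact hz2 σ (congrArg Subtype.val hσ).symm
      have hl0 : ℓ • ((⟨z, hz1⟩ : KerL χ B sy D) : KerL χ B sy D ⧸ f.range) = 0 := by
        have h5 : ℓ • (⟨z, hz1⟩ : KerL χ B sy D) = 0 := by
          apply Subtype.ext
          change ℓ • z = 0
          rw [← Nat.cast_smul_eq_nsmul (ZMod ℓ), CharP.cast_eq_zero, zero_smul]
        rw [← QuotientAddGroup.mk_nsmul, h5, QuotientAddGroup.mk_zero]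
      have ho := addOrderOf_eq_prime hl0 hne
      have hle : ℓ ≤ Nat.card (KerL χ B sy D ⧸ f.range) := by
        conv_lhs => rw [← ho]
        exact addOrderOf_le_card
      rw [hcard]
      exact Nat.mul_le_mul_right _ hle

end Pool.Agent.H94.PL
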