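import Pool.Agent.H94.PL.Avg
import Pool.Agent.H94.PL.Tors
import Pool.Agent.H94.PL.CardCls

set_option autoImplicit false

/-!
# [H94 PL PRO] The proportion

`N = card X`, `c = #(Cls Δ n)`, `T` = number of `D` with only torsion solutions, `E = c - T`.  By `dichL`,
`∑ card Ker ≥ N T + ℓ N E = N c + (ℓ - 1) N E`; by `avgL` with `ε' = ε κ N (ℓ - 1)` it is
`≤ 2 N c + ε' q ^ n ≤ 2 N c + ε N (ℓ - 1) c` (`card_Cls_ge`: `κ q ^ n ≤ c`).  So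
`(ℓ - 1) E ≤ c + ε (ℓ - 1) c`, `E ≤ c / (ℓ - 1) + ε c`, `T ≥ (1 - 1 / (ℓ - 1) - ε) c`.
`q ≥ 4` because `ℓ ≥ 3` divides `q - 1` and `q > 1` (`hq` is given).
-/

namespace Pool.Agent.H94.PL

open Polynomial
open Pool.Agent.H94.PC (Mo Sq Pr pf om Mn mem_Mo mem_Sq mem_Pr mem_pf mem_pf')

variable {ℓ : ℕ} [hl : Fact ℓ.Prime] {X : Type} [AddCommGroup X] [Module (ZMod ℓ) X] [Fintype X]
  (B : X →ₗ[ZMod ℓ] X →ₗ[ZMod ℓ] ZMod ℓ)
  {F : Type} [Field F] [Finite F] (χ : LChar F ℓ) {Δ : F[X]}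

open Classical in
theorem propL (h2 : ℓ ≠ 2) (hq : 4 ≤ Nat.card F) (hB : BGood B) (sy : Sys ℓ X (pf Δ))
    (hs : sy.Good B) (hΔ : Δ ≠ 0) (h1 : Rel1 B sy) (ε : ℝ) (hε : 0 < ε) :
    ∃ κ : ℝ, 0 < κ ∧ ∃ n₀ : ℕ, ∀ n : ℕ, n₀ ≤ n → Rel2 B sy n →
      κ * (Nat.card F : ℝ) ^ n ≤ ((Cls Δ n).card : ℝ) ∧
      (1 - 1 / ((ℓ : ℝ) - 1) - ε) * ((Cls Δ n).card : ℝ) ≤
        (((Cls Δ n).filter fun D => ∀ z ∈ KerL χ B sy D, ∃ σ, z = torL B sy D σ).card : ℝ) := by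
  obtain ⟨κ, hκ, n₁, hn₁⟩ := card_Cls_ge (F := F) hq Δ hΔ
  have hN : (0 : ℝ) < (Fintype.card X : ℝ) := by
    have h0 : 0 < Fintype.card X := Fintype.card_pos_iff.2 ⟨0⟩
    exact_mod_cast h0
  have hl3 : (3 : ℝ) ≤ (ℓ : ℝ) := by
    have h0 : 2 ≤ ℓ := hl.out.two_le
    have h3 : 3 ≤ ℓ := by omega
    exact_mod_cast h3
  have hl1 : (0 : ℝ) < (ℓ : ℝ) - 1 := by linarith
  obtain ⟨n₂, hn₂⟩ := avgL B χ h2 hB sy hs hΔ
    (ε * κ * (Fintype.card X : ℝ) * ((ℓ : ℝ) - 1)) (by positivity)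
  refine ⟨κ, hκ, max (max n₁ n₂) 1, ?_⟩
  intro n hn hr
  have hna : n₁ ≤ n := (le_max_left _ _).trans ((le_max_left _ _).trans hn)
  have hnb : n₂ ≤ n := (le_max_right _ _).trans ((le_max_left _ _).trans hn)
  have hnc : 1 ≤ n := (le_max_right _ _).trans hn
  refine ⟨hn₁ n hna, ?_⟩
  have hA := hn₂ n hnb
  have hK := hn₁ n hna
  have hlow : ((((Cls Δ n).filter fun D => ∀ z ∈ KerL χ B sy D, ∃ σ, z = torL B sy D σ).card : ℝ)) *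
        (Fintype.card X : ℝ) +
      ((((Cls Δ n).filter fun D => ¬ ∀ z ∈ KerL χ B sy D, ∃ σ, z = torL B sy D σ).card : ℝ)) *
        ((ℓ : ℝ) * (Fintype.card X : ℝ)) ≤
      ∑ D ∈ Cls Δ n, (Nat.card (KerL χ B sy D) : ℝ) := by
    have h5 := Finset.sum_filter_add_sum_filter_not (Cls Δ n)
      (fun D => ∀ z ∈ KerL χ B sy D, ∃ σ, z = torL B sy D σ)
      (fun D => (Nat.card (KerL χ B sy D) : ℝ))
    rw [← h5]
    refine add_le_add ?_ ?_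
    · rw [← nsmul_eq_mul]
      refine Finset.card_nsmul_le_sum _ _ _ ?_
      intro D hD
      obtain ⟨h6, h7⟩ := dichL B χ hB sy h1 hnc hr (Finset.mem_filter.1 hD).1
      exact_mod_cast h6
    · rw [← nsmul_eq_mul]
      refine Finset.card_nsmul_le_sum _ _ _ ?_
      intro D hD
      obtain ⟨h6, h7⟩ := dichL B χ hB sy h1 hnc hr (Finset.mem_filter.1 hD).1
      rcases h7 with h9 | h9
      · exact absurd h9 (Finset.mem_filter.1 hD).2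
      · exact_mod_cast h9
  have hcard : ((((Cls Δ n).filter fun D => ∀ z ∈ KerL χ B sy D, ∃ σ, z = torL B sy D σ).card : ℝ)) +
      ((((Cls Δ n).filter fun D => ¬ ∀ z ∈ KerL χ B sy D, ∃ σ, z = torL B sy D σ).card : ℝ)) =
      ((Cls Δ n).card : ℝ) := by
    have h6 := Finset.card_filter_add_card_filter_not (s := Cls Δ n)
      (fun D => ∀ z ∈ KerL χ B sy D, ∃ σ, z = torL B sy D σ)
    exact_mod_cast h6
  generalize ((((Cls Δ n).filter fun D => ∀ z ∈ KerL χ B sy D, ∃ σ, z = torL B sy D σ).card : ℝ)) =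
    T at hlow hcard ⊢
  generalize ((((Cls Δ n).filter fun D => ¬ ∀ z ∈ KerL χ B sy D, ∃ σ, z = torL B sy D σ).card : ℝ)) =
    E at hlow hcard
  generalize ((Cls Δ n).card : ℝ) = c at hlow hcard hA hK ⊢
  generalize (Fintype.card X : ℝ) = N at hlow hA hN
  generalize (Nat.card F : ℝ) ^ n = Q at hA hK
  have h7 : ε * κ * N * ((ℓ : ℝ) - 1) * Q ≤ ε * N * ((ℓ : ℝ) - 1) * c := by
    have h8 : 0 ≤ ε * N * ((ℓ : ℝ) - 1) := by positivity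
    calc ε * κ * N * ((ℓ : ℝ) - 1) * Q = ε * N * ((ℓ : ℝ) - 1) * (κ * Q) := by ring
      _ ≤ ε * N * ((ℓ : ℝ) - 1) * c := mul_le_mul_of_nonneg_left hK h8
  have h9 : N * (((ℓ : ℝ) - 1) * E) ≤ N * (c + ε * ((ℓ : ℝ) - 1) * c) := by
    have h10 := hlow.trans hA
    nlinarith [h10, h7, hcard]
  have h11 : ((ℓ : ℝ) - 1) * E ≤ c + ε * ((ℓ : ℝ) - 1) * c := le_of_mul_le_mul_left h9 hN
  have h12 : E ≤ c / ((ℓ : ℝ) - 1) + ε * c := by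
    rw [← sub_nonneg] at h11 ⊢
    have h13 : c / ((ℓ : ℝ) - 1) + ε * c - E =
        (c + ε * ((ℓ : ℝ) - 1) * c - ((ℓ : ℝ) - 1) * E) / ((ℓ : ℝ) - 1) := by
      field_simp
    rw [h13]
    exact div_nonneg h11 hl1.le
  have h14 : (1 - 1 / ((ℓ : ℝ) - 1) - ε) * c = c - (c / ((ℓ : ℝ) - 1) + ε * c) := by ring
  rw [h14]
  linarith

end Pool.Agent.H94.PL
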