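import Pool.Agent.H94.PL.Wsp
import Pool.Agent.H94.PL.Inn
import Pool.Agent.H94.PL.Few

set_option autoImplicit false

/-!
# [H94 PL RB] The inner sums for fixed small variables

`U` unlinked with `N = C.N` elements, `y` with all `deg y_w < z`, `2 (|V| + 1) z ≤ n`.
By `wl_split` the sum over `x` is `0` or `(1/N)^(om ∏ y) * c` times the sum of `inn_one` / `inn_two`
with `κ = {u // u ∈ U}` (`Fintype.card κ = N`), `G = Gy Δ y`, `e = ey C g U`,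
`S = Cls (Δ * ∏ y) (n - deg ∏ y)`.

`rb_one` (all `y_w = 1`): `om 1 = 0`, `S = Cls Δ n`, `inn_one`.

`rb_two`: `y_w ≠ 1` for some `w`, or `(b, g)` is not constant on `U`.  If `y_w ≠ 1`: `hC.nonconst`
gives `u, u' ∈ U` with `C.lk u w ≠ C.lk u' w`, so the exponents at `inr w` differ.  If `(b, g)` is
not constant on `U`: `b u ≠ b u'`, or `g u v ≠ g u' v` and `v ≠ 1` (irreducible).
The `Gy Δ y` are monic squarefree; pairwise coprime: the `v` are different monic irreducibles, the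
`y_w` are coprime to each other and to `Δ` because `∏ y ∈ Cls Δ _` (otherwise the sum is `0`).
`∑ deg (Gy Δ y) ≤ deg Δ + |V| z` (`∑ v ∈ pf Δ, deg v ≤ deg Δ`: `∏ v ∣ Δ`), so with `e = deg ∏ y ≤ |V| z ≤ n / 2`
and `n - e ≥ n / 2` (`2 ^ (1/(2N)) ≤ 2`, `(a)^(1/(2N)) ≤ a` for `a ≥ 1`)
the bound is `(1/N)^(om ∏ y) * 60 q^(n-e) * 2 n^(-1/(2N)) * (2 ℓ (deg Δ + |V| z) + Kc ℓ)
≤ Cb * z * q^n n^(-1/(2N)) * ∏ wl N (y_w)` with `Cb = 120 * (2 ℓ (deg Δ + |V|) + Kc ℓ)` (`z ≥ 1`).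
-/

namespace Pool.Agent.H94.PL

open Polynomial
open Pool.Agent.H94.PC (Mo Sq Pr pf om Mn mem_Mo mem_Sq mem_Pr mem_pf mem_pf')

variable {F : Type} [Field F] [Finite F] {ℓ : ℕ} [hl : Fact ℓ.Prime]
  {V : Type} [Fintype V] [DecidableEq V]

/-- a constant -/
noncomputable def Cb (ℓ : ℕ) [NeZero ℓ] (V : Type) [Fintype V] (Δ : F[X]) : ℝ :=
  120 * (2 * ℓ * (Δ.natDegree + Fintype.card V) + Kc ℓ)

open Classical in
/-- the sum over the large variables -/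
theorem rb_sum (χ : LChar F ℓ) (h2 : ℓ ≠ 2) (C : CD V ℓ) (hC : C.Good) (Δ : F[X])
    (hΔ : Δ ≠ 0) (b : V → ZMod ℓ) (g : V → pf Δ → ZMod ℓ) (U : Finset V) (hU : C.Unl U)
    (hcard : U.card = C.N) (n : ℕ) (y : {w // w ∉ U} → Mn F n) :
    ‖∑ x : {u // u ∈ U} → Mn F n, WL χ C Δ b g n (mgU U x y)‖ ≤
      if (∏ w, (y w).1) ∈ Cls Δ (∏ w, (y w).1).natDegree ∧ (∏ w, (y w).1).natDegree ≤ n then
        (1 / (C.N : ℝ)) ^ om (∏ w, (y w).1) *
        ‖∑ x : {u // u ∈ U} → Mn F n, (if (∏ u, (x u).1) ∈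
            Cls (Δ * ∏ w, (y w).1) (n - (∏ w, (y w).1).natDegree) then
          (1 / (Fintype.card {u // u ∈ U} : ℂ)) ^ om (∏ u, (x u).1) *
            ∏ u : {u // u ∈ U}, thc χ (b u.1) (Gy Δ y) (ey C g U u.1) (x u).1 else 0)‖
      else 0 := by
  have hN : (Fintype.card {u // u ∈ U} : ℂ) = (C.N : ℂ) := by
    rw [Fintype.card_coe, hcard]
  rw [hN]
  obtain ⟨c, hc, hsplit⟩ := wl_split χ h2 C hC Δ hΔ b g U hU n y
  split_ifs with hcond
  · have h1 : ∑ x : {u // u ∈ U} → Mn F n, WL χ C Δ b g n (mgU U x y) =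
        ((1 / (C.N : ℂ)) ^ om (∏ w, (y w).1) * c) *
        ∑ x : {u // u ∈ U} → Mn F n, (if (∏ u, (x u).1) ∈
            Cls (Δ * ∏ w, (y w).1) (n - (∏ w, (y w).1).natDegree) then
          (1 / (C.N : ℂ)) ^ om (∏ u, (x u).1) *
            ∏ u : {u // u ∈ U}, thc χ (b u.1) (Gy Δ y) (ey C g U u.1) (x u).1 else 0) := by
      rw [Finset.mul_sum]
      refine Finset.sum_congr rfl fun x _ => ?_
      rw [hsplit x]
      by_cases hx : (∏ u, (x u).1) ∈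
            Cls (Δ * ∏ w, (y w).1) (n - (∏ w, (y w).1).natDegree)
      · rw [if_pos ⟨hcond, hx⟩, if_pos hx]
      · rw [if_neg fun h => hx h.2, if_neg hx, mul_zero]
    rw [h1, norm_mul, norm_mul, norm_pow, norm_div, norm_one, Complex.norm_natCast]
    refine mul_le_mul_of_nonneg_right ?_ (norm_nonneg _)
    exact mul_le_of_le_one_right (by positivity) hc
  · rw [Finset.sum_eq_zero fun x _ => ?_, norm_zero]
    rw [hsplit x, if_neg fun h => hcond h.1]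

theorem rb_pfdeg {Δ : F[X]} (hΔ : Δ ≠ 0) : ∑ v : pf Δ, (v.1.natDegree : ℝ) ≤ Δ.natDegree := by
  have h1 : ∑ v : pf Δ, (v.1.natDegree : ℝ) = ((∏ v ∈ pf Δ, v).natDegree : ℝ) := by
    rw [natDegree_prod_of_monic _ _ fun v hv => (mem_pf' hv).1]
    rw [Finset.sum_coe_sort (pf Δ) (fun v => (v.natDegree : ℝ))]
    push_cast
    rfl
  rw [h1]
  have h3 : (∏ v ∈ pf Δ, v) ∣ Δ := by
    apply Finset.prod_dvd_of_coprime
    · intro v hv w hw hne
      have hv' := mem_pf' (Finset.mem_coe.1 hv)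
      have hw' := mem_pf' (Finset.mem_coe.1 hw)
      exact PC.isCoprime_irr hv'.1 hv'.2.1 hw'.1 hw'.2.1 hne
    · intro v hv
      exact (mem_pf' hv).2.2
  exact_mod_cast natDegree_le_of_dvd h3 hΔ

theorem rb_ana (N : ℕ) (hN : 1 ≤ N) (n z m v : ℕ) (hz : 1 ≤ z) (hm : n ≤ 2 * m)
    (hn : 1 ≤ n) (A L D K : ℝ) (hL : 0 ≤ L) (hD : 0 ≤ D) (hK : 1 ≤ K)
    (hA : A ≤ 2 * L * (D + v * z) + K) (hA0 : 1 ≤ A) :
    (m : ℝ) ^ (-(1 / (2 * N)) : ℝ) * A ^ (1 / (2 * N) : ℝ) ≤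
      2 * (n : ℝ) ^ (-(1 / (2 * N)) : ℝ) * (z * (2 * L * (D + v) + K)) := by
  have hN0 : (1 : ℝ) ≤ N := by exact_mod_cast hN
  have hz0 : (1 : ℝ) ≤ z := by exact_mod_cast hz
  have hn0 : (1 : ℝ) ≤ n := by exact_mod_cast hn
  have hm0 : (n : ℝ) ≤ 2 * m := by exact_mod_cast hm
  have hnpos : (0 : ℝ) < n := by linarith
  have he : (0 : ℝ) ≤ 1 / (2 * N) := by positivity
  have he1 : (1 : ℝ) / (2 * N) ≤ 1 := by
    rw [div_le_one (by linarith)]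
    linarith
  have h1 : (m : ℝ) ^ (-(1 / (2 * N)) : ℝ) ≤ 2 * (n : ℝ) ^ (-(1 / (2 * N)) : ℝ) := by
    have h2 : (m : ℝ) ^ (-(1 / (2 * N)) : ℝ) ≤ ((n : ℝ) / 2) ^ (-(1 / (2 * N)) : ℝ) :=
      Real.rpow_le_rpow_of_nonpos (by positivity) (by linarith) (by linarith)
    refine h2.trans ?_
    rw [Real.div_rpow hnpos.le (by norm_num), Real.rpow_neg (by norm_num : (0:ℝ) ≤ 2),
      div_inv_eq_mul, mul_comm]
    refine mul_le_mul_of_nonneg_right ?_ (by positivity)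
    calc (2 : ℝ) ^ (1 / (2 * N) : ℝ) ≤ (2 : ℝ) ^ (1 : ℝ) :=
          Real.rpow_le_rpow_of_exponent_le (by norm_num) he1
      _ = 2 := Real.rpow_one 2
  have h2 : A ^ (1 / (2 * N) : ℝ) ≤ z * (2 * L * (D + v) + K) := by
    have h3 : A ^ (1 / (2 * N) : ℝ) ≤ A ^ (1 : ℝ) :=
      Real.rpow_le_rpow_of_exponent_le hA0 he1
    rw [Real.rpow_one] at h3
    refine h3.trans (hA.trans ?_)
    have h4 : D ≤ D * z := le_mul_of_one_le_right hD hz0
    have h5 : K ≤ K * z := le_mul_of_one_le_right (by linarith) hz0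
    have h6 : 2 * L * (D + v * z) ≤ 2 * L * (D * z + v * z) :=
      mul_le_mul_of_nonneg_left (by linarith) (by positivity)
    nlinarith
  have hA1 : 0 ≤ A ^ (1 / (2 * N) : ℝ) := Real.rpow_nonneg (by linarith) _
  exact mul_le_mul h1 h2 hA1 (by positivity)

theorem rb_one (χ : LChar F ℓ) (h2 : ℓ ≠ 2) (C : CD V ℓ) (hC : C.Good) (Δ : F[X])
    (hΔ : Δ ≠ 0) (b : V → ZMod ℓ) (g : V → pf Δ → ZMod ℓ) (U : Finset V) (hU : C.Unl U)
    (hcard : U.card = C.N) (n : ℕ) (y : {w // w ∉ U} → Mn F n) (hy : ∀ w, (y w).1 = 1) :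
    ‖∑ x : {u // u ∈ U} → Mn F n, WL χ C Δ b g n (mgU U x y)‖ ≤ ((Cls Δ n).card : ℝ) := by
  classical
  refine (rb_sum χ h2 C hC Δ hΔ b g U hU hcard n y).trans ?_
  have hE : ∏ w, (y w).1 = 1 := Finset.prod_eq_one fun w _ => hy w
  split_ifs with hcond
  · rw [hE, PC.om_one, pow_zero, one_mul, natDegree_one, mul_one, Nat.sub_zero]
    exact inn_one χ n (Cls Δ n) (fun D hD => by
      obtain ⟨h4, h5, h6, _⟩ := mem_Cls.1 hD
      exact ⟨h4, h6, h5.le⟩) (fun u : {u // u ∈ U} => b u.1) (Gy Δ y)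
      (fun u : {u // u ∈ U} => ey C g U u.1)
  · positivity

theorem rb_two (χ : LChar F ℓ) (h2 : ℓ ≠ 2) (C : CD V ℓ) (hC : C.Good) (Δ : F[X])
    (hΔ : Δ ≠ 0) (b : V → ZMod ℓ) (g : V → pf Δ → ZMod ℓ) (U : Finset V) (hU : C.Unl U)
    (hcard : U.card = C.N) (n z : ℕ) (hz : 1 ≤ z) (hn : 2 * (Fintype.card V + 1) * z ≤ n)
    (y : {w // w ∉ U} → Mn F n) (hy : ∀ w, (y w).1.natDegree < z)
    (hne : (∃ w, (y w).1 ≠ 1) ∨ ¬ Cst b g U) :
    ‖∑ x : {u // u ∈ U} → Mn F n, WL χ C Δ b g n (mgU U x y)‖ ≤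
      Cb ℓ V Δ * z * (Nat.card F : ℝ) ^ n * (n : ℝ) ^ (-(1 / (2 * C.N)) : ℝ) *
        ∏ w, wl C.N (y w).1 := by
  classical
  refine (rb_sum χ h2 C hC Δ hΔ b g U hU hcard n y).trans ?_
  have hKc : 1 ≤ Kc ℓ := one_le_Kc
  have hRHS : 0 ≤ Cb ℓ V Δ * z * (Nat.card F : ℝ) ^ n * (n : ℝ) ^ (-(1 / (2 * C.N)) : ℝ) *
        ∏ w, wl C.N (y w).1 := by
    have h1 : 0 ≤ Cb ℓ V Δ := by
      rw [Cb]
      positivity
    have h3 : 0 ≤ ∏ w, wl C.N (y w).1 := Finset.prod_nonneg fun w _ => wl_nonneg _ _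
    positivity
  split_ifs with hcond
  swap
  · exact hRHS
  obtain ⟨hEc, hEn⟩ := hcond
  obtain ⟨hEm, _, hEs, hEΔ⟩ := mem_Cls.1 hEc
  have hdegE : (∏ w, (y w).1).natDegree = ∑ w, ((y w).1).natDegree :=
    natDegree_prod_of_monic _ _ fun w _ => (y w).2.1
  have heV : (∏ w, (y w).1).natDegree ≤ Fintype.card V * z := by
    rw [hdegE]
    calc ∑ w, ((y w).1).natDegree ≤ ∑ _w : {w // w ∉ U}, z :=
          Finset.sum_le_sum fun w _ => (hy w).le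
      _ = Fintype.card {w // w ∉ U} * z := by
          rw [Finset.sum_const, Finset.card_univ, smul_eq_mul]
      _ ≤ Fintype.card V * z := Nat.mul_le_mul_right _ (Fintype.card_subtype_le _)
  have hom : om (∏ w, (y w).1) = ∑ w, om (y w).1 :=
    PC.om_prod (fun w => (y w).1) (fun w => (y w).2.1) hEs
  obtain ⟨E, hE⟩ : ∃ E, E = ∏ w, (y w).1 := ⟨_, rfl⟩
  rw [← hE] at hEc hEn hEm hEs hEΔ hdegE heV hom ⊢
  obtain ⟨e, he⟩ : ∃ e, e = E.natDegree := ⟨_, rfl⟩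
  rw [← he] at hEn hdegE heV ⊢
  have hm2 : n ≤ 2 * (n - e) ∧ 1 ≤ n - e := by
    have h3 : 2 * (Fintype.card V + 1) * z = 2 * (Fintype.card V * z) + 2 * z := by ring
    omega
  -- the two indices
  have hdist : ∃ u₀ u₁ : {u // u ∈ U}, b u₀.1 ≠ b u₁.1 ∨
      ∃ j, ey C g U u₀.1 j ≠ ey C g U u₁.1 j ∧ Gy Δ y j ≠ 1 := by
    by_cases hw : ∃ w, (y w).1 ≠ 1
    · obtain ⟨w, hw⟩ := hw
      obtain ⟨u, hu, u', hu', hlk⟩ := hC.nonconst U hU hcard w.1 w.2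
      exact ⟨⟨u, hu⟩, ⟨u', hu'⟩, Or.inr ⟨Sum.inr w, hlk, hw⟩⟩
    · have hcst : ¬ Cst b g U := by
        rcases hne with h | h
        · exact absurd h hw
        · exact h
      unfold Cst at hcst
      push Not at hcst
      obtain ⟨u, hu, u', hu', h3⟩ := hcst
      refine ⟨⟨u, hu⟩, ⟨u', hu'⟩, ?_⟩
      by_cases hb : b u = b u'
      · right
        have h4 := h3 hb
        have h5 : ∃ v, g u v ≠ g u' v := by
          by_contra hcon
          push Not at hcon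
          exact h4 (funext hcon)
        obtain ⟨v, hv⟩ := h5
        refine ⟨Sum.inl v, hv, ?_⟩
        intro h6
        have h7 := (mem_pf' v.2).2.1
        have h8 : (v.1 : F[X]) = 1 := h6
        rw [h8] at h7
        exact h7.not_isUnit isUnit_one
      · exact Or.inl hb
  obtain ⟨u₀, u₁, hu⟩ := hdist
  have hG : ∀ i, (Gy Δ y i).Monic ∧ Squarefree (Gy Δ y i) := by
    rintro (v | w)
    · exact ⟨(mem_pf' v.2).1, (mem_pf' v.2).2.1.squarefree⟩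
    · exact ⟨(y w).2.1, (y w).2.2.1⟩
  have hyE : ∀ w, (y w).1 ∣ E := fun w => by
    rw [hE]
    exact Finset.dvd_prod_of_mem (fun w => (y w).1) (Finset.mem_univ w)
  have hcop : ∀ i j, i ≠ j → IsCoprime (Gy Δ y i) (Gy Δ y j) := by
    rintro (v | w) (v' | w') hne'
    · have hv := mem_pf' v.2
      have hv' := mem_pf' v'.2
      refine PC.isCoprime_irr hv.1 hv.2.1 hv'.1 hv'.2.1 fun h3 => hne' ?_
      rw [Subtype.ext h3]
    · exact ((hEΔ.of_isCoprime_of_dvd_left (hyE w')).of_isCoprime_of_dvd_right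
        (mem_pf' v.2).2.2).symm
    · exact (hEΔ.of_isCoprime_of_dvd_left (hyE w)).of_isCoprime_of_dvd_right
        (mem_pf' v'.2).2.2
    · refine wsp_cop (fun w => (y w).1) ?_ fun h3 => hne' ?_
      · rw [← hE]
        exact hEs
      · rw [h3]
  have hinn := inn_two χ h2 n (n - e) (Nat.sub_le _ _) hm2.2 (Cls (Δ * E) (n - e))
    (fun D hD => by
      obtain ⟨h4, h5, h6, _⟩ := mem_Cls.1 hD
      exact mem_Sq.2 ⟨h4, h5, h6⟩)
    (fun u : {u // u ∈ U} => b u.1) (Gy Δ y) (fun u : {u // u ∈ U} => ey C g U u.1) hG hcop u₀ u₁ hu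
  have hN : (Fintype.card {u // u ∈ U} : ℝ) = (C.N : ℝ) := by
    rw [Fintype.card_coe, hcard]
  rw [hN] at hinn
  have hsumG : ∑ i, ((Gy Δ y i).natDegree : ℝ) ≤ Δ.natDegree + Fintype.card V * z := by
    rw [Fintype.sum_sum_type]
    apply add_le_add
    · exact rb_pfdeg hΔ
    · have h3 : ∑ w : {w // w ∉ U}, ((Gy Δ y (Sum.inr w)).natDegree : ℝ) = (e : ℝ) := by
        rw [hdegE]
        push_cast
        rfl
      rw [h3]
      exact_mod_cast heV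
  have hsumG0 : 0 ≤ ∑ i, ((Gy Δ y i).natDegree : ℝ) := by positivity
  have hana := rb_ana C.N hC.pos n z (n - e) (Fintype.card V) hz hm2.1 (by omega)
    (2 * ℓ * ∑ i, ((Gy Δ y i).natDegree : ℝ) + Kc ℓ) ℓ Δ.natDegree (Kc ℓ) (by positivity)
    (by positivity) hKc
    (by
      have h3 : 2 * (ℓ : ℝ) * ∑ i, ((Gy Δ y i).natDegree : ℝ) ≤
          2 * ℓ * (Δ.natDegree + Fintype.card V * z) :=
        mul_le_mul_of_nonneg_left hsumG (by positivity)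
      linarith)
    (by
      have h3 : 0 ≤ 2 * (ℓ : ℝ) * ∑ i, ((Gy Δ y i).natDegree : ℝ) := by positivity
      linarith)
  have hq0 : (0 : ℝ) < (Nat.card F : ℝ) := by
    have : 0 < Nat.card F := Nat.card_pos
    exact_mod_cast this
  have hfin : (1 / (C.N : ℝ)) ^ om E * (Nat.card F : ℝ) ^ (n - e) =
      (Nat.card F : ℝ) ^ n * ∏ w, wl C.N (y w).1 := by
    have h3 : ∏ w, wl C.N (y w).1 = (1 / (C.N : ℝ)) ^ om E / (Nat.card F : ℝ) ^ e := by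
      unfold wl
      rw [Finset.prod_div_distrib, Finset.prod_pow_eq_pow_sum, Finset.prod_pow_eq_pow_sum, ← hom,
        hdegE]
    rw [h3]
    have h4 : (Nat.card F : ℝ) ^ n = (Nat.card F : ℝ) ^ (n - e) * (Nat.card F : ℝ) ^ e := by
      rw [← pow_add, Nat.sub_add_cancel hEn]
    rw [h4]
    field_simp
  have hNp : (0 : ℝ) ≤ (1 / (C.N : ℝ)) ^ om E := by positivity
  have hqp : (0 : ℝ) ≤ 60 * (Nat.card F : ℝ) ^ (n - e) := by positivity
  calc (1 / (C.N : ℝ)) ^ om E * _ ≤ (1 / (C.N : ℝ)) ^ om E *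
        (60 * (Nat.card F : ℝ) ^ (n - e) * (((n - e : ℕ) : ℝ) ^ (-(1 / (2 * C.N)) : ℝ) *
          (2 * ℓ * ∑ i, ((Gy Δ y i).natDegree : ℝ) + Kc ℓ) ^ (1 / (2 * C.N) : ℝ))) := by
        refine mul_le_mul_of_nonneg_left (hinn.trans (le_of_eq ?_)) hNp
        ring
    _ ≤ (1 / (C.N : ℝ)) ^ om E * (60 * (Nat.card F : ℝ) ^ (n - e) *
        (2 * (n : ℝ) ^ (-(1 / (2 * C.N)) : ℝ) *
          (z * (2 * ℓ * (Δ.natDegree + Fintype.card V) + Kc ℓ)))) :=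
        mul_le_mul_of_nonneg_left (mul_le_mul_of_nonneg_left hana hqp) hNp
    _ = Cb ℓ V Δ * z * ((1 / (C.N : ℝ)) ^ om E * (Nat.card F : ℝ) ^ (n - e)) *
        (n : ℝ) ^ (-(1 / (2 * C.N)) : ℝ) := by
        rw [Cb]
        ring
    _ = Cb ℓ V Δ * z * (Nat.card F : ℝ) ^ n * (n : ℝ) ^ (-(1 / (2 * C.N)) : ℝ) *
        ∏ w, wl C.N (y w).1 := by
        rw [hfin]
        ring

end Pool.Agent.H94.PL
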