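import Pool.Agent.H94.PL.Sdg
import Pool.Agent.H94.PL.LDt

set_option autoImplicit false

/-!
# [H94 PL SDD] Selmer conditions at the primes dividing `D`

`P ∈ pf D`, completion at `P` (`toP P.1 hP`, `wP P.1 hP`), `hsel.fin (LT.place P.1 hP)`: Mumford pairs `(P_r, Q_r)`,
`r < R`, and `γ`.  `wP (toP (DK c D)) = exp (-1)` (`wP_simple`, `D` squarefree), so `¬ Vd` (`Vd.val`).  `loc_D` for each pair: `s_r`;
`s = ∑ s_r`; `tv_add` (by induction: `tv D A (∑ s_r) k = ∏ tv D A s_r k`; or prove the product statement by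
`Finset.induction`); `Cl (δ_k γ_k^ℓ / tv)`, so `Cl (δ_k / tv)`; `toP (tv (DK c D) (AK A) s k) = tv (toP (DK c D)) (toP ∘ AK A) s k`
(`map_mul`, `map_prod`, `map_zpow₀`).  Then `lq_of_cl` (exponents at the good primes: `sd_good`, `ex_tv_good`).
-/

namespace Pool.Agent.H94.PL

open Polynomial
open Pool.Agent.H94.PC (Mo Sq Pr pf om Mn mem_Mo mem_Sq mem_Pr mem_pf mem_pf')

variable {F : Type} [Field F] [Finite F] {ℓ m : ℕ} [hl : Fact ℓ.Prime]


theorem sdd_tv_sum {M : Type*} [Field M] {D : M} (hD : D ≠ 0) {A : Fin m → M}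
    (hA : ∀ i k, i ≠ k → A i ≠ A k) {ι : Type*} (t : Finset ι) (s : ι → Fin m → ℤ) (k : Fin m) :
    tv D A (∑ i ∈ t, s i) k = ∏ i ∈ t, tv D A (s i) k := by
  classical
  induction t using Finset.induction_on with
  | empty => rw [Finset.sum_empty, Finset.prod_empty, tv_zero]
  | insert a t ha ih => rw [Finset.sum_insert ha, Finset.prod_insert ha, tv_add hD hA, ih]

theorem sdd_map_tv {M N : Type*} [Field M] [Field N] (φ : M →+* N) (D : M) (A : Fin m → M)
    (s : Fin m → ℤ) (k : Fin m) : φ (tv D A s k) = tv (φ D) (fun i => φ (A i)) s k := by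
  rw [tv, tv, map_mul, map_prod, map_zpow₀]
  congr 1
  refine Finset.prod_congr rfl fun i _ => ?_
  rw [map_zpow₀, map_sub]

theorem sd_D [DecidableEq (RatFunc F)] (χ : LChar F ℓ) (h2 : ℓ ≠ 2) (hm : Nat.Coprime m ℓ)
    {α : ℕ} (hα : ℓ ∣ α * m + 1) {c : F} (hc : c ≠ 0) {A : Fin m → F[X]}
    (hs : Squarefree (dl A)) {D : F[X]} (hD : D.Monic) (hDs : Squarefree D)
    (hDA : IsCoprime D (dl A)) {δ : Fin m → RatFunc F} (hsel : IsSl ℓ α c A D δ) (P : pf D) :
    ∃ s : Fin m → ℤ, (ℓ : ℤ) ∣ ∑ k, s k ∧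
      ∀ k, LQ χ A D P.1 (δ k / tv (DK c D) (AK A) s k) := by
  obtain ⟨P, hPP⟩ := P
  obtain ⟨hPm, hPi, hPd⟩ := mem_pf' hPP
  have hPn : ¬ P ∣ dl A := fun h => hPi.not_isUnit (hDA.isUnit_of_dvd' hPd h)
  obtain ⟨r, Pr, R, γ, hmum, hγ, hprod⟩ := hsel.fin (LT.place P hPi)
  have hD0 : toP P hPi (DK c D) ≠ 0 := (_root_.map_ne_zero _).2 (DK_ne hc hD.ne_zero)
  have hcu : IsUnit (C c : F[X]) := isUnit_C.2 (isUnit_iff_ne_zero.2 hc)
  have hval : wP P hPi (toP P hPi (DK c D)) = WithZero.exp (-1 : ℤ) := by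
    refine wP_simple hPi (dvd_mul_of_dvd_right hPd _) ?_
    intro h
    have h3 : P ^ 2 ∣ D := by
      rwa [hcu.dvd_mul_left] at h
    rw [sq] at h3
    exact hPi.not_isUnit (hDs P h3)
  have hDv : ¬ Vd (wP P hPi) ℓ (toP P hPi (DK c D)) := by
    intro h
    have h3 := h.val hval
    have h4 := hl.out.two_le
    have h5 : (ℓ : ℤ) ∣ 1 := by
      have := (dvd_neg (a := (ℓ : ℤ)) (b := 1)).1 h3
      exact this
    have h6 := Int.le_of_dvd one_pos h5
    omega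
  have hAA : ∀ i k, i ≠ k →
      wP P hPi (toP P hPi (AK A i) - toP P hPi (AK A k)) = 1 := fun i k hik => sd_diff hPi hPn hik
  have hA' : ∀ i k, i ≠ k → toP P hPi (AK A i) ≠ toP P hPi (AK A k) := by
    intro i k hik h0
    have h1 := hAA i k hik
    rw [h0, sub_self, map_zero] at h1
    exact zero_ne_one h1
  have hloc : ∀ i, ∃ s : Fin m → ℤ, (ℓ : ℤ) ∣ ∑ k, s k ∧ ∀ k, Cl (wP P hPi) ℓ
      (dv α (toP P hPi (DK c D)) (Pr i) (toP P hPi (AK A k)) /
        tv (toP P hPi (DK c D)) (fun k => toP P hPi (AK A k)) s k) := fun i =>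
    loc_D (A := fun k => toP P hPi (AK A k)) (wP_self P hPi) hl.out h2 hm hα hD0 hDv
      (fun k => wP_le_one P hPi (A k)) hAA (hmum i)
  choose s hs1 hs2 using hloc
  refine ⟨∑ i, s i, ?_, fun k => ?_⟩
  · simp only [Finset.sum_apply]
    rw [Finset.sum_comm]
    exact Finset.dvd_sum fun i _ => hs1 i
  · have htv := tv_ne hc hD.ne_zero hs (∑ i, s i) k
    refine lq_of_cl χ hs hD hDA hPm hPi (Or.inl hPd) (div_ne_zero (hsel.ne k) htv) ?_ ?_
    · intro Q hQm hQ h3 h4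
      rw [ex_div hQ (hsel.ne k) htv, sd_good h2 hm hα hc hs hD hsel hQm hQ h3 h4,
        ex_tv_good hc hs hD hQ h3 h4, sub_zero]
    · have h5 : toP P hPi (δ k) * γ k ^ ℓ =
        ∏ i, dv α (toP P hPi (DK c D)) (Pr i) (toP P hPi (AK A k)) := hprod k
      have h6 : Cl (wP P hPi) ℓ (toP P hPi (δ k) * γ k ^ ℓ /
          tv (toP P hPi (DK c D)) (fun k => toP P hPi (AK A k)) (∑ i, s i) k) := by
        rw [h5, sdd_tv_sum hD0 hA', ← Finset.prod_div_distrib]
        exact Cl.prod _ _ fun i _ => hs2 i k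
      rw [map_div₀, sdd_map_tv]
      have h7 : toP P hPi (δ k) * γ k ^ ℓ /
          tv (toP P hPi (DK c D)) (fun k => toP P hPi (AK A k)) (∑ i, s i) k =
          γ k ^ ℓ * (toP P hPi (δ k) /
          tv (toP P hPi (DK c D)) (fun k => toP P hPi (AK A k)) (∑ i, s i) k) := by
        rw [mul_comm (toP P hPi (δ k)), mul_div_assoc]
      rw [h7] at h6
      exact h6.cancel (Cl.self_pow (hγ k))

end Pool.Agent.H94.PL
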