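import Pool.Agent.H94.PL.Defs

set_option autoImplicit false

/-!
# [H94 PL SPL] Splitting the variables: `V = U ⊔ Uᶜ`
-/

namespace Pool.Agent.H94.PL

section
variable {V : Type} [Fintype V] [DecidableEq V] (U : Finset V) {α : Type}

/-- the function with given values on `U` and outside -/
def mgU (x : {u // u ∈ U} → α) (y : {u // u ∉ U} → α) : V → α :=
  fun u => if h : u ∈ U then x ⟨u, h⟩ else y ⟨u, h⟩

theorem mgU_in (x : {u // u ∈ U} → α) (y : {u // u ∉ U} → α) (u : {u // u ∈ U}) :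
    mgU U x y u.1 = x u := by
  rw [mgU, dif_pos u.2]

theorem mgU_out (x : {u // u ∈ U} → α) (y : {u // u ∉ U} → α) (w : {u // u ∉ U}) :
    mgU U x y w.1 = y w := by
  rw [mgU, dif_neg w.2]

/-- the corresponding equivalence -/
def mgUE : ({u // u ∉ U} → α) × ({u // u ∈ U} → α) ≃ (V → α) where
  toFun p := mgU U p.2 p.1
  invFun g := (fun w => g w.1, fun u => g u.1)
  left_inv p := by
    refine Prod.ext ?_ ?_
    · funext w
      exact mgU_out U p.2 p.1 w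
    · funext u
      exact mgU_in U p.2 p.1 u
  right_inv g := by
    funext u
    by_cases h : u ∈ U
    · exact mgU_in U _ _ ⟨u, h⟩
    · exact mgU_out U _ _ ⟨u, h⟩

theorem sum_mgU [Fintype α] {M : Type*} [AddCommMonoid M] (f : (V → α) → M) :
    ∑ x, f x = ∑ y : {u // u ∉ U} → α, ∑ x : {u // u ∈ U} → α, f (mgU U x y) := by
  rw [← Fintype.sum_prod_type' (f := fun y x => f (mgU U x y))]
  exact (Equiv.sum_comp (mgUE U) f).symm

theorem prod_mgU {M : Type*} [CommMonoid M] (φ : V → M) :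
    ∏ u, φ u = (∏ u : {u // u ∈ U}, φ u.1) * ∏ w : {u // u ∉ U}, φ w.1 := by
  have h1 : ∏ u : {u // u ∈ U}, φ u.1 = ∏ u ∈ U, φ u := Finset.prod_coe_sort U φ
  have h2 : ∏ w : {u // u ∉ U}, φ w.1 = ∏ u ∈ Uᶜ, φ u :=
    (Finset.prod_subtype Uᶜ (fun x => Finset.mem_compl) φ).symm
  rw [h1, h2, Finset.prod_mul_prod_compl]

theorem add_mgU {M : Type*} [AddCommMonoid M] (φ : V → M) :
    ∑ u, φ u = (∑ u : {u // u ∈ U}, φ u.1) + ∑ w : {u // u ∉ U}, φ w.1 := by
  have h1 : ∑ u : {u // u ∈ U}, φ u.1 = ∑ u ∈ U, φ u := Finset.sum_coe_sort U φ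
  have h2 : ∑ w : {u // u ∉ U}, φ w.1 = ∑ u ∈ Uᶜ, φ u :=
    (Finset.sum_subtype Uᶜ (fun x => Finset.mem_compl) φ).symm
  rw [h1, h2, Finset.sum_add_sum_compl]

end

end Pool.Agent.H94.PL
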