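import Pool.Agent.H94.PL.KDefs
import Pool.Agent.H94.PC.Facs

set_option autoImplicit false

/-!
# [H94 PL SY] The concrete system of linear equations

`XX m ℓ` = vectors in `(ZMod ℓ)^m` with sum zero, `BB` the dot product, `ep i j = e_i - e_j`, `prs` the pairs `i < j`,
`dl A = ∏_{i<j} (A i - A j)` (assumed squarefree), `pr A v` the unique pair with `v ∣ A i - A j`.

`sum_pf_dl`: regroup the primes by their pair: `Finset.sum_subtype`/`Finset.sum_sigma'`, `pf (dl A)` is the disjoint union of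
the `pf (A i - A j)` (`Prime.dvd_finsetProd_iff` ...).
-/

namespace Pool.Agent.H94.PL

open Polynomial
open Pool.Agent.H94.PC (Mo Sq Pr pf om Mn mem_Mo mem_Sq mem_Pr mem_pf mem_pf')

/-- the vectors with sum zero -/
def XM (m ℓ : ℕ) : Submodule (ZMod ℓ) (Fin m → ZMod ℓ) where
  carrier := {x | ∑ k, x k = 0}
  zero_mem' := by simp
  add_mem' := by
    intro x y hx hy
    simp only [Set.mem_setOf_eq] at hx hy ⊢
    simp only [Pi.add_apply, Finset.sum_add_distrib, hx, hy, add_zero]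
  smul_mem' := by
    intro c x hx
    simp only [Set.mem_setOf_eq] at hx ⊢
    simp only [Pi.smul_apply, ← Finset.smul_sum, hx, smul_zero]

/-- the space of vectors with sum zero -/
abbrev XX (m ℓ : ℕ) : Type := XM m ℓ

theorem XX_sum {m ℓ : ℕ} (x : XX m ℓ) : ∑ k, x.1 k = 0 := x.2

/-- the dot product -/
def BB (m ℓ : ℕ) : XX m ℓ →ₗ[ZMod ℓ] XX m ℓ →ₗ[ZMod ℓ] ZMod ℓ :=
  LinearMap.mk₂ (ZMod ℓ) (fun x y => ∑ k, x.1 k * y.1 k)
    (by intro x y z; simp [add_mul, Finset.sum_add_distrib])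
    (by intro c x y; simp [mul_assoc, Finset.mul_sum])
    (by intro x y z; simp [mul_add, Finset.sum_add_distrib])
    (by intro c x y; simp [Finset.mul_sum, mul_left_comm])

theorem BB_apply {m ℓ : ℕ} (x y : XX m ℓ) : BB m ℓ x y = ∑ k, x.1 k * y.1 k := rfl

/-- `e_i - e_j` -/
def ep {m : ℕ} (ℓ : ℕ) (i j : Fin m) : XX m ℓ :=
  ⟨fun k => (if k = i then 1 else 0) - (if k = j then 1 else 0), by
    change ∑ k, ((if k = i then (1 : ZMod ℓ) else 0) - (if k = j then 1 else 0)) = 0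
    simp [Finset.sum_sub_distrib]⟩

theorem ep_apply {m ℓ : ℕ} (i j k : Fin m) :
    (ep ℓ i j).1 k = (if k = i then 1 else 0) - (if k = j then 1 else 0) := rfl

theorem BB_ep {m ℓ : ℕ} (x : XX m ℓ) (i j : Fin m) : BB m ℓ x (ep ℓ i j) = x.1 i - x.1 j := by
  rw [BB_apply]
  simp only [ep_apply, mul_sub, mul_ite, mul_one, mul_zero, Finset.sum_sub_distrib,
    Finset.sum_ite_eq', Finset.mem_univ, if_true]

theorem BB_symm {m ℓ : ℕ} (x y : XX m ℓ) : BB m ℓ x y = BB m ℓ y x := by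
  rw [BB_apply, BB_apply]
  exact Finset.sum_congr rfl fun k _ => mul_comm _ _

theorem ep_BB {m ℓ : ℕ} (x : XX m ℓ) (i j : Fin m) : BB m ℓ (ep ℓ i j) x = x.1 i - x.1 j := by
  rw [BB_symm, BB_ep]

/-- the pairs `i < j` -/
def prs (m : ℕ) : Finset (Fin m × Fin m) := Finset.univ.filter fun p => p.1 < p.2

theorem mem_prs {m : ℕ} {p : Fin m × Fin m} : p ∈ prs m ↔ p.1 < p.2 := by
  rw [prs, Finset.mem_filter]
  simp

section
variable {F : Type} [Field F] [Finite F] {m : ℕ}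

/-- the product of the differences -/
noncomputable def dl (A : Fin m → F[X]) : F[X] := ∏ p ∈ prs m, (A p.1 - A p.2)

theorem dl_ne_zero {A : Fin m → F[X]} (hs : Squarefree (dl A)) : dl A ≠ 0 := hs.ne_zero

theorem exists_pr (A : Fin m → F[X]) (v : pf (dl A)) :
    ∃ p ∈ prs m, v.1 ∣ A p.1 - A p.2 :=
  ((mem_pf' v.2).2.1.prime.dvd_finsetProd_iff _).1 (mem_pf' v.2).2.2

/-- the pair of a prime -/
noncomputable def pr (A : Fin m → F[X]) (v : pf (dl A)) : Fin m × Fin m := (exists_pr A v).choose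

theorem pr_mem (A : Fin m → F[X]) (v : pf (dl A)) : pr A v ∈ prs m :=
  (exists_pr A v).choose_spec.1

theorem pr_lt (A : Fin m → F[X]) (v : pf (dl A)) : (pr A v).1 < (pr A v).2 :=
  mem_prs.1 (pr_mem A v)

theorem pr_dvd (A : Fin m → F[X]) (v : pf (dl A)) : v.1 ∣ A (pr A v).1 - A (pr A v).2 :=
  (exists_pr A v).choose_spec.2

/-- `(A i - A j) / v` -/
noncomputable def cof (A : Fin m → F[X]) (v : pf (dl A)) : F[X] := (pr_dvd A v).choose

theorem cof_spec (A : Fin m → F[X]) (v : pf (dl A)) :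
    A (pr A v).1 - A (pr A v).2 = v.1 * cof A v := (pr_dvd A v).choose_spec

omit [Finite F] in
theorem syc_sq {A : Fin m → F[X]} (hs : Squarefree (dl A)) {v : F[X]} (hv : Irreducible v)
    {p q : Fin m × Fin m} (hp : p ∈ prs m) (hq : q ∈ prs m) (h1 : v ∣ A p.1 - A p.2)
    (h2 : v ∣ A q.1 - A q.2) : p = q := by
  by_contra hpq
  have h3 : v ∣ ∏ x ∈ (prs m).erase p, (A x.1 - A x.2) :=
    h2.trans (Finset.dvd_prod_of_mem (fun x : Fin m × Fin m => A x.1 - A x.2)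
      (Finset.mem_erase.2 ⟨fun h => hpq h.symm, hq⟩))
  have h4 : v * v ∣ dl A := by
    rw [dl, ← Finset.mul_prod_erase _ _ hp]
    exact mul_dvd_mul h1 h3
  exact hv.not_isUnit (hs v h4)

/-- `v` divides only one difference -/
theorem pr_unique {A : Fin m → F[X]} (hs : Squarefree (dl A)) (v : pf (dl A)) {i k : Fin m}
    (hik : i ≠ k) (h : v.1 ∣ A i - A k) :
    (i = (pr A v).1 ∧ k = (pr A v).2) ∨ (i = (pr A v).2 ∧ k = (pr A v).1) := by
  have hv := (mem_pf' v.2).2.1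
  rcases lt_or_gt_of_ne hik with h1 | h1
  · left
    have h2 := syc_sq hs hv (p := (i, k)) (mem_prs.2 h1) (pr_mem A v) h (pr_dvd A v)
    rw [← h2]
    exact ⟨rfl, rfl⟩
  · right
    have h3 : v.1 ∣ A k - A i := by
      rw [← neg_sub]
      exact (dvd_neg).2 h
    have h2 := syc_sq hs hv (p := (k, i)) (mem_prs.2 h1) (pr_mem A v) h3 (pr_dvd A v)
    rw [← h2]
    exact ⟨rfl, rfl⟩

theorem not_dvd_cof {A : Fin m → F[X]} (hs : Squarefree (dl A)) (v : pf (dl A)) :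
    ¬ v.1 ∣ cof A v := by
  intro h
  have h1 : v.1 * v.1 ∣ A (pr A v).1 - A (pr A v).2 := by
    rw [cof_spec]
    exact mul_dvd_mul_left _ h
  have h2 : A (pr A v).1 - A (pr A v).2 ∣ dl A :=
    Finset.dvd_prod_of_mem (fun x : Fin m × Fin m => A x.1 - A x.2) (pr_mem A v)
  exact (mem_pf' v.2).2.1.not_isUnit (hs v.1 (h1.trans h2))

omit [Finite F] in
theorem syc_dvd (A : Fin m → F[X]) {p : Fin m × Fin m} (hp : p ∈ prs m) :
    A p.1 - A p.2 ∣ dl A := by
  rw [dl, ← Finset.mul_prod_erase _ _ hp]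
  exact Dvd.intro _ rfl

theorem dvd_dl {A : Fin m → F[X]} {i k : Fin m} (hik : i ≠ k) : A i - A k ∣ dl A := by
  rcases lt_or_gt_of_ne hik with h1 | h1
  · exact syc_dvd A (p := (i, k)) (mem_prs.2 h1)
  · have h2 : A k - A i ∣ dl A := syc_dvd A (p := (k, i)) (mem_prs.2 h1)
    have h3 : -(A k - A i) ∣ dl A := neg_dvd.2 h2
    rwa [neg_sub] at h3

theorem ne_of_sqf {A : Fin m → F[X]} (hs : Squarefree (dl A)) {i k : Fin m} (hik : i ≠ k) :
    A i - A k ≠ 0 := by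
  intro h
  have h1 := dvd_dl (A := A) hik
  rw [h] at h1
  exact hs.ne_zero (zero_dvd_iff.1 h1)

end

section
variable {F : Type} [Field F] [Finite F] {ℓ m : ℕ} (χ : LChar F ℓ)

/-- the system -/
noncomputable def syC (c : F) (A : Fin m → F[X]) : Sys ℓ (XX m ℓ) (pf (dl A)) where
  eps v := ep ℓ (pr A v).1 (pr A v).2
  bet := (∑ p ∈ prs m, χ.lg (A p.1 - A p.2).leadingCoeff •
      (BB m ℓ (ep ℓ p.1 p.2)).smulRight (ep ℓ p.1 p.2)) - χ.lg c • LinearMap.id
  rho v v' := by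
    classical exact if v = v' then
      ((v.1.natDegree : ZMod ℓ) * χ.lg c - 2 * lm χ (cof A v) v.1 -
        (∑ k ∈ (Finset.univ.erase (pr A v).1).erase (pr A v).2, lm χ (A (pr A v).1 - A k) v.1))
      else (BB m ℓ (ep ℓ (pr A v').1 (pr A v').2) (ep ℓ (pr A v).1 (pr A v).2) * lm χ v'.1 v.1)

omit χ in
theorem syc_pairs (H : Fin m → Fin m → ZMod ℓ) (hH : ∀ a b, H a b = H b a) (y : Fin m → ZMod ℓ)
    (k : Fin m) :
    ∑ p ∈ prs m, H p.1 p.2 * (y p.1 - y p.2) *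
      ((if k = p.1 then 1 else 0) - (if k = p.2 then 1 else 0)) =
      ∑ i ∈ Finset.univ.erase k, H k i * (y k - y i) := by
  rw [prs, Finset.sum_filter, Fintype.sum_prod_type]
  have e1 : ∀ i j : Fin m, (if i < j then H i j * (y i - y j) *
      ((if k = i then (1 : ZMod ℓ) else 0) - (if k = j then 1 else 0)) else 0) =
      (if k = i then (if k < j then H k j * (y k - y j) else 0) else 0) +
      (if k = j then (if i < k then H k i * (y k - y i) else 0) else 0) := by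
    intro i j
    by_cases h1 : k = i
    · subst h1
      by_cases h2 : k = j
      · subst h2
        simp
      · rw [if_pos rfl, if_neg h2, sub_zero, mul_one, if_pos rfl, if_neg h2, add_zero]
    · by_cases h2 : k = j
      · subst h2
        rw [if_neg h1, if_pos rfl, if_neg h1, if_pos rfl, zero_add, hH i k]
        split_ifs
        · ring
        · rfl
      · rw [if_neg h1, if_neg h2, if_neg h1, if_neg h2, sub_zero, mul_zero, add_zero, ite_self]
  simp only [e1, Finset.sum_add_distrib]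
  rw [Finset.sum_comm]
  simp only [Finset.sum_ite_eq, Finset.mem_univ, if_true]
  rw [← Finset.sum_add_distrib, ← Finset.filter_ne', Finset.sum_filter]
  apply Finset.sum_congr rfl
  intro i _
  rcases lt_trichotomy k i with h | h | h
  · rw [if_pos h, if_neg (not_lt.2 h.le), add_zero, if_pos h.ne']
  · subst h
    simp
  · rw [if_neg (not_lt.2 h.le), if_pos h, zero_add, if_pos h.ne]

omit χ in
theorem syc_coord (H : Fin m → Fin m → ZMod ℓ) (hH : ∀ a b, H a b = H b a) (x : XX m ℓ)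
    (k : Fin m) :
    (∑ p ∈ prs m, (H p.1 p.2 * BB m ℓ (ep ℓ p.1 p.2) x) • ep ℓ p.1 p.2 : XX m ℓ).1 k =
      ∑ i ∈ Finset.univ.erase k, H k i * (x.1 k - x.1 i) := by
  rw [AddSubmonoidClass.coe_finset_sum, Finset.sum_apply, ← syc_pairs H hH x.1 k]
  apply Finset.sum_congr rfl
  intro p _
  rw [ep_BB, SetLike.val_smul, Pi.smul_apply, ep_apply, smul_eq_mul]

/-- `β` in coordinates -/
theorem bet_apply [Fact ℓ.Prime] (h2 : ℓ ≠ 2) (c : F) (A : Fin m → F[X]) (x : XX m ℓ)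
    (k : Fin m) : ((syC χ c A).bet x).1 k =
      ∑ i ∈ Finset.univ.erase k, χ.lg (A k - A i).leadingCoeff * (x.1 k - x.1 i) -
        χ.lg c * x.1 k := by
  have hH : ∀ a b : Fin m, χ.lg (A a - A b).leadingCoeff = χ.lg (A b - A a).leadingCoeff := by
    intro a b
    rw [← neg_sub (A b) (A a), leadingCoeff_neg, lg_neg χ h2]
  rw [← syc_coord (fun a b => χ.lg (A a - A b).leadingCoeff) hH x k]
  have e1 : (syC χ c A).bet x = (∑ p ∈ prs m, (χ.lg (A p.1 - A p.2).leadingCoeff *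
      BB m ℓ (ep ℓ p.1 p.2) x) • ep ℓ p.1 p.2 : XX m ℓ) - χ.lg c • x := by
    change ((∑ p ∈ prs m, χ.lg (A p.1 - A p.2).leadingCoeff •
      (BB m ℓ (ep ℓ p.1 p.2)).smulRight (ep ℓ p.1 p.2)) - χ.lg c • LinearMap.id :
      XX m ℓ →ₗ[ZMod ℓ] XX m ℓ) x = _
    rw [LinearMap.sub_apply, LinearMap.sum_apply, LinearMap.smul_apply, LinearMap.id_apply]
    congr 1
    apply Finset.sum_congr rfl
    intro p _
    rw [LinearMap.smul_apply, LinearMap.smulRight_apply, smul_smul]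
  rw [e1, AddSubgroupClass.coe_sub, Pi.sub_apply, SetLike.val_smul, Pi.smul_apply, smul_eq_mul]

omit χ in
theorem syc_fac {G : F[X]} (hG : Squarefree G) :
    G = C G.leadingCoeff * ∏ Q ∈ pf G, Q := by
  have h0 : G ≠ 0 := hG.ne_zero
  have hl : G.leadingCoeff ≠ 0 := leadingCoeff_ne_zero.2 h0
  have hli : G.leadingCoeff⁻¹ ≠ 0 := inv_ne_zero hl
  have hm : (C G.leadingCoeff⁻¹ * G).Monic := by
    rw [Monic, leadingCoeff_mul, leadingCoeff_C, inv_mul_cancel₀ hl]
  have hu : IsUnit (C G.leadingCoeff⁻¹) := isUnit_C.2 hli.isUnit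
  have hsq : Squarefree (C G.leadingCoeff⁻¹ * G) :=
    fun x hx => hG x ((IsUnit.dvd_mul_left hu).1 hx)
  have hpf : pf (C G.leadingCoeff⁻¹ * G) = pf G := by
    ext Q
    rw [mem_pf hm.ne_zero, mem_pf h0, IsUnit.dvd_mul_left hu]
  have h1 := PC.prod_pf hm hsq
  rw [hpf] at h1
  rw [h1, ← mul_assoc, ← C_mul, mul_inv_cancel₀ hl, C_1, one_mul]

/-- factorization of a squarefree polynomial (`G = C lc * ∏_{Q ∈ pf G} Q`; `lm_mul_left`, `lm_C`, `lm_prod_left`) -/
theorem lm_factor {G v : F[X]} (hG : Squarefree G) (hv : v.Monic) (h : IsCoprime G v) :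
    lm χ G v = (v.natDegree : ZMod ℓ) * χ.lg G.leadingCoeff + ∑ Q ∈ pf G, lm χ Q v := by
  have h0 : G ≠ 0 := hG.ne_zero
  have hl : G.leadingCoeff ≠ 0 := leadingCoeff_ne_zero.2 h0
  have hQ : ∀ Q ∈ pf G, IsCoprime Q v := fun Q hQ => h.of_isCoprime_of_dvd_left (mem_pf' hQ).2.2
  have hC : IsCoprime (C G.leadingCoeff) v :=
    isCoprime_one_left.of_isCoprime_of_dvd_left (isUnit_iff_dvd_one.1 (isUnit_C.2 hl.isUnit))
  conv_lhs => rw [syc_fac hG]
  rw [lm_mul_left χ hv hC (IsCoprime.prod_left hQ), lm_C χ hv hl, lm_prod_left χ _ _ hv hQ]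

omit χ in
theorem natDegree_factor {G : F[X]} (hG : Squarefree G) :
    ∑ Q ∈ pf G, Q.natDegree = G.natDegree := by
  have h0 : G ≠ 0 := hG.ne_zero
  have hl : G.leadingCoeff ≠ 0 := leadingCoeff_ne_zero.2 h0
  conv_rhs => rw [syc_fac hG]
  rw [natDegree_C_mul hl, natDegree_prod _ _ fun Q hQ => (mem_pf' hQ).1.ne_zero]

/-- the coordinates of a sum over pairs (`H` symmetric) -/
theorem sum_ep_apply (H : Fin m → Fin m → ZMod ℓ) (hH : ∀ a b, H a b = H b a) (x : XX m ℓ)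
    (k : Fin m) :
    (∑ p ∈ prs m, (H p.1 p.2 * BB m ℓ (ep ℓ p.1 p.2) x) • ep ℓ p.1 p.2 : XX m ℓ).1 k =
      ∑ i ∈ Finset.univ.erase k, H k i * (x.1 k - x.1 i) := syc_coord H hH x k

omit χ in
theorem sum_pf_dl {A : Fin m → F[X]} (hs : Squarefree (dl A)) {Y : Type} [AddCommMonoid Y]
    (G : Fin m × Fin m → F[X] → Y) :
    ∑ v : pf (dl A), G (pr A v) v.1 = ∑ p ∈ prs m, ∑ Q ∈ pf (A p.1 - A p.2), G p Q := by
  classical
  have h0 : dl A ≠ 0 := hs.ne_zero
  have e1 : ∀ v : pf (dl A), G (pr A v) v.1 =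
      ∑ p ∈ prs m, if v.1 ∣ A p.1 - A p.2 then G p v.1 else 0 := by
    intro v
    rw [Finset.sum_eq_single (pr A v)]
    · rw [if_pos (pr_dvd A v)]
    · intro p hp hne
      rw [if_neg]
      intro h
      exact hne (syc_sq hs (mem_pf' v.2).2.1 hp (pr_mem A v) h (pr_dvd A v))
    · intro h
      exact absurd (pr_mem A v) h
  rw [Finset.sum_congr rfl fun v _ => e1 v, Finset.sum_comm]
  apply Finset.sum_congr rfl
  intro p hp
  rw [Finset.sum_coe_sort (pf (dl A)) (fun Q => if Q ∣ A p.1 - A p.2 then G p Q else 0),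
    ← Finset.sum_filter]
  apply Finset.sum_congr _ fun _ _ => rfl
  have hne : p.1 ≠ p.2 := (mem_prs.1 hp).ne
  ext Q
  rw [Finset.mem_filter, mem_pf h0, mem_pf (ne_of_sqf hs hne)]
  constructor
  · rintro ⟨⟨h1, h2, _⟩, h3⟩
    exact ⟨h1, h2, h3⟩
  · rintro ⟨h1, h2, h3⟩
    exact ⟨⟨h1, h2, h3.trans (dvd_dl hne)⟩, h3⟩

end

end Pool.Agent.H94.PL
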