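import Pool.Agent.H94.PL.Unr

set_option autoImplicit false

/-!
# [H94 PL] The ramified case, final form

`P` monic integral irreducible, `P ∣ D Q ^ ℓ - f`, `f` integral and a unit modulo `P`, `v(D)` not
divisible by `ℓ`: then `ℓ ∣ deg P` and all values of `P` at integral points are `ℓ`-th powers
modulo the maximal ideal.
-/

namespace Pool.Agent.H94.PL

open Polynomial WithZero Ideal

variable {M : Type*} [Field M] [hv : Valued M ℤᵐ⁰] [CompleteSpace M]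


section
variable {O : Type*} [CommRing O] [IsDomain O] [Algebra O M] [IsFractionRing O M]


omit [CompleteSpace M] [IsDomain O] [IsFractionRing O M] in
theorem IsInt.lift {ϖ : O} (h : IsInt O M ϖ) {P : M[X]} (hP : ∀ i, (Valued.v : Valuation M ℤᵐ⁰) (P.coeff i) ≤ 1) :
    ∃ P₀ : O[X], P₀.map (algebraMap O M) = P := by
  have h1 : P ∈ lifts (algebraMap O M) := by
    rw [lifts_iff_coeff_lifts]
    intro i
    exact (h.mem _).1 (hP i)
  exact (mem_lifts P).1 h1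

omit [CompleteSpace M] in
theorem IsInt.lift_monic {ϖ : O} (h : IsInt O M ϖ) {P : M[X]} (hPm : P.Monic)
    (hP : ∀ i, (Valued.v : Valuation M ℤᵐ⁰) (P.coeff i) ≤ 1) : ∃ P₀ : O[X], P₀.Monic ∧ P₀.map (algebraMap O M) = P := by
  obtain ⟨P₀, hP₀⟩ := h.lift hP
  refine ⟨P₀, ?_, hP₀⟩
  rw [← hP₀] at hPm
  exact monic_of_injective (IsFractionRing.injective O M) hPm

omit [CompleteSpace M] [IsDomain O] [IsFractionRing O M] in
theorem IsInt.denom {ϖ : O} (h : IsInt O M ϖ) (Q : M[X]) :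
    ∃ (b : ℕ) (Q₁ : O[X]), Q₁.map (algebraMap O M) = C ((algebraMap O M) ϖ ^ b) * Q := by
  obtain ⟨b, hb⟩ : ∃ b : ℕ, ∀ i, (Valued.v : Valuation M ℤᵐ⁰) ((algebraMap O M) ϖ ^ b * Q.coeff i) ≤ 1 := by
    have h1 : ∀ s : Finset ℕ, ∃ b : ℕ, ∀ i ∈ s, (Valued.v : Valuation M ℤᵐ⁰) ((algebraMap O M) ϖ ^ b * Q.coeff i) ≤ 1 := by
      intro s
      induction s using Finset.induction_on with
      | empty => exact ⟨0, fun i hi => absurd hi (Finset.notMem_empty i)⟩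
      | insert a s ha ih =>
        obtain ⟨b, hb⟩ := ih
        obtain ⟨c, hc⟩ : ∃ c : ℕ, (Valued.v : Valuation M ℤᵐ⁰) ((algebraMap O M) ϖ ^ c * Q.coeff a) ≤ 1 := by
          by_cases h0 : Q.coeff a = 0
          · exact ⟨0, by rw [h0, mul_zero, map_zero]; exact zero_le_one⟩
          · have h0' : (Valued.v : Valuation M ℤᵐ⁰) (Q.coeff a) ≠ 0 := (Valuation.ne_zero_iff _).2 h0
            refine ⟨(log ((Valued.v : Valuation M ℤᵐ⁰) (Q.coeff a))).toNat, ?_⟩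
            rw [map_mul, map_pow, h.unif, ← exp_log h0', ← exp_nsmul, ← exp_add, ← exp_zero,
              exp_le_exp, log_exp]
            have := Int.self_le_toNat (log ((Valued.v : Valuation M ℤᵐ⁰) (Q.coeff a)))
            simp only [smul_neg, nsmul_eq_mul, mul_one]
            linarith
        have hmono : ∀ {x : M} {i j : ℕ}, i ≤ j → (Valued.v : Valuation M ℤᵐ⁰) ((algebraMap O M) ϖ ^ i * x) ≤ 1 → (Valued.v : Valuation M ℤᵐ⁰) ((algebraMap O M) ϖ ^ j * x) ≤ 1 := by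
          intro x i j hij hx
          obtain ⟨k, rfl⟩ := Nat.exists_eq_add_of_le hij
          have e : (algebraMap O M) ϖ ^ (i + k) * x = (algebraMap O M) ϖ ^ k * ((algebraMap O M) ϖ ^ i * x) := by ring
          rw [e, map_mul]
          refine mul_le_one' ?_ hx
          rw [map_pow, h.unif]
          exact pow_le_one' (by decide) _
        refine ⟨max b c, fun i hi => ?_⟩
        rcases Finset.mem_insert.1 hi with rfl | hi
        · exact hmono (le_max_right _ _) hc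
        · exact hmono (le_max_left _ _) (hb i hi)
    obtain ⟨b, hb⟩ := h1 (Finset.range (Q.natDegree + 1))
    refine ⟨b, fun i => ?_⟩
    by_cases hi : i ≤ Q.natDegree
    · exact hb i (Finset.mem_range.2 (by omega))
    · rw [coeff_eq_zero_of_natDegree_lt (not_le.1 hi), mul_zero, map_zero]
      exact zero_le_one
  obtain ⟨Q₁, hQ₁⟩ := h.lift (P := C ((algebraMap O M) ϖ ^ b) * Q) (fun i => by rw [coeff_C_mul]; exact hb i)
  exact ⟨b, Q₁, hQ₁⟩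

theorem t2_int {ϖ : O} (h : IsInt O M ϖ) {ℓ : ℕ} (hℓ : ℓ.Prime) {P₀ : O[X]} (hP₀ : P₀.Monic)
    (hirr : Irreducible (P₀.map (algebraMap O M))) {D : M} (hD0 : D ≠ 0) (hD : ¬ Vd (Valued.v : Valuation M ℤᵐ⁰) ℓ D) (f : O[X])
    (hf : ∃ S T : O[X], S * f + T * P₀ = 1) (Q : M[X])
    (hQ : P₀.map (algebraMap O M) ∣ C D * Q ^ ℓ - f.map (algebraMap O M)) :
    ℓ ∣ P₀.natDegree ∧ ∀ b : O, ∃ y : O, ϖ ∣ P₀.eval b - y ^ ℓ := by
  obtain ⟨g, t, hgm, hg1, hgd, hg2, hg3⟩ := unr_pow h hP₀ hirr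
  have hϖ0 : (algebraMap O M) ϖ ≠ 0 := fun h0 => by
    have := h.unif
    rw [h0, map_zero] at this
    exact exp_ne_zero this.symm
  have hDv : (Valued.v : Valuation M ℤᵐ⁰) D ≠ 0 := (Valuation.ne_zero_iff _).2 hD0
  obtain ⟨k, hk⟩ : ∃ k : ℤ, (Valued.v : Valuation M ℤᵐ⁰) D = exp k := ⟨log ((Valued.v : Valuation M ℤᵐ⁰) D), (exp_log hDv).symm⟩
  obtain ⟨u, hu⟩ := (h.mem (D * (algebraMap O M) ϖ ^ k)).1 (by
    rw [map_mul, map_zpow₀, hk, h.unif, ← exp_zsmul, ← exp_add, ← exp_zero, exp_le_exp]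
    simp)
  have huu : IsUnit u := h.isUnit (by
    rw [hu, map_mul, map_zpow₀, hk, h.unif, ← exp_zsmul, ← exp_add, ← exp_zero]
    congr 1
    simp)
  obtain ⟨b, Q₁, hQ₁⟩ := h.denom Q
  set B : ℕ := k.natAbs with hB
  obtain ⟨e₁, he₁⟩ : ∃ e₁ : ℕ, (e₁ : ℤ) = (B : ℤ) * ℓ - k := by
    refine ⟨((B : ℤ) * ℓ - k).toNat, Int.toNat_of_nonneg ?_⟩
    have h1 : k ≤ (B : ℤ) := by rw [hB]; exact Int.le_natAbs
    have h2 : (B : ℤ) * 1 ≤ (B : ℤ) * ℓ :=
      mul_le_mul_of_nonneg_left (by exact_mod_cast hℓ.one_lt.le) (Int.natCast_nonneg _)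
    linarith
  have hrel : P₀ ∣ C ϖ ^ e₁ * (C u * Q₁ ^ ℓ) - C ϖ ^ ((b + B) * ℓ) * f := by
    rw [← Polynomial.map_dvd_map _ (IsFractionRing.injective O M) hP₀]
    have e1 : (C ϖ ^ e₁ * (C u * Q₁ ^ ℓ) - C ϖ ^ ((b + B) * ℓ) * f).map (algebraMap O M) =
        C ((algebraMap O M) ϖ) ^ ((b + B) * ℓ) * (C D * Q ^ ℓ - f.map (algebraMap O M)) := by
      rw [Polynomial.map_sub, Polynomial.map_mul, Polynomial.map_mul, Polynomial.map_mul,
        Polynomial.map_pow, Polynomial.map_pow, Polynomial.map_pow, map_C, map_C, hQ₁, hu, mul_pow]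
      have e2 : (C ((algebraMap O M) ϖ) : M[X]) ^ e₁ * C (D * (algebraMap O M) ϖ ^ k) = C ((algebraMap O M) ϖ) ^ (B * ℓ) * C D := by
        rw [← C_pow, ← C_pow, ← C_mul, ← C_mul]
        congr 1
        rw [← zpow_natCast, he₁, ← zpow_natCast]
        push_cast
        rw [zpow_sub₀ hϖ0]
        field_simp
      have e3 : (C ((algebraMap O M) ϖ ^ b) : M[X]) ^ ℓ = C ((algebraMap O M) ϖ) ^ (b * ℓ) := by
        rw [C_pow, pow_mul]
      rw [e3, add_mul, pow_add]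
      linear_combination (C ((algebraMap O M) ϖ) ^ (b * ℓ) * Q ^ ℓ) * e2
    rw [e1]
    exact hQ.mul_left _
  have hlen := unr_len h hP₀ hirr hg1 hg2 hg3 hℓ.ne_zero e₁ ((b + B) * ℓ) (C u) Q₁ f
    (isUnit_C.2 huu) hf hrel
  have hkl : ¬ (ℓ : ℤ) ∣ k := by
    rintro ⟨j, hj⟩
    exact hD (Vd.of_val (n := j) h.unif (by rw [hk, hj]))
  have hlt : ℓ ∣ t := by
    have h1 : (ℓ : ℤ) ∣ k * t := by
      have h2 : ((e₁ : ℤ) - ((b + B) * ℓ : ℕ)) * t = -(k * t) + ℓ * (-(b : ℤ) * t) := by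
        rw [he₁]; push_cast; ring
      rw [h2] at hlen
      have h3 := (Int.dvd_add_left (dvd_mul_right (ℓ : ℤ) (-(b : ℤ) * t))).1 hlen
      exact (Int.dvd_neg).1 h3
    rcases (Nat.prime_iff_prime_int.1 hℓ).dvd_or_dvd h1 with h2 | h2
    · exact absurd h2 hkl
    · exact_mod_cast h2
  obtain ⟨t', rfl⟩ := hlt
  refine ⟨?_, fun b => ?_⟩
  · rw [hgd, mul_assoc]
    exact dvd_mul_right _ _
  · refine ⟨(g.eval b) ^ t', ?_⟩
    obtain ⟨R, hR⟩ := hg1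
    have h1 := congrArg (Polynomial.eval b) hR
    rw [eval_sub, eval_pow, eval_mul, eval_C] at h1
    exact ⟨R.eval b, by rw [← h1, ← pow_mul, mul_comm t' ℓ]⟩

end

/-- the ring of integers -/
abbrev OO (M : Type*) [Field M] [Valued M ℤᵐ⁰] : Type _ :=
  (Valued.v : Valuation M ℤᵐ⁰).valuationSubring

omit [CompleteSpace M] in
theorem isInt_OO {ϖ : M} (hϖ : (Valued.v : Valuation M ℤᵐ⁰) ϖ = exp (-1 : ℤ)) :
    ∃ ϖ₀ : OO M, IsInt (OO M) M ϖ₀ ∧ algebraMap (OO M) M ϖ₀ = ϖ := by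
  have h1 : (Valued.v : Valuation M ℤᵐ⁰) ϖ ≤ 1 := by rw [hϖ]; decide
  refine ⟨⟨ϖ, h1⟩, ⟨fun x => ⟨fun hx => ⟨⟨x, hx⟩, rfl⟩, ?_⟩, hϖ⟩, rfl⟩
  rintro ⟨y, rfl⟩
  exact y.2

end Pool.Agent.H94.PL
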