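import Pool.Agent.H94.PL.CM
import Pool.Agent.H94.PL.NotPow

set_option autoImplicit false

/-!
# [H94 PL TH] The characters `ps (b deg D) * (∏ G_i ^ e_i / D)`

`ι` a finite type, `G i` monic squarefree, pairwise coprime, `e i : ZMod ℓ`; the exponent
`(e i).val + ℓ` makes the character vanish at the `D` not prime to all `G i`.

* `thc_CMc`: `cs_mul_right`, `ps_add`, `norm_cs_le`.
* `thc_val`: `cs_prod_left`, `cs_pow_left`, `cs_of_coprime`, `ps (lm) ^ ((e i).val + ℓ) = ps (e i * lm)`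
  (`ps_natCast_mul`, `ZMod.natCast_self`).
* `thc_zero`: if `D` is not prime to `G i` then `cs (∏ ..) D = 0` (`cs_eq_zero`, as
  `IsCoprime (∏ ..) D` would give `IsCoprime (G i) D`; exponent `≠ 0`).
* `thc_partial`: `E = ∏ G i ^ ((e i).val + ℓ)` is not an `ℓ`-th power: `G i₀ ≠ 1`, take a monic
  irreducible `P ∣ G i₀`; if `E = R ^ ℓ` then the multiplicity of `P` in `E` is
  `(e i₀).val + ℓ`, not divisible by `ℓ` (`P` divides `G i₀` exactly once and no other `G i`;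
  e.g. `emultiplicity_pow`, `Finset.emultiplicity_prod`).  `deg E ≤ 2 ℓ ∑ deg (G i)` and for
  `i ≥ deg E`, `Bs θ i = ps (b i) * ∑ A ∈ Mo i, cs E A = 0` (`sum_cs_left`); for `i < deg E` use
  `‖Bs θ i‖ ≤ #(Mo i) = q ^ i`.
* `deg_partial`: `Bs θ i = q ^ i * ps b ^ i`, and `‖∑ i ∈ range (j+1), ps b ^ i‖ ≤ 2 / ‖1 - ps b‖`
  (geometric sum, `ps b ≠ 1` by `ps_eq_one_iff`), which is a term of `Kc`.
-/

namespace Pool.Agent.H94.PL

open Polynomial
open Pool.Agent.H94.PC (Mo Sq Pr pf om Mn mem_Mo mem_Sq mem_Pr mem_pf mem_pf')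

variable {F : Type} [Field F] [Finite F] {ℓ : ℕ} [hl : Fact ℓ.Prime] (χ : LChar F ℓ)
  {ι : Type} [Fintype ι]

/-- the character -/
noncomputable def thc (b : ZMod ℓ) (G : ι → F[X]) (e : ι → ZMod ℓ) (D : F[X]) : ℂ :=
  ps (b * (D.natDegree : ZMod ℓ)) * cs χ (∏ i, G i ^ ((e i).val + ℓ)) D

theorem thc_CMc (b : ZMod ℓ) (G : ι → F[X]) (e : ι → ZMod ℓ) : CMc (thc χ b G e) := by
  refine ⟨?_, ?_, ?_⟩
  · rw [thc, cs_one_right, natDegree_one, Nat.cast_zero, mul_zero, ps_zero, one_mul]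
  · intro A B hA hB
    rw [thc, thc, thc, hA.natDegree_mul hB, Nat.cast_add, mul_add, ps_add, cs_mul_right χ _ hA hB]
    ring
  · intro A _
    rw [thc, norm_mul, norm_ps, one_mul]
    exact norm_cs_le χ _ _

theorem thc_ps (e a : ZMod ℓ) : ps a ^ (e.val + ℓ) = ps (e * a) := by
  rw [pow_add, ← ps_mul_val, ← ps_natCast_mul ℓ a, ZMod.natCast_self, zero_mul, ps_zero, mul_one]

theorem thc_val (b : ZMod ℓ) (G : ι → F[X]) (e : ι → ZMod ℓ) {D : F[X]} (hD : D.Monic)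
    (h : ∀ i, IsCoprime (G i) D) :
    thc χ b G e D = ps (b * (D.natDegree : ZMod ℓ) + ∑ i, e i * lm χ (G i) D) := by
  rw [thc, ps_add, ps_sum, cs_prod_left χ _ _ hD]
  congr 1
  refine Finset.prod_congr rfl fun i _ => ?_
  rw [cs_pow_left χ hD, cs_of_coprime χ hD (h i), thc_ps]

theorem thc_zero (b : ZMod ℓ) (G : ι → F[X]) (e : ι → ZMod ℓ) {D : F[X]} (hD : D.Monic)
    (i : ι) (h : ¬ IsCoprime (G i) D) : thc χ b G e D = 0 := by
  rw [thc, cs_eq_zero χ hD, mul_zero]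
  intro hc
  apply h
  have h1 := IsCoprime.prod_left_iff.1 hc i (Finset.mem_univ i)
  have hl0 : 0 < (e i).val + ℓ := Nat.add_pos_right _ (hl.out.pos)
  exact (IsCoprime.pow_left_iff hl0).1 h1

theorem thc_notpow (G : ι → F[X]) (e : ι → ZMod ℓ)
    (hG : ∀ i, (G i).Monic ∧ Squarefree (G i)) (hc : ∀ i j, i ≠ j → IsCoprime (G i) (G j))
    (i₀ : ι) (he : e i₀ ≠ 0) (hG1 : G i₀ ≠ 1) :
    ¬ ∃ R : F[X], ∏ i, G i ^ ((e i).val + ℓ) = R ^ ℓ := by
  rintro ⟨R, hR⟩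
  have hu : ¬ IsUnit (G i₀) := fun h => hG1 ((hG i₀).1.eq_one_of_isUnit h)
  obtain ⟨P, -, hPi, hPG⟩ := exists_monic_irreducible_factor (G i₀) hu
  have hPp : Prime P := hPi.prime
  have h1 : emultiplicity P (∏ i, G i ^ ((e i).val + ℓ)) = (((e i₀).val + ℓ : ℕ) : ℕ∞) := by
    rw [Finset.emultiplicity_prod hPp, Finset.sum_eq_single i₀]
    · rw [emultiplicity_pow hPp]
      have h2 : emultiplicity P (G i₀) = 1 := by
        apply le_antisymm
        · rcases (squarefree_iff_emultiplicity_le_one _).1 (hG i₀).2 P with h3 | h3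
          · exact h3
          · exact absurd h3 hPi.not_isUnit
        · have h3 := le_emultiplicity_of_pow_dvd (a := P) (b := G i₀) (k := 1)
            (by rw [pow_one]; exact hPG)
          exact_mod_cast h3
      rw [h2, mul_one]
    · intro j _ hj
      rw [emultiplicity_pow hPp]
      have h2 : emultiplicity P (G j) = 0 := by
        rw [emultiplicity_eq_zero]
        intro h3
        exact hPi.not_isUnit ((hc j i₀ hj).isUnit_of_dvd' h3 hPG)
      rw [h2, mul_zero]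
    · intro h2
      exact absurd (Finset.mem_univ i₀) h2
  have hR0 : R ≠ 0 := by
    rintro rfl
    rw [zero_pow hl.out.ne_zero] at hR
    exact (monic_prod_of_monic _ _ fun i _ => (hG i).1.pow _).ne_zero hR
  have hfm : FiniteMultiplicity P R := FiniteMultiplicity.of_prime_left hPp hR0
  rw [hR, emultiplicity_pow hPp, hfm.emultiplicity_eq_multiplicity] at h1
  have h4 : ℓ * multiplicity P R = (e i₀).val + ℓ := by exact_mod_cast h1
  have h5 : ℓ ∣ (e i₀).val := by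
    have h6 : ℓ ∣ (e i₀).val + ℓ := ⟨_, h4.symm⟩
    exact (Nat.dvd_add_left (dvd_refl ℓ)).1 h6
  have h7 : (e i₀).val = 0 := Nat.eq_zero_of_dvd_of_lt h5 (ZMod.val_lt _)
  exact he ((ZMod.val_eq_zero _).1 h7)

theorem thc_Bs (b : ZMod ℓ) (G : ι → F[X]) (e : ι → ZMod ℓ) (i : ℕ) :
    Bs (thc χ b G e) i =
      ps (b * (i : ZMod ℓ)) * ∑ A ∈ Mo F i, cs χ (∏ i, G i ^ ((e i).val + ℓ)) A := by
  rw [Bs, Finset.mul_sum]
  refine Finset.sum_congr rfl fun A hA => ?_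
  rw [thc, (mem_Mo.1 hA).2]

theorem thc_norm_Bs {θ : F[X] → ℂ} (h : CMc θ) (i : ℕ) : ‖Bs θ i / (Nat.card F : ℂ) ^ i‖ ≤ 1 := by
  have hq : (0 : ℝ) < (Nat.card F : ℝ) ^ i := by
    have : 0 < Nat.card F := Nat.card_pos
    positivity
  rw [norm_div, norm_pow, Complex.norm_natCast, div_le_one hq]
  calc ‖Bs θ i‖ ≤ ∑ A ∈ Mo F i, ‖θ A‖ := norm_sum_le _ _
    _ ≤ ∑ _A ∈ Mo F i, (1 : ℝ) := Finset.sum_le_sum fun A hA => h.le A (mem_Mo.1 hA).1
    _ = (Nat.card F : ℝ) ^ i := by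
      rw [Finset.sum_const, PC.card_Mo, nsmul_eq_mul, mul_one, Nat.cast_pow]

theorem thc_partial (h2 : ℓ ≠ 2) (b : ZMod ℓ) (G : ι → F[X]) (e : ι → ZMod ℓ)
    (hG : ∀ i, (G i).Monic ∧ Squarefree (G i)) (hc : ∀ i j, i ≠ j → IsCoprime (G i) (G j))
    (i₀ : ι) (he : e i₀ ≠ 0) (hG1 : G i₀ ≠ 1) (j : ℕ) :
    ‖∑ i ∈ Finset.range (j + 1), Bs (thc χ b G e) i / (Nat.card F : ℂ) ^ i‖ ≤
      2 * ℓ * ∑ i, ((G i).natDegree : ℝ) := by
  have hm : (∏ i, G i ^ ((e i).val + ℓ)).Monic :=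
    monic_prod_of_monic _ _ fun i _ => (hG i).1.pow _
  have hs := thc_notpow G e hG hc i₀ he hG1
  have hdeg : ((∏ i, G i ^ ((e i).val + ℓ)).natDegree : ℝ) ≤
      2 * ℓ * ∑ i, ((G i).natDegree : ℝ) := by
    rw [natDegree_prod_of_monic _ _ fun i _ => (hG i).1.pow _, Finset.mul_sum]
    push_cast
    refine Finset.sum_le_sum fun i _ => ?_
    rw [(hG i).1.natDegree_pow, Nat.cast_mul]
    have h3 : (((e i).val + ℓ : ℕ) : ℝ) ≤ 2 * ℓ := by
      have h4 : (e i).val ≤ ℓ := (ZMod.val_lt (e i)).le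
      have h5 : (e i).val + ℓ ≤ 2 * ℓ := by omega
      exact_mod_cast h5
    exact mul_le_mul_of_nonneg_right h3 (Nat.cast_nonneg _)
  refine le_trans ?_ hdeg
  set n := (∏ i, G i ^ ((e i).val + ℓ)).natDegree with hn
  have hterm : ∀ i, ‖Bs (thc χ b G e) i / (Nat.card F : ℂ) ^ i‖ ≤ if i < n then (1 : ℝ) else 0 := by
    intro i
    split_ifs with hi
    · exact thc_norm_Bs (thc_CMc χ b G e) i
    · rw [thc_Bs, sum_cs_left χ h2 hm hs (not_lt.1 hi), mul_zero, zero_div, norm_zero]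
  calc ‖∑ i ∈ Finset.range (j + 1), Bs (thc χ b G e) i / (Nat.card F : ℂ) ^ i‖
      ≤ ∑ i ∈ Finset.range (j + 1), ‖Bs (thc χ b G e) i / (Nat.card F : ℂ) ^ i‖ :=
        norm_sum_le _ _
    _ ≤ ∑ i ∈ Finset.range (j + 1), if i < n then (1 : ℝ) else 0 :=
        Finset.sum_le_sum fun i _ => hterm i
    _ = (((Finset.range (j + 1)).filter (fun i => i < n)).card : ℝ) := by
        rw [Finset.sum_ite, Finset.sum_const_zero, add_zero, Finset.sum_const, nsmul_eq_mul,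
          mul_one]
    _ ≤ n := by
        have h3 : ((Finset.range (j + 1)).filter (fun i => i < n)) ⊆ Finset.range n := by
          intro i hi
          exact Finset.mem_range.2 (Finset.mem_filter.1 hi).2
        have h4 := Finset.card_le_card h3
        rw [Finset.card_range] at h4
        exact_mod_cast h4

/-- a constant -/
noncomputable def Kc (ℓ : ℕ) [NeZero ℓ] : ℝ :=
  1 + ∑ b : ZMod ℓ, 2 / ‖1 - ps b‖

theorem one_le_Kc : 1 ≤ Kc ℓ := by
  rw [Kc, le_add_iff_nonneg_right]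
  exact Finset.sum_nonneg fun b _ => by positivity

/-- the character `ps (b deg D)` -/
noncomputable def thd (b : ZMod ℓ) (D : F[X]) : ℂ := ps (b * (D.natDegree : ZMod ℓ))

theorem thd_CMc (b : ZMod ℓ) : CMc (thd (F := F) b) := by
  refine ⟨?_, ?_, ?_⟩
  · rw [thd, natDegree_one, Nat.cast_zero, mul_zero, ps_zero]
  · intro A B hA hB
    rw [thd, thd, thd, hA.natDegree_mul hB, Nat.cast_add, mul_add, ps_add]
  · intro A _
    rw [thd, norm_ps]

theorem thd_partial {b : ZMod ℓ} (hb : b ≠ 0) (j : ℕ) :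
    ‖∑ i ∈ Finset.range (j + 1), Bs (thd (F := F) b) i / (Nat.card F : ℂ) ^ i‖ ≤ Kc ℓ := by
  have hps : ps b ≠ 1 := fun h => hb (ps_eq_one_iff.1 h)
  have hterm : ∀ i, Bs (thd (F := F) b) i / (Nat.card F : ℂ) ^ i = ps b ^ i := by
    intro i
    have hq : (Nat.card F : ℂ) ^ i ≠ 0 := by
      have : Nat.card F ≠ 0 := Nat.card_pos.ne'
      exact pow_ne_zero _ (by exact_mod_cast this)
    have h1 : Bs (thd (F := F) b) i = ∑ _A ∈ Mo F i, ps b ^ i := by
      rw [Bs]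
      refine Finset.sum_congr rfl fun A hA => ?_
      rw [thd, (mem_Mo.1 hA).2, mul_comm, ps_natCast_mul]
    rw [h1, Finset.sum_const, PC.card_Mo, nsmul_eq_mul, Nat.cast_pow, mul_div_cancel_left₀ _ hq]
  rw [Finset.sum_congr rfl fun i _ => hterm i, geom_sum_eq hps, norm_div]
  have h1 : ‖ps b ^ (j + 1) - 1‖ ≤ 2 := by
    refine (norm_sub_le _ _).trans ?_
    rw [norm_pow, norm_ps, one_pow, norm_one]
    norm_num
  have h2 : ‖ps b - 1‖ = ‖1 - ps b‖ := norm_sub_rev _ _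
  rw [h2]
  have h3 : ‖ps b ^ (j + 1) - 1‖ / ‖1 - ps b‖ ≤ 2 / ‖1 - ps b‖ :=
    div_le_div_of_nonneg_right h1 (norm_nonneg _)
  refine h3.trans ?_
  have h4 : 2 / ‖1 - ps b‖ ≤ ∑ b : ZMod ℓ, 2 / ‖1 - ps b‖ :=
    Finset.single_le_sum (f := fun b : ZMod ℓ => 2 / ‖1 - ps b‖) (fun _ _ => by positivity)
      (Finset.mem_univ b)
  rw [Kc]
  linarith

end Pool.Agent.H94.PL
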