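import Pool.Agent.H94.PL.Sd

set_option autoImplicit false

/-!
# [H94 PL TK] Exponents of the torsion classes and of `nv`

`tv (DK c D) (AK A) s k = (c D)^(s k) * ∏_{i ≠ k} (A k - A i)^(s i - s k)`; `ex_mul`, `ex_prod`, `ex_zpow`, `ex_poly`,
`ex_of_not_dvd`, `ex_of_dvd_sqf` (`D` is squarefree, prime to `dl A`, and `A i - A k ∣ dl A` is squarefree), `kap_...`; `AK A k - AK A i =
algebraMap (A k - A i)`.  `bet_apply`, `toX_apply` (`∑ s = 0` in `ZMod ℓ`), `pr_unique`, `pr_dvd`, `BB_ep`, `ep_apply`.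
For `v` with pair `(i, j)`: `ex v (A k - A i') = 1` iff `{k, i'} = {i, j}`.
-/

namespace Pool.Agent.H94.PL

open Polynomial
open Pool.Agent.H94.PC (Mo Sq Pr pf om Mn mem_Mo mem_Sq mem_Pr mem_pf mem_pf')

variable {F : Type} [Field F] [Finite F] {ℓ m : ℕ} [hl : Fact ℓ.Prime]

theorem cast_sum_zero {s : Fin m → ℤ} (h : (ℓ : ℤ) ∣ ∑ k, s k) :
    ∑ k, ((s k : ℤ) : ZMod ℓ) = 0 := by
  rw [← Int.cast_sum]
  exact (ZMod.intCast_zmod_eq_zero_iff_dvd _ ℓ).2 h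

theorem tk_sqf {A : Fin m → F[X]} (hs : Squarefree (dl A)) {a b : Fin m} (hab : a ≠ b) :
    Squarefree (A a - A b) := hs.squarefree_of_dvd (dvd_dl hab)

theorem tk_AK (A : Fin m → F[X]) (a b : Fin m) :
    AK A a - AK A b = algebraMap F[X] (RatFunc F) (A a - A b) := by
  rw [AK, AK, map_sub]

theorem tk_C {c : F} (hc : c ≠ 0) (D : F[X]) : C c * D ∣ D := by
  refine ⟨C c⁻¹, ?_⟩
  have h1 : (C c : F[X]) * C c⁻¹ = 1 := by
    rw [← C_mul, mul_inv_cancel₀ hc, C_1]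
  linear_combination (-D) * h1

theorem tk_cop {D E : F[X]} (h : IsCoprime D E) {Q : F[X]} (hQ : Irreducible Q) (h1 : Q ∣ D) :
    ¬ Q ∣ E := fun h2 => hQ.not_isUnit (h.isUnit_of_dvd' h1 h2)

/-- exponents of the differences -/
theorem ex_sub_N {A : Fin m → F[X]} (hs : Squarefree (dl A)) (v : pf (dl A)) {a b : Fin m}
    (hab : a ≠ b) : ex ℓ v.1 (AK A a - AK A b) =
      if (a = (pr A v).1 ∧ b = (pr A v).2) ∨ (a = (pr A v).2 ∧ b = (pr A v).1) then 1 else 0 := by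
  have hv := (mem_pf' v.2).2.1
  rw [tk_AK]
  split_ifs with h
  · refine ex_of_dvd_sqf hv ?_ (tk_sqf hs hab)
    rcases h with ⟨h1, h2⟩ | ⟨h1, h2⟩
    · rw [h1, h2]
      exact pr_dvd A v
    · rw [h1, h2, ← neg_sub]
      exact (dvd_neg).2 (pr_dvd A v)
  · refine ex_of_not_dvd hv fun h1 => h (pr_unique hs v hab h1)

theorem ex_sub_good {A : Fin m → F[X]} (hs : Squarefree (dl A)) {Q : F[X]} (hQ : Irreducible Q)
    (hQd : ¬ Q ∣ dl A) {a b : Fin m} (hab : a ≠ b) : ex ℓ Q (AK A a - AK A b) = 0 := by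
  rw [tk_AK]
  exact ex_of_not_dvd hQ fun h1 => hQd (h1.trans (dvd_dl hab))

theorem ex_DK_D {c : F} (hc : c ≠ 0) {D : F[X]} (hD : Squarefree D) (P : pf D) :
    ex ℓ P.1 (DK c D) = 1 := by
  have hP := mem_pf' P.2
  rw [DK]
  exact ex_of_dvd_sqf hP.2.1 (Dvd.dvd.mul_left hP.2.2 _) (hD.squarefree_of_dvd (tk_C hc D))

theorem ex_DK_good {c : F} (hc : c ≠ 0) {D : F[X]} {Q : F[X]} (hQ : Irreducible Q)
    (hQd : ¬ Q ∣ D) : ex ℓ Q (DK c D) = 0 := by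
  rw [DK]
  exact ex_of_not_dvd hQ fun h1 => hQd (h1.trans (tk_C hc D))

/-- exponents of the torsion classes -/
theorem tk_tv {c : F} (hc : c ≠ 0) {A : Fin m → F[X]} (hs : Squarefree (dl A)) {D : F[X]}
    (hD : D.Monic) {Q : F[X]} (hQ : Irreducible Q) (s : Fin m → ℤ) (k : Fin m) :
    ex ℓ Q (tv (DK c D) (AK A) s k) = (s k : ZMod ℓ) * ex ℓ Q (DK c D) +
      ∑ i ∈ Finset.univ.erase k, ((s i : ZMod ℓ) - s k) * ex ℓ Q (AK A k - AK A i) := by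
  have hd : ∀ i ∈ Finset.univ.erase k, AK A k - AK A i ≠ 0 := fun i hi =>
    AK_sub_ne hs (Finset.ne_of_mem_erase hi).symm
  have hd2 : ∀ i ∈ Finset.univ.erase k, (AK A k - AK A i) ^ (s i - s k) ≠ 0 := fun i hi =>
    zpow_ne_zero _ (hd i hi)
  rw [tv, ex_mul hQ (zpow_ne_zero _ (DK_ne hc hD.ne_zero)) (Finset.prod_ne_zero_iff.2 hd2),
    ex_zpow hQ (DK_ne hc hD.ne_zero), ex_prod hQ _ _ hd2]
  congr 1
  refine Finset.sum_congr rfl fun i hi => ?_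
  rw [ex_zpow hQ (hd i hi), Int.cast_sub]

/-- exponents of `nv` -/
theorem tk_nv {c : F} (hc : c ≠ 0) {A : Fin m → F[X]} (hs : Squarefree (dl A)) {D : F[X]}
    (hD : D.Monic) {Q : F[X]} (hQ : Irreducible Q) {i j : Fin m} (hij : i ≠ j) :
    ex ℓ Q (nv (DK c D) (AK A) i j) = ex ℓ Q (DK c D) - (2 * ex ℓ Q (AK A i - AK A j) +
      ∑ k ∈ (Finset.univ.erase i).erase j, ex ℓ Q (AK A i - AK A k)) := by
  have hd : ∀ k ∈ (Finset.univ.erase i).erase j, AK A i - AK A k ≠ 0 := fun k hk =>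
    AK_sub_ne hs (Finset.ne_of_mem_erase (Finset.mem_of_mem_erase hk)).symm
  have h1 : (AK A i - AK A j) ^ 2 ≠ 0 := pow_ne_zero _ (AK_sub_ne hs hij)
  have h2 : ∏ k ∈ (Finset.univ.erase i).erase j, (AK A i - AK A k) ≠ 0 :=
    Finset.prod_ne_zero_iff.2 hd
  rw [nv, ex_div hQ (DK_ne hc hD.ne_zero) (mul_ne_zero h1 h2), ex_mul hQ h1 h2,
    ex_pow hQ (AK_sub_ne hs hij), ex_prod hQ _ _ hd, Nat.cast_ofNat]

theorem ex_tv_D {c : F} (hc : c ≠ 0) {A : Fin m → F[X]} (hs : Squarefree (dl A)) {D : F[X]}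
    (hD : D.Monic) (hDs : Squarefree D) (hDA : IsCoprime D (dl A)) (s : Fin m → ℤ) (k : Fin m)
    (P : pf D) : ex ℓ P.1 (tv (DK c D) (AK A) s k) = (s k : ZMod ℓ) := by
  have hP := mem_pf' P.2
  have hPN : ¬ P.1 ∣ dl A := tk_cop hDA hP.2.1 hP.2.2
  rw [tk_tv hc hs hD hP.2.1, ex_DK_D hc hDs P, mul_one, Finset.sum_eq_zero, add_zero]
  intro i hi
  rw [ex_sub_good hs hP.2.1 hPN (Finset.ne_of_mem_erase hi).symm, mul_zero]

theorem ex_tv_good {c : F} (hc : c ≠ 0) {A : Fin m → F[X]} (hs : Squarefree (dl A)) {D : F[X]}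
    (hD : D.Monic) {Q : F[X]} (hQ : Irreducible Q) (h1 : ¬ Q ∣ D) (h2 : ¬ Q ∣ dl A)
    (s : Fin m → ℤ) (k : Fin m) : ex ℓ Q (tv (DK c D) (AK A) s k) = 0 := by
  rw [tk_tv hc hs hD hQ, ex_DK_good hc hQ h1, mul_zero, Finset.sum_eq_zero, add_zero]
  intro i hi
  rw [ex_sub_good hs hQ h2 (Finset.ne_of_mem_erase hi).symm, mul_zero]

theorem ex_tv_N {c : F} (hc : c ≠ 0) {A : Fin m → F[X]} (hs : Squarefree (dl A)) {D : F[X]}
    (hD : D.Monic) (hDA : IsCoprime D (dl A)) (s : Fin m → ℤ) (hℓs : (ℓ : ℤ) ∣ ∑ k, s k)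
    (k : Fin m) (v : pf (dl A)) : ex ℓ v.1 (tv (DK c D) (AK A) s k) =
      -(BB m ℓ (ep ℓ (pr A v).1 (pr A v).2) (toX fun i => (s i : ZMod ℓ))) *
        (ep ℓ (pr A v).1 (pr A v).2).1 k := by
  have hv := mem_pf' v.2
  have hvD : ¬ v.1 ∣ D := tk_cop hDA.symm hv.2.1 hv.2.2
  have hpr : (pr A v).1 ≠ (pr A v).2 := (pr_lt A v).ne
  rw [tk_tv hc hs hD hv.2.1, ex_DK_good hc hv.2.1 hvD, mul_zero, zero_add, ep_BB,
    toX_apply (cast_sum_zero hℓs), toX_apply (cast_sum_zero hℓs), ep_apply]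
  have h1 : ∀ i ∈ Finset.univ.erase k, ((s i : ZMod ℓ) - s k) * ex ℓ v.1 (AK A k - AK A i) =
      ((s i : ZMod ℓ) - s k) *
        (if (k = (pr A v).1 ∧ i = (pr A v).2) ∨ (k = (pr A v).2 ∧ i = (pr A v).1) then 1 else 0) := by
    intro i hi
    rw [ex_sub_N hs v (Finset.ne_of_mem_erase hi).symm]
  rw [Finset.sum_congr rfl h1]
  by_cases hk1 : k = (pr A v).1
  · have hk2 : k ≠ (pr A v).2 := by
      rw [hk1]
      exact hpr
    rw [Finset.sum_eq_single (pr A v).2, if_pos (Or.inl ⟨hk1, rfl⟩), if_pos hk1, if_neg hk2, hk1]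
    · ring
    · intro i _ hi
      rw [if_neg, mul_zero]
      rintro (⟨_, h⟩ | ⟨h, _⟩)
      · exact hi h
      · exact hk2 h
    · intro h
      exact absurd (Finset.mem_erase.2 ⟨hk2.symm, Finset.mem_univ _⟩) h
  · by_cases hk2 : k = (pr A v).2
    · rw [Finset.sum_eq_single (pr A v).1, if_pos (Or.inr ⟨hk2, rfl⟩), if_neg hk1, if_pos hk2, hk2]
      · ring
      · intro i _ hi
        rw [if_neg, mul_zero]
        rintro (⟨h, _⟩ | ⟨_, h⟩)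
        · exact hk1 h
        · exact hi h
      · intro h
        exact absurd (Finset.mem_erase.2 ⟨fun h' => hk1 h'.symm, Finset.mem_univ _⟩) h
    · rw [Finset.sum_eq_zero, if_neg hk1, if_neg hk2, sub_zero, mul_zero]
      intro i _
      rw [if_neg, mul_zero]
      rintro (⟨h, _⟩ | ⟨h, _⟩)
      · exact hk1 h
      · exact hk2 h

theorem tk_kapDK (χ : LChar F ℓ) {c : F} (hc : c ≠ 0) {D : F[X]} (hD : D.Monic) :
    kap χ (DK c D) = χ.lg c := by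
  rw [DK, kap_poly χ (mul_ne_zero (C_ne_zero.2 hc) hD.ne_zero), leadingCoeff_mul, leadingCoeff_C,
    hD.leadingCoeff, mul_one]

theorem tk_kapAK (χ : LChar F ℓ) {A : Fin m → F[X]} (hs : Squarefree (dl A)) {a b : Fin m}
    (hab : a ≠ b) : kap χ (AK A a - AK A b) = χ.lg (A a - A b).leadingCoeff := by
  rw [tk_AK, kap_poly χ (ne_of_sqf hs hab)]

theorem kap_tv (χ : LChar F ℓ) (h2 : ℓ ≠ 2) {c : F} (hc : c ≠ 0) {A : Fin m → F[X]}
    (hs : Squarefree (dl A)) {D : F[X]} (hD : D.Monic) (s : Fin m → ℤ)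
    (hℓs : (ℓ : ℤ) ∣ ∑ k, s k) (k : Fin m) : kap χ (tv (DK c D) (AK A) s k) =
      -((syC χ c A).bet (toX fun i => (s i : ZMod ℓ))).1 k := by
  have hd : ∀ i ∈ Finset.univ.erase k, AK A k - AK A i ≠ 0 := fun i hi =>
    AK_sub_ne hs (Finset.ne_of_mem_erase hi).symm
  have hd2 : ∀ i ∈ Finset.univ.erase k, (AK A k - AK A i) ^ (s i - s k) ≠ 0 := fun i hi =>
    zpow_ne_zero _ (hd i hi)
  have h1 : ∀ i ∈ Finset.univ.erase k, kap χ ((AK A k - AK A i) ^ (s i - s k)) =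
      -(χ.lg (A k - A i).leadingCoeff * ((s k : ZMod ℓ) - s i)) := by
    intro i hi
    rw [kap_zpow χ (hd i hi), tk_kapAK χ hs (Finset.ne_of_mem_erase hi).symm, Int.cast_sub]
    ring
  rw [bet_apply χ h2, tv, kap_mul χ (zpow_ne_zero _ (DK_ne hc hD.ne_zero))
    (Finset.prod_ne_zero_iff.2 hd2), kap_zpow χ (DK_ne hc hD.ne_zero), kap_prod χ _ _ hd2,
    tk_kapDK χ hc hD, Finset.sum_congr rfl h1, Finset.sum_neg_distrib]
  have hx : ∀ i, (toX fun i => (s i : ZMod ℓ)).1 i = (s i : ZMod ℓ) :=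
    toX_apply (cast_sum_zero hℓs)
  simp only [hx]
  ring

theorem kap_nv (χ : LChar F ℓ) {c : F} (hc : c ≠ 0) {A : Fin m → F[X]}
    (hs : Squarefree (dl A)) {D : F[X]} (hD : D.Monic) {i j : Fin m} (hij : i ≠ j) :
    kap χ (nv (DK c D) (AK A) i j) = χ.lg c - (2 * χ.lg (A i - A j).leadingCoeff +
      ∑ k ∈ (Finset.univ.erase i).erase j, χ.lg (A i - A k).leadingCoeff) := by
  have hd : ∀ k ∈ (Finset.univ.erase i).erase j, AK A i - AK A k ≠ 0 := fun k hk =>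
    AK_sub_ne hs (Finset.ne_of_mem_erase (Finset.mem_of_mem_erase hk)).symm
  have h1 : (AK A i - AK A j) ^ 2 ≠ 0 := pow_ne_zero _ (AK_sub_ne hs hij)
  have h2 : ∏ k ∈ (Finset.univ.erase i).erase j, (AK A i - AK A k) ≠ 0 :=
    Finset.prod_ne_zero_iff.2 hd
  rw [nv, kap_div χ (DK_ne hc hD.ne_zero) (mul_ne_zero h1 h2), kap_mul χ h1 h2,
    kap_pow χ (AK_sub_ne hs hij), kap_prod χ _ _ hd, Nat.cast_ofNat, tk_kapDK χ hc hD,
    tk_kapAK χ hs hij]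
  congr 2
  refine Finset.sum_congr rfl fun k hk => ?_
  rw [tk_kapAK χ hs (Finset.ne_of_mem_erase (Finset.mem_of_mem_erase hk)).symm]

theorem ex_nv_D {c : F} (hc : c ≠ 0) {A : Fin m → F[X]} (hs : Squarefree (dl A)) {D : F[X]}
    (hD : D.Monic) (hDs : Squarefree D) (hDA : IsCoprime D (dl A)) {i j : Fin m} (hij : i ≠ j)
    (P : pf D) : ex ℓ P.1 (nv (DK c D) (AK A) i j) = 1 := by
  have hP := mem_pf' P.2
  have hPN : ¬ P.1 ∣ dl A := tk_cop hDA hP.2.1 hP.2.2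
  rw [tk_nv hc hs hD hP.2.1 hij, ex_DK_D hc hDs P, ex_sub_good hs hP.2.1 hPN hij, mul_zero,
    zero_add, Finset.sum_eq_zero, sub_zero]
  intro k hk
  rw [ex_sub_good hs hP.2.1 hPN (Finset.ne_of_mem_erase (Finset.mem_of_mem_erase hk)).symm]

theorem ex_nv_good {c : F} (hc : c ≠ 0) {A : Fin m → F[X]} (hs : Squarefree (dl A)) {D : F[X]}
    (hD : D.Monic) {Q : F[X]} (hQ : Irreducible Q) (h1 : ¬ Q ∣ D) (h2 : ¬ Q ∣ dl A)
    {i j : Fin m} (hij : i ≠ j) : ex ℓ Q (nv (DK c D) (AK A) i j) = 0 := by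
  rw [tk_nv hc hs hD hQ hij, ex_DK_good hc hQ h1, ex_sub_good hs hQ h2 hij, mul_zero,
    zero_add, Finset.sum_eq_zero, sub_zero]
  intro k hk
  rw [ex_sub_good hs hQ h2 (Finset.ne_of_mem_erase (Finset.mem_of_mem_erase hk)).symm]

end Pool.Agent.H94.PL
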