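import Pool.Agent.H94.PL.Rb

set_option autoImplicit false

/-!
# [H94 PL TU] The contribution of the configurations with small variables outside `U`

`TUc`: the sum of `WL` over the `x` with `deg x_w < z` for all `w ∉ U`.
By `sum_mgU` it is `∑ y, if ∀ w, deg y_w < z then ∑ x, WL (mgU U x y) else 0`.
If `(b, g)` is not constant on `U` use `rb_two` for all `y` and `sum_prod_wl`
(`z * z ^ (|V| - N) ≤ z ^ (|V| + 1)`).  If it is constant, the term with all `y_w = 1` is at most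
`#(Cls Δ n)` (`rb_one`; this is one `y`, `Mn.one`, `deg = 0 < z`), and the others are treated by `rb_two`.
-/

namespace Pool.Agent.H94.PL

open Polynomial
open Pool.Agent.H94.PC (Mo Sq Pr pf om Mn mem_Mo mem_Sq mem_Pr mem_pf mem_pf')

variable {F : Type} [Field F] [Finite F] {ℓ : ℕ} [hl : Fact ℓ.Prime]
  {V : Type} [Fintype V] [DecidableEq V]

/-- the constant in the bounds -/
noncomputable def tu_cc (F : Type) [Field F] [Finite F] (ℓ : ℕ) [NeZero ℓ] (V : Type) [Fintype V]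
    (Δ : F[X]) (N n z : ℕ) : ℝ :=
  Cb ℓ V Δ * z * (Nat.card F : ℝ) ^ n * (n : ℝ) ^ (-(1 / (2 * N)) : ℝ)

omit [DecidableEq V] in
theorem tu_cc_nonneg (Δ : F[X]) (N n z : ℕ) : 0 ≤ tu_cc F ℓ V Δ N n z := by
  have h1 : 0 ≤ Cb ℓ V Δ := by
    have := one_le_Kc (ℓ := ℓ)
    unfold Cb
    positivity
  unfold tu_cc
  positivity

open Classical in
theorem tu_eqL (χ : LChar F ℓ) (C : CD V ℓ) (Δ : F[X])
    (b : V → ZMod ℓ) (g : V → pf Δ → ZMod ℓ) (U : Finset V) (n z : ℕ) :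
    ∑ x : V → Mn F n, (if ∀ w, w ∉ U → (x w).1.natDegree < z then WL χ C Δ b g n x
      else 0) = ∑ y : {w // w ∉ U} → Mn F n,
      if ∀ w, (y w).1.natDegree < z then ∑ x : {u // u ∈ U} → Mn F n,
        WL χ C Δ b g n (mgU U x y) else 0 := by
  rw [sum_mgU U]
  apply Finset.sum_congr rfl
  intro y _
  by_cases h : ∀ w, (y w).1.natDegree < z
  · rw [if_pos h]
    apply Finset.sum_congr rfl
    intro x _
    rw [if_pos]
    intro w hw
    rw [mgU_out U x y ⟨w, hw⟩]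
    exact h _
  · rw [if_neg h]
    apply Finset.sum_eq_zero
    intro x _
    rw [if_neg]
    intro h'
    apply h
    intro w
    have := h' w.1 w.2
    rwa [mgU_out U x y w] at this

open Classical in
theorem tu_sumL (Δ : F[X]) (N n z : ℕ) (hN : 1 ≤ N) (hz : 1 ≤ z) (U : Finset V) :
    tu_cc F ℓ V Δ N n z * ∑ y : {w // w ∉ U} → Mn F n,
      (if ∀ w, (y w).1.natDegree < z then ∏ w, wl N (y w).1 else 0) ≤
    Cb ℓ V Δ * (z : ℝ) ^ (Fintype.card V + 1) * (Nat.card F : ℝ) ^ n *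
        (n : ℝ) ^ (-(1 / (2 * N)) : ℝ) := by
  have h1 : ∑ y : {w // w ∉ U} → Mn F n,
      (if ∀ w, (y w).1.natDegree < z then ∏ w, wl N (y w).1 else 0) ≤
      (z : ℝ) ^ Fintype.card {w // w ∉ U} := by
    refine le_trans (le_of_eq ?_) (sum_prod_wl (F := F) (κ := {w // w ∉ U}) hN n z)
    refine Finset.sum_congr (Finset.ext fun _ => by simp only [Finset.mem_univ]) fun y _ => ?_
    by_cases h : ∀ w, (y w).1.natDegree < z
    · simp only [if_pos h]
    · simp only [if_neg h]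
  have h2 : (z : ℝ) ^ Fintype.card {w // w ∉ U} ≤ (z : ℝ) ^ Fintype.card V :=
    pow_le_pow_right₀ (by exact_mod_cast hz) (Fintype.card_subtype_le _)
  have h3 : 0 ≤ Cb ℓ V Δ := by
    have := one_le_Kc (ℓ := ℓ)
    unfold Cb
    positivity
  refine (mul_le_mul_of_nonneg_left (h1.trans h2)
    (tu_cc_nonneg (ℓ := ℓ) (V := V) Δ N n z)).trans (le_of_eq ?_)
  unfold tu_cc
  ring

open Classical in
theorem tu_non (χ : LChar F ℓ) (h2 : ℓ ≠ 2) (C : CD V ℓ) (hC : C.Good) (Δ : F[X])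
    (hΔ : Δ ≠ 0) (b : V → ZMod ℓ) (g : V → pf Δ → ZMod ℓ) (U : Finset V) (hU : C.Unl U)
    (hcard : U.card = C.N) (hne : ¬ Cst b g U) (n z : ℕ) (hz : 1 ≤ z)
    (hn : 2 * (Fintype.card V + 1) * z ≤ n) :
    ‖∑ x : V → Mn F n, (if ∀ w, w ∉ U → (x w).1.natDegree < z then WL χ C Δ b g n x
      else 0)‖ ≤
      Cb ℓ V Δ * (z : ℝ) ^ (Fintype.card V + 1) * (Nat.card F : ℝ) ^ n *
        (n : ℝ) ^ (-(1 / (2 * C.N)) : ℝ) := by
  rw [tu_eqL]
  refine (norm_sum_le _ _).trans (le_trans ?_ (tu_sumL Δ C.N n z hC.pos hz U))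
  rw [Finset.mul_sum]
  apply Finset.sum_le_sum
  intro y _
  by_cases h : ∀ w, (y w).1.natDegree < z
  · simp only [if_pos h]
    exact rb_two χ h2 C hC Δ hΔ b g U hU hcard n z hz hn y h (Or.inr hne)
  · rw [if_neg h, if_neg h, norm_zero, mul_zero]

open Classical in
theorem tu_cst (χ : LChar F ℓ) (h2 : ℓ ≠ 2) (C : CD V ℓ) (hC : C.Good) (Δ : F[X])
    (hΔ : Δ ≠ 0) (b : V → ZMod ℓ) (g : V → pf Δ → ZMod ℓ) (U : Finset V) (hU : C.Unl U)
    (hcard : U.card = C.N) (n z : ℕ) (hz : 1 ≤ z)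
    (hn : 2 * (Fintype.card V + 1) * z ≤ n) :
    ‖∑ x : V → Mn F n, (if ∀ w, w ∉ U → (x w).1.natDegree < z then WL χ C Δ b g n x
      else 0)‖ ≤ ((Cls Δ n).card : ℝ) +
      Cb ℓ V Δ * (z : ℝ) ^ (Fintype.card V + 1) * (Nat.card F : ℝ) ^ n *
        (n : ℝ) ^ (-(1 / (2 * C.N)) : ℝ) := by
  rw [tu_eqL]
  refine (norm_sum_le _ _).trans ?_
  have key : ∀ y : {w // w ∉ U} → Mn F n,
      ‖(if ∀ w, (y w).1.natDegree < z then ∑ x : {u // u ∈ U} → Mn F n,
        WL χ C Δ b g n (mgU U x y) else 0)‖ ≤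
      (if y = (fun _ => PC.Mn.one n) then ((Cls Δ n).card : ℝ) else 0) +
        tu_cc F ℓ V Δ C.N n z *
          (if ∀ w, (y w).1.natDegree < z then ∏ w, wl C.N (y w).1 else 0) := by
    intro y
    have h0 : 0 ≤ tu_cc F ℓ V Δ C.N n z *
        (if ∀ w, (y w).1.natDegree < z then ∏ w, wl C.N (y w).1 else 0) := by
      apply mul_nonneg (tu_cc_nonneg Δ C.N n z)
      split_ifs
      · exact Finset.prod_nonneg fun w _ => wl_nonneg _ _
      · exact le_rfl
    by_cases h : ∀ w, (y w).1.natDegree < z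
    · by_cases hy : y = fun _ => PC.Mn.one n
      · rw [if_pos h, if_pos hy]
        have h1 : ‖∑ x : {u // u ∈ U} → Mn F n, WL χ C Δ b g n (mgU U x y)‖ ≤
            ((Cls Δ n).card : ℝ) :=
          rb_one χ h2 C hC Δ hΔ b g U hU hcard n y (fun w => by rw [hy]; rfl)
        linarith
      · rw [if_neg hy, zero_add]
        rw [if_pos h, if_pos h]
        have h1 : ∃ w, (y w).1 ≠ 1 := by
          by_contra hcon
          push Not at hcon
          apply hy
          funext w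
          exact Subtype.ext (hcon w)
        exact rb_two χ h2 C hC Δ hΔ b g U hU hcard n z hz hn y h (Or.inl h1)
    · rw [if_neg h, norm_zero]
      have h1 : (0 : ℝ) ≤ if y = (fun _ => PC.Mn.one n) then ((Cls Δ n).card : ℝ) else 0 := by
        split_ifs
        · positivity
        · exact le_rfl
      linarith
  refine (Finset.sum_le_sum fun y _ => key y).trans ?_
  rw [Finset.sum_add_distrib, Finset.sum_ite_eq', if_pos (Finset.mem_univ _), ← Finset.mul_sum]
  have h3 := tu_sumL (F := F) (ℓ := ℓ) Δ C.N n z hC.pos hz U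
  linarith

end Pool.Agent.H94.PL
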