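import Pool.Agent.H94.PL.Tri
import Pool.Agent.H80.CC.Len

set_option autoImplicit false

/-!
# [H94 PL] The ramified case: `P ∣ D Q ^ ℓ - f`, `f` a unit modulo `P`, `ℓ ∤ v(D)`

Then `P` is an `ℓ`-th power modulo the maximal ideal.
-/

namespace Pool.Agent.H94.PL

open Polynomial WithZero Ideal

section ring

variable {M : Type*} [Field M] [hv : Valued M ℤᵐ⁰] [CompleteSpace M]
  {O : Type*} [CommRing O] [IsDomain O] [Algebra O M] [IsFractionRing O M]


/-- `O` is the ring of integers and `ϖ` a uniformizer -/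
structure IsInt (O M : Type*) [Field M] [Valued M ℤᵐ⁰] [CommRing O] [Algebra O M] (ϖ : O) :
    Prop where
  mem : ∀ x : M, (Valued.v x : ℤᵐ⁰) ≤ 1 ↔ ∃ y : O, algebraMap O M y = x
  unif : (Valued.v (algebraMap O M ϖ) : ℤᵐ⁰) = exp (-1 : ℤ)

omit [CompleteSpace M] [IsDomain O] [IsFractionRing O M] in
theorem IsInt.le {ϖ : O} (h : IsInt O M ϖ) (y : O) : (Valued.v : Valuation M ℤᵐ⁰) ((algebraMap O M) y) ≤ 1 := (h.mem _).2 ⟨y, rfl⟩

omit [CompleteSpace M] in
theorem IsInt.isUnit {ϖ : O} (h : IsInt O M ϖ) {y : O} (hy : (Valued.v : Valuation M ℤᵐ⁰) ((algebraMap O M) y) = 1) : IsUnit y := by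
  have h0 : (algebraMap O M) y ≠ 0 := fun h0 => by rw [h0, map_zero] at hy; exact zero_ne_one hy
  obtain ⟨z, hz⟩ := (h.mem ((algebraMap O M) y)⁻¹).1 (by rw [map_inv₀, hy, inv_one])
  refine IsUnit.of_mul_eq_one z ?_
  apply IsFractionRing.injective O M
  rw [map_mul, hz, map_one, mul_inv_cancel₀ h0]

omit [CompleteSpace M] in
theorem IsInt.dvd {ϖ : O} (h : IsInt O M ϖ) {y : O} : (Valued.v : Valuation M ℤᵐ⁰) ((algebraMap O M) y) < 1 ↔ ϖ ∣ y := by
  have hϖ0 : (algebraMap O M) ϖ ≠ 0 := fun h0 => by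
    have := h.unif
    rw [h0, map_zero] at this
    exact exp_ne_zero this.symm
  constructor
  · intro hy
    obtain ⟨z, hz⟩ := (h.mem ((algebraMap O M) y / (algebraMap O M) ϖ)).1 (by
      rw [map_div₀, h.unif]
      by_cases h0 : (Valued.v : Valuation M ℤᵐ⁰) ((algebraMap O M) y) = 0
      · rw [h0, zero_div]; exact zero_le_one
      · obtain ⟨k, hk⟩ : ∃ k : ℤ, (Valued.v : Valuation M ℤᵐ⁰) ((algebraMap O M) y) = exp k := ⟨log ((Valued.v : Valuation M ℤᵐ⁰) ((algebraMap O M) y)), (exp_log h0).symm⟩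
        rw [hk] at hy ⊢
        rw [← exp_zero, exp_lt_exp] at hy
        rw [← exp_sub, ← exp_zero, exp_le_exp]
        omega)
    refine ⟨z, ?_⟩
    apply IsFractionRing.injective O M
    rw [map_mul, hz]
    field_simp
  · rintro ⟨z, rfl⟩
    rw [map_mul, map_mul, h.unif]
    refine lt_of_le_of_lt (mul_le_of_le_one_right' (h.le z)) ?_
    decide

omit [CompleteSpace M] in
theorem IsInt.isIntegrallyClosed {ϖ : O} (h : IsInt O M ϖ) : IsIntegrallyClosed O := by
  refine (isIntegrallyClosed_iff M).2 ?_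
  intro x hx
  rw [← h.mem]
  obtain ⟨p, hp, hpx⟩ := hx
  by_contra hlt
  rw [not_le] at hlt
  have hn : 0 < p.natDegree := by
    rw [Nat.pos_iff_ne_zero]
    intro h0
    rw [hp.natDegree_eq_zero.1 h0, eval₂_one] at hpx
    exact one_ne_zero hpx
  rw [eval₂_eq_sum_range, Finset.sum_range_succ, hp.coeff_natDegree, map_one, one_mul] at hpx
  have h1 : x ^ p.natDegree = -∑ i ∈ Finset.range p.natDegree, (algebraMap O M) (p.coeff i) * x ^ i :=
    eq_neg_of_add_eq_zero_right hpx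
  have h2 : (Valued.v : Valuation M ℤᵐ⁰) (x ^ p.natDegree) < (Valued.v : Valuation M ℤᵐ⁰) (x ^ p.natDegree) := by
    conv_lhs => rw [h1, Valuation.map_neg]
    refine Valuation.map_sum_lt _ ?_ fun i hi => ?_
    · rw [map_pow]
      exact pow_ne_zero _ (ne_of_gt (lt_trans zero_lt_one hlt))
    · rw [map_mul, map_pow, map_pow]
      refine lt_of_le_of_lt (mul_le_of_le_one_left' (h.le _)) ?_
      exact pow_lt_pow_right₀ hlt (Finset.mem_range.1 hi)
  exact lt_irrefl _ h2

/-- every element of `O[X] / (P)` is a unit or nilpotent modulo `ϖ` -/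
theorem unr_dich {ϖ : O} (h : IsInt O M ϖ) {P₀ : O[X]} (hP₀ : P₀.Monic)
    (hirr : Irreducible (P₀.map (algebraMap O M))) (H : O[X]) :
    (∃ S T : O[X], S * H + T * P₀ = 1) ∨ ∃ d : ℕ, H ^ d ∈ span {C ϖ} ⊔ span {P₀} := by
  have := h.isIntegrallyClosed
  have hfact := Fact.mk hirr
  set P := P₀.map (algebraMap O M) with hP
  have hPm : P.Monic := hP₀.map _
  let L := AdjoinRoot P
  have hfin : Module.Finite M L := hPm.finite_adjoinRoot
  have htower : IsScalarTower O M L := inferInstance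
  set y : L := AdjoinRoot.mk P (H.map (algebraMap O M)) with hy
  have hker : ∀ R : O[X], AdjoinRoot.mk P (R.map (algebraMap O M)) = 0 → P₀ ∣ R := by
    intro R hR
    rw [AdjoinRoot.mk_eq_zero, hP, Polynomial.map_dvd_map _ (IsFractionRing.injective O M) hP₀] at hR
    exact hR
  have hint : IsIntegral O y := by
    have h1 : IsIntegral O (AdjoinRoot.root P : L) := by
      refine ⟨P₀, hP₀, ?_⟩
      have h2 := AdjoinRoot.eval₂_root P
      rw [hP, eval₂_map] at h2
      exact h2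
    have h2 : y = aeval (AdjoinRoot.root P : L) H := by
      rw [hy, ← AdjoinRoot.aeval_eq, aeval_map_algebraMap]
    rw [h2]
    exact IsIntegral.of_mem_of_fg (Algebra.adjoin O {(AdjoinRoot.root P : L)}) h1.fg_adjoin_singleton
      _ (aeval_mem_adjoin_singleton O _)
  set μ := minpoly O y with hμ
  have hμm : μ.Monic := minpoly.monic hint
  have hμM : minpoly M y = μ.map (algebraMap O M) := minpoly.isIntegrallyClosed_eq_field_fractions' M hint
  have hμi : Irreducible (μ.map (algebraMap O M)) := by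
    rw [← hμM]
    exact minpoly.irreducible (Algebra.IsIntegral.isIntegral y)
  have hcomp : P₀ ∣ μ.comp H := by
    apply hker
    have h1 : AdjoinRoot.mk P ((μ.comp H).map (algebraMap O M)) = aeval y (μ.map (algebraMap O M)) := by
      rw [Polynomial.map_comp, comp_eq_aeval]
      exact (aeval_algHom_apply (AdjoinRoot.mkₐ P) (H.map (algebraMap O M)) (μ.map (algebraMap O M))).symm
    rw [h1, aeval_map_algebraMap]
    exact minpoly.aeval O y
  have hsplit : μ.comp H = H * (∑ i ∈ Finset.range μ.natDegree, C (μ.coeff (i + 1)) * H ^ i) +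
      C (μ.coeff 0) := by
    rw [comp, eval₂_eq_sum_range, Finset.sum_range_succ', pow_zero, mul_one, Finset.mul_sum]
    congr 1
    refine Finset.sum_congr rfl fun i _ => ?_
    ring
  have hsplit2 : μ.comp H = (∑ i ∈ Finset.range μ.natDegree, C (μ.coeff i) * H ^ i) +
      H ^ μ.natDegree := by
    rw [comp, eval₂_eq_sum_range, Finset.sum_range_succ, hμm.coeff_natDegree, C_1, one_mul]
  have hle : (Valued.v : Valuation M ℤᵐ⁰) ((μ.map (algebraMap O M)).coeff 0) ≤ 1 := by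
    rw [coeff_map]
    exact h.le _
  rcases hle.eq_or_lt with h1 | h1
  · left
    rw [coeff_map] at h1
    obtain ⟨u, hu⟩ := h.isUnit h1
    obtain ⟨T, hT⟩ := hcomp
    refine ⟨-(C ((u⁻¹ : Oˣ) : O)) * (∑ i ∈ Finset.range μ.natDegree, C (μ.coeff (i + 1)) * H ^ i),
      C ((u⁻¹ : Oˣ) : O) * T, ?_⟩
    have h2 : C ((u⁻¹ : Oˣ) : O) * C (μ.coeff 0) = 1 := by
      rw [← C_mul, ← hu, Units.inv_mul, C_1]
    rw [hsplit] at hT
    linear_combination (-C ((u⁻¹ : Oˣ) : O)) * hT + h2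
  · right
    refine ⟨μ.natDegree, ?_⟩
    have h3 : H ^ μ.natDegree = -(∑ i ∈ Finset.range μ.natDegree, C (μ.coeff i) * H ^ i) +
        μ.comp H := by
      rw [hsplit2]
      ring
    rw [h3]
    refine add_mem (neg_mem (Submodule.mem_sup_left (sum_mem fun i hi => ?_)))
      (Submodule.mem_sup_right (mem_span_singleton.2 hcomp))
    have hd : (μ.map (algebraMap O M)).natDegree = μ.natDegree := hμm.natDegree_map _
    have h4 := tri_lt h.unif (hμm.map (algebraMap O M)) hμi h1 (i := i) (by rw [hd]; exact Finset.mem_range.1 hi)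
    rw [coeff_map, h.dvd] at h4
    obtain ⟨c, hc⟩ := h4
    rw [mem_span_singleton, hc, C_mul]
    exact ⟨C c * H ^ i, by ring⟩

omit [CompleteSpace M] in
theorem IsInt.isMaximal {ϖ : O} (h : IsInt O M ϖ) : (span {ϖ} : Ideal O).IsMaximal := by
  rw [Ideal.isMaximal_iff]
  constructor
  · rw [mem_span_singleton, ← h.dvd, map_one, map_one]
    exact lt_irrefl _
  · intro J x hJ hx hxJ
    rw [mem_span_singleton, ← h.dvd, not_lt] at hx
    have h1 : IsUnit x := h.isUnit (le_antisymm (h.le x) hx)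
    rw [Ideal.eq_top_of_isUnit_mem J hxJ h1]
    exact Submodule.mem_top

/-- `P` is a power of an irreducible polynomial modulo `ϖ` -/
theorem unr_pow {ϖ : O} (h : IsInt O M ϖ) {P₀ : O[X]} (hP₀ : P₀.Monic)
    (hirr : Irreducible (P₀.map (algebraMap O M))) : ∃ (g : O[X]) (t : ℕ), g.Monic ∧ C ϖ ∣ P₀ - g ^ t ∧
      P₀.natDegree = t * g.natDegree ∧ (∀ s, s * g ∈ span {C ϖ} → s ∈ span {C ϖ}) ∧
      (span {C ϖ} ⊔ span {g} : Ideal O[X]).IsMaximal := by
  have hmax := h.isMaximal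
  letI := Ideal.Quotient.field (span {ϖ} : Ideal O)
  set ρ : O →+* O ⧸ (span {ϖ} : Ideal O) := Ideal.Quotient.mk _ with hρ
  have hsurj : Function.Surjective ρ := Ideal.Quotient.mk_surjective
  have hzero : ∀ R : O[X], R.map ρ = 0 ↔ C ϖ ∣ R := by
    intro R
    rw [C_dvd_iff_dvd_coeff, Polynomial.ext_iff]
    refine forall_congr' fun i => ?_
    rw [coeff_map, coeff_zero, hρ, Ideal.Quotient.eq_zero_iff_mem, mem_span_singleton]
  have hPd : (P₀.map ρ).natDegree = P₀.natDegree := hP₀.natDegree_map ρ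
  have hPd2 : (P₀.map (algebraMap O M)).natDegree = P₀.natDegree := hP₀.natDegree_map (algebraMap O M)
  have hpos : 0 < P₀.natDegree := by rw [← hPd2]; exact hirr.natDegree_pos
  have hnu : ¬ IsUnit (P₀.map ρ) := by
    intro hu
    rw [(hP₀.map ρ).eq_one_of_isUnit hu, natDegree_one] at hPd
    omega
  obtain ⟨gb, hgm, hgi, hgd⟩ := exists_monic_irreducible_factor (P₀.map ρ) hnu
  obtain ⟨g, hg1, hg2, hg3⟩ := lifts_and_natDegree_eq_and_monic
    ((mem_lifts gb).2 (Polynomial.map_surjective ρ hsurj gb)) hgm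
  have hdich := unr_dich h hP₀ hirr g
  have hne : ¬ ∃ S T : O[X], S * g + T * P₀ = 1 := by
    rintro ⟨S, T, hST⟩
    have h1 := congrArg (Polynomial.map ρ) hST
    rw [Polynomial.map_add, Polynomial.map_mul, Polynomial.map_mul, hg1, Polynomial.map_one] at h1
    have h2 : gb ∣ 1 := by
      rw [← h1]
      exact dvd_add (dvd_mul_left _ _) (hgd.mul_left _)
    exact hgi.not_isUnit (isUnit_of_dvd_one h2)
  obtain ⟨d, hd⟩ := hdich.resolve_left hne
  obtain ⟨a, ha, b, hb, hab⟩ := Submodule.mem_sup.1 hd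
  obtain ⟨a, rfl⟩ := mem_span_singleton.1 ha
  obtain ⟨b, rfl⟩ := mem_span_singleton.1 hb
  have h3 : P₀.map ρ ∣ gb ^ d := by
    have h4 := congrArg (Polynomial.map ρ) hab
    rw [Polynomial.map_add, Polynomial.map_mul, Polynomial.map_mul, (hzero (C ϖ)).2 dvd_rfl,
      zero_mul, zero_add, Polynomial.map_pow, hg1] at h4
    exact ⟨_, h4.symm⟩
  obtain ⟨t, -, ht⟩ := (dvd_prime_pow hgi.prime d).1 h3
  have ht' : P₀.map ρ = gb ^ t := eq_of_monic_of_associated (hP₀.map ρ) (hgm.pow t) ht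
  refine ⟨g, t, hg3, ?_, ?_, ?_, ?_⟩
  · rw [← hzero, Polynomial.map_sub, Polynomial.map_pow, hg1, ht', sub_self]
  · rw [← hPd, ht', hgm.natDegree_pow, hg2]
  · intro s hs
    rw [mem_span_singleton, ← hzero] at hs ⊢
    rw [Polynomial.map_mul, hg1] at hs
    exact (mul_eq_zero.1 hs).resolve_right hgm.ne_zero
  · have h5 : (span {C ϖ} ⊔ span {g} : Ideal O[X]) =
        (span {gb} : Ideal (O ⧸ (span {ϖ} : Ideal O))[X]).comap (mapRingHom ρ) := by
      ext R
      rw [Ideal.mem_comap, mem_span_singleton, coe_mapRingHom]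
      constructor
      · intro hR
        obtain ⟨a, ha, b, hb, rfl⟩ := Submodule.mem_sup.1 hR
        obtain ⟨a, rfl⟩ := mem_span_singleton.1 ha
        obtain ⟨b, rfl⟩ := mem_span_singleton.1 hb
        rw [Polynomial.map_add, Polynomial.map_mul, Polynomial.map_mul, (hzero (C ϖ)).2 dvd_rfl,
          zero_mul, zero_add, hg1]
        exact dvd_mul_right _ _
      · rintro ⟨S, hS⟩
        obtain ⟨S, rfl⟩ := Polynomial.map_surjective ρ hsurj S
        have h6 : C ϖ ∣ R - g * S := by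
          rw [← hzero, Polynomial.map_sub, Polynomial.map_mul, hg1, hS, sub_self]
        have h7 : R = (R - g * S) + g * S := by ring
        rw [h7]
        exact add_mem (Submodule.mem_sup_left (mem_span_singleton.2 h6))
          (Submodule.mem_sup_right (mem_span_singleton.2 (dvd_mul_right _ _)))
    rw [h5]
    have hm2 : (span {gb} : Ideal (O ⧸ (span {ϖ} : Ideal O))[X]).IsMaximal :=
      PrincipalIdealRing.isMaximal_of_irreducible hgi
    exact Ideal.comap_isMaximal_of_surjective _ (Polynomial.map_surjective ρ hsurj)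

omit [CompleteSpace M] [IsDomain O] in
open H80.CC in
/-- the length argument -/
theorem unr_len {ϖ : O} (h : IsInt O M ϖ) {P₀ : O[X]} (hP₀ : P₀.Monic)
    (hirr : Irreducible (P₀.map (algebraMap O M))) {g : O[X]} {t : ℕ} (hg1 : C ϖ ∣ P₀ - g ^ t)
    (hg2 : ∀ s, s * g ∈ span {C ϖ} → s ∈ span {C ϖ})
    (hg3 : (span {C ϖ} ⊔ span {g} : Ideal O[X]).IsMaximal) {ℓ : ℕ} (hℓ : ℓ ≠ 0) (e₁ e₂ : ℕ)
    (D₁ Q₁ f : O[X]) (hD₁ : IsUnit D₁) (hf : ∃ S T : O[X], S * f + T * P₀ = 1)
    (hrel : P₀ ∣ C ϖ ^ e₁ * (D₁ * Q₁ ^ ℓ) - C ϖ ^ e₂ * f) :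
    (ℓ : ℤ) ∣ ((e₁ : ℤ) - e₂) * t := by
  have hprime : ∀ A B : O[X], P₀ ∣ A * B → P₀ ∣ A ∨ P₀ ∣ B := by
    intro A B hAB
    have h1 : P₀.map (algebraMap O M) ∣ A.map (algebraMap O M) * B.map (algebraMap O M) := by
      rw [← Polynomial.map_mul]
      exact Polynomial.map_dvd _ hAB
    rcases hirr.prime.dvd_or_dvd h1 with h2 | h2
    · left
      rwa [Polynomial.map_dvd_map _ (IsFractionRing.injective O M) hP₀] at h2
    · right
      rwa [Polynomial.map_dvd_map _ (IsFractionRing.injective O M) hP₀] at h2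
  have hunit : ¬ P₀ ∣ 1 := by
    intro h1
    have h2 : IsUnit (P₀.map (algebraMap O M)) := isUnit_of_dvd_one (by
      rw [← Polynomial.map_one (algebraMap O M)]
      exact Polynomial.map_dvd _ h1)
    exact hirr.not_isUnit h2
  obtain ⟨S, T, hST⟩ := hf
  have hPf : ¬ P₀ ∣ f := by
    intro h1
    apply hunit
    rw [← hST]
    exact dvd_add (h1.mul_left _) (dvd_mul_left _ _)
  have hϖ0 : (algebraMap O M) ϖ ≠ 0 := fun h0 => by
    have := h.unif
    rw [h0, map_zero] at this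
    exact exp_ne_zero this.symm
  have hPϖ : ¬ P₀ ∣ C ϖ := by
    intro h1
    have h2 : P₀.map (algebraMap O M) ∣ C ((algebraMap O M) ϖ) := by
      rw [← map_C]
      exact Polynomial.map_dvd _ h1
    have h3 : IsUnit (C ((algebraMap O M) ϖ) : M[X]) := isUnit_C.2 (Ne.isUnit hϖ0)
    exact hirr.not_isUnit (isUnit_of_dvd_unit h2 h3)
  have hPϖn : ∀ n : ℕ, ¬ P₀ ∣ C ϖ ^ n := by
    intro n
    induction n with
    | zero => rw [pow_zero]; exact hunit
    | succ n ih =>
      intro h1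
      rw [pow_succ] at h1
      rcases hprime _ _ h1 with h2 | h2
      · exact ih h2
      · exact hPϖ h2
  have hPQ : ¬ P₀ ∣ Q₁ := by
    intro h1
    have h2 : P₀ ∣ C ϖ ^ e₂ * f := by
      have h3 : P₀ ∣ C ϖ ^ e₁ * (D₁ * Q₁ ^ ℓ) :=
        ((h1.trans (dvd_pow_self Q₁ hℓ)).mul_left _).mul_left _
      have := dvd_sub h3 hrel
      rwa [sub_sub_cancel] at this
    rcases hprime _ _ h2 with h3 | h3
    · exact hPϖn _ h3
    · exact hPf h3
  have hreg : ∀ b : O[X], ¬ P₀ ∣ b → ∀ s, s * b ∈ span {P₀} → s ∈ span {P₀} := by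
    intro b hb s hs
    rw [mem_span_singleton] at hs ⊢
    exact (hprime _ _ hs).resolve_right hb
  -- the length of `ϖ`
  have hlen : len (span {P₀} ⊔ span {C ϖ}) = t := by
    have h1 : (span {P₀} ⊔ span {C ϖ} : Ideal O[X]) = span {C ϖ} ⊔ span {g ^ t} := by
      have h2 : P₀ - g ^ t ∈ (span {C ϖ} : Ideal O[X]) := mem_span_singleton.2 hg1
      apply le_antisymm
      · refine sup_le ?_ le_sup_left
        rw [span_singleton_le_iff_mem]
        have h3 : P₀ = (P₀ - g ^ t) + g ^ t := by ring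
        rw [h3]
        exact Submodule.add_mem_sup h2 (mem_span_singleton_self _)
      · refine sup_le le_sup_right ?_
        rw [span_singleton_le_iff_mem]
        have h3 : g ^ t = P₀ + -(P₀ - g ^ t) := by ring
        rw [h3]
        exact Submodule.add_mem_sup (mem_span_singleton_self _) (neg_mem h2)
    rw [h1, len_pow _ g hg2 t, len_eq_one hg3, mul_one]
  have e1 : len (span {P₀} ⊔ span {C ϖ ^ e₁ * (D₁ * Q₁ ^ ℓ)}) =
      e₁ * t + ℓ * len (span {P₀} ⊔ span {Q₁}) := by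
    rw [len_pow_mul _ _ _ (hreg _ hPϖ), hlen]
    congr 1
    have h1 : (span {D₁ * Q₁ ^ ℓ} : Ideal O[X]) = span {Q₁ ^ ℓ} :=
      Ideal.span_singleton_mul_left_unit hD₁ _
    rw [h1, len_pow _ _ (hreg _ hPQ)]
  have e2 : len (span {P₀} ⊔ span {C ϖ ^ e₂ * f}) = e₂ * t := by
    rw [len_pow_mul _ _ _ (hreg _ hPϖ), hlen]
    have h1 : (span {P₀} ⊔ span {f} : Ideal O[X]) = ⊤ := by
      rw [Ideal.eq_top_iff_one, ← hST, add_comm]
      exact Submodule.add_mem_sup (mul_mem_left _ _ (mem_span_singleton_self _))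
        (mul_mem_left _ _ (mem_span_singleton_self _))
    rw [h1, len_top, add_zero]
  have e3 : (span {P₀} ⊔ span {C ϖ ^ e₁ * (D₁ * Q₁ ^ ℓ)} : Ideal O[X]) =
      span {P₀} ⊔ span {C ϖ ^ e₂ * f} := by
    have h2 := mem_span_singleton.2 hrel
    apply le_antisymm
    · refine sup_le le_sup_left ?_
      rw [span_singleton_le_iff_mem]
      have h3 : C ϖ ^ e₁ * (D₁ * Q₁ ^ ℓ) =
          (C ϖ ^ e₁ * (D₁ * Q₁ ^ ℓ) - C ϖ ^ e₂ * f) + C ϖ ^ e₂ * f := by ring
      rw [h3]
      exact Submodule.add_mem_sup h2 (mem_span_singleton_self _)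
    · refine sup_le le_sup_left ?_
      rw [span_singleton_le_iff_mem]
      have h3 : C ϖ ^ e₂ * f =
          -(C ϖ ^ e₁ * (D₁ * Q₁ ^ ℓ) - C ϖ ^ e₂ * f) + C ϖ ^ e₁ * (D₁ * Q₁ ^ ℓ) := by ring
      rw [h3]
      exact Submodule.add_mem_sup (neg_mem h2) (mem_span_singleton_self _)
  rw [e3, e2] at e1
  have hne : len (span {P₀} ⊔ span {Q₁}) ≠ ⊤ := by
    intro htop
    rw [htop, ENat.mul_top (by exact_mod_cast hℓ), add_top] at e1
    exact absurd e1 (by exact_mod_cast ENat.natCast_ne_top (e₂ * t))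
  obtain ⟨k, hk⟩ := ENat.ne_top_iff_exists.1 hne
  rw [← hk] at e1
  have e4 : e₂ * t = e₁ * t + ℓ * k := by exact_mod_cast e1
  refine ⟨-(k : ℤ), ?_⟩
  have e5 : ((e₂ * t : ℕ) : ℤ) = ((e₁ * t + ℓ * k : ℕ) : ℤ) := by rw [e4]
  push_cast at e5
  linear_combination -e5

end ring

end Pool.Agent.H94.PL
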