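import Pool.Agent.H94.PL.CM

set_option autoImplicit false

/-!
# [H94 PL VM] The recursion `j B_j = ∑ Λ_i B_{j-i}`

`θ` completely multiplicative, `B_j = ∑ A ∈ Mo j, θ A` (`Bs`), `Λ_i` (`Ls`).

For `A` monic of degree `j`: `j = ∑ d ∈ Icc 1 j, ∑ P ∈ Pr d, ∑ k ∈ Icc 1 (j / d),
if P ^ k ∣ A then d else 0`.  (Strong induction on `j`, or: for each monic irreducible `P` the
number of `k ≥ 1` with `P ^ k ∣ A` is the multiplicity, and the degree of `A` is the sum of
`deg P` times the multiplicity.  A convenient way is induction on `A`: for `A = P₀ * A'`,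
`P₀` monic irreducible, the number of `(P, k)` with `P ^ k ∣ A` is the one for `A'` plus one for
`P = P₀`: `#{k ≥ 1 : P ^ k ∣ A} = emultiplicity P A`, `emultiplicity_mul`.)

Multiply by `θ A` and sum over `A ∈ Mo j`; for fixed `P ∈ Pr d`, `k` with `k d ≤ j` the `A ∈ Mo j`
divisible by `P ^ k` are the `P ^ k * A'`, `A' ∈ Mo (j - k d)`, and `θ A = θ P ^ k * θ A'`
(`CMc.pow`, `CMc.mul`); so `j B_j = ∑_{d, k ≥ 1, k d ≤ j} ∑ P ∈ Pr d, d θ(P) ^ k B_{j - k d}`;
put `i = k d`.
-/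

namespace Pool.Agent.H94.PL

open Polynomial
open Pool.Agent.H94.PC (Mo Sq Pr pf om Mn mem_Mo mem_Sq mem_Pr mem_pf mem_pf')

variable {F : Type} [Field F] [Finite F]

theorem vm_pow_dvd_le {A P : F[X]} (hA : A ≠ 0) (hP : P.Monic) (hd : 1 ≤ P.natDegree) {k : ℕ}
    (h : P ^ k ∣ A) : k ≤ A.natDegree := by
  have h1 := natDegree_le_of_dvd h hA
  rw [hP.natDegree_pow] at h1
  nlinarith

open Classical in
theorem vm_count {A P : F[X]} (hA : A ≠ 0) (hPm : P.Monic) (hPi : Irreducible P) {j : ℕ}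
    (hj : A.natDegree ≤ j) :
    ∑ k ∈ Finset.Icc 1 j, (if P ^ k ∣ A then 1 else 0) = multiplicity P A := by
  have hfin : FiniteMultiplicity P A := FiniteMultiplicity.of_prime_left hPi.prime hA
  have hle : multiplicity P A ≤ j :=
    (vm_pow_dvd_le hA hPm hPi.natDegree_pos (pow_multiplicity_dvd P A)).trans hj
  rw [← Finset.card_filter]
  have h1 : (Finset.Icc 1 j).filter (fun k => P ^ k ∣ A) = Finset.Icc 1 (multiplicity P A) := by
    ext k
    rw [Finset.mem_filter, Finset.mem_Icc, Finset.mem_Icc, hfin.pow_dvd_iff_le_multiplicity]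
    omega
  rw [h1, Nat.card_Icc]
  omega

theorem vm_mult_irr {P P₀ : F[X]} (hPm : P.Monic) (hPi : Irreducible P) (hPm₀ : P₀.Monic)
    (hPi₀ : Irreducible P₀) [Decidable (P = P₀)] :
    multiplicity P P₀ = if P = P₀ then 1 else 0 := by
  split_ifs with h
  · subst h
    have hfin : FiniteMultiplicity P P :=
      FiniteMultiplicity.of_prime_left hPi.prime hPi.ne_zero
    have h1 : 1 ≤ multiplicity P P := by
      rw [← hfin.pow_dvd_iff_le_multiplicity, pow_one]
    have h2 : ¬ 2 ≤ multiplicity P P := by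
      rw [← hfin.pow_dvd_iff_le_multiplicity]
      intro h3
      have h4 := natDegree_le_of_dvd h3 hPi.ne_zero
      rw [hPm.natDegree_pow] at h4
      have h5 := hPi.natDegree_pos
      omega
    omega
  · rw [multiplicity_eq_zero]
    intro h1
    exact h (eq_of_monic_of_associated hPm hPm₀ (hPi.associated_of_dvd hPi₀ h1))

theorem vm_deg (j : ℕ) (n : ℕ) : ∀ A : F[X], A.Monic → A.natDegree = n → n ≤ j →
    ∑ d ∈ Finset.Icc 1 j, ∑ P ∈ Pr F d, d * multiplicity P A = n := by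
  classical
  induction n using Nat.strong_induction_on with
  | _ n ih =>
    intro A hA hn hnj
    by_cases h1 : A = 1
    · subst h1
      rw [natDegree_one] at hn
      rw [← hn]
      refine Finset.sum_eq_zero fun d _ => Finset.sum_eq_zero fun P hP => ?_
      obtain ⟨hPm, hPd, hPi⟩ := mem_Pr.1 hP
      have h2 : multiplicity P (1 : F[X]) = 0 := by
        rw [multiplicity_eq_zero]
        intro h3
        exact hPi.not_isUnit (isUnit_of_dvd_one h3)
      rw [h2, mul_zero]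
    · obtain ⟨P₀, hP₀⟩ := PC.exists_mem_pf hA h1
      obtain ⟨hPm₀, hPi₀, A', hA'⟩ := mem_pf' hP₀
      subst hA'
      have hAm' : A'.Monic := hPm₀.of_mul_monic_left hA
      have hdeg : P₀.natDegree + A'.natDegree = n := by
        rw [← hn, hPm₀.natDegree_mul hAm']
      have hpos := hPi₀.natDegree_pos
      have hih := ih A'.natDegree (by omega) A' hAm' rfl (by omega)
      have h2 : ∀ d ∈ Finset.Icc 1 j, ∑ P ∈ Pr F d, d * multiplicity P (P₀ * A') =
          (if d = P₀.natDegree then d else 0) + ∑ P ∈ Pr F d, d * multiplicity P A' := by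
        intro d _
        have h3 : ∀ P ∈ Pr F d, d * multiplicity P (P₀ * A') =
            (if P = P₀ then d else 0) + d * multiplicity P A' := by
          intro P hP
          obtain ⟨hPm, hPd, hPi⟩ := mem_Pr.1 hP
          rw [multiplicity_mul hPi.prime
            (FiniteMultiplicity.of_prime_left hPi.prime hA.ne_zero),
            vm_mult_irr hPm hPi hPm₀ hPi₀, mul_add]
          split_ifs
          · rw [mul_one]
          · rw [mul_zero]
        rw [Finset.sum_congr rfl h3, Finset.sum_add_distrib, Finset.sum_ite_eq']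
        congr 1
        by_cases hd : d = P₀.natDegree
        · rw [if_pos hd, if_pos]
          exact mem_Pr.2 ⟨hPm₀, hd.symm, hPi₀⟩
        · rw [if_neg hd, if_neg]
          intro h4
          exact hd (mem_Pr.1 h4).2.1.symm
      rw [Finset.sum_congr rfl h2, Finset.sum_add_distrib, hih, Finset.sum_ite_eq', if_pos, hdeg]
      rw [Finset.mem_Icc]
      omega

theorem vm_swap (g : ℕ → ℕ → ℂ) (j : ℕ) (hg : ∀ d k, j < d * k → g d k = 0) :
    ∑ i ∈ Finset.Icc 1 j, ∑ d ∈ i.divisors, g d (i / d) =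
      ∑ d ∈ Finset.Icc 1 j, ∑ k ∈ Finset.Icc 1 j, g d k := by
  rw [← Finset.sum_product' (Finset.Icc 1 j) (Finset.Icc 1 j) g]
  have h1 : ∑ x ∈ Finset.Icc 1 j ×ˢ Finset.Icc 1 j, g x.1 x.2 =
      ∑ x ∈ (Finset.Icc 1 j ×ˢ Finset.Icc 1 j).filter (fun x => x.1 * x.2 ≤ j), g x.1 x.2 := by
    symm
    apply Finset.sum_filter_of_ne
    intro x _ hx
    by_contra h
    exact hx (hg _ _ (by omega))
  rw [h1, ← Finset.sum_fiberwise_of_maps_to (g := fun x : ℕ × ℕ => x.1 * x.2)
    (t := Finset.Icc 1 j)]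
  · refine Finset.sum_congr rfl fun i hi => ?_
    rw [← Nat.sum_divisorsAntidiagonal (fun d k => g d k)]
    refine Finset.sum_congr ?_ fun _ _ => rfl
    ext x
    rw [Finset.mem_Icc] at hi
    rw [Nat.mem_divisorsAntidiagonal, Finset.mem_filter, Finset.mem_filter, Finset.mem_product,
      Finset.mem_Icc, Finset.mem_Icc]
    constructor
    · rintro ⟨h2, h3⟩
      have h4 : x.1 ≠ 0 := by
        intro h
        rw [h, zero_mul] at h2
        omega
      have h5 : x.2 ≠ 0 := by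
        intro h
        rw [h, mul_zero] at h2
        omega
      have h6 : x.1 ≤ x.1 * x.2 := Nat.le_mul_of_pos_right _ (by omega)
      have h7 : x.2 ≤ x.1 * x.2 := Nat.le_mul_of_pos_left _ (by omega)
      exact ⟨⟨⟨⟨by omega, by omega⟩, ⟨by omega, by omega⟩⟩, by omega⟩, h2⟩
    · rintro ⟨_, h2⟩
      exact ⟨h2, by omega⟩
  · intro x hx
    rw [Finset.mem_filter, Finset.mem_product, Finset.mem_Icc, Finset.mem_Icc] at hx
    rw [Finset.mem_Icc]
    have h4 : 1 ≤ x.1 * x.2 := Nat.mul_pos (by omega) (by omega)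
    exact ⟨h4, hx.2⟩

open Classical in
theorem vm_div {θ : F[X] → ℂ} (h : CMc θ) {j d k : ℕ} {P : F[X]} (hP : P ∈ Pr F d)
    (hjk : d * k ≤ j) :
    ∑ A ∈ Mo F j, (if P ^ k ∣ A then θ A else 0) = θ P ^ k * Bs θ (j - d * k) := by
  obtain ⟨hPm, hPd, hPi⟩ := mem_Pr.1 hP
  have hPk : (P ^ k).Monic := hPm.pow k
  have hPkd : (P ^ k).natDegree = d * k := by
    rw [hPm.natDegree_pow, hPd, mul_comm]
  rw [← Finset.sum_filter, Bs, Finset.mul_sum]
  symm
  refine Finset.sum_bij (fun A _ => P ^ k * A) ?_ ?_ ?_ ?_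
  · intro A hA
    obtain ⟨hAm, hAd⟩ := mem_Mo.1 hA
    rw [Finset.mem_filter]
    refine ⟨mem_Mo.2 ⟨hPk.mul hAm, ?_⟩, dvd_mul_right _ _⟩
    rw [hPk.natDegree_mul hAm, hPkd, hAd]
    omega
  · intro A _ B _ hAB
    exact mul_left_cancel₀ hPk.ne_zero hAB
  · intro A hA
    rw [Finset.mem_filter] at hA
    obtain ⟨hA1, B, hB⟩ := hA
    obtain ⟨hAm, hAd⟩ := mem_Mo.1 hA1
    subst hB
    have hBm : B.Monic := hPk.of_mul_monic_left hAm
    refine ⟨B, mem_Mo.2 ⟨hBm, ?_⟩, rfl⟩
    rw [hPk.natDegree_mul hBm, hPkd] at hAd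
    omega
  · intro A hA
    obtain ⟨hAm, _⟩ := mem_Mo.1 hA
    rw [h.mul _ _ hPk hAm, h.pow hPm]

theorem vm_rec {θ : F[X] → ℂ} (h : CMc θ) (j : ℕ) :
    (j : ℂ) * Bs θ j = ∑ i ∈ Finset.Icc 1 j, Ls θ i * Bs θ (j - i) := by
  classical
  set g : ℕ → ℕ → ℂ := fun d k =>
    ∑ P ∈ Pr F d, (d : ℂ) * ∑ A ∈ Mo F j, (if P ^ k ∣ A then θ A else 0) with hg
  have h1 : (j : ℂ) * Bs θ j = ∑ d ∈ Finset.Icc 1 j, ∑ k ∈ Finset.Icc 1 j, g d k := by
    have h2 : ∀ A ∈ Mo F j, (j : ℂ) * θ A = ∑ d ∈ Finset.Icc 1 j, ∑ P ∈ Pr F d,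
        ∑ k ∈ Finset.Icc 1 j, (d : ℂ) * (if P ^ k ∣ A then θ A else 0) := by
      intro A hA
      obtain ⟨hAm, hAd⟩ := mem_Mo.1 hA
      have h3 := vm_deg j j A hAm hAd le_rfl
      have h4 : (j : ℂ) = ∑ d ∈ Finset.Icc 1 j, ∑ P ∈ Pr F d,
          (d : ℂ) * (multiplicity P A : ℂ) := by
        exact_mod_cast h3.symm
      rw [h4, Finset.sum_mul]
      refine Finset.sum_congr rfl fun d _ => ?_
      rw [Finset.sum_mul]
      refine Finset.sum_congr rfl fun P hP => ?_
      obtain ⟨hPm, hPd, hPi⟩ := mem_Pr.1 hP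
      have h5 := vm_count hAm.ne_zero hPm hPi hAd.le
      have h6 : (multiplicity P A : ℂ) = ∑ k ∈ Finset.Icc 1 j, (if P ^ k ∣ A then (1 : ℂ) else 0) := by
        rw [← h5]
        push_cast
        rfl
      rw [h6, mul_assoc, Finset.sum_mul, Finset.mul_sum]
      refine Finset.sum_congr rfl fun k _ => ?_
      split_ifs
      · rw [one_mul]
      · rw [zero_mul]
    rw [Bs, Finset.mul_sum, Finset.sum_congr rfl h2, Finset.sum_comm]
    refine Finset.sum_congr rfl fun d _ => ?_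
    simp only [hg]
    rw [Finset.sum_comm, Finset.sum_comm (s := Finset.Icc 1 j)]
    refine Finset.sum_congr rfl fun P _ => ?_
    rw [Finset.sum_comm]
    refine Finset.sum_congr rfl fun k _ => ?_
    rw [Finset.mul_sum]
  have hg0 : ∀ d k, j < d * k → g d k = 0 := by
    intro d k hdk
    simp only [hg]
    refine Finset.sum_eq_zero fun P hP => ?_
    obtain ⟨hPm, hPd, hPi⟩ := mem_Pr.1 hP
    rw [Finset.sum_eq_zero, mul_zero]
    intro A hA
    obtain ⟨hAm, hAd⟩ := mem_Mo.1 hA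
    rw [if_neg]
    intro h3
    have h4 := natDegree_le_of_dvd h3 hAm.ne_zero
    rw [hPm.natDegree_pow, hPd, hAd, mul_comm] at h4
    omega
  rw [h1, ← vm_swap g j hg0]
  refine Finset.sum_congr rfl fun i hi => ?_
  rw [Finset.mem_Icc] at hi
  rw [Ls, Finset.sum_mul]
  refine Finset.sum_congr rfl fun d hd => ?_
  have hdi : d * (i / d) = i := Nat.mul_div_cancel' (Nat.dvd_of_mem_divisors hd)
  simp only [hg]
  rw [Finset.sum_mul]
  refine Finset.sum_congr rfl fun P hP => ?_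
  rw [vm_div h hP (by omega), hdi, mul_assoc]

end Pool.Agent.H94.PL
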