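import Pool.Agent.H94.PL.Spl
import Pool.Agent.H94.PL.Thc
import Pool.Agent.H94.PC.Facs

set_option autoImplicit false

/-!
# [H94 PL WSP] The weight when the variables outside an unlinked set `U` are fixed

`U` unlinked, `y : {w // w ∉ U} → Mn F n` fixed.  The characters of the variables `x_u`, `u ∈ U`,
are `thc χ (b u) (Gy y) (ey C g u)`, where `Gy y : pf Δ ⊕ {w // w ∉ U} → F[X]` is `v` at `inl v`, `y_w` at
`inr w`, and the exponents are `g u v` and `C.lk u w`.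

Proof.  Let `Y = ∏ y_w`, `X = ∏ x_u`, so `∏ (mgU U x y) = X * Y` (`prod_mgU`).
`X * Y ∈ Cls Δ n` iff `Y ∈ Cls Δ (deg Y)`, `deg Y ≤ n` and `X ∈ Cls (Δ * Y) (n - deg Y)`
(squarefree product = coprime squarefree factors: `squarefree_mul_iff`, `IsRelPrime.isCoprime`;
monic of given degrees).  If this holds, all `x_u`, `y_w` are pairwise coprime and prime to `Δ`, so
`om (X * Y) = om X + om Y` (`om_mul`); `∏ u, et` splits by `prod_mgU`; the double product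
`∏ u, ∏ w, ps (Phi u w * lm (z w) (z u))` splits in four parts by `prod_mgU` twice:
* `u, w ∉ U`: a constant, absolute value `1` (goes to `c`, together with `∏ w ∉ U, et`);
* `u, w ∈ U`: equal to `1`: exchanging `u, w` and `lm_recip` show that the square of this product
  is `∏∏ ps (lk u w * lm ..) = 1`... the square is not enough; better: it is `ps (∑_{u,w} Phi u w * lm (x w) (x u))`
  and `2 * ∑ = ∑ (Phi u w + Phi w u) * lm = 0` in `ZMod ℓ`, `2 ≠ 0`, so the sum is `0`;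
* `u ∈ U, w ∉ U` and `u ∉ U, w ∈ U` together: `ps (lk u w * lm (y w) (x u))` (`lm_recip`).
So for `u ∈ U` the factor is `ps (b u * deg + ∑ v, g u v * lm v (x u) + ∑ w, lk u w * lm (y w) (x u))`, which is
`thc` by `thc_val`.
-/

namespace Pool.Agent.H94.PL

open Polynomial
open Pool.Agent.H94.PC (Mo Sq Pr pf om Mn mem_Mo mem_Sq mem_Pr mem_pf mem_pf')

variable {F : Type} [Field F] [Finite F] {ℓ : ℕ} [hl : Fact ℓ.Prime]
  {V : Type} [Fintype V] [DecidableEq V]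

/-- the moduli -/
noncomputable def Gy (Δ : F[X]) {U : Finset V} {n : ℕ} (y : {w // w ∉ U} → Mn F n) :
    pf Δ ⊕ {w // w ∉ U} → F[X] :=
  Sum.elim (fun v => v.1) fun w => (y w).1

/-- the exponents -/
def ey {Δ : F[X]} (C : CD V ℓ) (g : V → pf Δ → ZMod ℓ) (U : Finset V) (u : V) :
    pf Δ ⊕ {w // w ∉ U} → ZMod ℓ :=
  Sum.elim (g u) fun w => C.lk u w.1

theorem wsp_cop {ι : Type*} [Fintype ι] (z : ι → F[X]) (hs : Squarefree (∏ u, z u)) {u w : ι}
    (h : u ≠ w) : IsCoprime (z u) (z w) := by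
  classical
  have h1 : z u * z w ∣ ∏ u, z u := by
    rw [← Finset.mul_prod_erase Finset.univ z (Finset.mem_univ u)]
    exact mul_dvd_mul_left _ (Finset.dvd_prod_of_mem z
      (Finset.mem_erase.2 ⟨h.symm, Finset.mem_univ w⟩))
  have h2 := (squarefree_mul_iff.1 (hs.squarefree_of_dvd h1)).1
  exact isRelPrime_iff_isCoprime.1 h2

theorem wsp_et (χ : LChar F ℓ) (Δ : F[X]) (b : V → ZMod ℓ) (g : V → pf Δ → ZMod ℓ) (u : V)
    (A : F[X]) : et χ Δ b g u A =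
      ps (b u * (A.natDegree : ZMod ℓ) + ∑ v : pf Δ, g u v * lm χ v.1 A) := by
  rw [et, ps_add, ps_sum]

/-- the part inside `U` cancels -/
theorem wsp_in (χ : LChar F ℓ) (h2 : ℓ ≠ 2) (C : CD V ℓ) (U : Finset V) (hU : C.Unl U)
    (x : {u // u ∈ U} → F[X]) :
    ∑ u : {u // u ∈ U}, ∑ w : {u // u ∈ U}, C.Phi u.1 w.1 * lm χ (x w) (x u) = 0 := by
  have h3 : ∑ u : {u // u ∈ U}, ∑ w : {u // u ∈ U}, C.Phi u.1 w.1 * lm χ (x w) (x u) =
      ∑ u : {u // u ∈ U}, ∑ w : {u // u ∈ U}, C.Phi w.1 u.1 * lm χ (x w) (x u) := by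
    rw [Finset.sum_comm]
    refine Finset.sum_congr rfl fun u _ => Finset.sum_congr rfl fun w _ => ?_
    rw [lm_recip χ h2]
  have h4 : (2 : ZMod ℓ) * ∑ u : {u // u ∈ U}, ∑ w : {u // u ∈ U},
      C.Phi u.1 w.1 * lm χ (x w) (x u) = 0 := by
    rw [two_mul]
    nth_rewrite 2 [h3]
    rw [← Finset.sum_add_distrib]
    refine Finset.sum_eq_zero fun u _ => ?_
    rw [← Finset.sum_add_distrib]
    refine Finset.sum_eq_zero fun w _ => ?_
    rw [← add_mul]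
    have h5 : C.Phi u.1 w.1 + C.Phi w.1 u.1 = 0 := hU u.1 u.2 w.1 w.2
    rw [h5, zero_mul]
  rcases mul_eq_zero.1 h4 with h5 | h5
  · exfalso
    have h6 : ((2 : ℕ) : ZMod ℓ) = 0 := by exact_mod_cast h5
    rw [ZMod.natCast_eq_zero_iff] at h6
    exact h2 ((Nat.prime_dvd_prime_iff_eq Fact.out Nat.prime_two).1 h6)
  · exact h5

/-- the exponent of the double product -/
theorem wsp_dbl (χ : LChar F ℓ) (h2 : ℓ ≠ 2) (C : CD V ℓ) (U : Finset V) (hU : C.Unl U)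
    (x : {u // u ∈ U} → F[X]) (y : {w // w ∉ U} → F[X]) (z : V → F[X])
    (hx : ∀ u : {u // u ∈ U}, z u.1 = x u) (hy : ∀ w : {w // w ∉ U}, z w.1 = y w) :
    ∑ u, ∑ w, C.Phi u w * lm χ (z w) (z u) =
      (∑ u : {w // w ∉ U}, ∑ w : {w // w ∉ U}, C.Phi u.1 w.1 * lm χ (y w) (y u)) +
        ∑ u : {u // u ∈ U}, ∑ w : {w // w ∉ U}, C.lk u.1 w.1 * lm χ (y w) (x u) := by
  have e1 : ∀ u : V, ∑ w, C.Phi u w * lm χ (z w) (z u) =
      (∑ w : {u // u ∈ U}, C.Phi u w.1 * lm χ (x w) (z u)) +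
        ∑ w : {w // w ∉ U}, C.Phi u w.1 * lm χ (y w) (z u) := by
    intro u
    rw [add_mgU U]
    congr 1
    · exact Finset.sum_congr rfl fun w _ => by rw [hx]
    · exact Finset.sum_congr rfl fun w _ => by rw [hy]
  rw [Finset.sum_congr rfl fun u _ => e1 u, add_mgU U]
  have e2 : ∑ u : {u // u ∈ U}, ((∑ w : {u // u ∈ U}, C.Phi u.1 w.1 * lm χ (x w) (z u.1)) +
        ∑ w : {w // w ∉ U}, C.Phi u.1 w.1 * lm χ (y w) (z u.1)) =
      ∑ u : {u // u ∈ U}, ∑ w : {w // w ∉ U}, C.Phi u.1 w.1 * lm χ (y w) (x u) := by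
    rw [Finset.sum_add_distrib]
    have e3 : ∑ u : {u // u ∈ U}, ∑ w : {u // u ∈ U}, C.Phi u.1 w.1 * lm χ (x w) (z u.1) = 0 := by
      rw [← wsp_in χ h2 C U hU x]
      exact Finset.sum_congr rfl fun u _ => Finset.sum_congr rfl fun w _ => by rw [hx u]
    rw [e3, zero_add]
    exact Finset.sum_congr rfl fun u _ => Finset.sum_congr rfl fun w _ => by rw [hx u]
  have e4 : ∑ u : {w // w ∉ U}, ((∑ w : {u // u ∈ U}, C.Phi u.1 w.1 * lm χ (x w) (z u.1)) +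
        ∑ w : {w // w ∉ U}, C.Phi u.1 w.1 * lm χ (y w) (z u.1)) =
      (∑ u : {u // u ∈ U}, ∑ w : {w // w ∉ U}, C.Phi w.1 u.1 * lm χ (y w) (x u)) +
      ∑ u : {w // w ∉ U}, ∑ w : {w // w ∉ U}, C.Phi u.1 w.1 * lm χ (y w) (y u) := by
    rw [Finset.sum_add_distrib]
    congr 1
    · rw [Finset.sum_comm]
      refine Finset.sum_congr rfl fun u _ => Finset.sum_congr rfl fun w _ => ?_
      rw [hy w, lm_recip χ h2]
    · exact Finset.sum_congr rfl fun u _ => Finset.sum_congr rfl fun w _ => by rw [hy u]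
  rw [e2, e4, ← add_assoc, ← Finset.sum_add_distrib, add_comm]
  congr 1
  refine Finset.sum_congr rfl fun u _ => ?_
  rw [← Finset.sum_add_distrib]
  refine Finset.sum_congr rfl fun w _ => ?_
  rw [← add_mul]
  rfl

open Classical in
theorem wl_split (χ : LChar F ℓ) (h2 : ℓ ≠ 2) (C : CD V ℓ) (hC : C.Good) (Δ : F[X])
    (hΔ : Δ ≠ 0) (b : V → ZMod ℓ) (g : V → pf Δ → ZMod ℓ) (U : Finset V) (hU : C.Unl U) (n : ℕ)
    (y : {w // w ∉ U} → Mn F n) :
    ∃ c : ℂ, ‖c‖ ≤ 1 ∧ ∀ x : {u // u ∈ U} → Mn F n,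
      WL χ C Δ b g n (mgU U x y) =
        if ((∏ w, (y w).1) ∈ Cls Δ (∏ w, (y w).1).natDegree ∧ (∏ w, (y w).1).natDegree ≤ n) ∧
          (∏ u, (x u).1) ∈ Cls (Δ * ∏ w, (y w).1) (n - (∏ w, (y w).1).natDegree) then
          ((1 / (C.N : ℂ)) ^ om (∏ w, (y w).1) * c) * ((1 / (C.N : ℂ)) ^ om (∏ u, (x u).1) *
            ∏ u : {u // u ∈ U}, thc χ (b u.1) (Gy Δ y) (ey C g U u.1) (x u).1) else 0 := by
  refine ⟨(∏ w : {w // w ∉ U}, et χ Δ b g w.1 (y w).1) *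
    ps (∑ u : {w // w ∉ U}, ∑ w : {w // w ∉ U}, C.Phi u.1 w.1 * lm χ (y w).1 (y u).1), ?_, ?_⟩
  · rw [norm_mul, norm_ps, mul_one, norm_prod]
    refine Finset.prod_le_one (fun _ _ => norm_nonneg _) fun w _ => ?_
    rw [wsp_et, norm_ps]
  intro x
  obtain ⟨E, hE⟩ : ∃ E : F[X], E = ∏ w, (y w).1 := ⟨_, rfl⟩
  obtain ⟨D, hD⟩ : ∃ D : F[X], D = ∏ u, (x u).1 := ⟨_, rfl⟩
  rw [← hE, ← hD]
  have hprod : ∏ u, (mgU U x y u).1 = D * E := by
    rw [prod_mgU U, hD, hE]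
    congr 1
    · exact Finset.prod_congr rfl fun u _ => by rw [mgU_in]
    · exact Finset.prod_congr rfl fun w _ => by rw [mgU_out]
  have hDm : D.Monic := by
    rw [hD]
    exact monic_prod_of_monic _ _ fun i _ => (x i).2.1
  have hEm : E.Monic := by
    rw [hE]
    exact monic_prod_of_monic _ _ fun i _ => (y i).2.1
  rw [WL, hprod]
  by_cases hcond : (E ∈ Cls Δ E.natDegree ∧ E.natDegree ≤ n) ∧ D ∈ Cls (Δ * E) (n - E.natDegree)
  · rw [if_pos hcond]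
    obtain ⟨⟨hE1, hEn⟩, hD1⟩ := hcond
    obtain ⟨_, _, hEs, hEΔ⟩ := mem_Cls.1 hE1
    obtain ⟨_, hDd, hDs, hDΔ⟩ := mem_Cls.1 hD1
    have hDΔ' : IsCoprime D Δ := hDΔ.of_mul_right_left
    have hDE : IsCoprime D E := hDΔ.of_mul_right_right
    have hsq : Squarefree (D * E) :=
      squarefree_mul_iff.2 ⟨isRelPrime_iff_isCoprime.2 hDE, hDs, hEs⟩
    have hmem : D * E ∈ Cls Δ n := by
      rw [mem_Cls]
      refine ⟨hDm.mul hEm, ?_, hsq, IsCoprime.mul_left hDΔ' hEΔ⟩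
      rw [hDm.natDegree_mul hEm, hDd]
      omega
    rw [if_pos hmem, termL, hprod, PC.om_mul hDm hEm hDE, pow_add, prod_mgU U]
    have e1 : ∏ u : {u // u ∈ U}, et χ Δ b g u.1 (mgU U x y u.1).1 =
        ∏ u : {u // u ∈ U}, et χ Δ b g u.1 (x u).1 :=
      Finset.prod_congr rfl fun u _ => by rw [mgU_in]
    have e2 : ∏ w : {w // w ∉ U}, et χ Δ b g w.1 (mgU U x y w.1).1 =
        ∏ w : {w // w ∉ U}, et χ Δ b g w.1 (y w).1 :=
      Finset.prod_congr rfl fun w _ => by rw [mgU_out]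
    have e3 : ∏ u, ∏ w, ps (C.Phi u w * lm χ (mgU U x y w).1 (mgU U x y u).1) =
        ps (∑ u, ∑ w, C.Phi u w * lm χ (mgU U x y w).1 (mgU U x y u).1) := by
      rw [ps_sum]
      exact Finset.prod_congr rfl fun u _ => (ps_sum _ _).symm
    have e4 := wsp_dbl χ h2 C U hU (fun u => (x u).1) (fun w => (y w).1)
      (fun u => (mgU U x y u).1) (fun u => by rw [mgU_in]) (fun w => by rw [mgU_out])
    have e5 : ∏ u : {u // u ∈ U}, thc χ (b u.1) (Gy Δ y) (ey C g U u.1) (x u).1 =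
        (∏ u : {u // u ∈ U}, et χ Δ b g u.1 (x u).1) *
          ps (∑ u : {u // u ∈ U}, ∑ w : {w // w ∉ U}, C.lk u.1 w.1 * lm χ (y w).1 (x u).1) := by
      rw [ps_sum, ← Finset.prod_mul_distrib]
      refine Finset.prod_congr rfl fun u _ => ?_
      have hux : (x u).1 ∣ D := by
        rw [hD]
        exact Finset.dvd_prod_of_mem (fun u => (x u).1) (Finset.mem_univ u)
      have hcop : ∀ i, IsCoprime (Gy Δ y i) (x u).1 := by
        rintro (v | w)
        · have h3 : (v.1 : F[X]) ∣ Δ := (mem_pf' v.2).2.2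
          exact ((hDΔ'.of_isCoprime_of_dvd_left hux).of_isCoprime_of_dvd_right h3).symm
        · have h3 : (y w).1 ∣ E := by
            rw [hE]
            exact Finset.dvd_prod_of_mem (fun w => (y w).1) (Finset.mem_univ w)
          exact ((hDE.of_isCoprime_of_dvd_left hux).of_isCoprime_of_dvd_right h3).symm
      rw [thc_val χ (b u.1) (Gy Δ y) (ey C g U u.1) (x u).2.1 hcop, wsp_et, ← ps_add,
        Fintype.sum_sum_type, ← add_assoc]
      rfl
    rw [e1, e2, e3, e4, e5, ps_add]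
    ring
  · rw [if_neg hcond, if_neg]
    intro h1
    apply hcond
    obtain ⟨_, h4, h5, h6⟩ := mem_Cls.1 h1
    obtain ⟨h7, h8, h9⟩ := squarefree_mul_iff.1 h5
    rw [hDm.natDegree_mul hEm] at h4
    refine ⟨⟨mem_Cls.2 ⟨hEm, rfl, h9, h6.of_mul_left_right⟩, by omega⟩,
      mem_Cls.2 ⟨hDm, by omega, h8, ?_⟩⟩
    exact IsCoprime.mul_right h6.of_mul_left_left (isRelPrime_iff_isCoprime.1 h7)

end Pool.Agent.H94.PL
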